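import Pool.Agent.P.MP_0d657e_an.Pkg

/-! Trigonometric functions of the height, the space `H1`, Fourier modes, reflection and the
primitive in the angle. -/

open Set Real MeasureTheory

namespace Pool.Agent.P.MP_0d657e_an

noncomputable section

section trig
variable {a b' : ℝ}

/-- `sin (j t)` -/
def sn (j : ℝ) : D a b' := res (fun t => sin (j * t)) (by fun_prop)
/-- `cos (j t)` -/
def cs (j : ℝ) : D a b' := res (fun t => cos (j * t)) (by fun_prop)

@[simp] lemma sn_apply (j : ℝ) (t : Icc a b') : (sn j : D a b') t = sin (j * t) := rfl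
@[simp] lemma cs_apply (j : ℝ) (t : Icc a b') : (cs j : D a b') t = cos (j * t) := rfl

lemma D1_sn (j : ℝ) : D1 (sn j : D a b') (j • cs j) :=
  (D1_res (f := fun t => sin (j * t)) (f' := fun t => j * cos (j * t)) (by fun_prop) (by fun_prop)
    (fun t => by simpa [mul_comm] using ((hasDerivAt_id t).const_mul j).sin)).congr' (by
      ext t; simp)

lemma D1_cs (j : ℝ) : D1 (cs j : D a b') (-(j • sn j)) :=
  (D1_res (f := fun t => cos (j * t)) (f' := fun t => -(j * sin (j * t))) (by fun_prop)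
    (by fun_prop)
    (fun t => by simpa [mul_comm] using ((hasDerivAt_id t).const_mul j).cos)).congr' (by
      ext t; simp)

lemma Sd_sn_cs (j : ℝ) : ∀ m : ℕ, Sd m (sn j : D a b') ∧ Sd m (cs j : D a b')
  | 0 => ⟨trivial, trivial⟩
  | m + 1 => ⟨⟨_, D1_sn j, (Sd_sn_cs j m).2.smul j⟩, ⟨_, D1_cs j, ((Sd_sn_cs j m).1.smul j).neg⟩⟩

lemma norm_sn_le (j : ℝ) : ‖(sn j : D a b')‖ ≤ 1 :=
  D.norm_le zero_le_one (fun t => by simpa using abs_sin_le_one _)
lemma norm_cs_le (j : ℝ) : ‖(cs j : D a b')‖ ≤ 1 :=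
  D.norm_le zero_le_one (fun t => by simpa using abs_cos_le_one _)

@[simp] lemma cs_zero : (cs 0 : D a b') = 1 := by ext t; simp
@[simp] lemma sn_zero : (sn 0 : D a b') = 0 := by ext t; simp
lemma sn_neg (j : ℝ) : (sn (-j) : D a b') = -sn j := by ext t; simp
lemma cs_neg (j : ℝ) : (cs (-j) : D a b') = cs j := by ext t; simp

lemma cs_mul_cs (k l : ℝ) : (cs k * cs l : D a b') = (1/2 : ℝ) • (cs (k + l) + cs (k - l)) := by
  ext t; simp [add_mul, sub_mul, cos_add, cos_sub]; ring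
lemma sn_mul_sn (k l : ℝ) : (sn k * sn l : D a b') = (1/2 : ℝ) • (cs (k - l) - cs (k + l)) := by
  ext t; simp [add_mul, sub_mul, cos_add, cos_sub]; ring
lemma sn_mul_cs (k l : ℝ) : (sn k * cs l : D a b') = (1/2 : ℝ) • (sn (k + l) + sn (k - l)) := by
  ext t; simp [add_mul, sub_mul, sin_add, sin_sub]; ring

end trig

lemma Sd_ex (r : ℝ) : ∀ m : ℕ, Sd m (ex r)
  | 0 => trivial
  | m + 1 => ⟨_, D1_ex r, (Sd_ex r m).smul r⟩

/-- `sin t` -/
def s1 : D0 := sn 1
/-- `cos t` -/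
def c1 : D0 := cs 1
/-- `sin 2t` -/
def s2 : D0 := sn 2
/-- `cos 2t` -/
def c2 : D0 := cs 2

lemma D1_s1 : D1 s1 c1 := by simpa [s1, c1] using D1_sn (a := 0) (b' := π) 1
lemma D1_c1 : D1 c1 (-s1) := by simpa [s1, c1] using D1_cs (a := 0) (b' := π) 1
lemma D1_s2 : D1 s2 ((2:ℝ) • c2) := D1_sn 2
lemma D1_c2 : D1 c2 (-((2:ℝ) • s2)) := D1_cs 2
lemma D1_om : D1 om (-(b • om)) := by simpa [om] using D1_ex (-b)
@[simp] lemma s1_apply (t : Icc (0:ℝ) π) : s1 t = sin t := by simp [s1]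
@[simp] lemma c1_apply (t : Icc (0:ℝ) π) : c1 t = cos t := by simp [c1]
@[simp] lemma s2_apply (t : Icc (0:ℝ) π) : s2 t = sin (2 * t) := rfl
@[simp] lemma c2_apply (t : Icc (0:ℝ) π) : c2 t = cos (2 * t) := rfl
@[simp] lemma om_apply (t : Icc (0:ℝ) π) : om t = exp (-b * t) := rfl
lemma s2_eq : s2 = 2 * s1 * c1 := by ext t; simp [sin_two_mul]
lemma c2_eq : c2 = c1 * c1 - s1 * s1 := by ext t; simp [cos_two_mul']; ring
lemma s1c1 : s1 * s1 + c1 * c1 = 1 := by
  ext t; simpa [sq] using sin_sq_add_cos_sq (t:ℝ)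
lemma om_mul_ex : om * ex b = 1 := by simp [om, ex_mul]
lemma sn_nat_lo (j : ℤ) : (sn j : D0) lo = 0 := by simp
lemma sn_nat_hi (j : ℤ) : (sn j : D0) hi = 0 := by simp [sin_int_mul_pi]

lemma J_cs (j : ℤ) : J (cs j : D0) = if j = 0 then π else 0 := by
  split_ifs with h
  · simp [h, J_one]
  · have := ((D1_sn (a := 0) (b' := π) j).smul (j:ℝ)⁻¹).J_zero (by simp)
      (by simp [sin_int_mul_pi])
    rwa [smul_smul, inv_mul_cancel₀ (by exact_mod_cast h), one_smul] at this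

lemma J_sn_sn (j k : ℕ) (hj : 0 < j) :
    J (sn j * sn k : D0) = if j = k then π / 2 else 0 := by
  have h1 := J_cs ((j:ℤ) - k)
  have h2 := J_cs ((j:ℤ) + k)
  push_cast at h1 h2
  rw [sn_mul_sn, map_smul, map_sub, h1, h2, if_neg (by omega : ¬ ((j:ℤ) + k = 0))]
  by_cases h : j = k
  · simp [h]; ring
  · simp [h, sub_eq_zero]

lemma J_cs_cs (j k : ℕ) (hj : 0 < j) :
    J (cs j * cs k : D0) = if j = k then π / 2 else 0 := by
  have h1 := J_cs ((j:ℤ) - k)
  have h2 := J_cs ((j:ℤ) + k)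
  push_cast at h1 h2
  rw [cs_mul_cs, map_smul, map_add, h1, h2, if_neg (by omega : ¬ ((j:ℤ) + k = 0))]
  by_cases h : j = k
  · simp [h]; ring
  · simp [h, sub_eq_zero]

lemma J_s1_s1 : J (s1 * s1) = π / 2 := by simpa [s1, s2] using J_sn_sn 1 1 one_pos
lemma J_s2_s2 : J (s2 * s2) = π / 2 := by simpa [s1, s2] using J_sn_sn 2 2 two_pos
lemma J_s1_s2 : J (s1 * s2) = 0 := by simpa [s1, s2] using J_sn_sn 1 2 one_pos
lemma J_c1_c1 : J (c1 * c1) = π / 2 := by simpa [c1, c2] using J_cs_cs 1 1 one_pos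
lemma J_c2_c2 : J (c2 * c2) = π / 2 := by simpa [c1, c2] using J_cs_cs 2 2 two_pos
lemma J_c1_c2 : J (c1 * c2) = 0 := by simpa [c1, c2] using J_cs_cs 1 2 one_pos

/-- `C^1` functions of the height vanishing at both ends -/
def H1 : Submodule ℝ (D0 × D0) where
  carrier := {u | D1 u.1 u.2 ∧ u.1 lo = 0 ∧ u.1 hi = 0}
  add_mem' := fun hu hv => ⟨hu.1.add hv.1, by simp [hu.2.1, hv.2.1], by simp [hu.2.2, hv.2.2]⟩
  zero_mem' := ⟨D1_zero, rfl, rfl⟩
  smul_mem' := fun c _ hu => ⟨hu.1.smul c, by simp [hu.2.1], by simp [hu.2.2]⟩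

namespace H1
/-- the function -/
def f : H1 →ₗ[ℝ] D0 := (LinearMap.fst ℝ _ _).comp H1.subtype
/-- its derivative -/
def d : H1 →ₗ[ℝ] D0 := (LinearMap.snd ℝ _ _).comp H1.subtype
lemma d1 (u : H1) : D1 (f u) (d u) := u.2.1
lemma at_lo (u : H1) : f u lo = 0 := u.2.2.1
lemma at_hi (u : H1) : f u hi = 0 := u.2.2.2
/-- constructor -/
def mk (y y' : D0) (h : D1 y y') (h0 : y lo = 0) (h1 : y hi = 0) : H1 := ⟨(y, y'), h, h0, h1⟩
@[simp] lemma f_mk (y y' : D0) (h h0 h1) : f (mk y y' h h0 h1) = y := rfl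
@[simp] lemma d_mk (y y' : D0) (h h0 h1) : d (mk y y' h h0 h1) = y' := rfl
lemma ext' {u v : H1} (h : f u = f v) : u = v :=
  Subtype.ext (Prod.ext h (D1.unique pi_pos (d1 u) (h ▸ d1 v)))
/-- product with a `C^1` function -/
def mulL {g g' : D0} (h : D1 g g') : H1 →ₗ[ℝ] H1 where
  toFun u := mk (g * f u) (g' * f u + g * d u) (h.mul (d1 u)) (by simp [at_lo]) (by simp [at_hi])
  map_add' u v := ext' (by simp [mul_add])
  map_smul' c u := ext' (by simp)
@[simp] lemma f_mulL {g g' : D0} (h : D1 g g') (u : H1) : f (mulL h u) = g * f u := rfl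
@[simp] lemma d_mulL {g g' : D0} (h : D1 g g') (u : H1) :
    d (mulL h u) = g' * f u + g * d u := rfl
lemma J_d (u : H1) : J (d u) = 0 := (d1 u).J_zero (at_lo u) (at_hi u)
lemma parts {g g' : D0} (h : D1 g g') (u : H1) : J (g' * f u) = -J (g * d u) := by
  have := J_d (mulL h u)
  simp only [d_mulL, map_add] at this
  linarith
/-- the `H^1` seminorm -/
def nr : Seminorm ℝ H1 := PJ.nrm.comp f + PJ.nrm.comp d
lemma nr_apply (u : H1) : nr u = PJ.nrm (f u) + PJ.nrm (d u) := rfl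
lemma f_le (u : H1) : PJ.nrm (f u) ≤ nr u := le_add_of_nonneg_right (apply_nonneg _ _)
lemma d_le (u : H1) : PJ.nrm (d u) ≤ nr u := le_add_of_nonneg_left (apply_nonneg _ _)
lemma nr_mulL {g g' : D0} (h : D1 g g') (u : H1) : nr (mulL h u) ≤ (‖g‖ + ‖g'‖) * nr u := by
  rw [nr_apply, nr_apply, f_mulL, d_mulL]
  have h1 := PJ.nrm_mul_le g (f u)
  have h2 := PJ.nrm_mul_le g' (f u)
  have h3 := PJ.nrm_mul_le g (d u)
  have h4 := map_add_le_add PJ.nrm (g' * f u) (g * d u)
  have h5 := mul_nonneg (norm_nonneg g') (apply_nonneg PJ.nrm (d u))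
  nlinarith
lemma eq_zero {u : H1} (h : nr u ≤ 0) : u = 0 :=
  ext' (by
    rw [map_zero]
    exact eq_zero_of_nrm pi_pos (le_antisymm ((f_le u).trans h) (apply_nonneg _ _)))
end H1

/-- `sin (j t)` as an element of `H1` -/
def SN (j : ℤ) : H1 := H1.mk (sn j) ((j:ℝ) • cs j) (D1_sn j) (sn_nat_lo j) (sn_nat_hi j)
@[simp] lemma f_SN (j : ℤ) : H1.f (SN j) = sn j := rfl
@[simp] lemma d_SN (j : ℤ) : H1.d (SN j) = (j:ℝ) • cs j := rfl
/-- `sin t` -/
def S1 : H1 := H1.mk s1 c1 D1_s1 (by simp) (by simp)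
/-- `sin 2t` -/
def S2 : H1 := H1.mk s2 ((2:ℝ) • c2) D1_s2 (by simp) (by simp [sin_two_pi])
@[simp] lemma f_S1 : H1.f S1 = s1 := rfl
@[simp] lemma d_S1 : H1.d S1 = c1 := rfl
@[simp] lemma f_S2 : H1.f S2 = s2 := rfl
@[simp] lemma d_S2 : H1.d S2 = (2:ℝ) • c2 := rfl

namespace H
/-- the `H^1` seminorm -/
def nr : Seminorm ℝ H := P2.nrm.comp f + P2.nrm.comp fx + P2.nrm.comp ft
lemma nr_apply (u : H) : nr u = P2.nrm (f u) + P2.nrm (fx u) + P2.nrm (ft u) := rfl
lemma f_le (u : H) : P2.nrm (f u) ≤ nr u := by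
  rw [nr_apply]; linarith [apply_nonneg P2.nrm (fx u), apply_nonneg P2.nrm (ft u)]
lemma fx_le (u : H) : P2.nrm (fx u) ≤ nr u := by
  rw [nr_apply]; linarith [apply_nonneg P2.nrm (f u), apply_nonneg P2.nrm (ft u)]
lemma ft_le (u : H) : P2.nrm (ft u) ≤ nr u := by
  rw [nr_apply]; linarith [apply_nonneg P2.nrm (fx u), apply_nonneg P2.nrm (f u)]
lemma eq_zero {u : H} (h : nr u ≤ 0) : u = 0 :=
  ext' (by
    rw [map_zero]
    exact eq_zero_of_nrm2 (le_antisymm ((f_le u).trans h) (apply_nonneg _ _)))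
end H

/-- cosine mode as a function on the annulus -/
def embc (k : ℤ) : H1 →ₗ[ℝ] H where
  toFun y := H.mk (ι (H1.f y) * cx k) (-((k:ℝ) • (ι (H1.f y) * sx k))) (ι (H1.d y) * cx k)
    (((Dx_ι _).mul (Dx_cx k)).congr' (by simp))
    (((Dt_ι (H1.d1 y)).mul (Dt_cx k)).congr' (by simp))
    (fun x => by simp [H1.at_lo]) (fun x => by simp [H1.at_hi])
  map_add' u v := H.ext' (by simp [add_mul])
  map_smul' c u := H.ext' (by simp)

/-- sine mode as a function on the annulus -/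
def embs (k : ℤ) : H1 →ₗ[ℝ] H where
  toFun y := H.mk (ι (H1.f y) * sx k) ((k:ℝ) • (ι (H1.f y) * cx k)) (ι (H1.d y) * sx k)
    (((Dx_ι _).mul (Dx_sx k)).congr' (by simp))
    (((Dt_ι (H1.d1 y)).mul (Dt_sx k)).congr' (by simp))
    (fun x => by simp [H1.at_lo]) (fun x => by simp [H1.at_hi])
  map_add' u v := H.ext' (by simp [add_mul])
  map_smul' c u := H.ext' (by simp)

@[simp] lemma f_embc (k : ℤ) (y : H1) : H.f (embc k y) = ι (H1.f y) * cx k := rfl
@[simp] lemma fx_embc (k : ℤ) (y : H1) :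
    H.fx (embc k y) = -((k:ℝ) • (ι (H1.f y) * sx k)) := rfl
@[simp] lemma ft_embc (k : ℤ) (y : H1) : H.ft (embc k y) = ι (H1.d y) * cx k := rfl
@[simp] lemma f_embs (k : ℤ) (y : H1) : H.f (embs k y) = ι (H1.f y) * sx k := rfl
@[simp] lemma fx_embs (k : ℤ) (y : H1) : H.fx (embs k y) = (k:ℝ) • (ι (H1.f y) * cx k) := rfl
@[simp] lemma ft_embs (k : ℤ) (y : H1) : H.ft (embs k y) = ι (H1.d y) * sx k := rfl

/-- cosine coefficient of an element of `H` -/
def prc (k : ℤ) : H →ₗ[ℝ] H1 where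
  toFun u := H1.mk (cm k (H.f u)) (cm k (H.ft u)) ((H.dt u).cm k)
    (cm_eq_zero_at k _ (H.at_lo u)) (cm_eq_zero_at k _ (H.at_hi u))
  map_add' u v := H1.ext' (by simp)
  map_smul' c u := H1.ext' (by simp)

/-- sine coefficient of an element of `H` -/
def prs (k : ℤ) : H →ₗ[ℝ] H1 where
  toFun u := H1.mk (sm k (H.f u)) (sm k (H.ft u)) ((H.dt u).sm k)
    (sm_eq_zero_at k _ (H.at_lo u)) (sm_eq_zero_at k _ (H.at_hi u))
  map_add' u v := H1.ext' (by simp)
  map_smul' c u := H1.ext' (by simp)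

@[simp] lemma f_prc (k : ℤ) (u : H) : H1.f (prc k u) = cm k (H.f u) := rfl
@[simp] lemma d_prc (k : ℤ) (u : H) : H1.d (prc k u) = cm k (H.ft u) := rfl
@[simp] lemma f_prs (k : ℤ) (u : H) : H1.f (prs k u) = sm k (H.f u) := rfl
@[simp] lemma d_prs (k : ℤ) (u : H) : H1.d (prs k u) = sm k (H.ft u) := rfl

lemma nr_prc_le (k : ℤ) (u : H) : H1.nr (prc k u) ≤ H.nr u := by
  rw [H1.nr_apply, H.nr_apply]
  linarith [nrm_cm_le k (H.f u), nrm_cm_le k (H.ft u), apply_nonneg P2.nrm (H.fx u), f_prc k u,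
    congrArg PJ.nrm (f_prc k u), congrArg PJ.nrm (d_prc k u)]

lemma nr_prs_le (k : ℤ) (u : H) : H1.nr (prs k u) ≤ H.nr u := by
  rw [H1.nr_apply, H.nr_apply]
  linarith [nrm_sm_le k (H.f u), nrm_sm_le k (H.ft u), apply_nonneg P2.nrm (H.fx u),
    congrArg PJ.nrm (f_prs k u), congrArg PJ.nrm (d_prs k u)]

lemma nrm_ι_mul_le (y : D0) {F : C2} (h : ‖F‖ ≤ 1) : P2.nrm (ι y * F) ≤ PJ.nrm y := by
  rw [mul_comm, ← nrm_ι]
  exact (P2.nrm_mul_le _ _).trans (mul_le_of_le_one_left (apply_nonneg _ _) h)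

lemma nr_embc_le (k : ℤ) (y : H1) : H.nr (embc k y) ≤ (1 + |(k:ℝ)|) * H1.nr y := by
  rw [H1.nr_apply, H.nr_apply, f_embc, fx_embc, ft_embc, map_neg_eq_map, map_smul_eq_mul,
    Real.norm_eq_abs]
  have h1 := nrm_ι_mul_le (H1.f y) (norm_cx_le k)
  have h2 := mul_le_mul_of_nonneg_left (nrm_ι_mul_le (H1.f y) (norm_sx_le k)) (abs_nonneg (k:ℝ))
  have h3 := nrm_ι_mul_le (H1.d y) (norm_cx_le k)
  nlinarith [mul_nonneg (abs_nonneg (k:ℝ)) (apply_nonneg PJ.nrm (H1.d y))]

lemma nr_embs_le (k : ℤ) (y : H1) : H.nr (embs k y) ≤ (1 + |(k:ℝ)|) * H1.nr y := by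
  rw [H1.nr_apply, H.nr_apply, f_embs, fx_embs, ft_embs, map_smul_eq_mul, Real.norm_eq_abs]
  have h1 := nrm_ι_mul_le (H1.f y) (norm_sx_le k)
  have h2 := mul_le_mul_of_nonneg_left (nrm_ι_mul_le (H1.f y) (norm_cx_le k)) (abs_nonneg (k:ℝ))
  have h3 := nrm_ι_mul_le (H1.d y) (norm_sx_le k)
  nlinarith [mul_nonneg (abs_nonneg (k:ℝ)) (apply_nonneg PJ.nrm (H1.d y))]

lemma cm_cx (k l : ℤ) : cm k (cx l) =
    (1/2 : ℝ) • ((if k + l = 0 then 1 else 0) + if k - l = 0 then (1:D0) else 0) := by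
  have := cm_cx_mul k l 1
  rwa [mul_one, cm_one, cm_one] at this
lemma cm_sx (k l : ℤ) : cm k (sx l) = 0 := by simpa using cm_sx_mul k l 1
lemma sm_cx (k l : ℤ) : sm k (cx l) = 0 := by simpa using sm_cx_mul k l 1
lemma sm_sx (k l : ℤ) : sm k (sx l) =
    (1/2 : ℝ) • ((if k - l = 0 then 1 else 0) - if k + l = 0 then (1:D0) else 0) := by
  have := sm_sx_mul k l 1
  rwa [mul_one, cm_one, cm_one] at this

/-- reflection of the angle -/
def ρ : C2 →ₐ[ℝ] C2 where
  toFun F := C2.mk (fun x => F (-x)) (F.continuous.comp continuous_neg)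
  map_one' := rfl
  map_mul' _ _ := rfl
  map_zero' := rfl
  map_add' _ _ := rfl
  commutes' c := by ext x t; simp

@[simp] lemma ρ_apply (F : C2) (x : T) : ρ F x = F (-x) := rfl
@[simp] lemma ρ_ι (y : D0) : ρ (ι y) = ι y := rfl
@[simp] lemma ρ_cx (k : ℤ) : ρ (cx k) = cx k := C2_ext (fun x t => by
  rw [ρ_apply, ← AddCircle.coe_neg, cx_apply]; simp)
@[simp] lemma ρ_sx (k : ℤ) : ρ (sx k) = -sx k := C2_ext (fun x t => by
  rw [ρ_apply, ← AddCircle.coe_neg, sx_apply]; simp)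

lemma integral_shift (F : C2) (s : ℝ) :
    ∫ x in s..(s + tp), F x = ∫ x in (0:ℝ)..tp, F x := by
  have := Function.Periodic.intervalIntegral_add_eq (f := fun x : ℝ => F x) (T := tp)
    (fun x => C2_per F x) s 0
  rwa [zero_add] at this

lemma avg_ρ (F : C2) : avg (ρ F) = avg F := by
  rw [avg_def, avg_def]
  congr 1
  have h := intervalIntegral.integral_comp_neg (a := 0) (b := tp) (fun x : ℝ => F x)
  have h2 := integral_shift F (-tp)
  simp only [neg_add_cancel, neg_zero] at h h2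
  rw [← h2, ← h]
  rfl

lemma avg_odd {F : C2} (h : ρ F = -F) : avg F = 0 := by
  have := avg_ρ F
  rw [h, map_neg] at this
  have h2 : (2:ℝ) • avg F = 0 := by rw [two_smul]; exact neg_eq_iff_add_eq_zero.1 this
  simpa using h2

lemma II_odd {F : C2} (h : ρ F = -F) : II F = 0 := by simp [II_apply, avg_odd h]

/-- the primitive in the angle -/
def Px : C2 →L[ℝ] C2 :=
  LinearMap.mkContinuous
    { toFun := fun F => C2.mk (fun x => tp⁻¹ • ∫ y in (0:ℝ)..tp, (y - π) • F (x + y))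
        ((intervalIntegral.continuous_parametric_intervalIntegral_of_continuous' (μ := volume)
          (f := fun (x : T) (y : ℝ) => (y - π) • F (x + y))
          ((continuous_snd.sub continuous_const).smul (F.continuous.comp
            (continuous_fst.add ((AddCircle.continuous_mk' _).comp continuous_snd)))) 0
              tp).const_smul tp⁻¹)
      map_add' := fun F G => by
        ext1 x
        have hc : ∀ F : C2, Continuous fun y : ℝ => (y - π) • F (x + y) := fun F =>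
          (continuous_id.sub continuous_const).smul (F.continuous.comp
            (continuous_const.add (AddCircle.continuous_mk' _)))
        simp only [C2.mk_apply, C2.add_apply, smul_add]
        rw [intervalIntegral.integral_add ((hc F).intervalIntegrable _ _)
          ((hc G).intervalIntegrable _ _), smul_add]
      map_smul' := fun c F => by
        ext1 x
        simp only [C2.mk_apply, C2.smul_apply, RingHom.id_apply, smul_comm _ c]
        rw [intervalIntegral.integral_smul c, smul_comm] }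
    π (fun F => C2.norm_le (by positivity) (fun x => by
      have h := intervalIntegral.norm_integral_le_of_norm_le_const (a := 0) (b := tp)
        (f := fun y : ℝ => (y - π) • F (x + y)) (C := π * ‖F‖) (fun y hy => by
          rw [uIoc_of_le tp_pos.le] at hy
          rw [norm_smul]
          refine mul_le_mul ?_ (F.norm_coe_le_norm _) (norm_nonneg _) pi_pos.le
          have := hy.2
          unfold tp at this
          rw [Real.norm_eq_abs, abs_le]
          constructor <;> linarith [hy.1])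
      simp only [LinearMap.coe_mk, AddHom.coe_mk, C2.mk_apply, norm_smul, Real.norm_eq_abs]
      rw [sub_zero, abs_of_pos tp_pos] at h
      rw [abs_of_pos (inv_pos.2 tp_pos), inv_mul_le_iff₀ tp_pos]
      linarith))

lemma Px_apply (F : C2) (x : T) : Px F x = tp⁻¹ • ∫ y in (0:ℝ)..tp, (y - π) • F (x + y) := rfl

lemma Px_lift2 (L : D0 →L[ℝ] D0) (F : C2) : Px (lift2 L F) = lift2 L (Px F) := by
  ext1 x
  have hc : Continuous fun y : ℝ => (y - π) • F (x + y) :=
    (continuous_id.sub continuous_const).smul (F.continuous.comp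
      (continuous_const.add (AddCircle.continuous_mk' _)))
  rw [lift2_apply, Px_apply, Px_apply, map_smul,
    ← L.intervalIntegral_comp_comm (hc.intervalIntegrable _ _)]
  simp

lemma Px_ι_mul (y : D0) (F : C2) : Px (ι y * F) = ι y * Px F :=
  Px_lift2 (ContinuousLinearMap.mul ℝ D0 y) F

lemma Dt.Px {F G : C2} (h : Dt F G) : Dt (Px F) (Px G) := by
  let L : D0 →L[ℝ] D0 := (algebraMapCLM ℝ D0).comp (D.ev lo)
  have e : F = lift2 L F + lift2 V G := C2.ext (fun x => (h x).eq_V)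
  intro x
  rw [e, map_add, Px_lift2, Px_lift2]
  exact ((D1_const (a := 0) (b := π) (MP_0d657e_an.Px F x lo)).add (D1_V _)).congr rfl (zero_add _).symm

lemma Dx_Px (F : C2) : Dx (Px F) (F - ι (avg F)) := by
  have hF := C2_cont F
  have hc : Continuous fun z : ℝ => z • F z := continuous_id.smul hF
  have e : (fun x : ℝ => Px F x) = fun x : ℝ => tp⁻¹ • ((∫ z in (0:ℝ)..(x + tp), z • F z)
      - (∫ z in (0:ℝ)..x, z • F z) - (x + π) • ∫ z in (0:ℝ)..tp, F z) := by
    funext x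
    rw [Px_apply]
    congr 1
    have h1 := intervalIntegral.integral_comp_add_left (a := 0) (b := tp)
      (fun z : ℝ => (z - x - π) • F z) x
    simp only [add_sub_cancel_left, add_zero, AddCircle.coe_add] at h1
    rw [h1, intervalIntegral.integral_interval_sub_left (hc.intervalIntegrable _ _)
      (hc.intervalIntegrable _ _), ← integral_shift F x, ← intervalIntegral.integral_smul,
      ← intervalIntegral.integral_sub (hc.intervalIntegrable _ _)
        (Continuous.intervalIntegrable (u := fun z : ℝ => (x + π) • F z) (hF.const_smul (x + π)) _ _)]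
    congr 1
    funext z
    rw [← sub_smul]
    congr 1
    ring
  intro x
  rw [e]
  have hp : ∀ s : ℝ, HasDerivAt (fun u => ∫ z in (0:ℝ)..u, z • F z) (s • F s) s := fun s =>
    intervalIntegral.integral_hasDerivAt_right (hc.intervalIntegrable _ _)
      (hc.stronglyMeasurableAtFilter _ _) hc.continuousAt
  have h1 := (hp (x + tp)).scomp x ((hasDerivAt_id x).add_const tp)
  have h2 := ((hasDerivAt_id x).add_const π).smul_const (∫ z in (0:ℝ)..tp, F z)
  have h3 := ((h1.sub (hp x)).sub h2).const_smul tp⁻¹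
  refine h3.congr_deriv ?_
  rw [C2_per, C2.sub_apply, ι_apply, avg_def, one_smul, one_smul, smul_sub, ← sub_smul,
    add_sub_cancel_left, smul_smul, inv_mul_cancel₀ tp_pos.ne', one_smul]

end

end Pool.Agent.P.MP_0d657e_an
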