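import Pool.Agent.P.MP_0d657e_an.Basic3

/-! The first order design of the metric and the second order quadratic form. -/

open Set Real

namespace Pool.Agent.P.MP_0d657e_an

noncomputable section

/-- first order forcing of the kernel element -/
def Rr (κ : ℝ) (α α1 : D0) : D0 := (κ + 2) • (α * s1) + (1/2 : ℝ) • (α1 * (c1 + b • s1))

/-- explicit part of the first order tensor -/
def tE (κ : ℝ) (α α1 α2 : D0) : D0 :=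
  -((2 * b)⁻¹ • (α2 * s1)) - α * c1 + ((κ - 2) / (4 * b)) • (α1 * (c1 + b • s1))

/-- its derivative -/
def tE' (κ : ℝ) (α α1 α2 α3 : D0) : D0 :=
  -((2 * b)⁻¹ • (α3 * s1 + α2 * c1)) - (α1 * c1 - α * s1)
    + ((κ - 2) / (4 * b)) • (α2 * (c1 + b • s1) + α1 * (-s1 + b • c1))

lemma D1_tE (κ : ℝ) {α α1 α2 α3 : D0} (h : D1 α α1) (h1 : D1 α1 α2) (h2 : D1 α2 α3) :
    D1 (tE κ α α1 α2) (tE' κ α α1 α2 α3) :=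
  ((((h2.mul D1_s1).smul _).neg.sub (h.mul D1_c1)).add
    ((h1.mul (D1_c1.add (D1_s1.smul b))).smul _)).congr' (by
      simp only [tE', mul_neg, sub_eq_add_neg])

/-- the dual test function -/
def KT : H1 →ₗ[ℝ] H1 where
  toFun w := H1.mk (c1 * H1.f w + 2 * s1 * V (H1.f w))
    (c1 * H1.d w + s1 * H1.f w + 2 * c1 * V (H1.f w))
    (((D1_c1.mul (H1.d1 w)).add (((D1_s1.smul 2).mul (D1_V (H1.f w))))).congr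
      (by simp [Algebra.smul_def, map_ofNat]) (by simp only [Algebra.smul_def, map_ofNat]; ring))
    (by simp [H1.at_lo]) (by simp [H1.at_hi])
  map_add' u v := H1.ext' (by simp only [H1.f_mk, map_add]; ring)
  map_smul' c u := H1.ext' (by
    simp only [H1.f_mk, map_smul, RingHom.id_apply, smul_add, mul_smul_comm])

lemma f_KT (w : H1) : H1.f (KT w) = c1 * H1.f w + 2 * s1 * V (H1.f w) := rfl
lemma d_KT (w : H1) : H1.d (KT w) = c1 * H1.d w + s1 * H1.f w + 2 * c1 * V (H1.f w) := rfl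

/-- the first order design -/
structure Des where
  n : ℕ
  K : Finset ℤ
  α : ℤ → D0
  α1 : ℤ → D0
  α2 : ℤ → D0
  α3 : ℤ → D0
  φ : ℤ → D0
  φ1 : ℤ → D0
  φ2 : ℤ → D0
  g2 : D0
  g2' : D0
  n_pos : 0 < n
  hα : ∀ k, D1 (α k) (α1 k)
  hα1 : ∀ k, D1 (α1 k) (α2 k)
  hα2 : ∀ k, D1 (α2 k) (α3 k)
  smooth : ∀ k m, Sd m (α k)
  K_neg : ∀ k ∈ K, -k ∈ K
  α_neg : ∀ k, α (-k) = α k
  α_off : ∀ k, k ∉ K → α k = 0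
  hφ : ∀ k, D1 (φ k) (φ1 k)
  hφ1 : ∀ k, D1 (φ1 k) (φ2 k)
  φ_lo : ∀ k, φ k lo = 0
  φ_hi : ∀ k, φ k hi = 0
  φ_neg : ∀ k, φ (-k) = φ k
  ode : ∀ k : ℤ, φ2 k + (5 - ((k:ℝ) / n) ^ 2) • φ k =
    -(Rr (k / n) (α (2 * n - k)) (α1 (2 * n - k)) + Rr (-(k / n)) (α (2 * n + k)) (α1 (2 * n + k)))
  φ_2n : φ (2 * n) = 0
  hg2 : D1 g2 g2'
  g2_eq : 2 * s1 * g2 = -∑ k ∈ K, b⁻¹ • (ex b * α1 k) * φ k
  m0 : (0:ℤ) ∉ K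
  m2 : (2 * n : ℤ) ∉ K
  m4 : (4 * n : ℤ) ∉ K
  m1 : (n : ℤ) ∈ K
  m3 : (3 * n : ℤ) ∈ K
  sum_ne : ∀ k ∈ K, ∀ l ∈ K, k + l ≠ n
  αn : α1 n = b • om
  Mo : J (s2 * (Rr 1 (α n) (α1 n) - Rr (-1) (α (3 * n)) (α1 (3 * n)))) ≠ 0
  κ2 : 0 < J (om * ((1/4 : ℝ) • (s1 ^ 3 * (α (6 * n) + b⁻¹ • α1 (6 * n)))
    + (3/2 : ℝ) • (s1 ^ 2 * φ (4 * n))))

namespace Des

variable (Ds : Des)

/-- reduced frequency -/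
def κ (k : ℤ) : ℝ := (k:ℝ) / Ds.n
/-- the forcing profile -/
def g (k : ℤ) : D0 := b⁻¹ • (ex b * Ds.α1 k)
/-- its derivative -/
def g' (k : ℤ) : D0 := b⁻¹ • (ex b * (Ds.α2 k + b • Ds.α1 k))
/-- the first order variation of `c` -/
def cc (k : ℤ) : D0 := Ds.α k + b⁻¹ • Ds.α1 k
/-- half of the first order tensor -/
def τ (k : ℤ) : D0 :=
  -Ds.φ1 k + tE (Ds.κ k) (Ds.α (2 * Ds.n - k)) (Ds.α1 (2 * Ds.n - k)) (Ds.α2 (2 * Ds.n - k))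
/-- its derivative -/
def τ' (k : ℤ) : D0 :=
  -Ds.φ2 k + tE' (Ds.κ k) (Ds.α (2 * Ds.n - k)) (Ds.α1 (2 * Ds.n - k)) (Ds.α2 (2 * Ds.n - k))
    (Ds.α3 (2 * Ds.n - k))

lemma D1_g (k : ℤ) : D1 (Ds.g k) (Ds.g' k) :=
  (((D1_ex b).mul (Ds.hα1 k)).smul b⁻¹).congr' (by
    simp only [g', mul_add, mul_smul_comm, smul_mul_assoc, add_comm])

lemma D1_τ (k : ℤ) : D1 (Ds.τ k) (Ds.τ' k) :=
  (Ds.hφ1 k).neg.add (D1_tE _ (Ds.hα _) (Ds.hα1 _) (Ds.hα2 _))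

lemma α1_neg (k : ℤ) : Ds.α1 (-k) = Ds.α1 k :=
  D1.unique pi_pos (Ds.hα (-k)) (by rw [Ds.α_neg]; exact Ds.hα k)
lemma α2_neg (k : ℤ) : Ds.α2 (-k) = Ds.α2 k :=
  D1.unique pi_pos (Ds.hα1 (-k)) (by rw [Ds.α1_neg]; exact Ds.hα1 k)
lemma α3_neg (k : ℤ) : Ds.α3 (-k) = Ds.α3 k :=
  D1.unique pi_pos (Ds.hα2 (-k)) (by rw [Ds.α2_neg]; exact Ds.hα2 k)
lemma φ1_neg (k : ℤ) : Ds.φ1 (-k) = Ds.φ1 k :=
  D1.unique pi_pos (Ds.hφ (-k)) (by rw [Ds.φ_neg]; exact Ds.hφ k)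
lemma φ2_neg (k : ℤ) : Ds.φ2 (-k) = Ds.φ2 k :=
  D1.unique pi_pos (Ds.hφ1 (-k)) (by rw [Ds.φ1_neg]; exact Ds.hφ1 k)
lemma α1_off {k : ℤ} (h : k ∉ Ds.K) : Ds.α1 k = 0 :=
  D1.unique pi_pos (Ds.hα k) (by rw [Ds.α_off k h]; exact D1_zero)
lemma α2_off {k : ℤ} (h : k ∉ Ds.K) : Ds.α2 k = 0 :=
  D1.unique pi_pos (Ds.hα1 k) (by rw [Ds.α1_off h]; exact D1_zero)
lemma α3_off {k : ℤ} (h : k ∉ Ds.K) : Ds.α3 k = 0 :=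
  D1.unique pi_pos (Ds.hα2 k) (by rw [Ds.α2_off h]; exact D1_zero)

/-- coupling term coming from the linearised operator -/
def β1 (Y : ℤ → H1) (k : ℤ) : ℝ :=
  J (Ds.α (2 * Ds.n - k) * (H1.d (Y k) * H1.d (KT (Y Ds.n))
      - (2 * Ds.κ k) • (H1.f (Y k) * H1.f (KT (Y Ds.n))))
    - (5:ℝ) • (Ds.cc (2 * Ds.n - k) * H1.f (Y k) * H1.f (KT (Y Ds.n))))

/-- coupling term coming from the first order tensor -/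
def τt (v : D0) (Y : ℤ → H1) (k : ℤ) : ℝ :=
  J (v * (Ds.τ' k * H1.f (Y k) + Ds.τ k * H1.d (Y k)))

/-- coupling term coming from the zeroth order tensor -/
def t0 (Y : ℤ → H1) (k : ℤ) : ℝ :=
  (1/2 : ℝ) * J (om * (-(c1 * ((Ds.κ k * (2 - Ds.κ k)) • (H1.f (Y k) * H1.f (Y (2 * Ds.n - k)))
      + H1.d (Y k) * H1.d (Y (2 * Ds.n - k))))
    + Ds.κ k • (s1 * H1.f (Y k) * H1.d (Y (2 * Ds.n - k)))))

/-- the second order form -/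
def q (v : D0) (Y : ℤ → H1) : ℝ :=
  -2 * J (v * (Ds.g2' * H1.f (KT (Y Ds.n)) + Ds.g2 * H1.d (KT (Y Ds.n))))
    + ∑ k ∈ Ds.K, (Ds.β1 Y k + Ds.τt v Y k + Ds.t0 Y k)

/-- the approximate first order equations -/
def Con (v : D0) (Y : ℤ → H1) (e : ℝ) : Prop :=
  ∀ k ∈ Ds.K, ∀ θ : H1,
    |J (H1.d (Y k) * H1.d θ + (Ds.κ k ^ 2 - 5) • (H1.f (Y k) * H1.f θ))
      - J (v * (Ds.g' k * H1.f θ + Ds.g k * H1.d θ))| ≤ e * H1.nr θ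

/-- definiteness of the second order form -/
def Pos : Prop :=
  ∃ c0 > 0, ∃ C : ℝ, ∀ (v : D0) (Y : ℤ → H1) (e : ℝ), (∀ k, Y (-k) = Y k) →
    (∀ k, k ∉ Ds.K → Y k = 0) → J (v * ex b) = 0 → 0 ≤ e → Ds.Con v Y e →
    c0 * (PJ.nrm v + ∑ k ∈ Ds.K, H1.nr (Y k)) ^ 2 ≤ -Ds.q v Y + C * e ^ 2

/-- the kernel element at order zero -/
def e2 : H := embc (2 * Ds.n) S1
/-- the tensor at order zero -/
def T0tt : C2 := -((2:ℝ) • (ι (om * c1) * cx (2 * Ds.n)))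
/-- the tensor at order zero -/
def T0xt : C2 := -((Ds.n:ℝ)⁻¹ • (ι (om * s1) * sx (2 * Ds.n)))

/-- first order terms of the kernel element and of the tensor -/
structure First where
  φt : H
  T1tt : C2
  T1xt : C2
  φt_2n : cm (2 * Ds.n) (H.f φt) = 0
  tt_K : ∀ k ∈ Ds.K, cm k T1tt = (1/2 : ℝ) • (om * (Ds.τ k + Ds.τ (-k)))
  xt_K : ∀ k ∈ Ds.K, (k:ℝ) • sm k T1xt = -((1/2 : ℝ) • (om * (Ds.τ' k + Ds.τ' (-k))))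
  tt_2n : cm (2 * Ds.n) T1tt = 0
  xt_2n : sm (2 * Ds.n) T1xt = 0

/-- the geometry is close to the design -/
structure Approx (F : Ds.First) (C κ0 η : ℝ) (G : Geo) where
  Ah : ℤ → D0
  Ah1 : ℤ → D0
  Ah2 : ℤ → D0
  q0 : D0
  q1 : D0
  q2 : D0
  hA : G.A = 1 + ∑ k ∈ Ds.K, ι (Ah k) * cx k + ι q0 * cx (2 * Ds.n)
  hAh : ∀ k, D1 (Ah k) (Ah1 k)
  hAh1 : ∀ k, D1 (Ah1 k) (Ah2 k)
  hq0 : D1 q0 q1
  hq1 : D1 q1 q2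
  Ah_neg : ∀ k, Ah (-k) = Ah k
  Ah_le : ∀ k, ‖Ah k - (η / 2) • Ds.α k‖ ≤ C * η ^ 2
  Ah1_le : ∀ k, ‖Ah1 k - (η / 2) • Ds.α1 k‖ ≤ C * η ^ 2
  Ah2_le : ∀ k, ‖Ah2 k - (η / 2) • Ds.α2 k‖ ≤ C * η ^ 2
  Ah_n : Ah Ds.n = (η / 2) • Ds.α Ds.n
  q0_le : ‖q0‖ ≤ C * η ^ 2
  q1_le : ‖q1 - η ^ 2 • (b • (om * Ds.g2))‖ ≤ C * η ^ 3
  q2_le : ‖q2 - η ^ 2 • (b • (om * (Ds.g2' - b • Ds.g2)))‖ ≤ C * η ^ 3
  d_le : |G.d - ((Ds.n:ℝ) ^ 2)⁻¹| ≤ C * η ^ 2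
  φ_le : ‖H.f (G.φ0 - Ds.e2 - η • F.φt)‖ ≤ C * η ^ 2
  φx_le : ‖H.fx (G.φ0 - Ds.e2 - η • F.φt)‖ ≤ C * η ^ 2
  φt_le : ‖H.ft (G.φ0 - Ds.e2 - η • F.φt)‖ ≤ C * η ^ 2
  Ttt_le : ‖G.Ttt - Ds.T0tt - η • F.T1tt‖ ≤ C * η ^ 2
  Txt_le : ‖G.Txt - Ds.T0xt - η • F.T1xt‖ ≤ C * η ^ 2
  avgT : avg G.Ttt = 0
  I_le : G.I G.φ0 G.φ0 ≤ -κ0 * η + C * η ^ 2

/-- existence of the exact geometry near the design -/
def Family : Prop :=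
  ∃ (F : Ds.First) (C κ0 η0 : ℝ), 0 < κ0 ∧ 0 < η0 ∧ ∀ η ∈ Ioo 0 η0,
    ∃ G : Geo, G.Exact ∧ G.Smooth ∧ Nonempty (Ds.Approx F C κ0 η G)

end Des

end

end Pool.Agent.P.MP_0d657e_an
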