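import Pool.Agent.P.MP_0d657e_an.Parseval
import Pool.Agent.P.MP_0d657e_an.Des

/-! Quadratic forms on the annulus, their Fourier modes, and the Garding inequality. -/

open Set Real

namespace Pool.Agent.P.MP_0d657e_an

noncomputable section

/-- coefficients `xx`, `xt`, `tt` and of order zero -/
abbrev P4 := C2 × C2 × C2 × C2

/-- the bilinear form with given coefficients -/
def Qf (P : P4) : H →ₗ[ℝ] H →ₗ[ℝ] ℝ :=
  LinearMap.mk₂ ℝ (fun u v => II (P.1 * H.fx u * H.fx v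
      + P.2.1 * (H.fx u * H.ft v + H.ft u * H.fx v) + P.2.2.1 * H.ft u * H.ft v
      + P.2.2.2 * H.f u * H.f v))
    (fun u u' v => by rw [← map_add]; congr 1; simp only [map_add]; ring)
    (fun c u v => by
      rw [← map_smul]; congr 1; simp only [map_smul, Algebra.smul_def]; ring)
    (fun u v v' => by rw [← map_add]; congr 1; simp only [map_add]; ring)
    (fun c u v => by
      rw [← map_smul]; congr 1; simp only [map_smul, Algebra.smul_def]; ring)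

lemma Qf_apply (P : P4) (u v : H) : Qf P u v = II (P.1 * H.fx u * H.fx v
      + P.2.1 * (H.fx u * H.ft v + H.ft u * H.fx v) + P.2.2.1 * H.ft u * H.ft v
      + P.2.2.2 * H.f u * H.f v) := rfl

lemma Qf_symm (P : P4) (u v : H) : Qf P u v = Qf P v u := by
  rw [Qf_apply, Qf_apply]; congr 1; ring

lemma Qf_add (P P' : P4) (u v : H) : Qf (P + P') u v = Qf P u v + Qf P' u v := by
  simp only [Qf_apply, ← map_add, Prod.fst_add, Prod.snd_add]; congr 1; ring

lemma Qf_smul (c : ℝ) (P : P4) (u v : H) : Qf (c • P) u v = c * Qf P u v := by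
  simp only [Qf_apply, ← smul_eq_mul c, ← map_smul, Prod.smul_fst, Prod.smul_snd]
  congr 1; simp only [Algebra.smul_def]; ring

lemma Qf_abs_le (P : P4) (u v : H) : |Qf P u v| ≤ ‖P‖ * H.nr u * H.nr v := by
  have e : Qf P u v = II (P.1 * H.fx u * H.fx v) + II (P.2.1 * H.fx u * H.ft v)
      + II (P.2.1 * H.ft u * H.fx v) + II (P.2.2.1 * H.ft u * H.ft v)
      + II (P.2.2.2 * H.f u * H.f v) := by
    simp only [Qf_apply, ← map_add]; congr 1; ring
  have h1 := P2.abs_mul3_le P.1 (H.fx u) (H.fx v)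
  have h2 := P2.abs_mul3_le P.2.1 (H.fx u) (H.ft v)
  have h3 := P2.abs_mul3_le P.2.1 (H.ft u) (H.fx v)
  have h4 := P2.abs_mul3_le P.2.2.1 (H.ft u) (H.ft v)
  have h5 := P2.abs_mul3_le P.2.2.2 (H.f u) (H.f v)
  simp only [P2_Φ] at h1 h2 h3 h4 h5
  have n1 : ‖P.1‖ ≤ ‖P‖ := norm_fst_le P
  have n2 : ‖P.2.1‖ ≤ ‖P‖ := (norm_fst_le P.2).trans (norm_snd_le P)
  have n3 : ‖P.2.2.1‖ ≤ ‖P‖ := (norm_fst_le P.2.2).trans ((norm_snd_le P.2).trans (norm_snd_le P))
  have n4 : ‖P.2.2.2‖ ≤ ‖P‖ := (norm_snd_le P.2.2).trans ((norm_snd_le P.2).trans (norm_snd_le P))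
  have k : ∀ {a p x y : ℝ}, |a| ≤ p * x * y → p ≤ ‖P‖ → 0 ≤ x → 0 ≤ y → |a| ≤ ‖P‖ * (x * y) :=
    fun h hp hx hy => h.trans (by rw [mul_assoc]; gcongr)
  have a0 := apply_nonneg P2.nrm (H.f u)
  have a1 := apply_nonneg P2.nrm (H.fx u)
  have a2 := apply_nonneg P2.nrm (H.ft u)
  have b0 := apply_nonneg P2.nrm (H.f v)
  have b1 := apply_nonneg P2.nrm (H.fx v)
  have b2 := apply_nonneg P2.nrm (H.ft v)
  have g1 := k h1 n1 a1 b1
  have g2 := k h2 n2 a1 b2
  have g3 := k h3 n2 a2 b1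
  have g4 := k h4 n3 a2 b2
  have g5 := k h5 n4 a0 b0
  rw [e, H.nr_apply, H.nr_apply]
  have hP := norm_nonneg P
  have : 0 ≤ ‖P‖ * (P2.nrm (H.f u) * (P2.nrm (H.fx v) + P2.nrm (H.ft v))
    + (P2.nrm (H.fx u) + P2.nrm (H.ft u)) * P2.nrm (H.f v)) := by positivity
  rw [abs_le] at g1 g2 g3 g4 g5 ⊢
  constructor <;> linarith [g1.1, g1.2, g2.1, g2.2, g3.1, g3.2, g4.1, g4.2, g5.1, g5.2]

lemma Qf_embc (P : P4) (u : H) (k : ℤ) (θ : H1) : Qf P u (embc k θ) =
    J (-((k:ℝ) • (H1.f θ * sm k (P.1 * H.fx u + P.2.1 * H.ft u)))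
      + H1.d θ * cm k (P.2.1 * H.fx u + P.2.2.1 * H.ft u) + H1.f θ * cm k (P.2.2.2 * H.f u)) := by
  simp only [map_add (J (a := 0) (b := π)), map_neg, map_smul, ← II_ι_cx_mul, ← II_ι_sx_mul]
  rw [Qf_apply, ← map_smul, ← map_neg, ← map_add, ← map_add]
  congr 1
  simp only [f_embc, fx_embc, ft_embc, Algebra.smul_def]
  ring

lemma Qf_embs (P : P4) (u : H) (k : ℤ) (θ : H1) : Qf P u (embs k θ) =
    J ((k:ℝ) • (H1.f θ * cm k (P.1 * H.fx u + P.2.1 * H.ft u))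
      + H1.d θ * sm k (P.2.1 * H.fx u + P.2.2.1 * H.ft u) + H1.f θ * sm k (P.2.2.2 * H.f u)) := by
  simp only [map_add (J (a := 0) (b := π)), map_smul, ← II_ι_cx_mul, ← II_ι_sx_mul]
  rw [Qf_apply, ← map_smul, ← map_add, ← map_add]
  congr 1
  simp only [f_embs, fx_embs, ft_embs, Algebra.smul_def]
  ring

/-- one dimensional form -/
def Q1 (m : ℝ) (y θ : H1) : ℝ := J (H1.d y * H1.d θ + m • (H1.f y * H1.f θ))

/-- coefficients of the unperturbed form -/
def PB0 (n : ℕ) : P4 := (((n:ℝ) ^ 2)⁻¹ • 1, 0, 1, (-5:ℝ) • 1)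

lemma B0_embc (n : ℕ) (u : H) (k : ℤ) (θ : H1) :
    Qf (PB0 n) u (embc k θ) = Q1 (((k:ℝ) / n) ^ 2 - 5) (prc k u) θ := by
  rw [Qf_embc, Q1]
  congr 1
  simp only [PB0, smul_mul_assoc, one_mul, zero_mul, add_zero, zero_add, map_smul,
    (H.dx u).sm_eq, f_prc, d_prc, div_eq_mul_inv, ← inv_pow]
  simp only [Algebra.smul_def, map_sub, map_pow, map_mul, map_neg, map_ofNat]
  ring

lemma B0_embs (n : ℕ) (u : H) (k : ℤ) (θ : H1) :
    Qf (PB0 n) u (embs k θ) = Q1 (((k:ℝ) / n) ^ 2 - 5) (prs k u) θ := by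
  rw [Qf_embs, Q1]
  congr 1
  simp only [PB0, smul_mul_assoc, one_mul, zero_mul, add_zero, zero_add, map_smul,
    (H.dx u).cm_eq, f_prs, d_prs, div_eq_mul_inv, ← inv_pow]
  simp only [Algebra.smul_def, map_sub, map_pow, map_mul, map_neg, map_ofNat]
  ring

lemma Q1_SN (m : ℝ) (y : H1) (j : ℤ) : Q1 m y (SN j) = (j ^ 2 + m) * J (H1.f y * sn j) := by
  simp only [Q1, f_SN, d_SN, map_add, map_smul, mul_smul_comm, H1.J_d_cs, smul_eq_mul]
  ring

lemma Q1_S1 (m : ℝ) (y : H1) : Q1 m y S1 = (1 + m) * J (H1.f y * s1) := by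
  have := Q1_SN m y 1
  simpa [Q1, s1, c1] using this

lemma Q1_S2 (m : ℝ) (y : H1) : Q1 m y S2 = (4 + m) * J (H1.f y * s2) := by
  have := Q1_SN m y 2
  norm_num at this
  simpa [Q1, s2, c2] using this

lemma Q1_zero (m : ℝ) (θ : H1) : Q1 m 0 θ = 0 := by simp [Q1]

/-- squares of the two lowest sine coefficients -/
def low (y : H1) : ℝ := J (H1.f y * s1) ^ 2 + J (H1.f y * s2) ^ 2

lemma low_nonneg (y : H1) : 0 ≤ low y := by unfold low; positivity

lemma JJ_nonneg (y : D0) : 0 ≤ J (y * y) := PJ.nonneg y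

lemma garding1 {n : ℕ} (hn : 0 < n) (k : ℤ) (y : H1) :
    (3 * (n:ℝ))⁻¹ * (J (H1.d y * H1.d y) + ((k:ℝ) / n) ^ 2 * J (H1.f y * H1.f y))
      ≤ Q1 (((k:ℝ) / n) ^ 2 - 5) y y
        + if k ∈ Finset.Icc (-(2 * n : ℤ)) (2 * n) then 5 * low y else 0 := by
  have hn1 : (1:ℝ) ≤ n := by exact_mod_cast hn
  have hD := JJ_nonneg (H1.d y)
  have hF := JJ_nonneg (H1.f y)
  have hp := H1.poincare y
  have hc : (3 * (n:ℝ))⁻¹ ≤ 1 / 3 := by
    rw [one_div]; exact inv_anti₀ (by norm_num) (by linarith)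
  have hc0 : 0 ≤ (3 * (n:ℝ))⁻¹ := by positivity
  have hκ := sq_nonneg ((k:ℝ) / n)
  simp only [Q1, map_add, map_smul, smul_eq_mul]
  split_ifs with h
  · have hg := H1.gap y
    have h2 : 2 / π ≤ 1 := by rw [div_le_one pi_pos]; linarith [pi_gt_three]
    have h3 : 0 ≤ 2 / π := by positivity
    have a1 := sq_nonneg (J (H1.f y * s1))
    have a2 := sq_nonneg (J (H1.f y * s2))
    have b1 := mul_le_mul_of_nonneg_right h2 a1
    have b2 := mul_le_mul_of_nonneg_right h2 a2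
    have b3 := mul_nonneg h3 a1
    have b4 := mul_nonneg h3 a2
    have b5 := mul_le_mul_of_nonneg_right hc
      (add_nonneg hD (mul_nonneg hκ hF))
    have b6 := mul_nonneg hκ hF
    unfold low
    nlinarith
  · have hk : (2 * n + 1 : ℝ) ^ 2 ≤ (k:ℝ) ^ 2 := by
      rw [Finset.mem_Icc, not_and_or] at h
      rcases h with h | h
      · have : (k:ℝ) ≤ -(2 * n + 1) := by exact_mod_cast (by omega : k ≤ -(2 * n + 1 : ℤ))
        nlinarith
      · have : (2 * n + 1 : ℝ) ≤ k := by exact_mod_cast (by omega : (2 * n + 1 : ℤ) ≤ k)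
        nlinarith
    have hk2 : 4 + 12 * (3 * (n:ℝ))⁻¹ ≤ ((k:ℝ) / n) ^ 2 := by
      rw [div_pow, le_div_iff₀ (by positivity)]
      have : (4 + 12 * (3 * (n:ℝ))⁻¹) * n ^ 2 = 4 * n ^ 2 + 4 * n := by field_simp; ring
      rw [this]; nlinarith
    set c := (3 * (n:ℝ))⁻¹
    set κ := ((k:ℝ) / n) ^ 2
    have h1 : 5 ≤ (1 - c) * (1 + κ) := by nlinarith
    have h2 := mul_le_mul_of_nonneg_right h1 hF
    have h3 := mul_le_mul_of_nonneg_left hp (by linarith : 0 ≤ 1 - c)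
    nlinarith

lemma hasSum_congr_fun {α : Type*} {f g : α → ℝ} {a : ℝ} (h : HasSum f a) (e : ∀ k, g k = f k) :
    HasSum g a := (funext e : g = f) ▸ h

/-- Garding inequality for the unperturbed form -/
theorem garding {n : ℕ} (hn : 0 < n) (u : H) :
    (27 * (n:ℝ) ^ 3)⁻¹ * H.nr u ^ 2 ≤ Qf (PB0 n) u u
      + ∑ k ∈ Finset.Icc (-(2 * n : ℤ)) (2 * n), 5 * (low (prc k u) + low (prs k u)) := by
  have hn1 : (1:ℝ) ≤ n := by exact_mod_cast hn
  have p0 := parseval2 (H.f u)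
  have p1 := parseval2 (H.fx u)
  have p2 := parseval2 (H.ft u)
  simp only [(H.dx u).cm_eq, (H.dx u).sm_eq] at p1
  have hS : HasSum (fun k : ℤ =>
      (J (H1.d (prc k u) * H1.d (prc k u)) + ((k:ℝ) / n) ^ 2 * J (H1.f (prc k u) * H1.f (prc k u)))
      + (J (H1.d (prs k u) * H1.d (prs k u))
        + ((k:ℝ) / n) ^ 2 * J (H1.f (prs k u) * H1.f (prs k u))))
      (II (H.ft u * H.ft u) + ((n:ℝ) ^ 2)⁻¹ * II (H.fx u * H.fx u)) := by
    have h := p2.add (p1.mul_left ((n:ℝ) ^ 2)⁻¹)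
    refine hasSum_congr_fun h (fun k => ?_)
    simp only [f_prc, d_prc, f_prs, d_prs, neg_mul_neg, smul_mul_smul_comm, map_add, map_smul,
      smul_eq_mul, div_eq_mul_inv]
    ring
  have e : Qf (PB0 n) u u = II (H.ft u * H.ft u) + ((n:ℝ) ^ 2)⁻¹ * II (H.fx u * H.fx u)
      - 5 * II (H.f u * H.f u) := by
    simp only [Qf_apply, PB0, smul_mul_assoc, one_mul, zero_mul, add_zero, map_add, map_smul,
      smul_eq_mul]
    ring
  have hL : HasSum (fun k : ℤ => (if k ∈ Finset.Icc (-(2 * n : ℤ)) (2 * n) then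
      5 * low (prc k u) else 0) + if k ∈ Finset.Icc (-(2 * n : ℤ)) (2 * n) then
      5 * low (prs k u) else 0)
      (∑ k ∈ Finset.Icc (-(2 * n : ℤ)) (2 * n), 5 * (low (prc k u) + low (prs k u))) := by
    have := hasSum_sum_of_ne_finset_zero (L := SummationFilter.unconditional ℤ)
      (s := Finset.Icc (-(2 * n : ℤ)) (2 * n))
      (f := fun k : ℤ => (if k ∈ Finset.Icc (-(2 * n : ℤ)) (2 * n) then
      5 * low (prc k u) else 0) + if k ∈ Finset.Icc (-(2 * n : ℤ)) (2 * n) then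
      5 * low (prs k u) else 0) (fun k hk => by simp only [if_neg hk, add_zero])
    rwa [Finset.sum_congr rfl (fun k hk => by rw [if_pos hk, if_pos hk, ← mul_add])] at this
  have h1 := hasSum_le (fun k => ?_) (hS.mul_left (3 * (n:ℝ))⁻¹)
    ((hS.sub (p0.mul_left 5)).add hL)
  · have h2 : II (H.f u * H.f u) ≤ II (H.ft u * H.ft u) := hasSum_le (fun k => by
      rw [map_add, map_add]
      exact add_le_add (H1.poincare (prc k u)) (H1.poincare (prs k u))) p0 p2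
    rw [← e] at h1
    refine le_trans ?_ h1
    have a0 := P2.nrm_sq (H.f u)
    have a1 := P2.nrm_sq (H.fx u)
    have a2 := P2.nrm_sq (H.ft u)
    simp only [P2_Φ] at a0 a1 a2
    rw [← a0, ← a2] at h2
    rw [← a1, ← a2, H.nr_apply]
    set x := P2.nrm (H.f u)
    set y := P2.nrm (H.fx u)
    set z := P2.nrm (H.ft u)
    have h3 : (x + y + z) ^ 2 ≤ 9 * (n ^ 2 * z ^ 2 + y ^ 2) := by
      have : z ^ 2 ≤ n ^ 2 * z ^ 2 := le_mul_of_one_le_left (sq_nonneg z) (by nlinarith)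
      nlinarith [sq_nonneg (x - y), sq_nonneg (x - z), sq_nonneg (y - z), sq_nonneg y, sq_nonneg z]
    refine (mul_le_mul_of_nonneg_left h3 (by positivity)).trans (le_of_eq ?_)
    field_simp
    ring
  · have g1 := garding1 hn k (prc k u)
    have g2 := garding1 hn k (prs k u)
    simp only [Q1, map_add, map_smul, smul_eq_mul, f_prc, d_prc, f_prs, d_prs] at g1 g2 ⊢
    linarith

end

end Pool.Agent.P.MP_0d657e_an
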