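import Pool.Agent.P.MP_0d657e_an.D1

/-! Exact identities: Fourier modes of finite sums, test functions, first order forms. -/

open Set Real

namespace Pool.Agent.P.MP_0d657e_an

noncomputable section

lemma cm_sum {K : Finset ℤ} (hK : ∀ k ∈ K, -k ∈ K) {y : ℤ → D0} (hy : ∀ k, y (-k) = y k)
    (m : ℤ) : cm m (∑ k ∈ K, ι (y k) * cx k) = if m ∈ K then y m else 0 := by
  classical
  simp only [map_sum, cm_ι_mul, cm_cx, mul_smul_comm, mul_add, mul_ite, mul_one, mul_zero,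
    ← Finset.smul_sum, Finset.sum_add_distrib]
  have e1 : ∀ k, (m + k = 0) = (-m = k) := fun k => propext (by omega)
  have e2 : ∀ k, (m - k = 0) = (m = k) := fun k => propext (by omega)
  simp only [e1, e2, Finset.sum_ite_eq, hy]
  by_cases h : m ∈ K
  · simp only [if_pos h, if_pos (hK m h), ← two_smul ℝ (y m), smul_smul]; simp
  · have : -m ∉ K := fun h' => h (by simpa using hK _ h')
    simp only [if_neg h, if_neg this]; simp

lemma sm_sum (K : Finset ℤ) (y : ℤ → D0) (m : ℤ) : sm m (∑ k ∈ K, ι (y k) * cx k) = 0 := by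
  simp [map_sum, sm_ι_mul, sm_cx]

lemma prc_embc (m k : ℤ) (y : H1) : prc m (embc k y) =
    (1/2 : ℝ) • ((if m + k = 0 then y else 0) + if m - k = 0 then y else 0) := H1.ext' (by
  simp only [f_prc, f_embc, cm_ι_mul, cm_cx, map_smul, map_add]
  split_ifs <;> simp [mul_add])

lemma prs_embs (m k : ℤ) (y : H1) : prs m (embs k y) =
    (1/2 : ℝ) • ((if m - k = 0 then y else 0) - if m + k = 0 then y else 0) := H1.ext' (by
  simp only [f_prs, f_embs, sm_ι_mul, sm_sx, map_smul, map_sub]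
  split_ifs <;> simp [mul_sub])

@[simp] lemma prc_embs (m k : ℤ) (y : H1) : prc m (embs k y) = 0 := H1.ext' (by
  simp [cm_ι_mul, cm_sx])

@[simp] lemma prs_embc (m k : ℤ) (y : H1) : prs m (embc k y) = 0 := H1.ext' (by
  simp [sm_ι_mul, sm_cx])

lemma prc_neg (m : ℤ) (u : H) : prc (-m) u = prc m u := H1.ext' (by simp)
lemma prs_neg (m : ℤ) (u : H) : prs (-m) u = -prs m u := H1.ext' (by simp [sm_neg])

lemma prc_sum {K : Finset ℤ} (hK : ∀ k ∈ K, -k ∈ K) {y : ℤ → H1} (hy : ∀ k, y (-k) = y k)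
    (m : ℤ) : prc m (∑ k ∈ K, embc k (y k)) = if m ∈ K then y m else 0 := H1.ext' (by
  have := cm_sum hK (y := fun k => H1.f (y k)) (fun k => by rw [hy]) m
  simp only [f_prc, map_sum H.f, f_embc, this]
  split_ifs <;> simp)

lemma prc_embc_zero (m : ℤ) (y : H1) : prc m (embc 0 y) = if m = 0 then y else 0 := by
  rw [prc_embc]
  simp only [add_zero, sub_zero]
  split_ifs
  · rw [← two_smul ℝ y, smul_smul]; simp
  · simp

lemma cm_cc' (k l : ℤ) (y : D0) (G : C2) :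
    cm k (G * (ι y * cx l)) = (1/2 : ℝ) • (y * (cm (k + l) G + cm (k - l) G)) := by
  rw [mul_left_comm, cm_ι_mul, mul_comm G, cm_cx_mul, mul_smul_comm]
lemma cm_cs' (k l : ℤ) (y : D0) (G : C2) :
    cm k (G * (ι y * sx l)) = (1/2 : ℝ) • (y * (sm (k + l) G - sm (k - l) G)) := by
  rw [mul_left_comm, cm_ι_mul, mul_comm G, cm_sx_mul, mul_smul_comm]
lemma sm_cc' (k l : ℤ) (y : D0) (G : C2) :
    sm k (G * (ι y * cx l)) = (1/2 : ℝ) • (y * (sm (k + l) G + sm (k - l) G)) := by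
  rw [mul_left_comm, sm_ι_mul, mul_comm G, sm_cx_mul, mul_smul_comm]
lemma sm_cs' (k l : ℤ) (y : D0) (G : C2) :
    sm k (G * (ι y * sx l)) = (1/2 : ℝ) • (y * (cm (k - l) G - cm (k + l) G)) := by
  rw [mul_left_comm, sm_ι_mul, mul_comm G, sm_sx_mul, mul_smul_comm]

namespace Geo

variable (G : Geo)

/-- coefficients of `B` -/
def PB : P4 := (G.d • G.Ai, 0, G.A, (-5:ℝ) • G.c)
/-- coefficients of `I` -/
def PI : P4 := (G.Txx, G.Txt, G.Ttt, 0)

lemma B_eqQ (u v : H) : G.B u v = Qf G.PB u v := by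
  rw [B, Qf_apply]; congr 1
  simp only [PB, Algebra.smul_def, map_neg]; ring

lemma I_eq (u v : H) : G.I u v = Qf G.PI u v := by
  rw [I, Qf_apply]; congr 1
  simp only [PI]; ring

variable {Att : C2} (h : Dt G.At Att)

/-- weighted average -/
def Pc : H →ₗ[ℝ] H1 where
  toFun v := H1.mk (avg (G.c * H.f v)) (avg ((G.At + b⁻¹ • Att) * H.f v + G.c * H.ft v))
    ((G.hAt.add (h.smul b⁻¹)).mul (H.dt v)).avg
    (avg_eq_zero_at _ (fun x => by simp [H.at_lo])) (avg_eq_zero_at _ (fun x => by simp [H.at_hi]))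
  map_add' u v := H1.ext' (by simp [mul_add])
  map_smul' c u := H1.ext' (by simp)

lemma f_Pc (v : H) : H1.f (G.Pc h v) = avg (G.c * H.f v) := rfl
lemma d_Pc (v : H) :
    H1.d (G.Pc h v) = avg ((G.At + b⁻¹ • Att) * H.f v + G.c * H.ft v) := rfl

variable {G}

lemma avg_At (hE : G.Exact) : avg G.At = 0 :=
  D1.unique pi_pos G.hAt.avg (by rw [hE.avgA]; exact D1_one)

include h in
lemma avg_Att (hE : G.Exact) : avg Att = 0 :=
  D1.unique pi_pos h.avg (by rw [avg_At hE]; exact D1_zero)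

lemma avg_c (hE : G.Exact) : avg G.c = 1 := by simp [c, hE.avgA, avg_At hE]

lemma avg_test (hE : G.Exact) (v : H) : avg (G.c * H.f (v - embc 0 (G.Pc h v))) = 0 := by
  simp only [map_sub, f_embc, cx_zero, mul_one, mul_sub, avg_mul_ι, avg_c hE, f_Pc, one_mul,
    sub_self]

lemma B_test (hE : G.Exact) (y : H1) (v : H) : Qf G.PB (embc 0 y) (v - embc 0 (G.Pc h v))
    = -J (H1.d y * avg ((G.At + b⁻¹ • Att) * H.f v + b⁻¹ • (G.At * H.ft v))) := by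
  set w := v - embc 0 (G.Pc h v) with hw
  have h0 : avg (G.c * H.f w) = 0 := avg_test h hE v
  have h1 : H1.d (G.Pc h w) = 0 := D1.unique pi_pos (H1.d1 _) (by rw [f_Pc, h0]; exact D1_zero)
  have h2 : avg ((G.At + b⁻¹ • Att) * H.f w + b⁻¹ • (G.At * H.ft w))
      = avg ((G.At + b⁻¹ • Att) * H.f v + b⁻¹ • (G.At * H.ft v)) := by
    simp only [hw, map_sub, f_embc, ft_embc, cx_zero, mul_one, mul_sub, map_add, map_smul,
      avg_mul_ι, avg_At hE, avg_Att h hE, smul_zero, add_zero, zero_mul, sub_zero]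
  rw [← h2, Qf_symm, Qf_embc]
  simp only [Int.cast_zero, zero_smul, neg_zero, zero_add, cm_zero, PB, zero_mul,
    smul_mul_assoc, map_smul, h0, smul_zero, mul_zero, add_zero]
  rw [← map_neg, ← mul_neg]
  congr 2
  rw [d_Pc] at h1
  rw [eq_neg_iff_add_eq_zero, ← h1, ← map_add]
  congr 1
  simp only [c, add_mul, smul_mul_assoc]
  abel

end Geo

namespace Des

variable (Ds : Des)

/-- a cosine polynomial with frequencies in the design set -/
def pol (y : ℤ → D0) : C2 := ∑ k ∈ Ds.K, ι ((1/2 : ℝ) • y k) * cx k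

lemma cm_pol {y : ℤ → D0} (hy : ∀ k, y (-k) = y k) (h0 : ∀ k, k ∉ Ds.K → y k = 0) (m : ℤ) :
    cm m (Ds.pol y) = (1/2 : ℝ) • y m := by
  rw [pol, cm_sum Ds.K_neg (y := fun k => (1/2 : ℝ) • y k) (fun k => by rw [hy])]
  split_ifs with h
  · rfl
  · simp [h0 m h]

lemma sm_pol (y : ℤ → D0) (m : ℤ) : sm m (Ds.pol y) = 0 := sm_sum _ _ _

lemma cc_neg (k : ℤ) : Ds.cc (-k) = Ds.cc k := by simp [cc, Ds.α_neg, Ds.α1_neg]
lemma cc_off {k : ℤ} (h : k ∉ Ds.K) : Ds.cc k = 0 := by simp [cc, Ds.α_off k h, Ds.α1_off h]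
lemma cm_a (m : ℤ) : cm m (Ds.pol Ds.α) = (1/2 : ℝ) • Ds.α m := Ds.cm_pol Ds.α_neg Ds.α_off m
lemma cm_cc (m : ℤ) : cm m (Ds.pol Ds.cc) = (1/2 : ℝ) • Ds.cc m :=
  Ds.cm_pol Ds.cc_neg (fun _ => Ds.cc_off) m

lemma pol_cc : Ds.pol Ds.cc = Ds.pol Ds.α + b⁻¹ • Ds.pol Ds.α1 := by
  simp only [pol, cc, Finset.smul_sum, ← Finset.sum_add_distrib, smul_add, map_add, map_smul,
    add_mul, smul_mul_assoc, smul_comm b⁻¹]

/-- first order coefficients of `B` -/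
def PB1 : P4 := (-(((Ds.n:ℝ) ^ 2)⁻¹ • Ds.pol Ds.α), 0, Ds.pol Ds.α, (-5:ℝ) • Ds.pol Ds.cc)

lemma B1_cc (l k : ℤ) (y θ : H1) : Qf Ds.PB1 (embc l y) (embc k θ) = (1/4 : ℝ) *
    J (-((Ds.κ k * Ds.κ l) • ((Ds.α (k - l) - Ds.α (k + l)) * (H1.f y * H1.f θ)))
      + (Ds.α (k - l) + Ds.α (k + l)) * (H1.d y * H1.d θ)
      - (5:ℝ) • ((Ds.cc (k - l) + Ds.cc (k + l)) * (H1.f y * H1.f θ))) := by
  rw [Qf_embc, ← smul_eq_mul (1/4:ℝ), ← map_smul]
  congr 1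
  simp only [PB1, f_embc, fx_embc, ft_embc, zero_mul, add_zero, zero_add, neg_mul_neg,
    smul_mul_assoc, mul_smul_comm, map_smul, cm_cc', sm_cs',
    cm_a, cm_cc, κ, div_eq_mul_inv, ← inv_pow]
  ext t
  simp
  ring

lemma B1_ss (l k : ℤ) (y θ : H1) : Qf Ds.PB1 (embs l y) (embs k θ) = (1/4 : ℝ) *
    J (-((Ds.κ k * Ds.κ l) • ((Ds.α (k - l) + Ds.α (k + l)) * (H1.f y * H1.f θ)))
      + (Ds.α (k - l) - Ds.α (k + l)) * (H1.d y * H1.d θ)
      - (5:ℝ) • ((Ds.cc (k - l) - Ds.cc (k + l)) * (H1.f y * H1.f θ))) := by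
  rw [Qf_embs, ← smul_eq_mul (1/4:ℝ), ← map_smul]
  congr 1
  simp only [PB1, f_embs, fx_embs, ft_embs, zero_mul, add_zero, zero_add, neg_mul, map_neg, smul_zero,
    smul_mul_assoc, mul_smul_comm, map_smul, cm_cc', sm_cs',
    cm_a, cm_cc, κ, div_eq_mul_inv, ← inv_pow]
  ext t
  simp
  ring

lemma B1_cs (l k : ℤ) (y θ : H1) : Qf Ds.PB1 (embc l y) (embs k θ) = 0 := by
  rw [Qf_embs]
  simp only [PB1, f_embc, fx_embc, ft_embc, zero_mul, add_zero, zero_add, neg_mul_neg,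
    smul_mul_assoc, mul_smul_comm, map_smul, cm_cs', sm_cc',
    sm_pol]
  simp

lemma n_ne : (Ds.n : ℝ) ≠ 0 := by exact_mod_cast Ds.n_pos.ne'
lemma κ_n : Ds.κ Ds.n = 1 := by simp [κ, Ds.n_ne]
lemma κ_2n : Ds.κ (2 * Ds.n) = 2 := by simp [κ, Ds.n_ne]
lemma κ_neg (k : ℤ) : Ds.κ (-k) = -Ds.κ k := by simp [κ, neg_div]

lemma B1_nn : Qf Ds.PB1 (embs Ds.n S2) (embs Ds.n S2) = 0 := by
  rw [B1_ss, sub_self, ← two_mul]
  simp [Ds.α_off _ Ds.m0, Ds.α_off _ Ds.m2, Ds.cc_off Ds.m0, Ds.cc_off Ds.m2]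

lemma B1_22 : Qf Ds.PB1 (embs (2 * Ds.n) S1) (embs (2 * Ds.n) S1) = 0 := by
  rw [B1_ss, sub_self, show (2 * Ds.n + 2 * Ds.n : ℤ) = 4 * Ds.n by ring]
  simp [Ds.α_off _ Ds.m0, Ds.α_off _ Ds.m4, Ds.cc_off Ds.m0, Ds.cc_off Ds.m4]

lemma B1_n2 : Qf Ds.PB1 (embs Ds.n S2) (embs (2 * Ds.n) S1) ≠ 0 := by
  rw [B1_ss, show (2 * Ds.n - Ds.n : ℤ) = Ds.n by ring,
    show (2 * Ds.n + Ds.n : ℤ) = 3 * Ds.n by ring, κ_n, κ_2n]
  have h := H1.J_d (H1.mulL (((Ds.hα Ds.n).sub (Ds.hα (3 * Ds.n))).mul D1_c1) S2)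
  intro h0
  refine Ds.Mo ?_
  have key : ∀ A B C : D0, A = (-2:ℝ) • B + C → J C = 0 → (1/4:ℝ) * J A = 0 → J B = 0 := by
    intro A B C e hC hA
    rw [e, map_add, map_smul, hC, smul_eq_mul] at hA
    linarith
  refine key _ _ _ ?_ h h0
  ext t
  have hb := b_sq
  have hb0 := b_pos.ne'
  have hb1 : b⁻¹ * 5 = b := by field_simp; linarith
  simp [Rr, cc]
  linear_combination (-(Ds.α1 Ds.n t - Ds.α1 (3 * Ds.n) t) * sin (2 * t) * sin t) * hb1

end Des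

end

end Pool.Agent.P.MP_0d657e_an
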