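import Pool.Agent.P.MP_0d657e_an.Basic3

/-! The quadratic identity for the Lie derivative of the conductivity. -/

open Set Real

namespace Pool.Agent.P.MP_0d657e_an

noncomputable section

lemma Dx.zero_at {F G : C2} (h : Dx F G) (t : Icc (0:ℝ) π) (h0 : ∀ x, F x t = 0) (x : T) :
    G x t = 0 := by
  induction x using QuotientAddGroup.induction_on with
  | H x =>
    have h1 := h.pt x t
    simp only [h0] at h1
    exact h1.unique (hasDerivAt_const x 0)

lemma H.fx_lo (u : H) (x : T) : H.fx u x lo = 0 := (H.dx u).zero_at _ (H.at_lo u) x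
lemma H.fx_hi (u : H) (x : T) : H.fx u x hi = 0 := (H.dx u).zero_at _ (H.at_hi u) x

namespace Geo

variable (G : Geo)

lemma hX2x : Dx G.X2 G.X2x := ((Dx_ι om).mul (H.dx G.φ0)).congr' (by simp [X2x])

lemma hX2t : Dt G.X2 G.X2t := ((Dt_ι D1_om).mul (H.dt G.φ0)).congr' (by
  simp only [X2t, map_neg, map_smul, Algebra.smul_def, map_mul]
  rw [ι.commutes]; ring)

lemma X2_lo (x : T) : G.X2 x lo = 0 := by simp [X2, H.at_lo]
lemma X2_hi (x : T) : G.X2 x hi = 0 := by simp [X2, H.at_hi]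

lemma hAix : Dx G.Ai (-(G.Ax * G.Ai * G.Ai)) := G.hAx.inv G.hAi
lemma hAit : Dt G.Ai (-(G.At * G.Ai * G.Ai)) := G.hAt.inv G.hAi

/-- `2 ∫ div (a ∇ φ) X φ = ∫ T ∇ φ ∇ φ` -/
theorem ident (φ : H) {pxx pxt ptt W1x W2t : C2}
    (hxx : Dx (H.fx φ) pxx) (hxt : Dt (H.fx φ) pxt) (htx : Dx (H.ft φ) pxt)
    (htt : Dt (H.ft φ) ptt) (h1 : Dx (G.d • (G.Ai * H.fx φ)) W1x)
    (h2 : Dt (G.A * H.ft φ) W2t) :
    2 * II ((W1x + W2t) * (G.X1 * H.fx φ + G.X2 * H.ft φ)) = G.I φ φ := by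
  have Zx := (G.hX1x.mul hxx).add (G.hX2x.mul htx)
  have Zt := (G.hX1t.mul hxt).add (G.hX2t.mul htt)
  have ex := (((G.hAix.mul hxx).mul hxx).smul G.d).add ((G.hAx.mul htx).mul htx)
  have et := (((G.hAit.mul hxt).mul hxt).smul G.d).add ((G.hAt.mul htt).mul htt)
  have i1 := (h1.mul Zx).II_eq
  have i2 := (h2.mul Zt).II_eq (fun x => by simp [H.fx_lo, G.X2_lo])
    (fun x => by simp [H.fx_hi, G.X2_hi])
  have i3 := (G.hX1x.mul ex).II_eq
  have i4 := (G.hX2t.mul et).II_eq (fun x => by simp [G.X2_lo]) (fun x => by simp [G.X2_hi])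
  have key : ∀ a b c e f g : C2, (2:ℝ) • a - b = (2:ℝ) • c + (2:ℝ) • e - f - g →
      II c = 0 → II e = 0 → II f = 0 → II g = 0 → 2 * II a = II b := by
    intro a b c e f g h hc he hf hg
    have := congrArg II h
    simp only [map_sub, map_add, map_smul, hc, he, hf, hg, smul_eq_mul] at this
    linarith
  refine key _ _ _ _ _ _ ?_ i1 i2 i3 i4
  simp only [Txx, Txt, Ttt, Algebra.smul_def, map_ofNat]
  linear_combination (algebraMap ℝ C2 G.d * G.Ai * (G.X1x - G.X2t) * H.fx φ * H.fx φ) * G.hAi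

end Geo

end

end Pool.Agent.P.MP_0d657e_an
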