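import Mathlib

/-! Calculus of asymptotic expansions in a small parameter. -/

open Asymptotics Filter Topology

namespace Pool.Agent.P.MP_0d657e_an

section

variable {X : Type*} {l : Filter X} {η : X → ℝ}

lemma O_of_abs_le {E : Type*} [Norm E] {f : X → E} {g : X → ℝ} (h : ∀ i, ‖f i‖ ≤ g i) :
    f =O[l] g :=
  IsBigO.of_bound 1 (Eventually.of_forall fun i => by
    simpa using (h i).trans (le_abs_self _))

lemma absorb (hη : Tendsto η l (𝓝 0)) {f g : X → ℝ}
    (h : f =O[l] fun i => g i + η i * f i) : f =O[l] g := by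
  obtain ⟨C, hC0, hC⟩ := h.exists_pos
  have h2 : ∀ᶠ i in l, C * |η i| ≤ 1 / 2 := by
    have : Tendsto (fun i => C * |η i|) l (𝓝 (C * |0|)) := hη.abs.const_mul C
    rw [abs_zero, mul_zero] at this
    exact this.eventually (ge_mem_nhds (by norm_num))
  refine IsBigO.of_bound (2 * C) ?_
  filter_upwards [hC.bound, h2] with i h1 h2
  simp only [Real.norm_eq_abs] at h1 ⊢
  have h3 := abs_add_le (g i) (η i * f i)
  rw [abs_mul] at h3
  nlinarith [abs_nonneg (f i), abs_nonneg (g i), mul_le_mul_of_nonneg_left h3 hC0.le]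

lemma absorb_sq {f g : X → ℝ} (h : (fun i => f i ^ 2) =O[l] fun i => g i * f i + g i ^ 2) :
    f =O[l] g := by
  obtain ⟨C, hC0, hC⟩ := h.exists_pos
  refine IsBigO.of_bound (C + 1) ?_
  filter_upwards [hC.bound] with i h1
  simp only [Real.norm_eq_abs] at h1 ⊢
  have h3 := abs_add_le (g i * f i) (g i ^ 2)
  rw [abs_mul, abs_pow] at h3
  rw [abs_pow] at h1
  have h4 := h1.trans (mul_le_mul_of_nonneg_left h3 hC0.le)
  by_contra hc
  push Not at hc
  have a := abs_nonneg (g i)
  nlinarith [mul_nonneg hC0.le a, mul_nonneg hC0.le (mul_nonneg a a)]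

lemma η_O_one (hη : Tendsto η l (𝓝 0)) : η =O[l] fun _ => (1:ℝ) := hη.isBigO_one ℝ

/-- dropping a power of the small parameter -/
lemma O_drop (hη : Tendsto η l (𝓝 0)) {E : Type*} [Norm E] {f : X → E} {g g' : X → ℝ} (m : ℕ)
    (h : f =O[l] g) (e : ∀ i, g i = η i ^ m * g' i) : f =O[l] g' :=
  h.trans ((((η_O_one hη).pow m).mul (isBigO_refl g' l)).congr (fun i => (e i).symm)
    (fun i => by simp))

lemma O_left {f g g' : X → ℝ} (h : f =O[l] g) (hg : ∀ i, 0 ≤ g i) (hg' : ∀ i, 0 ≤ g' i) :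
    f =O[l] fun i => g i + g' i :=
  h.trans (O_of_abs_le fun i => by rw [Real.norm_of_nonneg (hg i)]; linarith [hg' i])

lemma O_right {f g g' : X → ℝ} (h : f =O[l] g') (hg : ∀ i, 0 ≤ g i) (hg' : ∀ i, 0 ≤ g' i) :
    f =O[l] fun i => g i + g' i :=
  h.trans (O_of_abs_le fun i => by rw [Real.norm_of_nonneg (hg' i)]; linarith [hg i])

/-- cancel a non vanishing factor -/
lemma O_cancel {E : Type*} [NormedAddCommGroup E] [NormedSpace ℝ E] {f : X → E} {g c : X → ℝ}
    (hc : ∀ᶠ i in l, c i ≠ 0) (h : (fun i => c i • f i) =O[l] fun i => c i * g i) :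
    f =O[l] g := by
  refine ((isBigO_refl (fun i => (c i)⁻¹) l).smul h).congr' ?_ ?_
  · filter_upwards [hc] with i hi
    rw [smul_smul, inv_mul_cancel₀ hi, one_smul]
  · filter_upwards [hc] with i hi
    rw [smul_eq_mul, ← mul_assoc, inv_mul_cancel₀ hi, one_mul]

variable {E F G : Type*} [NormedAddCommGroup E] [NormedSpace ℝ E] [NormedAddCommGroup F]
  [NormedSpace ℝ F] [NormedAddCommGroup G] [NormedSpace ℝ G]

lemma O_clm (L : E →L[ℝ] F) {f : X → E} {g : X → ℝ} (h : f =O[l] g) :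
    (fun i => L (f i)) =O[l] g := (L.isBigO_comp f l).trans h

lemma O_bilin (B : E →L[ℝ] F →L[ℝ] G) {f : X → E} {f' : X → F} {g g' : X → ℝ} (h : f =O[l] g)
    (h' : f' =O[l] g') : (fun i => B (f i) (f' i)) =O[l] fun i => g i * g' i :=
  (IsBigO.of_bound ‖B‖ (Eventually.of_forall fun i => by
    simpa [mul_assoc] using B.le_opNorm₂ (f i) (f' i))).trans (h.norm_left.mul h'.norm_left)

variable (l η) in
/-- expansion to first order with a second order remainder -/
def Ex2 (f : X → E) (f0 f1 : E) : Prop :=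
  (fun i => f i - f0 - η i • f1) =O[l] fun i => η i ^ 2

namespace Ex2

variable {f f' : X → E} {f0 f1 f0' f1' : E} {g : X → F} {g0 g1 : F}

lemma const (a : E) : Ex2 l η (fun _ => a) a 0 := by
  simpa [Ex2] using isBigO_zero _ _

lemma eta : Ex2 l η η 0 1 := by
  simpa [Ex2] using isBigO_zero _ _

lemma congr (h : Ex2 l η f f0 f1) (e : ∀ i, f' i = f i) (e0 : f0' = f0) (e1 : f1' = f1) :
    Ex2 l η f' f0' f1' := by
  rw [funext e, e0, e1]; exact h

lemma congr' (h : Ex2 l η f f0 f1) (e : ∀ᶠ i in l, f' i = f i) :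
    Ex2 l η f' f0 f1 :=
  IsBigO.congr' h (e.mono fun i hi => by simp only [hi]) EventuallyEq.rfl

lemma add (h : Ex2 l η f f0 f1) (h' : Ex2 l η f' f0' f1') :
    Ex2 l η (fun i => f i + f' i) (f0 + f0') (f1 + f1') :=
  (IsBigO.add h h').congr_left fun i => by simp only [smul_add]; abel

lemma clm (L : E →L[ℝ] F) (h : Ex2 l η f f0 f1) : Ex2 l η (fun i => L (f i)) (L f0) (L f1) :=
  (O_clm L h).congr_left fun i => by simp

lemma neg (h : Ex2 l η f f0 f1) : Ex2 l η (fun i => -f i) (-f0) (-f1) :=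
  h.clm (-ContinuousLinearMap.id ℝ E)

lemma sub (h : Ex2 l η f f0 f1) (h' : Ex2 l η f' f0' f1') :
    Ex2 l η (fun i => f i - f' i) (f0 - f0') (f1 - f1') := by
  simpa only [sub_eq_add_neg] using h.add h'.neg

lemma csmul (c : ℝ) (h : Ex2 l η f f0 f1) : Ex2 l η (fun i => c • f i) (c • f0) (c • f1) :=
  h.clm (c • ContinuousLinearMap.id ℝ E)

lemma sum {α : Type*} (s : Finset α) {f : α → X → E} {f0 f1 : α → E}
    (h : ∀ a ∈ s, Ex2 l η (f a) (f0 a) (f1 a)) :
    Ex2 l η (fun i => ∑ a ∈ s, f a i) (∑ a ∈ s, f0 a) (∑ a ∈ s, f1 a) :=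
  (IsBigO.sum h).congr_left fun i => by
    simp only [Finset.sum_apply, Finset.sum_sub_distrib, Finset.smul_sum]

lemma prod (h : Ex2 l η f f0 f1) (k : Ex2 l η g g0 g1) :
    Ex2 l η (fun i => (f i, g i)) (f0, g0) (f1, g1) := IsBigO.prod_left h k

lemma of_O2 (h : f =O[l] fun i => η i ^ 2) : Ex2 l η f 0 0 := by simpa [Ex2] using h

variable (hη : Tendsto η l (𝓝 0))
include hη

lemma O1 (h : Ex2 l η f f0 f1) : (fun i => f i - f0) =O[l] η := by
  have h1 : (fun i => f i - f0 - η i • f1) =O[l] η := O_drop hη 1 h (fun i => by ring)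
  have h2 : (fun i => η i • f1) =O[l] η := by
    simpa using (isBigO_refl η l).smul (isBigO_const_const f1 (one_ne_zero (α := ℝ)) l)
  exact (h1.add h2).congr_left fun i => by abel

lemma O0 (h : Ex2 l η f f0 f1) : f =O[l] fun _ => (1:ℝ) :=
  (((h.O1 hη).trans (η_O_one hη)).add (isBigO_const_const f0 one_ne_zero l)).congr_left
    fun i => by abel

lemma bilin (B : E →L[ℝ] F →L[ℝ] G) (h : Ex2 l η f f0 f1) (k : Ex2 l η g g0 g1) :
    Ex2 l η (fun i => B (f i) (g i)) (B f0 g0) (B f0 g1 + B f1 g0) := by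
  have h1 := O_bilin B h (k.O0 hη)
  have h0 : (fun i => f0 + η i • f1) =O[l] fun _ => (1:ℝ) :=
    (isBigO_const_const f0 one_ne_zero l).add (by
      simpa using (η_O_one hη).smul (isBigO_const_const f1 (one_ne_zero (α := ℝ)) l))
  have h2 := O_bilin B h0 k
  have h3 : (fun i => (η i ^ 2) • B f1 g1) =O[l] fun i => η i ^ 2 := by
    simpa using (isBigO_refl (fun i => η i ^ 2) l).smul
      (isBigO_const_const (B f1 g1) (one_ne_zero (α := ℝ)) l)
  simp only [mul_one, one_mul] at h1 h2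
  refine ((h1.add h2).add h3).congr_left fun i => ?_
  simp only [map_sub, map_add, map_smul, sub_apply,
    add_apply, smul_apply, smul_add, smul_smul, sq]
  abel

lemma smul {c : X → ℝ} {c0 c1 : ℝ} (k : Ex2 l η c c0 c1) (h : Ex2 l η f f0 f1) :
    Ex2 l η (fun i => c i • f i) (c0 • f0) (c0 • f1 + c1 • f0) :=
  bilin hη (ContinuousLinearMap.lsmul ℝ ℝ) k h

lemma mul {R : Type*} [NormedRing R] [NormedAlgebra ℝ R] {f g : X → R} {f0 f1 g0 g1 : R}
    (h : Ex2 l η f f0 f1) (k : Ex2 l η g g0 g1) :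
    Ex2 l η (fun i => f i * g i) (f0 * g0) (f0 * g1 + f1 * g0) :=
  bilin hη (ContinuousLinearMap.mul ℝ R) h k

omit hη in
lemma of_O1 (h : (fun i => f i - f0) =O[l] η) : Ex2 l η (fun i => η i • f i) 0 f0 :=
  ((isBigO_refl η l).smul h).congr (fun i => by simp [smul_sub]) (fun i => by simp [sq])

lemma inv {R : Type*} [NormedCommRing R] [NormedAlgebra ℝ R] {f g : X → R} {f1 : R}
    (h : Ex2 l η f 1 f1) (e : ∀ᶠ i in l, f i * g i = 1) : Ex2 l η g 1 (-f1) := by
  have h1 := h.O1 hη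
  have e1 : ∀ᶠ i in l, 1 - (f i - 1) * g i = g i := e.mono fun i hi => by
    linear_combination -hi
  have h2 : (fun i => ‖g i‖) =O[l] fun _ => (1:ℝ) := by
    refine absorb (η := fun i => |η i|) (by simpa using hη.abs) (IsBigO.norm_left ?_)
    refine IsBigO.congr' (f₁ := fun i => 1 - (f i - 1) * g i) (IsBigO.sub ?_ ?_) e1 EventuallyEq.rfl
    · exact (isBigO_const_const (1:R) (one_ne_zero (α := ℝ)) l).trans
        (O_left (isBigO_refl _ _) (fun _ => zero_le_one) (fun i => by positivity))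
    · exact (h1.abs_right.mul (isBigO_refl g l).norm_right).trans
        (O_right (isBigO_refl _ _) (fun _ => zero_le_one) (fun i => by positivity))
  have h3 : (fun i => g i - 1) =O[l] η := by
    have := (h1.mul h2.of_norm_left).neg_left
    simp only [mul_one] at this
    exact this.congr' (e1.mono fun i hi => by
      simp only; linear_combination hi) EventuallyEq.rfl
  have h4 := (h1.mul h3).neg_left.congr_right (fun i => (sq (η i)).symm)
  refine (h4.sub h).congr' (e.mono fun i hi => ?_) EventuallyEq.rfl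
  simp only [smul_neg]
  linear_combination -hi

end Ex2

end

end Pool.Agent.P.MP_0d657e_an
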