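import Mathlib

/-! Positive functionals on function algebras, and calculus on a compact interval. -/

open Set Real

namespace Pool.Agent.P.MP_0d657e_an

noncomputable section

/-- a continuous positive functional on a commutative normed algebra -/
structure PF (R : Type) [NormedCommRing R] [NormedAlgebra ℝ R] where
  Φ : R →L[ℝ] ℝ
  nonneg : ∀ u, 0 ≤ Φ (u * u)
  pos : ∀ P u, Φ (P * (u * u)) ≤ ‖P‖ * Φ (u * u)

namespace PF

variable {R : Type} [NormedCommRing R] [NormedAlgebra ℝ R] (F : PF R)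

lemma cs (u v : R) : F.Φ (u * v) ^ 2 ≤ F.Φ (u * u) * F.Φ (v * v) := by
  have h : ∀ x : ℝ, 0 ≤ F.Φ (u * u) * (x * x) + (2 * F.Φ (u * v)) * x + F.Φ (v * v) := by
    intro x
    have := F.nonneg (x • u + v)
    have e : (x • u + v) * (x • u + v) = (x * x) • (u * u) + (2 * x) • (u * v) + v * v := by
      simp only [Algebra.smul_def, map_mul, map_ofNat]; ring
    rw [e] at this
    simp only [map_add, map_smul, smul_eq_mul] at this
    linarith
  have := discrim_le_zero h
  unfold discrim at this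
  nlinarith

/-- the L² seminorm of a positive functional -/
def nrm : Seminorm ℝ R :=
  Seminorm.of (fun u => √(F.Φ (u * u)))
    (fun u v => by
      have hu := F.nonneg u
      have hv := F.nonneg v
      have h := F.cs u v
      rw [Real.sqrt_le_left (by positivity)]
      have e : (u + v) * (u + v) = u * u + (2:ℝ) • (u * v) + v * v := by
        simp only [Algebra.smul_def, map_ofNat]; ring
      rw [e]
      simp only [map_add, map_smul, smul_eq_mul]
      have h2 : F.Φ (u * v) ≤ √(F.Φ (u * u)) * √(F.Φ (v * v)) := by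
        rw [← Real.sqrt_mul hu]
        exact Real.le_sqrt_of_sq_le h
      nlinarith [Real.sq_sqrt hu, Real.sq_sqrt hv])
    (fun c u => by
      have e : (c • u) * (c • u) = (c * c) • (u * u) := by
        simp only [Algebra.smul_def, map_mul]; ring
      simp only [e, map_smul, smul_eq_mul]
      rw [Real.sqrt_mul (mul_self_nonneg c), Real.sqrt_mul_self_eq_abs, Real.norm_eq_abs])

lemma nrm_def (u : R) : F.nrm u = √(F.Φ (u * u)) := rfl

lemma nrm_sq (u : R) : F.nrm u ^ 2 = F.Φ (u * u) := Real.sq_sqrt (F.nonneg u)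

lemma abs_mul_le (u v : R) : |F.Φ (u * v)| ≤ F.nrm u * F.nrm v := by
  rw [nrm_def, nrm_def, ← Real.sqrt_mul (F.nonneg u)]
  exact Real.abs_le_sqrt (F.cs u v)

lemma nrm_mul_le (P u : R) : F.nrm (P * u) ≤ ‖P‖ * F.nrm u := by
  have h := F.pos (P * P) u
  have e : P * u * (P * u) = P * P * (u * u) := by ring
  rw [nrm_def, e, Real.sqrt_le_left (by positivity), mul_pow, nrm_sq]
  refine h.trans (mul_le_mul_of_nonneg_right ?_ (F.nonneg u))
  rw [sq]; exact norm_mul_le P P

lemma abs_mul3_le (P u v : R) : |F.Φ (P * u * v)| ≤ ‖P‖ * F.nrm u * F.nrm v :=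
  (F.abs_mul_le _ _).trans (mul_le_mul_of_nonneg_right (F.nrm_mul_le P u) (apply_nonneg _ _))

lemma nrm_le_norm (u : R) : F.nrm u ≤ √‖F.Φ‖ * ‖u‖ := by
  rw [nrm_def, Real.sqrt_le_left (by positivity), mul_pow, Real.sq_sqrt (norm_nonneg _)]
  refine (le_abs_self _).trans ((F.Φ.le_opNorm _).trans ?_)
  refine mul_le_mul_of_nonneg_left ?_ (norm_nonneg _)
  rw [sq]; exact norm_mul_le u u

end PF

/-- continuous functions on a compact interval -/
def D (a b : ℝ) : Type := C(Icc a b, ℝ)

namespace D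

variable {a b : ℝ}

instance : NormedCommRing (D a b) := inferInstanceAs (NormedCommRing C(Icc a b, ℝ))
instance : NormedAlgebra ℝ (D a b) := inferInstanceAs (NormedAlgebra ℝ C(Icc a b, ℝ))
instance : CompleteSpace (D a b) := inferInstanceAs (CompleteSpace C(Icc a b, ℝ))
instance : FunLike (D a b) (Icc a b) ℝ := inferInstanceAs (FunLike C(Icc a b, ℝ) (Icc a b) ℝ)

/-- the underlying continuous map -/
def cm (y : D a b) : C(Icc a b, ℝ) := y
/-- constructor -/
def mk (f : Icc a b → ℝ) (hf : Continuous f) : D a b := (⟨f, hf⟩ : C(Icc a b, ℝ))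
/-- constructor from a continuous map -/
def of (f : C(Icc a b, ℝ)) : D a b := f

@[simp] lemma mk_apply (f : Icc a b → ℝ) (hf : Continuous f) (t : Icc a b) : mk f hf t = f t := rfl
@[simp] lemma of_apply (f : C(Icc a b, ℝ)) (t : Icc a b) : of f t = f t := rfl
@[simp] lemma cm_apply (f : D a b) (t : Icc a b) : f.cm t = f t := rfl
@[ext] lemma ext {y z : D a b} (h : ∀ t, y t = z t) : y = z := ContinuousMap.ext h
@[fun_prop] lemma continuous (y : D a b) : Continuous y := y.cm.continuous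
@[simp] lemma add_apply (y z : D a b) (t) : (y + z) t = y t + z t := rfl
@[simp] lemma sub_apply (y z : D a b) (t) : (y - z) t = y t - z t := rfl
@[simp] lemma mul_apply (y z : D a b) (t) : (y * z) t = y t * z t := rfl
@[simp] lemma neg_apply (y : D a b) (t) : (-y) t = -y t := rfl
@[simp] lemma zero_apply (t) : (0 : D a b) t = 0 := rfl
@[simp] lemma one_apply (t) : (1 : D a b) t = 1 := rfl
@[simp] lemma smul_apply (c : ℝ) (y : D a b) (t) : (c • y) t = c * y t := rfl
@[simp] lemma algebraMap_apply (c : ℝ) (t) : (algebraMap ℝ (D a b) c) t = c := by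
  rw [Algebra.algebraMap_eq_smul_one, smul_apply, one_apply, mul_one]

lemma norm_coe_le_norm (y : D a b) (t) : |y t| ≤ ‖y‖ := y.cm.norm_coe_le_norm t

lemma norm_le {y : D a b} {c : ℝ} (hc : 0 ≤ c) (h : ∀ t, |y t| ≤ c) : ‖y‖ ≤ c :=
  (ContinuousMap.norm_le y.cm hc).2 h

/-- evaluation -/
def ev (t : Icc a b) : D a b →L[ℝ] ℝ :=
  LinearMap.mkContinuous ⟨⟨fun y => y t, fun _ _ => rfl⟩, fun _ _ => rfl⟩ 1
    (fun y => by simpa using y.norm_coe_le_norm t)

@[simp] lemma ev_apply (t : Icc a b) (y : D a b) : ev t y = y t := rfl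

/-- evaluation as a ring morphism -/
def evR (t : Icc a b) : D a b →+* ℝ where
  toFun y := y t
  map_one' := rfl
  map_mul' _ _ := rfl
  map_zero' := rfl
  map_add' _ _ := rfl

@[simp] lemma sum_apply {ι : Type*} (s : Finset ι) (f : ι → D a b) (t) :
    (∑ i ∈ s, f i) t = ∑ i ∈ s, f i t := map_sum (ev t) f s
@[simp] lemma pow_apply (y : D a b) (n : ℕ) (t) : (y ^ n) t = y t ^ n := map_pow (evR t) y n
@[simp] lemma natCast_apply (n : ℕ) (t) : (n : D a b) t = n := map_natCast (evR t) n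
@[simp] lemma ofNat_apply (n : ℕ) [n.AtLeastTwo] (t) :
    (ofNat(n) : D a b) t = ofNat(n) := map_ofNat (evR t) n

/-- absolute value -/
def abs (y : D a b) : D a b := mk (fun t => |y t|) y.continuous.abs

@[simp] lemma abs_apply (y : D a b) (t) : y.abs t = |y t| := rfl

end D

section interval

variable {a b : ℝ} [hab : Fact (a ≤ b)]

/-- constant extension to the line -/
def ext (y : D a b) : ℝ → ℝ := fun t => y (projIcc a b hab.out t)

@[fun_prop] lemma ext_cont (y : D a b) : Continuous (ext y) :=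
  y.continuous.comp continuous_projIcc

@[simp] lemma ext_coe (y : D a b) (t : Icc a b) : ext y t = y t := by
  simp [ext]

lemma ext_of_mem (y : D a b) {t : ℝ} (ht : t ∈ Icc a b) : ext y t = y ⟨t, ht⟩ :=
  ext_coe y ⟨t, ht⟩

lemma ext_abs_le (y : D a b) (t : ℝ) : |ext y t| ≤ ‖y‖ := y.norm_coe_le_norm _

/-- left end point -/
def lo : Icc a b := ⟨a, left_mem_Icc.2 hab.out⟩
/-- right end point -/
def hi : Icc a b := ⟨b, right_mem_Icc.2 hab.out⟩

@[simp] lemma lo_coe : ((lo : Icc a b) : ℝ) = a := rfl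
@[simp] lemma hi_coe : ((hi : Icc a b) : ℝ) = b := rfl

lemma abs_integral_ext_le (y : D a b) (s t : ℝ) : |∫ x in s..t, ext y x| ≤ ‖y‖ * |t - s| :=
  intervalIntegral.norm_integral_le_of_norm_le_const (f := ext y) (fun x _ => ext_abs_le y x)

/-- the primitive vanishing at the left end point -/
def V : D a b →L[ℝ] D a b :=
  LinearMap.mkContinuous
    { toFun := fun y => D.mk (fun t => ∫ x in a..(t:ℝ), ext y x)
        ((intervalIntegral.continuous_primitive (fun _ _ => (ext_cont y).intervalIntegrable _ _)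
          a).comp continuous_subtype_val)
      map_add' := fun y z => by
        ext t
        exact intervalIntegral.integral_add ((ext_cont y).intervalIntegrable _ _)
          ((ext_cont z).intervalIntegrable _ _)
      map_smul' := fun c y => by
        ext t
        exact intervalIntegral.integral_smul c (ext y) }
    (b - a) (fun y => by
      refine D.norm_le (mul_nonneg (sub_nonneg.2 hab.out) (norm_nonneg _)) ?_
      intro t
      refine (abs_integral_ext_le y a t).trans ?_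
      rw [mul_comm, abs_of_nonneg (sub_nonneg.2 t.2.1)]
      exact mul_le_mul_of_nonneg_right (by linarith [t.2.2]) (norm_nonneg _))

lemma V_apply (y : D a b) (t : Icc a b) : V y t = ∫ x in a..(t:ℝ), ext y x := rfl

@[simp] lemma V_lo (y : D a b) : V y lo = 0 := by simp [V_apply]

/-- the integral -/
def J : D a b →L[ℝ] ℝ := (D.ev (hi : Icc a b)).comp V

lemma J_apply (y : D a b) : J y = ∫ x in a..b, ext y x := rfl

@[simp] lemma V_hi (y : D a b) : V y hi = J y := rfl

lemma J_mono {y z : D a b} (h : ∀ t, y t ≤ z t) : J y ≤ J z :=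
  intervalIntegral.integral_mono hab.out ((ext_cont y).intervalIntegrable _ _)
    ((ext_cont z).intervalIntegrable _ _) (fun _ => h _)

lemma J_nonneg {y : D a b} (h : ∀ t, 0 ≤ y t) : 0 ≤ J y := by
  simpa using J_mono (y := 0) (z := y) h

lemma J_eq_of {y : D a b} {f : ℝ → ℝ} (h : ∀ t : Icc a b, y t = f t) :
    J y = ∫ x in a..b, f x := by
  rw [J_apply]
  refine intervalIntegral.integral_congr (fun x hx => ?_)
  rw [uIcc_of_le hab.out] at hx
  rw [ext_of_mem y hx, h]

lemma J_one : J (1 : D a b) = b - a := by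
  rw [J_eq_of (f := fun _ => 1) (fun _ => rfl)]; simp

/-- the integral as a positive functional -/
def PJ : PF (D a b) where
  Φ := J
  nonneg u := J_nonneg (fun t => mul_self_nonneg (u t))
  pos P u := by
    rw [← smul_eq_mul ‖P‖, ← map_smul]
    refine J_mono (fun t => ?_)
    exact mul_le_mul_of_nonneg_right ((le_abs_self _).trans (P.norm_coe_le_norm t))
      (mul_self_nonneg (u t))

@[simp] lemma PJ_Φ : (PJ : PF (D a b)).Φ = J := rfl

/-- `y'` is the derivative of `y` on the closed interval -/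
def D1 (y y' : D a b) : Prop :=
  ∃ Y : ℝ → ℝ, (∀ t : Icc a b, Y t = y t) ∧ ∀ t : Icc a b, HasDerivAt Y (y' t) t

lemma hasDerivAt_prim (y : D a b) (t : ℝ) :
    HasDerivAt (fun u => ∫ x in a..u, ext y x) (ext y t) t :=
  intervalIntegral.integral_hasDerivAt_right ((ext_cont y).intervalIntegrable _ _)
    ((ext_cont y).stronglyMeasurableAtFilter _ _) (ext_cont y).continuousAt

lemma D1_V (y : D a b) : D1 (V y) y :=
  ⟨fun u => ∫ x in a..u, ext y x, fun _ => rfl, fun t => by simpa using hasDerivAt_prim y t⟩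

omit hab in
lemma D1_const (c : ℝ) : D1 (algebraMap ℝ (D a b) c) 0 :=
  ⟨fun _ => c, fun _ => by simp, fun t => hasDerivAt_const _ _⟩

omit hab in
lemma D1_zero : D1 (0 : D a b) 0 := by simpa using D1_const (a := a) (b := b) 0

omit hab in
lemma D1_one : D1 (1 : D a b) 0 := by simpa using D1_const (a := a) (b := b) 1

namespace D1

omit hab
variable {y y' z z' : D a b}

lemma add (h : D1 y y') (k : D1 z z') : D1 (y + z) (y' + z') := by
  obtain ⟨Y, h1, h2⟩ := h
  obtain ⟨Z, k1, k2⟩ := k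
  exact ⟨Y + Z, fun t => by simp [h1, k1], fun t => (h2 t).add (k2 t)⟩

lemma neg (h : D1 y y') : D1 (-y) (-y') := by
  obtain ⟨Y, h1, h2⟩ := h
  exact ⟨-Y, fun t => by simp [h1], fun t => (h2 t).neg⟩

lemma sub (h : D1 y y') (k : D1 z z') : D1 (y - z) (y' - z') := by
  simpa [sub_eq_add_neg] using h.add k.neg

lemma smul (c : ℝ) (h : D1 y y') : D1 (c • y) (c • y') := by
  obtain ⟨Y, h1, h2⟩ := h
  exact ⟨c • Y, fun t => by simp [h1], fun t => (h2 t).const_smul c⟩

lemma mul (h : D1 y y') (k : D1 z z') : D1 (y * z) (y' * z + y * z') := by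
  obtain ⟨Y, h1, h2⟩ := h
  obtain ⟨Z, k1, k2⟩ := k
  refine ⟨Y * Z, fun t => by simp [h1, k1], fun t => ?_⟩
  have := (h2 t).mul (k2 t)
  rw [h1, k1] at this
  exact this

lemma congr (h : D1 y y') {z z' : D a b} (e : z = y) (e' : z' = y') : D1 z z' := e ▸ e' ▸ h

lemma congr' (h : D1 y y') {z' : D a b} (e' : z' = y') : D1 y z' := e' ▸ h

lemma sum {ι : Type*} (s : Finset ι) {f f' : ι → D a b} (h : ∀ i ∈ s, D1 (f i) (f' i)) :
    D1 (∑ i ∈ s, f i) (∑ i ∈ s, f' i) := by
  classical
  induction s using Finset.induction_on with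
  | empty => simpa using D1_zero
  | insert i s hi ih =>
    rw [Finset.sum_insert hi, Finset.sum_insert hi]
    exact (h i (Finset.mem_insert_self _ _)).add
      (ih (fun j hj => h j (Finset.mem_insert_of_mem hj)))

/-- derivative of a pointwise inverse -/
lemma inv (h : D1 y y') (e : y * z = 1) : D1 z (-(y' * z * z)) := by
  obtain ⟨Y, h1, h2⟩ := h
  have hz : ∀ t : Icc a b, y t * z t = 1 := fun t => by
    have := congrArg (fun f : D a b => f t) e; simpa using this
  have hne : ∀ t : Icc a b, y t ≠ 0 := fun t h0 => by simpa [h0] using hz t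
  have hz' : ∀ t : Icc a b, z t = (y t)⁻¹ := fun t => eq_inv_of_mul_eq_one_right (hz t)
  refine ⟨fun s => (Y s)⁻¹, fun t => by simp [h1, hz'], fun t => ?_⟩
  have := (h2 t).inv (by rw [h1]; exact hne t)
  refine this.congr_deriv ?_
  simp only [D.neg_apply, D.mul_apply, hz', h1]
  field_simp

end D1

lemma D1.integral {y y' : D a b} (h : D1 y y') (s t : Icc a b) :
    ∫ x in (s:ℝ)..(t:ℝ), ext y' x = y t - y s := by
  obtain ⟨Y, h1, h2⟩ := h
  rw [← h1, ← h1]
  refine intervalIntegral.integral_eq_sub_of_hasDerivAt (fun x hx => ?_)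
    ((ext_cont y').intervalIntegrable _ _)
  have hx' : x ∈ Icc a b := (uIcc_subset_Icc s.2 t.2) hx
  rw [ext_of_mem y' hx']
  exact h2 ⟨x, hx'⟩

lemma D1.eq_V {y y' : D a b} (h : D1 y y') : y = algebraMap ℝ _ (y lo) + V y' := by
  ext t
  have := h.integral lo t
  simp only [lo_coe] at this
  simp [V_apply, this]

lemma D1_iff {y y' : D a b} : D1 y y' ↔ y = algebraMap ℝ _ (y lo) + V y' :=
  ⟨D1.eq_V, fun h => ((D1_const _).add (D1_V y')).congr h (by simp)⟩

lemma D1.J_eq {y y' : D a b} (h : D1 y y') : J y' = y hi - y lo := h.integral lo hi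

lemma D1.J_zero {y y' : D a b} (h : D1 y y') (h0 : y lo = 0) (h1 : y hi = 0) : J y' = 0 := by
  rw [h.J_eq, h0, h1, sub_zero]

lemma D1.abs_sub_le {y y' : D a b} (h : D1 y y') (s t : Icc a b) :
    |y t - y s| ≤ ‖y'‖ * |(t:ℝ) - s| := by
  rw [← h.integral s t]; exact abs_integral_ext_le _ _ _

lemma D1.hasDerivWithinAt {y y' : D a b} (h : D1 y y') (t : Icc a b) :
    HasDerivWithinAt (ext y) (y' t) (Icc a b) t := by
  obtain ⟨Y, h1, h2⟩ := h
  exact (h2 t).hasDerivWithinAt.congr (fun s hs => by rw [ext_of_mem y hs, ← h1])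
    (by simp [h1])

lemma D1.hasDerivAt {y y' : D a b} (h : D1 y y') {t : ℝ} (ht : t ∈ Ioo a b) :
    HasDerivAt (ext y) (ext y' t) t := by
  have := h.hasDerivWithinAt ⟨t, Ioo_subset_Icc_self ht⟩
  rw [ext_of_mem y' (Ioo_subset_Icc_self ht)]
  exact this.hasDerivAt (Icc_mem_nhds ht.1 ht.2)

/-- derivative in the interior suffices -/
lemma D1_of_interior {y y' : D a b} (h : ∀ t ∈ Ioo a b, HasDerivAt (ext y) (ext y' t) t) :
    D1 y y' := by
  rw [D1_iff]
  ext t
  have := intervalIntegral.integral_eq_sub_of_hasDerivAt_of_le (f := ext y) (f' := ext y')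
    t.2.1 (ext_cont y).continuousOn (fun x hx => h x ⟨hx.1, hx.2.trans_le t.2.2⟩)
    ((ext_cont y').intervalIntegrable _ _)
  have e : ext y a = y lo := ext_coe y lo
  simp [V_apply, this, e]

lemma D1.unique (hlt : a < b) {y y' y'' : D a b} (h : D1 y y') (k : D1 y y'') : y' = y'' := by
  ext t
  exact (uniqueDiffOn_Icc hlt t t.2).eq_deriv _ (h.hasDerivWithinAt t) (k.hasDerivWithinAt t)

lemma D1.eq_const {y : D a b} (h : D1 y 0) : y = algebraMap ℝ _ (y lo) := by
  simpa using h.eq_V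

/-- integration by parts -/
lemma D1.parts {y y' z z' : D a b} (h : D1 y y') (k : D1 z z') :
    J (y' * z) + J (y * z') = y hi * z hi - y lo * z lo := by
  rw [← map_add, (h.mul k).J_eq]; simp

lemma nrm_one : PJ.nrm (1 : D a b) = √(b - a) := by
  rw [PF.nrm_def]; simp [J_one]

lemma abs_J_le (y : D a b) : |J y| ≤ √(b - a) * PJ.nrm y := by
  have := (PJ : PF (D a b)).abs_mul_le 1 y
  simpa [nrm_one] using this

lemma J_abs_le (y : D a b) : J y.abs ≤ √(b - a) * PJ.nrm y := by
  have h := abs_J_le y.abs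
  have e : PJ.nrm y.abs = PJ.nrm y := by
    rw [PF.nrm_def, PF.nrm_def]
    congr 2
    ext t
    simp
  rw [e] at h
  exact (le_abs_self _).trans h

lemma abs_integral_le_J_abs (y : D a b) (s t : Icc a b) :
    |∫ x in (s:ℝ)..(t:ℝ), ext y x| ≤ J y.abs := by
  have hc : Continuous fun x => |ext y x| := (ext_cont y).abs
  have key : ∀ s t : Icc a b, (s:ℝ) ≤ t → |∫ x in (s:ℝ)..(t:ℝ), ext y x| ≤ J y.abs := by
    intro s t hst
    refine (intervalIntegral.abs_integral_le_integral_abs hst).trans ?_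
    have e : J y.abs = ∫ x in a..b, |ext y x| := J_eq_of (fun t => by simp)
    rw [e]
    exact intervalIntegral.integral_mono_interval s.2.1 hst t.2.2
      (Filter.Eventually.of_forall (fun x => abs_nonneg _)) (hc.intervalIntegrable _ _)
  rcases le_total (s:ℝ) t with h | h
  · exact key s t h
  · rw [intervalIntegral.integral_symm, abs_neg]; exact key t s h

lemma D1.abs_sub_le_nrm {y y' : D a b} (h : D1 y y') (s t : Icc a b) :
    |y t - y s| ≤ √(b - a) * PJ.nrm y' := by
  rw [← h.integral s t]; exact (abs_integral_le_J_abs _ _ _).trans (J_abs_le _)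

lemma norm_V_le (y : D a b) : ‖V y‖ ≤ √(b - a) * PJ.nrm y := by
  refine D.norm_le (by positivity) (fun t => ?_)
  simpa using (D1_V y).abs_sub_le_nrm lo t

lemma nrm_le_norm' (y : D a b) : PJ.nrm y ≤ √(b - a) * ‖y‖ := by
  have := (PJ : PF (D a b)).nrm_mul_le y 1
  rw [mul_one, nrm_one] at this
  linarith

lemma eq_zero_of_nrm (hlt : a < b) {y : D a b} (h : PJ.nrm y = 0) : y = 0 := by
  have h1 : V y = 0 := by
    have := norm_V_le y
    rw [h, mul_zero] at this
    exact norm_le_zero_iff.1 this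
  exact D1.unique hlt (D1_V y) (h1 ▸ D1_zero)

/-- `m` times continuously differentiable on the closed interval -/
def Sd : ℕ → D a b → Prop
  | 0, _ => True
  | m + 1, y => ∃ y', D1 y y' ∧ Sd m y'

omit hab in
lemma Sd.mono : ∀ {m : ℕ} {y : D a b}, Sd (m + 1) y → Sd m y
  | 0, _, _ => trivial
  | _ + 1, _, ⟨y', h, k⟩ => ⟨y', h, k.mono⟩

omit hab in
lemma Sd_zero : ∀ m : ℕ, Sd m (0 : D a b)
  | 0 => trivial
  | m + 1 => ⟨0, D1_zero, Sd_zero m⟩

omit hab in
lemma Sd_const (c : ℝ) : ∀ m : ℕ, Sd m (algebraMap ℝ (D a b) c)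
  | 0 => trivial
  | m + 1 => ⟨0, D1_const c, Sd_zero m⟩

omit hab in
lemma Sd.add : ∀ {m : ℕ} {y z : D a b}, Sd m y → Sd m z → Sd m (y + z)
  | 0, _, _, _, _ => trivial
  | _ + 1, _, _, ⟨_, h, k⟩, ⟨_, h', k'⟩ => ⟨_, h.add h', k.add k'⟩

omit hab in
lemma Sd.smul (c : ℝ) : ∀ {m : ℕ} {y : D a b}, Sd m y → Sd m (c • y)
  | 0, _, _ => trivial
  | _ + 1, _, ⟨_, h, k⟩ => ⟨_, h.smul c, k.smul c⟩

omit hab in
lemma Sd.neg {m : ℕ} {y : D a b} (h : Sd m y) : Sd m (-y) := by
  simpa using h.smul (-1)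

omit hab in
lemma Sd.sub {m : ℕ} {y z : D a b} (h : Sd m y) (k : Sd m z) : Sd m (y - z) := by
  simpa [sub_eq_add_neg] using h.add k.neg

omit hab in
lemma Sd.mul : ∀ {m : ℕ} {y z : D a b}, Sd m y → Sd m z → Sd m (y * z)
  | 0, _, _, _, _ => trivial
  | _ + 1, _, _, ⟨y', h, k⟩, ⟨z', h', k'⟩ =>
    ⟨_, h.mul h', (k.mul (Sd.mono ⟨z', h', k'⟩)).add ((Sd.mono ⟨y', h, k⟩).mul k')⟩

omit hab in
lemma Sd.inv : ∀ {m : ℕ} {y z : D a b}, Sd m y → y * z = 1 → Sd m z
  | 0, _, _, _, _ => trivial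
  | m + 1, y, z, ⟨y', h, k⟩, e => by
    have hz : Sd m z := Sd.inv (Sd.mono ⟨y', h, k⟩) e
    exact ⟨_, h.inv e, ((k.mul hz).mul hz).neg⟩

omit hab in
lemma Sd.sum {ι : Type*} {m : ℕ} (s : Finset ι) {f : ι → D a b} (h : ∀ i ∈ s, Sd m (f i)) :
    Sd m (∑ i ∈ s, f i) := by
  classical
  induction s using Finset.induction_on with
  | empty => simpa using Sd_zero m
  | insert i s hi ih =>
    rw [Finset.sum_insert hi]
    exact (h i (Finset.mem_insert_self _ _)).add
      (ih (fun j hj => h j (Finset.mem_insert_of_mem hj)))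

lemma Sd.contDiffOn (hlt : a < b) : ∀ {m : ℕ} {y : D a b}, Sd m y →
    ContDiffOn ℝ m (ext y) (Icc a b)
  | 0, y, _ => contDiffOn_zero.2 (ext_cont y).continuousOn
  | m + 1, y, ⟨y', h, k⟩ => by
    have ih := Sd.contDiffOn hlt k
    have hu := uniqueDiffOn_Icc hlt
    rw [show ((m + 1 : ℕ) : WithTop ℕ∞) = (m : WithTop ℕ∞) + 1 by push_cast; rfl,
      contDiffOn_succ_iff_derivWithin hu]
    refine ⟨fun t ht => (h.hasDerivWithinAt ⟨t, ht⟩).differentiableWithinAt, by simp, ?_⟩
    refine ih.congr (fun t ht => ?_)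
    rw [(h.hasDerivWithinAt ⟨t, ht⟩).derivWithin (hu t ht), ext_of_mem y' ht]

/-- restriction of a continuous function of a real variable -/
def res (f : ℝ → ℝ) (hf : Continuous f) : D a b :=
  D.mk (fun t => f t) (hf.comp continuous_subtype_val)

omit hab in
@[simp] lemma res_apply (f : ℝ → ℝ) (hf : Continuous f) (t : Icc a b) :
    (res f hf : D a b) t = f t := rfl

omit hab in
lemma D1_res {f f' : ℝ → ℝ} (hf : Continuous f) (hf' : Continuous f')
    (h : ∀ t, HasDerivAt f (f' t) t) : D1 (res f hf : D a b) (res f' hf') :=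
  ⟨f, fun _ => rfl, fun t => h t⟩

omit hab in
lemma exists_inv {y : D a b} (h : ∀ t, y t ≠ 0) : ∃ z : D a b, y * z = 1 :=
  ⟨D.mk (fun t => (y t)⁻¹) (y.continuous.inv₀ h), by ext t; simp [h t]⟩

end interval

end

end Pool.Agent.P.MP_0d657e_an
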