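import Pool.Agent.P.MP_0d657e_an.Basic1

/-! Continuous functions on the annulus, seen as functions of the angle with values in
functions of the height. -/

open Set Real MeasureTheory

namespace Pool.Agent.P.MP_0d657e_an

noncomputable section

instance fact_zero_le_pi : Fact ((0:ℝ) ≤ π) := ⟨pi_pos.le⟩
/-- the period -/
def tp : ℝ := 2 * π
lemma tp_pos : 0 < tp := two_pi_pos
instance fact_tp_pos : Fact ((0:ℝ) < tp) := ⟨tp_pos⟩

/-- the circle -/
abbrev T := AddCircle tp
/-- functions of the height -/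
abbrev D0 := D 0 π
/-- functions on the annulus -/
def C2 : Type := C(T, D0)

namespace C2

instance : NormedCommRing C2 := inferInstanceAs (NormedCommRing C(T, D0))
instance : NormedAlgebra ℝ C2 := inferInstanceAs (NormedAlgebra ℝ C(T, D0))
instance : CompleteSpace C2 := inferInstanceAs (CompleteSpace C(T, D0))
instance : FunLike C2 T D0 := inferInstanceAs (FunLike C(T, D0) T D0)

/-- the underlying continuous map -/
def cm (y : C2) : C(T, D0) := y
/-- constructor -/
def mk (f : T → D0) (hf : Continuous f) : C2 := (⟨f, hf⟩ : C(T, D0))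

@[simp] lemma mk_apply (f : T → D0) (hf : Continuous f) (t : T) : mk f hf t = f t := rfl
@[ext] lemma ext {y z : C2} (h : ∀ t, y t = z t) : y = z := ContinuousMap.ext h
@[fun_prop] lemma continuous (y : C2) : Continuous y := y.cm.continuous
@[simp] lemma add_apply (y z : C2) (t) : (y + z) t = y t + z t := rfl
@[simp] lemma sub_apply (y z : C2) (t) : (y - z) t = y t - z t := rfl
@[simp] lemma mul_apply (y z : C2) (t) : (y * z) t = y t * z t := rfl
@[simp] lemma neg_apply (y : C2) (t) : (-y) t = -y t := rfl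
@[simp] lemma zero_apply (t) : (0 : C2) t = 0 := rfl
@[simp] lemma one_apply (t) : (1 : C2) t = 1 := rfl
@[simp] lemma smul_apply (c : ℝ) (y : C2) (t) : (c • y) t = c • y t := rfl
@[simp] lemma algebraMap_apply (c : ℝ) (t) : (algebraMap ℝ C2 c) t = algebraMap ℝ D0 c := by
  rw [Algebra.algebraMap_eq_smul_one, smul_apply, one_apply, Algebra.algebraMap_eq_smul_one]

lemma norm_coe_le_norm (y : C2) (t) : ‖y t‖ ≤ ‖y‖ := y.cm.norm_coe_le_norm t

lemma norm_le {y : C2} {c : ℝ} (hc : 0 ≤ c) (h : ∀ t, ‖y t‖ ≤ c) : ‖y‖ ≤ c :=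
  (ContinuousMap.norm_le y.cm hc).2 h

/-- evaluation -/
def ev (t : T) : C2 →L[ℝ] D0 :=
  LinearMap.mkContinuous ⟨⟨fun y => y t, fun _ _ => rfl⟩, fun _ _ => rfl⟩ 1
    (fun y => by simpa using y.norm_coe_le_norm t)

@[simp] lemma ev_apply (t : T) (y : C2) : ev t y = y t := rfl

/-- evaluation as a ring morphism -/
def evR (t : T) : C2 →+* D0 where
  toFun y := y t
  map_one' := rfl
  map_mul' _ _ := rfl
  map_zero' := rfl
  map_add' _ _ := rfl

@[simp] lemma sum_apply {ι : Type*} (s : Finset ι) (f : ι → C2) (t) :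
    (∑ i ∈ s, f i) t = ∑ i ∈ s, f i t := map_sum (ev t) f s
@[simp] lemma pow_apply (y : C2) (n : ℕ) (t) : (y ^ n) t = y t ^ n := map_pow (evR t) y n
@[simp] lemma natCast_apply (n : ℕ) (t) : (n : C2) t = n := map_natCast (evR t) n
@[simp] lemma ofNat_apply (n : ℕ) [n.AtLeastTwo] (t) :
    (ofNat(n) : C2) t = ofNat(n) := map_ofNat (evR t) n

end C2

lemma C2_ext {F G : C2} (h : ∀ (x : ℝ) (t : Icc (0:ℝ) π), F x t = G x t) : F = G := by
  ext x t
  induction x using QuotientAddGroup.induction_on with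
  | H x => exact h x t

@[fun_prop] lemma C2_cont (F : C2) : Continuous fun x : ℝ => F x :=
  F.continuous.comp (AddCircle.continuous_mk' _)

lemma C2_per (F : C2) (x : ℝ) : F ((x + tp : ℝ) : T) = F x := by
  rw [AddCircle.coe_add_period]

lemma C2_abs_le (F : C2) (x : T) (t : Icc (0:ℝ) π) : |F x t| ≤ ‖F‖ :=
  ((F x).norm_coe_le_norm t).trans (F.norm_coe_le_norm x)

lemma C2_norm_le {F : C2} {c : ℝ} (hc : 0 ≤ c) (h : ∀ (x : ℝ) (t : Icc (0:ℝ) π), |F x t| ≤ c) :
    ‖F‖ ≤ c := by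
  refine C2.norm_le hc (fun x => D.norm_le hc (fun t => ?_))
  induction x using QuotientAddGroup.induction_on with
  | H x => exact h x t

/-- functions of the height as functions on the annulus -/
def ι : D0 →ₐ[ℝ] C2 where
  toFun y := C2.mk (fun _ => y) continuous_const
  map_one' := rfl
  map_mul' _ _ := rfl
  map_zero' := rfl
  map_add' _ _ := rfl
  commutes' c := by ext x t; simp

@[simp] lemma ι_apply (y : D0) (x : T) : ι y x = y := rfl

lemma norm_ι_le (y : D0) : ‖ι y‖ ≤ ‖y‖ :=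
  C2.norm_le (norm_nonneg _) (fun _ => le_rfl)

/-- `ι` as a continuous linear map -/
def ιL : D0 →L[ℝ] C2 := LinearMap.mkContinuous ι.toLinearMap 1 (fun y => by
  simpa using norm_ι_le y)

@[simp] lemma ιL_apply (y : D0) : ιL y = ι y := rfl

/-- `cos (k x)` -/
def cx (k : ℤ) : C2 := C2.mk (fun x => algebraMap ℝ D0 (fourier k x).re)
  ((continuous_algebraMap ℝ D0).comp (Complex.continuous_re.comp (fourier k).continuous))
/-- `sin (k x)` -/
def sx (k : ℤ) : C2 := C2.mk (fun x => algebraMap ℝ D0 (fourier k x).im)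
  ((continuous_algebraMap ℝ D0).comp (Complex.continuous_im.comp (fourier k).continuous))

lemma fourier_two_pi (k : ℤ) (x : ℝ) :
    fourier k (x : T) = Complex.exp (((k * x : ℝ) : ℂ) * Complex.I) := by
  rw [fourier_coe_apply]
  congr 1
  have : (π : ℂ) ≠ 0 := by exact_mod_cast pi_ne_zero
  unfold tp
  push_cast
  field_simp

lemma cx_coe (k : ℤ) (x : ℝ) : cx k x = algebraMap ℝ D0 (cos (k * x)) := by
  change algebraMap ℝ D0 (fourier k (x:T)).re = _
  rw [fourier_two_pi, Complex.exp_ofReal_mul_I_re]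

lemma sx_coe (k : ℤ) (x : ℝ) : sx k x = algebraMap ℝ D0 (sin (k * x)) := by
  change algebraMap ℝ D0 (fourier k (x:T)).im = _
  rw [fourier_two_pi, Complex.exp_ofReal_mul_I_im]

@[simp] lemma cx_apply (k : ℤ) (x : ℝ) (t : Icc (0:ℝ) π) : cx k x t = cos (k * x) := by
  simp [cx_coe]

@[simp] lemma sx_apply (k : ℤ) (x : ℝ) (t : Icc (0:ℝ) π) : sx k x t = sin (k * x) := by
  simp [sx_coe]

lemma norm_cx_le (k : ℤ) : ‖cx k‖ ≤ 1 :=
  C2_norm_le zero_le_one (fun x t => by simpa using abs_cos_le_one _)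

lemma norm_sx_le (k : ℤ) : ‖sx k‖ ≤ 1 :=
  C2_norm_le zero_le_one (fun x t => by simpa using abs_sin_le_one _)

@[simp] lemma cx_zero : cx 0 = 1 := C2_ext (fun x t => by simp)
@[simp] lemma sx_zero : sx 0 = 0 := C2_ext (fun x t => by simp)
@[simp] lemma cx_neg (k : ℤ) : cx (-k) = cx k := C2_ext (fun x t => by simp)
@[simp] lemma sx_neg (k : ℤ) : sx (-k) = -sx k := C2_ext (fun x t => by simp)

lemma cx_mul_cx (k l : ℤ) : cx k * cx l = (1/2 : ℝ) • (cx (k + l) + cx (k - l)) :=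
  C2_ext (fun x t => by simp [add_mul, sub_mul, cos_add, cos_sub]; ring)

lemma sx_mul_sx (k l : ℤ) : sx k * sx l = (1/2 : ℝ) • (cx (k - l) - cx (k + l)) :=
  C2_ext (fun x t => by simp [add_mul, sub_mul, cos_add, cos_sub]; ring)

lemma sx_mul_cx (k l : ℤ) : sx k * cx l = (1/2 : ℝ) • (sx (k + l) + sx (k - l)) :=
  C2_ext (fun x t => by simp [add_mul, sub_mul, sin_add, sin_sub]; ring)

/-- derivative in the angle -/
def Dx (F G : C2) : Prop := ∀ x : ℝ, HasDerivAt (fun x : ℝ => F x) (G x) x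
/-- derivative in the height -/
def Dt (F G : C2) : Prop := ∀ x : T, D1 (F x) (G x)

namespace Dx
variable {F F' G G' : C2}
lemma add (h : Dx F F') (k : Dx G G') : Dx (F + G) (F' + G') := fun x => (h x).add (k x)
lemma neg (h : Dx F F') : Dx (-F) (-F') := fun x => (h x).neg
lemma sub (h : Dx F F') (k : Dx G G') : Dx (F - G) (F' - G') := fun x => (h x).sub (k x)
lemma smul (c : ℝ) (h : Dx F F') : Dx (c • F) (c • F') := fun x => (h x).const_smul c
lemma mul (h : Dx F F') (k : Dx G G') : Dx (F * G) (F' * G + F * G') := fun x => (h x).mul (k x)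
lemma congr' (h : Dx F F') {G' : C2} (e : G' = F') : Dx F G' := e ▸ h
lemma congr (h : Dx F F') {G G' : C2} (e0 : G = F) (e : G' = F') : Dx G G' := e0 ▸ e ▸ h
lemma unique (h : Dx F F') (k : Dx F G') : F' = G' :=
  C2_ext (fun x t => by rw [(h x).unique (k x)])
lemma sum {α : Type*} (s : Finset α) {f f' : α → C2} (h : ∀ i ∈ s, Dx (f i) (f' i)) :
    Dx (∑ i ∈ s, f i) (∑ i ∈ s, f' i) := fun x => by
  simpa only [C2.sum_apply] using HasDerivAt.fun_sum (fun i hi => h i hi x)
lemma pt (h : Dx F F') (x : ℝ) (t : Icc (0:ℝ) π) :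
    HasDerivAt (fun x : ℝ => F x t) (F' x t) x :=
  (D.ev t).hasFDerivAt.comp_hasDerivAt x (h x)
end Dx

lemma Dx_ι (y : D0) : Dx (ι y) 0 := fun x => hasDerivAt_const x y
lemma Dx_zero : Dx 0 0 := by simpa using Dx_ι 0
lemma Dx_one : Dx 1 0 := by simpa using Dx_ι 1

lemma Dx_of_pt {F G : C2}
    (h : ∀ (x : ℝ) (t : Icc (0:ℝ) π), HasDerivAt (fun x : ℝ => F x t) (G x t) x) : Dx F G := by
  have e : (fun x : ℝ => F x) = fun x : ℝ => F (0:ℝ) + ∫ y in (0:ℝ)..x, G y := by
    funext x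
    ext t
    have h1 := (D.ev t).intervalIntegral_comp_comm
      ((C2_cont G).intervalIntegrable (μ := volume) 0 x)
    have h2 := intervalIntegral.integral_eq_sub_of_hasDerivAt (a := 0) (b := x)
      (fun y _ => h y t) (((D.ev t).continuous.comp
        (C2_cont G)).intervalIntegrable _ _)
    simp only [D.ev_apply] at h1
    rw [D.add_apply, ← h1, h2]; ring
  intro x
  rw [e]
  exact (intervalIntegral.integral_hasDerivAt_right ((C2_cont G).intervalIntegrable _ _)
    ((C2_cont G).stronglyMeasurableAtFilter _ _) (C2_cont G).continuousAt).const_add _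

lemma Dx.inv {F F' G : C2} (h : Dx F F') (e : F * G = 1) : Dx G (-(F' * G * G)) := by
  have hz : ∀ (x : T) t, F x t * G x t = 1 := fun x t => by
    have := congrArg (fun f : C2 => f x t) e; simpa using this
  have hne : ∀ (x : T) t, F x t ≠ 0 := fun x t h0 => by simpa [h0] using hz x t
  have hz' : ∀ (x : T) t, G x t = (F x t)⁻¹ := fun x t => eq_inv_of_mul_eq_one_right (hz x t)
  refine Dx_of_pt (fun x t => ?_)
  simp only [hz']
  refine ((h.pt x t).inv (hne _ t)).congr_deriv ?_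
  simp only [C2.neg_apply, C2.mul_apply, D.neg_apply, D.mul_apply, hz']
  have := hne x t
  field_simp

lemma Dx_cx (k : ℤ) : Dx (cx k) (-((k:ℝ) • sx k)) := Dx_of_pt (fun x t => by
  simpa [mul_comm] using ((hasDerivAt_id x).const_mul (k:ℝ)).cos)

lemma Dx_sx (k : ℤ) : Dx (sx k) ((k:ℝ) • cx k) := Dx_of_pt (fun x t => by
  simpa [mul_comm] using ((hasDerivAt_id x).const_mul (k:ℝ)).sin)

namespace Dt
variable {F F' G G' : C2}
lemma add (h : Dt F F') (k : Dt G G') : Dt (F + G) (F' + G') := fun x => (h x).add (k x)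
lemma neg (h : Dt F F') : Dt (-F) (-F') := fun x => (h x).neg
lemma sub (h : Dt F F') (k : Dt G G') : Dt (F - G) (F' - G') := fun x => (h x).sub (k x)
lemma smul (c : ℝ) (h : Dt F F') : Dt (c • F) (c • F') := fun x => (h x).smul c
lemma mul (h : Dt F F') (k : Dt G G') : Dt (F * G) (F' * G + F * G') := fun x => (h x).mul (k x)
lemma congr' (h : Dt F F') {G' : C2} (e : G' = F') : Dt F G' := e ▸ h
lemma congr (h : Dt F F') {G G' : C2} (e0 : G = F) (e : G' = F') : Dt G G' := e0 ▸ e ▸ h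
lemma unique (h : Dt F F') (k : Dt F G') : F' = G' :=
  C2.ext (fun x => D1.unique pi_pos (h x) (k x))
lemma sum {α : Type*} (s : Finset α) {f f' : α → C2} (h : ∀ i ∈ s, Dt (f i) (f' i)) :
    Dt (∑ i ∈ s, f i) (∑ i ∈ s, f' i) := fun x => by
  simpa only [C2.sum_apply] using D1.sum s (fun i hi => h i hi x)
lemma inv (h : Dt F F') (e : F * G = 1) : Dt G (-(F' * G * G)) := fun x =>
  (h x).inv (congrArg (fun f : C2 => f x) e)
end Dt

lemma Dt_ι {y y' : D0} (h : D1 y y') : Dt (ι y) (ι y') := fun _ => h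
lemma Dt_zero : Dt 0 0 := fun _ => D1_zero
lemma Dt_one : Dt 1 0 := fun _ => D1_one
lemma Dt_cx (k : ℤ) : Dt (cx k) 0 := fun _ => D1_const _
lemma Dt_sx (k : ℤ) : Dt (sx k) 0 := fun _ => D1_const _

@[fun_prop] lemma C2.cont2 (F : C2) : Continuous fun p : T × Icc (0:ℝ) π => F p.1 p.2 :=
  (ContinuousMap.uncurry (F : C(T, C(Icc (0:ℝ) π, ℝ)))).continuous

/-- constructor from a jointly continuous function -/
def C2.ofFun (f : T → Icc (0:ℝ) π → ℝ) (hf : Continuous fun p : T × Icc (0:ℝ) π => f p.1 p.2) :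
    C2 := (ContinuousMap.curry ⟨fun p : T × Icc (0:ℝ) π => f p.1 p.2, hf⟩ :
      C(T, C(Icc (0:ℝ) π, ℝ)))

@[simp] lemma C2.ofFun_apply (f : T → Icc (0:ℝ) π → ℝ) (hf) (x t) :
    C2.ofFun f hf x t = f x t := rfl

lemma exists_inv2 {F : C2} (h : ∀ x t, F x t ≠ 0) : ∃ G : C2, F * G = 1 := by
  refine ⟨C2.ofFun (fun x t => (F x t)⁻¹) (F.cont2.inv₀ (fun p => h p.1 p.2)), ?_⟩
  ext x t
  change F x t * (F x t)⁻¹ = 1
  exact mul_inv_cancel₀ (h x t)

/-- apply a bounded operator on functions of the height at each angle -/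
def lift2 (L : D0 →L[ℝ] D0) : C2 →L[ℝ] C2 :=
  LinearMap.mkContinuous
    { toFun := fun F => C2.mk (fun x => L (F x)) (L.continuous.comp F.continuous)
      map_add' := fun F G => by ext1 x; simp
      map_smul' := fun c F => by ext1 x; simp }
    ‖L‖ (fun F => C2.norm_le (by positivity) (fun x => (L.le_opNorm _).trans
      (mul_le_mul_of_nonneg_left (F.norm_coe_le_norm x) (norm_nonneg _))))

@[simp] lemma lift2_apply (L : D0 →L[ℝ] D0) (F : C2) (x : T) : lift2 L F x = L (F x) := rfl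

lemma Dx.lift2 {F G : C2} (h : Dx F G) (L : D0 →L[ℝ] D0) : Dx (lift2 L F) (lift2 L G) :=
  fun x => L.hasFDerivAt.comp_hasDerivAt x (h x)

lemma Dt_V (F : C2) : Dt (lift2 V F) F := fun _ => D1_V _

/-- average over the angle -/
def avg : C2 →L[ℝ] D0 :=
  LinearMap.mkContinuous
    { toFun := fun F => tp⁻¹ • ∫ x in (0:ℝ)..tp, F x
      map_add' := fun F G => by
        rw [← smul_add, ← intervalIntegral.integral_add ((C2_cont F).intervalIntegrable _ _)
          ((C2_cont G).intervalIntegrable _ _)]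
        rfl
      map_smul' := fun c F => by
        rw [RingHom.id_apply, smul_comm c, ← intervalIntegral.integral_smul c]
        rfl }
    1 (fun F => by
      have h := intervalIntegral.norm_integral_le_of_norm_le_const (a := 0) (b := tp)
        (f := fun x : ℝ => F x) (fun x _ => F.norm_coe_le_norm x)
      simp only [LinearMap.coe_mk, AddHom.coe_mk, norm_smul, Real.norm_eq_abs]
      rw [sub_zero, abs_of_pos tp_pos] at h
      rw [abs_of_pos (inv_pos.2 tp_pos), inv_mul_le_iff₀ tp_pos]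
      linarith)

lemma avg_def (F : C2) : avg F = tp⁻¹ • ∫ x in (0:ℝ)..tp, F x := rfl

lemma norm_avg_le (F : C2) : ‖avg F‖ ≤ ‖F‖ := by
  have h : ‖avg‖ ≤ 1 := LinearMap.mkContinuous_norm_le _ zero_le_one _
  simpa using avg.le_of_opNorm_le h F

lemma map_avg {E : Type*} [NormedAddCommGroup E] [NormedSpace ℝ E] [CompleteSpace E]
    (L : D0 →L[ℝ] E) (F : C2) : L (avg F) = tp⁻¹ • ∫ x in (0:ℝ)..tp, L (F x) := by
  rw [avg_def, map_smul, L.intervalIntegral_comp_comm ((C2_cont F).intervalIntegrable _ _)]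

lemma avg_apply (F : C2) (t : Icc (0:ℝ) π) :
    avg F t = tp⁻¹ * ∫ x in (0:ℝ)..tp, F x t :=
  map_avg (D.ev t) F

lemma avg_lift2 (L : D0 →L[ℝ] D0) (F : C2) : avg (lift2 L F) = L (avg F) :=
  (map_avg L F).symm

lemma avg_ι_mul (y : D0) (F : C2) : avg (ι y * F) = y * avg F :=
  avg_lift2 (ContinuousLinearMap.mul ℝ D0 y) F

lemma avg_mul_ι (y : D0) (F : C2) : avg (F * ι y) = avg F * y := by
  rw [mul_comm, avg_ι_mul, mul_comm]

@[simp] lemma avg_ι (y : D0) : avg (ι y) = y := by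
  rw [avg_def]
  simp only [ι_apply, intervalIntegral.integral_const, sub_zero, smul_smul]
  rw [inv_mul_cancel₀ tp_pos.ne', one_smul]

@[simp] lemma avg_one : avg 1 = 1 := by simpa using avg_ι 1

lemma avg_mono {F G : C2} (t : Icc (0:ℝ) π) (h : ∀ x : ℝ, F x t ≤ G x t) :
    avg F t ≤ avg G t := by
  rw [avg_apply, avg_apply]
  refine mul_le_mul_of_nonneg_left ?_ (inv_pos.2 tp_pos).le
  exact intervalIntegral.integral_mono tp_pos.le
    (((D.ev t).continuous.comp (C2_cont F)).intervalIntegrable _ _)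
    (((D.ev t).continuous.comp (C2_cont G)).intervalIntegrable _ _) h

lemma Dx.avg_eq {F G : C2} (h : Dx F G) : avg G = 0 := by
  rw [avg_def, intervalIntegral.integral_eq_sub_of_hasDerivAt (fun x _ => h x)
    ((C2_cont G).intervalIntegrable _ _)]
  have := C2_per F 0
  rw [zero_add] at this
  rw [this, sub_self, smul_zero]

lemma Dt.avg {F G : C2} (h : Dt F G) : D1 (avg F) (avg G) := by
  let L : D0 →L[ℝ] D0 := (algebraMapCLM ℝ D0).comp (D.ev lo)
  have e : F = lift2 L F + lift2 V G := C2.ext (fun x => (h x).eq_V)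
  rw [D1_iff]
  conv_lhs => rw [e, map_add, avg_lift2, avg_lift2]
  rfl

lemma avg_eq_zero_at {F : C2} (t : Icc (0:ℝ) π) (h : ∀ x : T, F x t = 0) : avg F t = 0 := by
  simp [avg_apply, h]

lemma avg_cx (k : ℤ) : avg (cx k) = if k = 0 then 1 else 0 := by
  split_ifs with h
  · simp [h]
  · have := ((Dx_sx k).smul (k:ℝ)⁻¹).avg_eq
    rwa [smul_smul, inv_mul_cancel₀ (by exact_mod_cast h), one_smul] at this

@[simp] lemma avg_sx (k : ℤ) : avg (sx k) = 0 := by
  by_cases h : k = 0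
  · simp [h]
  · have := ((Dx_cx k).smul (-(k:ℝ)⁻¹)).avg_eq
    rwa [smul_neg, smul_smul, neg_mul, inv_mul_cancel₀ (by exact_mod_cast h), neg_smul, neg_neg,
      one_smul] at this

/-- normalised integral over the annulus -/
def II : C2 →L[ℝ] ℝ := J.comp avg

lemma II_apply (F : C2) : II F = J (avg F) := rfl

lemma II_mono {F G : C2} (h : ∀ (x : ℝ) t, F x t ≤ G x t) : II F ≤ II G :=
  J_mono (fun t => avg_mono t (fun x => h x t))

lemma II_ι (y : D0) : II (ι y) = J y := by simp [II_apply]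

lemma Dx.II_eq {F G : C2} (h : Dx F G) : II G = 0 := by simp [II_apply, h.avg_eq]

lemma Dt.II_eq {F G : C2} (h : Dt F G) (h0 : ∀ x, F x lo = 0) (h1 : ∀ x, F x hi = 0) :
    II G = 0 :=
  h.avg.J_zero (avg_eq_zero_at _ h0) (avg_eq_zero_at _ h1)

/-- the integral over the annulus as a positive functional -/
def P2 : PF C2 where
  Φ := II
  nonneg u := by
    simpa using II_mono (F := 0) (G := u * u) (fun x t => mul_self_nonneg (u x t))
  pos P u := by
    rw [← smul_eq_mul ‖P‖, ← map_smul]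
    refine II_mono (fun x t => ?_)
    exact mul_le_mul_of_nonneg_right ((le_abs_self _).trans (C2_abs_le P x t))
      (mul_self_nonneg (u x t))

@[simp] lemma P2_Φ : P2.Φ = II := rfl

lemma nrm_ι (y : D0) : P2.nrm (ι y) = PJ.nrm y := by
  rw [PF.nrm_def, PF.nrm_def, ← map_mul, P2_Φ, II_ι, PJ_Φ]

lemma avg_sq_le (F : C2) (t : Icc (0:ℝ) π) : avg F t * avg F t ≤ avg (F * F) t := by
  have h := avg_mono (F := 0) (G := (F - ι (avg F)) * (F - ι (avg F))) t
    (fun x => mul_self_nonneg _)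
  have e : (F - ι (avg F)) * (F - ι (avg F)) =
      F * F - (2:ℝ) • (ι (avg F) * F) + ι (avg F * avg F) := by
    simp only [Algebra.smul_def, map_mul, map_ofNat]; ring
  rw [e] at h
  simp only [map_zero, map_add, map_sub, map_smul, avg_ι_mul, avg_ι] at h
  simp at h
  linarith

lemma nrm_avg_le (F : C2) : PJ.nrm (avg F) ≤ P2.nrm F := by
  rw [PF.nrm_def, PF.nrm_def]
  exact Real.sqrt_le_sqrt (J_mono (fun t => avg_sq_le F t))

lemma eq_zero_of_nrm2 {F : C2} (h : P2.nrm F = 0) : F = 0 := by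
  have h1 : II (F * F) = 0 := by rw [← P2_Φ, ← PF.nrm_sq, h]; simp
  have hnn : ∀ t, 0 ≤ avg (F * F) t := fun t => (mul_self_nonneg _).trans (avg_sq_le F t)
  have h2 : avg (F * F) = 0 := by
    let z : D0 := D.mk (fun t => √(avg (F * F) t)) (avg (F * F)).continuous.sqrt
    have hz : z * z = avg (F * F) := by
      ext t; exact Real.mul_self_sqrt (hnn t)
    have : z = 0 := eq_zero_of_nrm pi_pos (by rw [PF.nrm_def, hz, PJ_Φ, ← II_apply, h1]; simp)
    rw [← hz, this, mul_zero]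
  refine C2_ext (fun x t => ?_)
  have h3 : ∫ y in (0:ℝ)..tp, (F * F) y t = 0 := by
    have := avg_apply (F * F) t
    rw [h2] at this
    have h4 : tp⁻¹ ≠ 0 := (inv_pos.2 tp_pos).ne'
    simpa [h4] using this.symm
  have hc : Continuous fun y : ℝ => (F * F) y t :=
    (D.ev t).continuous.comp (C2_cont (F * F))
  by_contra hne
  obtain ⟨y, hy, hxy⟩ : ∃ y ∈ Ico (0:ℝ) tp, (y : T) = x := AddCircle.eq_coe_Ico _
  have := intervalIntegral.integral_pos tp_pos hc.continuousOn
    (fun y _ => mul_self_nonneg (F y t))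
    ⟨y, ⟨hy.1, by linarith [hy.2]⟩, by
      rw [hxy]; exact mul_self_pos.2 hne⟩
  linarith

/-- cosine coefficient -/
def cm (k : ℤ) : C2 →L[ℝ] D0 := avg.comp (ContinuousLinearMap.mul ℝ C2 (cx k))
/-- sine coefficient -/
def sm (k : ℤ) : C2 →L[ℝ] D0 := avg.comp (ContinuousLinearMap.mul ℝ C2 (sx k))

lemma cm_apply (k : ℤ) (F : C2) : cm k F = avg (cx k * F) := rfl
lemma sm_apply (k : ℤ) (F : C2) : sm k F = avg (sx k * F) := rfl

@[simp] lemma cm_neg (k : ℤ) : cm (-k) = cm k := by simp [cm]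
lemma sm_neg (k : ℤ) (F : C2) : sm (-k) F = -sm k F := by simp [sm_apply]
lemma cm_zero (F : C2) : cm 0 F = avg F := by simp [cm_apply]
@[simp] lemma sm_zero (F : C2) : sm 0 F = 0 := by simp [sm_apply]

lemma cm_ι_mul (k : ℤ) (y : D0) (F : C2) : cm k (ι y * F) = y * cm k F := by
  rw [cm_apply, cm_apply, mul_left_comm, avg_ι_mul]
lemma sm_ι_mul (k : ℤ) (y : D0) (F : C2) : sm k (ι y * F) = y * sm k F := by
  rw [sm_apply, sm_apply, mul_left_comm, avg_ι_mul]

lemma cm_cx_mul (k m : ℤ) (F : C2) :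
    cm k (cx m * F) = (1/2 : ℝ) • (cm (k + m) F + cm (k - m) F) := by
  simp only [cm_apply, ← mul_assoc, cx_mul_cx, smul_mul_assoc, add_mul, map_smul, map_add]
lemma cm_sx_mul (k m : ℤ) (F : C2) :
    cm k (sx m * F) = (1/2 : ℝ) • (sm (k + m) F - sm (k - m) F) := by
  simp only [cm_apply, sm_apply, ← mul_assoc]
  rw [mul_comm (cx k), sx_mul_cx, add_comm m, ← neg_sub k m, sx_neg]
  simp only [smul_mul_assoc, add_mul, map_smul, map_add, neg_mul, map_neg, sub_eq_add_neg]
lemma sm_cx_mul (k m : ℤ) (F : C2) :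
    sm k (cx m * F) = (1/2 : ℝ) • (sm (k + m) F + sm (k - m) F) := by
  simp only [sm_apply, ← mul_assoc, sx_mul_cx, smul_mul_assoc, add_mul, map_smul, map_add]
lemma sm_sx_mul (k m : ℤ) (F : C2) :
    sm k (sx m * F) = (1/2 : ℝ) • (cm (k - m) F - cm (k + m) F) := by
  simp only [cm_apply, sm_apply, ← mul_assoc, sx_mul_sx, smul_mul_assoc, sub_mul, map_smul,
    map_sub]

lemma cm_one (k : ℤ) : cm k 1 = if k = 0 then 1 else 0 := by simp [cm_apply, avg_cx]
@[simp] lemma sm_one (k : ℤ) : sm k 1 = 0 := by simp [sm_apply]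

lemma Dx.cm_eq {F G : C2} (h : Dx F G) (k : ℤ) : cm k G = (k:ℝ) • sm k F := by
  have := ((Dx_cx k).mul h).avg_eq
  simp only [neg_mul, smul_mul_assoc, map_add, map_neg, map_smul] at this
  rw [cm_apply, sm_apply]
  exact (neg_add_eq_zero.1 this).symm

lemma Dx.sm_eq {F G : C2} (h : Dx F G) (k : ℤ) : sm k G = -((k:ℝ) • cm k F) := by
  have := ((Dx_sx k).mul h).avg_eq
  simp only [smul_mul_assoc, map_add, map_smul] at this
  rw [cm_apply, sm_apply]
  exact eq_neg_of_add_eq_zero_right this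

lemma Dt.cm {F G : C2} (h : Dt F G) (k : ℤ) : D1 (cm k F) (cm k G) := by
  simpa [cm_apply] using ((Dt_cx k).mul h).avg

lemma Dt.sm {F G : C2} (h : Dt F G) (k : ℤ) : D1 (sm k F) (sm k G) := by
  simpa [sm_apply] using ((Dt_sx k).mul h).avg

lemma cm_eq_zero_at {F : C2} (k : ℤ) (t : Icc (0:ℝ) π) (h : ∀ x : T, F x t = 0) :
    cm k F t = 0 := avg_eq_zero_at t (fun x => by simp [h x])

lemma sm_eq_zero_at {F : C2} (k : ℤ) (t : Icc (0:ℝ) π) (h : ∀ x : T, F x t = 0) :
    sm k F t = 0 := avg_eq_zero_at t (fun x => by simp [h x])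

lemma nrm_cm_le (k : ℤ) (F : C2) : PJ.nrm (cm k F) ≤ P2.nrm F :=
  (nrm_avg_le _).trans ((P2.nrm_mul_le _ _).trans
    (mul_le_of_le_one_left (apply_nonneg _ _) (norm_cx_le k)))

lemma nrm_sm_le (k : ℤ) (F : C2) : PJ.nrm (sm k F) ≤ P2.nrm F :=
  (nrm_avg_le _).trans ((P2.nrm_mul_le _ _).trans
    (mul_le_of_le_one_left (apply_nonneg _ _) (norm_sx_le k)))

lemma II_ι_cx_mul (k : ℤ) (y : D0) (F : C2) : II (ι y * cx k * F) = J (y * cm k F) := by
  rw [II_apply, mul_assoc, avg_ι_mul, cm_apply]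

lemma II_ι_sx_mul (k : ℤ) (y : D0) (F : C2) : II (ι y * sx k * F) = J (y * sm k F) := by
  rw [II_apply, mul_assoc, avg_ι_mul, sm_apply]

end

end Pool.Agent.P.MP_0d657e_an
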