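import Pool.Agent.P.MP_0d657e_an.GreenC

/-! Functions on the annulus given by geometrically decaying Fourier coefficients. -/

open Set Real

namespace Pool.Agent.P.MP_0d657e_an

noncomputable section

/-- bounded sequences of functions of the height -/
def AA : Type := BoundedContinuousFunction ℤ D0

namespace AA

instance : NormedCommRing AA := inferInstanceAs (NormedCommRing (BoundedContinuousFunction ℤ D0))
instance : NormedAlgebra ℝ AA :=
  inferInstanceAs (NormedAlgebra ℝ (BoundedContinuousFunction ℤ D0))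
instance : CompleteSpace AA := inferInstanceAs (CompleteSpace (BoundedContinuousFunction ℤ D0))
instance : FunLike AA ℤ D0 := inferInstanceAs (FunLike (BoundedContinuousFunction ℤ D0) ℤ D0)

@[ext] lemma ext {y z : AA} (h : ∀ k, y k = z k) : y = z := BoundedContinuousFunction.ext h
@[simp] lemma add_apply (y z : AA) (k) : (y + z) k = y k + z k := rfl
@[simp] lemma sub_apply (y z : AA) (k) : (y - z) k = y k - z k := rfl
@[simp] lemma mul_apply (y z : AA) (k) : (y * z) k = y k * z k := rfl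
@[simp] lemma neg_apply (y : AA) (k) : (-y) k = -y k := rfl
@[simp] lemma zero_apply (k) : (0 : AA) k = 0 := rfl
@[simp] lemma smul_apply (c : ℝ) (y : AA) (k) : (c • y) k = c • y k := rfl

lemma norm_coe_le_norm (y : AA) (k) : ‖y k‖ ≤ ‖y‖ :=
  BoundedContinuousFunction.norm_coe_le_norm (y : BoundedContinuousFunction ℤ D0) k

/-- evaluation -/
def ev (k : ℤ) : AA →L[ℝ] D0 :=
  LinearMap.mkContinuous ⟨⟨fun y => y k, fun _ _ => rfl⟩, fun _ _ => rfl⟩ 1
    (fun y => by simpa using y.norm_coe_le_norm k)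

@[simp] lemma ev_apply (k : ℤ) (y : AA) : ev k y = y k := rfl

/-- an operator given by its components -/
def mkOp {E : Type*} [NormedAddCommGroup E] [NormedSpace ℝ E] (T : ℤ → E →L[ℝ] D0) (C : ℝ)
    (h : ∀ k x, ‖T k x‖ ≤ C * ‖x‖) : E →L[ℝ] AA :=
  LinearMap.mkContinuous
    { toFun := fun x => (BoundedContinuousFunction.ofNormedAddCommGroupDiscrete (fun k => T k x)
        (C * ‖x‖) (fun k => h k x) : BoundedContinuousFunction ℤ D0)
      map_add' := fun x y => AA.ext fun k => map_add (T k) x y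
      map_smul' := fun c x => AA.ext fun k => map_smul (T k) c x }
    C (fun x => (BoundedContinuousFunction.norm_le ((norm_nonneg _).trans (h 0 x))).2
      (fun k => h k x))

@[simp] lemma mkOp_apply {E : Type*} [NormedAddCommGroup E] [NormedSpace ℝ E]
    (T : ℤ → E →L[ℝ] D0) (C : ℝ) (h) (x : E) (k : ℤ) : mkOp T C h x k = T k x := rfl

end AA

open AA (mkOp mkOp_apply ev)

lemma hasSum_congr' {α E : Type*} [AddCommMonoid E] [TopologicalSpace E] {f g : α → E} {a : E}
    (h : HasSum f a) (e : ∀ k, g k = f k) : HasSum g a := (funext e : g = f) ▸ h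

/-- the weight -/
def wt (k : ℤ) : ℝ := (1/2) ^ k.natAbs

lemma wt_pos (k : ℤ) : 0 < wt k := by unfold wt; positivity
@[simp] lemma wt_neg (k : ℤ) : wt (-k) = wt k := by simp [wt]

lemma wt_le (k m : ℤ) : wt (k - m) / wt k ≤ 2 ^ m.natAbs := by
  rw [div_le_iff₀ (wt_pos k)]
  unfold wt
  obtain ⟨j, hj⟩ : ∃ j : ℕ, (k - m).natAbs + m.natAbs = k.natAbs + j :=
    Nat.exists_eq_add_of_le (by omega)
  have h : ((1:ℝ)/2) ^ (k - m).natAbs = 2 ^ m.natAbs * ((1/2) ^ k.natAbs * (1/2) ^ j) := by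
    rw [← pow_add, ← hj, pow_add, mul_left_comm, ← mul_pow]; simp
  rw [h]
  gcongr
  exact mul_le_of_le_one_right (by positivity) (pow_le_one₀ (by norm_num) (by norm_num))

lemma summable_wt (j : ℕ) : Summable fun k : ℤ => wt k * |(k:ℝ)| ^ j := by
  have h := summable_pow_mul_geometric_of_norm_lt_one (R := ℝ) j (r := 1/2) (by norm_num)
  refine Summable.of_nat_of_neg ?_ ?_ <;> simpa [wt, mul_comm] using h

/-- constant sequences -/
def cst : D0 →L[ℝ] AA := mkOp (fun _ => ContinuousLinearMap.id ℝ D0) 1 (fun _ _ => by simp)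

@[simp] lemma cst_apply (y : D0) (k : ℤ) : cst y k = y := rfl

/-- weighted shift -/
def Sh (m : ℤ) : AA →L[ℝ] AA := mkOp (fun k => (wt (k - m) / wt k) • ev (k - m)) (2 ^ m.natAbs)
  (fun k F => by
    rw [smul_apply, norm_smul, Real.norm_of_nonneg (div_pos (wt_pos _) (wt_pos _)).le]
    exact mul_le_mul (wt_le k m) (F.norm_coe_le_norm _) (norm_nonneg _) (by positivity))

lemma Sh_apply (m : ℤ) (F : AA) (k : ℤ) : Sh m F k = (wt (k - m) / wt k) • F (k - m) := rfl

/-- a single mode -/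
def sing (k : ℤ) : D0 →L[ℝ] AA :=
  mkOp (fun j => if j = k then (wt k)⁻¹ • ContinuousLinearMap.id ℝ D0 else 0) (wt k)⁻¹
    (fun j y => by
      have := wt_pos k
      split_ifs
      · simp [norm_smul, abs_of_pos this]
      · simp; positivity)

lemma sing_apply (k : ℤ) (y : D0) (j : ℤ) : sing k y j = if j = k then (wt k)⁻¹ • y else 0 := by
  rw [sing, mkOp_apply]; split_ifs <;> rfl

section ev

variable (e : ℤ → C2) (he : ∀ k, ‖e k‖ ≤ 1) (j : ℕ)

include he in
lemma term_le (F : AA) (k : ℤ) :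
    ‖(wt k * (k:ℝ) ^ j) • (ι (F k) * e k)‖ ≤ wt k * |(k:ℝ)| ^ j * ‖F‖ := by
  rw [norm_smul, norm_mul, norm_pow, Real.norm_of_nonneg (wt_pos k).le, Real.norm_eq_abs]
  refine mul_le_mul_of_nonneg_left ?_ (mul_nonneg (wt_pos k).le (by positivity))
  exact (norm_mul_le _ _).trans ((mul_le_of_le_one_right (norm_nonneg _) (he k)).trans
    ((norm_ι_le _).trans (F.norm_coe_le_norm k)))

include he in
lemma summable_term (F : AA) : Summable fun k : ℤ => (wt k * (k:ℝ) ^ j) • (ι (F k) * e k) :=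
  Summable.of_norm_bounded ((summable_wt j).mul_right ‖F‖) (term_le e he j F)

/-- summation of the series -/
def Ev : AA →L[ℝ] C2 :=
  LinearMap.mkContinuous
    { toFun := fun F => ∑' k : ℤ, (wt k * (k:ℝ) ^ j) • (ι (F k) * e k)
      map_add' := fun F G => by
        rw [← (summable_term e he j F).tsum_add (summable_term e he j G)]
        simp [add_mul]
      map_smul' := fun c F => by
        rw [RingHom.id_apply, ← (summable_term e he j F).tsum_const_smul]
        simp [smul_comm c] }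
    (∑' k : ℤ, wt k * |(k:ℝ)| ^ j) (fun F => by
      rw [← tsum_mul_right]
      exact tsum_of_norm_bounded ((summable_wt j).mul_right ‖F‖).hasSum (term_le e he j F))

lemma hasSum_Ev (F : AA) :
    HasSum (fun k : ℤ => (wt k * (k:ℝ) ^ j) • (ι (F k) * e k)) (Ev e he j F) :=
  (summable_term e he j F).hasSum

lemma Ev_cst (y : D0) (F : AA) : Ev e he j (cst y * F) = ι y * Ev e he j F :=
  (hasSum_Ev e he j _).unique (by
    simpa [mul_assoc] using (hasSum_Ev e he j F).mul_left (ι y))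

lemma Ev_succ {F G : AA} (h : ∀ k, G k = (k:ℝ) • F k) : Ev e he j G = Ev e he (j + 1) F :=
  (hasSum_Ev e he j _).unique (by
    simpa [h, smul_smul, pow_succ, mul_assoc] using hasSum_Ev e he (j + 1) F)

lemma Ev_sing (k : ℤ) (y : D0) : Ev e he j (sing k y) = (k:ℝ) ^ j • (ι y * e k) := by
  refine (hasSum_Ev e he j _).unique ?_
  have := hasSum_single (L := SummationFilter.unconditional ℤ)
    (f := fun l : ℤ => (wt l * (l:ℝ) ^ j) • (ι (sing k y l) * e l)) k
    (fun l hl => by simp [sing_apply, hl])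
  rwa [sing_apply, if_pos rfl, map_smul, smul_mul_assoc, smul_smul, mul_comm (wt k), mul_assoc,
    mul_inv_cancel₀ (wt_pos k).ne', mul_one] at this

lemma hasSum_Sh (m : ℤ) (F : AA) :
    HasSum (fun k : ℤ => wt k • (ι (F k) * e (k + m))) (Ev e he 0 (Sh m F)) := by
  have h := (Equiv.addRight m).hasSum_iff.2 (hasSum_Ev e he 0 (Sh m F))
  have e1 : ∀ k, wt (k + m) * (wt k / wt (k + m)) = wt k := fun k => by
    have := (wt_pos (k + m)).ne'; field_simp
  simpa [Function.comp_def, Sh_apply, smul_smul, e1] using h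

lemma Dt_Ev (he0 : ∀ k, Dt (e k) 0) {F G : AA} (h : ∀ k, D1 (F k) (G k)) :
    Dt (Ev e he j F) (Ev e he j G) := by
  let L : D0 →L[ℝ] D0 := (algebraMapCLM ℝ D0).comp (D.ev lo)
  have h1 : Ev e he j F = lift2 L (Ev e he j F) + lift2 V (Ev e he j G) := by
    refine (hasSum_Ev e he j F).unique ?_
    have := ((lift2 L).hasSum (hasSum_Ev e he j F)).add ((lift2 V).hasSum (hasSum_Ev e he j G))
    refine hasSum_congr' this (fun k => ?_)
    have h2 := (((Dt_ι (h k)).mul (he0 k)).smul (wt k * (k:ℝ) ^ j))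
    rw [mul_zero, add_zero] at h2
    exact C2.ext (fun x => (h2 x).eq_V)
  intro x
  rw [D1_iff]
  exact congrArg (fun F : C2 => F x) h1

lemma Dx_Ev (e' : ℤ → C2) (he' : ∀ k, ‖e' k‖ ≤ 1) (hx : ∀ k, Dx (e k) ((k:ℝ) • e' k)) (F : AA) :
    Dx (Ev e he j F) (Ev e' he' (j + 1) F) := by
  intro x
  have ev1 : ∀ (e : ℤ → C2) (he : ∀ k, ‖e k‖ ≤ 1) (j : ℕ) (x : T), Ev e he j F x =
      ∑' k : ℤ, ((wt k * (k:ℝ) ^ j) • (ι (F k) * e k)) x := fun e he j x =>
    ((C2.ev x).hasSum (hasSum_Ev e he j F)).tsum_eq.symm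
  simp only [ev1]
  refine hasDerivAt_tsum ((summable_wt (j + 1)).mul_right ‖F‖) (fun k y => ?_)
    (fun k y => (C2.norm_coe_le_norm _ _).trans (term_le e' he' (j + 1) F k))
    ((C2.ev ((0:ℝ) : T)).hasSum (hasSum_Ev e he j F)).summable x
  exact ((((Dx_ι (F k)).mul (hx k)).smul (wt k * (k:ℝ) ^ j)).congr' (by
    simp [smul_smul, pow_succ, mul_assoc])) y

end ev

/-- cosine series with weight `k ^ j` -/
def Ec (j : ℕ) : AA →L[ℝ] C2 := Ev cx norm_cx_le j
/-- sine series with weight `k ^ j` -/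
def Es (j : ℕ) : AA →L[ℝ] C2 := Ev sx norm_sx_le j

lemma Dx_Es (j : ℕ) (F : AA) : Dx (Es j F) (Ec (j + 1) F) := Dx_Ev _ _ _ _ _ Dx_sx F

lemma Dx_Ec (j : ℕ) (F : AA) : Dx (Ec j F) (-Es (j + 1) F) := by
  have h := Dx_Ev cx norm_cx_le j (fun k => -sx k) (fun k => by simpa using norm_sx_le k)
    (fun k => by simpa using Dx_cx k) F
  refine h.congr' ((hasSum_Ev sx norm_sx_le (j + 1) F).neg.unique ?_)
  simpa using hasSum_Ev (fun k => -sx k) (fun k => by simpa using norm_sx_le k) (j + 1) F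

lemma Dt_Ec (j : ℕ) {F G : AA} (h : ∀ k, D1 (F k) (G k)) : Dt (Ec j F) (Ec j G) :=
  Dt_Ev _ _ _ Dt_cx h
lemma Dt_Es (j : ℕ) {F G : AA} (h : ∀ k, D1 (F k) (G k)) : Dt (Es j F) (Es j G) :=
  Dt_Ev _ _ _ Dt_sx h

lemma Ec_zero_at (F : AA) (t : Icc (0:ℝ) π) (h : ∀ k, F k t = 0) (x : T) : Ec 0 F x t = 0 := by
  have := ((D.ev t).comp (C2.ev x)).hasSum (hasSum_Ev cx norm_cx_le 0 F)
  refine this.unique ?_
  simp [h]

lemma cm_Ec (k : ℤ) (F : AA) : cm k (Ec 0 F) = (1/2 : ℝ) • wt k • (F k + F (-k)) := by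
  have h := (cm k).hasSum (hasSum_Ev cx norm_cx_le 0 F)
  refine h.unique ?_
  have h1 := hasSum_single (L := SummationFilter.unconditional ℤ)
    (f := fun l : ℤ => if k + l = 0 then (1/2 : ℝ) • wt l • F l else 0) (-k)
    (fun l hl => if_neg (by omega))
  have h2 := hasSum_single (L := SummationFilter.unconditional ℤ)
    (f := fun l : ℤ => if k - l = 0 then (1/2 : ℝ) • wt l • F l else 0) k
    (fun l hl => if_neg (by omega))
  have h3 := h1.add h2
  simp only [add_neg_cancel, sub_self, if_true, wt_neg] at h3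
  rw [smul_add, smul_add, add_comm]
  refine hasSum_congr' h3 (fun l => ?_)
  simp only [pow_zero, mul_one, map_smul, cm_ι_mul, cm_cx]
  split_ifs <;> simp [smul_comm (wt l), mul_add]

/-- multiplication by a cosine -/
def Cm (m : ℤ) : AA →L[ℝ] AA := (1/2 : ℝ) • (Sh m + Sh (-m))
/-- multiplication by a sine -/
def Smu (m : ℤ) : AA →L[ℝ] AA := (1/2 : ℝ) • (Sh m - Sh (-m))

lemma Ec_cst (y : D0) (F : AA) : Ec 0 (cst y * F) = ι y * Ec 0 F := Ev_cst _ _ _ _ _

lemma Ec_Cm (m : ℤ) (F : AA) : Ec 0 (Cm m F) = cx m * Ec 0 F := by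
  have h := ((hasSum_Sh cx norm_cx_le m F).add (hasSum_Sh cx norm_cx_le (-m) F)).const_smul
    (1/2 : ℝ)
  rw [Cm, smul_apply, add_apply, map_smul, map_add]
  refine h.unique (hasSum_congr' ((hasSum_Ev cx norm_cx_le 0 F).mul_left (cx m)) (fun k => ?_))
  rw [pow_zero, mul_one, mul_smul_comm, mul_left_comm, mul_comm (cx m), cx_mul_cx, sub_eq_add_neg]
  simp only [mul_smul_comm, mul_add, smul_add, smul_comm (wt k)]

lemma Ec_Smu (m : ℤ) (F : AA) : Ec 0 (Smu m F) = -(sx m * Es 0 F) := by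
  have h := ((hasSum_Sh cx norm_cx_le m F).sub (hasSum_Sh cx norm_cx_le (-m) F)).const_smul
    (1/2 : ℝ)
  rw [Smu, smul_apply, sub_apply, map_smul, map_sub]
  refine h.unique (hasSum_congr' ((hasSum_Ev sx norm_sx_le 0 F).mul_left (sx m)).neg
    (fun k => ?_))
  rw [pow_zero, mul_one, mul_smul_comm, mul_left_comm, mul_comm (sx m), sx_mul_sx,
    ← sub_eq_add_neg]
  simp only [mul_smul_comm, mul_sub, smul_sub, smul_comm (wt k), neg_sub]

end

end Pool.Agent.P.MP_0d657e_an
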