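import Pool.Agent.P.MP_0d657e_an.C1

/-! The solution operator of the unperturbed problem on Fourier sequences. -/

open Set Real

namespace Pool.Agent.P.MP_0d657e_an

noncomputable section

open AA (mkOp mkOp_apply ev)

/-- a sequence with its first angular and height derivatives -/
abbrev J5 := AA × AA × AA × AA × AA

/-- compatibility of the components -/
def IsJet (Y : J5) : Prop := ∀ k : ℤ, D1 (Y.1 k) (Y.2.2.2.1 k) ∧ D1 (Y.2.2.2.1 k) (Y.2.2.2.2 k) ∧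
  Y.2.1 k = (k:ℝ) • Y.1 k ∧ Y.2.2.1 k = (k:ℝ) • Y.2.1 k ∧ Y.1 k lo = 0 ∧ Y.1 k hi = 0

lemma IsJet.add {Y Z : J5} (h : IsJet Y) (h' : IsJet Z) : IsJet (Y + Z) := fun k => by
  obtain ⟨a1, a2, a3, a4, a5, a6⟩ := h k
  obtain ⟨b1, b2, b3, b4, b5, b6⟩ := h' k
  exact ⟨a1.add b1, a2.add b2, by simp [a3, b3], by simp [a4, b4], by simp [a5, b5],
    by simp [a6, b6]⟩

lemma IsJet.smul {Y : J5} (c : ℝ) (h : IsJet Y) : IsJet (c • Y) := fun k => by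
  obtain ⟨a1, a2, a3, a4, a5, a6⟩ := h k
  exact ⟨a1.smul c, a2.smul c, by simp [a3, smul_comm c], by simp [a4, smul_comm c], by simp [a5],
    by simp [a6]⟩

/-- a single mode -/
def sj (k : ℤ) (y y1 y2 : D0) : J5 :=
  (sing k y, (k:ℝ) • sing k y, (k:ℝ) • (k:ℝ) • sing k y, sing k y1, sing k y2)

lemma isJet_sj (k : ℤ) {y y1 y2 : D0} (h1 : D1 y y1) (h2 : D1 y1 y2) (h0 : y lo = 0)
    (hπ : y hi = 0) : IsJet (sj k y y1 y2) := fun j => by
  simp only [sj, AA.smul_apply, sing_apply]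
  split_ifs with h
  · exact ⟨h1.smul _, h2.smul _, by rw [h], by rw [h], by simp [h0], by simp [hπ]⟩
  · exact ⟨D1_zero, D1_zero, by simp, by simp, rfl, rfl⟩

namespace IsJet
variable {Y : J5} (h : IsJet Y)
include h
lemma es : Es 0 Y.2.1 = Es 1 Y.1 := Ev_succ _ _ _ (fun k => (h k).2.2.1)
lemma ec : Ec 0 Y.2.2.1 = Ec 2 Y.1 :=
  (Ev_succ _ _ _ (fun k => (h k).2.2.2.1)).trans (Ev_succ _ _ _ (fun k => (h k).2.2.1))
lemma dtc (j : ℕ) : Dt (Ec j Y.1) (Ec j Y.2.2.2.1) := Dt_Ec j (fun k => (h k).1)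
lemma dts (j : ℕ) : Dt (Es j Y.1) (Es j Y.2.2.2.1) := Dt_Es j (fun k => (h k).1)
lemma dttc (j : ℕ) : Dt (Ec j Y.2.2.2.1) (Ec j Y.2.2.2.2) := Dt_Ec j (fun k => (h k).2.1)
/-- the corresponding element of `H` -/
def toH : H := H.mk (Ec 0 Y.1) (-Es 1 Y.1) (Ec 0 Y.2.2.2.1) (Dx_Ec 0 _) (h.dtc 0)
  (Ec_zero_at _ _ (fun k => (h k).2.2.2.2.1)) (Ec_zero_at _ _ (fun k => (h k).2.2.2.2.2))
@[simp] lemma f_toH : H.f h.toH = Ec 0 Y.1 := rfl
@[simp] lemma fx_toH : H.fx h.toH = -Es 1 Y.1 := rfl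
@[simp] lemma ft_toH : H.ft h.toH = Ec 0 Y.2.2.2.1 := rfl
end IsJet

lemma Ec_odd {F : AA} (h : ∀ k, F k + F (-k) = 0) : Ec 0 F = 0 := by
  have h1 := hasSum_Ev cx norm_cx_le 0 F
  have h2 := h1.add ((Equiv.neg ℤ).hasSum_iff.2 h1)
  have h3 : Ec 0 F + Ec 0 F = 0 := h2.unique (hasSum_congr' hasSum_zero (fun k => by
    simp [← smul_add, ← add_mul, ← map_add, h]))
  rw [← two_smul ℝ] at h3
  simpa using h3

lemma pm_neg (n : ℕ) (k : ℤ) : pm n (-k) = pm n k := by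
  unfold pm
  have e1 : (-k = n ∨ -k = -n) = (k = n ∨ k = -n) := propext (by omega)
  have e2 : (-k = 2 * n ∨ -k = -(2 * n)) = (k = 2 * n ∨ k = -(2 * n)) := propext (by omega)
  simp only [e1, e2]

lemma norm_pm_le (n : ℕ) (k : ℤ) : ‖pm n k‖ ≤ 1 := by
  unfold pm
  split_ifs
  exacts [norm_sn_le _, norm_sn_le _, by simp]

/-- projection on a mode -/
def prj (p : D0) : D0 →L[ℝ] D0 := ((2 / π) • J.comp (mulD p)).smulRight p

lemma prj_apply (p f : D0) : prj p f = (2 / π * J (f * p)) • p := by rw [mul_comm f]; rfl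

lemma norm_prj_le {p : D0} (hp : ‖p‖ ≤ 1) (f : D0) : ‖prj p f‖ ≤ 2 * ‖f‖ := by
  have h0 := pi_pos
  have h1 := (abs_J_le (f * p)).trans (mul_le_mul_of_nonneg_left (nrm_le_norm' _) (sqrt_nonneg _))
  rw [← mul_assoc, sub_zero, mul_self_sqrt h0.le] at h1
  have h2 : ‖f * p‖ ≤ ‖f‖ := (norm_mul_le _ _).trans (mul_le_of_le_one_right (norm_nonneg _) hp)
  rw [prj_apply, norm_smul, Real.norm_eq_abs, abs_mul, abs_of_pos (by positivity : 0 < 2 / π)]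
  refine (mul_le_of_le_one_right (by positivity) hp).trans ?_
  rw [div_mul_eq_mul_div, div_le_iff₀ h0]
  nlinarith

variable {n : ℕ} (hn : 0 < n)

lemma gr_le : ∃ C : ℝ, ∀ (k : ℤ) (c : ℝ) (F : AA), (|c| ≤ 1 + (k:ℝ) ^ 2 →
    ‖(c • (gr hn k).G0.comp (ev k)) F‖ ≤ C * ‖F‖) ∧ ‖(gr hn k).G1.comp (ev k) F‖ ≤ C * ‖F‖ := by
  obtain ⟨C, hC⟩ := gr_bound hn
  have hC0 : 0 ≤ C := (norm_nonneg _).trans (hC 0).2
  have h0 := fun (k : ℤ) (F : AA) => mul_le_mul_of_nonneg_left (F.norm_coe_le_norm k) hC0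
  refine ⟨C, fun k c F => ⟨fun hc => ?_, ((gr hn k).G1.le_of_opNorm_le (hC k).2 _).trans (h0 k F)⟩⟩
  have h1 := ((1 + (k:ℝ) ^ 2) • (gr hn k).G0).le_of_opNorm_le (hC k).1 (F k)
  rw [smul_apply, norm_smul, Real.norm_of_nonneg (by positivity)] at h1
  rw [smul_apply, norm_smul, Real.norm_eq_abs]
  exact (mul_le_mul_of_nonneg_right hc (norm_nonneg _)).trans (h1.trans (h0 k F))

/-- weighted solution operator -/
def Gc (c : ℤ → ℝ) (hc : ∀ k, |c k| ≤ 1 + (k:ℝ) ^ 2) : AA →L[ℝ] AA :=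
  mkOp (fun k => c k • (gr hn k).G0.comp (ev k)) _
    (fun k F => ((gr_le hn).choose_spec k (c k) F).1 (hc k))

/-- derivative of the solution -/
def Gd : AA →L[ℝ] AA :=
  mkOp (fun k => (gr hn k).G1.comp (ev k)) _ (fun k F => ((gr_le hn).choose_spec k 0 F).2)

/-- projection on the resonant modes -/
def Pr (n : ℕ) : AA →L[ℝ] AA :=
  mkOp (fun k => (prj (pm n k)).comp (ev k)) 2 (fun k F =>
    (norm_prj_le (norm_pm_le n k) _).trans 
      (mul_le_mul_of_nonneg_left (F.norm_coe_le_norm k) zero_le_two))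

/-- the solution -/
def G00 : AA →L[ℝ] AA := Gc hn (fun _ => 1) (fun k => by simp; positivity)
/-- its first angular derivative -/
def G01 : AA →L[ℝ] AA := Gc hn (fun k => k) (fun k => by
  rw [abs_le]; constructor <;> nlinarith [sq_nonneg ((k:ℝ) - 1), sq_nonneg ((k:ℝ) + 1)])
/-- its second angular derivative -/
def G02 : AA →L[ℝ] AA := Gc hn (fun k => k * k) (fun k => by
  rw [abs_mul_self]; nlinarith)

/-- the solution operator -/
def GG : AA →L[ℝ] J5 := (G00 hn).prod ((G01 hn).prod ((G02 hn).prod ((Gd hn).prod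
  (((n:ℝ) ^ 2)⁻¹ • G02 hn - (5:ℝ) • G00 hn + (ContinuousLinearMap.id ℝ AA - Pr n)))))

lemma GG_0 (F : AA) (k : ℤ) : (GG hn F).1 k = (gr hn k).G0 (F k) := one_smul ℝ _

lemma isJet_GG (F : AA) : IsJet (GG hn F) := fun k => by
  rw [GG_0]
  refine ⟨(gr hn k).d1 _, ((gr hn k).d2 (F k)).congr' ?_, rfl,
    (smul_smul (k:ℝ) (k:ℝ) ((gr hn k).G0 (F k))).symm, (gr hn k).at_lo _, (gr hn k).at_hi _⟩
  change ((n:ℝ) ^ 2)⁻¹ • ((k:ℝ) * k) • (gr hn k).G0 (F k) - (5:ℝ) • (1:ℝ) • (gr hn k).G0 (F k)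
    + (F k - prj (pm n k) (F k)) = _
  rw [prj_apply, smul_smul, smul_smul, ← sub_smul]
  congr 2
  rw [div_pow]; ring

lemma L0_GG (F : AA) (h : ∀ k, J (cm k (Ec 0 F) * pm n k) = 0) :
    Ec 0 (GG hn F).2.2.2.2 = ((n:ℝ) ^ 2)⁻¹ • Ec 2 (GG hn F).1 - (5:ℝ) • Ec 0 (GG hn F).1
      + Ec 0 F := by
  have h1 : Ec 0 (Pr n F) = 0 := Ec_odd (fun k => by
    change prj (pm n k) (F k) + prj (pm n (-k)) (F (-k)) = 0
    have := h k
    rw [cm_Ec, smul_mul_assoc, smul_mul_assoc, map_smul, map_smul, smul_eq_mul, smul_eq_mul,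
      ← mul_assoc, mul_eq_zero] at this
    rw [pm_neg, ← map_add, prj_apply, this.resolve_left (by have := wt_pos k; positivity)]
    simp)
  rw [← (isJet_GG hn F).ec]
  change Ec 0 (((n:ℝ) ^ 2)⁻¹ • G02 hn F - (5:ℝ) • G00 hn F + (F - Pr n F)) = _
  simp only [map_add, map_sub, map_smul, h1, sub_zero]
  rfl

lemma orth_GG (F : AA) (k : ℤ) : J (cm k (Ec 0 (GG hn F).1) * pm n k) = 0 := by
  have h1 := (gr hn k).orth (F k)
  have h2 := (gr hn (-k)).orth (F (-k))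
  simp only [pm_neg] at h2
  rw [cm_Ec, GG_0, GG_0]
  simp only [smul_mul_assoc, add_mul, map_smul, map_add, h1, h2]
  simp

end

end Pool.Agent.P.MP_0d657e_an
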