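import Pool.Agent.P.MP_0d657e_an.Basic3

/-! Division by `sin t` of a function vanishing at both ends. -/

open Set Real MeasureTheory

namespace Pool.Agent.P.MP_0d657e_an

noncomputable section

/-- rescaling towards the point `p` -/
def scal (p : ℝ) (z : D0) : C(ℝ, D0) :=
  (ContinuousMap.curry ⟨fun x : ℝ × Icc (0:ℝ) π => ext z (p + x.1 * (x.2 - p)), by fun_prop⟩ :
    C(ℝ, C(Icc (0:ℝ) π, ℝ)))

lemma scal_apply (p : ℝ) (z : D0) (s : ℝ) (t : Icc (0:ℝ) π) :
    scal p z s t = ext z (p + s * (t - p)) := rfl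

lemma scal_mem {p s : ℝ} (hp : p ∈ Icc (0:ℝ) π) (hs : s ∈ Icc (0:ℝ) 1) (t : Icc (0:ℝ) π) :
    p + s * (t - p) ∈ Icc (0:ℝ) π := by
  have := t.2.1; have := t.2.2
  constructor <;> nlinarith [hp.1, hp.2, hs.1, hs.2]

lemma D1_scal {p s : ℝ} (hp : p ∈ Icc (0:ℝ) π) (hs : s ∈ Icc (0:ℝ) 1) {z z' : D0} (h : D1 z z') :
    D1 (scal p z s) (s • scal p z' s) := by
  obtain ⟨Y, h1, h2⟩ := h
  refine ⟨fun t => Y (p + s * (t - p)), fun t => ?_, fun t => ?_⟩
  · rw [scal_apply, ext_of_mem _ (scal_mem hp hs t), ← h1]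
  · have a := (h2 ⟨_, scal_mem hp hs t⟩).comp (t:ℝ)
      ((((hasDerivAt_id (t:ℝ)).sub_const p).const_mul s).const_add p)
    rw [D.smul_apply, scal_apply, ext_of_mem _ (scal_mem hp hs t)]
    simpa [mul_comm, Function.comp_def] using a

lemma scal_cont (p : ℝ) (m : ℕ) (z : D0) : Continuous fun s : ℝ => s ^ m • scal p z s :=
  (continuous_pow m).smul (scal p z).continuous

/-- Hadamard operators -/
def Hp (p : ℝ) (m : ℕ) : D0 →L[ℝ] D0 :=
  LinearMap.mkContinuous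
    { toFun := fun z => ∫ s in (0:ℝ)..1, s ^ m • scal p z s
      map_add' := fun y z => by
        rw [← intervalIntegral.integral_add ((scal_cont p m y).intervalIntegrable _ _)
          ((scal_cont p m z).intervalIntegrable _ _)]
        congr 1; funext s; rw [← smul_add]; rfl
      map_smul' := fun c y => by
        rw [RingHom.id_apply, ← intervalIntegral.integral_smul]
        congr 1; funext s; rw [smul_comm]; rfl }
    1 (fun z => by
      have h := intervalIntegral.norm_integral_le_of_norm_le_const (a := 0) (b := 1)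
        (f := fun s : ℝ => s ^ m • scal p z s) (C := ‖z‖) (fun s hs => by
          rw [uIoc_of_le zero_le_one] at hs
          rw [norm_smul, Real.norm_of_nonneg (pow_nonneg hs.1.le m)]
          exact (mul_le_of_le_one_left (norm_nonneg _) (pow_le_one₀ hs.1.le hs.2)).trans
            (D.norm_le (norm_nonneg _) (fun t => ext_abs_le z _)))
      simpa using h)

lemma Hp_def (p : ℝ) (m : ℕ) (z : D0) : Hp p m z = ∫ s in (0:ℝ)..1, s ^ m • scal p z s := rfl

lemma map_Hp {E : Type*} [NormedAddCommGroup E] [NormedSpace ℝ E] [CompleteSpace E]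
    (L : D0 →L[ℝ] E) (p : ℝ) (m : ℕ) (z : D0) :
    L (Hp p m z) = ∫ s in (0:ℝ)..1, L (s ^ m • scal p z s) := by
  rw [Hp_def, L.intervalIntegral_comp_comm ((scal_cont p m z).intervalIntegrable _ _)]

lemma D1_Hp {p : ℝ} (hp : p ∈ Icc (0:ℝ) π) (m : ℕ) {z z' : D0} (h : D1 z z') :
    D1 (Hp p m z) (Hp p (m + 1) z') := by
  let L : D0 →L[ℝ] D0 := (algebraMapCLM ℝ D0).comp (D.ev lo)
  rw [D1_iff]
  change _ = L (Hp p m z) + _
  have c1 : Continuous fun s : ℝ => L (s ^ m • scal p z s) := L.continuous.comp (scal_cont p m z)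
  have c2 : Continuous fun s : ℝ => V (s ^ (m + 1) • scal p z' s) :=
    V.continuous.comp (scal_cont p (m + 1) z')
  rw [map_Hp L, map_Hp V, ← intervalIntegral.integral_add (c1.intervalIntegrable _ _)
    (c2.intervalIntegrable _ _), Hp_def]
  refine intervalIntegral.integral_congr (fun s hs => ?_)
  rw [uIcc_of_le zero_le_one] at hs
  have := ((D1_scal hp hs h).smul (s ^ m)).eq_V
  rw [smul_smul, ← pow_succ] at this
  exact this

lemma Hp_eq {p : ℝ} (hp : p ∈ Icc (0:ℝ) π) {y y' : D0} (h : D1 y y') (t : Icc (0:ℝ) π) :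
    (t - p) * Hp p 0 y' t = y t - y ⟨p, hp⟩ := by
  have e := map_Hp (D.ev t) p 0 y'
  simp only [pow_zero, one_smul, D.ev_apply, scal_apply] at e
  have := intervalIntegral.smul_integral_comp_add_mul (a := 0) (b := 1) (ext y') ((t:ℝ) - p) p
  simp only [mul_zero, add_zero, mul_one, add_sub_cancel, smul_eq_mul] at this
  rw [e, ← h.integral ⟨p, hp⟩ t, ← this]
  simp only [mul_comm]

lemma Sd_Hp {p : ℝ} (hp : p ∈ Icc (0:ℝ) π) : ∀ (j m : ℕ) {z : D0}, Sd j z → Sd j (Hp p m z)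
  | 0, _, _, _ => trivial
  | j + 1, m, _, ⟨_, h, k⟩ => ⟨_, D1_Hp hp m h, Sd_Hp hp j (m + 1) k⟩

/-- difference of the Hadamard operators at both ends -/
def Hd (m : ℕ) : D0 →L[ℝ] D0 := Hp 0 m - Hp π m

lemma mem0 : (0:ℝ) ∈ Icc (0:ℝ) π := left_mem_Icc.2 pi_pos.le
lemma memπ : π ∈ Icc (0:ℝ) π := right_mem_Icc.2 pi_pos.le

lemma D1_Hd (m : ℕ) {z z' : D0} (h : D1 z z') : D1 (Hd m z) (Hd (m + 1) z') :=
  (D1_Hp mem0 m h).sub (D1_Hp memπ m h)

lemma Sd_Hd (j m : ℕ) {z : D0} (h : Sd j z) : Sd j (Hd m z) :=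
  (Sd_Hp mem0 j m h).sub (Sd_Hp memπ j m h)

lemma s1_Hd {y y' : D0} (h : D1 y y') (h0 : y lo = 0) (h1 : y hi = 0) :
    s1 * Hd 0 y' = y * Hd 0 c1 := by
  ext t
  have a1 := Hp_eq mem0 h t
  have a2 := Hp_eq memπ h t
  have a3 := Hp_eq mem0 D1_s1 t
  have a4 := Hp_eq memπ D1_s1 t
  have e0 : y ⟨0, mem0⟩ = 0 := h0
  have e1 : y ⟨π, memπ⟩ = 0 := h1
  rw [e0] at a1
  rw [e1] at a2
  simp only [s1_apply, sin_zero, sin_pi, sub_zero] at a1 a2 a3 a4
  simp only [Hd, sub_apply, D.mul_apply, D.sub_apply, s1_apply]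
  linear_combination (-Hp 0 0 y' t) * a3 + Hp 0 0 c1 t * a1 + Hp π 0 y' t * a4 - Hp π 0 c1 t * a2

lemma Hd_c1_ne (t : Icc (0:ℝ) π) : Hd 0 c1 t ≠ 0 := by
  have a3 := Hp_eq mem0 D1_s1 t
  have a4 := Hp_eq memπ D1_s1 t
  simp only [s1_apply, sin_zero, sin_pi, sub_zero] at a3 a4
  have hp := pi_pos
  have k : ∀ p : Icc (0:ℝ) π, Hp p 0 c1 p = cos p := fun p => by
    have e := map_Hp (D.ev p) p 0 c1
    simpa [scal_apply] using e
  simp only [Hd, sub_apply, D.sub_apply]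
  rcases eq_or_lt_of_le t.2.1 with h0 | h0
  · have k0 := k t
    rw [← h0] at a4 k0
    simp only [zero_sub, sin_zero, neg_mul, neg_eq_zero, mul_eq_zero, hp.ne', false_or] at a4
    rw [a4, k0]; simp
  rcases eq_or_lt_of_le t.2.2 with h1 | h1
  · have k0 := k t
    rw [h1] at a3 k0
    simp only [sin_pi, mul_eq_zero, hp.ne', false_or] at a3
    rw [a3, k0]; simp
  have hs := sin_pos_of_pos_of_lt_pi h0 h1
  have b1 : 0 < Hp 0 0 c1 t := pos_of_mul_pos_left (by rw [mul_comm, a3]; exact hs) h0.le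
  have b2 : Hp π 0 c1 t < 0 := by nlinarith
  linarith

/-- the inverse of the Hadamard factor -/
def ri : D0 := (exists_inv Hd_c1_ne).choose

lemma ri_spec : Hd 0 c1 * ri = 1 := (exists_inv Hd_c1_ne).choose_spec

lemma Sd_ri (j : ℕ) : Sd j ri := (Sd_Hd j 0 (Sd_sn_cs 1 j).2).inv ri_spec

lemma exists_ri : ∃ r1 r2 : D0, D1 ri r1 ∧ D1 r1 r2 := by
  obtain ⟨r1, h1, r2, h2, -⟩ := Sd_ri 2
  exact ⟨r1, r2, h1, h2⟩

lemma s1_had {y y' : D0} (h : D1 y y') (h0 : y lo = 0) (h1 : y hi = 0) :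
    s1 * (ri * Hd 0 y') = y := by
  rw [mul_left_comm, s1_Hd h h0 h1, mul_left_comm, mul_comm ri, ri_spec, mul_one]

lemma s1_cancel {y : D0} (h : s1 * y = 0) : y = 0 := by
  have h1 : ∀ t ∈ Ioo (0:ℝ) π, ext y t = 0 := fun t ht => by
    have := congrArg (fun f : D0 => f ⟨t, Ioo_subset_Icc_self ht⟩) h
    simp only [D.mul_apply, s1_apply, D.zero_apply, mul_eq_zero] at this
    rw [ext_of_mem y (Ioo_subset_Icc_self ht)]
    exact this.resolve_left (sin_pos_of_pos_of_lt_pi ht.1 ht.2).ne'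
  ext t
  have h2 : EqOn (ext y) (fun _ => 0) (closure (Ioo 0 π)) :=
    EqOn.closure h1 (ext_cont y) continuous_const
  rw [closure_Ioo pi_ne_zero.symm] at h2
  simpa using h2 t.2

end

end Pool.Agent.P.MP_0d657e_an
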