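import Pool.Agent.P.MP_0d657e_an.C2j
import Pool.Agent.P.MP_0d657e_an.Hadamard
import Pool.Agent.P.MP_0d657e_an.D2

/-! The nonlinear system for the exact geometry and its solution. -/

open Set Real Asymptotics Filter Topology

namespace Pool.Agent.P.MP_0d657e_an

noncomputable section

lemma exists_fix {E : Type*} [NormedAddCommGroup E] [NormedSpace ℝ E] [CompleteSpace E]
    (Ψ : ℝ × E → E) (hΨ : ContDiff ℝ 1 Ψ) (U0 : E) (h0 : ∀ U, Ψ (0, U) = U0) :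
    ∃ U : ℝ → E, (fun η => U η - U0) =O[𝓝 0] (fun η : ℝ => η) ∧
      ∀ᶠ η in 𝓝 (0:ℝ), Ψ (η, U η) = U η := by
  have h1 := hΨ.contDiffAt.hasStrictFDerivAt (x := (0, U0)) one_ne_zero
  have h2 : (fderiv ℝ Ψ (0, U0)).comp (ContinuousLinearMap.inr ℝ ℝ E) = 0 := by
    have a := h1.hasFDerivAt.comp U0 (hasFDerivAt_prodMk_right (0:ℝ) U0)
    have e : (Ψ ∘ fun U => ((0:ℝ), U)) = fun _ => U0 := funext h0
    rw [e] at a
    exact a.unique (hasFDerivAt_const _ _)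
  have h3 := (hasStrictFDerivAt_snd (𝕜 := ℝ) (p := ((0:ℝ), U0))).sub h1
  have h4 : ((ContinuousLinearMap.snd ℝ ℝ E - fderiv ℝ Ψ (0, U0)).comp
      (ContinuousLinearMap.inr ℝ ℝ E)).IsInvertible := by
    rw [ContinuousLinearMap.sub_comp, h2, sub_zero, ContinuousLinearMap.snd_comp_inr]
    exact ContinuousLinearMap.isInvertible_equiv (f := ContinuousLinearEquiv.refl ℝ E)
  refine ⟨h3.implicitFunctionOfProdDomain h4, ?_, ?_⟩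
  · have h5 := (h3.hasStrictFDerivAt_implicitFunctionOfProdDomain h4).hasFDerivAt.isBigO_sub
    rw [(h3.eventually_apply_eq_iff_implicitFunctionOfProdDomain h4).self_of_nhds.mp rfl] at h5
    simpa using h5
  · filter_upwards [h3.eventually_apply_implicitFunctionOfProdDomain h4] with η h
    simp only [Pi.sub_apply, h0, sub_self] at h
    exact (sub_eq_zero.1 h).symm

/-- the nonlinear terms, as an expression on the annulus -/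
def NC (d0 η ε : ℝ) (a ax a1 φ φx φxx φt φtt : C2) : C2 :=
  (ε * d0) • (φxx + η • (a * φxx - ax * φx)) + d0 • (a * φxx - ax * φx)
    + ((3:ℝ) • (a * φtt) + (3 * η) • (a * (a * φtt)) + η ^ 2 • (a * (a * (a * φtt))))
    + (1 + η • a) * ((1 + η • a) * (a1 * φt))
    + (5:ℝ) • ((2:ℝ) • (a * ((1 + η • a + b⁻¹ • η • a1) * φ))
      + η • (a * (a * ((1 + η • a + b⁻¹ • η • a1) * φ))) + (a * φ + b⁻¹ • (a1 * φ)))

lemma NC_eq (d0 η ε : ℝ) (a ax a1 φ φx φxx φt φtt : C2) :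
    ((1 + η * ε) * d0) • ((1 + η • a) * φxx - η • ax * φx) + (1 + η • a) ^ 3 * φtt
      + (1 + η • a) ^ 2 * (η • a1) * φt
      + (5:ℝ) • ((1 + η • a) ^ 2 * (1 + η • a + b⁻¹ • η • a1) * φ)
    = d0 • φxx + φtt + (5:ℝ) • φ + η • NC d0 η ε a ax a1 φ φx φxx φt φtt := by
  simp only [NC, Algebra.smul_def, map_mul, map_add, map_one, map_pow, map_ofNat]
  ring

namespace Des

variable (Ds : Des)

/-- cosine polynomial -/
def TP (y : ℤ → D0) (z : D0) : C2 := ∑ k ∈ Ds.K, ι (y k) * cx k + ι z * cx (2 * Ds.n)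
/-- its angular derivative -/
def TPx (y : ℤ → D0) (z : D0) : C2 :=
  -(∑ k ∈ Ds.K, (k:ℝ) • (ι (y k) * sx k) + ((2 * Ds.n : ℤ) : ℝ) • (ι z * sx (2 * Ds.n)))
/-- multiplication by the polynomial -/
def Mc (y : ℤ → D0) (z : D0) (F : AA) : AA :=
  ∑ k ∈ Ds.K, cst (y k) * Cm k F + cst z * Cm (2 * Ds.n) F
/-- multiplication by its derivative -/
def Ms (y : ℤ → D0) (z : D0) (F : AA) : AA :=
  ∑ k ∈ Ds.K, (k:ℝ) • (cst (y k) * Smu k F) + ((2 * Ds.n : ℤ) : ℝ) • (cst z * Smu (2 * Ds.n) F)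

lemma Dx_TP (y : ℤ → D0) (z : D0) : Dx (Ds.TP y z) (Ds.TPx y z) :=
  ((Dx.sum _ (fun k _ => (Dx_ι (y k)).mul (Dx_cx k))).add ((Dx_ι z).mul (Dx_cx _))).congr' (by
    simp [TPx, add_comm])

lemma Dt_TP {y y' : ℤ → D0} {z z' : D0} (hy : ∀ k, D1 (y k) (y' k)) (hz : D1 z z') :
    Dt (Ds.TP y z) (Ds.TP y' z') :=
  ((Dt.sum _ (fun k _ => (Dt_ι (hy k)).mul (Dt_cx k))).add ((Dt_ι hz).mul (Dt_cx _))).congr' (by
    simp [TP])

lemma Dt_TPx {y y' : ℤ → D0} {z z' : D0} (hy : ∀ k, D1 (y k) (y' k)) (hz : D1 z z') :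
    Dt (Ds.TPx y z) (Ds.TPx y' z') :=
  ((Dt.sum _ (fun k _ => ((Dt_ι (hy k)).mul (Dt_sx k)).smul (k:ℝ))).add
    (((Dt_ι hz).mul (Dt_sx _)).smul _)).neg.congr' (by simp [TPx])

lemma Ec_Mc (y : ℤ → D0) (z : D0) (F : AA) : Ec 0 (Ds.Mc y z F) = Ds.TP y z * Ec 0 F := by
  simp only [Mc, TP, map_add, map_sum, Ec_cst, Ec_Cm, add_mul, Finset.sum_mul, mul_assoc]

lemma Ec_Ms (y : ℤ → D0) (z : D0) (F : AA) : Ec 0 (Ds.Ms y z F) = Ds.TPx y z * Es 0 F := by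
  simp only [Ms, TPx, map_add, map_sum, map_smul, Ec_cst, Ec_Smu, add_mul, Finset.sum_mul,
    mul_assoc, neg_mul, smul_mul_assoc, mul_neg, smul_neg, Finset.sum_neg_distrib, neg_add]

/-- corrected coefficients -/
def ah (y : ℤ → D0) (z : D0) (τ : ℝ) (k : ℤ) : D0 :=
  (1/2 : ℝ) • y k + τ • if k = 3 * Ds.n ∨ k = -(3 * Ds.n) then (1/2 : ℝ) • z else 0

/-- parameters and unknowns -/
abbrev PP := ℝ × AA × D0 × ℝ × ℝ

/-- the kernel element at order zero -/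
def e0 : J5 := sj (2 * Ds.n) s1 c1 (-s1)
/-- the resonant coefficient -/
def cr : ℝ := 2 / π * J (Ds.φ Ds.n * s2)
/-- the correction of the kernel element -/
def Yt (f : AA) : J5 := Ds.cr • sj Ds.n s2 ((2:ℝ) • c2) (-((4:ℝ) • s2)) + GG Ds.n_pos f
/-- the kernel element -/
def Φ (p : PP) : J5 := Ds.e0 + p.1 • Ds.Yt p.2.1
/-- multiplication by the variation of `A` -/
def Ma (p : PP) (F : AA) : AA := Ds.Mc (Ds.ah Ds.α c1 p.2.2.2.1) (p.1 • V p.2.2.1) F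
/-- by its height derivative -/
def Mt (p : PP) (F : AA) : AA := Ds.Mc (Ds.ah Ds.α1 (-s1) p.2.2.2.1) (p.1 • p.2.2.1) F
/-- by its angular derivative -/
def Mx (p : PP) (F : AA) : AA := Ds.Ms (Ds.ah Ds.α c1 p.2.2.2.1) (p.1 • V p.2.2.1) F
/-- by `A` -/
def MA (p : PP) (F : AA) : AA := F + p.1 • Ds.Ma p F
/-- by `c` -/
def MC (p : PP) (F : AA) : AA := F + p.1 • Ds.Ma p F + b⁻¹ • p.1 • Ds.Mt p F
/-- the inverse square of the frequency -/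
def d0 : ℝ := ((Ds.n:ℝ) ^ 2)⁻¹
/-- the nonlinear terms -/
def NN (p : PP) : AA :=
  (p.2.2.2.2 * Ds.d0) • (-(Ds.Φ p).2.2.1 + p.1 • (-Ds.Ma p (Ds.Φ p).2.2.1 + Ds.Mx p (Ds.Φ p).2.1))
    + Ds.d0 • (-Ds.Ma p (Ds.Φ p).2.2.1 + Ds.Mx p (Ds.Φ p).2.1)
    + ((3:ℝ) • Ds.Ma p (Ds.Φ p).2.2.2.2 + (3 * p.1) • Ds.Ma p (Ds.Ma p (Ds.Φ p).2.2.2.2)
      + p.1 ^ 2 • Ds.Ma p (Ds.Ma p (Ds.Ma p (Ds.Φ p).2.2.2.2)))
    + Ds.MA p (Ds.MA p (Ds.Mt p (Ds.Φ p).2.2.2.1))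
    + (5:ℝ) • ((2:ℝ) • Ds.Ma p (Ds.MC p (Ds.Φ p).1) + p.1 • Ds.Ma p (Ds.Ma p (Ds.MC p (Ds.Φ p).1))
      + (Ds.Ma p (Ds.Φ p).1 + b⁻¹ • Ds.Mt p (Ds.Φ p).1))

lemma isJet_e0 : IsJet Ds.e0 := isJet_sj _ D1_s1 D1_c1 (by simp) (by simp)
lemma isJet_Yt (f : AA) : IsJet (Ds.Yt f) :=
  ((isJet_sj _ D1_s2 ((D1_c2.smul 2).congr' (by rw [smul_neg, smul_smul]; norm_num)) (by simp)
    (by simp)).smul _).add (isJet_GG _ f)
lemma isJet_Φ (p : PP) : IsJet (Ds.Φ p) := Ds.isJet_e0.add ((Ds.isJet_Yt _).smul _)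

/-- the variation of `A` -/
def aa (p : PP) : C2 := Ds.TP (Ds.ah Ds.α c1 p.2.2.2.1) (p.1 • V p.2.2.1)
/-- its angular derivative -/
def aax (p : PP) : C2 := Ds.TPx (Ds.ah Ds.α c1 p.2.2.2.1) (p.1 • V p.2.2.1)
/-- its height derivative -/
def aa1 (p : PP) : C2 := Ds.TP (Ds.ah Ds.α1 (-s1) p.2.2.2.1) (p.1 • p.2.2.1)

lemma Ec_NN (p : PP) : Ec 0 (Ds.NN p) = NC Ds.d0 p.1 p.2.2.2.2 (Ds.aa p) (Ds.aax p) (Ds.aa1 p)
    (Ec 0 (Ds.Φ p).1) (-Es 1 (Ds.Φ p).1) (-Ec 2 (Ds.Φ p).1) (Ec 0 (Ds.Φ p).2.2.2.1)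
    (Ec 0 (Ds.Φ p).2.2.2.2) := by
  simp only [NN, NC, MA, MC, Ma, Mt, Mx, map_add, map_neg, map_smul, Ec_Mc, Ec_Ms, aa, aax, aa1,
    (Ds.isJet_Φ p).es, (Ds.isJet_Φ p).ec, mul_neg, sub_neg_eq_add, add_mul, one_mul,
    smul_mul_assoc]

section cd
variable {X : Type*} [NormedAddCommGroup X] [NormedSpace ℝ X]

lemma cd_Mc {y : X → ℤ → D0} {z : X → D0} {F : X → AA} (hy : ∀ k, ContDiff ℝ 1 fun x => y x k)
    (hz : ContDiff ℝ 1 z) (hF : ContDiff ℝ 1 F) : ContDiff ℝ 1 fun x => Ds.Mc (y x) (z x) (F x) :=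
  (ContDiff.sum fun k _ => (cst.contDiff.comp (hy k)).mul ((Cm k).contDiff.comp hF)).add
    ((cst.contDiff.comp hz).mul ((Cm _).contDiff.comp hF))

lemma cd_Ms {y : X → ℤ → D0} {z : X → D0} {F : X → AA} (hy : ∀ k, ContDiff ℝ 1 fun x => y x k)
    (hz : ContDiff ℝ 1 z) (hF : ContDiff ℝ 1 F) : ContDiff ℝ 1 fun x => Ds.Ms (y x) (z x) (F x) :=
  (ContDiff.sum fun k _ =>
    ((cst.contDiff.comp (hy k)).mul ((Smu k).contDiff.comp hF)).const_smul (k:ℝ)).add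
    (((cst.contDiff.comp hz).mul ((Smu _).contDiff.comp hF)).const_smul _)

lemma cd_ah (y : ℤ → D0) (z : D0) {τ : X → ℝ} (h : ContDiff ℝ 1 τ) (k : ℤ) :
    ContDiff ℝ 1 fun x => Ds.ah y z (τ x) k := contDiff_const.add (h.smul contDiff_const)

end cd

@[fun_prop] lemma cd_Ma {F : PP → AA} (hF : ContDiff ℝ 1 F) :
    ContDiff ℝ 1 fun p => Ds.Ma p (F p) :=
  Ds.cd_Mc (Ds.cd_ah _ _ (by fun_prop)) (contDiff_fst.smul (V.contDiff.comp (by fun_prop))) hF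
@[fun_prop] lemma cd_Mt {F : PP → AA} (hF : ContDiff ℝ 1 F) :
    ContDiff ℝ 1 fun p => Ds.Mt p (F p) :=
  Ds.cd_Mc (Ds.cd_ah _ _ (by fun_prop)) (by fun_prop) hF
@[fun_prop] lemma cd_Mx {F : PP → AA} (hF : ContDiff ℝ 1 F) :
    ContDiff ℝ 1 fun p => Ds.Mx p (F p) :=
  Ds.cd_Ms (Ds.cd_ah _ _ (by fun_prop)) (contDiff_fst.smul (V.contDiff.comp (by fun_prop))) hF

lemma cd_Φ : ContDiff ℝ 1 Ds.Φ :=
  contDiff_const.add (contDiff_fst.smul (contDiff_const.add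
    ((GG Ds.n_pos).contDiff.comp (by fun_prop))))

lemma cd_NN : ContDiff ℝ 1 Ds.NN := by
  have h := Ds.cd_Φ
  have h0 := h.fst
  have h1 := h.snd.fst
  have h2 := h.snd.snd.fst
  have h3 := h.snd.snd.snd.fst
  have h4 := h.snd.snd.snd.snd
  have e : ContDiff ℝ 1 fun p : PP => p.1 := contDiff_fst
  have hA : ∀ {F : PP → AA}, ContDiff ℝ 1 F → ContDiff ℝ 1 fun p => Ds.MA p (F p) := fun hF =>
    hF.add (e.smul (Ds.cd_Ma hF))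
  have hC : ContDiff ℝ 1 fun p => Ds.MC p (Ds.Φ p).1 :=
    (h0.add (e.smul (Ds.cd_Ma h0))).add ((e.smul (Ds.cd_Mt h0)).const_smul _)
  have hW := (Ds.cd_Ma h2).neg.add (Ds.cd_Mx h1)
  exact (((((by fun_prop : ContDiff ℝ 1 fun p : PP => p.2.2.2.2 * Ds.d0).smul
    (h2.neg.add (e.smul hW))).add (hW.const_smul _)).add
    ((((Ds.cd_Ma h4).const_smul _).add ((contDiff_const.mul e).smul (Ds.cd_Ma (Ds.cd_Ma h4)))).add
      ((e.pow 2).smul (Ds.cd_Ma (Ds.cd_Ma (Ds.cd_Ma h4)))))).add (hA (hA (Ds.cd_Mt h3)))).add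
    (((((Ds.cd_Ma hC).const_smul _).add (e.smul (Ds.cd_Ma (Ds.cd_Ma hC)))).add
      ((Ds.cd_Ma h0).add ((Ds.cd_Mt h0).const_smul _))).const_smul _)

end Des

end

end Pool.Agent.P.MP_0d657e_an
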