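import Pool.Agent.P.MP_0d657e_an.C3

/-! Solution of the nonlinear system for small values of the parameter. -/

open Set Real Asymptotics Filter Topology

namespace Pool.Agent.P.MP_0d657e_an

noncomputable section

lemma Ec_sing (j : ℕ) (k : ℤ) (y : D0) : Ec j (sing k y) = (k:ℝ) ^ j • (ι y * cx k) :=
  Ev_sing _ _ _ _ _
lemma Es_sing (j : ℕ) (k : ℤ) (y : D0) : Es j (sing k y) = (k:ℝ) ^ j • (ι y * sx k) :=
  Ev_sing _ _ _ _ _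

/-- division by `sin t`, acting on the derivative -/
def HdL : D0 →L[ℝ] D0 := (mulD ri).comp (Hd 0)

namespace Des

variable (Ds : Des)

lemma cm_NC0 (ε : ℝ) {a ax : C2} (h : Dx a ax) (a1 : C2) (k : ℤ) :
    cm k (NC Ds.d0 0 ε a ax a1 (Ec 0 Ds.e0.1) (-Es 1 Ds.e0.1) (-Ec 2 Ds.e0.1) (Ec 0 Ds.e0.2.2.2.1)
      (Ec 0 Ds.e0.2.2.2.2)) = (-4 * ε) • (s1 * cm k (cx (2 * Ds.n)))
      + (Rr (Ds.κ k) (cm (2 * Ds.n - k) a) (cm (2 * Ds.n - k) a1)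
        + Rr (-Ds.κ k) (cm (2 * Ds.n + k) a) (cm (2 * Ds.n + k) a1)) := by
  have e1 : ∀ F : C2, cm (k - 2 * Ds.n) F = cm (2 * Ds.n - k) F := fun F => by
    rw [← cm_neg, neg_sub]
  simp only [NC, e0, sj, Ec_sing, Es_sing, zero_smul, add_zero, mul_zero, pow_zero, one_smul,
    one_mul, ne_eq, OfNat.ofNat_ne_zero, not_false_eq_true, zero_pow, mul_neg, mul_smul_comm,
    map_add (cm k), map_sub (cm k), map_neg (cm k), map_smul, cm_cc', cm_cs', cm_ι_mul, h.sm_eq,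
    e1, add_comm k, smul_zero]
  ext t
  have := Ds.n_ne
  have hb := b_sq
  have hb0 := b_pos.ne'
  have hb1 : b⁻¹ = b / 5 := by field_simp; linarith
  simp [Rr, κ, d0, hb1]
  field_simp
  ring

lemma ah_neg {y : ℤ → D0} (hy : ∀ k, y (-k) = y k) (z : D0) (τ : ℝ) (k : ℤ) :
    Ds.ah y z τ (-k) = Ds.ah y z τ k := by
  have e : (-k = 3 * Ds.n ∨ -k = -(3 * Ds.n)) = (k = 3 * Ds.n ∨ k = -(3 * Ds.n)) :=
    propext (by omega)
  simp only [ah, hy, e]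

lemma ah_of_ne (y : ℤ → D0) (z : D0) (τ : ℝ) {k : ℤ} (h1 : k ≠ 3 * Ds.n) (h2 : k ≠ -(3 * Ds.n)) :
    Ds.ah y z τ k = (1/2 : ℝ) • y k := by simp [ah, h1, h2]

lemma cm_TP {y : ℤ → D0} (hy : ∀ k, y (-k) = y k) (h0 : ∀ k, k ∉ Ds.K → y k = 0) (z : D0) (τ : ℝ)
    (w : D0) (m : ℤ) : cm m (Ds.TP (Ds.ah y z τ) w) = Ds.ah y z τ m + w * cm m (cx (2 * Ds.n)) := by
  rw [TP, map_add, cm_sum Ds.K_neg (Ds.ah_neg hy z τ), cm_ι_mul]
  split_ifs with h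
  · rfl
  · rw [Ds.ah_of_ne _ _ _ (fun e => h (by rw [e]; exact Ds.m3))
      (fun e => h (by rw [e]; exact Ds.K_neg _ Ds.m3)), h0 m h,
      smul_zero]

lemma cm_NN0 (f : AA) (q : D0) (τ ε : ℝ) (k : ℤ) :
    cm k (Ec 0 (Ds.NN (0, f, q, τ, ε))) = (-4 * ε) • (s1 * cm k (cx (2 * Ds.n)))
      + (Rr (Ds.κ k) (Ds.ah Ds.α c1 τ (2 * Ds.n - k)) (Ds.ah Ds.α1 (-s1) τ (2 * Ds.n - k))
        + Rr (-Ds.κ k) (Ds.ah Ds.α c1 τ (2 * Ds.n + k)) (Ds.ah Ds.α1 (-s1) τ (2 * Ds.n + k))) := by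
  have e : Ds.Φ (0, f, q, τ, ε) = Ds.e0 := by simp [Φ]
  rw [Ec_NN, e]
  refine (Ds.cm_NC0 ε (Ds.Dx_TP _ _) _ k).trans ?_
  simp only [aa, aa1, zero_smul, Ds.cm_TP Ds.α_neg Ds.α_off,
    Ds.cm_TP Ds.α1_neg (fun _ => Ds.α1_off), zero_mul, add_zero]

lemma Rr_half (κ : ℝ) (x y : D0) : Rr κ ((1/2 : ℝ) • x) ((1/2 : ℝ) • y) = (1/2 : ℝ) • Rr κ x y := by
  ext t; simp [Rr]; ring

lemma M_zero : J ((Rr 1 (Ds.α Ds.n) (Ds.α1 Ds.n)
    + Rr (-1) (Ds.α (3 * Ds.n)) (Ds.α1 (3 * Ds.n))) * s2) = 0 := by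
  have h := Ds.ode Ds.n
  rw [Int.cast_natCast, div_self Ds.n_ne, show (2 * Ds.n - Ds.n : ℤ) = Ds.n by ring,
    show (2 * Ds.n + Ds.n : ℤ) = 3 * Ds.n by ring] at h
  have h1 := (((Ds.hφ1 Ds.n).mul D1_s2).sub ((Ds.hφ Ds.n).mul (D1_c2.smul 2))).J_zero
    (by simp [Ds.φ_lo]) (by simp [Ds.φ_hi])
  rw [← neg_eq_iff_eq_neg] at h
  rw [← h, neg_mul, map_neg, neg_eq_zero]
  refine Eq.trans ?_ h1
  congr 1
  ext t; simp; ring

/-- first solvability condition -/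
def l1 : AA →L[ℝ] ℝ := J.comp ((mulD s1).comp ((cm (2 * Ds.n)).comp (Ec 0)))
/-- second solvability condition -/
def l2 : AA →L[ℝ] ℝ := J.comp ((mulD s2).comp ((cm Ds.n).comp (Ec 0)))

lemma l1_apply (F : AA) : Ds.l1 F = J (s1 * cm (2 * Ds.n) (Ec 0 F)) := rfl
lemma l2_apply (F : AA) : Ds.l2 F = J (s2 * cm Ds.n (Ec 0 F)) := rfl

lemma cm2_cx : cm (2 * Ds.n) (cx (2 * Ds.n)) = (1/2 : ℝ) • 1 := by
  have := Ds.n_pos
  rw [cm_cx, if_neg (by omega), if_pos (by omega)]; simp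

lemma l1_NN0 (f : AA) (q : D0) (τ ε : ℝ) : Ds.l1 (Ds.NN (0, f, q, τ, ε)) = -π * ε := by
  have := Ds.n_pos
  rw [l1_apply, cm_NN0, sub_self, show (2 * Ds.n + 2 * Ds.n : ℤ) = 4 * Ds.n by ring, cm2_cx,
    Ds.ah_of_ne _ _ _ (by omega) (by omega), Ds.ah_of_ne _ _ _ (by omega) (by omega),
    Ds.ah_of_ne _ _ _ (by omega) (by omega), Ds.ah_of_ne _ _ _ (by omega) (by omega),
    Ds.α_off _ Ds.m0, Ds.α_off _ Ds.m4, Ds.α1_off Ds.m0, Ds.α1_off Ds.m4]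
  simp [Rr, J_s1_s1]
  ring

lemma l2_NN0 (f : AA) (q : D0) (τ ε : ℝ) : Ds.l2 (Ds.NN (0, f, q, τ, ε)) = π / 16 * τ := by
  have := Ds.n_pos
  have e0 : cm Ds.n (cx (2 * Ds.n)) = 0 := by
    rw [cm_cx, if_neg (by omega), if_neg (by omega)]; simp
  have h1 := ((D1_s1.mul D1_s1).mul (D1_s1.mul D1_s1)).J_zero (by simp) (by simp)
  rw [l2_apply, cm_NN0, show (2 * Ds.n - Ds.n : ℤ) = Ds.n by ring,
    show (2 * Ds.n + Ds.n : ℤ) = 3 * Ds.n by ring, e0, κ_n,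
    Ds.ah_of_ne _ _ _ (by omega) (by omega), Ds.ah_of_ne _ _ _ (by omega) (by omega)]
  have key : ∀ (A B C D : D0), A = (1/2 : ℝ) • B + (τ / 8) • C - (τ * b / 8) • D → J B = 0 →
      J C = π / 2 → J D = 0 → J A = π / 16 * τ := by
    intro A B C D e hB hC hD
    rw [e, map_sub, map_add, map_smul, map_smul, map_smul, hB, hC, hD]; simp; ring
  refine key _ _ _ _ ?_ Ds.M_zero J_s2_s2 h1
  ext t
  simp [Rr, ah, sin_two_mul]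
  ring

lemma NN0_indep (f : AA) (q : D0) (τ ε : ℝ) : Ds.NN (0, f, q, τ, ε) = Ds.NN (0, 0, 0, τ, ε) := by
  simp [NN, Φ, Ma, Mt, Mx, MA, MC]

/-- the quotient of the correction by `sin t` -/
def ψ (f : AA) : C2 := lift2 HdL (Ec 0 (Ds.Yt f).2.2.2.1)
/-- the equation for the second order coefficient -/
def qq (η : ℝ) (f : AA) (q : D0) (τ : ℝ) : D0 :=
  (-2:ℝ) • avg (Ds.TP (Ds.ah Ds.α1 (-s1) τ) 0 * Ds.ψ f) - (2 * η) • (q * cm (2 * Ds.n) (Ds.ψ f))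
/-- updated parameter -/
def τn (p : PP) : ℝ := p.2.2.2.1 - 16 / π * Ds.l2 (Ds.NN p)
/-- updated parameter -/
def εn (p : PP) : ℝ := p.2.2.2.2 + π⁻¹ * Ds.l1 (Ds.NN p)
/-- updated right hand side -/
def fn (p : PP) : AA := -Ds.NN p + Ds.NN (0, 0, 0, p.2.2.2) - Ds.NN (0, 0, 0, Ds.τn p, Ds.εn p)
/-- the update map -/
def Ψ (p : PP) : AA × D0 × ℝ × ℝ := (Ds.fn p, Ds.qq p.1 (Ds.fn p) p.2.2.1 (Ds.τn p), Ds.τn p, Ds.εn p)
/-- right hand side at order zero -/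
def f0 : AA := -Ds.NN (0, 0, 0, 0, 0)

lemma cd_Ψ : ContDiff ℝ 1 Ds.Ψ := by
  have h := Ds.cd_NN
  have hτ : ContDiff ℝ 1 Ds.τn :=
    contDiff_snd.snd.snd.fst.sub (contDiff_const.mul (Ds.l2.contDiff.comp h))
  have hε : ContDiff ℝ 1 Ds.εn :=
    contDiff_snd.snd.snd.snd.add (contDiff_const.mul (Ds.l1.contDiff.comp h))
  have hf : ContDiff ℝ 1 Ds.fn := (h.neg.add (h.comp (by fun_prop))).sub
    (h.comp (contDiff_const.prodMk (contDiff_const.prodMk (contDiff_const.prodMk (hτ.prodMk hε)))))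
  have hψ : ContDiff ℝ 1 fun p => Ds.ψ (Ds.fn p) := (lift2 HdL).contDiff.comp
    ((Ec 0).contDiff.comp (contDiff_const.add ((GG Ds.n_pos).contDiff.comp hf)).snd.snd.snd.fst)
  have hT : ContDiff ℝ 1 fun p => Ds.TP (Ds.ah Ds.α1 (-s1) (Ds.τn p)) 0 :=
    (ContDiff.sum fun k _ => (ιL.contDiff.comp (Ds.cd_ah _ _ hτ k)).mul contDiff_const).add
      contDiff_const
  exact hf.prodMk ((((avg.contDiff.comp (hT.mul hψ)).const_smul _).sub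
    ((contDiff_const.mul contDiff_fst).smul (contDiff_snd.snd.fst.mul
      ((cm _).contDiff.comp hψ)))).prodMk (hτ.prodMk hε))

lemma Ψ_zero (U : AA × D0 × ℝ × ℝ) : Ds.Ψ (0, U) = (Ds.f0, Ds.qq 0 Ds.f0 0 0, 0, 0) := by
  obtain ⟨f, q, τ, ε⟩ := U
  have := pi_pos
  have h1 : Ds.τn (0, f, q, τ, ε) = 0 := by rw [τn, l2_NN0]; field_simp; ring
  have h2 : Ds.εn (0, f, q, τ, ε) = 0 := by rw [εn, l1_NN0]; field_simp; ring
  have h3 : Ds.fn (0, f, q, τ, ε) = Ds.f0 := by rw [fn, h1, h2, NN0_indep, f0]; simp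
  simp only [Ψ, h1, h2, h3, qq, mul_zero, zero_smul]

/-- a family of solutions -/
structure Sol where
  f : ℝ → AA
  q : ℝ → D0
  τ : ℝ → ℝ
  ε : ℝ → ℝ
  hf : (fun η => f η - Ds.f0) =O[𝓝 0] fun η : ℝ => η
  hq : (fun η => q η - Ds.qq 0 Ds.f0 0 0) =O[𝓝 0] fun η : ℝ => η
  hτ : τ =O[𝓝 0] fun η : ℝ => η
  hε : ε =O[𝓝 0] fun η : ℝ => η
  eqs : ∀ᶠ η in 𝓝 (0:ℝ), Ds.l1 (f η) = 0 ∧ Ds.l2 (f η) = 0 ∧ f η = -Ds.NN (η, f η, q η, τ η, ε η)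
    ∧ q η = Ds.qq η (f η) (q η) (τ η)

theorem exists_sol : Nonempty Ds.Sol := by
  obtain ⟨U, h1, h2⟩ := exists_fix Ds.Ψ Ds.cd_Ψ _ Ds.Ψ_zero
  refine ⟨⟨fun η => (U η).1, fun η => (U η).2.1, fun η => (U η).2.2.1, fun η => (U η).2.2.2,
    h1.prod_left_fst, h1.prod_left_snd.prod_left_fst,
    by simpa [Function.comp_def] using h1.prod_left_snd.prod_left_snd.prod_left_fst,
    by simpa [Function.comp_def] using h1.prod_left_snd.prod_left_snd.prod_left_snd, ?_⟩⟩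
  filter_upwards [h2] with η h
  have := pi_pos
  have a1 : Ds.fn (η, U η) = (U η).1 := congrArg Prod.fst h
  have a2 : Ds.qq η (Ds.fn (η, U η)) (U η).2.1 (Ds.τn (η, U η)) = (U η).2.1 :=
    congrArg (fun x => x.2.1) h
  have a3 : Ds.τn (η, U η) = (U η).2.2.1 := congrArg (fun x => x.2.2.1) h
  have a4 : Ds.εn (η, U η) = (U η).2.2.2 := congrArg (fun x => x.2.2.2) h
  rw [a1, a3] at a2
  rw [fn, a3, a4, add_sub_cancel_right] at a1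
  have b3 : Ds.l2 (Ds.NN (η, U η)) = 0 := by simpa [τn] using a3
  have b4 : Ds.l1 (Ds.NN (η, U η)) = 0 := by simpa [εn] using a4
  exact ⟨by rw [← a1, map_neg, b4, neg_zero], by rw [← a1, map_neg, b3, neg_zero], a1.symm,
    a2.symm⟩

end Des

end

end Pool.Agent.P.MP_0d657e_an
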