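import Pool.Agent.P.MP_0d657e_an.Basic3

/-! Anisotropic regularity classes on the annulus, and the mean free primitive in the angle. -/

open Set Real

namespace Pool.Agent.P.MP_0d657e_an

noncomputable section

/-- `m` continuous derivatives in the height -/
def St : ℕ → C2 → Prop
  | 0, _ => True
  | m + 1, F => ∃ F', Dt F F' ∧ St m F'

lemma St.mono : ∀ {m : ℕ} {y : C2}, St (m + 1) y → St m y
  | 0, _, _ => trivial
  | _ + 1, _, ⟨y', h, k⟩ => ⟨y', h, k.mono⟩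

lemma St_zero : ∀ m : ℕ, St m 0
  | 0 => trivial
  | m + 1 => ⟨0, Dt_zero, St_zero m⟩

lemma St_of_const {F : C2} (h : Dt F 0) : ∀ m : ℕ, St m F
  | 0 => trivial
  | m + 1 => ⟨0, h, St_zero m⟩

lemma St.add : ∀ {m : ℕ} {y z : C2}, St m y → St m z → St m (y + z)
  | 0, _, _, _, _ => trivial
  | _ + 1, _, _, ⟨_, h, k⟩, ⟨_, h', k'⟩ => ⟨_, h.add h', k.add k'⟩

lemma St.smul (c : ℝ) : ∀ {m : ℕ} {y : C2}, St m y → St m (c • y)
  | 0, _, _ => trivial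
  | _ + 1, _, ⟨_, h, k⟩ => ⟨_, h.smul c, k.smul c⟩

lemma St.neg {m : ℕ} {y : C2} (h : St m y) : St m (-y) := by simpa using h.smul (-1)

lemma St.mul : ∀ {m : ℕ} {y z : C2}, St m y → St m z → St m (y * z)
  | 0, _, _, _, _ => trivial
  | _ + 1, _, _, ⟨y', h, k⟩, ⟨z', h', k'⟩ =>
    ⟨_, h.mul h', (k.mul (St.mono ⟨z', h', k'⟩)).add ((St.mono ⟨y', h, k⟩).mul k')⟩

lemma St.inv : ∀ {m : ℕ} {y z : C2}, St m y → y * z = 1 → St m z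
  | 0, _, _, _, _ => trivial
  | m + 1, y, z, ⟨y', h, k⟩, e => by
    have hz : St m z := St.inv (St.mono ⟨y', h, k⟩) e
    exact ⟨_, h.inv e, ((k.mul hz).mul hz).neg⟩

lemma St_ι : ∀ {m : ℕ} {y : D0}, Sd m y → St m (ι y)
  | 0, _, _ => trivial
  | _ + 1, _, ⟨_, h, k⟩ => ⟨_, Dt_ι h, St_ι k⟩

lemma St.avg : ∀ {m : ℕ} {F : C2}, St m F → Sd m (avg F)
  | 0, _, _ => trivial
  | _ + 1, _, ⟨_, h, k⟩ => ⟨_, h.avg, k.avg⟩

lemma St.cm {m : ℕ} {F : C2} (h : St m F) (k : ℤ) : Sd m (cm k F) :=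
  ((St_of_const (Dt_cx k) m).mul h).avg

/-- `p` derivatives in the angle, each with `m` derivatives in the height -/
def Sf : ℕ → ℕ → C2 → Prop
  | 0, m, F => St m F
  | p + 1, m, F => St m F ∧ ∃ F', Dx F F' ∧ Sf p m F'

lemma Sf.st : ∀ {p m : ℕ} {F : C2}, Sf p m F → St m F
  | 0, _, _, h => h
  | _ + 1, _, _, h => h.1

lemma Sf.mono : ∀ {p m : ℕ} {F : C2}, Sf (p + 1) m F → Sf p m F
  | 0, _, _, h => h.1
  | _ + 1, _, _, ⟨h, F', k, l⟩ => ⟨h, F', k, l.mono⟩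

lemma Sf.add : ∀ {p m : ℕ} {y z : C2}, Sf p m y → Sf p m z → Sf p m (y + z)
  | 0, _, _, _, h, k => St.add h k
  | _ + 1, _, _, _, ⟨a, _, h, k⟩, ⟨a', _, h', k'⟩ => ⟨a.add a', _, h.add h', k.add k'⟩

lemma Sf.smul (c : ℝ) : ∀ {p m : ℕ} {y : C2}, Sf p m y → Sf p m (c • y)
  | 0, _, _, h => St.smul c h
  | _ + 1, _, _, ⟨a, _, h, k⟩ => ⟨a.smul c, _, h.smul c, k.smul c⟩

lemma Sf.neg {p m : ℕ} {y : C2} (h : Sf p m y) : Sf p m (-y) := by simpa using h.smul (-1)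

lemma Sf.mul : ∀ {p m : ℕ} {y z : C2}, Sf p m y → Sf p m z → Sf p m (y * z)
  | 0, _, _, _, h, k => St.mul h k
  | _ + 1, _, _, _, ⟨a, y', h, k⟩, ⟨a', z', h', k'⟩ =>
    ⟨a.mul a', _, h.mul h', (k.mul (Sf.mono ⟨a', z', h', k'⟩)).add ((Sf.mono ⟨a, y', h, k⟩).mul k')⟩

lemma Sf.inv : ∀ {p m : ℕ} {y z : C2}, Sf p m y → y * z = 1 → Sf p m z
  | 0, _, _, _, h, e => St.inv h e
  | p + 1, m, y, z, ⟨a, y', h, k⟩, e => by
    have hz : Sf p m z := Sf.inv (Sf.mono ⟨a, y', h, k⟩) e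
    exact ⟨a.inv e, _, h.inv e, ((k.mul hz).mul hz).neg⟩

lemma Sf_zero : ∀ p m : ℕ, Sf p m 0
  | 0, m => St_zero m
  | p + 1, m => ⟨St_zero m, 0, Dx_zero, Sf_zero p m⟩

lemma Sf_ι {m : ℕ} {y : D0} (h : Sd m y) : ∀ p : ℕ, Sf p m (ι y)
  | 0 => St_ι h
  | p + 1 => ⟨St_ι h, 0, Dx_ι y, Sf_zero p m⟩

lemma Sf_cs (k : ℤ) (m : ℕ) : ∀ p : ℕ, Sf p m (cx k) ∧ Sf p m (sx k)
  | 0 => ⟨St_of_const (Dt_cx k) m, St_of_const (Dt_sx k) m⟩
  | p + 1 => ⟨⟨St_of_const (Dt_cx k) m, _, Dx_cx k, ((Sf_cs k m p).2.smul _).neg⟩,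
      ⟨St_of_const (Dt_sx k) m, _, Dx_sx k, (Sf_cs k m p).1.smul _⟩⟩

lemma Sf.sum {α : Type*} {p m : ℕ} (s : Finset α) {f : α → C2} (h : ∀ i ∈ s, Sf p m (f i)) :
    Sf p m (∑ i ∈ s, f i) := by
  classical
  induction s using Finset.induction_on with
  | empty => simpa using Sf_zero p m
  | insert i s hi ih =>
    rw [Finset.sum_insert hi]
    exact (h i (Finset.mem_insert_self _ _)).add
      (ih (fun j hj => h j (Finset.mem_insert_of_mem hj)))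

lemma Sf.dx {p m : ℕ} {F G : C2} (h : Sf (p + 1) m F) (k : Dx F G) : Sf p m G := by
  obtain ⟨-, F', h1, h2⟩ := h
  exact k.unique h1 ▸ h2

lemma Dt_comm {F G F' G' : C2} (h : Dt F G) (h1 : Dx F F') (h2 : Dx G G') : Dt F' G' := by
  let L : D0 →L[ℝ] D0 := (algebraMapCLM ℝ D0).comp (D.ev lo)
  have e : F = lift2 L F + lift2 V G := C2.ext (fun x => (h x).eq_V)
  have e' : F' = lift2 L F' + lift2 V G' :=
    h1.unique (((h1.lift2 L).add (h2.lift2 V)).congr e rfl)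
  intro x
  rw [D1_iff]
  exact congrArg (fun F : C2 => F x) e'

lemma Sf.up : ∀ {p m : ℕ} {F G : C2}, Sf p 0 F → Dt F G → Sf p m G → Sf p (m + 1) F
  | 0, _, _, _, _, h, k => ⟨_, h, k⟩
  | _ + 1, _, _, _, ⟨_, F', h1, h2⟩, h, ⟨a, _, k1, k2⟩ =>
    ⟨⟨_, h, a⟩, F', h1, h2.up (Dt_comm h h1 k1) k2⟩

lemma smooth_mode {y : D0} (h : ∀ m, Sd m y) (k : ℤ) :
    ContDiffOn ℝ ((⊤ : ℕ∞) : WithTop ℕ∞) (fun p : ℝ × ℝ => ext ((ι y * cx k) p.1) p.2) Strip := by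
  have h1 : ContDiffOn ℝ ((⊤ : ℕ∞) : WithTop ℕ∞) (ext y) (Icc 0 π) :=
    contDiffOn_infty.2 (fun m => (h m).contDiffOn pi_pos)
  have h2 : ContDiffOn ℝ ((⊤ : ℕ∞) : WithTop ℕ∞) (fun p : ℝ × ℝ => ext y p.2 * cos (k * p.1))
      Strip := (h1.comp contDiffOn_snd (fun p hp => hp.2)).mul (by fun_prop)
  exact h2.congr (fun p _ => by simp [ext])

/-- the mean free primitive in the angle -/
def Pz : C2 →L[ℝ] C2 := Px - ιL.comp (avg.comp Px)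

lemma Pz_apply (F : C2) : Pz F = Px F - ι (avg (Px F)) := rfl

lemma Dx_Pz {F : C2} (h : avg F = 0) : Dx (Pz F) F :=
  ((Dx_Px F).sub (Dx_ι _)).congr' (by simp [h])

lemma avg_Pz (F : C2) : avg (Pz F) = 0 := by simp [Pz_apply]

lemma Dt.Pz {F G : C2} (h : Dt F G) : Dt (Pz F) (Pz G) := h.Px.sub (Dt_ι h.Px.avg)

lemma Pz_ι_mul (y : D0) (F : C2) : Pz (ι y * F) = ι y * Pz F := by
  simp only [Pz_apply, Px_ι_mul, avg_ι_mul, map_mul, mul_sub]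

lemma Dx.eq_zero {G : C2} (h : Dx G 0) (h0 : avg G = 0) : G = 0 := by
  have h1 : ∀ x : ℝ, G x = G (0:ℝ) := fun x =>
    is_const_of_deriv_eq_zero (f := fun x : ℝ => G x) (fun x => (h x).differentiableAt)
      (fun x => (h x).deriv) x 0
  have h2 : G = ι (G (0:ℝ)) := C2_ext (fun x t => by rw [h1]; rfl)
  rw [h2, avg_ι] at h0
  rw [h2, h0, map_zero]

lemma Pz_cx {k : ℤ} (hk : k ≠ 0) : Pz (cx k) = (k:ℝ)⁻¹ • sx k := by
  have h := (Dx_Pz (F := cx k) (by rw [avg_cx, if_neg hk])).sub ((Dx_sx k).smul (k:ℝ)⁻¹)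
  rw [smul_smul, inv_mul_cancel₀ (by exact_mod_cast hk), one_smul, sub_self] at h
  exact sub_eq_zero.1 (h.eq_zero (by simp [avg_Pz]))

lemma sm_Pz {k : ℤ} (hk : k ≠ 0) (F : C2) : (k:ℝ) • sm k (Pz F) = cm k F := by
  have h := ((Dx_Px F).sub (Dx_ι (avg (Px F)))).cm_eq k
  rw [← Pz_apply] at h
  have e : cm k (ι (avg F)) = 0 := by
    rw [← mul_one (ι _), cm_ι_mul, cm_one, if_neg hk, mul_zero]
  rw [← h, sub_zero, map_sub, e, sub_zero]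

end

end Pool.Agent.P.MP_0d657e_an
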