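import Pool.Agent.P.MP_0d657e_an.C4
import Pool.Agent.P.MP_0d657e_an.Smooth

/-! The exact geometry attached to a solution of the nonlinear system: derivatives. -/

open Set Real

namespace Pool.Agent.P.MP_0d657e_an

noncomputable section

/-- first derivative of the Hadamard factor -/
def r1 : D0 := exists_ri.choose
/-- second derivative of the Hadamard factor -/
def r2 : D0 := exists_ri.choose_spec.choose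
lemma D1_ri : D1 ri r1 := exists_ri.choose_spec.choose_spec.1
lemma D1_r1 : D1 r1 r2 := exists_ri.choose_spec.choose_spec.2

lemma Dt.Hd {F G : C2} (h : Dt F G) (m : ℕ) : Dt (lift2 (Hd m) F) (lift2 (Hd (m + 1)) G) :=
  fun x => D1_Hd m (h x)

namespace Des

variable (Ds : Des) (p : PP)

/-- the conductivity -/
def A : C2 := 1 + p.1 • Ds.aa p
/-- derivative -/
def Ax : C2 := p.1 • Ds.aax p
/-- derivative -/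
def At : C2 := p.1 • Ds.aa1 p
/-- derivative -/
def Atx : C2 := p.1 • Ds.TPx (Ds.ah Ds.α1 (-s1) p.2.2.2.1) (p.1 • p.2.2.1)
/-- inverse -/
def Ai : C2 := Ring.inverse (Ds.A p)
/-- the factor of the density -/
def c : C2 := Ds.A p + b⁻¹ • Ds.At p
/-- inverse -/
def ci : C2 := Ring.inverse (Ds.c p)
/-- the anisotropy -/
def d : ℝ := (1 + p.1 * p.2.2.2.2) * Ds.d0
/-- the kernel element -/
def u : C2 := Ec 0 (Ds.Φ p).1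
/-- derivative -/
def ux : C2 := -Es 1 (Ds.Φ p).1
/-- derivative -/
def uxx : C2 := -Ec 2 (Ds.Φ p).1
/-- derivative -/
def ut : C2 := Ec 0 (Ds.Φ p).2.2.2.1
/-- derivative -/
def utt : C2 := Ec 0 (Ds.Φ p).2.2.2.2
/-- derivative -/
def uxt : C2 := -Es 1 (Ds.Φ p).2.2.2.1
/-- derivative -/
def uxxt : C2 := -Ec 2 (Ds.Φ p).2.2.2.1
/-- the design part of the first derivative -/
def T1 : C2 := Ds.TP (Ds.ah Ds.α1 (-s1) p.2.2.2.1) 0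
/-- of the second derivative -/
def T2 : C2 := Ds.TP (Ds.ah Ds.α2 (-c1) p.2.2.2.1) 0
/-- of the third derivative -/
def T3 : C2 := Ds.TP (Ds.ah Ds.α3 s1 p.2.2.2.1) 0
/-- derivative of the quotient -/
def ψ1 (f : AA) : C2 := ι r1 * lift2 (Hd 0) (Ec 0 (Ds.Yt f).2.2.2.1)
  + ι ri * lift2 (Hd 1) (Ec 0 (Ds.Yt f).2.2.2.2)
/-- denominator -/
def Pd : D0 := 1 + (2 * p.1) • cm (2 * Ds.n) (Ds.ψ p.2.1)
/-- inverse -/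
def Pi : D0 := Ring.inverse (Ds.Pd p)
/-- derivative of the second order coefficient -/
def q1 : D0 := ((-2:ℝ) • avg (Ds.T2 p * Ds.ψ p.2.1 + Ds.T1 p * Ds.ψ1 p.2.1)
  - p.2.2.1 * (2 * p.1) • cm (2 * Ds.n) (Ds.ψ1 p.2.1)) * Ds.Pi p
/-- derivative -/
def Att : C2 := p.1 • Ds.TP (Ds.ah Ds.α2 (-c1) p.2.2.2.1) (p.1 • Ds.q1 p)
/-- derivative -/
def ct : C2 := Ds.At p + b⁻¹ • Ds.Att p
/-- derivative -/
def Ait : C2 := -(Ds.At p * Ds.Ai p * Ds.Ai p)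
/-- lower order terms -/
def Q : C2 := Ds.At p * Ds.ut p + Ds.d p • (Ds.Ai p * Ds.uxx p - Ds.Ax p * Ds.Ai p * Ds.Ai p * Ds.ux p)
  + (5:ℝ) • (Ds.c p * Ds.u p)
/-- derivative -/
def Qt : C2 := Ds.Att p * Ds.ut p + Ds.At p * Ds.utt p
  + Ds.d p • (Ds.Ait p * Ds.uxx p + Ds.Ai p * Ds.uxxt p
    - (((Ds.Atx p * Ds.Ai p + Ds.Ax p * Ds.Ait p) * Ds.Ai p + Ds.Ax p * Ds.Ai p * Ds.Ait p) * Ds.ux p
      + Ds.Ax p * Ds.Ai p * Ds.Ai p * Ds.uxt p))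
  + (5:ℝ) • (Ds.ct p * Ds.u p + Ds.c p * Ds.ut p)
/-- third derivative -/
def uttt : C2 := -(Ds.Ait p * Ds.Q p + Ds.Ai p * Ds.Qt p)
/-- second derivative of the quotient -/
def ψ2 : C2 := ι r2 * lift2 (Hd 0) (Ec 0 (Ds.Yt p.2.1).2.2.2.1)
  + (2:ℝ) • (ι r1 * lift2 (Hd 1) (Ec 0 (Ds.Yt p.2.1).2.2.2.2))
  + ι ri * lift2 (Hd 2) (p.1⁻¹ • (Ds.uttt p - -(ι c1 * cx (2 * Ds.n))))
/-- second derivative of the second order coefficient -/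
def q2 : D0 := ((-2:ℝ) • avg (Ds.T3 p * Ds.ψ p.2.1 + (2:ℝ) • (Ds.T2 p * Ds.ψ1 p.2.1)
    + Ds.T1 p * Ds.ψ2 p)
  - (2:ℝ) • (Ds.q1 p * (2 * p.1) • cm (2 * Ds.n) (Ds.ψ1 p.2.1))
  - p.2.2.1 * (2 * p.1) • cm (2 * Ds.n) (Ds.ψ2 p)) * Ds.Pi p
/-- derivative -/
def Attt : C2 := p.1 • Ds.TP (Ds.ah Ds.α3 s1 p.2.2.2.1) (p.1 • Ds.q2 p)
/-- derivative -/
def ctt : C2 := Ds.Att p + b⁻¹ • Ds.Attt p
/-- derivative -/
def cX : C2 := Ds.Ax p + b⁻¹ • Ds.Atx p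

/-- the equations hold and the denominators do not vanish -/
structure Good : Prop where
  η_ne : p.1 ≠ 0
  h1 : Ds.l1 p.2.1 = 0
  h2 : Ds.l2 p.2.1 = 0
  hf : p.2.1 = -Ds.NN p
  hq : p.2.2.1 = Ds.qq p.1 p.2.1 p.2.2.1 p.2.2.2.1
  hA : Ds.A p * Ds.Ai p = 1
  hc : Ds.c p * Ds.ci p = 1
  hP : Ds.Pd p * Ds.Pi p = 1
  d_pos : 0 < Ds.d p
  A_pos : ∀ x t, 0 < Ds.A p x t
  c_pos : ∀ x t, 0 < Ds.c p x t

lemma D1_ah {y y' : ℤ → D0} {z z' : D0} (hy : ∀ k, D1 (y k) (y' k)) (hz : D1 z z') (τ : ℝ)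
    (k : ℤ) : D1 (Ds.ah y z τ k) (Ds.ah y' z' τ k) := by
  unfold ah
  split_ifs
  · exact ((hy k).smul _).add ((hz.smul _).smul _)
  · exact ((hy k).smul _).add (D1_zero.smul _)

lemma hAx : Dx (Ds.A p) (Ds.Ax p) := (Dx_one.add ((Ds.Dx_TP _ _).smul _)).congr' (zero_add _).symm
lemma hAt : Dt (Ds.A p) (Ds.At p) := (Dt_one.add ((Ds.Dt_TP (Ds.D1_ah Ds.hα D1_c1 _)
  ((D1_V _).smul _)).smul _)).congr' (zero_add _).symm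
lemma hAxt : Dt (Ds.Ax p) (Ds.Atx p) :=
  (Ds.Dt_TPx (Ds.D1_ah Ds.hα D1_c1 _) ((D1_V _).smul _)).smul _
lemma hAtx : Dx (Ds.At p) (Ds.Atx p) := (Ds.Dx_TP _ _).smul _
lemma hcX : Dx (Ds.c p) (Ds.cX p) := (Ds.hAx p).add ((Ds.hAtx p).smul _)
lemma hux : Dx (Ds.u p) (Ds.ux p) := Dx_Ec _ _
lemma huxx : Dx (Ds.ux p) (Ds.uxx p) := (Dx_Es _ _).neg
lemma hut : Dt (Ds.u p) (Ds.ut p) := (Ds.isJet_Φ p).dtc 0
lemma hutt : Dt (Ds.ut p) (Ds.utt p) := (Ds.isJet_Φ p).dttc 0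
lemma huxt : Dt (Ds.ux p) (Ds.uxt p) := ((Ds.isJet_Φ p).dts 1).neg
lemma hutx : Dx (Ds.ut p) (Ds.uxt p) := Dx_Ec _ _
lemma huxxt : Dt (Ds.uxx p) (Ds.uxxt p) := ((Ds.isJet_Φ p).dtc 2).neg
lemma hT1 : Dt (Ds.T1 p) (Ds.T2 p) := Ds.Dt_TP (Ds.D1_ah Ds.hα1 D1_s1.neg _) D1_zero
lemma hT2 : Dt (Ds.T2 p) (Ds.T3 p) :=
  Ds.Dt_TP (Ds.D1_ah Ds.hα2 (D1_c1.neg.congr' (neg_neg _).symm) _) D1_zero

lemma ψ_eq (f : AA) : Ds.ψ f = ι ri * lift2 (Hd 0) (Ec 0 (Ds.Yt f).2.2.2.1) := rfl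

lemma hψ (f : AA) : Dt (Ds.ψ f) (Ds.ψ1 f) :=
  (Dt_ι D1_ri).mul (((Ds.isJet_Yt f).dttc 0).Hd 0)

lemma s1_ψ (f : AA) : ι s1 * Ds.ψ f = Ec 0 (Ds.Yt f).1 := C2.ext fun x =>
  s1_had ((Ds.isJet_Yt f).dtc 0 x) (H.at_lo (Ds.isJet_Yt f).toH x) (H.at_hi (Ds.isJet_Yt f).toH x)

lemma L0_Yt {f : AA} (h1 : Ds.l1 f = 0) (h2 : Ds.l2 f = 0) :
    Ds.d0 • -Ec 2 (Ds.Yt f).1 + Ec 0 (Ds.Yt f).2.2.2.2 + (5:ℝ) • Ec 0 (Ds.Yt f).1 = Ec 0 f := by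
  have h := L0_GG Ds.n_pos f (fun k => by
    unfold pm
    split_ifs with a1 a2
    · rcases a1 with e | e <;> rw [e, mul_comm] <;> simpa [l2_apply] using h2
    · rcases a2 with e | e <;> rw [e, mul_comm] <;> simpa [l1_apply] using h1
    · simp)
  have := Ds.n_ne
  simp only [Yt, sj, Prod.fst_add, Prod.snd_add, Prod.smul_fst, Prod.smul_snd, map_add, map_smul,
    Ec_sing, h, d0, map_neg, Int.cast_natCast]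
  match_scalars <;> field_simp <;> ring

lemma u_eq : Ds.u p = ι s1 * cx (2 * Ds.n) + p.1 • Ec 0 (Ds.Yt p.2.1).1 := by
  simp [u, Φ, e0, sj, Ec_sing]
lemma utt_eq : Ds.utt p = -(ι s1 * cx (2 * Ds.n)) + p.1 • Ec 0 (Ds.Yt p.2.1).2.2.2.2 := by
  simp [utt, Φ, e0, sj, Ec_sing]
lemma ut_eq : Ds.ut p = ι c1 * cx (2 * Ds.n) + p.1 • Ec 0 (Ds.Yt p.2.1).2.2.2.1 := by
  simp [ut, Φ, e0, sj, Ec_sing]

namespace Good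

variable {Ds p} (g : Ds.Good p)
include g

lemma eqn : Ds.d p • (Ds.A p * Ds.uxx p - Ds.Ax p * Ds.ux p) + Ds.A p ^ 3 * Ds.utt p
    + Ds.A p ^ 2 * Ds.At p * Ds.ut p + (5:ℝ) • (Ds.A p ^ 2 * Ds.c p * Ds.u p) = 0 := by
  have h := NC_eq Ds.d0 p.1 p.2.2.2.2 (Ds.aa p) (Ds.aax p) (Ds.aa1 p) (Ds.u p) (Ds.ux p)
    (Ds.uxx p) (Ds.ut p) (Ds.utt p)
  refine h.trans ?_
  have h1 := Ds.Ec_NN p
  have h2 := Ds.L0_Yt g.h1 g.h2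
  rw [g.hf, map_neg, h1, ← g.hf] at h2
  change _ = -NC _ _ _ _ _ _ (Ds.u p) (Ds.ux p) (Ds.uxx p) (Ds.ut p) (Ds.utt p) at h2
  rw [eq_neg_iff_add_eq_zero, add_eq_zero_iff_neg_eq] at h2
  rw [← h2, u_eq, utt_eq]
  have := Ds.n_ne
  simp only [uxx, Φ, e0, sj, Prod.fst_add, Prod.smul_fst, map_add, map_smul, Ec_sing, d0]
  push_cast
  match_scalars <;> field_simp <;> ring

lemma eqn' : Ds.A p * Ds.utt p + Ds.Q p = 0 := by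
  have h := g.eqn
  have hA := g.hA
  simp only [Q, Algebra.smul_def, map_ofNat] at h ⊢
  linear_combination (Ds.Ai p * Ds.Ai p) * h - ((1 + Ds.A p * Ds.Ai p) * (Ds.A p * Ds.utt p
    + Ds.At p * Ds.ut p + 5 * (Ds.c p * Ds.u p)) + algebraMap ℝ C2 (Ds.d p) * Ds.Ai p * Ds.uxx p) * hA

lemma utt_eq' : Ds.utt p = -(Ds.Ai p * Ds.Q p) := by
  linear_combination Ds.Ai p * g.eqn' - Ds.utt p * g.hA

lemma q_eq : p.2.2.1 = (-2:ℝ) • avg (Ds.T1 p * Ds.ψ p.2.1) * Ds.Pi p := by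
  have h := g.hq
  have hP := g.hP
  rw [qq, ← T1] at h
  simp only [Pd, Algebra.smul_def] at h hP ⊢
  linear_combination Ds.Pi p * h - p.2.2.1 * hP

omit g in
lemma hP1 : D1 (Ds.Pd p) ((2 * p.1) • cm (2 * Ds.n) (Ds.ψ1 p.2.1)) :=
  (D1_one.add (((Ds.hψ _).cm _).smul _)).congr' (zero_add _).symm

lemma hq1 : D1 p.2.2.1 (Ds.q1 p) :=
  ((((Ds.hT1 p).mul (Ds.hψ _)).avg.smul (-2)).mul (hP1.inv g.hP)).congr g.q_eq (by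
    rw [q1]
    linear_combination (-((2 * p.1) • cm (2 * Ds.n) (Ds.ψ1 p.2.1)) * Ds.Pi p) * g.q_eq)

lemma hAtt : Dt (Ds.At p) (Ds.Att p) :=
  (Ds.Dt_TP (Ds.D1_ah Ds.hα1 D1_s1.neg _) (g.hq1.smul _)).smul _
lemma hct : Dt (Ds.c p) (Ds.ct p) := (Ds.hAt p).add (g.hAtt.smul _)
lemma hAit : Dt (Ds.Ai p) (Ds.Ait p) := (Ds.hAt p).inv g.hA

lemma huttt : Dt (Ds.utt p) (Ds.uttt p) := by
  rw [g.utt_eq']
  exact (g.hAit.mul (((g.hAtt.mul (Ds.hutt p)).add (((g.hAit.mul (Ds.huxxt p)).sub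
    ((((Ds.hAxt p).mul g.hAit).mul g.hAit).mul (Ds.huxt p))).smul _)).add
    ((g.hct.mul (Ds.hut p)).smul _))).neg

lemma hψ1 : Dt (Ds.ψ1 p.2.1) (Ds.ψ2 p) := by
  have h1 : Dt (Ec 0 (Ds.Yt p.2.1).2.2.2.2) (p.1⁻¹ • (Ds.uttt p - -(ι c1 * cx (2 * Ds.n)))) := by
    refine ((g.huttt.sub (((Dt_ι D1_s1).mul (Dt_cx (2 * Ds.n))).neg)).smul p.1⁻¹).congr ?_ (by simp)
    rw [utt_eq, add_sub_cancel_left, smul_smul, inv_mul_cancel₀ g.η_ne, one_smul]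
  exact (((Dt_ι D1_r1).mul (((Ds.isJet_Yt _).dttc 0).Hd 0)).add ((Dt_ι D1_ri).mul (h1.Hd 1))).congr'
    (by rw [ψ2, two_smul]; ring)

lemma hq2 : D1 (Ds.q1 p) (Ds.q2 p) :=
  (((((((Ds.hT2 p).mul (Ds.hψ _)).add ((Ds.hT1 p).mul g.hψ1)).avg.smul (-2)).sub
    (g.hq1.mul ((g.hψ1.cm _).smul _))).mul (hP1.inv g.hP))).congr' (by
    have e : Ds.T3 p * Ds.ψ p.2.1 + Ds.T2 p * Ds.ψ1 p.2.1 + (Ds.T2 p * Ds.ψ1 p.2.1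
      + Ds.T1 p * Ds.ψ2 p) = Ds.T3 p * Ds.ψ p.2.1 + (2:ℝ) • (Ds.T2 p * Ds.ψ1 p.2.1)
      + Ds.T1 p * Ds.ψ2 p := by rw [two_smul]; ring
    rw [e, q2, two_smul ℝ (Ds.q1 p * _)]
    have : Ds.q1 p = ((-2:ℝ) • avg (Ds.T2 p * Ds.ψ p.2.1 + Ds.T1 p * Ds.ψ1 p.2.1)
      - p.2.2.1 * (2 * p.1) • cm (2 * Ds.n) (Ds.ψ1 p.2.1)) * Ds.Pi p := rfl
    linear_combination (-((2 * p.1) • cm (2 * Ds.n) (Ds.ψ1 p.2.1)) * Ds.Pi p) * this)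

lemma hAttt : Dt (Ds.Att p) (Ds.Attt p) :=
  (Ds.Dt_TP (Ds.D1_ah Ds.hα2 (D1_c1.neg.congr' (neg_neg _).symm) _) (g.hq2.smul _)).smul _
lemma hctt : Dt (Ds.ct p) (Ds.ctt p) := g.hAtt.add (g.hAttt.smul _)

end Good

end Des

end

end Pool.Agent.P.MP_0d657e_an
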