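import Pool.Agent.P.MP_0d657e_an.C5
import Pool.Agent.P.MP_0d657e_an.Ident

/-! The exact geometry attached to a solution of the nonlinear system. -/

open Set Real

namespace Pool.Agent.P.MP_0d657e_an

noncomputable section

lemma Sf_Ec_Es (F : AA) : ∀ p j : ℕ, Sf p 0 (Ec j F) ∧ Sf p 0 (Es j F)
  | 0, _ => ⟨trivial, trivial⟩
  | p + 1, j => ⟨⟨trivial, _, Dx_Ec j F, (Sf_Ec_Es F p (j + 1)).2.neg⟩,
      ⟨trivial, _, Dx_Es j F, (Sf_Ec_Es F p (j + 1)).1⟩⟩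

lemma Sd.of_D1 {m : ℕ} {y y' : D0} (h : Sd (m + 1) y) (k : D1 y y') : Sd m y' := by
  obtain ⟨z, h1, h2⟩ := h
  exact D1.unique pi_pos h1 k ▸ h2

namespace Des

variable (Ds : Des) (p : PP)

/-- flux -/
def Z : C2 := Ds.ct p * Ds.u p + Ds.c p * Ds.ut p + b • (Ds.c p * Ds.u p)
/-- derivative -/
def Zt : C2 := Ds.ctt p * Ds.u p + Ds.ct p * Ds.ut p + (Ds.ct p * Ds.ut p + Ds.c p * Ds.utt p)
  + b • (Ds.ct p * Ds.u p + Ds.c p * Ds.ut p)
/-- first component of the vector field -/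
def X1 : C2 := -(Ds.ci p * ι om * Pz (Ds.Z p))
/-- derivative -/
def X1x : C2 := Ds.cX p * Ds.ci p * Ds.ci p * ι om * Pz (Ds.Z p) - Ds.ci p * ι om * Ds.Z p
/-- derivative -/
def X1t : C2 := (Ds.ct p * Ds.ci p * Ds.ci p * ι om + b • (Ds.ci p * ι om)) * Pz (Ds.Z p)
  - Ds.ci p * ι om * Pz (Ds.Zt p)

lemma Sd_ah {m : ℕ} {y : ℤ → D0} {z : D0} (hy : ∀ k, Sd m (y k)) (hz : Sd m z) (τ : ℝ) (k : ℤ) :
    Sd m (Ds.ah y z τ k) := by
  unfold ah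
  split_ifs
  · exact ((hy k).smul _).add ((hz.smul _).smul _)
  · exact ((hy k).smul _).add ((Sd_zero m).smul _)

lemma Sf_TP {j m : ℕ} {y : ℤ → D0} {z : D0} (hy : ∀ k, Sd m (y k)) (hz : Sd m z) :
    Sf j m (Ds.TP y z) :=
  (Sf.sum _ fun k _ => (Sf_ι (hy k) j).mul (Sf_cs k m j).1).add ((Sf_ι hz j).mul (Sf_cs _ m j).1)

lemma Sd_a0 (m : ℕ) (τ : ℝ) (k : ℤ) : Sd m (Ds.ah Ds.α c1 τ k) :=
  Ds.Sd_ah (fun k => Ds.smooth k m) (Sd_sn_cs 1 m).2 τ k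
lemma Sd_a1 (m : ℕ) (τ : ℝ) (k : ℤ) : Sd m (Ds.ah Ds.α1 (-s1) τ k) :=
  Ds.Sd_ah (fun k => (Ds.smooth k (m + 1)).of_D1 (Ds.hα k)) (Sd_sn_cs 1 m).1.neg τ k

lemma smooth_TP {y : ℤ → D0} {z : D0} (hy : ∀ k m, Sd m (y k)) (hz : ∀ m, Sd m z) (c : ℝ) :
    ContDiffOn ℝ ((⊤ : ℕ∞) : WithTop ℕ∞) (fun p : ℝ × ℝ => ext ((c • Ds.TP y z) p.1) p.2) Strip := by
  have h := ((ContDiffOn.sum (s := Ds.K) fun k _ => smooth_mode (hy k) k).add
    (smooth_mode hz (2 * Ds.n))).const_smul c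
  exact h.congr (fun p _ => by simp [TP, ext, mul_add])

lemma avg_TP (y : ℤ → D0) (z : D0) : avg (Ds.TP y z) = 0 := by
  have := Ds.n_pos
  rw [TP, map_add, map_sum, avg_ι_mul, avg_cx, if_neg (by omega), mul_zero, add_zero]
  exact Finset.sum_eq_zero fun k hk => by
    rw [avg_ι_mul, avg_cx, if_neg (fun h : k = 0 => Ds.m0 (h ▸ hk)), mul_zero]

lemma u_lo (x : T) : Ds.u p x lo = 0 := H.at_lo (Ds.isJet_Φ p).toH x
lemma u_hi (x : T) : Ds.u p x hi = 0 := H.at_hi (Ds.isJet_Φ p).toH x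

namespace Good

variable {Ds p} (g : Ds.Good p)
include g

lemma avg_At_u : avg (Ds.At p * Ds.u p) = 0 := by
  have hn := Ds.n_pos
  have e1 : Ds.aa1 p = Ds.T1 p + p.1 • (ι p.2.2.1 * cx (2 * Ds.n)) := by simp [aa1, T1, TP]
  have e2 : avg (Ds.T1 p * (ι s1 * cx (2 * Ds.n))) = 0 := by
    rw [mul_left_comm, avg_ι_mul, mul_comm _ (cx _), ← cm_apply, T1,
      Ds.cm_TP Ds.α1_neg (fun _ => Ds.α1_off), Ds.ah_of_ne _ _ _ (by omega) (by omega),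
      Ds.α1_off Ds.m2]
    simp
  have h := g.hq
  rw [qq, ← T1] at h
  rw [At, u_eq, ← s1_ψ, e1, smul_mul_assoc, map_smul, add_mul, mul_add, map_add, map_add, e2,
    smul_mul_assoc, map_smul, mul_assoc, avg_ι_mul, ← cm_apply, map_add, cm_ι_mul, cm2_cx, map_smul,
    cm_ι_mul, mul_smul_comm, map_smul, mul_left_comm, avg_ι_mul]
  ext t
  have := congrArg (fun y : D0 => y t) h
  simp at this ⊢
  linear_combination (p.1 * p.1 * sin t / 2) * this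

lemma divform : (Ds.d p • (-(Ds.Ax p * Ds.Ai p * Ds.Ai p) * Ds.ux p + Ds.Ai p * Ds.uxx p))
    + (Ds.At p * Ds.ut p + Ds.A p * Ds.utt p) = -((5:ℝ) • (Ds.c p * Ds.u p)) := by
  have h := g.eqn'
  simp only [Q, Algebra.smul_def] at h ⊢
  linear_combination h

lemma hW1 : Dx (Ds.d p • (Ds.Ai p * Ds.ux p))
    (Ds.d p • (-(Ds.Ax p * Ds.Ai p * Ds.Ai p) * Ds.ux p + Ds.Ai p * Ds.uxx p)) :=
  (((Ds.hAx p).inv g.hA).mul (Ds.huxx p)).smul _

lemma avg_A_u : avg (Ds.A p * Ds.u p) = 0 := by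
  have h1 := ((Ds.hAt p).mul (Ds.hut p)).avg
  have h2 := ((Ds.hAt p).mul (Ds.hutt p)).avg
  rw [map_add, g.avg_At_u, zero_add] at h1
  have h3 := congrArg avg g.divform
  rw [map_add, g.hW1.avg_eq, zero_add, c, add_mul, smul_mul_assoc, map_neg, map_smul, map_add avg (Ds.A p * _),
    map_smul, g.avg_At_u, smul_zero, add_zero, ← neg_smul] at h3
  rw [h3] at h2
  obtain ⟨G⟩ := gr_zero (m := -5) (by norm_num) (by norm_num) (by norm_num)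
  exact G.uniq h1 h2 (avg_eq_zero_at _ fun x => by simp [Ds.u_lo p x])
    (avg_eq_zero_at _ fun x => by simp [Ds.u_hi p x]) (by simp)

lemma avg_c_u : avg (Ds.c p * Ds.u p) = 0 := by
  rw [c, add_mul, smul_mul_assoc, map_add, map_smul, g.avg_At_u, g.avg_A_u]; simp

lemma avg_Z : avg (Ds.Z p) = 0 := by
  have h := D1.unique pi_pos (g.hct.mul (Ds.hut p)).avg (by rw [g.avg_c_u]; exact D1_zero)
  rw [Z, map_add, h, map_smul, g.avg_c_u]; simp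

lemma hZ : Dt (Ds.Z p) (Ds.Zt p) :=
  ((g.hctt.mul (Ds.hut p)).add (g.hct.mul (Ds.hutt p))).add ((g.hct.mul (Ds.hut p)).smul b)

lemma hX1x : Dx (Ds.X1 p) (Ds.X1x p) :=
  ((((Ds.hcX p).inv g.hc).mul (Dx_ι om)).mul (Dx_Pz g.avg_Z)).neg.congr' (by rw [X1x]; ring)

lemma hX1t : Dt (Ds.X1 p) (Ds.X1t p) :=
  (((g.hct.inv g.hc).mul (Dt_ι D1_om)).mul g.hZ.Pz).neg.congr' (by
    simp only [X1t, map_neg, map_smul, Algebra.smul_def, map_mul]
    rw [ι.commutes]; ring)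

/-- the geometry -/
def geo : Geo where
  d := Ds.d p
  A := Ds.A p
  Ax := Ds.Ax p
  At := Ds.At p
  Ai := Ds.Ai p
  X1 := Ds.X1 p
  X1x := Ds.X1x p
  X1t := Ds.X1t p
  φ0 := (Ds.isJet_Φ p).toH
  d_pos := g.d_pos
  hAx := Ds.hAx p
  hAt := Ds.hAt p
  hAi := g.hA
  hX1x := g.hX1x
  hX1t := g.hX1t

lemma μX1 : g.geo.μ * g.geo.X1 = -(ι (ex b) * Pz (Ds.Z p)) := by
  have e : ι (ex (2 * b)) * ι om = ι (ex b) := by
    rw [← map_mul, om, ex_mul]; congr 2; ring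
  change Ds.c p * ι (ex (2 * b)) * -(Ds.ci p * ι om * Pz (Ds.Z p)) = _
  linear_combination (-(ι (ex (2 * b)) * ι om * Pz (Ds.Z p))) * g.hc - Pz (Ds.Z p) * e

lemma μX2 : g.geo.μ * g.geo.X2 = ι (ex b) * (Ds.c p * Ds.u p) := by
  have e : ι (ex (2 * b)) * ι om = ι (ex b) := by
    rw [← map_mul, om, ex_mul]; congr 2; ring
  change Ds.c p * ι (ex (2 * b)) * (ι om * Ds.u p) = _
  linear_combination (Ds.c p * Ds.u p) * e

lemma hM1 : Dx (g.geo.μ * g.geo.X1) (-(ι (ex b) * Ds.Z p)) := by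
  rw [μX1]; exact ((Dx_ι _).mul (Dx_Pz g.avg_Z)).neg.congr' (by simp)

lemma hM2 : Dt (g.geo.μ * g.geo.X2) (ι (ex b) * Ds.Z p) := by
  rw [μX2]
  exact ((Dt_ι (D1_ex b)).mul (g.hct.mul (Ds.hut p))).congr' (by
    simp only [Z, map_smul, Algebra.smul_def, map_mul]
    rw [ι.commutes]; ring)

lemma exact : g.geo.Exact where
  A_pos := g.A_pos
  c_pos := g.c_pos
  avgA := by
    change avg (1 + p.1 • Ds.aa p) = 1
    rw [map_add, map_smul, aa, avg_TP]; simp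
  divX := ⟨_, _, g.hM1, g.hM2, neg_add_cancel _⟩
  ker v := by
    have h1 := (g.hW1.mul (H.dx v)).II_eq
    have h2 := (((Ds.hAt p).mul (Ds.hutt p)).mul (H.dt v)).II_eq (fun x => by simp [H.at_lo])
      (fun x => by simp [H.at_hi])
    have h3 := g.divform
    rw [← add_zero (0:ℝ)]
    nth_rewrite 1 [← h1]
    rw [← h2, ← map_add, Geo.B]
    congr 1
    change Ds.d p • (Ds.Ai p * Ds.ux p * H.fx v) + Ds.A p * Ds.ut p * H.ft v
      - (5:ℝ) • (Ds.c p * Ds.u p * H.f v) = _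
    simp only [Algebra.smul_def] at h3 ⊢
    linear_combination (-H.f v) * h3
  avg0 := g.avg_c_u

lemma Sd_q {m : ℕ} (h : St m (Ds.ut p)) : Sd m p.2.2.1 := by
  have h1 : St m (Ec 0 (Ds.Yt p.2.1).2.2.2.1) := by
    have := (h.add ((St_ι (Sd_sn_cs 1 m).2).mul (St_of_const (Dt_cx (2 * Ds.n)) m)).neg).smul p.1⁻¹
    rwa [ut_eq, ← c1, add_neg_cancel_comm, smul_smul, inv_mul_cancel₀ g.η_ne, one_smul] at this
  have h2 : ∀ k, Sd m (cm k (Ds.ψ p.2.1)) := fun k => by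
    have : cm k (Ds.ψ p.2.1) = ri * Hd 0 (cm k (Ec 0 (Ds.Yt p.2.1).2.2.2.1)) := by
      rw [ψ_eq, cm_ι_mul, cm_apply, cm_apply, ← avg_lift2]
      congr 2
      ext1 x
      induction x using QuotientAddGroup.induction_on with
      | H x => simp only [C2.mul_apply, lift2_apply, cx_coe, ← Algebra.smul_def, map_smul]
    rw [this]
    exact (Sd_ri m).mul (Sd_Hd m 0 (h1.cm k))
  have h3 : Sd m (avg (Ds.T1 p * Ds.ψ p.2.1)) := by
    simp only [T1, TP, map_zero, zero_mul, add_zero, Finset.sum_mul, map_sum, mul_assoc, avg_ι_mul,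
      ← cm_apply]
    exact Sd.sum _ fun k _ => (Ds.Sd_a1 m _ k).mul (h2 k)
  rw [g.q_eq]
  exact (h3.smul _).mul (((by simpa using Sd_const 1 m : Sd m (1:D0)).add
    ((h2 _).smul _)).inv g.hP)

lemma boot : ∀ m : ℕ, ∀ j, Sf j m (Ds.u p) ∧ Sf j m (Ds.ut p)
  | 0, j => ⟨(Sf_Ec_Es _ j 0).1, (Sf_Ec_Es _ j 0).1⟩
  | m + 1, j => by
    have ih := boot m
    have hq := g.Sd_q (ih 0).2
    have hA : ∀ j, Sf j m (Ds.A p) := fun j =>
      (by simpa using Sf_ι (Sd_const 1 m) j : Sf j m 1).add ((Ds.Sf_TP (Ds.Sd_a0 m _)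
        ((Sd.mono ⟨_, D1_V _, hq⟩).smul _)).smul _)
    have hAt : Sf j m (Ds.At p) := (Ds.Sf_TP (Ds.Sd_a1 m _) (hq.smul _)).smul _
    have hAi := (hA j).inv g.hA
    have hx : ∀ j, Sf j m (Ds.ux p) := fun j => (ih (j + 1)).1.dx (Ds.hux p)
    have hQ : Sf j m (Ds.Q p) := ((hAt.mul (ih j).2).add (((hAi.mul ((hx (j + 1)).dx
      (Ds.huxx p))).add (((((hA (j + 1)).dx (Ds.hAx p)).mul hAi).mul hAi).mul (hx j)).neg).smul
      _)).add ((((hA j).add (hAt.smul _)).mul (ih j).1).smul _) |> fun h => by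
        simpa only [Q, sub_eq_add_neg, c] using h
    have htt : Sf j m (Ds.utt p) := g.utt_eq' ▸ (hAi.mul hQ).neg
    exact ⟨Sf.up (Sf_Ec_Es _ j 0).1 (Ds.hut p) (ih j).2,
      Sf.up (Sf_Ec_Es _ j 0).1 (Ds.hutt p) htt⟩

lemma smooth : g.geo.Smooth := by
  have hq : ∀ m, Sd m p.2.2.1 := fun m => g.Sd_q (g.boot m 0).2
  refine ⟨?_, Ds.smooth_TP (fun k m => Ds.Sd_a1 m _ k) (fun m => (hq m).smul _) _⟩
  have h := (contDiffOn_const (c := (1:ℝ))).add (Ds.smooth_TP (fun k m => Ds.Sd_a0 m p.2.2.2.1 k)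
    (fun m => (Sd.mono ⟨_, D1_V _, hq m⟩).smul p.1) p.1)
  exact h.congr (fun x _ => rfl)

lemma avgT : avg g.geo.Ttt = 0 := by
  have h1 := ((Ds.hAx p).mul g.hX1x).avg_eq
  have h2 := D1.unique pi_pos ((Ds.hAt p).mul (Ds.hut p)).avg (by rw [g.avg_A_u]; exact D1_zero)
  rw [map_add, g.avg_At_u, zero_add] at h2
  change avg (Ds.Ax p * Ds.X1 p + Ds.A p * Ds.X1x p + Ds.At p * (ι om * Ds.u p)
    - Ds.A p * (ι om * (Ds.ut p - b • Ds.u p))) = 0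
  rw [map_sub, map_add, h1, mul_left_comm, avg_ι_mul, g.avg_At_u, mul_left_comm, avg_ι_mul, mul_sub,
    mul_smul_comm, map_sub, map_smul, h2, g.avg_A_u]
  simp

lemma I_eq : g.geo.I g.geo.φ0 g.geo.φ0
    = -(10 * b) * II (ι om * Ds.c p * (Ds.u p * Ds.u p * Ds.u p)) := by
  have h := g.geo.ident g.geo.φ0 (Ds.huxx p) (Ds.huxt p) (Ds.hutx p) (Ds.hutt p) g.hW1
    ((Ds.hAt p).mul (Ds.hutt p))
  have e3 : H.fx g.geo.φ0 = Ds.ux p := rfl
  have e4 : H.ft g.geo.φ0 = Ds.ut p := rfl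
  rw [e3, e4, g.divform] at h
  have hx := (g.hM1.mul (((Dx_ι (om * om)).mul (Ds.hux p)).mul (Ds.hux p))).II_eq
  have ht := (g.hM2.mul (((Dt_ι (D1_om.mul D1_om)).mul (Ds.hut p)).mul (Ds.hut p))).II_eq
    (fun x => by simp [Geo.X2_lo]) (fun x => by simp [Geo.X2_hi])
  have e : ι (ex (2 * b)) * ι om * ι om = 1 := by
    rw [← map_mul, ← map_mul, om, ex_mul, ex_mul, show 2 * b + -b + -b = 0 by ring]; simp
  have key : ∀ A B C E : C2, A = b • ((-5:ℝ) • B) + (-5/2 : ℝ) • (C + E) → II C = 0 → II E = 0 →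
      2 * II A = -(10 * b) * II B := by
    intro A B C E e hC hE
    rw [e, map_add, map_smul, map_smul, map_smul, map_add, hC, hE]; simp; ring
  rw [← h]
  refine key _ _ _ _ ?_ hx ht
  have e1 : g.geo.μ = Ds.c p * ι (ex (2 * b)) := rfl
  have e2 : g.geo.X2 = ι om * Ds.u p := rfl
  have e5 : algebraMap ℝ C2 (-5/2) * 2 = -5 := by
    rw [← map_ofNat (algebraMap ℝ C2) 2, ← map_mul, ← map_ofNat (algebraMap ℝ C2) 5, ← map_neg]
    norm_num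
  rw [e1, e2]
  simp only [map_add, map_mul, map_neg, map_smul, Algebra.smul_def, map_ofNat, ι.commutes]
  linear_combination (-(Ds.c p * Ds.u p * (g.geo.X1 * Ds.ux p + ι om * Ds.u p * Ds.ut p
    - algebraMap ℝ C2 b * ι om * Ds.u p * Ds.u p))) * (e5 + 2 * algebraMap ℝ C2 (-5/2) * e)

end Good

end Des

end

end Pool.Agent.P.MP_0d657e_an
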