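import Pool.Agent.P.MP_0d657e_an.C6

/-! The first order terms of the kernel element and of the tensor. -/

open Set Real

namespace Pool.Agent.P.MP_0d657e_an

noncomputable section

namespace Des

variable (Ds : Des)

/-- first order kernel element -/
def U0 : C2 := Ec 0 (Ds.Yt Ds.f0).1
/-- derivative -/
def U0x : C2 := -Es 1 (Ds.Yt Ds.f0).1
/-- derivative -/
def U0t : C2 := Ec 0 (Ds.Yt Ds.f0).2.2.2.1
/-- derivative -/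
def U0tt : C2 := Ec 0 (Ds.Yt Ds.f0).2.2.2.2

lemma ah_zero (y : ℤ → D0) (z : D0) (k : ℤ) : Ds.ah y z 0 k = (1/2 : ℝ) • y k := by simp [ah]

lemma cm_U0 (k : ℤ) : cm k Ds.U0 = (1/2 : ℝ) • Ds.φ k := by
  have hn := Ds.n_pos
  have hJ := Ds.isJet_Yt Ds.f0
  have h := congrArg (cm k) (Ds.L0_Yt (f := Ds.f0) (by simp [f0, l1_NN0]) (by simp [f0, l2_NN0]))
  have hx := (Dx_Ec 0 (Ds.Yt Ds.f0).1).sm_eq k
  have hxx := (Dx_Es 1 (Ds.Yt Ds.f0).1).neg.cm_eq k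
  rw [map_add, map_add, map_smul, map_smul, hxx, hx, f0, map_neg, map_neg, cm_NN0, ← f0] at h
  simp only [ah_zero, Rr_half] at h
  have ho := Ds.ode k
  refine sub_eq_zero.1 ((gr hn k).uniq (((hJ.dtc 0).cm k).sub ((Ds.hφ k).smul _))
    ((((hJ.dttc 0).cm k).sub ((Ds.hφ1 k).smul (1/2 : ℝ))).congr' ?_) ?_ ?_ ?_)
  · ext t
    have h' := congrArg (fun y : D0 => y t) h
    have ho' := congrArg (fun y : D0 => y t) ho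
    simp only [κ, d0, U0, D.add_apply, D.smul_apply, D.neg_apply, D.sub_apply, div_pow,
      mul_zero, zero_mul, zero_add] at h' ho' ⊢
    linear_combination (-1) * h' + (1/2) * ho'
  · simp [Ds.φ_lo, cm_eq_zero_at k lo (H.at_lo hJ.toH), U0, ← hJ.f_toH, -IsJet.f_toH]
  · simp [Ds.φ_hi, cm_eq_zero_at k hi (H.at_hi hJ.toH), U0, ← hJ.f_toH, -IsJet.f_toH]
  · have h1 := orth_GG hn Ds.f0 k
    have hp := pi_pos
    simp only [U0, Yt, sj, Prod.fst_add, Prod.smul_fst, map_add, map_smul, Ec_sing, add_mul,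
      sub_mul, map_sub, h1, pow_zero, one_smul, cm_ι_mul, cm_cx, smul_mul_assoc]
    unfold pm
    split_ifs with a1 a2 a3 a4 a5 a6 a7 a8 a9 a10 <;> try omega
    · rw [show k = -Ds.n by omega, Ds.φ_neg]; simp [J_s2_s2, cr]; field_simp; ring
    · rw [show k = Ds.n by omega]; simp [J_s2_s2, cr]; field_simp; ring
    · rcases ‹k = 2 * _ ∨ _› with e | e <;> simp [e, Ds.φ_neg, Ds.φ_2n]
    · simp

lemma cm_U0t (k : ℤ) : cm k Ds.U0t = (1/2 : ℝ) • Ds.φ1 k :=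
  D1.unique pi_pos (((Ds.isJet_Yt Ds.f0).dtc 0).cm k) (by
    rw [← U0, cm_U0]; exact (Ds.hφ k).smul _)

lemma cm_U0tt (k : ℤ) : cm k Ds.U0tt = (1/2 : ℝ) • Ds.φ2 k :=
  D1.unique pi_pos (((Ds.isJet_Yt Ds.f0).dttc 0).cm k) (by
    rw [← U0t, cm_U0t]; exact (Ds.hφ1 k).smul _)

lemma sm_U0x (k : ℤ) : sm k Ds.U0x = -((k:ℝ) • (1/2 : ℝ) • Ds.φ k) := by
  rw [← cm_U0]; exact (Dx_Ec 0 (Ds.Yt Ds.f0).1).sm_eq k

/-- first order variation of `A` -/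
def a0 : C2 := Ds.TP (Ds.ah Ds.α c1 0) 0
/-- derivative -/
def a0x : C2 := Ds.TPx (Ds.ah Ds.α c1 0) 0
/-- derivative -/
def a1 : C2 := Ds.TP (Ds.ah Ds.α1 (-s1) 0) 0
/-- derivative -/
def a1x : C2 := Ds.TPx (Ds.ah Ds.α1 (-s1) 0) 0
/-- derivative -/
def a2 : C2 := Ds.TP (Ds.ah Ds.α2 (-c1) 0) 0
/-- derivative -/
def a3 : C2 := Ds.TP (Ds.ah Ds.α3 s1 0) 0

lemma cm_a0 (m : ℤ) : cm m Ds.a0 = (1/2 : ℝ) • Ds.α m := by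
  rw [a0, Ds.cm_TP Ds.α_neg Ds.α_off, ah_zero]; simp
lemma cm_a1 (m : ℤ) : cm m Ds.a1 = (1/2 : ℝ) • Ds.α1 m := by
  rw [a1, Ds.cm_TP Ds.α1_neg (fun _ => Ds.α1_off), ah_zero]; simp
lemma cm_a2 (m : ℤ) : cm m Ds.a2 = (1/2 : ℝ) • Ds.α2 m := by
  rw [a2, Ds.cm_TP Ds.α2_neg (fun _ => Ds.α2_off), ah_zero]; simp
lemma cm_a3 (m : ℤ) : cm m Ds.a3 = (1/2 : ℝ) • Ds.α3 m := by
  rw [a3, Ds.cm_TP Ds.α3_neg (fun _ => Ds.α3_off), ah_zero]; simp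
lemma sm_a1x (m : ℤ) : sm m Ds.a1x = -((m:ℝ) • (1/2 : ℝ) • Ds.α1 m) := by
  rw [← cm_a1]; exact (Ds.Dx_TP _ _).sm_eq m

/-- first order tensor -/
def T1tt : C2 := ι om * ((b * (2 * Ds.n))⁻¹ • (Ds.a1x * (ι (c1 + b • s1) * sx (2 * Ds.n)))
  - (2:ℝ) • (Ds.a0 * (ι c1 * cx (2 * Ds.n))) - b⁻¹ • (Ds.a2 * (ι s1 * cx (2 * Ds.n)))
  - (2:ℝ) • Ds.U0t)
/-- auxiliary function -/
def W1 : C2 := (6:ℝ) • ((Ds.a0 + b⁻¹ • Ds.a1) * (ι s1 * cx (2 * Ds.n))) + (5:ℝ) • Ds.U0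
  - (Ds.a2 + b⁻¹ • Ds.a3) * (ι s1 * cx (2 * Ds.n))
  - (2:ℝ) • ((Ds.a1 + b⁻¹ • Ds.a2) * (ι c1 * cx (2 * Ds.n))) - Ds.U0tt
/-- first order tensor -/
def T1xt : C2 := ι om * ((3 / (b * Ds.n)) • (Ds.a1 * (ι s1 * sx (2 * Ds.n)))
  - (2 * Ds.n : ℝ)⁻¹ • ((Ds.a1 + b⁻¹ • Ds.a2) * (ι (c1 + b • s1) * sx (2 * Ds.n)))
  - Pz Ds.W1 - (2 / Ds.n : ℝ) • (Ds.a0 * (ι s1 * sx (2 * Ds.n))) - Ds.d0 • Ds.U0x)

lemma sub_2n {y : ℤ → D0} (hy : ∀ k, y (-k) = y k) (k : ℤ) : y (k - 2 * Ds.n) = y (2 * Ds.n - k) := by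
  rw [← hy, neg_sub]

lemma cm_T1tt (k : ℤ) : cm k Ds.T1tt = (1/2 : ℝ) • (om * (Ds.τ k + Ds.τ (-k))) := by
  simp only [T1tt, cm_ι_mul, map_sub, map_smul, cm_cc', cm_cs', cm_a0, cm_a2, sm_a1x, cm_U0t,
    Ds.sub_2n Ds.α_neg, Ds.sub_2n Ds.α1_neg, Ds.sub_2n Ds.α2_neg, τ, tE, sub_neg_eq_add,
    add_comm k, Ds.φ1_neg, κ]
  ext t
  have := Ds.n_ne
  have := b_pos.ne'
  simp
  field_simp
  ring

lemma sm_T1xt {k : ℤ} (hk : k ≠ 0) :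
    (k:ℝ) • sm k Ds.T1xt = -((1/2 : ℝ) • (om * (Ds.τ' k + Ds.τ' (-k)))) := by
  have ho := Ds.ode k
  rw [T1xt, sm_ι_mul, ← mul_smul_comm]
  simp only [map_sub, smul_sub, sm_Pz hk]
  simp only [W1, map_sub (cm _), map_add (cm _), map_smul, cm_cc', sm_cs', cm_a0, cm_a1, cm_a2, cm_a3, cm_U0,
    cm_U0tt, sm_U0x, Ds.sub_2n Ds.α_neg, Ds.sub_2n Ds.α1_neg, Ds.sub_2n Ds.α2_neg,
    Ds.sub_2n Ds.α3_neg, τ', tE', sub_neg_eq_add, add_comm k, Ds.φ2_neg, κ, d0]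
  ext t
  have ho' := congrArg (fun y : D0 => y t) ho
  have := Ds.n_ne
  have hb0 := b_pos.ne'
  have hb := b_sq
  have hb1 : b⁻¹ = b / 5 := by field_simp; linarith
  simp [Rr, div_eq_mul_inv, hb1] at ho' ⊢
  linear_combination (-(1/2) * exp (-(b * t))) * ho' + exp (-(b * t)) * (k * (Ds.n:ℝ)⁻¹ * cos t
    * (Ds.α1 (2 * Ds.n - k) t - Ds.α1 (2 * Ds.n + k) t) / 40
    - (sin t * (Ds.α2 (2 * Ds.n - k) t + Ds.α2 (2 * Ds.n + k) t)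
      + cos t * (Ds.α1 (2 * Ds.n - k) t + Ds.α1 (2 * Ds.n + k) t)) / 20) * hb

/-- the first order data -/
def first : Ds.First where
  φt := (Ds.isJet_Yt Ds.f0).toH
  T1tt := Ds.T1tt
  T1xt := Ds.T1xt
  φt_2n := (Ds.cm_U0 _).trans (by simp [Ds.φ_2n])
  tt_K k _ := Ds.cm_T1tt k
  xt_K k hk := Ds.sm_T1xt (fun h => Ds.m0 (h ▸ hk))
  tt_2n := by
    have : Ds.φ1 (2 * Ds.n) = 0 := D1.unique pi_pos (Ds.hφ _) (by rw [Ds.φ_2n]; exact D1_zero)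
    rw [cm_T1tt, τ, τ, Ds.φ1_neg, this, sub_self, sub_neg_eq_add,
      show (2 * Ds.n + 2 * Ds.n : ℤ) = 4 * Ds.n by ring]
    simp [tE, Ds.α_off _ Ds.m0, Ds.α_off _ Ds.m4, Ds.α1_off Ds.m0, Ds.α1_off Ds.m4,
      Ds.α2_off Ds.m0, Ds.α2_off Ds.m4]
  xt_2n := by
    have hn := Ds.n_pos
    have h1 : Ds.φ1 (2 * Ds.n) = 0 := D1.unique pi_pos (Ds.hφ _) (by rw [Ds.φ_2n]; exact D1_zero)
    have h2 : Ds.φ2 (2 * Ds.n) = 0 := D1.unique pi_pos (Ds.hφ1 _) (by rw [h1]; exact D1_zero)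
    have h := Ds.sm_T1xt (k := 2 * Ds.n) (by omega)
    rw [τ', τ', Ds.φ2_neg, h2, sub_self, sub_neg_eq_add,
      show (2 * Ds.n + 2 * Ds.n : ℤ) = 4 * Ds.n by ring] at h
    simpa [tE', Ds.α_off _ Ds.m0, Ds.α_off _ Ds.m4, Ds.α1_off Ds.m0, Ds.α1_off Ds.m4,
      Ds.α2_off Ds.m0, Ds.α2_off Ds.m4, Ds.α3_off Ds.m0, Ds.α3_off Ds.m4, hn.ne'] using h

lemma q0_eq : Ds.qq 0 Ds.f0 0 0 = b • (om * Ds.g2) := by
  refine sub_eq_zero.1 (s1_cancel ?_)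
  have h := Ds.g2_eq
  have e : s1 * avg (Ds.a1 * Ds.ψ Ds.f0) = ∑ k ∈ Ds.K, (1/4 : ℝ) • (Ds.α1 k * Ds.φ k) := by
    rw [← avg_ι_mul, mul_left_comm, s1_ψ, ← U0]
    simp only [a1, TP, map_zero, zero_mul, add_zero, Finset.sum_mul, map_sum, mul_assoc, avg_ι_mul,
      ← cm_apply, cm_U0, ah_zero, smul_mul_smul_comm]
    norm_num
  have e2 : b • (om * ∑ k ∈ Ds.K, b⁻¹ • (ex b * Ds.α1 k) * Ds.φ k)
      = (4:ℝ) • ∑ k ∈ Ds.K, (1/4 : ℝ) • (Ds.α1 k * Ds.φ k) := by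
    simp only [Finset.mul_sum, Finset.smul_sum, smul_mul_assoc, mul_smul_comm, smul_smul,
      ← mul_assoc, om_mul_ex, mul_inv_cancel₀ b_pos.ne']
    norm_num
  rw [qq, ← a1, mul_zero, zero_smul, sub_zero, mul_sub, mul_smul_comm, e]
  have h2 := congrArg (fun y => b • (om * y)) h
  simp only [mul_neg, smul_neg, e2] at h2
  ext t
  have := congrArg (fun y : D0 => y t) h2
  simp only [D.smul_apply, D.mul_apply, D.neg_apply, D.sub_apply, D.ofNat_apply,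
    D.zero_apply] at this ⊢
  linear_combination (-1/2) * this

end Des

end

end Pool.Agent.P.MP_0d657e_an
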