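import Pool.Agent.P.MP_0d657e_an.Ocalc

/-! Expansions to order zero with a first order remainder, and bounded families. -/

open Asymptotics Filter Topology

namespace Pool.Agent.P.MP_0d657e_an

section

variable {X : Type*} {l : Filter X} {η : X → ℝ}
variable {E F G : Type*} [NormedAddCommGroup E] [NormedSpace ℝ E] [NormedAddCommGroup F]
  [NormedSpace ℝ F] [NormedAddCommGroup G] [NormedSpace ℝ G]

variable (l) in
/-- bounded families -/
def Bd (f : X → E) : Prop := f =O[l] fun _ => (1:ℝ)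

namespace Bd
variable {f f' : X → E} {g : X → F}
omit [NormedSpace ℝ E] in
lemma const (a : E) : Bd l fun _ => a := isBigO_const_const a one_ne_zero l
omit [NormedSpace ℝ E] in
lemma add (h : Bd l f) (h' : Bd l f') : Bd l fun i => f i + f' i := IsBigO.add h h'
omit [NormedSpace ℝ E] in
lemma sub (h : Bd l f) (h' : Bd l f') : Bd l fun i => f i - f' i := IsBigO.sub h h'
lemma clm (L : E →L[ℝ] F) (h : Bd l f) : Bd l fun i => L (f i) := O_clm L h
lemma bilin (B : E →L[ℝ] F →L[ℝ] G) (h : Bd l f) (k : Bd l g) : Bd l fun i => B (f i) (g i) :=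
  (O_bilin B h k).congr_right (fun _ => mul_one _)
lemma smul {c : X → ℝ} (k : Bd l c) (h : Bd l f) : Bd l fun i => c i • f i :=
  bilin (ContinuousLinearMap.lsmul ℝ ℝ) k h
lemma csmul (c : ℝ) (h : Bd l f) : Bd l fun i => c • f i := (const c).smul h
lemma mul {R : Type*} [NormedRing R] [NormedAlgebra ℝ R] {f g : X → R} (h : Bd l f) (k : Bd l g) :
    Bd l fun i => f i * g i := bilin (ContinuousLinearMap.mul ℝ R) h k
lemma eta_smul (h : Bd l f) : (fun i => η i • f i) =O[l] η := by
  simpa using (isBigO_refl η l).smul h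
end Bd

variable (l η) in
/-- expansion to order zero -/
def Ex1 (f : X → E) (f0 : E) : Prop := (fun i => f i - f0) =O[l] η

lemma Ex2.ex1 (hη : Tendsto η l (𝓝 0)) {f : X → E} {f0 f1 : E} (h : Ex2 l η f f0 f1) :
    Ex1 l η f f0 := h.O1 hη

namespace Ex1

variable {f f' : X → E} {f0 f0' : E} {g : X → F} {g0 : F}

omit [NormedSpace ℝ E] in
lemma const (a : E) : Ex1 l η (fun _ => a) a := by simpa [Ex1] using isBigO_zero _ _

omit [NormedSpace ℝ E] in
lemma congr (h : Ex1 l η f f0) (e : ∀ i, f' i = f i) (e0 : f0' = f0) : Ex1 l η f' f0' := by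
  rw [funext e, e0]; exact h

omit [NormedSpace ℝ E] in
lemma add (h : Ex1 l η f f0) (h' : Ex1 l η f' f0') : Ex1 l η (fun i => f i + f' i) (f0 + f0') :=
  (IsBigO.add h h').congr_left fun i => by simp only; abel

omit [NormedSpace ℝ E] in
lemma sub (h : Ex1 l η f f0) (h' : Ex1 l η f' f0') : Ex1 l η (fun i => f i - f' i) (f0 - f0') :=
  (IsBigO.sub h h').congr_left fun i => by simp only; abel

omit [NormedSpace ℝ E] in
lemma neg (h : Ex1 l η f f0) : Ex1 l η (fun i => -f i) (-f0) :=
  (IsBigO.neg_left h).congr_left fun i => by simp only; abel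

lemma clm (L : E →L[ℝ] F) (h : Ex1 l η f f0) : Ex1 l η (fun i => L (f i)) (L f0) :=
  (O_clm L h).congr_left fun i => by simp

lemma csmul (c : ℝ) (h : Ex1 l η f f0) : Ex1 l η (fun i => c • f i) (c • f0) :=
  h.clm (c • ContinuousLinearMap.id ℝ E)

omit [NormedSpace ℝ E] in
lemma sum {α : Type*} (s : Finset α) {f : α → X → E} {f0 : α → E}
    (h : ∀ a ∈ s, Ex1 l η (f a) (f0 a)) :
    Ex1 l η (fun i => ∑ a ∈ s, f a i) (∑ a ∈ s, f0 a) :=
  (IsBigO.sum h).congr_left fun i => by simp only [Finset.sum_apply, Finset.sum_sub_distrib]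

omit [NormedSpace ℝ E] in
lemma of_O (h : f =O[l] η) : Ex1 l η f 0 := by simpa [Ex1] using h

lemma ex2 (h : Ex1 l η f f0) : Ex2 l η (fun i => η i • f i) 0 f0 := Ex2.of_O1 h

variable (hη : Tendsto η l (𝓝 0))
include hη

omit [NormedSpace ℝ E] in
lemma bd (h : Ex1 l η f f0) : Bd l f :=
  ((IsBigO.trans h (η_O_one hη)).add (isBigO_const_const f0 one_ne_zero l)).congr_left
    fun i => by abel

lemma bilin (B : E →L[ℝ] F →L[ℝ] G) (h : Ex1 l η f f0) (k : Ex1 l η g g0) :
    Ex1 l η (fun i => B (f i) (g i)) (B f0 g0) := by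
  have h1 := O_bilin B h (k.bd hη)
  have h2 := O_bilin B (Bd.const f0) k
  simp only [mul_one, one_mul] at h1 h2
  exact (h1.add h2).congr_left fun i => by simp

lemma smul {c : X → ℝ} {c0 : ℝ} (k : Ex1 l η c c0) (h : Ex1 l η f f0) :
    Ex1 l η (fun i => c i • f i) (c0 • f0) := bilin hη (ContinuousLinearMap.lsmul ℝ ℝ) k h

lemma mul {R : Type*} [NormedRing R] [NormedAlgebra ℝ R] {f g : X → R} {f0 g0 : R}
    (h : Ex1 l η f f0) (k : Ex1 l η g g0) : Ex1 l η (fun i => f i * g i) (f0 * g0) :=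
  bilin hη (ContinuousLinearMap.mul ℝ R) h k

lemma ev_inv {R : Type*} [NormedCommRing R] [CompleteSpace R] {f : X → R} (h : Ex1 l η f 1) :
    ∀ᶠ i in l, ‖f i - 1‖ < 1 ∧ f i * Ring.inverse (f i) = 1 := by
  have h1 := (IsBigO.trans_tendsto h hη).norm
  rw [norm_zero] at h1
  filter_upwards [h1.eventually (gt_mem_nhds one_pos)] with i hi
  refine ⟨hi, Ring.mul_inverse_cancel _ ?_⟩
  have := isUnit_one_sub_of_norm_lt_one (x := 1 - f i) (by rwa [norm_sub_rev])
  rwa [sub_sub_cancel] at this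

lemma inv {R : Type*} [NormedCommRing R] [CompleteSpace R] {f : X → R} (h : Ex1 l η f 1) :
    Ex1 l η (fun i => Ring.inverse (f i)) 1 := by
  have e := (h.ev_inv hη).mono fun i hi => hi.2
  set g := fun i => Ring.inverse (f i)
  have e1 : ∀ᶠ i in l, 1 - (f i - 1) * g i = g i := e.mono fun i hi => by
    linear_combination -hi
  have h2 : (fun i => ‖g i‖) =O[l] fun _ => (1:ℝ) := by
    refine absorb (η := fun i => |η i|) (by simpa using hη.abs) (IsBigO.norm_left ?_)
    refine IsBigO.congr' (f₁ := fun i => 1 - (f i - 1) * g i) (IsBigO.sub ?_ ?_) e1 EventuallyEq.rfl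
    · exact (isBigO_const_const (1:R) (one_ne_zero (α := ℝ)) l).trans
        (O_left (isBigO_refl _ _) (fun _ => zero_le_one) (fun i => by positivity))
    · exact ((IsBigO.abs_right h).mul (isBigO_refl g l).norm_right).trans
        (O_right (isBigO_refl _ _) (fun _ => zero_le_one) (fun i => by positivity))
  have := (IsBigO.mul h h2.of_norm_left).neg_left
  simp only [mul_one] at this
  exact this.congr' (e1.mono fun i hi => by simp only; linear_combination hi) EventuallyEq.rfl

end Ex1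

end

end Pool.Agent.P.MP_0d657e_an
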