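import Pool.Agent.P.MP_0d657e_an.C7
import Pool.Agent.P.MP_0d657e_an.Ocalc2

/-! Expansions of the exact geometry. -/

open Set Real Asymptotics Filter Topology

namespace Pool.Agent.P.MP_0d657e_an

noncomputable section

/-- small positive values -/
def lp : Filter ℝ := 𝓝[>] 0
/-- the parameter -/
def idη : ℝ → ℝ := fun η => η

lemma hid : Tendsto idη lp (𝓝 0) := tendsto_nhdsWithin_of_tendsto_nhds tendsto_id

namespace Des

variable {Ds : Des}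

lemma ex_TP {y : ℤ → D0} {z : D0} {τ : ℝ → ℝ} {w : ℝ → D0} (hτ : Ex1 lp idη τ 0)
    (hw : Ex1 lp idη w 0) :
    Ex1 lp idη (fun η => Ds.TP (Ds.ah y z (τ η)) (w η)) (Ds.TP (Ds.ah y z 0) 0) :=
  (Ex1.sum _ fun k _ => (((Ex1.const _).add (hτ.smul hid (Ex1.const _))).clm ιL).mul hid
    (Ex1.const _)).add ((hw.clm ιL).mul hid (Ex1.const _))

lemma ex_TPx {y : ℤ → D0} {z : D0} {τ : ℝ → ℝ} {w : ℝ → D0} (hτ : Ex1 lp idη τ 0)
    (hw : Ex1 lp idη w 0) :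
    Ex1 lp idη (fun η => Ds.TPx (Ds.ah y z (τ η)) (w η)) (Ds.TPx (Ds.ah y z 0) 0) :=
  ((Ex1.sum _ fun k _ => ((((Ex1.const _).add (hτ.smul hid (Ex1.const _))).clm ιL).mul hid
    (Ex1.const _)).csmul _).add (((hw.clm ιL).mul hid (Ex1.const _)).csmul _)).neg

namespace Sol

variable (S : Ds.Sol)

/-- the parameters along the family -/
def p (η : ℝ) : PP := (η, S.f η, S.q η, S.τ η, S.ε η)

lemma xf : Ex1 lp idη S.f Ds.f0 := S.hf.mono nhdsWithin_le_nhds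
lemma xq : Ex1 lp idη S.q (b • (om * Ds.g2)) := Ds.q0_eq ▸ S.hq.mono nhdsWithin_le_nhds
lemma xτ : Ex1 lp idη S.τ 0 := Ex1.of_O (S.hτ.mono nhdsWithin_le_nhds)
lemma xε : Ex1 lp idη S.ε 0 := Ex1.of_O (S.hε.mono nhdsWithin_le_nhds)
lemma xη : Ex1 lp idη (fun η => η) 0 := Ex1.of_O (isBigO_refl _ _)

lemma small {E : Type*} [NormedAddCommGroup E] [NormedSpace ℝ E] {w : ℝ → E} (h : Bd lp w) :
    Ex1 lp idη (fun η => η • w η) 0 := Ex1.of_O h.eta_smul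

lemma xA : Ex2 lp idη (fun η => Ds.A (S.p η)) 1 Ds.a0 :=
  ((Ex2.const 1).add (ex_TP S.xτ (small ((S.xq.bd hid).clm V))).ex2).congr (fun _ => rfl)
    (add_zero _).symm (zero_add _).symm
lemma xAx : Ex2 lp idη (fun η => Ds.Ax (S.p η)) 0 Ds.a0x :=
  (ex_TPx S.xτ (small ((S.xq.bd hid).clm V))).ex2
lemma xAt : Ex2 lp idη (fun η => Ds.At (S.p η)) 0 Ds.a1 := (ex_TP S.xτ (small (S.xq.bd hid))).ex2
lemma xAtx : Ex2 lp idη (fun η => Ds.Atx (S.p η)) 0 Ds.a1x :=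
  (ex_TPx S.xτ (small (S.xq.bd hid))).ex2
lemma xc : Ex2 lp idη (fun η => Ds.c (S.p η)) 1 (Ds.a0 + b⁻¹ • Ds.a1) :=
  (S.xA.add (S.xAt.csmul b⁻¹)).congr (fun _ => rfl) (by simp) rfl
lemma xcX : Ex2 lp idη (fun η => Ds.cX (S.p η)) 0 (Ds.a0x + b⁻¹ • Ds.a1x) :=
  (S.xAx.add (S.xAtx.csmul b⁻¹)).congr (fun _ => rfl) (by simp) rfl
lemma xAi : Ex2 lp idη (fun η => Ds.Ai (S.p η)) 1 (-Ds.a0) :=
  S.xA.inv hid (((S.xA.ex1 hid).ev_inv hid).mono fun _ h => h.2)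
lemma xci : Ex2 lp idη (fun η => Ds.ci (S.p η)) 1 (-(Ds.a0 + b⁻¹ • Ds.a1)) :=
  S.xc.inv hid (((S.xc.ex1 hid).ev_inv hid).mono fun _ h => h.2)
lemma xd : Ex2 lp idη (fun η => Ds.d (S.p η)) Ds.d0 0 :=
  (((Ex2.const 1).add S.xε.ex2).mul hid (Ex2.const Ds.d0)).congr (fun _ => rfl) (by simp) (by simp)
lemma xYt : Ex1 lp idη (fun η => Ds.Yt (S.f η)) (Ds.Yt Ds.f0) := (Ex1.const _).add (S.xf.clm _)
lemma xΦ : Ex2 lp idη (fun η => Ds.Φ (S.p η)) Ds.e0 (Ds.Yt Ds.f0) :=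
  ((Ex2.const _).add S.xYt.ex2).congr (fun _ => rfl) (add_zero _).symm (zero_add _).symm

end Sol

/-- first component -/
def j0 : J5 →L[ℝ] AA := ContinuousLinearMap.fst ℝ _ _
/-- tail -/
def j34 : J5 →L[ℝ] AA × AA := (ContinuousLinearMap.snd ℝ _ _).comp
  ((ContinuousLinearMap.snd ℝ _ _).comp (ContinuousLinearMap.snd ℝ _ _))
/-- first derivative -/
def j3 : J5 →L[ℝ] AA := (ContinuousLinearMap.fst ℝ _ _).comp j34
/-- second derivative -/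
def j4 : J5 →L[ℝ] AA := (ContinuousLinearMap.snd ℝ _ _).comp j34

namespace Sol

variable (S : Ds.Sol)

lemma xu : Ex2 lp idη (fun η => Ds.u (S.p η)) (ι s1 * cx (2 * Ds.n)) Ds.U0 :=
  ((S.xΦ.clm j0).clm (Ec 0)).congr (fun _ => rfl) (by simp [j0, e0, sj, Ec_sing]) rfl
lemma xux : Ex2 lp idη (fun η => Ds.ux (S.p η)) (-((2 * Ds.n : ℝ) • (ι s1 * sx (2 * Ds.n))))
    Ds.U0x :=
  ((S.xΦ.clm j0).clm (Es 1)).neg.congr (fun _ => rfl) (by simp [j0, e0, sj, Es_sing]) rfl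
lemma xuxx : Ex1 lp idη (fun η => Ds.uxx (S.p η))
    (-((2 * Ds.n : ℝ) ^ 2 • (ι s1 * cx (2 * Ds.n)))) :=
  (((S.xΦ.clm j0).clm (Ec 2)).neg.ex1 hid).congr (fun _ => rfl) (by simp [j0, e0, sj, Ec_sing])
lemma xut : Ex2 lp idη (fun η => Ds.ut (S.p η)) (ι c1 * cx (2 * Ds.n)) Ds.U0t :=
  ((S.xΦ.clm j3).clm (Ec 0)).congr (fun _ => rfl) (by simp [j3, j34, e0, sj, Ec_sing]) rfl
lemma xutt : Ex2 lp idη (fun η => Ds.utt (S.p η)) (-(ι s1 * cx (2 * Ds.n))) Ds.U0tt :=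
  ((S.xΦ.clm j4).clm (Ec 0)).congr (fun _ => rfl) (by simp [j4, j34, e0, sj, Ec_sing]) rfl
lemma xuxt : Ex1 lp idη (fun η => Ds.uxt (S.p η)) (-((2 * Ds.n : ℝ) • (ι c1 * sx (2 * Ds.n)))) :=
  (((S.xΦ.clm j3).clm (Es 1)).neg.ex1 hid).congr (fun _ => rfl)
    (by simp [j3, j34, e0, sj, Es_sing])
lemma xuxxt : Ex1 lp idη (fun η => Ds.uxxt (S.p η))
    (-((2 * Ds.n : ℝ) ^ 2 • (ι c1 * cx (2 * Ds.n)))) :=
  (((S.xΦ.clm j3).clm (Ec 2)).neg.ex1 hid).congr (fun _ => rfl)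
    (by simp [j3, j34, e0, sj, Ec_sing])

lemma xY3 : Ex1 lp idη (fun η => Ec 0 (Ds.Yt (S.f η)).2.2.2.1) Ds.U0t := (S.xYt.clm j3).clm (Ec 0)
lemma xY4 : Ex1 lp idη (fun η => Ec 0 (Ds.Yt (S.f η)).2.2.2.2) Ds.U0tt := (S.xYt.clm j4).clm (Ec 0)
lemma xψ : Ex1 lp idη (fun η => Ds.ψ (S.f η)) (Ds.ψ Ds.f0) := S.xY3.clm _
lemma xψ1 : Ex1 lp idη (fun η => Ds.ψ1 (S.f η)) (Ds.ψ1 Ds.f0) :=
  ((Ex1.const _).mul hid (S.xY3.clm _)).add ((Ex1.const _).mul hid (S.xY4.clm _))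

lemma small2 {w : ℝ → D0} (h : Bd lp w) : Ex1 lp idη (fun η => (2 * η) • w η) 0 :=
  ((small h).csmul 2).congr (fun η => (smul_smul _ _ _).symm) (smul_zero _).symm

lemma xP : Ex1 lp idη (fun η => Ds.Pd (S.p η)) 1 :=
  ((Ex1.const 1).add (small2 ((S.xψ.bd hid).clm (cm (2 * Ds.n))))).congr (fun _ => rfl)
    (add_zero _).symm
lemma xPi : Ex1 lp idη (fun η => Ds.Pi (S.p η)) 1 := S.xP.inv hid
lemma xT1 : Ex1 lp idη (fun η => Ds.T1 (S.p η)) Ds.a1 := ex_TP S.xτ (Ex1.const 0)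
lemma xT2 : Ex1 lp idη (fun η => Ds.T2 (S.p η)) Ds.a2 := ex_TP S.xτ (Ex1.const 0)
lemma xT3 : Ex1 lp idη (fun η => Ds.T3 (S.p η)) Ds.a3 := ex_TP S.xτ (Ex1.const 0)

lemma xq1 : Ex1 lp idη (fun η => Ds.q1 (S.p η)) (b • (om * (Ds.g2' - b • Ds.g2))) := by
  refine ((((((S.xT2.mul hid S.xψ).add (S.xT1.mul hid S.xψ1)).clm avg).csmul (-2)).sub
    (S.xq.mul hid (small2 ((S.xψ1.bd hid).clm (cm (2 * Ds.n)))))).mul hid S.xPi).congr
    (fun _ => rfl) ?_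
  rw [mul_zero, sub_zero, mul_one]
  refine D1.unique pi_pos (y := b • (om * Ds.g2)) (((D1_om.mul Ds.hg2).smul b).congr' ?_) ?_
  · congr 1; simp only [Algebra.smul_def]; ring
  · rw [← q0_eq, qq, mul_zero, zero_smul, sub_zero]
    exact ((Ds.hT1 (0, 0, 0, 0, 0)).mul (Ds.hψ _)).avg.smul _

lemma xAtt : Ex2 lp idη (fun η => Ds.Att (S.p η)) 0 Ds.a2 :=
  (ex_TP S.xτ (small (S.xq1.bd hid))).ex2
lemma xct : Ex2 lp idη (fun η => Ds.ct (S.p η)) 0 (Ds.a1 + b⁻¹ • Ds.a2) :=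
  (S.xAt.add (S.xAtt.csmul b⁻¹)).congr (fun _ => rfl) (by simp) rfl

lemma xuttt : Ex1 lp idη (fun η => Ds.uttt (S.p η)) (-(ι c1 * cx (2 * Ds.n))) := by
  have Ai := S.xAi.ex1 hid
  have At := S.xAt.ex1 hid
  have Ax := S.xAx.ex1 hid
  have Ait := ((At.mul hid Ai).mul hid Ai).neg
  have ut := S.xut.ex1 hid
  have u := S.xu.ex1 hid
  have ux := S.xux.ex1 hid
  have d := S.xd.ex1 hid
  have c := S.xc.ex1 hid
  have Q := ((At.mul hid ut).add (d.smul hid ((Ai.mul hid S.xuxx).sub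
    (((Ax.mul hid Ai).mul hid Ai).mul hid ux)))).add ((c.mul hid u).csmul 5)
  have Qt := ((((S.xAtt.ex1 hid).mul hid ut).add (At.mul hid (S.xutt.ex1 hid))).add
    (d.smul hid (((Ait.mul hid S.xuxx).add (Ai.mul hid S.xuxxt)).sub
      (((((((S.xAtx.ex1 hid).mul hid Ai).add (Ax.mul hid Ait)).mul hid Ai).add
        ((Ax.mul hid Ai).mul hid Ait)).mul hid ux).add
        (((Ax.mul hid Ai).mul hid Ai).mul hid S.xuxt))))).add
    ((((S.xct.ex1 hid).mul hid u).add (c.mul hid ut)).csmul 5)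
  refine ((Ait.mul hid Q).add (Ai.mul hid Qt)).neg.congr (fun _ => rfl) ?_
  have := Ds.n_ne
  simp only [zero_mul, neg_zero, mul_zero, add_zero, zero_add, one_mul, sub_zero, d0]
  match_scalars
  field_simp
  ring

lemma bψ2 : Bd lp fun η => Ds.ψ2 (S.p η) := by
  have h : Bd lp fun η => η⁻¹ • (Ds.uttt (S.p η) - -(ι c1 * cx (2 * Ds.n))) :=
    ((isBigO_refl (fun η : ℝ => η⁻¹) lp).smul S.xuttt).congr' EventuallyEq.rfl (by
      filter_upwards [self_mem_nhdsWithin] with η hη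
      exact inv_mul_cancel₀ (ne_of_gt hη))
  exact (((Bd.const _).mul ((S.xY3.bd hid).clm _)).add
    (((Bd.const _).mul ((S.xY4.bd hid).clm _)).csmul _)).add ((Bd.const _).mul (h.clm _))

lemma bq2 : Bd lp fun η => Ds.q2 (S.p η) :=
  ((((((((S.xT3.mul hid S.xψ).bd hid).add (((S.xT2.mul hid S.xψ1).bd hid).csmul 2)).add
    ((S.xT1.bd hid).mul S.bψ2)).clm avg).csmul (-2)).sub (((S.xq1.mul hid
      (small2 ((S.xψ1.bd hid).clm (cm (2 * Ds.n))))).bd hid).csmul 2)).sub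
    ((S.xq.mul hid (small2 (S.bψ2.clm (cm (2 * Ds.n))))).bd hid)).mul (S.xPi.bd hid)

lemma xctt : Ex2 lp idη (fun η => Ds.ctt (S.p η)) 0 (Ds.a2 + b⁻¹ • Ds.a3) :=
  (S.xAtt.add ((ex_TP S.xτ (small S.bq2)).ex2.csmul b⁻¹)).congr (fun _ => rfl) (by simp) rfl

lemma ev_good : ∀ᶠ η in lp, Ds.Good (S.p η) := by
  have hd : ∀ᶠ η in lp, 0 < Ds.d (S.p η) := by
    have h := (IsBigO.trans_tendsto (S.xd.ex1 hid) hid).add_const Ds.d0
    simp only [sub_add_cancel, zero_add] at h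
    have := Ds.n_ne
    exact h.eventually (lt_mem_nhds (by unfold d0; positivity))
  have pos : ∀ F : C2, ‖F - 1‖ < 1 → ∀ x t, 0 < F x t := fun F h x t => by
    have := (C2_abs_le (F - 1) x t).trans_lt h
    simp only [C2.sub_apply, C2.one_apply, D.sub_apply, D.one_apply] at this
    linarith [(abs_lt.1 this).1]
  filter_upwards [S.eqs.filter_mono nhdsWithin_le_nhds, self_mem_nhdsWithin,
    (S.xA.ex1 hid).ev_inv hid, (S.xc.ex1 hid).ev_inv hid, S.xP.ev_inv hid, hd]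
    with η h1 h2 h3 h4 h5 h6
  exact ⟨ne_of_gt h2, h1.1, h1.2.1, h1.2.2.1, h1.2.2.2, h3.2, h4.2, h5.2, h6, pos _ h3.1,
    pos _ h4.1⟩

end Sol

end Des

end

end Pool.Agent.P.MP_0d657e_an
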