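import Pool.Agent.P.MP_0d657e_an.C8

/-! Existence of the exact geometry near the design. -/

open Set Real Asymptotics Filter Topology

namespace Pool.Agent.P.MP_0d657e_an

noncomputable section

namespace Des

variable {Ds : Des}

variable (Ds) in
/-- first order flux -/
def Z1 : C2 := (Ds.a1 + b⁻¹ • Ds.a2) * (ι s1 * cx (2 * Ds.n)) + Ds.U0t
  + (Ds.a0 + b⁻¹ • Ds.a1) * (ι (c1 + b • s1) * cx (2 * Ds.n)) + b • Ds.U0

lemma Pz_mode (y : D0) : Pz (ι y * cx (2 * Ds.n)) = (2 * Ds.n : ℝ)⁻¹ • (ι y * sx (2 * Ds.n)) := by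
  have := Ds.n_pos
  rw [Pz_ι_mul, Pz_cx (by omega), mul_smul_comm]; push_cast; rfl

namespace Sol

variable (S : Ds.Sol)

lemma xZ : Ex2 lp idη (fun η => Ds.Z (S.p η)) (ι (c1 + b • s1) * cx (2 * Ds.n)) Ds.Z1 :=
  (((S.xct.mul hid S.xu).add (S.xc.mul hid S.xut)).add ((S.xc.mul hid S.xu).csmul b)).congr
    (fun _ => rfl) (by simp [add_mul]) (by
      simp only [Z1, map_add, map_smul, Algebra.smul_def, map_mul, ι.commutes]; ring)

lemma xZt : Ex2 lp idη (fun η => Ds.Zt (S.p η)) (ι (-s1 + b • c1) * cx (2 * Ds.n))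
    (b • Ds.Z1 - Ds.W1) :=
  ((((S.xctt.mul hid S.xu).add (S.xct.mul hid S.xut)).add ((S.xct.mul hid S.xut).add
    (S.xc.mul hid S.xutt))).add (((S.xct.mul hid S.xu).add (S.xc.mul hid S.xut)).csmul b)).congr
    (fun _ => rfl) (by simp [add_mul]) (C2_ext fun x t => by
      have hb := b_sq
      simp [Z1, W1]
      linear_combination (Ds.U0 x t + (Ds.a0 x t + b⁻¹ * Ds.a1 x t) * sin t * cos (2 * Ds.n * x)) * hb)

lemma xTtt : Ex2 lp idη (fun η => Ds.Ax (S.p η) * Ds.X1 (S.p η) + Ds.A (S.p η) * Ds.X1x (S.p η)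
    + Ds.At (S.p η) * (ι om * Ds.u (S.p η))
    - Ds.A (S.p η) * (ι om * (Ds.ut (S.p η) - b • Ds.u (S.p η)))) Ds.T0tt Ds.T1tt := by
  have o : Ex2 lp idη (fun _ => ι om) (ι om) 0 := Ex2.const _
  have PZ := S.xZ.clm Pz
  have X1 := ((S.xci.mul hid o).mul hid PZ).neg
  have X1x := ((((S.xcX.mul hid S.xci).mul hid S.xci).mul hid o).mul hid PZ).sub
    ((S.xci.mul hid o).mul hid S.xZ)
  refine ((((S.xAx.mul hid X1).add (S.xA.mul hid X1x)).add (S.xAt.mul hid (o.mul hid S.xu))).sub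
    (S.xA.mul hid (o.mul hid (S.xut.sub (S.xu.csmul b))))).congr (fun _ => rfl) ?_ ?_
  · refine C2_ext fun x t => ?_
    simp [T0tt]; ring
  · rw [Pz_mode]
    refine C2_ext fun x t => ?_
    have := b_pos.ne'
    have := Ds.n_ne
    simp [T1tt, Z1]
    field_simp
    ring

lemma xTxt : Ex2 lp idη (fun η => -(Ds.A (S.p η) * Ds.X1t (S.p η))
    - Ds.d (S.p η) • (Ds.Ai (S.p η) * (ι om * Ds.ux (S.p η)))) Ds.T0xt Ds.T1xt := by
  have o : Ex2 lp idη (fun _ => ι om) (ι om) 0 := Ex2.const _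
  have X1t := (((((S.xct.mul hid S.xci).mul hid S.xci).mul hid o).add
    ((S.xci.mul hid o).csmul b)).mul hid (S.xZ.clm Pz)).sub
    ((S.xci.mul hid o).mul hid (S.xZt.clm Pz))
  have hb := b_sq
  have := b_pos.ne'
  have := Ds.n_ne
  refine ((S.xA.mul hid X1t).neg.sub (S.xd.smul hid (S.xAi.mul hid (o.mul hid S.xux)))).congr
    (fun _ => rfl) ?_ ?_
  · rw [Pz_mode, Pz_mode]
    refine C2_ext fun x t => ?_
    simp [T0xt, d0]
    field_simp
    linear_combination (sin t * sin (Ds.n * 2 * x)) * hb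
  · rw [Pz_mode, Pz_mode, map_sub Pz, map_smul Pz]
    refine C2_ext fun x t => ?_
    simp [T1xt, d0]
    field_simp
    linear_combination (-(Ds.n * Ds.a1 x t * sin t * sin (Ds.n * 2 * x))) * hb

/-- the constant in the cubic term -/
def κ0 (Ds : Des) : ℝ := 5 * b * J (om * ((1/4 : ℝ) • (s1 ^ 3 * (Ds.α (6 * Ds.n) + b⁻¹ • Ds.α1 (6 * Ds.n)))
    + (3/2 : ℝ) • (s1 ^ 2 * Ds.φ (4 * Ds.n))))

lemma xI : Ex2 lp idη (fun η => -(10 * b) * II (ι om * Ds.c (S.p η)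
    * (Ds.u (S.p η) * Ds.u (S.p η) * Ds.u (S.p η)))) 0 (-κ0 Ds) := by
  have hn := Ds.n_pos
  have c2 : cx (2 * Ds.n) * cx (2 * Ds.n) = (1/2 : ℝ) • (cx 0 + cx (4 * Ds.n)) := C2_ext fun x t => by
    have := cos_two_mul (2 * Ds.n * x)
    simp only [C2.mul_apply, D.mul_apply, cx_apply, C2.smul_apply, C2.add_apply, D.smul_apply,
      D.add_apply]
    push_cast
    rw [show 4 * (Ds.n:ℝ) * x = 2 * (2 * Ds.n * x) by ring, this]; simp; ring
  have c3 : cx (2 * Ds.n) * cx (2 * Ds.n) * cx (2 * Ds.n)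
      = (1/4 : ℝ) • ((3:ℝ) • cx (2 * Ds.n) + cx (6 * Ds.n)) := C2_ext fun x t => by
    have := cos_three_mul (2 * Ds.n * x)
    simp only [C2.mul_apply, D.mul_apply, cx_apply, C2.smul_apply, C2.add_apply, D.smul_apply,
      D.add_apply]
    push_cast
    rw [show 6 * (Ds.n:ℝ) * x = 3 * (2 * Ds.n * x) by ring, this]; ring
  refine (((((Ex2.const (ι om)).mul hid S.xc).mul hid ((S.xu.mul hid S.xu).mul hid S.xu)).clm
    II).csmul (-(10 * b))).congr (fun _ => rfl) ?_ ?_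
  · have : ι om * 1 * (ι s1 * cx (2 * Ds.n) * (ι s1 * cx (2 * Ds.n)) * (ι s1 * cx (2 * Ds.n)))
      = ι (om * s1 ^ 3) * (cx (2 * Ds.n) * cx (2 * Ds.n) * cx (2 * Ds.n)) := by
      rw [map_mul, map_pow]; ring
    rw [this, c3, II_apply, avg_ι_mul]
    simp only [map_smul, map_add, avg_cx]
    rw [if_neg (by omega), if_neg (by omega)]; simp
  · have e : ∀ c U : C2, ι om * 1 * (ι s1 * cx (2 * Ds.n) * (ι s1 * cx (2 * Ds.n)) * U
        + (ι s1 * cx (2 * Ds.n) * U + U * (ι s1 * cx (2 * Ds.n))) * (ι s1 * cx (2 * Ds.n)))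
        + (ι om * c + 0 * 1) * (ι s1 * cx (2 * Ds.n) * (ι s1 * cx (2 * Ds.n)) * (ι s1 * cx (2 * Ds.n)))
        = ι (3 * om * s1 ^ 2) * (cx (2 * Ds.n) * cx (2 * Ds.n) * U)
        + ι (om * s1 ^ 3) * (cx (2 * Ds.n) * cx (2 * Ds.n) * cx (2 * Ds.n) * c) := by
      intro c U; simp only [map_mul, map_pow, map_ofNat]; ring
    have h0 : Ds.φ 0 = 0 := by
      have ho := Ds.ode 0
      simp only [Int.cast_zero, zero_div, sub_zero, add_zero, Ds.α_off _ Ds.m2, Ds.α1_off Ds.m2,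
        Rr, zero_mul, smul_zero, neg_zero, ne_eq, OfNat.ofNat_ne_zero, not_false_eq_true,
        zero_pow] at ho
      obtain ⟨G⟩ := gr_zero (m := -5) (by norm_num) (by norm_num) (by norm_num)
      exact G.uniq (Ds.hφ 0) ((Ds.hφ1 0).congr' (by
        rw [neg_smul]; exact (eq_neg_of_add_eq_zero_left ho).symm)) (Ds.φ_lo 0) (Ds.φ_hi 0) (by simp)
    rw [e, c3, c2, II_apply, map_add, avg_ι_mul, avg_ι_mul]
    simp only [smul_mul_assoc, add_mul, map_smul, map_add avg, ← cm_apply, map_add (cm _), cm_U0,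
      cm_a0, cm_a1, h0, Ds.α_off _ Ds.m2, Ds.α1_off Ds.m2, κ0]
    rw [← neg_mul, ← smul_eq_mul (-(5 * b)), ← map_smul, ← map_smul]
    congr 1
    ext t
    simp
    ring

end Sol

lemma ah_le (y : ℤ → D0) {z : D0} (hz : ‖z‖ ≤ 1) (η τ : ℝ) (k : ℤ) :
    ‖η • Ds.ah y z τ k - (η / 2) • y k‖ ≤ ‖η • τ‖ := by
  rw [ah, smul_add, smul_smul, mul_one_div, add_sub_cancel_left, smul_smul, norm_smul, smul_eq_mul]
  refine mul_le_of_le_one_right (norm_nonneg _) ?_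
  split_ifs
  · rw [norm_smul]; norm_num; linarith
  · simp

theorem family (Ds : Des) : Ds.Family := by
  obtain ⟨S⟩ := Ds.exists_sol
  have h3 : ∀ {y : ℝ → D0} {y0 : D0}, Ex1 lp idη y y0 →
      (fun η : ℝ => η • η • y η - η ^ 2 • y0) =O[lp] fun η => η ^ 3 := fun h =>
    (((isBigO_refl (fun η : ℝ => η) lp).pow 2).smul h).congr
      (fun η => by rw [smul_sub, smul_smul, sq]) (fun η => by simp [idη]; ring)
  have k1 := isBigO_iff_eventually.1 S.xτ.ex2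
  have k2 := isBigO_iff_eventually.1 (Sol.small ((S.xq.bd hid).clm V)).ex2
  have k3 := isBigO_iff_eventually.1 (h3 S.xq)
  have k4 := isBigO_iff_eventually.1 (h3 S.xq1)
  have k5 := isBigO_iff_eventually.1 S.xd
  have k6 := isBigO_iff_eventually.1 S.xu
  have k7 := isBigO_iff_eventually.1 S.xux
  have k8 := isBigO_iff_eventually.1 S.xut
  have k9 := isBigO_iff_eventually.1 S.xTtt
  have k10 := isBigO_iff_eventually.1 S.xTxt
  have k11 := isBigO_iff_eventually.1 S.xI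
  obtain ⟨C, a1, a2, a3, a4, a5, a6, a7, a8, a9, a10, a11⟩ := (k1.and (k2.and (k3.and (k4.and
    (k5.and (k6.and (k7.and (k8.and (k9.and (k10.and k11)))))))))).exists
  have hev : ∀ᶠ η in lp, ∃ G : Geo, G.Exact ∧ G.Smooth ∧
      Nonempty (Ds.Approx Ds.first C (Sol.κ0 Ds) η G) := by
    filter_upwards [a1, a2, a3, a4, a5, a6, a7, a8, a9, a10, a11, S.ev_good, self_mem_nhdsWithin]
      with η a1 a2 a3 a4 a5 a6 a7 a8 a9 a10 a11 g hη
    have hη : 0 < η := hη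
    have hn := Ds.n_pos
    simp only [idη, Real.norm_of_nonneg (pow_pos hη _).le, sub_zero,
      smul_zero] at a1 a2 a3 a4 a5 a6 a7 a8 a9 a10 a11
    refine ⟨g.geo, g.exact, g.smooth, ⟨⟨fun k => η • Ds.ah Ds.α c1 (S.τ η) k,
      fun k => η • Ds.ah Ds.α1 (-s1) (S.τ η) k, fun k => η • Ds.ah Ds.α2 (-c1) (S.τ η) k,
      η • η • V (S.q η), η • η • S.q η, η • η • Ds.q1 (S.p η), ?_,
      fun k => (Ds.D1_ah Ds.hα D1_c1 _ k).smul _, fun k => (Ds.D1_ah Ds.hα1 D1_s1.neg _ k).smul _,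
      ((D1_V _).smul _).smul _, (g.hq1.smul _).smul _, fun k => by rw [Ds.ah_neg Ds.α_neg],
      fun k => (ah_le _ (norm_cs_le _) _ _ k).trans a1,
      fun k => (ah_le _ (by rw [norm_neg]; exact norm_sn_le _) _ _ k).trans a1,
      fun k => (ah_le _ (by rw [norm_neg]; exact norm_cs_le _) _ _ k).trans a1, ?_, a2, a3, a4, a5,
      ?_, ?_, a8, a9, a10, g.avgT, ?_⟩⟩⟩
    · change 1 + η • Ds.TP _ _ = _
      simp [TP, Finset.smul_sum, add_assoc, Sol.p]
    · rw [Ds.ah_of_ne _ _ _ (by omega) (by omega), smul_smul, mul_one_div]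
    · exact a6
    · simpa [e2, first, Good.geo, ux, U0x] using a7
    · rw [g.I_eq]
      have := (le_abs_self _).trans a11
      simp only [smul_eq_mul] at this
      linarith
  obtain ⟨η0, h0, h⟩ := (nhdsGT_basis (0:ℝ)).eventually_iff.1 hev
  exact ⟨Ds.first, C, Sol.κ0 Ds, η0, mul_pos (mul_pos (by norm_num) b_pos) Ds.κ2, h0,
    fun η hη => h hη⟩

end Des

end

end Pool.Agent.P.MP_0d657e_an
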