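import Pool.Agent.P.MP_0d657e_an.D2

/-! Exact identities: the terms of the second order form. -/

open Set Real

namespace Pool.Agent.P.MP_0d657e_an

noncomputable section

lemma Qf_emb0 (P : P4) (h : H1) (u : H) (hP : P.2.2.2 = 0) :
    Qf P (embc 0 h) u = J (H1.d h * avg (P.2.1 * H.fx u + P.2.2.1 * H.ft u)) := by
  rw [Qf_symm, Qf_embc]
  simp [hP, cm_zero]

lemma KT_ident (r w : H1) :
    Q1 (-1) r (KT w) = Q1 (-4) w (H1.mulL D1_c1 r) := by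
  have h1 := H1.J_d (H1.mulL (D1_c1.mul (D1_V (H1.f w))) r)
  have h2 := H1.J_d (H1.mulL (D1_s1.mul (H1.d1 w)) r)
  have key : ∀ A B C D : D0, A = B + (2:ℝ) • C + D → J C = 0 → J D = 0 → J A = J B := by
    intro A B C D e hC hD
    rw [e, map_add, map_add, map_smul, hC, hD]; simp
  refine key _ _ _ _ ?_ h1 h2
  ext t
  simp [f_KT, d_KT]
  ring

namespace Des

variable (Ds : Des)

lemma sum_neg {E : Type*} [AddCommMonoid E] (f : ℤ → E) :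
    ∑ k ∈ Ds.K, f (-k) = ∑ k ∈ Ds.K, f k :=
  Finset.sum_nbij' (fun k => -k) (fun k => -k) Ds.K_neg Ds.K_neg (by simp) (by simp) (by simp)

lemma sum_symm {f g : ℤ → ℝ} (F : ℤ → ℝ) (h : ∀ k ∈ Ds.K, f k = g k + F k - F (-k)) :
    ∑ k ∈ Ds.K, f k = ∑ k ∈ Ds.K, g k := by
  rw [Finset.sum_congr rfl h, Finset.sum_sub_distrib, Finset.sum_add_distrib, Ds.sum_neg F]
  ring

/-- the sum of the modes in the design set -/
def U (Y : ℤ → H1) : H := ∑ k ∈ Ds.K, embc k (Y k)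

lemma prc_U {Y : ℤ → H1} (hY : ∀ k, Y (-k) = Y k) (h0 : ∀ k, k ∉ Ds.K → Y k = 0) (m : ℤ) :
    prc m (Ds.U Y) = Y m := by
  rw [U, prc_sum Ds.K_neg hY]
  split_ifs with h
  · rfl
  · exact (h0 m h).symm

lemma prs_U (Y : ℤ → H1) (m : ℤ) : prs m (Ds.U Y) = 0 := by simp [U, map_sum]

lemma α_sub (k l : ℤ) : Ds.α (k - l) = Ds.α (l - k) := by rw [← Ds.α_neg, neg_sub]
lemma cc_sub (k l : ℤ) : Ds.cc (k - l) = Ds.cc (l - k) := by rw [← Ds.cc_neg, neg_sub]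

lemma B1_U_2n {Y : ℤ → H1} (hY : ∀ k, Y (-k) = Y k) :
    Qf Ds.PB1 (Ds.U Y) (embc (2 * Ds.n) (KT (Y Ds.n))) = (1/2 : ℝ) * ∑ k ∈ Ds.K, Ds.β1 Y k := by
  rw [U, map_sum, LinearMap.sum_apply, Finset.mul_sum]
  refine Ds.sum_symm (fun k => -(1/4 : ℝ) * Ds.β1 Y k) (fun k _ => ?_)
  simp only [B1_cc, β1, κ_2n, κ_neg, hY, sub_neg_eq_add]
  have key : ∀ A B C : D0, A = B + C →
      1 / 4 * J A = 1 / 2 * J B + -(1 / 4) * J B - -(1 / 4) * J C := by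
    intro A B C e; rw [e, map_add]; ring
  refine key _ _ _ ?_
  ext t
  simp
  ring

lemma B1_U_n (Y : ℤ → H1) (θ : H1) : Qf Ds.PB1 (Ds.U Y) (embc Ds.n θ) = 0 := by
  rw [U, map_sum, LinearMap.sum_apply]
  refine Finset.sum_eq_zero (fun k hk => ?_)
  have h1 : (Ds.n - k : ℤ) ∉ Ds.K := fun h => Ds.sum_ne k hk _ h (by ring)
  have h2 : (Ds.n + k : ℤ) ∉ Ds.K := fun h => Ds.sum_ne (-k) (Ds.K_neg k hk) _ h (by ring)
  simp [B1_cc, Ds.α_off _ h1, Ds.α_off _ h2, Ds.cc_off h1, Ds.cc_off h2]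

lemma B1_U_s (Y : ℤ → H1) (l : ℤ) (θ : H1) : Qf Ds.PB1 (Ds.U Y) (embs l θ) = 0 := by
  rw [U, map_sum, LinearMap.sum_apply]
  exact Finset.sum_eq_zero (fun k _ => Ds.B1_cs _ _ _ _)

/-- zeroth order coefficients of `I` -/
def PI0 : P4 := (-(((Ds.n:ℝ) ^ 2)⁻¹ • Ds.T0tt), Ds.T0xt, Ds.T0tt, 0)

lemma I0_emb0 (h : H1) (u : H) : Qf Ds.PI0 (embc 0 h) u
    = -2 * J (om * H1.d h * H1.d (H1.mulL D1_c1 (prc (2 * Ds.n) u))) := by
  rw [Qf_emb0 _ _ _ rfl, ← smul_eq_mul (-2 : ℝ), ← map_smul]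
  congr 1
  have h1 := (H.dx u).sm_eq (2 * Ds.n)
  simp only [PI0, T0xt, T0tt, neg_mul, smul_mul_assoc, map_add, map_neg, map_smul, mul_assoc,
    avg_ι_mul, ← cm_apply, ← sm_apply, h1, H1.d_mulL, f_prc, d_prc]
  ext t
  have := Ds.n_ne
  simp
  field_simp
  ring

lemma I0_UU {Y : ℤ → H1} (hY : ∀ k, Y (-k) = Y k) (h0 : ∀ k, k ∉ Ds.K → Y k = 0) :
    Qf Ds.PI0 (Ds.U Y) (Ds.U Y) = 4 * ∑ k ∈ Ds.K, Ds.t0 Y k := by
  set u := Ds.U Y with hu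
  have e0 : Qf Ds.PI0 u u = ∑ k ∈ Ds.K, J (-((k:ℝ) • (H1.f (Y k) *
      sm k (Ds.PI0.1 * H.fx u + (2:ℝ) • (Ds.T0xt * H.ft u)))) + H1.d (Y k) * cm k (Ds.T0tt * H.ft u)) := by
    have e1 : Qf Ds.PI0 u u = II (H.fx (Ds.U Y) * (Ds.PI0.1 * H.fx u + (2:ℝ) • (Ds.T0xt * H.ft u))
        + H.ft (Ds.U Y) * (Ds.T0tt * H.ft u)) := by
      rw [Qf_apply, ← hu]; congr 1
      simp only [PI0, Algebra.smul_def, map_ofNat]; ring
    rw [e1, U, map_sum H.fx, map_sum H.ft, Finset.sum_mul, Finset.sum_mul,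
      ← Finset.sum_add_distrib, map_sum]
    refine Finset.sum_congr rfl (fun k _ => ?_)
    rw [fx_embc, ft_embc, neg_mul, smul_mul_assoc, map_add, map_neg, map_smul, II_ι_cx_mul,
      II_ι_sx_mul, map_add J, map_neg, map_smul]
  rw [e0, Finset.mul_sum]
  refine Ds.sum_symm (fun k => -2 * Ds.t0 Y k) (fun k _ => ?_)
  have e1 : ∀ F : C2, cm (k - 2 * Ds.n) F = cm (2 * Ds.n - k) F := fun F => by
    rw [← cm_neg, neg_sub]
  have e2 : ∀ m, cm m (H.f u) = H1.f (Y m) := fun m => by rw [← f_prc, hu, Ds.prc_U hY h0]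
  have e3 : ∀ m, cm m (H.ft u) = H1.d (Y m) := fun m => by rw [← d_prc, hu, Ds.prc_U hY h0]
  have e4 : Y (k - 2 * Ds.n) = Y (2 * Ds.n - k) := by rw [← hY, neg_sub]
  simp only [PI0, T0xt, T0tt, neg_mul, smul_mul_assoc, map_add (sm k), map_neg, map_smul, mul_assoc,
    cm_ι_mul, sm_ι_mul, cm_cx_mul, sm_cx_mul, sm_sx_mul, (H.dx u).sm_eq,
    e2, e3, e4, add_comm k, smul_neg, neg_neg, t0, hY, sub_neg_eq_add]
  have key : ∀ A B C : D0, A = B + C →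
      J A = 4 * (1 / 2 * J B) + -(2 * (1 / 2 * J B)) + 2 * (1 / 2 * J C) := by
    intro A B C e; rw [e, map_add]; ring
  refine key _ _ _ ?_
  ext t
  have := Ds.n_ne
  simp [κ]
  field_simp
  ring

lemma I0_e2_U (Y : ℤ → H1) : Qf Ds.PI0 Ds.e2 (Ds.U Y) = 0 := by
  rw [U, map_sum]
  refine Finset.sum_eq_zero (fun k hk => ?_)
  have h0 : k ≠ 0 := fun h => Ds.m0 (h ▸ hk)
  have h1 : k + 2 * Ds.n + 2 * Ds.n ≠ 0 := fun h =>
    Ds.m4 (by have := Ds.K_neg k hk; rwa [show -k = 4 * (Ds.n:ℤ) by omega] at this)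
  have h2 : k - 2 * Ds.n - 2 * Ds.n ≠ 0 := fun h =>
    Ds.m4 (by rwa [show k = 4 * (Ds.n:ℤ) by omega] at hk)
  rw [Qf_embc]
  simp only [PI0, T0xt, T0tt, e2, f_embc, fx_embc, ft_embc, neg_mul, mul_neg, smul_mul_assoc,
    mul_smul_comm, map_add (sm k), map_add (cm k), map_neg, map_smul, cm_cc', cm_cs', sm_cc',
    sm_cs', cm_ι_mul, sm_ι_mul, cm_cx, sm_sx]
  simp [h0, h1, h2]

variable (F : Ds.First)

/-- first order coefficients of `I` -/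
def PI1 : P4 := (-(((Ds.n:ℝ) ^ 2)⁻¹ • (F.T1tt - (2:ℝ) • (Ds.pol Ds.α * Ds.T0tt))), F.T1xt, F.T1tt, 0)

lemma I1_U (h : H1) {Y : ℤ → H1} (hY : ∀ k, Y (-k) = Y k) :
    Qf (Ds.PI1 F) (embc 0 h) (Ds.U Y) = ∑ k ∈ Ds.K, Ds.τt (om * H1.d h) Y k := by
  rw [U, map_sum]
  refine Ds.sum_symm (fun k => -(1/2) * Ds.τt (om * H1.d h) Y k) (fun k hk => ?_)
  rw [Qf_embc]
  have h1 := F.xt_K k hk
  have h2 := F.tt_K k hk
  simp only [PI1, f_embc, fx_embc, ft_embc, Int.cast_zero, zero_smul, neg_zero, mul_zero,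
    zero_add, cx_zero, mul_one, zero_mul, map_zero, add_zero, mul_comm _ (ι _), cm_ι_mul,
    sm_ι_mul, ← mul_smul_comm, h1, h2, τt, hY]
  have key : ∀ A B C : D0, A = (1/2 : ℝ) • (B + C) →
      J A = J B + -(1 / 2) * J B - -(1 / 2) * J C := by
    intro A B C e; rw [e, map_smul, map_add, smul_eq_mul]; ring
  refine key _ _ _ ?_
  ext t
  simp
  ring

lemma I1_e2 (h : H1) : Qf (Ds.PI1 F) (embc 0 h) Ds.e2 = 0 := by
  rw [e2, Qf_embc]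
  simp only [PI1, f_embc, fx_embc, ft_embc, Int.cast_zero, zero_smul, neg_zero, mul_zero,
    zero_add, cx_zero, mul_one, zero_mul, map_zero, add_zero, mul_comm _ (ι _), cm_ι_mul,
    sm_ι_mul, F.tt_2n, F.xt_2n, smul_zero]

lemma I0_φt (h : H1) : Qf Ds.PI0 (embc 0 h) F.φt = 0 := by
  have : prc (2 * Ds.n) F.φt = 0 := H1.ext' (by simp [F.φt_2n])
  simp [I0_emb0, this]

lemma prc_e2 : prc (2 * Ds.n) Ds.e2 = (1/2 : ℝ) • S1 := by
  have := Ds.n_pos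
  rw [e2, prc_embc, if_neg (by omega), if_pos (by omega), zero_add]

lemma I0_e2 (h : H1) : Qf Ds.PI0 (embc 0 h) Ds.e2 = -(1/2) * J (om * H1.d h * H1.d S2) := by
  rw [I0_emb0, prc_e2, ← smul_eq_mul (-2 : ℝ), ← smul_eq_mul (-(1/2) : ℝ), ← map_smul, ← map_smul]
  congr 1
  ext t
  simp [cos_two_mul']
  ring

lemma g_n : Ds.g Ds.n = 1 := by
  rw [g, Ds.αn, mul_smul_comm, smul_smul, inv_mul_cancel₀ b_pos.ne', one_smul, mul_comm, om_mul_ex]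

lemma g'_n : Ds.g' Ds.n = 0 := D1.unique pi_pos (Ds.D1_g _) (by rw [g_n]; exact D1_one)

lemma J_asym : J (c1 * Ds.α Ds.n) ≠ 0 := by
  have h := H1.parts (Ds.hα Ds.n) S1
  rw [Ds.αn, f_S1, d_S1, smul_mul_assoc, map_smul, smul_eq_mul] at h
  have h2 : J (om * s1) ≠ 0 := by
    intro h0
    have h3 : J ((exp (-b * π)) • (s1 * s1)) ≤ J (om * s1) := J_mono (fun t => by
      have a1 : 0 ≤ sin (t:ℝ) := sin_nonneg_of_mem_Icc t.2
      have a2 : exp (-b * π) ≤ exp (-b * t) := exp_le_exp.2 (by nlinarith [b_pos, t.2.2])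
      have a3 := sin_le_one (t:ℝ)
      have a4 := exp_pos (-b * π)
      simp only [D.smul_apply, D.mul_apply, s1_apply, om_apply]
      nlinarith [mul_nonneg a4.le a1])
    rw [map_smul, J_s1_s1, h0, smul_eq_mul] at h3
    have : 0 < exp (-b * π) * (π / 2) := by have := pi_pos; positivity
    linarith
  rw [mul_comm c1]
  intro h0
  rw [h0, neg_zero] at h
  exact mul_ne_zero b_pos.ne' h2 h

end Des

end

end Pool.Agent.P.MP_0d657e_an
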