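import Pool.Agent.P.MP_0d657e_an.D3
import Pool.Agent.P.MP_0d657e_an.Ocalc

/-! The family of approximate null solutions and the expansions of the coefficients. -/

open Set Real Asymptotics Filter Topology

namespace Pool.Agent.P.MP_0d657e_an

noncomputable section

section general

variable {X : Type*} {l : Filter X} {η : X → ℝ}

lemma Qf_O {P : X → P4} {u w : X → H} {gP gu gw : X → ℝ} (hP : P =O[l] gP)
    (hu : (fun i => H.nr (u i)) =O[l] gu) (hw : (fun i => H.nr (w i)) =O[l] gw) :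
    (fun i => Qf (P i) (u i) (w i)) =O[l] fun i => gP i * gu i * gw i :=
  (O_of_abs_le (fun i => Qf_abs_le (P i) (u i) (w i))).trans ((hP.norm_left.mul hu).mul hw)

lemma Qf_sub (P P' : P4) (u v : H) : Qf (P - P') u v = Qf P u v - Qf P' u v := by
  have := Qf_add (P - P') P' u v
  rw [sub_add_cancel] at this
  linarith

lemma Qf_c (P : P4) {u w : X → H} {gu gw : X → ℝ}
    (hu : (fun i => H.nr (u i)) =O[l] gu) (hw : (fun i => H.nr (w i)) =O[l] gw) :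
    (fun i => Qf P (u i) (w i)) =O[l] fun i => gu i * gw i := by
  simpa using Qf_O (isBigO_const_const P (one_ne_zero (α := ℝ)) l) hu hw

lemma Qf_2 {P : X → P4} {P0 P1 : P4} (hP : Ex2 l η P P0 P1) {u w : X → H} {gu gw : X → ℝ}
    (hu : (fun i => H.nr (u i)) =O[l] gu) (hw : (fun i => H.nr (w i)) =O[l] gw) :
    (fun i => Qf (P i) (u i) (w i) - Qf P0 (u i) (w i) - η i * Qf P1 (u i) (w i))
      =O[l] fun i => η i ^ 2 * gu i * gw i := by
  simpa only [Qf_sub, Qf_smul] using Qf_O hP hu hw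

lemma Qf_1 (hη : Tendsto η l (𝓝 0)) {P : X → P4} {P0 P1 : P4} (hP : Ex2 l η P P0 P1)
    {u w : X → H} {gu gw : X → ℝ}
    (hu : (fun i => H.nr (u i)) =O[l] gu) (hw : (fun i => H.nr (w i)) =O[l] gw) :
    (fun i => Qf (P i) (u i) (w i) - Qf P0 (u i) (w i)) =O[l] fun i => η i * gu i * gw i := by
  simpa only [Qf_sub] using Qf_O (hP.O1 hη) hu hw

lemma Qf_0 (hη : Tendsto η l (𝓝 0)) {P : X → P4} {P0 P1 : P4} (hP : Ex2 l η P P0 P1)
    {u w : X → H} {gu gw : X → ℝ}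
    (hu : (fun i => H.nr (u i)) =O[l] gu) (hw : (fun i => H.nr (w i)) =O[l] gw) :
    (fun i => Qf (P i) (u i) (w i)) =O[l] fun i => gu i * gw i := by
  simpa using Qf_O (hP.O0 hη) hu hw

variable {E : Type*} [AddCommGroup E] [Module ℝ E] (p : Seminorm ℝ E)

lemma sn_add {u w : X → E} {g : X → ℝ} (hu : (fun i => p (u i)) =O[l] g)
    (hw : (fun i => p (w i)) =O[l] g) : (fun i => p (u i + w i)) =O[l] g :=
  (O_of_abs_le (fun i => by
    rw [Real.norm_of_nonneg (apply_nonneg _ _)]; exact map_add_le_add p _ _)).trans (hu.add hw)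

lemma sn_smul {c : X → ℝ} {u : X → E} {g g' : X → ℝ} (hc : c =O[l] g)
    (hu : (fun i => p (u i)) =O[l] g') : (fun i => p (c i • u i)) =O[l] fun i => g i * g' i := by
  simpa only [map_smul_eq_mul] using hc.norm_left.mul hu

lemma sn_sub {u w : X → E} {g : X → ℝ} (hu : (fun i => p (u i)) =O[l] g)
    (hw : (fun i => p (w i)) =O[l] g) : (fun i => p (u i - w i)) =O[l] g := by
  simp only [sub_eq_add_neg]
  exact sn_add p hu (by simpa using hw)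

lemma sn_sum {α : Type*} (s : Finset α) {u : α → X → E} {g : X → ℝ}
    (hu : ∀ a ∈ s, (fun i => p (u a i)) =O[l] g) : (fun i => p (∑ a ∈ s, u a i)) =O[l] g := by
  classical
  induction s using Finset.induction_on with
  | empty => simpa using isBigO_zero _ _
  | insert a s ha ih =>
    simp only [Finset.sum_insert ha]
    exact sn_add p (hu a (Finset.mem_insert_self _ _))
      (ih (fun j hj => hu j (Finset.mem_insert_of_mem hj)))

lemma sn_le {E' : Type*} [AddCommGroup E'] [Module ℝ E'] (p' : Seminorm ℝ E') {u : X → E}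
    {u' : X → E'} {g : X → ℝ} (c : ℝ) (h : ∀ i, p' (u' i) ≤ c * p (u i))
    (hu : (fun i => p (u i)) =O[l] g) : (fun i => p' (u' i)) =O[l] g :=
  (O_of_abs_le (fun i => by rw [Real.norm_of_nonneg (apply_nonneg _ _)]; exact h i)).trans
    (hu.const_mul_left c)

lemma sn_const (a : E) : (fun _ : X => p a) =O[l] fun _ => (1:ℝ) :=
  isBigO_const_const _ one_ne_zero l

lemma embc_O (k : ℤ) {y : X → H1} {g : X → ℝ} (h : (fun i => H1.nr (y i)) =O[l] g) :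
    (fun i => H.nr (embc k (y i))) =O[l] g := sn_le _ _ _ (fun i => nr_embc_le k (y i)) h

lemma embs_O (k : ℤ) {y : X → H1} {g : X → ℝ} (h : (fun i => H1.nr (y i)) =O[l] g) :
    (fun i => H.nr (embs k (y i))) =O[l] g := sn_le _ _ _ (fun i => nr_embs_le k (y i)) h

lemma prc_O (k : ℤ) {u : X → H} {g : X → ℝ} (h : (fun i => H.nr (u i)) =O[l] g) :
    (fun i => H1.nr (prc k (u i))) =O[l] g :=
  sn_le _ _ 1 (fun i => by simpa using nr_prc_le k (u i)) h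

lemma prs_O (k : ℤ) {u : X → H} {g : X → ℝ} (h : (fun i => H.nr (u i)) =O[l] g) :
    (fun i => H1.nr (prs k (u i))) =O[l] g :=
  sn_le _ _ 1 (fun i => by simpa using nr_prs_le k (u i)) h

lemma f_O {y : X → H1} {g : X → ℝ} (h : (fun i => H1.nr (y i)) =O[l] g) :
    (fun i => PJ.nrm (H1.f (y i))) =O[l] g :=
  sn_le _ _ 1 (fun i => by simpa using H1.f_le (y i)) h

lemma d_O {y : X → H1} {g : X → ℝ} (h : (fun i => H1.nr (y i)) =O[l] g) :
    (fun i => PJ.nrm (H1.d (y i))) =O[l] g :=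
  sn_le _ _ 1 (fun i => by simpa using H1.d_le (y i)) h

lemma Hf_O {y : X → H} {g : X → ℝ} (h : (fun i => H.nr (y i)) =O[l] g) :
    (fun i => P2.nrm (H.f (y i))) =O[l] g :=
  sn_le _ _ 1 (fun i => by simpa using H.f_le (y i)) h

lemma Hft_O {y : X → H} {g : X → ℝ} (h : (fun i => H.nr (y i)) =O[l] g) :
    (fun i => P2.nrm (H.ft (y i))) =O[l] g :=
  sn_le _ _ 1 (fun i => by simpa using H.ft_le (y i)) h

lemma mul_O {R : Type} [NormedCommRing R] [NormedAlgebra ℝ R] (F : PF R) {P u : X → R}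
    {g g' : X → ℝ} (hP : P =O[l] g) (hu : (fun i => F.nrm (u i)) =O[l] g') :
    (fun i => F.nrm (P i * u i)) =O[l] fun i => g i * g' i :=
  (O_of_abs_le (fun i => by
    rw [Real.norm_of_nonneg (apply_nonneg _ _)]; exact F.nrm_mul_le _ _)).trans
      (hP.norm_left.mul hu)

lemma cmul_O {R : Type} [NormedCommRing R] [NormedAlgebra ℝ R] (F : PF R) (P : R) {u : X → R}
    {g : X → ℝ} (hu : (fun i => F.nrm (u i)) =O[l] g) :
    (fun i => F.nrm (P * u i)) =O[l] g := sn_le _ _ _ (fun i => F.nrm_mul_le P (u i)) hu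

lemma J_O {u w : X → D0} {g g' : X → ℝ} (hu : (fun i => PJ.nrm (u i)) =O[l] g)
    (hw : (fun i => PJ.nrm (w i)) =O[l] g') :
    (fun i => J (u i * w i)) =O[l] fun i => g i * g' i :=
  (O_of_abs_le (fun i => PJ.abs_mul_le (u i) (w i))).trans (hu.mul hw)

lemma avg_O {u : X → C2} {g : X → ℝ} (hu : (fun i => P2.nrm (u i)) =O[l] g) :
    (fun i => PJ.nrm (avg (u i))) =O[l] g :=
  sn_le _ _ 1 (fun i => by simpa using nrm_avg_le (u i)) hu

end general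

/-- a geometry close to the design with an approximate null solution and a test function -/
structure Ix (Ds : Des) (F : Ds.First) (C κ0 : ℝ) where
  η : ℝ
  hη : 0 < η
  G : Geo
  exa : G.Exact
  ap : Ds.Approx F C κ0 η G
  φ : H
  hφ : ∀ v : H, avg (G.c * H.f v) = 0 →
    |G.B φ v| ≤ η ^ 4 * P2.nrm (H.f φ) * P2.nrm (H.f v)
  hI : G.I φ φ = 0
  θ : H1

namespace Ix

variable {Ds : Des} {F : Ds.First} {C κ0 : ℝ}

/-- small values of the parameter -/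
def fl : Filter (Ix Ds F C κ0) := comap Ix.η (𝓝 0)

lemma hη0 : Tendsto Ix.η (fl : Filter (Ix Ds F C κ0)) (𝓝 0) := tendsto_comap

lemma O_le {E : Type*} [Norm E] {f : Ix Ds F C κ0 → E} {g : Ix Ds F C κ0 → ℝ}
    (h : ∀ i, ‖f i‖ ≤ C * g i) : f =O[fl] g :=
  (O_of_abs_le h).trans ((isBigO_refl g _).const_mul_left C)

variable (i : Ix Ds F C κ0)

/-- second height derivative of `A` -/
def Att : C2 := ∑ k ∈ Ds.K, ι (i.ap.Ah2 k) * cx k + ι i.ap.q2 * cx (2 * Ds.n)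

lemma At_eq : i.G.At = ∑ k ∈ Ds.K, ι (i.ap.Ah1 k) * cx k + ι i.ap.q1 * cx (2 * Ds.n) := by
  refine Dt.unique i.G.hAt ?_
  rw [i.ap.hA]
  exact ((Dt_one.add (Dt.sum _ (fun k _ => (Dt_ι (i.ap.hAh k)).mul (Dt_cx k)))).add
    ((Dt_ι i.ap.hq0).mul (Dt_cx _))).congr' (by simp)

lemma hAtt : Dt i.G.At i.Att := by
  rw [At_eq]
  exact ((Dt.sum _ (fun k _ => (Dt_ι (i.ap.hAh1 k)).mul (Dt_cx k))).add
    ((Dt_ι i.ap.hq1).mul (Dt_cx _))).congr' (by simp [Att])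

lemma Ah1_neg (k : ℤ) : i.ap.Ah1 (-k) = i.ap.Ah1 k :=
  D1.unique pi_pos (i.ap.hAh (-k)) (by rw [i.ap.Ah_neg]; exact i.ap.hAh k)
lemma Ah2_neg (k : ℤ) : i.ap.Ah2 (-k) = i.ap.Ah2 k :=
  D1.unique pi_pos (i.ap.hAh1 (-k)) (by rw [i.Ah1_neg]; exact i.ap.hAh1 k)
lemma Ah1_n : i.ap.Ah1 Ds.n = (i.η / 2) • Ds.α1 Ds.n :=
  D1.unique pi_pos (i.ap.hAh _) (by rw [i.ap.Ah_n]; exact (Ds.hα _).smul _)
lemma Ah2_n : i.ap.Ah2 Ds.n = (i.η / 2) • Ds.α2 Ds.n :=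
  D1.unique pi_pos (i.ap.hAh1 _) (by rw [i.Ah1_n]; exact (Ds.hα1 _).smul _)

omit i

lemma ex_mode {y : Ix Ds F C κ0 → D0} {a : D0} (h : ∀ i, ‖y i - (i.η / 2) • a‖ ≤ C * i.η ^ 2) :
    Ex2 fl η y 0 ((1/2 : ℝ) • a) :=
  (O_le h).congr_left (fun i => by rw [sub_zero, smul_smul]; congr 2; ring)

lemma ex_pol {y : ℤ → Ix Ds F C κ0 → D0} {a : ℤ → D0} {q : Ix Ds F C κ0 → D0}
    (h : ∀ k i, ‖y k i - (i.η / 2) • a k‖ ≤ C * i.η ^ 2) (hq : q =O[fl] fun i => i.η ^ 2) :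
    Ex2 fl η (fun i => ∑ k ∈ Ds.K, ι (y k i) * cx k + ι (q i) * cx (2 * Ds.n)) 0 (Ds.pol a) := by
  have h1 := Ex2.sum Ds.K (fun k _ => ((ex_mode (h k)).clm ιL).mul hη0 (Ex2.const (cx k)))
  have h2 := ((Ex2.of_O2 hq).clm ιL).mul hη0 (Ex2.const (cx (2 * Ds.n)))
  exact (h1.add h2).congr (fun i => rfl) (by simp) (by simp [Des.pol])

lemma q1_O3 : (fun i : Ix Ds F C κ0 => i.ap.q1 - i.η ^ 2 • (b • (om * Ds.g2)))
    =O[fl] fun i => i.η ^ 3 := O_le (fun i => i.ap.q1_le)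
lemma q2_O3 : (fun i : Ix Ds F C κ0 => i.ap.q2 - i.η ^ 2 • (b • (om * (Ds.g2' - b • Ds.g2))))
    =O[fl] fun i => i.η ^ 3 := O_le (fun i => i.ap.q2_le)

lemma O2_of_O3 {q : Ix Ds F C κ0 → D0} {a : D0}
    (h : (fun i => q i - i.η ^ 2 • a) =O[fl] fun i => i.η ^ 3) : q =O[fl] fun i => i.η ^ 2 := by
  have h1 : (fun i => q i - i.η ^ 2 • a) =O[fl] fun i => i.η ^ 2 :=
    O_drop hη0 1 h (fun i => by ring)
  have h2 : (fun i : Ix Ds F C κ0 => i.η ^ 2 • a) =O[fl] fun i => i.η ^ 2 := by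
    simpa using (isBigO_refl (fun i : Ix Ds F C κ0 => i.η ^ 2) fl).smul
      (isBigO_const_const a (one_ne_zero (α := ℝ)) fl)
  exact (h1.add h2).congr_left (fun i => by abel)

lemma ex_A : Ex2 fl η (fun i : Ix Ds F C κ0 => i.G.A) 1 (Ds.pol Ds.α) :=
  ((Ex2.const 1).add (ex_pol (fun k i => i.ap.Ah_le k) (O_le (fun i => i.ap.q0_le)))).congr
    (fun i => by rw [i.ap.hA, add_assoc]) (by simp) (by simp)

lemma ex_At : Ex2 fl η (fun i : Ix Ds F C κ0 => i.G.At) 0 (Ds.pol Ds.α1) :=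
  (ex_pol (fun k i => i.ap.Ah1_le k) (O2_of_O3 q1_O3)).congr (fun i => i.At_eq) rfl rfl

lemma ex_Att : Ex2 fl η (fun i : Ix Ds F C κ0 => i.Att) 0 (Ds.pol Ds.α2) :=
  ex_pol (fun k i => i.ap.Ah2_le k) (O2_of_O3 q2_O3)

lemma ex_c : Ex2 fl η (fun i : Ix Ds F C κ0 => i.G.c) 1 (Ds.pol Ds.cc) :=
  (ex_A.add (ex_At.csmul b⁻¹)).congr (fun i => rfl) (by simp) Ds.pol_cc

lemma ex_Ai : Ex2 fl η (fun i : Ix Ds F C κ0 => i.G.Ai) 1 (-Ds.pol Ds.α) :=
  ex_A.inv hη0 (Eventually.of_forall fun i => i.G.hAi)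

lemma ex_d : Ex2 fl η (fun i : Ix Ds F C κ0 => i.G.d) ((Ds.n:ℝ) ^ 2)⁻¹ 0 :=
  (O_le (fun i => i.ap.d_le)).congr_left (fun i => by simp)

lemma ex_PB : Ex2 fl η (fun i : Ix Ds F C κ0 => i.G.PB) (PB0 Ds.n) Ds.PB1 :=
  ((ex_d.smul hη0 ex_Ai).prod ((Ex2.const 0).prod (ex_A.prod (ex_c.csmul (-5))))).congr
    (fun i => rfl) rfl (by simp [Des.PB1])

lemma ex_PI : Ex2 fl η (fun i : Ix Ds F C κ0 => i.G.PI) Ds.PI0 (Ds.PI1 F) := by
  have htt : Ex2 fl η (fun i : Ix Ds F C κ0 => i.G.Ttt) Ds.T0tt F.T1tt :=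
    O_le (fun i => i.ap.Ttt_le)
  have hxt : Ex2 fl η (fun i : Ix Ds F C κ0 => i.G.Txt) Ds.T0xt F.T1xt :=
    O_le (fun i => i.ap.Txt_le)
  refine ((ex_d.smul hη0 ((ex_Ai.mul hη0 ex_Ai).mul hη0 htt)).neg.prod
    (hxt.prod (htt.prod (Ex2.const 0)))).congr (fun i => rfl) (by simp [Des.PI0]) ?_
  simp only [Des.PI1, zero_smul, add_zero, two_smul]
  congr 3
  ring

lemma nr_φ0 : (fun i : Ix Ds F C κ0 => H.nr (i.G.φ0 - Ds.e2 - i.η • F.φt))
    =O[fl] fun i => i.η ^ 2 := by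
  have k : ∀ {f : Ix Ds F C κ0 → C2}, (∀ i, ‖f i‖ ≤ C * i.η ^ 2) →
      (fun i => P2.nrm (f i)) =O[fl] fun i => i.η ^ 2 := fun h =>
    (O_of_abs_le (fun i => by
      rw [Real.norm_of_nonneg (apply_nonneg _ _)]; exact P2.nrm_le_norm _)).trans
      ((O_le h).norm_left.const_mul_left _)
  exact ((k (fun i => i.ap.φ_le)).add (k (fun i => i.ap.φx_le))).add (k (fun i => i.ap.φt_le))

lemma nr_φ0' : (fun i : Ix Ds F C κ0 => H.nr (i.G.φ0 - Ds.e2)) =O[fl] η := by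
  have h1 : (fun i : Ix Ds F C κ0 => H.nr (i.η • F.φt)) =O[fl] η := by
    simpa using sn_smul H.nr (isBigO_refl η fl) (sn_const H.nr F.φt)
  simpa using sn_add H.nr (O_drop hη0 1 nr_φ0 (g' := η) (fun i => by ring)) h1

lemma nr_φ0'' : (fun i : Ix Ds F C κ0 => H.nr i.G.φ0) =O[fl] fun _ => (1:ℝ) :=
  (sn_add H.nr (nr_φ0'.trans (η_O_one hη0)) (sn_const H.nr Ds.e2)).congr_left
    (fun i => by rw [sub_add_cancel])

end Ix

end

end Pool.Agent.P.MP_0d657e_an
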