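import Pool.Agent.P.MP_0d657e_an.D4

/-! Decomposition of an approximate null solution and the basic test identity. -/

open Set Real Asymptotics Filter Topology

namespace Pool.Agent.P.MP_0d657e_an

noncomputable section

lemma nr_le_d (y : H1) : H1.nr y ≤ 2 * PJ.nrm (H1.d y) := by
  have h : PJ.nrm (H1.f y) ≤ PJ.nrm (H1.d y) := Real.sqrt_le_sqrt (H1.poincare y)
  rw [H1.nr_apply]; linarith

namespace Ix

variable {Ds : Des} {F : Ds.First} {C κ0 : ℝ} (i : Ix Ds F C κ0)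

/-- normalisation of the kernel element -/
def den : ℝ := J (H1.f (prc (2 * Ds.n) i.G.φ0) * s1)
/-- coefficient of the kernel element -/
def c2 : ℝ := J (H1.f (prc (2 * Ds.n) i.φ) * s1) / i.den
/-- the rest -/
def φ' : H := i.φ - i.c2 • i.G.φ0
/-- the radial part -/
def h : H1 := prc 0 i.φ'
/-- the design modes -/
def y (k : ℤ) : H1 := if k ∈ Ds.K then prc k i.φ' else 0
/-- the rescaled design modes -/
def Y (k : ℤ) : H1 := (2 / i.η) • i.y k
/-- the weighted radial derivative -/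
def v : D0 := om * H1.d i.h
/-- the non radial part -/
def u : H := i.φ' - embc 0 i.h
/-- the remainder -/
def r : H := i.u - Ds.U i.y
/-- main size -/
def N : ℝ := PJ.nrm i.v + ∑ k ∈ Ds.K, H1.nr (i.Y k)
/-- total size -/
def M : ℝ := i.N + i.η * |i.c2|
/-- size of the remainder -/
def R : ℝ := H.nr i.r
/-- a priori bound -/
def g1 : ℝ := i.η ^ 2 * i.M + i.η * i.R

lemma y_neg (k : ℤ) : i.y (-k) = i.y k := by
  unfold y
  by_cases h : k ∈ Ds.K
  · rw [if_pos h, if_pos (Ds.K_neg k h), prc_neg]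
  · rw [if_neg h, if_neg (fun h' => h (by simpa using Ds.K_neg _ h'))]
lemma y_off (k : ℤ) (h : k ∉ Ds.K) : i.y k = 0 := if_neg h
lemma Y_neg (k : ℤ) : i.Y (-k) = i.Y k := by rw [Y, Y, y_neg]
lemma Y_off (k : ℤ) (h : k ∉ Ds.K) : i.Y k = 0 := by rw [Y, i.y_off k h, smul_zero]
lemma y_eq (k : ℤ) : i.y k = (i.η / 2) • i.Y k := by
  have := i.hη.ne'
  rw [Y, smul_smul, show i.η / 2 * (2 / i.η) = 1 by field_simp, one_smul]
lemma Uy_eq : Ds.U i.y = (i.η / 2) • Ds.U i.Y := by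
  simp only [Des.U, Finset.smul_sum, y_eq, map_smul]
lemma u_eq : i.u = (i.η / 2) • Ds.U i.Y + i.r := by rw [r, Uy_eq]; abel
lemma φ'_eq : i.φ' = embc 0 i.h + i.u := by rw [u]; abel
lemma φ_eq : i.φ = i.c2 • i.G.φ0 + i.φ' := by rw [φ']; abel
lemma prc0_u : prc 0 i.u = 0 := by simp [u, prc_embc_zero, h]
lemma prc_u {k : ℤ} (hk : k ≠ 0) : prc k i.u = prc k i.φ' := by simp [u, prc_embc_zero, hk]
lemma prc_r (k : ℤ) : prc k i.r = prc k i.u - i.y k := by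
  rw [r, map_sub, Ds.prc_U i.y_neg i.y_off]
lemma prc_u_K {k : ℤ} (hk : k ∈ Ds.K) : prc k i.u = i.y k := by
  rw [i.prc_u (fun h => Ds.m0 (h ▸ hk)), y, if_pos hk]
lemma prc_r_K {k : ℤ} (hk : k ∈ Ds.K) : prc k i.r = 0 := by rw [prc_r, i.prc_u_K hk, sub_self]
lemma prc0_r : prc 0 i.r = 0 := by rw [prc_r, prc0_u, i.y_off 0 Ds.m0, sub_self]
lemma prc2_r : prc (2 * Ds.n) i.r = prc (2 * Ds.n) i.u := by
  rw [prc_r, i.y_off _ Ds.m2, sub_zero]
lemma d_h : H1.d i.h = ex b * i.v := by rw [v, ← mul_assoc, mul_comm (ex b), om_mul_ex, one_mul]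
lemma J_v : J (i.v * ex b) = 0 := by rw [mul_comm, ← d_h, H1.J_d]

lemma N_nonneg : 0 ≤ i.N :=
  add_nonneg (apply_nonneg _ _) (Finset.sum_nonneg fun _ _ => apply_nonneg _ _)
lemma ηc_nonneg : 0 ≤ i.η * |i.c2| := mul_nonneg i.hη.le (abs_nonneg _)
lemma M_nonneg : 0 ≤ i.M := add_nonneg i.N_nonneg i.ηc_nonneg
lemma R_nonneg : 0 ≤ i.R := apply_nonneg _ _

/-- the radial coupling -/
def Λ (w : H) : ℝ :=
  J (H1.d i.h * avg ((i.G.At + b⁻¹ • i.Att) * H.f w + b⁻¹ • (i.G.At * H.ft w)))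

omit i

lemma ev_den : ∀ᶠ i : Ix Ds F C κ0 in fl, i.den ≠ 0 := by
  have h1 : (fun i : Ix Ds F C κ0 => i.den - π / 4) =O[fl] η := by
    have := J_O (f_O (prc_O (2 * Ds.n) (nr_φ0' (Ds := Ds) (F := F) (C := C) (κ0 := κ0))))
      (sn_const PJ.nrm s1)
    refine this.congr (fun i => ?_) (fun i => mul_one _)
    rw [map_sub, map_sub, Ds.prc_e2, sub_mul, map_sub, map_smul, smul_mul_assoc, map_smul, f_S1,
      J_s1_s1, den, smul_eq_mul]
    ring
  have h2 := (h1.trans_tendsto hη0).add_const (π / 4)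
  simp only [sub_add_cancel, zero_add] at h2
  exact h2.eventually_ne (by positivity)

lemma ev_2n : ∀ᶠ i : Ix Ds F C κ0 in fl, J (H1.f (prc (2 * Ds.n) i.r) * s1) = 0 := by
  filter_upwards [ev_den] with i hi
  have := Ds.n_pos
  rw [prc2_r, i.prc_u (by omega), φ', map_sub, map_sub, map_smul, map_smul, sub_mul, map_sub,
    smul_mul_assoc, map_smul, c2, smul_eq_mul, ← den, div_mul_cancel₀ _ hi, sub_self]

lemma N_O : (N : Ix Ds F C κ0 → ℝ) =O[fl] M :=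
  O_left (isBigO_refl _ _) N_nonneg ηc_nonneg

lemma c_O : (fun i : Ix Ds F C κ0 => i.η * i.c2) =O[fl] M :=
  (O_of_abs_le fun i => by rw [norm_mul, Real.norm_of_nonneg i.hη.le, Real.norm_eq_abs]).trans
    (O_right (isBigO_refl _ _) N_nonneg ηc_nonneg)

lemma v_O : (fun i : Ix Ds F C κ0 => PJ.nrm i.v) =O[fl] M :=
  (O_left (isBigO_refl _ _) (fun _ => apply_nonneg _ _)
    (fun _ => Finset.sum_nonneg fun _ _ => apply_nonneg _ _)).trans N_O

lemma Y_O (k : ℤ) : (fun i : Ix Ds F C κ0 => H1.nr (i.Y k)) =O[fl] M := by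
  by_cases hk : k ∈ Ds.K
  · refine (O_of_abs_le fun i => ?_).trans N_O
    rw [Real.norm_of_nonneg (apply_nonneg _ _)]
    exact le_add_of_nonneg_of_le (apply_nonneg _ _)
      (Finset.single_le_sum (f := fun k => H1.nr (i.Y k)) (fun _ _ => apply_nonneg _ _) hk)
  · simpa [Y_off _ k hk] using isBigO_zero _ _

lemma dh_O : (fun i : Ix Ds F C κ0 => PJ.nrm (H1.d i.h)) =O[fl] M := by
  simpa only [d_h] using cmul_O PJ (ex b) v_O

lemma h_O : (fun i : Ix Ds F C κ0 => H.nr (embc 0 i.h)) =O[fl] M :=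
  embc_O 0 (sn_le _ _ 2 (fun i => nr_le_d i.h) dh_O)

lemma UY_O : (fun i : Ix Ds F C κ0 => H.nr (Ds.U i.Y)) =O[fl] M :=
  sn_sum _ _ (fun k _ => embc_O k (Y_O k))

lemma half_O : (fun i : Ix Ds F C κ0 => i.η / 2) =O[fl] η :=
  ((isBigO_refl η fl).const_mul_left (1/2 : ℝ)).congr_left (fun i => by ring)

lemma Uy_O : (fun i : Ix Ds F C κ0 => H.nr ((i.η / 2) • Ds.U i.Y)) =O[fl] fun i => i.η * i.M :=
  sn_smul _ half_O UY_O

lemma u_O : (fun i : Ix Ds F C κ0 => H.nr i.u) =O[fl] fun i => i.η * i.M + i.R := by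
  simp only [u_eq]
  have a := fun i : Ix Ds F C κ0 => mul_nonneg i.hη.le i.M_nonneg
  exact sn_add _ (O_left Uy_O a R_nonneg) (O_right (isBigO_refl _ _) a R_nonneg)

lemma g1_left {f : Ix Ds F C κ0 → ℝ} (h : f =O[fl] fun i => i.η ^ 2 * i.M) : f =O[fl] g1 :=
  O_left h (fun i => mul_nonneg (sq_nonneg _) i.M_nonneg) (fun i => mul_nonneg i.hη.le i.R_nonneg)

lemma g1_right {f : Ix Ds F C κ0 → ℝ} (h : f =O[fl] fun i => i.η * i.R) : f =O[fl] g1 :=
  O_right h (fun i => mul_nonneg (sq_nonneg _) i.M_nonneg) (fun i => mul_nonneg i.hη.le i.R_nonneg)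

lemma φ_O : (fun i : Ix Ds F C κ0 => i.η ^ 3 * H.nr i.φ) =O[fl] g1 := by
  have h1 : (fun i : Ix Ds F C κ0 => H.nr (i.η ^ 3 • i.c2 • i.G.φ0)) =O[fl] g1 := by
    refine g1_left ((sn_smul H.nr (((isBigO_refl η fl).pow 2).mul c_O) nr_φ0'').congr
      (fun i => ?_) (fun i => mul_one _))
    rw [smul_smul]; congr 2; ring
  have h2 : (fun i : Ix Ds F C κ0 => H.nr (i.η ^ 3 • embc 0 i.h)) =O[fl] g1 :=
    g1_left (O_drop hη0 1 (sn_smul H.nr ((isBigO_refl η fl).pow 3) h_O) (fun i => by ring))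
  have h3 : (fun i : Ix Ds F C κ0 => H.nr (i.η ^ 3 • i.u)) =O[fl] g1 :=
    O_drop hη0 2 (sn_smul H.nr ((isBigO_refl η fl).pow 3) u_O) (fun i => by rw [g1]; ring)
  refine (sn_add _ h1 (sn_add _ h2 h3)).congr_left (fun i => ?_)
  rw [← smul_add, ← smul_add, ← φ'_eq, ← φ_eq, map_smul_eq_mul,
    Real.norm_of_nonneg (pow_nonneg i.hη.le 3)]

lemma ex_ct : Ex2 fl η (fun i : Ix Ds F C κ0 => i.G.At + b⁻¹ • i.Att) 0
    (Ds.pol Ds.α1 + b⁻¹ • Ds.pol Ds.α2) :=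
  (ex_At.add (ex_Att.csmul b⁻¹)).congr (fun i => rfl) (by simp) rfl

variable {w : Ix Ds F C κ0 → H} {gw : Ix Ds F C κ0 → ℝ}

lemma Pc_O (h0 : ∀ i, prc 0 (w i) = 0) (hw : (fun i => H.nr (w i)) =O[fl] gw) :
    (fun i => H1.nr (i.G.Pc i.hAtt (w i))) =O[fl] fun i => i.η * gw i := by
  have a0 : ∀ i, avg (H.f (w i)) = 0 := fun i => by rw [← cm_zero, ← f_prc, h0, map_zero]
  have a1 : ∀ i, avg (H.ft (w i)) = 0 := fun i => by rw [← cm_zero, ← d_prc, h0, map_zero]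
  have h1 := avg_O (mul_O P2 (ex_c.O1 hη0) (Hf_O hw))
  have h2 := avg_O (sn_add _ (mul_O P2 (ex_ct.O1 hη0) (Hf_O hw))
    (mul_O P2 (ex_c.O1 hη0) (Hft_O hw)))
  refine (h1.add h2).congr_left (fun i => ?_)
  simp only [H1.nr_apply, Geo.f_Pc, Geo.d_Pc, sub_mul, one_mul, map_sub, map_add, a0, a1, sub_zero]

/-- the basic test identity -/
theorem T0 (h0 : ∀ i, prc 0 (w i) = 0) (hw : (fun i => H.nr (w i)) =O[fl] gw) :
    (fun i => Qf i.G.PB i.u (w i) - i.Λ (w i)) =O[fl] fun i => i.η * i.g1 * gw i := by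
  have hp := embc_O 0 (Pc_O h0 hw)
  have hw' := sn_sub _ hw (O_drop hη0 1 hp (g' := gw) (fun i => by ring))
  have h1 : (fun i => i.G.B i.φ (w i - embc 0 (i.G.Pc i.hAtt (w i))))
      =O[fl] fun i => i.η * i.g1 * gw i := by
    refine (O_of_abs_le fun i => ?_).trans (((isBigO_refl η fl).mul φ_O).mul hw')
    refine (i.hφ _ (Geo.avg_test i.hAtt i.exa _)).trans ?_
    have a1 := H.f_le i.φ
    have a2 := H.f_le (w i - embc 0 (i.G.Pc i.hAtt (w i)))
    have a3 := i.hη.le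
    rw [← mul_assoc, show i.η * i.η ^ 3 = i.η ^ 4 by ring]
    gcongr
  have h2 := (Qf_1 hη0 ex_PB u_O hp).congr_right
    (g₂ := fun i => i.η * i.g1 * gw i) (fun i => by rw [g1]; ring)
  refine (h1.add h2).congr_left (fun i => ?_)
  have e0 := i.exa.ker (w i - embc 0 (i.G.Pc i.hAtt (w i)))
  rw [Geo.B_eqQ] at e0
  rw [B0_embc, prc0_u, Q1_zero, Geo.B_eqQ, φ_eq, φ'_eq, map_add, map_add, map_smul,
    LinearMap.add_apply, LinearMap.add_apply, LinearMap.smul_apply, e0,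
    Geo.B_test i.hAtt i.exa, map_sub, Λ]
  simp only [smul_zero]
  ring

lemma avg_pol_mul (y : ℤ → D0) (G : C2) :
    avg (Ds.pol y * G) = ∑ k ∈ Ds.K, (1/2 : ℝ) • y k * cm k G := by
  simp only [Des.pol, Finset.sum_mul, map_sum, mul_assoc, avg_ι_mul, cm_apply]

lemma Λ_O (hw : (fun i => H.nr (w i)) =O[fl] gw) :
    (fun i => i.Λ (w i) - i.η / 2 * ∑ k ∈ Ds.K, J (i.v * (Ds.g' k * H1.f (prc k (w i))
      + Ds.g k * H1.d (prc k (w i))))) =O[fl] fun i => i.η ^ 2 * i.M * gw i := by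
  have h1 := avg_O (sn_add _ (mul_O P2 ex_ct (Hf_O hw)) (mul_O P2 (ex_At.csmul b⁻¹) (Hft_O hw)))
  refine (J_O dh_O h1).congr (fun i => ?_) (fun i => by ring)
  have e : ∀ a c d e f g : C2, ∀ s : ℝ, (a - 0 - s • c) * f + (d - b⁻¹ • (0:C2) - s • e) * g
      = (a * f + d * g) - s • (c * f + e * g) := by
    intro a c d e f g s
    simp only [Algebra.smul_def]; ring
  rw [e, map_sub, mul_sub, map_sub, Λ, smul_mul_assoc]
  congr 1
  rw [← map_sum, ← smul_eq_mul (i.η / 2), ← map_smul]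
  congr 1
  simp only [add_mul, smul_mul_assoc, map_smul, map_add, avg_pol_mul, Finset.smul_sum,
    ← Finset.sum_add_distrib, Finset.mul_sum, d_h, Des.g, Des.g', f_prc, d_prc]
  refine Finset.sum_congr rfl (fun k _ => ?_)
  ext t
  have := b_pos.ne'
  simp
  field_simp
  ring

/-- tests away from the design modes -/
theorem T1 (h0 : ∀ i, prc 0 (w i) = 0) (hK : ∀ i, ∀ k ∈ Ds.K, prc k (w i) = 0)
    (hw : (fun i => H.nr (w i)) =O[fl] gw) :
    (fun i => Qf (PB0 Ds.n) i.r (w i)) =O[fl] fun i => i.g1 * gw i := by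
  have h1 : _ =O[fl] fun i => i.g1 * gw i := O_drop hη0 1 (T0 h0 hw) (fun i => by ring)
  have h2 : _ =O[fl] fun i => i.g1 * gw i :=
    (Λ_O hw).trans ((g1_left (isBigO_refl _ _)).mul (isBigO_refl gw _))
  have h3 := (Qf_1 hη0 ex_PB u_O hw).congr_right
    (g₂ := fun i => i.g1 * gw i) (fun i => by rw [g1]; ring)
  refine ((h1.add h2).sub h3).congr_left (fun i => ?_)
  have e1 : Qf (PB0 Ds.n) (Ds.U i.Y) (w i) = 0 := by
    rw [Qf_symm, Des.U, map_sum]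
    exact Finset.sum_eq_zero (fun k hk => by rw [B0_embc, hK i k hk, Q1_zero])
  have e2 : ∑ k ∈ Ds.K, J (i.v * (Ds.g' k * H1.f (prc k (w i))
      + Ds.g k * H1.d (prc k (w i)))) = 0 :=
    Finset.sum_eq_zero (fun k hk => by simp [hK i k hk])
  have e3 : Qf (PB0 Ds.n) i.u (w i) = Qf (PB0 Ds.n) i.r (w i) := by
    rw [u_eq, map_add, map_smul, LinearMap.add_apply, LinearMap.smul_apply, e1, smul_zero, zero_add]
  rw [e2, e3]; ring

end Ix

end

end Pool.Agent.P.MP_0d657e_an
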