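import Pool.Agent.P.MP_0d657e_an.D5

/-! The remainder is of second order. -/

open Set Real Asymptotics Filter Topology

namespace Pool.Agent.P.MP_0d657e_an

noncomputable section

lemma res_iff {n : ℕ} (hn : 0 < n) {k m : ℤ} (h : ((k:ℝ) / n) ^ 2 = (m:ℝ) ^ 2) :
    k = m * n ∨ k = -(m * n) := by
  have : (n:ℝ) ≠ 0 := by exact_mod_cast hn.ne'
  rw [div_pow, div_eq_iff (by positivity), ← mul_pow] at h
  have h2 : k ^ 2 = (m * n) ^ 2 := by exact_mod_cast h
  exact sq_eq_sq_iff_eq_or_eq_neg.1 h2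

lemma O_const_cancel {X : Type*} {l : Filter X} {c : ℝ} (hc : c ≠ 0) {f g : X → ℝ}
    (h : (fun i => c * f i) =O[l] g) : f =O[l] g :=
  (h.const_mul_left c⁻¹).congr_left (fun i => by rw [← mul_assoc, inv_mul_cancel₀ hc, one_mul])

lemma Des.B0_n (Ds : Des) (w : H) : Qf (PB0 Ds.n) (embs Ds.n S2) w = 0 := by
  rw [Qf_symm, B0_embs, Q1_S2]; simp [Ds.n_ne]; norm_num

lemma Des.B0_2n (Ds : Des) (w : H) : Qf (PB0 Ds.n) (embs (2 * Ds.n) S1) w = 0 := by
  rw [Qf_symm, B0_embs, Q1_S1]; simp [Ds.n_ne]; norm_num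

namespace Ix

variable {Ds : Des} {F : Ds.First} {C κ0 : ℝ} (i : Ix Ds F C κ0)

/-- first odd resonant coefficient -/
def a1 : ℝ := 4 / π * J (H1.f (prs Ds.n i.r) * s2)
/-- second odd resonant coefficient -/
def a2 : ℝ := 4 / π * J (H1.f (prs (2 * Ds.n) i.r) * s1)
/-- non resonant remainder -/
def r2 : H := i.r - (i.a1 • embs Ds.n S2 + i.a2 • embs (2 * Ds.n) S1)

lemma B0_r2 (w : H) : Qf (PB0 Ds.n) i.r2 w = Qf (PB0 Ds.n) i.r w := by
  simp [r2, Ds.B0_n, Ds.B0_2n]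

lemma prc_r2 (k : ℤ) : prc k i.r2 = prc k i.r := by simp [r2]

lemma r2_n : J (H1.f (prs Ds.n i.r2) * s2) = 0 := by
  have := Ds.n_pos
  have hp := pi_pos
  simp only [r2, map_sub, map_add, map_smul, prs_embs]
  rw [if_pos (by omega), if_neg (by omega), if_neg (by omega), if_neg (by omega)]
  simp only [f_S2, map_zero, sub_zero, smul_zero, add_zero, sub_mul, smul_mul_assoc, map_sub,
    map_smul, J_s2_s2, a1, smul_eq_mul]
  field_simp
  ring

lemma r2_2n : J (H1.f (prs (2 * Ds.n) i.r2) * s1) = 0 := by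
  have := Ds.n_pos
  have hp := pi_pos
  simp only [r2, map_sub, map_add, map_smul, prs_embs]
  rw [if_neg (by omega), if_neg (by omega), if_pos (by omega), if_neg (by omega)]
  simp only [f_S1, map_zero, sub_zero, smul_zero, zero_add, sub_mul, smul_mul_assoc, map_sub,
    map_smul, J_s1_s1, a2, smul_eq_mul]
  field_simp
  ring

omit i

lemma T1c {k : ℤ} (h0 : k ≠ 0) (hk : k ∉ Ds.K) (θ : H1) :
    (fun i : Ix Ds F C κ0 => Q1 (((k:ℝ) / Ds.n) ^ 2 - 5) (prc k i.r) θ) =O[fl] g1 := by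
  have h := T1 (Ds := Ds) (F := F) (C := C) (κ0 := κ0) (w := fun _ => embc k θ)
    (fun _ => by rw [prc_embc, if_neg (by omega), if_neg (by omega)]; simp)
    (fun _ m hm => by
      rw [prc_embc, if_neg, if_neg]
      · simp
      · intro e; exact hk (by rwa [show k = m by omega])
      · intro e; exact hk (by rw [show k = -m by omega]; exact Ds.K_neg m hm))
    (sn_const _ _)
  simpa only [B0_embc, mul_one] using h

lemma T1s (k : ℤ) (θ : H1) :
    (fun i : Ix Ds F C κ0 => Q1 (((k:ℝ) / Ds.n) ^ 2 - 5) (prs k i.r2) θ) =O[fl] g1 := by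
  have h := T1 (Ds := Ds) (F := F) (C := C) (κ0 := κ0) (w := fun _ => embs k θ)
    (fun _ => prc_embs _ _ _) (fun _ m _ => prc_embs _ _ _) (sn_const _ _)
  exact h.congr (fun i => by rw [← B0_r2, B0_embs]) (fun i => mul_one _)

lemma lowc (k : ℤ) : (fun i : Ix Ds F C κ0 => low (prc k i.r2)) =O[fl] fun i => i.g1 ^ 2 := by
  simp only [prc_r2]
  by_cases h0 : k = 0
  · simpa [h0, prc0_r, low] using isBigO_zero _ _
  by_cases hk : k ∈ Ds.K
  · simpa [prc_r_K _ hk, low] using isBigO_zero _ _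
  refine (IsBigO.pow ?_ 2).add (IsBigO.pow ?_ 2)
  · by_cases hr : 1 + (((k:ℝ) / Ds.n) ^ 2 - 5) = 0
    · have hz : (fun _ => (0:ℝ)) =O[fl] (g1 : Ix Ds F C κ0 → ℝ) := isBigO_zero _ _
      refine hz.congr' ?_ EventuallyEq.rfl
      filter_upwards [ev_2n] with i hi
      rcases res_iff Ds.n_pos (k := k) (m := 2) (by push_cast; linarith) with e | e
      · rw [e, hi]
      · rw [e, prc_neg, hi]
    · exact O_const_cancel hr (by simpa only [Q1_S1] using T1c h0 hk S1)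
  · have hr : 4 + (((k:ℝ) / Ds.n) ^ 2 - 5) ≠ 0 := by
      intro hr
      rcases res_iff Ds.n_pos (k := k) (m := 1) (by push_cast; linarith) with e | e
      · exact hk (by rw [e, one_mul]; exact Ds.m1)
      · exact hk (by rw [e, one_mul]; exact Ds.K_neg _ Ds.m1)
    exact O_const_cancel hr (by simpa only [Q1_S2] using T1c h0 hk S2)

lemma lows (k : ℤ) : (fun i : Ix Ds F C κ0 => low (prs k i.r2)) =O[fl] fun i => i.g1 ^ 2 := by
  refine (IsBigO.pow ?_ 2).add (IsBigO.pow ?_ 2)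
  · by_cases hr : 1 + (((k:ℝ) / Ds.n) ^ 2 - 5) = 0
    · have hz : (fun _ => (0:ℝ)) =O[fl] (g1 : Ix Ds F C κ0 → ℝ) := isBigO_zero _ _
      refine hz.congr_left (fun i => ?_)
      rcases res_iff Ds.n_pos (k := k) (m := 2) (by push_cast; linarith) with e | e
      · rw [e, r2_2n]
      · rw [e, prs_neg, map_neg, neg_mul, map_neg, r2_2n, neg_zero]
    · exact O_const_cancel hr (by simpa only [Q1_S1] using T1s k S1)
  · by_cases hr : 4 + (((k:ℝ) / Ds.n) ^ 2 - 5) = 0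
    · have hz : (fun _ => (0:ℝ)) =O[fl] (g1 : Ix Ds F C κ0 → ℝ) := isBigO_zero _ _
      refine hz.congr_left (fun i => ?_)
      rcases res_iff Ds.n_pos (k := k) (m := 1) (by push_cast; linarith) with e | e
      · rw [e, one_mul, r2_n]
      · rw [e, one_mul, prs_neg, map_neg, neg_mul, map_neg, r2_n, neg_zero]
    · exact O_const_cancel hr (by simpa only [Q1_S2] using T1s k S2)

lemma g1_nonneg (i : Ix Ds F C κ0) : 0 ≤ i.g1 :=
  add_nonneg (mul_nonneg (sq_nonneg _) i.M_nonneg) (mul_nonneg i.hη.le i.R_nonneg)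

lemma r2_O : (fun i : Ix Ds F C κ0 => H.nr i.r2) =O[fl] g1 := by
  refine absorb_sq ?_
  have p1 := fun i : Ix Ds F C κ0 => mul_nonneg i.g1_nonneg (apply_nonneg H.nr i.r2)
  have p2 := fun i : Ix Ds F C κ0 => sq_nonneg i.g1
  have h1 := O_left (T1 (w := r2) (fun i => by rw [prc_r2, prc0_r])
    (fun i k hk => by rw [prc_r2, prc_r_K _ hk]) (isBigO_refl _ _)) p1 p2
  have h2 := O_right (IsBigO.sum (s := Finset.Icc (-(2 * Ds.n : ℤ)) (2 * Ds.n))
    (fun k _ => ((lowc k).add (lows k)).const_mul_left 5)) p1 p2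
  have := Ds.n_pos
  refine O_const_cancel (c := (27 * (Ds.n:ℝ) ^ 3)⁻¹) (by positivity)
    ((O_of_abs_le fun i => ?_).trans (h1.add h2))
  rw [Real.norm_of_nonneg (by positivity), ← B0_r2, Finset.sum_apply]
  exact garding Ds.n_pos i.r2

lemma T2 (k : ℤ) (θ : H1) (hθ : ∀ w, Qf (PB0 Ds.n) (embs k θ) w = 0) :
    (fun i : Ix Ds F C κ0 => i.a1 * Qf Ds.PB1 (embs Ds.n S2) (embs k θ)
      + i.a2 * Qf Ds.PB1 (embs (2 * Ds.n) S1) (embs k θ)) =O[fl] g1 := by
  have hw : (fun _ : Ix Ds F C κ0 => H.nr (embs k θ)) =O[fl] fun _ => (1:ℝ) := sn_const _ _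
  have h1 := T0 (fun _ => prc_embs _ _ _) hw
  have h2 := (Qf_2 ex_PB u_O hw).congr_right
    (g₂ := fun i => i.η * i.g1 * 1) (fun i => by rw [g1]; ring)
  have h3 := ((isBigO_refl η fl).mul (Qf_c Ds.PB1 r2_O hw)).congr_right
    (g₂ := fun i => i.η * i.g1 * 1) (fun i => by ring)
  refine O_cancel (c := η) (Eventually.of_forall fun i => i.hη.ne')
    (((h1.sub h2).sub h3).congr (fun i => ?_) (fun i => mul_one _))
  have e1 : i.Λ (embs k θ) = 0 := by
    have : ∀ (y : ℤ → D0) (q z : D0),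
        avg ((∑ k ∈ Ds.K, ι (y k) * cx k + ι q * cx (2 * Ds.n)) * (ι z * sx k)) = 0 := by
      intro y q z
      rw [mul_left_comm, avg_ι_mul, mul_comm _ (sx k), ← sm_apply, map_add, sm_sum, sm_ι_mul,
        sm_cx]
      simp
    rw [Λ, f_embs, ft_embs, add_mul, smul_mul_assoc, map_add avg, map_add avg, map_smul, map_smul,
      At_eq, Att, this, this, this]
    simp
  have e2 : Qf (PB0 Ds.n) i.u (embs k θ) = 0 := by rw [Qf_symm, hθ]
  have e3 : Qf Ds.PB1 i.u (embs k θ) = Qf Ds.PB1 i.r (embs k θ) := by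
    rw [u_eq, map_add, map_smul, LinearMap.add_apply, LinearMap.smul_apply, Ds.B1_U_s, smul_zero,
      zero_add]
  rw [e1, e2, e3, r2]
  simp only [map_sub, map_add, map_smul, LinearMap.sub_apply, LinearMap.add_apply,
    LinearMap.smul_apply, smul_eq_mul]
  ring

lemma a1_O : (a1 : Ix Ds F C κ0 → ℝ) =O[fl] g1 := by
  have h := T2 (Ds := Ds) (F := F) (C := C) (κ0 := κ0) _ _ Ds.B0_2n
  simp only [Ds.B1_22, mul_zero, add_zero, mul_comm (a1 _)] at h
  exact O_const_cancel Ds.B1_n2 h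

lemma a2_O : (a2 : Ix Ds F C κ0 → ℝ) =O[fl] g1 := by
  have h := T2 (Ds := Ds) (F := F) (C := C) (κ0 := κ0) _ _ Ds.B0_n
  simp only [Ds.B1_nn, mul_zero, zero_add, mul_comm (a2 _), Qf_symm _ (embs (2 * Ds.n) S1)] at h
  exact O_const_cancel Ds.B1_n2 h

theorem R_O : (R : Ix Ds F C κ0 → ℝ) =O[fl] fun i => i.η ^ 2 * i.M := by
  refine absorb hη0 ?_
  have h1 := (sn_smul H.nr a1_O (sn_const H.nr (embs Ds.n S2))).congr_right
    (g₂ := (g1 : Ix Ds F C κ0 → ℝ)) (fun i => mul_one _)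
  have h2 := (sn_smul H.nr a2_O (sn_const H.nr (embs (2 * Ds.n) S1))).congr_right
    (g₂ := (g1 : Ix Ds F C κ0 → ℝ)) (fun i => mul_one _)
  exact (sn_add _ r2_O (sn_add _ h1 h2)).congr_left (fun i => by rw [r2, sub_add_cancel, R])

lemma g1_O : (g1 : Ix Ds F C κ0 → ℝ) =O[fl] fun i => i.η ^ 2 * i.M :=
  (isBigO_refl _ _).add (O_drop hη0 1 ((isBigO_refl η fl).mul R_O) (fun i => by ring))

lemma u_O' : (fun i : Ix Ds F C κ0 => H.nr i.u) =O[fl] fun i => i.η * i.M :=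
  u_O.trans ((isBigO_refl _ _).add (O_drop hη0 1 R_O (fun i => by ring)))

end Ix

end

end Pool.Agent.P.MP_0d657e_an
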