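import Pool.Agent.P.MP_0d657e_an.D6

/-! Expansion of the quadratic obstruction. -/

open Set Real Asymptotics Filter Topology

namespace Pool.Agent.P.MP_0d657e_an

noncomputable section

lemma nr_KT_le : ∃ c : ℝ, ∀ w : H1, H1.nr (KT w) ≤ c * H1.nr w := by
  refine ⟨‖c1‖ + ‖2 * s1‖ * π + ‖c1‖ + ‖s1‖ + ‖2 * c1‖ * π, fun w => ?_⟩
  have hV : PJ.nrm (V (H1.f w)) ≤ π * H1.nr w := by
    have h1 := nrm_le_norm' (V (H1.f w))
    have h2 := norm_V_le (H1.f w)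
    have h3 := H1.f_le w
    rw [sub_zero] at h1 h2
    have h4 := Real.mul_self_sqrt pi_pos.le
    have h5 := Real.sqrt_nonneg π
    calc _ ≤ √π * (√π * H1.nr w) := h1.trans (mul_le_mul_of_nonneg_left
          (h2.trans (mul_le_mul_of_nonneg_left h3 h5)) h5)
      _ = _ := by rw [← mul_assoc, h4]
  have k : ∀ (P y : D0) (c : ℝ), PJ.nrm y ≤ c → PJ.nrm (P * y) ≤ ‖P‖ * c := fun P y c h =>
    (PJ.nrm_mul_le P y).trans (mul_le_mul_of_nonneg_left h (norm_nonneg _))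
  have a1 := k c1 _ _ (H1.f_le w)
  have a2 := k (2 * s1) _ _ hV
  have a3 := k c1 _ _ (H1.d_le w)
  have a4 := k s1 _ _ (H1.f_le w)
  have a5 := k (2 * c1) _ _ hV
  have b1 := map_add_le_add PJ.nrm (c1 * H1.f w) (2 * s1 * V (H1.f w))
  have b2 := map_add_le_add PJ.nrm (c1 * H1.d w + s1 * H1.f w) (2 * c1 * V (H1.f w))
  have b3 := map_add_le_add PJ.nrm (c1 * H1.d w) (s1 * H1.f w)
  rw [H1.nr_apply (KT w), f_KT, d_KT]
  linarith

lemma Des.g_neg (Ds : Des) (k : ℤ) : Ds.g (-k) = Ds.g k := by simp [Des.g, Ds.α1_neg]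
lemma Des.g'_neg (Ds : Des) (k : ℤ) : Ds.g' (-k) = Ds.g' k := by
  simp [Des.g', Ds.α1_neg, Ds.α2_neg]

namespace Ix

variable {Ds : Des} {F : Ds.First} {C κ0 : ℝ}

lemma T0' {w : Ix Ds F C κ0 → H} {gw : Ix Ds F C κ0 → ℝ} (h0 : ∀ i, prc 0 (w i) = 0)
    (hw : (fun i => H.nr (w i)) =O[fl] gw) :
    (fun i => Qf (PB0 Ds.n) i.u (w i) + i.η * (i.η / 2 * Qf Ds.PB1 (Ds.U i.Y) (w i)) - i.Λ (w i))
      =O[fl] fun i => i.η ^ 3 * i.M * gw i := by
  have h1 := (T0 h0 hw).trans ((((isBigO_refl η fl).mul g1_O).mul (isBigO_refl gw fl)).congr_right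
    (g₂ := fun i => i.η ^ 3 * i.M * gw i) (fun i => by ring))
  have h2 := (Qf_2 ex_PB u_O' hw).congr_right
    (g₂ := fun i => i.η ^ 3 * i.M * gw i) (fun i => by ring)
  have h3 := ((isBigO_refl η fl).mul (Qf_c Ds.PB1 R_O hw)).congr_right
    (g₂ := fun i => i.η ^ 3 * i.M * gw i) (fun i => by ring)
  refine ((h1.sub h2).sub h3).congr_left (fun i => ?_)
  have e3 : Qf Ds.PB1 i.u (w i) = i.η / 2 * Qf Ds.PB1 (Ds.U i.Y) (w i) + Qf Ds.PB1 i.r (w i) := by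
    rw [u_eq, map_add, map_smul, LinearMap.add_apply, LinearMap.smul_apply, smul_eq_mul]
  rw [e3]; ring

lemma prc0_embc {k : ℤ} (hk : k ≠ 0) (θ : H1) : prc 0 (embc k θ) = 0 := by
  rw [prc_embc, if_neg (by omega), if_neg (by omega)]; simp

/-- the approximate first order equations -/
lemma con_O {k : ℤ} (hk : k ∈ Ds.K) {θ : Ix Ds F C κ0 → H1} {g : Ix Ds F C κ0 → ℝ}
    (hθ : (fun i => H1.nr (θ i)) =O[fl] g) :
    (fun i => Q1 (Ds.κ k ^ 2 - 5) (i.Y k) (θ i)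
      - J (i.v * (Ds.g' k * H1.f (θ i) + Ds.g k * H1.d (θ i)))) =O[fl] fun i => i.η * i.M * g i := by
  have hk0 : k ≠ 0 := fun h => Ds.m0 (h ▸ hk)
  have hw := embc_O k hθ
  have h1 : _ =O[fl] fun i => i.η ^ 2 * i.M * g i :=
    O_drop hη0 1 (T0' (fun i => prc0_embc hk0 _) hw) (fun i => by ring)
  have h2 := Λ_O hw
  have h3 := ((isBigO_refl η fl).mul (half_O.mul (Qf_c Ds.PB1 UY_O hw))).congr_right
    (g₂ := fun i => i.η ^ 2 * i.M * g i) (fun i => by ring)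
  refine O_cancel (c := η) (Eventually.of_forall fun i => i.hη.ne')
    ((((h1.add h2).sub h3).const_mul_left 2).congr (fun i => ?_) (fun i => by ring))
  have e1 : ∑ m ∈ Ds.K, J (i.v * (Ds.g' m * H1.f (prc m (embc k (θ i)))
      + Ds.g m * H1.d (prc m (embc k (θ i)))))
      = J (i.v * (Ds.g' k * H1.f (θ i) + Ds.g k * H1.d (θ i))) := by
    have e : ∀ m, J (i.v * (Ds.g' m * H1.f (prc m (embc k (θ i)))
        + Ds.g m * H1.d (prc m (embc k (θ i))))) =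
        (if -k = m then (1/2) * J (i.v * (Ds.g' k * H1.f (θ i) + Ds.g k * H1.d (θ i))) else 0)
        + if k = m then (1/2) * J (i.v * (Ds.g' k * H1.f (θ i) + Ds.g k * H1.d (θ i))) else 0 := by
      intro m
      rw [prc_embc]
      by_cases h1 : -k = m
      · rw [if_pos (by omega), if_neg (by omega), if_pos h1, if_neg (by omega), ← h1, Ds.g_neg,
          Ds.g'_neg]
        simp [mul_add]
      · by_cases h2 : k = m
        · rw [if_neg (by omega), if_pos (by omega), if_neg h1, if_pos h2, ← h2]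
          simp [mul_add]
        · rw [if_neg (by omega), if_neg (by omega), if_neg h1, if_neg h2]
          simp
    simp only [e, Finset.sum_add_distrib, Finset.sum_ite_eq, if_pos hk, if_pos (Ds.K_neg k hk)]
    ring
  rw [e1, B0_embc, i.prc_u_K hk, y_eq, smul_eq_mul]
  simp only [Q1, Des.κ, map_smul, map_add, smul_mul_assoc, smul_eq_mul]
  ring

lemma Λ_embc (i : Ix Ds F C κ0) (k : ℤ) (θ : H1) : i.Λ (embc k θ) =
    J (H1.d i.h * ((cm k i.G.At + b⁻¹ • cm k i.Att) * H1.f θ + b⁻¹ • cm k i.G.At * H1.d θ)) := by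
  have e : ∀ (G : C2) (y : D0), avg (G * (ι y * cx k)) = cm k G * y := fun G y => by
    rw [mul_left_comm, avg_ι_mul, mul_comm G, ← cm_apply, mul_comm]
  rw [Λ, f_embc, ft_embc, map_add, map_smul, e, e, map_add, map_smul, smul_mul_assoc]

lemma fine : (fun i : Ix Ds F C κ0 => J (i.v * H1.d S2)) =O[fl] fun i => i.η ^ 2 * i.M := by
  have hn := Ds.n_pos
  have h1 := T0' (Ds := Ds) (F := F) (C := C) (κ0 := κ0) (w := fun _ => embc Ds.n S2)
    (fun i => prc0_embc (by omega) _) (sn_const _ _)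
  refine O_cancel (c := η) (Eventually.of_forall fun i => i.hη.ne')
    ((h1.const_mul_left (-2)).congr (fun i => ?_) (fun i => by ring))
  have e0 : cm Ds.n (cx (2 * Ds.n)) = 0 := by
    rw [cm_cx, if_neg (by omega), if_neg (by omega)]; simp
  have e2 : Ds.α2 Ds.n = -(b • b • om) := D1.unique pi_pos (Ds.hα1 _) (by
    rw [Ds.αn]; exact (D1_om.smul b).congr' (by simp))
  rw [B0_embc, Q1_S2, Ds.B1_U_n, Λ_embc, At_eq, Att, map_add, map_add, cm_sum Ds.K_neg i.Ah1_neg,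
    cm_sum Ds.K_neg i.Ah2_neg, if_pos Ds.m1, if_pos Ds.m1, cm_ι_mul, cm_ι_mul, e0, Ah1_n, Ah2_n,
    Ds.αn, e2, Int.cast_natCast, div_self Ds.n_ne, ← map_smul, show (4 + ((1:ℝ) ^ 2 - 5)) = 0 by norm_num]
  simp only [zero_mul, mul_zero, zero_add, add_zero, zero_sub, mul_neg, neg_mul, neg_neg]
  rw [← smul_eq_mul (2:ℝ), ← map_smul]
  congr 1
  ext t
  have := b_pos.ne'
  simp [v]
  field_simp
  ring

lemma I0' : (fun i : Ix Ds F C κ0 => Qf i.G.PI i.φ' i.G.φ0) =O[fl] fun i => i.η ^ 2 * i.M := by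
  have h1 := (Qf_2 ex_PI h_O (nr_φ0'' (Ds := Ds) (F := F) (C := C) (κ0 := κ0))).congr_right
    (g₂ := fun i => i.η ^ 2 * i.M) (fun i => by ring)
  have h2 := (Qf_c Ds.PI0 h_O (nr_φ0 (Ds := Ds) (F := F) (C := C) (κ0 := κ0))).congr_right
    (g₂ := fun i => i.η ^ 2 * i.M) (fun i => by ring)
  have h3 := ((isBigO_refl η fl).mul
    (Qf_c (Ds.PI1 F) h_O (nr_φ0' (Ds := Ds) (F := F) (C := C) (κ0 := κ0)))).congr_right
    (g₂ := fun i => i.η ^ 2 * i.M) (fun i => by ring)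
  have h4 := (fine (Ds := Ds) (F := F) (C := C) (κ0 := κ0)).const_mul_left (-(1/2))
  have h5 := (Qf_1 hη0 ex_PI u_O' (nr_φ0'' (Ds := Ds) (F := F) (C := C) (κ0 := κ0))).congr_right
    (g₂ := fun i => i.η ^ 2 * i.M) (fun i => by ring)
  have h6 := (Qf_c Ds.PI0 u_O' (nr_φ0' (Ds := Ds) (F := F) (C := C) (κ0 := κ0))).congr_right
    (g₂ := fun i => i.η ^ 2 * i.M) (fun i => by ring)
  have h7 := (Qf_c Ds.PI0 (R_O (Ds := Ds) (F := F) (C := C) (κ0 := κ0))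
    (sn_const H.nr Ds.e2)).congr_right (g₂ := fun i => i.η ^ 2 * i.M) (fun i => by ring)
  refine ((((((h1.add h2).add h3).add h4).add h5).add h6).add h7).congr_left (fun i => ?_)
  have e1 : Qf Ds.PI0 i.u Ds.e2 = Qf Ds.PI0 i.r Ds.e2 := by
    rw [u_eq, map_add, map_smul, LinearMap.add_apply, LinearMap.smul_apply,
      Qf_symm _ (Ds.U i.Y), Ds.I0_e2_U, smul_zero, zero_add]
  rw [φ'_eq]
  simp only [map_sub, map_add, map_smul, LinearMap.add_apply, Ds.I0_φt, Ds.I1_e2, Ds.I0_e2, e1, v]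
  simp only [smul_zero, mul_zero, sub_zero]
  ring

lemma B2n : (fun i : Ix Ds F C κ0 => Qf (PB0 Ds.n) i.u (embc (2 * Ds.n) (KT (i.Y Ds.n)))
    + i.η ^ 2 / 4 * ∑ k ∈ Ds.K, Ds.β1 i.Y k
    - i.η ^ 2 / 2 * J (i.v * (Ds.g2' * H1.f (KT (i.Y Ds.n)) + Ds.g2 * H1.d (KT (i.Y Ds.n)))))
    =O[fl] fun i => i.η ^ 3 * i.M ^ 2 := by
  have hn := Ds.n_pos
  obtain ⟨c, hc⟩ := nr_KT_le
  have hK : (fun i : Ix Ds F C κ0 => H1.nr (KT (i.Y Ds.n))) =O[fl] M :=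
    sn_le _ _ c (fun i => hc _) (Y_O _)
  have h1 := (T0' (fun i => prc0_embc (k := 2 * Ds.n) (by omega) _) (embc_O _ hK)).congr_right
    (g₂ := fun i => i.η ^ 3 * i.M ^ 2) (fun i => by ring)
  have h2 := (J_O dh_O (sn_add _ (mul_O PJ (q1_O3.add (q2_O3.const_smul_left b⁻¹)) (f_O hK))
    (mul_O PJ (q1_O3.const_smul_left b⁻¹) (d_O hK)))).congr_right
    (g₂ := fun i => i.η ^ 3 * i.M ^ 2) (fun i => by ring)
  refine (h1.add (h2.const_mul_left (1/2))).congr_left (fun i => ?_)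
  have e0 : cm (2 * Ds.n) (cx (2 * Ds.n)) = (1/2 : ℝ) • 1 := by
    rw [cm_cx, if_neg (by omega), if_pos (by omega)]; simp
  rw [Ds.B1_U_2n i.Y_neg, Λ_embc, At_eq, Att, map_add, map_add, cm_sum Ds.K_neg i.Ah1_neg,
    cm_sum Ds.K_neg i.Ah2_neg, if_neg Ds.m2, if_neg Ds.m2, cm_ι_mul, cm_ι_mul, e0]
  have key : ∀ (A B C : D0) (x y z s : ℝ), A = (1/2 : ℝ) • B + s • C → y = z →
      x + y - J A + 1 / 2 * J B = x + z - s * J C := by
    intro A B C x y z s e e'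
    rw [e, e', map_add, map_smul, map_smul, smul_eq_mul, smul_eq_mul]; ring
  refine key _ _ _ _ _ _ _ ?_ (by ring)
  ext t
  have := b_pos.ne'
  simp [v]
  field_simp
  ring

lemma I'' : (fun i : Ix Ds F C κ0 => Qf i.G.PI i.φ' i.φ' - i.η ^ 2 * Ds.q i.v i.Y)
    =O[fl] fun i => i.η ^ 3 * i.M ^ 2 := by
  have hρ := prc_O (2 * Ds.n) (R_O (Ds := Ds) (F := F) (C := C) (κ0 := κ0))
  have h1 := (Qf_2 ex_PI h_O (u_O' (Ds := Ds) (F := F) (C := C) (κ0 := κ0))).congr_right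
    (g₂ := fun i => i.η ^ 3 * i.M ^ 2) (fun i => by ring)
  have h2 := ((isBigO_refl η fl).mul
    (Qf_c (Ds.PI1 F) h_O (R_O (Ds := Ds) (F := F) (C := C) (κ0 := κ0)))).congr_right
    (g₂ := fun i => i.η ^ 3 * i.M ^ 2) (fun i => by ring)
  have h3 := (con_O Ds.m1 (sn_le _ H1.nr _ (fun i => H1.nr_mulL D1_c1 _) hρ)).congr_right
    (g₂ := fun i => i.η ^ 3 * i.M ^ 2) (fun i => by ring)
  have h4 := B2n (Ds := Ds) (F := F) (C := C) (κ0 := κ0)
  have h5 := (Qf_1 hη0 ex_PI u_O' (u_O' (Ds := Ds) (F := F) (C := C) (κ0 := κ0))).congr_right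
    (g₂ := fun i => i.η ^ 3 * i.M ^ 2) (fun i => by ring)
  have h6 := (Qf_c Ds.PI0 u_O' (R_O (Ds := Ds) (F := F) (C := C) (κ0 := κ0))).congr_right
    (g₂ := fun i => i.η ^ 3 * i.M ^ 2) (fun i => by ring)
  have h7 := (Qf_c Ds.PI0 (Uy_O (Ds := Ds) (F := F) (C := C) (κ0 := κ0)) R_O).congr_right
    (g₂ := fun i => i.η ^ 3 * i.M ^ 2) (fun i => by ring)
  refine (((((((h1.add h2).const_mul_left 2).add (h3.const_mul_left 4)).sub
    (h4.const_mul_left 4)).add h5).add h6).add h7).congr_left (fun i => ?_)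
  have e0 : Qf i.G.PI (embc 0 i.h) (embc 0 i.h) = 0 := by
    rw [Qf_emb0 _ _ _ rfl]
    simp [Geo.PI, avg_mul_ι, i.ap.avgT]
  have e1 : Qf (Ds.PI1 F) (embc 0 i.h) i.u =
      i.η / 2 * ∑ k ∈ Ds.K, Ds.τt i.v i.Y k + Qf (Ds.PI1 F) (embc 0 i.h) i.r := by
    rw [u_eq, map_add, map_smul, Ds.I1_U F _ i.Y_neg, smul_eq_mul, v]
  have e2 : Qf Ds.PI0 i.u i.u = i.η ^ 2 * ∑ k ∈ Ds.K, Ds.t0 i.Y k + Qf Ds.PI0 i.u i.r
      + Qf Ds.PI0 ((i.η / 2) • Ds.U i.Y) i.r := by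
    have := Ds.I0_UU i.Y_neg i.Y_off
    have e := Qf_symm Ds.PI0 i.r (Ds.U i.Y)
    rw [u_eq]
    simp only [map_add, map_smul, LinearMap.add_apply, LinearMap.smul_apply, this, e, smul_eq_mul]
    ring
  have e3 := KT_ident (prc (2 * Ds.n) i.r) (i.Y Ds.n)
  have e4 : Qf (PB0 Ds.n) i.u (embc (2 * Ds.n) (KT (i.Y Ds.n)))
      = Q1 (-1) (prc (2 * Ds.n) i.r) (KT (i.Y Ds.n)) := by
    rw [B0_embc, prc2_r]; congr 1
    have := Ds.n_ne
    push_cast; field_simp; norm_num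
  have e5 := Qf_symm i.G.PI i.u (embc 0 i.h)
  rw [φ'_eq, map_add, map_add, LinearMap.add_apply, LinearMap.add_apply, e0, e5, e1, e2, e4, e3,
    Ds.I0_emb0, Ds.κ_n, Ds.g_n, Ds.g'_n, ← prc2_r, Des.q, ← v,
    show ((1:ℝ) ^ 2 - 5) = -4 by norm_num, zero_mul, one_mul, zero_add]
  simp only [Finset.sum_add_distrib]
  ring

end Ix

end

end Pool.Agent.P.MP_0d657e_an
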