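import Pool.Agent.P.MP_0d657e_an.D7

/-! Coercivity of the quadratic obstruction for small values of the parameter. -/

open Set Real Asymptotics Filter Topology

namespace Pool.Agent.P.MP_0d657e_an

noncomputable section

lemma final_ineq {κ c K : ℝ} (hκ : 0 < κ) (hc : 0 < c) (hK : 0 < K) :
    ∀ᶠ η in 𝓝 (0:ℝ), 0 < η → ∀ x N : ℝ, 0 ≤ x → 0 ≤ N →
      κ * η * x ^ 2 + c * η ^ 2 * N ^ 2 ≤ K * (η ^ 2 * x ^ 2 + x * (η ^ 2 * (N + η * x))
        + η ^ 3 * (N + η * x) ^ 2) → x = 0 ∧ N = 0 := by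
  have h1 : ∀ᶠ η in 𝓝 (0:ℝ), 4 * K * η < κ / 2 :=
    (by fun_prop : Continuous fun η : ℝ => 4 * K * η).continuousAt.eventually_lt
      continuousAt_const (by simpa using hκ)
  have h2 : ∀ᶠ η in 𝓝 (0:ℝ), (K ^ 2 / (2 * κ) + 2 * K) * η < c :=
    (by fun_prop : Continuous fun η : ℝ => (K ^ 2 / (2 * κ) + 2 * K) * η).continuousAt.eventually_lt
      continuousAt_const (by simpa using hc)
  filter_upwards [h1, h2, eventually_le_nhds one_pos] with η h1 h2 h3 h0 x N hx hN h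
  have a0 : κ * x ^ 2 + c * η * N ^ 2 ≤ K * η * (x ^ 2 + x * (N + η * x) + η * (N + η * x) ^ 2) :=
    le_of_mul_le_mul_left (a := η) (by nlinarith) h0
  have a1 : K * η * (x * N) ≤ κ / 2 * x ^ 2 + K ^ 2 / (2 * κ) * η ^ 2 * N ^ 2 := by
    have := sq_nonneg (κ * x - K * η * N)
    have e : κ / 2 * x ^ 2 + K ^ 2 / (2 * κ) * η ^ 2 * N ^ 2 - K * η * (x * N)
      = (κ * x - K * η * N) ^ 2 / (2 * κ) := by field_simp; ring
    have : 0 ≤ (κ * x - K * η * N) ^ 2 / (2 * κ) := by positivity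
    linarith
  have hx2 := sq_nonneg x
  have a2 : η * x ^ 2 ≤ x ^ 2 := mul_le_of_le_one_left hx2 h3
  have a3 : η * (N + η * x) ^ 2 ≤ 2 * η * N ^ 2 + 2 * x ^ 2 := by
    have b1 : (N + η * x) ^ 2 ≤ 2 * N ^ 2 + 2 * (η * x) ^ 2 := by nlinarith [sq_nonneg (N - η * x)]
    have b2 : η * (η * x) ^ 2 ≤ x ^ 2 := by
      have : η ^ 3 ≤ 1 := pow_le_one₀ h0.le h3
      nlinarith
    nlinarith
  have a4 : K * η * (x ^ 2 + x * (N + η * x) + η * (N + η * x) ^ 2)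
      ≤ K * η * (x * N) + K * η * (4 * x ^ 2 + 2 * η * N ^ 2) := by
    rw [← mul_add]
    exact mul_le_mul_of_nonneg_left (by nlinarith) (by positivity)
  have a5 : (κ / 2 - 4 * K * η) * x ^ 2 + (c - (K ^ 2 / (2 * κ) + 2 * K) * η) * (η * N ^ 2) ≤ 0 := by
    nlinarith
  have p1 := mul_nonneg (sub_pos.2 h1).le hx2
  have p2 := mul_nonneg (sub_pos.2 h2).le (mul_nonneg h0.le (sq_nonneg N))
  have z1 : (κ / 2 - 4 * K * η) * x ^ 2 = 0 := by linarith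
  have z2 : (c - (K ^ 2 / (2 * κ) + 2 * K) * η) * (η * N ^ 2) = 0 := by linarith
  simp only [mul_eq_zero, (sub_pos.2 h1).ne', (sub_pos.2 h2).ne', h0.ne', false_or] at z1 z2
  exact ⟨pow_eq_zero_iff two_ne_zero |>.1 z1, pow_eq_zero_iff two_ne_zero |>.1 z2⟩

namespace Ix

variable {Ds : Des} {F : Ds.First} {C κ0 : ℝ}

lemma ev_con : ∃ c : ℝ, 0 < c ∧ ∀ᶠ i : Ix Ds F C κ0 in fl, Ds.Con i.v i.Y (c * (i.η * i.M)) := by
  have h := IsBigO.sum (s := Ds.K) (fun k hk =>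
    (con_O (F := F) (C := C) (κ0 := κ0) hk (θ := θ) (isBigO_refl _ _)).norm_left)
  obtain ⟨c, hc, h⟩ := h.exists_pos
  refine ⟨c, hc, ?_⟩
  have h2 := eventually_comap.1 h.bound
  refine eventually_comap.2 (h2.mono fun e he i hi k hk θ' => ?_)
  have h3 := he { i with θ := θ' } hi
  rw [Finset.sum_apply, Real.norm_of_nonneg (Finset.sum_nonneg fun _ _ => norm_nonneg _),
    Real.norm_of_nonneg (mul_nonneg (mul_nonneg (hη _).le (M_nonneg _)) (apply_nonneg _ _)),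
    ← mul_assoc] at h3
  exact (Finset.single_le_sum (f := fun k => ‖Q1 (Ds.κ k ^ 2 - 5) (i.Y k) θ'
    - J (i.v * (Ds.g' k * H1.f θ' + Ds.g k * H1.d θ'))‖) (fun _ _ => norm_nonneg _) hk).trans h3

theorem ev_zero (hP : Ds.Pos) (hκ : 0 < κ0) : ∀ᶠ i : Ix Ds F C κ0 in fl, i.φ = 0 := by
  obtain ⟨c0, hc0, Cp, hP⟩ := hP
  obtain ⟨c, hc, h1⟩ := ev_con (Ds := Ds) (F := F) (C := C) (κ0 := κ0)
  obtain ⟨K1, hK1, h2⟩ := (I0' (Ds := Ds) (F := F) (C := C) (κ0 := κ0)).exists_pos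
  obtain ⟨K2, hK2, h3⟩ := (I'' (Ds := Ds) (F := F) (C := C) (κ0 := κ0)).exists_pos
  obtain ⟨K3, hK3, h4⟩ := (R_O (Ds := Ds) (F := F) (C := C) (κ0 := κ0)).exists_pos
  have h5 := hη0.eventually (final_ineq (K := |C| + 2 * K1 + K2 + |Cp| * c ^ 2) hκ hc0
    (by positivity)) (l₁ := (fl : Filter (Ix Ds F C κ0)))
  filter_upwards [h1, h2.bound, h3.bound, h4.bound, h5,
    hη0.eventually (eventually_le_nhds one_pos)] with i h1 h2 h3 h4 h5 h6
  have hη := i.hη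
  have hM := i.M_nonneg
  have hq := hP i.v i.Y _ i.Y_neg i.Y_off i.J_v (by positivity) h1
  have hI := i.hI
  have hI0 := i.ap.I_le
  rw [Geo.I_eq] at hI hI0
  rw [φ_eq] at hI
  simp only [map_add, map_smul, LinearMap.add_apply, LinearMap.smul_apply, smul_eq_mul,
    Qf_symm _ i.G.φ0 i.φ'] at hI
  rw [Real.norm_eq_abs, Real.norm_of_nonneg (by positivity)] at h2 h3
  have hN : PJ.nrm i.v + ∑ k ∈ Ds.K, H1.nr (i.Y k) = i.N := rfl
  rw [hN] at hq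
  obtain ⟨z1, z2⟩ := h5 hη |i.c2| i.N (abs_nonneg _) i.N_nonneg (by
    have hM' : i.N + i.η * |i.c2| = i.M := rfl
    rw [hM', sq_abs]
    have b1 : i.c2 * Qf i.G.PI i.φ' i.G.φ0 ≤ |i.c2| * (K1 * (i.η ^ 2 * i.M)) :=
      (le_abs_self _).trans (by rw [abs_mul]; gcongr)
    have b2 := mul_le_mul_of_nonneg_left hI0 (sq_nonneg i.c2)
    have b3 := (le_abs_self _).trans h3
    have b4 := mul_le_mul_of_nonneg_left hq (sq_nonneg i.η)
    have b5 : i.η ^ 2 * (Cp * (c * (i.η * i.M)) ^ 2) ≤ |Cp| * c ^ 2 * (i.η ^ 3 * i.M ^ 2) := by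
      have : i.η ^ 2 * (Cp * (c * (i.η * i.M)) ^ 2) = Cp * i.η * (c ^ 2 * (i.η ^ 3 * i.M ^ 2)) := by
        ring
      rw [this, mul_assoc |Cp|]
      refine mul_le_mul_of_nonneg_right ?_ (by positivity)
      nlinarith [le_abs_self Cp, abs_nonneg Cp]
    have b6 : C * (i.η ^ 2 * i.c2 ^ 2) ≤ |C| * (i.η ^ 2 * i.c2 ^ 2) :=
      mul_le_mul_of_nonneg_right (le_abs_self C) (by positivity)
    have p1 : 0 ≤ i.η ^ 2 * i.c2 ^ 2 := by positivity
    have p2 : 0 ≤ |i.c2| * (i.η ^ 2 * i.M) := by positivity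
    have p3 : 0 ≤ i.η ^ 3 * i.M ^ 2 := by positivity
    have q1 := mul_nonneg (by positivity : 0 ≤ 2 * K1 + K2 + |Cp| * c ^ 2) p1
    have q2 := mul_nonneg (by positivity : 0 ≤ |C| + K2 + |Cp| * c ^ 2) p2
    have q3 := mul_nonneg (by positivity : 0 ≤ |C| + 2 * K1) p3
    nlinarith)
  have hM0 : i.M = 0 := by rw [M, z1, z2]; simp
  have hv : i.v = 0 := eq_zero_of_nrm pi_pos (le_antisymm (by
    exact (le_add_of_nonneg_right (Finset.sum_nonneg fun _ _ => apply_nonneg _ _)).trans z2.le)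
    (apply_nonneg _ _))
  have hh : i.h = 0 := H1.eq_zero ((nr_le_d _).trans (by rw [d_h, hv]; simp))
  have hY : ∀ k ∈ Ds.K, i.Y k = 0 := fun k hk => H1.eq_zero (by
    exact (le_add_of_nonneg_of_le (apply_nonneg _ _)
      (Finset.single_le_sum (f := fun k => H1.nr (i.Y k)) (fun _ _ => apply_nonneg _ _) hk)).trans
      z2.le)
  have hr : i.r = 0 := H.eq_zero (by
    rw [hM0] at h4
    exact ((le_abs_self _).trans h4).trans (by simp))
  have hU : Ds.U i.Y = 0 := Finset.sum_eq_zero (fun k hk => by rw [hY k hk, map_zero])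
  rw [φ_eq, φ'_eq, u_eq, hU, hr, hh, abs_eq_zero.1 z1]
  simp

end Ix

theorem partD (Ds : Des) (F : Ds.First) (C κ0 : ℝ) (hP : Ds.Pos) (hκ : 0 < κ0) :
    ∃ η1 > 0, ∀ η ∈ Ioo 0 η1, ∀ G : Geo, G.Exact → Ds.Approx F C κ0 η G →
      G.Coercive ∧ G.Asym := by
  have h := eventually_comap.1 (Ix.ev_zero (F := F) (C := C) hP hκ)
  obtain ⟨ε, hε, h⟩ := Metric.eventually_nhds_iff.1 h
  refine ⟨ε, hε, fun η hη G hG ap => ⟨⟨η ^ 4, pow_pos hη.1 4, fun φ h1 h2 => ?_⟩, ?_⟩⟩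
  · exact h (y := η) (by simpa [abs_of_pos hη.1] using hη.2)
      ⟨η, hη.1, G, hG, ap, φ, h1, h2, 0⟩ rfl
  · refine ⟨embc Ds.n S1, ?_⟩
    have hn := Ds.n_pos
    have e0 : cm Ds.n (cx (2 * Ds.n)) = 0 := by
      rw [cm_cx, if_neg (by omega), if_neg (by omega)]; simp
    rw [ft_embc, mul_comm, II_ι_cx_mul, ap.hA, map_add, map_add, cm_sum Ds.K_neg ap.Ah_neg,
      if_pos Ds.m1, cm_ι_mul, e0, cm_one, if_neg (by omega), ap.Ah_n, mul_zero, zero_add,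
      add_zero, mul_smul_comm, map_smul, d_S1]
    exact mul_ne_zero (by linarith [hη.1]) Ds.J_asym

end

end Pool.Agent.P.MP_0d657e_an
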