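import Mathlib

/-! Steady Euler flows on the annulus `M = (ℝ / 2πℤ) × [0, π]` with an arbitrary smooth
Riemannian metric, written in the global coordinates `(x, t)`.  A function on `M` is a function
on the closed strip `ℝ × [0, π]` that is `2π`-periodic in `x`. -/

open Set Real

namespace Pool.Agent.P.MP_0d657e_an

noncomputable section

/-- the closed strip `ℝ × [0, π]`, the universal cover of the annulus -/
def Strip : Set (ℝ × ℝ) := univ ×ˢ Icc 0 π

/-- `2π`-periodicity in the first coordinate on the strip -/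
def Per (f : ℝ × ℝ → ℝ) : Prop := ∀ p ∈ Strip, f (p.1 + 2 * π, p.2) = f p

/-- a function of class `C^k` on the annulus (up to the boundary) -/
def IsCk (k : WithTop ℕ∞) (f : ℝ × ℝ → ℝ) : Prop := ContDiffOn ℝ k f Strip ∧ Per f

/-- coordinate vectors -/
def e : Fin 2 → ℝ × ℝ := ![(1, 0), (0, 1)]

/-- the `i`-th coordinate derivative (one-sided at the boundary) -/
def pd (i : Fin 2) (f : ℝ × ℝ → ℝ) (p : ℝ × ℝ) : ℝ := fderivWithin ℝ f Strip p (e i)

/-- a smooth Riemannian metric on the annulus -/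
structure Metric where
  /-- the coefficients `g_{ij}` -/
  g : Fin 2 → Fin 2 → ℝ × ℝ → ℝ
  smooth : ∀ i j, IsCk ((⊤ : ℕ∞) : WithTop ℕ∞) (g i j)
  posDef : ∀ p ∈ Strip, (Matrix.of fun i j => g i j p).PosDef

namespace Metric

variable (m : Metric)

/-- the inverse metric `g^{ij}` -/
def inv (i j : Fin 2) (p : ℝ × ℝ) : ℝ := (Matrix.of fun i j => m.g i j p)⁻¹ i j

/-- the area density `√(det g)` -/
def vol (p : ℝ × ℝ) : ℝ := √(Matrix.of fun i j => m.g i j p).det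

/-- Christoffel symbols `Γ^k_{ij}` of the Levi-Civita connection -/
def Γ (k i j : Fin 2) (p : ℝ × ℝ) : ℝ :=
  (1 / 2) * ∑ l, m.inv k l p * (pd i (m.g j l) p + pd j (m.g i l) p - pd l (m.g i j) p)

/-- divergence of a vector field -/
def div (u : Fin 2 → ℝ × ℝ → ℝ) (p : ℝ × ℝ) : ℝ :=
  (∑ i, pd i (fun q => m.vol q * u i q) p) / m.vol p

/-- curl (scalar vorticity) of a vector field -/
def curl (u : Fin 2 → ℝ × ℝ → ℝ) (p : ℝ × ℝ) : ℝ :=
  (pd 0 (fun q => ∑ j, m.g 1 j q * u j q) p - pd 1 (fun q => ∑ j, m.g 0 j q * u j q) p) / m.vol p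

/-- the components of `∇_u u` -/
def advect (u : Fin 2 → ℝ × ℝ → ℝ) (k : Fin 2) (p : ℝ × ℝ) : ℝ :=
  ∑ i, u i p * pd i (u k) p + ∑ i, ∑ j, m.Γ k i j p * u i p * u j p

/-- the components of the gradient -/
def grad (f : ℝ × ℝ → ℝ) (k : Fin 2) (p : ℝ × ℝ) : ℝ := ∑ l, m.inv k l p * pd l f p

/-- the length of the gradient -/
def gradNorm (f : ℝ × ℝ → ℝ) (p : ℝ × ℝ) : ℝ := √(∑ k, m.grad f k p * pd k f p)

/-- a steady solution of the incompressible Euler equations -/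
structure IsSteady (u : Fin 2 → ℝ × ℝ → ℝ) : Prop where
  c1 : ∀ i, IsCk 1 (u i)
  tangent : ∀ x, u 1 (x, 0) = 0 ∧ u 1 (x, π) = 0
  div_free : ∀ p ∈ Strip, m.div u p = 0
  euler : ∃ P, IsCk 1 P ∧ ∀ p ∈ Strip, ∀ k, m.advect u k p + m.grad P k p = 0

/-- a steady vorticity of class `C^1` -/
def IsSteadyVort (w : ℝ × ℝ → ℝ) : Prop :=
  IsCk 1 w ∧ ∃ u, m.IsSteady u ∧ ∀ p ∈ Strip, w p = m.curl u p

/-- `|f| ≤ ε` and `|∇ f| ≤ ε` everywhere -/
def C1Small (f : ℝ × ℝ → ℝ) (ε : ℝ) : Prop :=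
  ∀ p ∈ Strip, |f p| ≤ ε ∧ m.gradNorm f p ≤ ε

end Metric

end

end Pool.Agent.P.MP_0d657e_an
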