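import Pool.Agent.P.MP_0d657e_an.Basic3

/-! Parseval identities and the spectral inequalities they give. -/

open Set Real MeasureTheory

namespace Pool.Agent.P.MP_0d657e_an

noncomputable section

lemma parseval_real {f : ℝ → ℝ} (hf : Continuous f) (a : ℝ) :
    HasSum (fun k : ℤ => (tp⁻¹ * ∫ x in a..(a + tp), cos (k * x) * f x) ^ 2
      + (tp⁻¹ * ∫ x in a..(a + tp), sin (k * x) * f x) ^ 2)
      (tp⁻¹ * ∫ x in a..(a + tp), f x * f x) := by
  have hab : a < a + tp := by linarith [tp_pos]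
  have hc : Continuous fun x => (f x : ℂ) := Complex.continuous_ofReal.comp hf
  have hL : MemLp (fun x => (f x : ℂ)) 2 (volume.restrict (Ioc a (a + tp))) := by
    obtain ⟨C, hC⟩ := (isCompact_Icc (a := a) (b := a + tp)).exists_bound_of_continuousOn
      hc.continuousOn
    refine MemLp.of_bound hc.aestronglyMeasurable C ?_
    filter_upwards [ae_restrict_mem measurableSet_Ioc] with x hx
    exact hC x (Ioc_subset_Icc_self hx)
  have h := hasSum_sq_fourierCoeffOn hab hL
  have e1 : ∀ k : ℤ, fourierCoeffOn hab (fun x => (f x : ℂ)) k =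
      ((tp⁻¹ * ∫ x in a..(a + tp), cos (k * x) * f x : ℝ) : ℂ)
        + ((-(tp⁻¹ * ∫ x in a..(a + tp), sin (k * x) * f x) : ℝ) : ℂ) * Complex.I := by
    intro k
    rw [fourierCoeffOn_eq_integral]
    have e : ∀ x : ℝ, fourier (-k) (x : AddCircle (a + tp - a)) • (f x : ℂ) =
        ((cos (k * x) * f x : ℝ) : ℂ) - ((sin (k * x) * f x : ℝ) : ℂ) * Complex.I := by
      intro x
      rw [fourier_coe_apply, add_sub_cancel_left]
      have : (π : ℂ) ≠ 0 := by exact_mod_cast pi_ne_zero
      have e2 : 2 * (π:ℂ) * Complex.I * ((-k : ℤ) : ℂ) * x / (tp : ℝ) =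
          ((-(k * x) : ℝ) : ℂ) * Complex.I := by
        unfold tp; push_cast; field_simp
      rw [e2, Complex.exp_mul_I, ← Complex.ofReal_cos, ← Complex.ofReal_sin, cos_neg, sin_neg]
      simp only [smul_eq_mul]
      push_cast
      ring
    simp only [e]
    rw [intervalIntegral.integral_sub, intervalIntegral.integral_mul_const,
      intervalIntegral.integral_ofReal, intervalIntegral.integral_ofReal, add_sub_cancel_left]
    · simp only [Complex.real_smul]
      push_cast
      ring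
    · exact Continuous.intervalIntegrable (by fun_prop) _ _
    · exact Continuous.intervalIntegrable (by fun_prop) _ _
  simp only [e1, Complex.sq_norm, Complex.normSq_add_mul_I, neg_sq, add_sub_cancel_left,
    smul_eq_mul, Complex.normSq_ofReal] at h
  exact h

lemma parseval_pt (F : C2) (t : Icc (0:ℝ) π) :
    HasSum (fun k : ℤ => (cm k F * cm k F + sm k F * sm k F) t) (avg (F * F) t) := by
  have h := parseval_real (f := fun x : ℝ => F x t) ((D.ev t).continuous.comp (C2_cont F)) 0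
  simpa [cm_apply, sm_apply, avg_apply, sq] using h

/-- Parseval identity on the annulus -/
theorem parseval2 (F : C2) :
    HasSum (fun k : ℤ => J (cm k F * cm k F + sm k F * sm k F)) (II (F * F)) := by
  set u : ℤ → D0 := fun k => cm k F * cm k F + sm k F * sm k F with hu
  have hn : ∀ k t, 0 ≤ u k t := fun k t =>
    add_nonneg (mul_self_nonneg (cm k F t)) (mul_self_nonneg (sm k F t))
  have hle : ∀ s : Finset ℤ, ∑ k ∈ s, J (u k) ≤ II (F * F) := fun s => by
    rw [← map_sum]
    refine J_mono (fun t => ?_)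
    rw [D.sum_apply]
    exact sum_le_hasSum s (fun k _ => hn k t) (parseval_pt F t)
  have hint : ∀ y : D0, J y = ∫ x in Ioc (0:ℝ) π, ext y x := fun y => by
    rw [J_apply, intervalIntegral.integral_of_le pi_pos.le]
  have h := hasSum_integral_of_summable_integral_norm (μ := volume.restrict (Ioc (0:ℝ) π))
    (F := fun k x => ext (u k) x)
    (fun k => ((ext_cont (u k)).integrableOn_Icc).mono_set Ioc_subset_Icc_self) (by
      refine summable_of_sum_le (c := II (F * F))
        (fun k => integral_nonneg (fun x => norm_nonneg _)) (fun s => ?_)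
      refine le_of_eq_of_le (Finset.sum_congr rfl (fun k _ => ?_)) (hle s)
      rw [hint]
      congr 1
      funext x
      exact Real.norm_of_nonneg (hn k _))
  simp only [← hint] at h
  have e : (fun x => ∑' k, ext (u k) x) = ext (avg (F * F)) := by
    funext x
    exact (parseval_pt F _).tsum_eq
  rw [e, ← hint] at h
  exact h

/-- Parseval identity for the sine series -/
theorem parseval_sin {y : D0} (h0 : y lo = 0) :
    HasSum (fun j : ℕ => 2 / π * J (y * sn j) ^ 2) (J (y * y)) := by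
  let f : ℝ → ℝ := fun x => ext y x - ext y (-x)
  have hf : Continuous f := by fun_prop
  have hneg : ∀ x ≤ 0, ext y x = 0 := fun x hx => by
    rw [ext, projIcc_of_le_left _ hx]; exact h0
  have h := parseval_real hf (-π)
  have e0 : -π + tp = π := by unfold tp; ring
  rw [e0] at h
  have split : ∀ g : ℝ → ℝ, Continuous g → ∫ x in (-π)..π, g x = ∫ x in (0:ℝ)..π, (g x + g (-x)) := by
    intro g hg
    rw [intervalIntegral.integral_add (hg.intervalIntegrable _ _)
      (Continuous.intervalIntegrable (by fun_prop) _ _), intervalIntegral.integral_comp_neg,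
      neg_zero, add_comm, intervalIntegral.integral_add_adjacent_intervals
        (hg.intervalIntegrable _ _) (hg.intervalIntegrable _ _)]
  have e1 : ∀ k : ℤ, ∫ x in (-π)..π, cos (k * x) * f x = 0 := fun k => by
    rw [split _ (by fun_prop)]
    simp only [f, mul_neg, cos_neg, neg_neg]
    have : ∀ x : ℝ, cos (k * x) * (ext y x - ext y (-x)) + cos (k * x) * (ext y (-x) - ext y x)
      = 0 := fun x => by ring
    simp [this]
  have e2 : ∀ k : ℤ, ∫ x in (-π)..π, sin (k * x) * f x = 2 * J (y * sn k) := fun k => by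
    rw [split _ (by fun_prop), ← smul_eq_mul 2, ← map_smul]
    refine (J_eq_of (fun t => ?_)).symm
    simp [f, hneg (-t) (neg_nonpos.2 t.2.1)]
    ring
  have e3 : ∫ x in (-π)..π, f x * f x = 2 * J (y * y) := by
    rw [split _ (by fun_prop), ← smul_eq_mul 2, ← map_smul]
    refine (J_eq_of (fun t => ?_)).symm
    simp [f, hneg (-t) (neg_nonpos.2 t.2.1)]
    ring
  simp only [e1, e2, e3] at h
  have h2 := h.nat_add_neg
  have h3 := h2.mul_left (π)
  have hp := pi_pos
  have k1 : (fun j : ℕ => 2 / π * J (y * sn j) ^ 2) = fun j : ℕ => π *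
      (((tp⁻¹ * 0) ^ 2 + (tp⁻¹ * (2 * J (y * sn ((j:ℤ):ℝ)))) ^ 2)
        + ((tp⁻¹ * 0) ^ 2 + (tp⁻¹ * (2 * J (y * sn ((-(j:ℤ) : ℤ):ℝ)))) ^ 2)) := by
    funext j
    simp only [Int.cast_neg, Int.cast_natCast, sn_neg, mul_neg, map_neg, tp]
    field_simp
    ring
  have k2 : J (y * y) = π * (tp⁻¹ * (2 * J (y * y))
      + ((tp⁻¹ * 0) ^ 2 + (tp⁻¹ * (2 * J (y * sn ((0:ℤ):ℝ)))) ^ 2)) := by
    simp only [Int.cast_zero, sn_zero, mul_zero, map_zero, tp]
    field_simp
    ring
  rw [k1, k2]
  exact h3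

/-- Bessel inequality -/
lemma PF.bessel {R : Type} [NormedCommRing R] [NormedAlgebra ℝ R] (F : PF R) (e : ℕ → R)
    (s : Finset ℕ) (he : ∀ j ∈ s, ∀ k ∈ s, F.Φ (e j * e k) = if j = k then π / 2 else 0) (u : R) :
    ∑ j ∈ s, 2 / π * F.Φ (u * e j) ^ 2 ≤ F.Φ (u * u) := by
  have hp := pi_pos
  have h := F.nonneg (u - ∑ j ∈ s, (2 / π * F.Φ (u * e j)) • e j)
  have e1 : F.Φ (u * ∑ j ∈ s, (2 / π * F.Φ (u * e j)) • e j)
      = ∑ j ∈ s, 2 / π * F.Φ (u * e j) ^ 2 := by
    rw [Finset.mul_sum, map_sum]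
    refine Finset.sum_congr rfl (fun j _ => ?_)
    rw [mul_smul_comm, map_smul, smul_eq_mul]; ring
  have e2 : F.Φ ((∑ j ∈ s, (2 / π * F.Φ (u * e j)) • e j) *
      ∑ j ∈ s, (2 / π * F.Φ (u * e j)) • e j) = ∑ j ∈ s, 2 / π * F.Φ (u * e j) ^ 2 := by
    rw [Finset.sum_mul, map_sum]
    refine Finset.sum_congr rfl (fun j hj => ?_)
    rw [Finset.mul_sum, map_sum, Finset.sum_eq_single j]
    · rw [smul_mul_smul_comm, map_smul, he j hj j hj, if_pos rfl, smul_eq_mul]
      field_simp
    · intro k hk hkj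
      rw [smul_mul_smul_comm, map_smul, he j hj k hk, if_neg (Ne.symm hkj), smul_zero]
    · intro h'; exact absurd hj h'
  have e3 : ∀ a c : R, (a - c) * (a - c) = a * a - (2:ℝ) • (a * c) + c * c := fun a c => by
    simp only [Algebra.smul_def, map_ofNat]; ring
  rw [e3, map_add, map_sub, map_smul, e1, e2, smul_eq_mul] at h
  linarith

/-- the tail of the sine series is controlled by the energy -/
theorem sin_tail {y : D0} (h0 : y lo = 0) {E : ℝ}
    (hE : ∀ M : ℕ, ∑ j ∈ Finset.range M, 2 / π * (j * J (y * sn j)) ^ 2 ≤ E) (M : ℕ) :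
    (M:ℝ) ^ 2 * (J (y * y) - ∑ j ∈ Finset.range M, 2 / π * J (y * sn j) ^ 2)
      ≤ E - ∑ j ∈ Finset.range M, 2 / π * (j * J (y * sn j)) ^ 2 := by
  have hp := pi_pos
  have h := ((hasSum_nat_add_iff' M).2 (parseval_sin h0)).mul_left ((M:ℝ) ^ 2)
  refine le_of_tendsto' h.tendsto_sum_nat (fun N => ?_)
  have h2 := hE (M + N)
  rw [Finset.sum_range_add] at h2
  refine le_trans (Finset.sum_le_sum (fun j _ => ?_)) (le_sub_iff_add_le'.2 h2)
  rw [add_comm j M, mul_left_comm, mul_pow]
  refine mul_le_mul_of_nonneg_left (mul_le_mul_of_nonneg_right ?_ (sq_nonneg _)) (by positivity)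
  push_cast
  have : (0:ℝ) ≤ j := Nat.cast_nonneg j
  have : (0:ℝ) ≤ M := Nat.cast_nonneg M
  nlinarith

lemma H1.J_d_cs (u : H1) (j : ℝ) : J (H1.d u * cs j) = j * J (H1.f u * sn j) := by
  have := H1.parts (D1_cs j) u
  rw [neg_mul, smul_mul_assoc, map_neg, map_smul, smul_eq_mul] at this
  rw [mul_comm (H1.d u), mul_comm (H1.f u)]
  linarith

lemma H1.energy (u : H1) (M : ℕ) :
    ∑ j ∈ Finset.range M, 2 / π * (j * J (H1.f u * sn j)) ^ 2 ≤ J (H1.d u * H1.d u) := by
  have h := PJ.bessel (fun j => (cs j : D0)) ((Finset.range M).erase 0)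
    (fun j hj k _ => J_cs_cs j k (Nat.pos_of_ne_zero (Finset.ne_of_mem_erase hj))) (H1.d u)
  simp only [PJ_Φ, H1.J_d_cs] at h
  rwa [Finset.sum_erase _ (by simp)] at h

lemma H1.poincare (u : H1) : J (H1.f u * H1.f u) ≤ J (H1.d u * H1.d u) := by
  simpa using sin_tail (H1.at_lo u) (H1.energy u) 1

/-- spectral gap above the second mode -/
lemma H1.gap (u : H1) :
    9 * (J (H1.f u * H1.f u) - 2 / π * J (H1.f u * s1) ^ 2 - 2 / π * J (H1.f u * s2) ^ 2)
      ≤ J (H1.d u * H1.d u) - 2 / π * J (H1.f u * s1) ^ 2 - 4 * (2 / π * J (H1.f u * s2) ^ 2) := by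
  have := sin_tail (H1.at_lo u) (H1.energy u) 3
  simp only [Finset.sum_range_succ, Finset.range_zero, Finset.sum_empty, Nat.cast_zero, sn_zero,
    mul_zero, map_zero, Nat.cast_one, Nat.cast_ofNat] at this
  change _ ≤ _ at this
  have e1 : (sn 1 : D0) = s1 := rfl
  have e2 : (sn 2 : D0) = s2 := rfl
  rw [e1, e2] at this
  nlinarith

end

end Pool.Agent.P.MP_0d657e_an
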