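import Pool.Agent.P.MP_0d657e_an.Wsp

/-! Families of functions on the annulus with uniformly bounded derivatives. -/

open Set Real

namespace Pool.Agent.P.MP_0d657e_an

noncomputable section

variable {I : Type}

/-- a bounded family -/
def Bd {X : Type*} [Norm X] (F : I → X) : Prop := ∃ C, ∀ i, ‖F i‖ ≤ C

namespace Bd

section
variable {X : Type*} [SeminormedAddCommGroup X] {F G : I → X}

lemma nn (h : Bd F) : ∃ C, 0 ≤ C ∧ ∀ i, ‖F i‖ ≤ C :=
  let ⟨C, h⟩ := h; ⟨|C|, abs_nonneg C, fun i => (h i).trans (le_abs_self C)⟩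
lemma const (a : X) : Bd (fun _ : I => a) := ⟨‖a‖, fun _ => le_rfl⟩
lemma add (h : Bd F) (k : Bd G) : Bd (fun i => F i + G i) :=
  let ⟨C, h⟩ := h; let ⟨C', k⟩ := k
  ⟨C + C', fun i => (norm_add_le _ _).trans (add_le_add (h i) (k i))⟩
lemma neg (h : Bd F) : Bd (fun i => -F i) :=
  let ⟨C, h⟩ := h; ⟨C, fun i => by rw [norm_neg]; exact h i⟩
lemma sub (h : Bd F) (k : Bd G) : Bd (fun i => F i - G i) := by
  simpa [sub_eq_add_neg] using h.add k.neg
variable [NormedSpace ℝ X]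
lemma smul {c : I → ℝ} (hc : Bd c) (h : Bd F) : Bd (fun i => c i • F i) :=
  let ⟨C, h0, hc⟩ := hc.nn; let ⟨C', h⟩ := h
  ⟨C * C', fun i => by rw [norm_smul]; exact mul_le_mul (hc i) (h i) (norm_nonneg _) h0⟩
lemma map {Y : Type*} [SeminormedAddCommGroup Y] [NormedSpace ℝ Y] (L : X →L[ℝ] Y) (h : Bd F) :
    Bd (fun i => L (F i)) :=
  let ⟨C, h⟩ := h
  ⟨‖L‖ * C, fun i => (L.le_opNorm _).trans (mul_le_mul_of_nonneg_left (h i) (norm_nonneg _))⟩
end

lemma mul {X : Type*} [SeminormedRing X] {F G : I → X} (h : Bd F) (k : Bd G) :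
    Bd (fun i => F i * G i) :=
  let ⟨C, h0, h⟩ := h.nn; let ⟨C', k⟩ := k
  ⟨C * C', fun i => (norm_mul_le _ _).trans (mul_le_mul (h i) (k i) (norm_nonneg _) h0)⟩

end Bd

/-- a class of families that is stable under the algebraic operations -/
structure Good (P : (I → C2) → Prop) : Prop where
  bd : ∀ {F}, P F → Bd F
  one : P (fun _ => 1)
  add : ∀ {F G}, P F → P G → P (fun i => F i + G i)
  mul : ∀ {F G}, P F → P G → P (fun i => F i * G i)
  smul : ∀ {c : I → ℝ} {F}, Bd c → P F → P (fun i => c i • F i)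
  inv : ∀ {F G}, P F → (∀ i, F i * G i = 1) → Bd G → P G

namespace Good
variable {P : (I → C2) → Prop} (h : Good P) {F G : I → C2}
include h
lemma smul' (c : ℝ) (k : P F) : P (fun i => c • F i) := h.smul (Bd.const c) k
lemma neg (k : P F) : P (fun i => -F i) := by simpa using h.smul' (-1) k
lemma zero : P (fun _ => 0) := by simpa using h.smul' 0 h.one
lemma sub (k : P F) (l : P G) : P (fun i => F i - G i) := by
  simpa [sub_eq_add_neg] using h.add k (h.neg l)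
lemma sum {α : Type*} (s : Finset α) {f : α → I → C2} (k : ∀ a ∈ s, P (f a)) :
    P (fun i => ∑ a ∈ s, f a i) := by
  classical
  induction s using Finset.induction_on with
  | empty => simpa using h.zero
  | insert a s ha ih =>
    simp only [Finset.sum_insert ha]
    exact h.add (k a (Finset.mem_insert_self _ _))
      (ih (fun c hc => k c (Finset.mem_insert_of_mem hc)))
end Good

lemma good_Bd : Good (Bd : (I → C2) → Prop) :=
  ⟨id, Bd.const 1, Bd.add, Bd.mul, Bd.smul, fun _ _ h => h⟩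

/-- a derivation relation -/
structure Der (Dr : C2 → C2 → Prop) : Prop where
  one : Dr 1 0
  add : ∀ {F F' G G'}, Dr F F' → Dr G G' → Dr (F + G) (F' + G')
  mul : ∀ {F F' G G'}, Dr F F' → Dr G G' → Dr (F * G) (F' * G + F * G')
  smul : ∀ (c : ℝ) {F F'}, Dr F F' → Dr (c • F) (c • F')
  inv : ∀ {F F' G}, Dr F F' → F * G = 1 → Dr G (-(F' * G * G))

lemma der_Dx : Der Dx := ⟨Dx_one, Dx.add, Dx.mul, fun c _ _ h => h.smul c, Dx.inv⟩
lemma der_Dt : Der Dt := ⟨Dt_one, Dt.add, Dt.mul, fun c _ _ h => h.smul c, Dt.inv⟩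

/-- all derivatives up to a given order belong to a class -/
def Tow (Dr : C2 → C2 → Prop) (P : (I → C2) → Prop) : ℕ → (I → C2) → Prop
  | 0, F => P F
  | j + 1, F => P F ∧ ∃ F' : I → C2, (∀ i, Dr (F i) (F' i)) ∧ Tow Dr P j F'

section
variable {Dr : C2 → C2 → Prop} {P : (I → C2) → Prop}

lemma Tow.base : ∀ {j : ℕ} {F : I → C2}, Tow Dr P j F → P F
  | 0, _, h => h
  | _ + 1, _, h => h.1

lemma Tow.mono : ∀ {j : ℕ} {F : I → C2}, Tow Dr P (j + 1) F → Tow Dr P j F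
  | 0, _, h => h.1
  | _ + 1, _, ⟨h, F', k, l⟩ => ⟨h, F', k, l.mono⟩

lemma good_Tow (hD : Der Dr) (hP : Good P) : ∀ j, Good (Tow Dr P j)
  | 0 => hP
  | j + 1 =>
    have ih := good_Tow hD hP j
    { bd := fun h => hP.bd h.1
      one := ⟨hP.one, fun _ => 0, fun _ => hD.one, ih.zero⟩
      add := fun ⟨h, _, k, l⟩ ⟨h', _, k', l'⟩ =>
        ⟨hP.add h h', _, fun i => hD.add (k i) (k' i), ih.add l l'⟩
      mul := fun ⟨h, F', k, l⟩ ⟨h', G', k', l'⟩ =>
        ⟨hP.mul h h', _, fun i => hD.mul (k i) (k' i),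
          ih.add (ih.mul l (Tow.mono ⟨h', G', k', l'⟩)) (ih.mul (Tow.mono ⟨h, F', k, l⟩) l')⟩
      smul := fun hc ⟨h, _, k, l⟩ => ⟨hP.smul hc h, _, fun i => hD.smul _ (k i), ih.smul hc l⟩
      inv := fun ⟨h, F', k, l⟩ e hb =>
        have hG := ih.inv (Tow.mono ⟨h, F', k, l⟩) e hb
        ⟨hP.inv h e hb, _, fun i => hD.inv (k i) (e i), ih.neg (ih.mul (ih.mul l hG) hG)⟩ }

lemma Tow.map (L : ℕ → C2 → C2) (hP : ∀ j F, P F → P (fun i => L j (F i)))
    (hL : ∀ j F G, Dr F G → Dr (L j F) (L (j + 1) G)) :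
    ∀ {m : ℕ} (j : ℕ) {F : I → C2}, Tow Dr P m F → Tow Dr P m (fun i => L j (F i))
  | 0, j, _, h => hP j _ h
  | _ + 1, j, _, ⟨h, _, k, l⟩ => ⟨hP j _ h, _, fun i => hL j _ _ (k i), l.map L hP hL (j + 1)⟩

lemma Tow.imp {P' : (I → C2) → Prop} (h : ∀ F, P F → P' F) :
    ∀ {j : ℕ} {F : I → C2}, Tow Dr P j F → Tow Dr P' j F
  | 0, _, k => h _ k
  | _ + 1, _, ⟨a, F', k, l⟩ => ⟨h _ a, F', k, l.imp h⟩

end

/-- bounded height derivatives up to order `m` -/
def St (m : ℕ) : (I → C2) → Prop := Tow Dt Bd m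

lemma good_St (m : ℕ) : Good (St m : (I → C2) → Prop) := good_Tow der_Dt good_Bd m

lemma St.dt {m : ℕ} {F G : I → C2} (h : St (m + 1) F) (k : ∀ i, Dt (F i) (G i)) : St m G := by
  obtain ⟨-, F', a, c⟩ := h
  rwa [show G = F' from funext fun i => (k i).unique (a i)]

/-- all angular derivatives have bounded height derivatives up to order `m` -/
def SS (m : ℕ) (F : I → C2) : Prop := ∀ j, Tow Dx (St m) j F

lemma good_SS (m : ℕ) : Good (SS m : (I → C2) → Prop) :=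
  have h := good_Tow der_Dx (good_St (I := I) m)
  { bd := fun k => (h 0).bd (k 0)
    one := fun j => (h j).one
    add := fun k l j => (h j).add (k j) (l j)
    mul := fun k l j => (h j).mul (k j) (l j)
    smul := fun hc k j => (h j).smul hc (k j)
    inv := fun k e hb j => (h j).inv (k j) e hb }

namespace SS
variable {m : ℕ} {F G : I → C2}

lemma st (h : SS m F) : St m F := h 0

lemma mono (h : SS (m + 1) F) : SS m F := fun j => (h j).imp (fun _ k => Tow.mono k)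

lemma zero (h : SS m F) : SS 0 F := fun j => (h j).imp (fun _ k => Tow.base k)

lemma dx (h : SS m F) (k : ∀ i, Dx (F i) (G i)) : SS m G := fun j => by
  obtain ⟨-, F', a, c⟩ := h (j + 1)
  rwa [show G = F' from funext fun i => (k i).unique (a i)]

lemma exists_dx (h : SS m F) : ∃ G : I → C2, (∀ i, Dx (F i) (G i)) ∧ SS m G :=
  let ⟨_, G, a, _⟩ := h 1; ⟨G, a, h.dx a⟩

lemma up (h : SS 0 F) (k : ∀ i, Dt (F i) (G i)) (l : SS m G) : SS (m + 1) F := by
  intro j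
  induction j generalizing F G with
  | zero => exact ⟨h 0, G, k, l 0⟩
  | succ j ih =>
    obtain ⟨F', a, a'⟩ := h.exists_dx
    obtain ⟨G', c, c'⟩ := l.exists_dx
    exact ⟨⟨h 0, G, k, l 0⟩, F', a, ih a' (fun i => Dt_Dx (k i) (a i) (c i)) c'⟩

lemma of_St {y : I → D0} (h : St m (fun i => ι (y i))) : SS m (fun i => ι (y i))
  | 0 => h
  | j + 1 => ⟨h, fun _ => 0, fun _ => Dx_ι _, (good_Tow der_Dx (good_St m) j).zero⟩

lemma map (L : ℕ → C2 →L[ℝ] C2) (ht : ∀ j F G, Dt F G → Dt (L j F) (L (j + 1) G))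
    (hx : ∀ F G, Dx F G → Dx (L 0 F) (L 0 G)) (h : SS m F) : SS m (fun i => L 0 (F i)) :=
  fun j => Tow.map (fun _ => L 0) (fun _ _ k => Tow.map (fun j => L j)
    (fun j _ k => k.map (L j)) ht 0 k) (fun _ => hx) 0 (h j)

lemma Av (h : SS m F) : SS m (fun i => lift2 (Av 0) (F i)) :=
  h.map (fun j => lift2 (MP_0d657e_an.Av j)) (fun j _ _ k x => (k x).Av j)
    (fun _ _ k => k.lift2 _)

lemma rf (h : SS m F) : SS m (fun i => lift2 rf (F i)) := by
  have := h.map (fun j => lift2 ((-1:ℝ) ^ j • MP_0d657e_an.rf))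
    (fun j _ _ k x => ((k x).rf.smul ((-1:ℝ) ^ j)).congr' (by simp [pow_succ]))
    (fun _ _ k => k.lift2 _)
  simpa using this

lemma avg (h : SS m F) : SS m (fun i => ι (avg (F i))) :=
  h.map (fun _ => ιL.comp MP_0d657e_an.avg) (fun _ _ _ k => Dt_ι k.avg)
    (fun _ _ k => (Dx_ι _).congr' (by simp [k.avg_eq]))

end SS

lemma St_const : ∀ {m : ℕ} {y : D0}, Sd m y → St m (fun _ : I => ι y)
  | 0, _, _ => Bd.const _
  | _ + 1, _, ⟨_, h, k⟩ => ⟨Bd.const _, _, fun _ => Dt_ι h, St_const k⟩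

lemma SS_const {m : ℕ} {y : D0} (h : Sd m y) : SS m (fun _ : I => ι y) := SS.of_St (St_const h)

lemma St_of_Dt_zero {m : ℕ} {F : C2} (h : Dt F 0) : St m (fun _ : I => F) := by
  cases m with
  | zero => exact Bd.const _
  | succ m => exact ⟨Bd.const _, fun _ => 0, fun _ => h, (good_St m).zero⟩

lemma tow_trig (m : ℕ) (k : ℤ) : ∀ j, Tow Dx (St m) j (fun _ : I => cx k) ∧
    Tow Dx (St m) j (fun _ : I => sx k)
  | 0 => ⟨St_of_Dt_zero (Dt_cx k), St_of_Dt_zero (Dt_sx k)⟩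
  | j + 1 =>
    have g := good_Tow der_Dx (good_St (I := I) m) j
    ⟨⟨St_of_Dt_zero (Dt_cx k), _, fun _ => Dx_cx k, g.neg (g.smul' _ (tow_trig m k j).2)⟩,
      ⟨St_of_Dt_zero (Dt_sx k), _, fun _ => Dx_sx k, g.smul' _ (tow_trig m k j).1⟩⟩

lemma SS_cx (m : ℕ) (k : ℤ) : SS m (fun _ : I => cx k) := fun j => (tow_trig m k j).1
lemma SS_sx (m : ℕ) (k : ℤ) : SS m (fun _ : I => sx k) := fun j => (tow_trig m k j).2

lemma tow_E {f : I → W} (h : Bd f) : ∀ j l, Tow Dx (St 0) j (fun i => Ec l (f i)) ∧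
    Tow Dx (St 0) j (fun i => Es l (f i))
  | 0, l => ⟨h.map (Ec l), h.map (Es l)⟩
  | j + 1, l =>
    ⟨⟨h.map (Ec l), _, fun _ => Dx_Ec l _,
      (good_Tow der_Dx (good_St 0) j).neg (tow_E h j (l + 1)).2⟩,
     ⟨h.map (Es l), _, fun _ => Dx_Es l _, (tow_E h j (l + 1)).1⟩⟩

lemma SS_Ec {f : I → W} (h : Bd f) (l : ℕ) : SS 0 (fun i => Ec l (f i)) :=
  fun j => (tow_E h j l).1

lemma SS.Qd {m : ℕ} {F : I → C2} (h : SS m F) : SS m (fun i => lift2 Qd (F i)) :=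
  (good_SS m).mul (SS_const (Sd_σi m)) ((good_SS m).sub h.Av h.rf.Av.rf)

lemma SS.cm {m : ℕ} {F : I → C2} (h : SS m F) (k : ℤ) : SS m (fun i => ι (cm k (F i))) :=
  ((good_SS m).mul (SS_cx m k) h).avg

lemma St.V {m : ℕ} {y : I → D0} (h : St m (fun i => ι (y i))) :
    St (m + 1) (fun i => ι (V (y i))) :=
  ⟨((good_St m).bd h).map (lift2 MP_0d657e_an.V), _, fun _ => Dt_ι (D1_V _), h⟩

lemma St.exists_d1 {m : ℕ} {y : I → D0} (h : St (m + 1) (fun i => ι (y i))) :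
    ∃ y' : I → D0, (∀ i, D1 (y i) (y' i)) ∧ St m (fun i => ι (y' i)) :=
  let ⟨_, F', a, _⟩ := h
  ⟨fun i => F' i 0, fun i => a i 0, h.dt (fun i => Dt_ι (a i 0))⟩

lemma St.sd : ∀ {m : ℕ} {y : I → D0}, St m (fun i => ι (y i)) → ∀ i, Sd m (y i)
  | 0, _, _, _ => trivial
  | _ + 1, _, h, i => let ⟨y', a, c⟩ := h.exists_d1; ⟨y' i, a i, c.sd i⟩

lemma Bd.of_ι {y : I → D0} (h : Bd (fun i => ι (y i))) : Bd y := by
  simpa using h.map avg

end

end Pool.Agent.P.MP_0d657e_an
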