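import Pool.Agent.P.MP_0d657e_an.Des
import Pool.Agent.P.MP_0d657e_an.Tower
import Pool.Agent.P.MP_0d657e_an.Parseval

/-! The trigonometric polynomials attached to a design and the first order equation. -/

open Set Real

namespace Pool.Agent.P.MP_0d657e_an

noncomputable section

/-- cosine polynomial -/
def TC (S : Finset ℤ) (y : ℤ → D0) : C2 := ∑ k ∈ S, ι (y k) * cx k
/-- sine polynomial -/
def TS (S : Finset ℤ) (y : ℤ → D0) : C2 := ∑ k ∈ S, ι (y k) * sx k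

section
variable {S : Finset ℤ} {y y' : ℤ → D0}

lemma Dx_TC : Dx (TC S y) (-TS S (fun k => (k:ℝ) • y k)) :=
  (Dx.sum S (fun k _ => (Dx_ι (y k)).mul (Dx_cx k))).congr' (by
    simp [TS, ← Finset.sum_neg_distrib])

lemma Dx_TS : Dx (TS S y) (TC S (fun k => (k:ℝ) • y k)) :=
  (Dx.sum S (fun k _ => (Dx_ι (y k)).mul (Dx_sx k))).congr' (by simp [TC])

lemma Dt_TC (h : ∀ k, D1 (y k) (y' k)) : Dt (TC S y) (TC S y') :=
  (Dt.sum S (fun k _ => (Dt_ι (h k)).mul (Dt_cx k))).congr' (by simp [TC])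

lemma Dt_TS (h : ∀ k, D1 (y k) (y' k)) : Dt (TS S y) (TS S y') :=
  (Dt.sum S (fun k _ => (Dt_ι (h k)).mul (Dt_sx k))).congr' (by simp [TS])

lemma cm_ι_cx (k l : ℤ) (y : D0) : cm k (ι y * cx l) =
    (1/2 : ℝ) • ((if l = -k then y else 0) + if l = k then y else 0) := by
  rw [cm_ι_mul, cm_cx]
  simp only [mul_smul_comm, mul_add, mul_ite, mul_one, mul_zero]
  congr 2 <;> refine if_congr ⟨fun h => by omega, fun h => by omega⟩ rfl rfl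

lemma cm_TC (hS : ∀ k ∈ S, -k ∈ S) (hy : ∀ k, y (-k) = y k) (k : ℤ) :
    cm k (TC S y) = if k ∈ S then y k else 0 := by
  simp only [TC, map_sum, cm_ι_cx, ← Finset.smul_sum, Finset.sum_add_distrib, Finset.sum_ite_eq',
    hy]
  by_cases h : k ∈ S
  · simp only [h, hS k h, if_true]; module
  · have : -k ∉ S := fun h' => h (by simpa using hS _ h')
    simp [h, this]

lemma SS_TC {I : Type} {m : ℕ} (h : ∀ k, Sd m (y k)) : SS m (fun _ : I => TC S y) :=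
  (good_SS m).sum S (f := fun k _ => ι (y k) * cx k)
    (fun k _ => (good_SS m).mul (SS_const (h k)) (SS_cx m k))

lemma SS_TS {I : Type} {m : ℕ} (h : ∀ k, Sd m (y k)) : SS m (fun _ : I => TS S y) :=
  (good_SS m).sum S (f := fun k _ => ι (y k) * sx k)
    (fun k _ => (good_SS m).mul (SS_const (h k)) (SS_sx m k))

@[simp] lemma ρ_TC : ρ (TC S y) = TC S y := by simp [TC]
@[simp] lemma ρ_TS : ρ (TS S y) = -TS S y := by simp [TS]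

lemma TC_at (t : Icc (0:ℝ) π) (h : ∀ k, y k t = 0) (x : T) : TC S y x t = 0 := by
  simp [TC, h]

end

lemma eq_zero_of_even {F : C2} (h : ρ F = F) (hc : ∀ k, cm k F = 0) : F = 0 := by
  have hs : ∀ k, sm k F = 0 := fun k => avg_odd (by simp [h])
  refine eq_zero_of_nrm2 ?_
  have := hasSum_zero_of (parseval2 F) (fun k => by simp [hc, hs])
  rw [PF.nrm_def, P2_Φ, this, Real.sqrt_zero]

lemma Sd.of_d1 {m : ℕ} {y y' : D0} (h : Sd (m + 1) y) (k : D1 y y') : Sd m y' := by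
  obtain ⟨z, a, c⟩ := h
  rwa [D1.unique pi_pos k a]

lemma Sd.Rr {m : ℕ} {y y1 : D0} (κ : ℝ) (h : Sd m y) (k : Sd m y1) : Sd m (Rr κ y y1) :=
  ((h.mul (Sd_s1 m)).smul _).add ((k.mul ((Sd_c1 m).add ((Sd_s1 m).smul _))).smul _)

lemma Rr_smul (κ c : ℝ) (y y1 : D0) : Rr κ (c • y) (c • y1) = c • Rr κ y y1 := by
  simp only [Rr, smul_mul_assoc]; module

@[simp] lemma Rr_zero (κ : ℝ) : Rr κ 0 0 = 0 := by simp [Rr]

/-- the differential expression with given coefficients -/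
def Mx (cxx cx' ctt ct Fxx Fx Ftt F Ft : C2) : C2 :=
  cxx * Fxx - cx' * Fx + ctt * (Ftt + (5:ℝ) • F) + ct * (Ft + b • F)

namespace Des

variable (Ds : Des)

lemma n_ne : (Ds.n:ℝ) ≠ 0 := by have := Ds.n_pos; positivity

/-- the square of the inverse frequency -/
def d0 : ℝ := ((Ds.n:ℝ) ^ 2)⁻¹
lemma d0_pos : 0 < Ds.d0 := by have := Ds.n_pos; unfold d0; positivity

/-- half -/
def hf (y : ℤ → D0) (k : ℤ) : D0 := (1/2 : ℝ) • y k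
/-- times the frequency -/
def fq (y : ℤ → D0) (k : ℤ) : D0 := (k:ℝ) • y k

/-- the set of first order modes -/
def K' : Finset ℤ := Ds.K ∪ Ds.K.image (fun m => 2 * Ds.n - m) ∪ Ds.K.image (fun m => m - 2 * Ds.n)
  ∪ {4 * (Ds.n:ℤ), -(4 * (Ds.n:ℤ))}

lemma mem_K' (k : ℤ) : k ∈ Ds.K' ↔ k ∈ Ds.K ∨ 2 * Ds.n - k ∈ Ds.K ∨ 2 * Ds.n + k ∈ Ds.K ∨
    k = 4 * Ds.n ∨ k = -(4 * Ds.n) := by
  simp only [K', Finset.mem_union, Finset.mem_image, Finset.mem_insert, Finset.mem_singleton,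
    or_assoc]
  refine or_congr Iff.rfl (or_congr ?_ (or_congr ?_ Iff.rfl))
  · exact ⟨fun ⟨m, h, e⟩ => by rwa [← e, sub_sub_cancel], fun h => ⟨_, h, by ring⟩⟩
  · exact ⟨fun ⟨m, h, e⟩ => by rwa [← e, add_sub_cancel], fun h => ⟨_, h, by ring⟩⟩

lemma neg_mem_K (k : ℤ) : -k ∈ Ds.K ↔ k ∈ Ds.K :=
  ⟨fun h => by simpa using Ds.K_neg _ h, Ds.K_neg k⟩

lemma K'_neg : ∀ k ∈ Ds.K', -k ∈ Ds.K' := by
  intro k
  rw [mem_K', mem_K', neg_mem_K, sub_neg_eq_add, ← sub_eq_add_neg]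
  rintro (h | h | h | h | h)
  exacts [Or.inl h, Or.inr (Or.inr (Or.inl h)), Or.inr (Or.inl h),
    Or.inr (Or.inr (Or.inr (Or.inr (by omega)))), Or.inr (Or.inr (Or.inr (Or.inl (by omega))))]

lemma zero_not_mem_K' : (0:ℤ) ∉ Ds.K' := by
  have := Ds.n_pos
  rw [mem_K']
  rintro (h | h | h | h | h)
  exacts [Ds.m0 h, Ds.m2 (by simpa using h), Ds.m2 (by simpa using h), by omega, by omega]

/-- first order variation of `A` and derivatives -/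
def a0 : C2 := TC Ds.K (hf Ds.α)
/-- height derivative -/
def a1 : C2 := TC Ds.K (hf Ds.α1)
/-- second height derivative -/
def a2 : C2 := TC Ds.K (hf Ds.α2)
/-- third height derivative -/
def a3 : C2 := TC Ds.K (hf Ds.α3)
/-- angular derivative -/
def a0x : C2 := -TS Ds.K (fq (hf Ds.α))
/-- mixed derivative -/
def a1x : C2 := -TS Ds.K (fq (hf Ds.α1))
/-- mixed derivative -/
def a2x : C2 := -TS Ds.K (fq (hf Ds.α2))
/-- first order variation of the kernel element -/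
def f0 : C2 := TC Ds.K' (hf Ds.φ)
/-- height derivative -/
def f1 : C2 := TC Ds.K' (hf Ds.φ1)
/-- second height derivative -/
def f2 : C2 := TC Ds.K' (hf Ds.φ2)
/-- angular derivative -/
def fx : C2 := -TS Ds.K' (fq (hf Ds.φ))
/-- second angular derivative -/
def fxx : C2 := -TC Ds.K' (fq (fq (hf Ds.φ)))
/-- the unperturbed kernel element -/
def e0 : C2 := ι s1 * cx (2 * Ds.n)
/-- height derivative -/
def e1 : C2 := ι c1 * cx (2 * Ds.n)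
/-- angular derivative -/
def ex' : C2 := -((2 * Ds.n : ℝ) • (ι s1 * sx (2 * Ds.n)))
/-- second angular derivative -/
def exx : C2 := -((2 * Ds.n : ℝ) ^ 2 • Ds.e0)

lemma dt_a0 : Dt Ds.a0 Ds.a1 := Dt_TC (fun k => (Ds.hα k).smul _)
lemma dt_a1 : Dt Ds.a1 Ds.a2 := Dt_TC (fun k => (Ds.hα1 k).smul _)
lemma dt_a2 : Dt Ds.a2 Ds.a3 := Dt_TC (fun k => (Ds.hα2 k).smul _)
lemma dx_a0 : Dx Ds.a0 Ds.a0x := Dx_TC
lemma dx_a1 : Dx Ds.a1 Ds.a1x := Dx_TC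
lemma dx_a2 : Dx Ds.a2 Ds.a2x := Dx_TC
lemma dt_a0x : Dt Ds.a0x Ds.a1x := Dt_Dx Ds.dt_a0 Ds.dx_a0 Ds.dx_a1
lemma dt_a1x : Dt Ds.a1x Ds.a2x := Dt_Dx Ds.dt_a1 Ds.dx_a1 Ds.dx_a2
lemma dt_f0 : Dt Ds.f0 Ds.f1 := Dt_TC (fun k => (Ds.hφ k).smul _)
lemma dt_f1 : Dt Ds.f1 Ds.f2 := Dt_TC (fun k => (Ds.hφ1 k).smul _)
lemma dx_f0 : Dx Ds.f0 Ds.fx := Dx_TC
lemma dx_fx : Dx Ds.fx Ds.fxx := Dx_TS.neg
lemma dt_e0 : Dt Ds.e0 Ds.e1 := ((Dt_ι D1_s1).mul (Dt_cx _)).congr' (by simp [e1])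
lemma dt_e1 : Dt Ds.e1 (-Ds.e0) := ((Dt_ι D1_c1).mul (Dt_cx _)).congr' (by simp [e0])
lemma dx_e0 : Dx Ds.e0 Ds.ex' := ((Dx_ι _).mul (Dx_cx _)).congr' (by simp [ex'])
lemma dx_ex : Dx Ds.ex' Ds.exx :=
  (((Dx_ι _).mul (Dx_sx _)).smul _).neg.congr' (by simp [exx, e0, smul_smul, sq])

lemma cm_hf {y : ℤ → D0} (h : ∀ k, y (-k) = y k) (h0 : ∀ k, k ∉ Ds.K → y k = 0) (k : ℤ) :
    cm k (TC Ds.K (hf y)) = (1/2 : ℝ) • y k := by
  rw [cm_TC Ds.K_neg (fun k => by simp [hf, h])]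
  split_ifs with hk
  · rfl
  · rw [h0 k hk, smul_zero]

lemma cm_a0 (k : ℤ) : cm k Ds.a0 = (1/2 : ℝ) • Ds.α k := Ds.cm_hf Ds.α_neg Ds.α_off k
lemma cm_a1 (k : ℤ) : cm k Ds.a1 = (1/2 : ℝ) • Ds.α1 k :=
  Ds.cm_hf Ds.α1_neg (fun _ => Ds.α1_off) k
lemma cm_a2 (k : ℤ) : cm k Ds.a2 = (1/2 : ℝ) • Ds.α2 k :=
  Ds.cm_hf Ds.α2_neg (fun _ => Ds.α2_off) k

lemma cm_f0 (k : ℤ) : cm k Ds.f0 = if k ∈ Ds.K' then (1/2 : ℝ) • Ds.φ k else 0 :=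
  cm_TC Ds.K'_neg (fun k => by simp [hf, Ds.φ_neg]) k
lemma cm_f1 (k : ℤ) : cm k Ds.f1 = if k ∈ Ds.K' then (1/2 : ℝ) • Ds.φ1 k else 0 :=
  cm_TC Ds.K'_neg (fun k => by simp [hf, Ds.φ1_neg]) k
lemma cm_f2 (k : ℤ) : cm k Ds.f2 = if k ∈ Ds.K' then (1/2 : ℝ) • Ds.φ2 k else 0 :=
  cm_TC Ds.K'_neg (fun k => by simp [hf, Ds.φ2_neg]) k

lemma cm_xx {F Fx Fxx : C2} (h : Dx F Fx) (h' : Dx Fx Fxx) (k : ℤ) :
    cm k Fxx = -((k:ℝ) ^ 2 • cm k F) := by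
  rw [h'.cm_eq, h.sm_eq, smul_neg, smul_smul, sq]

/-- the first order perturbation applied to the kernel element -/
def M0 (a ax a1 : C2) : C2 :=
  Mx (Ds.d0 • a) (Ds.d0 • ax) ((3:ℝ) • a) a1 Ds.exx Ds.ex' (-Ds.e0) Ds.e0 Ds.e1

lemma cm_M0 {a ax : C2} (h : Dx a ax) (a1 : C2) (k : ℤ) :
    cm k (Ds.M0 a ax a1) = Rr (k / Ds.n) (cm (2 * Ds.n - k) a) (cm (2 * Ds.n - k) a1)
      + Rr (-(k / Ds.n)) (cm (2 * Ds.n + k) a) (cm (2 * Ds.n + k) a1) := by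
  have hn := Ds.n_ne
  have e : Ds.M0 a ax a1 = (8:ℝ) • (ι s1 * (cx (2 * Ds.n) * a))
      + (2 / Ds.n : ℝ) • (ι s1 * (sx (2 * Ds.n) * ax))
      + ι (c1 + b • s1) * (cx (2 * Ds.n) * a1) := by
    have h1 : Ds.d0 * (2 * Ds.n) ^ 2 = 4 := by unfold d0; field_simp; norm_num
    have h2 : Ds.d0 * (2 * Ds.n) = 2 / Ds.n := by unfold d0; field_simp
    have h1' := congrArg (algebraMap ℝ C2) h1
    rw [← h2]
    simp only [M0, Mx, exx, ex', e0, e1, map_add, map_smul]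
    simp only [Algebra.smul_def, map_mul, map_pow, map_ofNat] at h1' ⊢
    linear_combination (-(a * ι s1 * cx (2 * Ds.n))) * h1'
  have n1 : ∀ F, cm (k - 2 * Ds.n) F = cm (2 * Ds.n - k) F := fun F => by
    rw [← cm_neg, neg_sub]
  rw [e, map_add, map_add, cm_ι_mul]
  simp only [map_smul, cm_ι_mul, cm_cx_mul, cm_sx_mul, h.sm_eq, n1, add_comm k, Rr]
  push_cast
  ext t
  simp only [D.add_apply, D.smul_apply, D.mul_apply, D.sub_apply, D.neg_apply]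
  field_simp
  ring

/-- the first order equation -/
theorem first_order : Ds.d0 • Ds.fxx + Ds.f2 + (5:ℝ) • Ds.f0 + Ds.M0 Ds.a0 Ds.a0x Ds.a1 = 0 := by
  refine eq_zero_of_even (by simp [M0, Mx, fxx, f2, f0, a0, a0x, a1, exx, ex', e0, e1])
    (fun k => ?_)
  rw [map_add, map_add, map_add, map_smul, map_smul, cm_xx Ds.dx_f0 Ds.dx_fx, cm_M0 _ Ds.dx_a0,
    cm_f0, cm_f2, cm_a0, cm_a0, cm_a1, cm_a1, Rr_smul, Rr_smul]
  split_ifs with h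
  · have := Ds.ode k
    rw [div_pow, div_eq_inv_mul] at this
    unfold d0
    linear_combination (norm := module) (1/2 : ℝ) • this
  · rw [mem_K'] at h
    push Not at h
    simp [Ds.α_off _ h.2.1, Ds.α_off _ h.2.2.1, Ds.α1_off h.2.1, Ds.α1_off h.2.2.1]

lemma Sd_α1 (k : ℤ) (m : ℕ) : Sd m (Ds.α1 k) := (Ds.smooth k (m + 1)).of_d1 (Ds.hα k)
lemma Sd_α2 (k : ℤ) (m : ℕ) : Sd m (Ds.α2 k) := (Ds.Sd_α1 k (m + 1)).of_d1 (Ds.hα1 k)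

lemma Sd_φ2_of {k : ℤ} {m : ℕ} (h : Sd m (Ds.φ k)) : Sd m (Ds.φ2 k) := by
  rw [eq_sub_of_add_eq (Ds.ode k)]
  exact (((Ds.smooth _ m).Rr _ (Ds.Sd_α1 _ m)).add
    ((Ds.smooth _ m).Rr _ (Ds.Sd_α1 _ m))).neg.sub (h.smul _)

lemma Sd_φ (k : ℤ) : ∀ m : ℕ, Sd m (Ds.φ k) ∧ Sd m (Ds.φ1 k)
  | 0 => ⟨trivial, trivial⟩
  | m + 1 => ⟨⟨_, Ds.hφ k, (Sd_φ k m).2⟩, ⟨_, Ds.hφ1 k, Ds.Sd_φ2_of (Sd_φ k m).1⟩⟩

section
variable {I : Type} (m : ℕ)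
lemma SS_a0 : SS m (fun _ : I => Ds.a0) := SS_TC (fun k => (Ds.smooth k m).smul _)
lemma SS_a1 : SS m (fun _ : I => Ds.a1) := SS_TC (fun k => (Ds.Sd_α1 k m).smul _)
lemma SS_a0x : SS m (fun _ : I => Ds.a0x) := (Ds.SS_a0 m).dx (fun _ => Ds.dx_a0)
lemma SS_f0 : SS m (fun _ : I => Ds.f0) := SS_TC (fun k => (Ds.Sd_φ k m).1.smul _)
lemma SS_f1 : SS m (fun _ : I => Ds.f1) := SS_TC (fun k => (Ds.Sd_φ k m).2.smul _)
lemma SS_f2 : SS m (fun _ : I => Ds.f2) :=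
  SS_TC (fun k => (Ds.Sd_φ2_of (Ds.Sd_φ k m).1).smul _)
lemma SS_fx : SS m (fun _ : I => Ds.fx) := (Ds.SS_f0 m).dx (fun _ => Ds.dx_f0)
lemma SS_fxx : SS m (fun _ : I => Ds.fxx) := (Ds.SS_fx m).dx (fun _ => Ds.dx_fx)
lemma SS_e0 : SS m (fun _ : I => Ds.e0) := (good_SS m).mul (SS_const (Sd_s1 m)) (SS_cx m _)
lemma SS_e1 : SS m (fun _ : I => Ds.e1) := (good_SS m).mul (SS_const (Sd_c1 m)) (SS_cx m _)
lemma SS_ex : SS m (fun _ : I => Ds.ex') := (Ds.SS_e0 m).dx (fun _ => Ds.dx_e0)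
lemma SS_exx : SS m (fun _ : I => Ds.exx) := (Ds.SS_ex m).dx (fun _ => Ds.dx_ex)
end

end Des

end

end Pool.Agent.P.MP_0d657e_an
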