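import Pool.Agent.P.MP_0d657e_an.Wsp

/-! The Green operator of the unperturbed problem on the weighted Wiener space. -/

open Set Real

namespace Pool.Agent.P.MP_0d657e_an

noncomputable section

namespace Green

variable {n : ℕ} (G : Green n)

lemma ub0 {c : ℤ → ℝ} (hc : ∀ k : ℤ, |c k| ≤ 1 + (k:ℝ) ^ 2) : UB fun k => c k • G.G0 k :=
  ⟨G.C, fun k => by
    rw [norm_smul]
    exact (mul_le_mul_of_nonneg_right (hc k) (norm_nonneg _)).trans (G.b0 k)⟩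

/-- the solution -/
def g0 : W →L[ℝ] W := opW (Equiv.refl _) _ (G.ub0 (c := fun _ => 1) (fun k => by
  rw [abs_one]; nlinarith [sq_nonneg (k:ℝ)]))
/-- the solution times the frequency -/
def gx : W →L[ℝ] W := opW (Equiv.refl _) _ (G.ub0 (c := fun k => k) (fun k => by
  rw [abs_le]; constructor <;> nlinarith [sq_nonneg ((k:ℝ) - 1), sq_nonneg ((k:ℝ) + 1)]))
/-- the solution times the square of the frequency -/
def gxx : W →L[ℝ] W := opW (Equiv.refl _) _ (G.ub0 (c := fun k => (k:ℝ) ^ 2) (fun k => by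
  rw [abs_of_nonneg (sq_nonneg _)]; linarith))
/-- the first derivative -/
def g1 : W →L[ℝ] W := opW (Equiv.refl _) G.G1 ⟨G.C, G.b1⟩
/-- the second derivative -/
def g2 : W →L[ℝ] W := opW (Equiv.refl _) G.G2 ⟨G.C, G.b2⟩

lemma g0_apply (f : W) (k : ℤ) : G.g0 f k = G.G0 k (f k) := one_smul ℝ (G.G0 k (f k))
lemma gx_apply (f : W) (k : ℤ) : G.gx f k = (k:ℝ) • G.G0 k (f k) := rfl
lemma gxx_apply (f : W) (k : ℤ) : G.gxx f k = (k:ℝ) ^ 2 • G.G0 k (f k) := rfl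
lemma g1_apply (f : W) (k : ℤ) : G.g1 f k = G.G1 k (f k) := rfl
lemma g2_apply (f : W) (k : ℤ) : G.g2 f k = G.G2 k (f k) := rfl

lemma Es_gx (f : W) : Es 0 (G.gx f) = Es 1 (G.g0 f) :=
  (hasSum_Es 0 _).unique ((hasSum_Es 1 _).congr_fun (fun k => by
    simp only [g0_apply, gx_apply, map_smul, mul_smul_comm, smul_smul, pow_zero, mul_one,
      pow_one]))

lemma Ec_gxx (f : W) : Ec 0 (G.gxx f) = Ec 2 (G.g0 f) :=
  (hasSum_Ec 0 _).unique ((hasSum_Ec 2 _).congr_fun (fun k => by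
    simp only [g0_apply, gxx_apply, map_smul, mul_smul_comm, smul_smul, pow_zero, mul_one]))

lemma dx0 (f : W) : Dx (Ec 0 (G.g0 f)) (-Es 0 (G.gx f)) := by
  rw [Es_gx]; exact Dx_Ec 0 _
lemma dx1 (f : W) : Dx (-Es 0 (G.gx f)) (-Ec 0 (G.gxx f)) := by
  rw [Es_gx, Ec_gxx]; exact (Dx_Es 1 _).neg
lemma dt0 (f : W) : Dt (Ec 0 (G.g0 f)) (Ec 0 (G.g1 f)) :=
  Dt_Ec 0 (fun k => by rw [g0_apply]; exact G.d0 k _)
lemma dt1 (f : W) : Dt (Ec 0 (G.g1 f)) (Ec 0 (G.g2 f)) := Dt_Ec 0 (fun k => G.d1 k _)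
lemma at_lo (f : W) (x : T) : Ec 0 (G.g0 f) x MP_0d657e_an.lo = 0 :=
  Ec_at 0 _ (fun k => by rw [g0_apply]; exact G.lo k _) x
lemma at_hi (f : W) (x : T) : Ec 0 (G.g0 f) x MP_0d657e_an.hi = 0 :=
  Ec_at 0 _ (fun k => by rw [g0_apply]; exact G.hi k _) x

lemma Pj_eq_zero {j : ℕ} {k : ℤ} {f : W} (h : J (sn j * cm k (Ec 0 f)) = 0) :
    Pj j (f k) + Pj j (f (-k)) = 0 := by
  rw [cm_Ec, mul_smul_comm, map_smul, smul_eq_mul] at h
  have h' := (mul_eq_zero.1 h).resolve_left (div_pos (wt_pos k) two_pos).ne'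
  rw [← map_add, Pj_apply, h', mul_zero, zero_smul]

/-- the Green operator inverts the unperturbed operator under two solvability conditions -/
theorem solves (hn : 0 < n) {f : W} (h1 : J (s2 * cm n (Ec 0 f)) = 0)
    (h2 : J (s1 * cm (2 * n) (Ec 0 f)) = 0) :
    ((n:ℝ) ^ 2)⁻¹ • (-Ec 0 (G.gxx f)) + Ec 0 (G.g2 f) + (5:ℝ) • Ec 0 (G.g0 f) = Ec 0 f := by
  have a1 := Pj_eq_zero (j := 2) (k := n) (f := f) (by simpa [s2] using h1)
  have a2 := Pj_eq_zero (j := 1) (k := 2 * n) (f := f) (by simpa [s1] using h2)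
  let tm : ℕ → ℤ → C2 := fun j k => wt k • (cx k * ι (Pj j (f k)))
  have s1 := ((hasSum_ite_eq (n:ℤ) (tm 2 n)).add (hasSum_ite_eq (-n:ℤ) (tm 2 (-n)))).add
    ((hasSum_ite_eq (2 * n:ℤ) (tm 1 (2 * n))).add (hasSum_ite_eq (-(2 * n):ℤ) (tm 1 (-(2 * n)))))
  have z : tm 2 n + tm 2 (-n) + (tm 1 (2 * n) + tm 1 (-(2 * n))) = 0 := by
    simp only [tm, wt_neg, cx_neg, ← smul_add, ← mul_add, ← map_add ι, a1, a2]
    simp
  rw [z] at s1
  have s2 := ((((hasSum_Ec 0 (G.gxx f)).neg.const_smul ((n:ℝ) ^ 2)⁻¹).add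
    (hasSum_Ec 0 (G.g2 f))).add ((hasSum_Ec 0 (G.g0 f)).const_smul (5:ℝ))).add s1
  rw [add_zero] at s2
  refine s2.unique ((hasSum_Ec 0 f).congr_fun (fun k => ?_))
  have e : ((if k = n then tm 2 n else 0) + if k = -n then tm 2 (-n) else 0) +
      ((if k = 2 * n then tm 1 (2 * n) else 0) + if k = -(2 * n) then tm 1 (-(2 * n)) else 0)
      = wt k • (cx k * ι (Pk n k (f k))) := by
    unfold Pk
    split_ifs <;> first | omega | (subst_vars; simp [tm])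
  have e2 := eq_sub_of_add_eq (G.eq k (f k))
  rw [e, g2_apply, e2, g0_apply, gxx_apply]
  simp only [pow_zero, mul_one, map_sub, map_smul, mul_sub, mul_smul_comm, div_pow]
  rw [div_eq_inv_mul]
  module

end Green

end

end Pool.Agent.P.MP_0d657e_an
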