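import Pool.Agent.P.MP_0d657e_an.FamA
import Pool.Agent.P.MP_0d657e_an.WGreen

/-! The nonlinear system for the exact geometry, written in the weighted Wiener space. -/

open Set Real

namespace Pool.Agent.P.MP_0d657e_an

noncomputable section

/-- bounded operators on the Wiener space -/
abbrev OW := W →L[ℝ] W

/-- an operator represents multiplication of cosine series -/
def Rp (T : C2) (O : OW) : Prop := ∀ w, Ec 0 (O w) = T * Ec 0 w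
/-- an operator represents multiplication of sine series -/
def Rs (T : C2) (O : OW) : Prop := ∀ w, Ec 0 (O w) = T * Es 0 w

section
variable {T T' : C2} {O O' : OW}
lemma Rp.add (h : Rp T O) (k : Rp T' O') : Rp (T + T') (O + O') := fun w => by
  change Ec 0 (O w + O' w) = _
  rw [map_add, h, k, add_mul]
lemma Rp.smul (c : ℝ) (h : Rp T O) : Rp (c • T) (c • O) := fun w => by
  change Ec 0 (c • O w) = _
  rw [map_smul, h, smul_mul_assoc]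
lemma Rp.mul (h : Rp T O) (k : Rp T' O') : Rp (T * T') (O * O') := fun w => by
  change Ec 0 (O (O' w)) = _
  rw [h, k, mul_assoc]
lemma Rp.one : Rp 1 1 := fun w => by rw [one_mul]; rfl
lemma Rs.add (h : Rs T O) (k : Rs T' O') : Rs (T + T') (O + O') := fun w => by
  change Ec 0 (O w + O' w) = _
  rw [map_add, h, k, add_mul]
lemma Rs.smul (c : ℝ) (h : Rs T O) : Rs (c • T) (c • O) := fun w => by
  change Ec 0 (c • O w) = _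
  rw [map_smul, h, smul_mul_assoc]
lemma Rs.neg (h : Rs T O) : Rs (-T) (-O) := fun w => by
  change Ec 0 (-O w) = _
  rw [map_neg, h, neg_mul]
lemma Rp_mode (y : D0) (m : ℤ) : Rp (ι y * cx m) (Dm y * Cm m) := fun w => by
  change Ec 0 (Dm y (Cm m w)) = _
  rw [Ec_Dm, Ec_Cm, mul_assoc]
lemma Rs_mode (y : D0) (m : ℤ) : Rs (ι y * sx m) (Dm y * Sm m) := fun w => by
  change Ec 0 (Dm y (Sm m w)) = _
  rw [Ec_Dm, Ec_Sm, mul_assoc]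
end

lemma exists_Rp (S : Finset ℤ) (y : ℤ → D0) : ∃ O, Rp (TC S y) O :=
  ⟨∑ k ∈ S, Dm (y k) * Cm k, fun w => by
    rw [sum_apply, map_sum, TC, Finset.sum_mul]
    exact Finset.sum_congr rfl (fun k _ => Rp_mode _ _ w)⟩

lemma exists_Rs (S : Finset ℤ) (y : ℤ → D0) : ∃ O, Rs (TS S y) O :=
  ⟨∑ k ∈ S, Dm (y k) * Sm k, fun w => by
    rw [sum_apply, map_sum, TS, Finset.sum_mul]
    exact Finset.sum_congr rfl (fun k _ => Rs_mode _ _ w)⟩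

lemma exists_Ec (S : Finset ℤ) (y : ℤ → D0) : ∃ w, Ec 0 w = TC S y :=
  ⟨∑ k ∈ S, sgl k (y k), by simp [TC, Ec_sgl]⟩
lemma exists_Es (S : Finset ℤ) (y : ℤ → D0) : ∃ w, Es 0 w = TS S y :=
  ⟨∑ k ∈ S, sgl k (y k), by simp [TS, Es_sgl]⟩

/-- the differential expression in the Wiener space -/
def RW (Oxx Ox Ott Ot : OW) (jxx jx jtt j0 jt : W) : W :=
  Oxx jxx - Ox jx + Ott (jtt + (5:ℝ) • j0) + Ot (jt + b • j0)

lemma Ec_RW {cxx cx' ctt ct : C2} {Oxx Ox Ott Ot : OW} (h1 : Rp cxx Oxx) (h2 : Rs cx' Ox)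
    (h3 : Rp ctt Ott) (h4 : Rp ct Ot) (jxx jx jtt j0 jt : W) :
    Ec 0 (RW Oxx Ox Ott Ot jxx jx jtt j0 jt) =
      Mx cxx cx' ctt ct (Ec 0 jxx) (Es 0 jx) (Ec 0 jtt) (Ec 0 j0) (Ec 0 jt) := by
  rw [RW, map_add, map_add, map_sub, h1, h2, h3, h4]
  simp only [Mx, map_add, map_smul]

section coefficients
variable {R : Type*} [Ring R] [Algebra ℝ R]
/-- coefficient of the second angular derivative -/
def cA (d η ε : ℝ) (p : R) : R := (d * η * ε) • (1:R) + (d * (1 + η ^ 2 * ε)) • p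
/-- coefficient of the second height derivative -/
def cB (η : ℝ) (p : R) : R := (3:ℝ) • p + (3 * η) • (p * p) + η ^ 2 • (p * p * p)
/-- coefficient of the first height derivative -/
def cC (η : ℝ) (p p1 : R) : R := (1 + η • p) * (1 + η • p) * p1
/-- second order coefficient -/
def cA' (d η ε : ℝ) (u p : R) : R := (d * ε) • (1:R) + d • u + (d * η * ε) • p
/-- second order coefficient -/
def cX' (d η ε : ℝ) (ux px : R) : R := d • ux + (d * η * ε) • px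
/-- second order coefficient -/
def cB' (η : ℝ) (u p : R) : R := (3:ℝ) • u + (3:ℝ) • (p * p) + η • (p * p * p)
/-- second order coefficient -/
def cC' (η : ℝ) (u1 p p1 : R) : R := u1 + ((2:ℝ) • p + η • (p * p)) * p1
end coefficients

section
variable {u u1 p p1 : C2} {U U1 P P1 : OW}
lemma Rp.cA (d η ε : ℝ) (h : Rp p P) : Rp (cA d η ε p) (cA d η ε P) :=
  (Rp.one.smul _).add (h.smul _)
lemma Rp.cB (η : ℝ) (h : Rp p P) : Rp (cB η p) (cB η P) :=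
  ((h.smul _).add ((h.mul h).smul _)).add (((h.mul h).mul h).smul _)
lemma Rp.cC (η : ℝ) (h : Rp p P) (k : Rp p1 P1) : Rp (cC η p p1) (cC η P P1) :=
  ((Rp.one.add (h.smul _)).mul (Rp.one.add (h.smul _))).mul k
lemma Rp.cA' (d η ε : ℝ) (h : Rp u U) (k : Rp p P) : Rp (cA' d η ε u p) (cA' d η ε U P) :=
  ((Rp.one.smul _).add (h.smul _)).add (k.smul _)
lemma Rs.cX' (d η ε : ℝ) (h : Rs u U) (k : Rs p P) : Rs (cX' d η ε u p) (cX' d η ε U P) :=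
  (h.smul _).add (k.smul _)
lemma Rp.cB' (η : ℝ) (h : Rp u U) (k : Rp p P) : Rp (cB' η u p) (cB' η U P) :=
  ((h.smul _).add ((k.mul k).smul _)).add (((k.mul k).mul k).smul _)
lemma Rp.cC' (η : ℝ) (h : Rp u1 U1) (k : Rp p P) (l : Rp p1 P1) :
    Rp (cC' η u1 p p1) (cC' η U1 P P1) :=
  h.add (((k.smul _).add ((k.mul k).smul _)).mul l)
end

namespace Des

variable (Ds : Des)

/-- second order variation of `A` -/
def u0 (q : D0) (τ : ℝ) : C2 := τ • (ι (Ds.α (3 * Ds.n)) * cx (3 * Ds.n)) + ι (V q) * cx (2 * Ds.n)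
/-- height derivative -/
def u1 (q : D0) (τ : ℝ) : C2 := τ • (ι (Ds.α1 (3 * Ds.n)) * cx (3 * Ds.n)) + ι q * cx (2 * Ds.n)
/-- angular derivative -/
def ux (q : D0) (τ : ℝ) : C2 := -((τ * (3 * Ds.n)) • (ι (Ds.α (3 * Ds.n)) * sx (3 * Ds.n))
  + (2 * Ds.n : ℝ) • (ι (V q) * sx (2 * Ds.n)))
/-- variation of `A` -/
def p0 (η : ℝ) (q : D0) (τ : ℝ) : C2 := Ds.a0 + η • Ds.u0 q τ
/-- height derivative -/
def p1 (η : ℝ) (q : D0) (τ : ℝ) : C2 := Ds.a1 + η • Ds.u1 q τ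
/-- angular derivative -/
def px (η : ℝ) (q : D0) (τ : ℝ) : C2 := Ds.a0x + η • Ds.ux q τ

lemma dx_u0 (q : D0) (τ : ℝ) : Dx (Ds.u0 q τ) (Ds.ux q τ) :=
  ((((Dx_ι _).mul (Dx_cx _)).smul τ).add ((Dx_ι _).mul (Dx_cx _))).congr' (by
    simp only [ux, zero_mul, zero_add, mul_neg, mul_smul_comm, smul_neg, smul_smul, neg_add]
    push_cast; rfl)
lemma dt_u0 (q : D0) (τ : ℝ) : Dt (Ds.u0 q τ) (Ds.u1 q τ) :=
  ((((Dt_ι (Ds.hα _)).mul (Dt_cx _)).smul τ).add ((Dt_ι (D1_V q)).mul (Dt_cx _))).congr' (by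
    simp [u1])
lemma dx_p0 (η : ℝ) (q : D0) (τ : ℝ) : Dx (Ds.p0 η q τ) (Ds.px η q τ) :=
  Ds.dx_a0.add ((Ds.dx_u0 q τ).smul η)
lemma dt_p0 (η : ℝ) (q : D0) (τ : ℝ) : Dt (Ds.p0 η q τ) (Ds.p1 η q τ) :=
  Ds.dt_a0.add ((Ds.dt_u0 q τ).smul η)

/-- the perturbation of the operator -/
def MM (η : ℝ) (q : D0) (τ ε : ℝ) (Fxx Fx Ftt F Ft : C2) : C2 :=
  Mx (cA Ds.d0 η ε (Ds.p0 η q τ)) ((Ds.d0 * (1 + η ^ 2 * ε)) • Ds.px η q τ) (cB η (Ds.p0 η q τ))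
    (cC η (Ds.p0 η q τ) (Ds.p1 η q τ)) Fxx Fx Ftt F Ft

/-- the second order perturbation applied to the kernel element -/
def M1 (η : ℝ) (q : D0) (τ ε : ℝ) : C2 :=
  Mx (cA' Ds.d0 η ε (Ds.u0 q τ) (Ds.p0 η q τ)) (cX' Ds.d0 η ε (Ds.ux q τ) (Ds.px η q τ))
    (cB' η (Ds.u0 q τ) (Ds.p0 η q τ)) (cC' η (Ds.u1 q τ) (Ds.p0 η q τ) (Ds.p1 η q τ))
    Ds.exx Ds.ex' (-Ds.e0) Ds.e0 Ds.e1

/-- the space of unknowns -/
abbrev EU := W × D0 × ℝ × ℝ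

/-- the residual at the level of functions -/
def res' (G : Green Ds.n) (η : ℝ) (U : EU) : C2 :=
  Ds.MM η U.2.1 U.2.2.1 U.2.2.2 (Ds.fxx + η • -Ec 0 (G.gxx U.1)) (Ds.fx + η • -Es 0 (G.gx U.1))
    (Ds.f2 + η • Ec 0 (G.g2 U.1)) (Ds.f0 + η • Ec 0 (G.g0 U.1)) (Ds.f1 + η • Ec 0 (G.g1 U.1))
    + Ds.M1 η U.2.1 U.2.2.1 U.2.2.2

theorem exists_R (G : Green Ds.n) : ∃ R : ℝ × EU → W, ContDiff ℝ 1 R ∧
    (∀ x, Ec 0 (R x) = Ds.res' G x.1 x.2) ∧ ∀ f f' y, R (0, f, y) = R (0, f', y) := by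
  obtain ⟨Oa, ha⟩ := exists_Rp Ds.K (hf Ds.α)
  obtain ⟨Oa1, ha1⟩ := exists_Rp Ds.K (hf Ds.α1)
  obtain ⟨Oax, hax⟩ := exists_Rs Ds.K (fq (hf Ds.α))
  obtain ⟨j0, h0⟩ := exists_Ec Ds.K' (hf Ds.φ)
  obtain ⟨j1, h1⟩ := exists_Ec Ds.K' (hf Ds.φ1)
  obtain ⟨j2, h2⟩ := exists_Ec Ds.K' (hf Ds.φ2)
  obtain ⟨jx, hx⟩ := exists_Es Ds.K' (fq (hf Ds.φ))
  obtain ⟨jxx, hxx⟩ := exists_Ec Ds.K' (fq (fq (hf Ds.φ)))
  let n3 : ℤ := 3 * Ds.n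
  let n2 : ℤ := 2 * Ds.n
  let Ou : ℝ × EU → OW := fun x => x.2.2.2.1 • (Dm (Ds.α n3) * Cm n3) + Dm (V x.2.2.1) * Cm n2
  let Ou1 : ℝ × EU → OW := fun x => x.2.2.2.1 • (Dm (Ds.α1 n3) * Cm n3) + Dm x.2.2.1 * Cm n2
  let Oux : ℝ × EU → OW := fun x => -((x.2.2.2.1 * (3 * Ds.n)) • (Dm (Ds.α n3) * Sm n3)
    + (2 * Ds.n : ℝ) • (Dm (V x.2.2.1) * Sm n2))
  let Op : ℝ × EU → OW := fun x => Oa + x.1 • Ou x
  let Op1 : ℝ × EU → OW := fun x => Oa1 + x.1 • Ou1 x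
  let Opx : ℝ × EU → OW := fun x => -Oax + x.1 • Oux x
  have ru : ∀ x, Rp (Ds.u0 x.2.2.1 x.2.2.2.1) (Ou x) := fun x =>
    ((Rp_mode _ _).smul _).add (Rp_mode _ _)
  have ru1 : ∀ x, Rp (Ds.u1 x.2.2.1 x.2.2.2.1) (Ou1 x) := fun x =>
    ((Rp_mode _ _).smul _).add (Rp_mode _ _)
  have rux : ∀ x, Rs (Ds.ux x.2.2.1 x.2.2.2.1) (Oux x) := fun x =>
    (((Rs_mode _ _).smul _).add ((Rs_mode _ _).smul _)).neg
  have rp : ∀ x, Rp (Ds.p0 x.1 x.2.2.1 x.2.2.2.1) (Op x) := fun x => ha.add ((ru x).smul _)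
  have rp1 : ∀ x, Rp (Ds.p1 x.1 x.2.2.1 x.2.2.2.1) (Op1 x) := fun x => ha1.add ((ru1 x).smul _)
  have rpx : ∀ x, Rs (Ds.px x.1 x.2.2.1 x.2.2.2.1) (Opx x) := fun x =>
    hax.neg.add ((rux x).smul _)
  have cu : ContDiff ℝ 1 Ou := by fun_prop
  have cu1 : ContDiff ℝ 1 Ou1 := by fun_prop
  have cux : ContDiff ℝ 1 Oux := by fun_prop
  have cp : ContDiff ℝ 1 Op := by fun_prop
  have cp1 : ContDiff ℝ 1 Op1 := by fun_prop
  have cpx : ContDiff ℝ 1 Opx := by fun_prop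
  have zp : ∀ f f' y, Ou (0, f, y) = Ou (0, f', y) ∧ Ou1 (0, f, y) = Ou1 (0, f', y) ∧
      Oux (0, f, y) = Oux (0, f', y) ∧ Op (0, f, y) = Op (0, f', y) ∧
      Op1 (0, f, y) = Op1 (0, f', y) ∧ Opx (0, f, y) = Opx (0, f', y) :=
    fun _ _ _ => ⟨rfl, rfl, rfl, rfl, rfl, rfl⟩
  clear_value Ou Ou1 Oux Op Op1 Opx
  refine ⟨fun x => RW (cA Ds.d0 x.1 x.2.2.2.2 (Op x))
      ((Ds.d0 * (1 + x.1 ^ 2 * x.2.2.2.2)) • Opx x) (cB x.1 (Op x)) (cC x.1 (Op x) (Op1 x))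
      (-jxx + x.1 • -G.gxx x.2.1) (-jx + x.1 • -G.gx x.2.1) (j2 + x.1 • G.g2 x.2.1)
      (j0 + x.1 • G.g0 x.2.1) (j1 + x.1 • G.g1 x.2.1)
    + RW (cA' Ds.d0 x.1 x.2.2.2.2 (Ou x) (Op x)) (cX' Ds.d0 x.1 x.2.2.2.2 (Oux x) (Opx x))
      (cB' x.1 (Ou x) (Op x)) (cC' x.1 (Ou1 x) (Op x) (Op1 x))
      (-((2 * Ds.n : ℝ) ^ 2 • sgl n2 s1)) (-((2 * Ds.n : ℝ) • sgl n2 s1)) (-sgl n2 s1)
      (sgl n2 s1) (sgl n2 c1), ?_, fun x => ?_, fun f f' y => ?_⟩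
  · unfold RW cA cB cC cA' cX' cB' cC'
    fun_prop
  · rw [map_add, Ec_RW ((rp x).cA _ _ _) ((rpx x).smul _) ((rp x).cB _) ((rp x).cC _ (rp1 x)),
      Ec_RW ((ru x).cA' _ _ _ (rp x)) ((rux x).cX' _ _ _ (rpx x)) ((ru x).cB' _ (rp x))
        ((ru1 x).cC' _ (rp x) (rp1 x))]
    simp only [map_add, map_smul, map_neg, h0, h1, h2, hx, hxx, Ec_sgl, Es_sgl]
    rfl
  · obtain ⟨z1, z2, z3, z4, z5, z6⟩ := zp f f' y
    simp only [z1, z2, z3, z4, z5, z6, zero_smul]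

end Des

end

end Pool.Agent.P.MP_0d657e_an
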