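import Pool.Agent.P.MP_0d657e_an.FamFix

/-! Regularity of the solution family, uniformly in the parameter. -/

open Set Real

namespace Pool.Agent.P.MP_0d657e_an

noncomputable section

variable {I : Type}

lemma pos_of_near_one {F : C2} (h : ‖F - 1‖ ≤ 1/2) (x : T) (t : Icc (0:ℝ) π) : 1/2 ≤ F x t := by
  have := (C2_abs_le (F - 1) x t).trans h
  simp only [C2.sub_apply, C2.one_apply, D.sub_apply, D.one_apply] at this
  linarith [(abs_le.1 this).1]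

lemma exists_inv_fam {F : I → C2} (h : ∀ i, ‖F i - 1‖ ≤ 1/2) :
    ∃ G : I → C2, (∀ i, F i * G i = 1) ∧ Bd G := by
  choose G hG using fun i => exists_inv2 (F := F i)
    (fun x t => by linarith [pos_of_near_one (h i) x t])
  refine ⟨G, hG, 2, fun i => C2_norm_le (by norm_num) (fun x t => ?_)⟩
  have h1 := pos_of_near_one (h i) x t
  have h2 : F i x t * G i x t = 1 := congrArg (fun y : C2 => y x t) (hG i)
  rw [eq_inv_of_mul_eq_one_right h2, abs_of_pos (by positivity), inv_le_comm₀ (by linarith) two_pos]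
  linarith

lemma Bd.pow2 {c : I → ℝ} (h : Bd c) : Bd (fun i => c i ^ 2) := by simpa [sq] using h.mul h

namespace Good
variable {P : (I → C2) → Prop} (h : Good P) {η ε : I → ℝ} {u u1 p p1 : I → C2} (d : ℝ)
include h

lemma Mx {a1 a2 a3 a4 a5 a6 a7 a8 a9 : I → C2} (h1 : P a1) (h2 : P a2) (h3 : P a3) (h4 : P a4)
    (h5 : P a5) (h6 : P a6) (h7 : P a7) (h8 : P a8) (h9 : P a9) :
    P (fun i => Mx (a1 i) (a2 i) (a3 i) (a4 i) (a5 i) (a6 i) (a7 i) (a8 i) (a9 i)) :=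
  h.add (h.add (h.sub (h.mul h1 h5) (h.mul h2 h6)) (h.mul h3 (h.add h7 (h.smul' _ h8))))
    (h.mul h4 (h.add h9 (h.smul' _ h8)))

lemma cA (bη : Bd η) (bε : Bd ε) (hp : P p) : P (fun i => cA d (η i) (ε i) (p i)) :=
  h.add (h.smul (((Bd.const d).mul bη).mul bε) h.one)
    (h.smul ((Bd.const d).mul ((Bd.const 1).add (bη.pow2.mul bε))) hp)
lemma cB (bη : Bd η) (hp : P p) : P (fun i => cB (η i) (p i)) :=
  h.add (h.add (h.smul' _ hp) (h.smul ((Bd.const 3).mul bη) (h.mul hp hp)))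
    (h.smul bη.pow2 (h.mul (h.mul hp hp) hp))
lemma cC (bη : Bd η) (hp : P p) (hp1 : P p1) : P (fun i => cC (η i) (p i) (p1 i)) :=
  h.mul (h.mul (h.add h.one (h.smul bη hp)) (h.add h.one (h.smul bη hp))) hp1
lemma cA' (bη : Bd η) (bε : Bd ε) (hu : P u) (hp : P p) :
    P (fun i => cA' d (η i) (ε i) (u i) (p i)) :=
  h.add (h.add (h.smul ((Bd.const d).mul bε) h.one) (h.smul' _ hu))
    (h.smul (((Bd.const d).mul bη).mul bε) hp)
lemma cX' (bη : Bd η) (bε : Bd ε) (hu : P u) (hp : P p) :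
    P (fun i => cX' d (η i) (ε i) (u i) (p i)) :=
  h.add (h.smul' _ hu) (h.smul (((Bd.const d).mul bη).mul bε) hp)
lemma cB' (bη : Bd η) (hu : P u) (hp : P p) : P (fun i => cB' (η i) (u i) (p i)) :=
  h.add (h.add (h.smul' _ hu) (h.smul' _ (h.mul hp hp))) (h.smul bη (h.mul (h.mul hp hp) hp))
lemma cC' (bη : Bd η) (hu : P u1) (hp : P p) (hp1 : P p1) :
    P (fun i => cC' (η i) (u1 i) (p i) (p1 i)) :=
  h.add hu (h.mul (h.add (h.smul' _ hp) (h.smul bη (h.mul hp hp))) hp1)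
end Good

namespace Des.Fam

variable {Ds : Des} {G : Green Ds.n} (F : Ds.Fam G I)

/-- second order variation of the kernel element -/
def w0 (i : I) : C2 := Ec 0 (G.g0 (F.f i))
/-- height derivative -/
def w1 (i : I) : C2 := Ec 0 (G.g1 (F.f i))
/-- second height derivative -/
def w2 (i : I) : C2 := Ec 0 (G.g2 (F.f i))
/-- angular derivative -/
def wx (i : I) : C2 := -Es 0 (G.gx (F.f i))
/-- second angular derivative -/
def wxx (i : I) : C2 := -Ec 0 (G.gxx (F.f i))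
/-- second order variation of `A` -/
def u0 (i : I) : C2 := Ds.u0 (F.q i) (F.τ i)
/-- height derivative -/
def u1 (i : I) : C2 := Ds.u1 (F.q i) (F.τ i)
/-- angular derivative -/
def ux (i : I) : C2 := Ds.ux (F.q i) (F.τ i)
/-- variation of `A` -/
def p0 (i : I) : C2 := Ds.p0 (F.η i) (F.q i) (F.τ i)
/-- height derivative -/
def p1 (i : I) : C2 := Ds.p1 (F.η i) (F.q i) (F.τ i)
/-- angular derivative -/
def px (i : I) : C2 := Ds.px (F.η i) (F.q i) (F.τ i)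
/-- the coefficient `A` -/
def A (i : I) : C2 := 1 + F.η i • F.p0 i
/-- the factor `c` -/
def c (i : I) : C2 := F.A i + b⁻¹ • (F.η i • F.p1 i)
/-- the quotient -/
def Z (i : I) : C2 := Ds.ZZ G (F.η i) (F.f i)
/-- the factor in the equation for the profile -/
def N (i : I) : C2 := 1 + (2 * F.η i) • ι (cm (2 * Ds.n) (F.Z i))

/-- smallness of the parameter -/
structure Small : Prop where
  pos : ∀ i, 0 < F.η i
  hA : ∀ i, ‖F.A i - 1‖ ≤ 1/2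
  hc : ∀ i, ‖F.c i - 1‖ ≤ 1/2
  hN : ∀ i, ‖F.N i - 1‖ ≤ 1/2
  hd : ∀ i, 0 < 1 + F.η i ^ 2 * F.ε i

section
variable {m : ℕ} (hq : SS m fun i => ι (F.q i))
include hq
lemma SS_u0 : SS m F.u0 :=
  (good_SS m).add ((good_SS m).smul F.bτ ((good_SS m).mul (SS_const (Ds.smooth _ m)) (SS_cx m _)))
    ((good_SS m).mul (SS.of_St (Tow.mono hq.st.V)) (SS_cx m _))
lemma SS_u1 : SS m F.u1 :=
  (good_SS m).add ((good_SS m).smul F.bτ ((good_SS m).mul (SS_const (Ds.Sd_α1 _ m)) (SS_cx m _)))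
    ((good_SS m).mul hq (SS_cx m _))
lemma SS_ux : SS m F.ux := (F.SS_u0 hq).dx (fun _ => Ds.dx_u0 _ _)
lemma SS_p0 : SS m F.p0 := (good_SS m).add (Ds.SS_a0 m) ((good_SS m).smul F.bη (F.SS_u0 hq))
lemma SS_p1 : SS m F.p1 := (good_SS m).add (Ds.SS_a1 m) ((good_SS m).smul F.bη (F.SS_u1 hq))
lemma SS_px : SS m F.px := (F.SS_p0 hq).dx (fun _ => Ds.dx_p0 _ _ _)
lemma SS_A : SS m F.A := (good_SS m).add (good_SS m).one ((good_SS m).smul F.bη (F.SS_p0 hq))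
end

lemma SS_q0 : SS 0 fun i => ι (F.q i) := SS.of_St (F.bq.map ιL)
lemma SS_w00 : SS 0 F.w0 := SS_Ec (F.bf.map G.g0) 0
lemma SS_w10 : SS 0 F.w1 := SS_Ec (F.bf.map G.g1) 0
lemma SS_Z {m : ℕ} (h : SS m F.w1) : SS m F.Z :=
  ((good_SS m).add (Ds.SS_f1 m) ((good_SS m).smul F.bη h)).Qd

lemma dx_w0 (i : I) : Dx (F.w0 i) (F.wx i) := G.dx0 _
lemma dx_wx (i : I) : Dx (F.wx i) (F.wxx i) := G.dx1 _
lemma dt_w0 (i : I) : Dt (F.w0 i) (F.w1 i) := G.dt0 _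
lemma dt_w1 (i : I) : Dt (F.w1 i) (F.w2 i) := G.dt1 _

lemma eq1' (i : I) : Ds.d0 • F.wxx i + F.w2 i + (5:ℝ) • F.w0 i
    + (Ds.MM (F.η i) (F.q i) (F.τ i) (F.ε i) (Ds.fxx + F.η i • F.wxx i) (Ds.fx + F.η i • F.wx i)
      (Ds.f2 + F.η i • F.w2 i) (Ds.f0 + F.η i • F.w0 i) (Ds.f1 + F.η i • F.w1 i)
      + Ds.M1 (F.η i) (F.q i) (F.τ i) (F.ε i)) = 0 := F.eq1 i

lemma eq2' (i : I) : F.q i = -((2:ℝ) • avg (Ds.a1 * F.Z i)) - (2 * F.η i) • avg (F.u1 i * F.Z i) :=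
  F.eq2 i

lemma eq2'' (i : I) : F.N i * ι (F.q i) = -((2:ℝ) • ι (avg (Ds.a1 * F.Z i)))
    - (2 * F.η i * F.τ i) • (ι (Ds.α1 (3 * Ds.n)) * ι (cm (3 * Ds.n) (F.Z i))) := by
  have e : avg (F.u1 i * F.Z i) = F.τ i • (Ds.α1 (3 * Ds.n) * cm (3 * Ds.n) (F.Z i))
      + F.q i * cm (2 * Ds.n) (F.Z i) := by
    simp only [u1, Des.u1, add_mul, smul_mul_assoc, map_add, map_smul, mul_assoc, avg_ι_mul,
      cm_apply]
  have h := congrArg ι (F.eq2' i)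
  rw [e] at h
  simp only [map_sub, map_neg, map_smul, map_add, map_mul] at h
  simp only [N, Algebra.smul_def, map_mul, map_ofNat] at h ⊢
  linear_combination h

variable {F}

lemma SS_w2_of (hs : F.Small) {m : ℕ} (hq : SS m fun i => ι (F.q i)) (h0 : SS m F.w0)
    (h1 : SS m F.w1) : SS m F.w2 := by
  have g := good_SS (I := I) m
  obtain ⟨Ai, hAi, bAi⟩ := exists_inv_fam hs.hA
  have sAi := g.inv (F.SS_A hq) hAi bAi
  have sx := h0.dx F.dx_w0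
  have sxx := sx.dx F.dx_wx
  have sp := F.SS_p0 hq
  have sM := g.Mx (g.cA Ds.d0 F.bη F.bε sp)
    (g.smul ((Bd.const Ds.d0).mul ((Bd.const 1).add (F.bη.pow2.mul F.bε))) (F.SS_px hq))
    (g.cB F.bη sp) (g.cC F.bη sp (F.SS_p1 hq)) (g.add (Ds.SS_fxx m) (g.smul F.bη sxx))
    (g.add (Ds.SS_fx m) (g.smul F.bη sx)) (Ds.SS_f2 m) (g.add (Ds.SS_f0 m) (g.smul F.bη h0))
    (g.add (Ds.SS_f1 m) (g.smul F.bη h1))
  have sM1 := g.Mx (g.cA' Ds.d0 F.bη F.bε (F.SS_u0 hq) sp)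
    (g.cX' Ds.d0 F.bη F.bε (F.SS_ux hq) (F.SS_px hq)) (g.cB' F.bη (F.SS_u0 hq) sp)
    (g.cC' F.bη (F.SS_u1 hq) sp (F.SS_p1 hq)) (Ds.SS_exx m) (Ds.SS_ex m) (g.neg (Ds.SS_e0 m))
    (Ds.SS_e0 m) (Ds.SS_e1 m)
  have := g.mul (g.mul (g.mul sAi sAi) sAi)
    (g.neg (g.add (g.add (g.add (g.smul' Ds.d0 sxx) (g.smul' 5 h0)) sM) sM1))
  convert this using 1
  funext i
  have e := F.eq1' i
  have a := hAi i
  change _ = _ * -(_ + Ds.M1 (F.η i) (F.q i) (F.τ i) (F.ε i))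
  generalize Ds.M1 (F.η i) (F.q i) (F.τ i) (F.ε i) = M at e ⊢
  simp only [MM, MP_0d657e_an.Mx, cB, A, p0, p1, px] at e a ⊢
  generalize cA Ds.d0 (F.η i) (F.ε i) (Ds.p0 (F.η i) (F.q i) (F.τ i)) = k1 at e ⊢
  generalize cC (F.η i) (Ds.p0 (F.η i) (F.q i) (F.τ i)) (Ds.p1 (F.η i) (F.q i) (F.τ i)) = k2 at e ⊢
  generalize Ds.p0 (F.η i) (F.q i) (F.τ i) = p at e a ⊢
  simp only [Algebra.smul_def, map_mul, map_pow, map_ofNat] at e a ⊢
  generalize algebraMap ℝ C2 (F.η i) = h at e a ⊢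
  linear_combination (Ai i * Ai i * Ai i) * e
    - (F.w2 i * (((1 + h * p) * Ai i) ^ 2 + (1 + h * p) * Ai i + 1)) * a

theorem boot (hs : F.Small) : ∀ m : ℕ, (SS m fun i => ι (F.q i)) ∧ SS m F.w0 ∧ SS m F.w1
  | 0 => ⟨F.SS_q0, F.SS_w00, F.SS_w10⟩
  | m + 1 => by
    obtain ⟨hq, h0, h1⟩ := boot hs m
    have g := good_SS (I := I) (m + 1)
    have k1 := F.SS_w10.up F.dt_w1 (SS_w2_of hs hq h0 h1)
    refine ⟨?_, F.SS_w00.up F.dt_w0 h1, k1⟩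
    have sZ := F.SS_Z k1
    obtain ⟨Ni, hNi, bNi⟩ := exists_inv_fam hs.hN
    have sN : SS (m + 1) F.N := g.add g.one (g.smul ((Bd.const 2).mul F.bη) (sZ.cm _))
    have := g.mul (g.inv sN hNi bNi) (g.sub (g.neg (g.smul' 2 (g.mul (Ds.SS_a1 _) sZ).avg))
      (g.smul (((Bd.const 2).mul F.bη).mul F.bτ)
        (g.mul (SS_const (Ds.Sd_α1 (3 * Ds.n) _)) (sZ.cm (3 * Ds.n)))))
    convert this using 1
    funext i
    rw [← F.eq2'' i]
    linear_combination (-ι (F.q i)) * hNi i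

lemma Small.q (hs : F.Small) (m : ℕ) : SS m fun i => ι (F.q i) := (boot hs m).1
lemma Small.w0 (hs : F.Small) (m : ℕ) : SS m F.w0 := (boot hs m).2.1
lemma Small.w1 (hs : F.Small) (m : ℕ) : SS m F.w1 := (boot hs m).2.2
lemma Small.w2 (hs : F.Small) (m : ℕ) : SS m F.w2 := SS_w2_of hs (hs.q m) (hs.w0 m) (hs.w1 m)

end Des.Fam

lemma exists_small {η0 : ℝ} (h0 : 0 < η0) {X : Type*} [SeminormedAddCommGroup X] [NormedSpace ℝ X]
    {F : I → X} (h : Bd F) : ∃ η1 > 0, η1 ≤ η0 ∧ ∀ i (η : ℝ), 0 < η → η < η1 → ‖η • F i‖ ≤ 1/2 := by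
  obtain ⟨C, hC, h⟩ := h.nn
  refine ⟨min η0 (1 / (2 * (C + 1))), by positivity, min_le_left _ _, fun i η a c => ?_⟩
  have c' := c.trans_le (min_le_right _ _)
  rw [lt_div_iff₀ (by positivity)] at c'
  rw [norm_smul, Real.norm_eq_abs, abs_of_pos a]
  nlinarith [mul_le_mul_of_nonneg_left (h i) a.le]

theorem Des.exists_Small (Ds : Des) (G : Green Ds.n) :
    ∃ η0 > 0, ∃ F : Ds.Fam G (Ioo (0:ℝ) η0), (∀ i, F.η i = i) ∧ F.Small := by
  obtain ⟨η0, h0, F, hF⟩ := Ds.exists_Fam G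
  have g := good_SS (I := Ioo (0:ℝ) η0) 0
  have bp := g.bd (F.SS_p0 F.SS_q0)
  have bp1 := g.bd (F.SS_p1 F.SS_q0)
  obtain ⟨η1, p1, l1, s1⟩ := exists_small h0 bp
  obtain ⟨η2, p2, l2, s2⟩ := exists_small p1 (bp.add ((Bd.const b⁻¹).smul bp1))
  obtain ⟨η3, p3, l3, s3⟩ := exists_small p2
    ((Bd.const (2:ℝ)).smul (g.bd ((F.SS_Z F.SS_w10).cm (2 * Ds.n))))
  obtain ⟨η4, p4, l4, s4⟩ := exists_small p3 (F.bη.mul F.bε)
  let r : Ioo (0:ℝ) η4 → Ioo (0:ℝ) η0 := fun i => ⟨i, i.2.1, by linarith [i.2.2]⟩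
  have res : ∀ {X : Type} [Norm X] {y : Ioo (0:ℝ) η0 → X}, Bd y → Bd (fun i => y (r i)) :=
    fun ⟨C, h⟩ => ⟨C, fun i => h (r i)⟩
  have hη : ∀ i, F.η (r i) = i := fun i => hF (r i)
  refine ⟨η4, p4, ⟨fun i => F.η (r i), fun i => F.f (r i), fun i => F.q (r i), fun i => F.τ (r i),
    fun i => F.ε (r i), res F.bη, res F.bf, res F.bq, res F.bτ, res F.bε, fun i => F.eq1 (r i),
    fun i => F.eq2 (r i)⟩, hη, ⟨fun i => (hη i).symm ▸ i.2.1, fun i => ?_, fun i => ?_,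
      fun i => ?_, fun i => ?_⟩⟩
  · change ‖F.A (r i) - 1‖ ≤ _
    rw [Fam.A, add_sub_cancel_left, hη]
    exact s1 _ _ i.2.1 (by linarith [i.2.2])
  · change ‖F.c (r i) - 1‖ ≤ _
    have := s2 (r i) i i.2.1 (by linarith [i.2.2])
    rwa [Fam.c, Fam.A, add_assoc, add_sub_cancel_left, smul_comm, ← smul_add, hη]
  · change ‖F.N (r i) - 1‖ ≤ _
    have := s3 (r i) i i.2.1 (by linarith [i.2.2])
    rwa [Fam.N, add_sub_cancel_left, mul_comm, ← smul_smul, hη]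
  · change 0 < 1 + F.η (r i) ^ 2 * F.ε (r i)
    have := s4 (r i) i i.2.1 i.2.2
    rw [smul_eq_mul, Real.norm_eq_abs, ← hη] at this
    nlinarith [(abs_le.1 this).1]

end

end Pool.Agent.P.MP_0d657e_an
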