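import Pool.Agent.P.MP_0d657e_an.FamB

/-! Solution of the nonlinear system for small values of the parameter. -/

open Set Real Filter Topology

namespace Pool.Agent.P.MP_0d657e_an

noncomputable section

theorem exists_fixed {E : Type*} [NormedAddCommGroup E] [NormedSpace ℝ E] [CompleteSpace E]
    (Ψ : ℝ × E → E) (h : ContDiff ℝ 1 Ψ) (h0 : ∀ U, Ψ (0, U) = Ψ (0, 0)) :
    ∃ η0 > 0, ∃ C, ∀ η, |η| < η0 → ∃ U, Ψ (η, U) = U ∧ ‖U‖ ≤ C := by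
  set U0 := Ψ (0, 0) with hU0
  have hs := (h.contDiffAt (x := (0, U0))).hasStrictFDerivAt one_ne_zero
  set D := fderiv ℝ Ψ (0, U0)
  have hD : ∀ V, D (0, V) = 0 := by
    have h1 : HasFDerivAt (fun U => Ψ (0, U)) (D.comp (ContinuousLinearMap.inr ℝ ℝ E)) U0 :=
      hs.hasFDerivAt.comp U0 (ContinuousLinearMap.inr ℝ ℝ E).hasFDerivAt
    rw [show (fun U => Ψ (0, U)) = fun _ => U0 from funext h0] at h1
    intro V
    exact congrArg (fun L : E →L[ℝ] E => L V) (h1.unique (hasFDerivAt_const U0 U0))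
  have hF := (hasStrictFDerivAt_fst (𝕜 := ℝ) (p := ((0:ℝ), U0))).prodMk
    ((hasStrictFDerivAt_snd (𝕜 := ℝ) (p := ((0:ℝ), U0))).sub hs)
  have hm := hF.map_nhds_eq_of_surj (LinearMap.range_eq_top.2 (fun y =>
    ⟨(y.1, y.2 + D (y.1, 0)), by
      have : D (y.1, y.2 + D (y.1, 0)) = D (y.1, 0) := by
        rw [show ((y.1, y.2 + D (y.1, 0)) : ℝ × E) = (y.1, 0) + (0, y.2 + D (y.1, 0)) by simp,
          map_add, hD, add_zero]
      ext <;> simp [this]⟩))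
  have hS : {x : ℝ × E | ‖x.2 - U0‖ < 1} ∈ 𝓝 ((0:ℝ), U0) :=
    (isOpen_lt (by fun_prop) continuous_const).mem_nhds (by simp)
  have h2 := image_mem_map (m := fun x : ℝ × E => (x.1, ((Prod.snd : ℝ × E → E) - Ψ) x)) hS
  rw [hm] at h2
  simp only [Pi.sub_apply, h0, sub_self] at h2
  obtain ⟨r, hr, hb⟩ := Metric.mem_nhds_iff.1 h2
  refine ⟨r, hr, ‖U0‖ + 1, fun η hη => ?_⟩
  obtain ⟨x, hx, e⟩ := hb (a := (η, 0)) (by simpa [Prod.dist_eq, hr] using hη)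
  simp only [Prod.mk.injEq] at e
  refine ⟨x.2, ?_, ?_⟩
  · rw [← e.1]; exact (sub_eq_zero.1 e.2).symm
  · have := norm_add_le U0 (x.2 - U0)
    rw [add_sub_cancel] at this
    exact this.trans (by linarith [(show ‖x.2 - U0‖ < 1 from hx)])

namespace Des

variable (Ds : Des)

lemma cm_pair (k : ℤ) (τ : ℝ) (y z : D0) (h2 : k ≠ 2 * Ds.n) (h2' : k ≠ -(2 * Ds.n))
    (h3 : k ≠ -(3 * Ds.n)) : cm k (τ • (ι y * cx (3 * Ds.n)) + ι z * cx (2 * Ds.n))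
      = if k = 3 * Ds.n then (τ / 2) • y else 0 := by
  rw [map_add, map_smul, cm_ι_cx, cm_ι_cx, if_neg (show ¬ (3 * Ds.n : ℤ) = -k by omega),
    if_neg (show ¬ (2 * Ds.n : ℤ) = -k by omega), if_neg h2.symm]
  by_cases h : k = 3 * Ds.n
  · rw [if_pos h, if_pos h.symm]; module
  · rw [if_neg h, if_neg (Ne.symm h)]; simp

lemma cm_M0u_n (q : D0) (τ : ℝ) : cm Ds.n (Ds.M0 (Ds.u0 q τ) (Ds.ux q τ) (Ds.u1 q τ))
    = (τ / 2) • Rr (-1) (Ds.α (3 * Ds.n)) (Ds.α1 (3 * Ds.n)) := by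
  have := Ds.n_pos
  rw [cm_M0 _ (Ds.dx_u0 q τ), u0, u1]
  rw [cm_pair _ _ _ _ _ (by omega) (by omega) (by omega),
    cm_pair _ _ _ _ _ (by omega) (by omega) (by omega),
    cm_pair _ _ _ _ _ (by omega) (by omega) (by omega),
    cm_pair _ _ _ _ _ (by omega) (by omega) (by omega),
    if_neg (by omega), if_neg (by omega), if_pos (by omega), if_pos (by omega), Rr_smul]
  simp [Ds.n_ne]

lemma cm_M0u_2n (q : D0) (τ : ℝ) :
    cm (2 * Ds.n) (Ds.M0 (Ds.u0 q τ) (Ds.ux q τ) (Ds.u1 q τ)) = 0 := by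
  have := Ds.n_pos
  rw [cm_M0 _ (Ds.dx_u0 q τ), u0, u1]
  rw [cm_pair _ _ _ _ _ (by omega) (by omega) (by omega),
    cm_pair _ _ _ _ _ (by omega) (by omega) (by omega),
    cm_pair _ _ _ _ _ (by omega) (by omega) (by omega),
    cm_pair _ _ _ _ _ (by omega) (by omega) (by omega),
    if_neg (by omega), if_neg (by omega), if_neg (by omega), if_neg (by omega)]
  simp

lemma cm_e0 (k : ℤ) (h : k ≠ -(2 * Ds.n)) :
    cm k Ds.e0 = if k = 2 * Ds.n then (1/2 : ℝ) • s1 else 0 := by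
  rw [e0, cm_ι_cx, if_neg (show ¬ (2 * Ds.n : ℤ) = -k by omega), zero_add]
  by_cases h : k = 2 * Ds.n
  · rw [if_pos h, if_pos h.symm]
  · rw [if_neg h, if_neg (Ne.symm h)]; simp

lemma d0_exx : Ds.d0 • Ds.exx = -((4:ℝ) • Ds.e0) := by
  have := Ds.n_ne
  rw [exx, smul_neg, smul_smul]
  congr 2
  unfold d0; field_simp; norm_num

lemma M3_ne : J (s2 * Rr (-1) (Ds.α (3 * Ds.n)) (Ds.α1 (3 * Ds.n))) ≠ 0 := by
  intro h
  apply Ds.Mo
  have o := Ds.ode Ds.n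
  rw [show (2 * Ds.n - Ds.n : ℤ) = Ds.n by ring, show (2 * Ds.n + Ds.n : ℤ) = 3 * Ds.n by ring,
    Int.cast_natCast, div_self Ds.n_ne] at o
  have w := ((D1_s2.mul (Ds.hφ1 Ds.n)).sub ((D1_c2.smul 2).mul (Ds.hφ Ds.n))).J_zero
    (by simp [Ds.φ_lo]) (by simp [Ds.φ_hi, sin_two_pi])
  have e : (2:ℝ) • c2 * Ds.φ1 Ds.n + s2 * Ds.φ2 Ds.n -
      ((2:ℝ) • -((2:ℝ) • s2) * Ds.φ Ds.n + (2:ℝ) • c2 * Ds.φ1 Ds.n)
      = s2 * (Ds.φ2 Ds.n + (5 - 1 ^ 2 : ℝ) • Ds.φ Ds.n) := by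
    norm_num only
    simp only [Algebra.smul_def, map_ofNat]; ring
  rw [e, o, mul_neg, map_neg, neg_eq_zero, mul_add, map_add, h, add_zero] at w
  rw [mul_sub, map_sub, h, w, sub_zero]

lemma res_zero (G : Green Ds.n) : ∃ r : C2, ∀ U : EU, Ds.res' G 0 U =
    r + U.2.2.2 • (Ds.d0 • Ds.exx)
      + Ds.M0 (Ds.u0 U.2.1 U.2.2.1) (Ds.ux U.2.1 U.2.2.1) (Ds.u1 U.2.1 U.2.2.1) := by
  refine ⟨Mx (Ds.d0 • Ds.a0) (Ds.d0 • Ds.a0x) ((3:ℝ) • Ds.a0) Ds.a1 Ds.fxx Ds.fx Ds.f2 Ds.f0 Ds.f1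
    + Mx 0 0 ((3:ℝ) • (Ds.a0 * Ds.a0)) ((2:ℝ) • Ds.a0 * Ds.a1) Ds.exx Ds.ex' (-Ds.e0) Ds.e0 Ds.e1,
    fun U => ?_⟩
  simp only [res', MM, M1, M0, Mx, cA, cB, cC, cA', cX', cB', cC', p0, p1, px, Algebra.smul_def,
    map_mul, map_add, map_pow, map_zero, map_one, map_ofNat]
  ring

/-- the quotient of the variation of the kernel element by `sin t` -/
def ZZ (G : Green Ds.n) (η : ℝ) (f : W) : C2 := lift2 Qd (Ds.f1 + η • Ec 0 (G.g1 f))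

/-- the update of the second order profile -/
def qn (G : Green Ds.n) (η : ℝ) (U : EU) : D0 :=
  -((2:ℝ) • avg (Ds.a1 * Ds.ZZ G η U.1)) - (2 * η) • avg (Ds.u1 U.2.1 U.2.2.1 * Ds.ZZ G η U.1)

/-- a bounded family of solutions -/
structure Fam (G : Green Ds.n) (I : Type) where
  η : I → ℝ
  f : I → W
  q : I → D0
  τ : I → ℝ
  ε : I → ℝ
  bη : Bd η
  bf : Bd f
  bq : Bd q
  bτ : Bd τ
  bε : Bd ε
  eq1 : ∀ i, Ds.d0 • -Ec 0 (G.gxx (f i)) + Ec 0 (G.g2 (f i)) + (5:ℝ) • Ec 0 (G.g0 (f i))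
    + Ds.res' G (η i) (f i, q i, τ i, ε i) = 0
  eq2 : ∀ i, q i = Ds.qn G (η i) (f i, q i, τ i, ε i)

theorem exists_Fam (G : Green Ds.n) :
    ∃ η0 > 0, ∃ F : Ds.Fam G (Ioo (0:ℝ) η0), ∀ i, F.η i = i := by
  obtain ⟨R, hR, hE, hz⟩ := Ds.exists_R G
  obtain ⟨r, hr⟩ := Ds.res_zero G
  have hn := Ds.n_pos
  set c3 := J (s2 * Rr (-1) (Ds.α (3 * Ds.n)) (Ds.α1 (3 * Ds.n))) with hc3
  have c3ne : c3 ≠ 0 := Ds.M3_ne
  let Q : ℝ × EU → D0 := fun x => Ds.qn G x.1 x.2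
  let Tn : ℝ × EU → ℝ := fun x => x.2.2.2.1 - 2 / c3 * J (s2 * cm Ds.n (Ec 0 (R x)))
  let En : ℝ × EU → ℝ := fun x => x.2.2.2.2 + π⁻¹ * J (s1 * cm (2 * Ds.n) (Ec 0 (R x)))
  have cQ : ContDiff ℝ 1 Q := by
    have e : Q = fun x => -((2:ℝ) • avg (Ds.a1 * lift2 Qd (Ds.f1 + x.1 • Ec 0 (G.g1 x.2.1))))
      - (2 * x.1) • avg ((x.2.2.2.1 • (ι (Ds.α1 (3 * Ds.n)) * cx (3 * Ds.n))
        + ιL x.2.2.1 * cx (2 * Ds.n)) * lift2 Qd (Ds.f1 + x.1 • Ec 0 (G.g1 x.2.1))) := rfl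
    rw [e]; fun_prop
  have cT : ContDiff ℝ 1 Tn := by fun_prop
  have cE : ContDiff ℝ 1 En := by fun_prop
  have zQ : ∀ U, Q (0, U) = Q (0, 0) := fun U => by simp [Q, qn, ZZ]
  have zT : ∀ U, Tn (0, U) = -(2 / c3 * J (s2 * cm Ds.n r)) := fun U => by
    simp only [Tn, hE, hr, d0_exx, map_add, map_smul, map_neg, cm_M0u_n,
      Ds.cm_e0 Ds.n (by omega), if_neg (show ¬ (Ds.n : ℤ) = 2 * Ds.n by omega), smul_zero, neg_zero,
      add_zero, mul_add, mul_smul_comm, ← hc3, smul_eq_mul]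
    field_simp
    ring
  have zE : ∀ U, En (0, U) = π⁻¹ * J (s1 * cm (2 * Ds.n) r) := fun U => by
    simp only [En, hE, hr, d0_exx, map_add, map_smul, map_neg, cm_M0u_2n,
      Ds.cm_e0 (2 * Ds.n) (by omega), if_true, add_zero, mul_add, mul_smul_comm, mul_neg,
      smul_eq_mul, J_s1_s1]
    field_simp
    ring
  obtain ⟨η0, h0, C, hC⟩ := exists_fixed
    (fun x : ℝ × EU => ((-R (x.1, x.2.1, Q x, Tn x, En x), Q x, Tn x, En x) : EU))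
    (by fun_prop) (fun U => by simp only [zQ U, zT, zE, hz U.1 0]; rfl)
  have key : ∀ i : Ioo (0:ℝ) η0, ∃ U : EU, _ := fun i => hC i (by rw [abs_of_pos i.2.1]; exact i.2.2)
  choose U hU hb using key
  have bU : Bd U := ⟨C, hb⟩
  refine ⟨η0, h0, ⟨fun i => i, fun i => (U i).1, fun i => (U i).2.1, fun i => (U i).2.2.1,
    fun i => (U i).2.2.2, ⟨η0, fun i => by rw [Real.norm_eq_abs, abs_of_pos i.2.1]; exact i.2.2.le⟩,
    ⟨C, fun i => (norm_fst_le _).trans (hb i)⟩,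
    ⟨C, fun i => (norm_fst_le _).trans ((norm_snd_le _).trans (hb i))⟩,
    ⟨C, fun i => (norm_fst_le _).trans ((norm_snd_le _).trans ((norm_snd_le _).trans (hb i)))⟩,
    ⟨C, fun i => (norm_snd_le _).trans ((norm_snd_le _).trans ((norm_snd_le _).trans (hb i)))⟩,
    fun i => ?_, fun i => (congrArg (fun y : EU => y.2.1) (hU i)).symm⟩, fun _ => rfl⟩
  have e2 : (Q (i, U i), Tn (i, U i), En (i, U i)) = (U i).2 := congrArg Prod.snd (hU i)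
  have e1 : -R (i, (U i).1, Q (i, U i), Tn (i, U i), En (i, U i)) = (U i).1 :=
    congrArg Prod.fst (hU i)
  rw [e2] at e1
  have eT : Tn (i, U i) = (U i).2.2.1 := congrArg (fun y => y.2.1) e2
  have eE : En (i, U i) = (U i).2.2.2 := congrArg (fun y => y.2.2) e2
  have e3 : Ec 0 (U i).1 = -Ec 0 (R (i, U i)) := by rw [← map_neg]; exact congrArg _ e1.symm
  have a1 : J (s2 * cm Ds.n (Ec 0 (R (i, U i)))) = 0 :=
    (mul_eq_zero.1 (sub_eq_self.1 eT)).resolve_left (div_ne_zero two_ne_zero c3ne)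
  have a2 : J (s1 * cm (2 * Ds.n) (Ec 0 (R (i, U i)))) = 0 :=
    (mul_eq_zero.1 (add_eq_left.1 eE)).resolve_left (inv_ne_zero pi_pos.ne')
  have s := G.solves hn (f := (U i).1) (by rw [e3, map_neg, mul_neg, map_neg, a1, neg_zero])
    (by rw [e3, map_neg, mul_neg, map_neg, a2, neg_zero])
  rw [d0, s, e3, hE]
  exact neg_add_cancel _

end Des

end

end Pool.Agent.P.MP_0d657e_an
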