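import Pool.Agent.P.MP_0d657e_an.Had

/-! Dirichlet Green operators for `y'' + λ y` on `[0, π]`. -/

open Set Real

namespace Pool.Agent.P.MP_0d657e_an

noncomputable section

/-- a fundamental system -/
structure Fund (l : ℝ) where
  u : D0
  u1 : D0
  w : D0
  w1 : D0
  hu : D1 u u1
  hu1 : D1 u1 (-(l • u))
  hw : D1 w w1
  hw1 : D1 w1 (-(l • w))
  u_lo : u lo = 0
  wr : u1 * w - u * w1 = 1

lemma D1_tt : D1 tt 1 :=
  (D1_res (f := id) (f' := fun _ => 1) continuous_id continuous_const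
    (fun t => hasDerivAt_id t)).congr' (by ext t; simp)

/-- trigonometric fundamental system -/
def fundP (m : ℝ) (hm : m ≠ 0) : Fund (m ^ 2) where
  u := m⁻¹ • sn m
  u1 := cs m
  w := cs m
  w1 := -(m • sn m)
  hu := ((D1_sn m).smul m⁻¹).congr' (by rw [smul_smul, inv_mul_cancel₀ hm, one_smul])
  hu1 := (D1_cs m).congr' (by rw [smul_smul]; congr 2; field_simp)
  hw := D1_cs m
  hw1 := ((D1_sn m).smul m).neg.congr' (by rw [smul_smul, sq])
  u_lo := by simp
  wr := by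
    ext t
    simp only [D.sub_apply, D.mul_apply, cs_apply, D.smul_apply, sn_apply, D.neg_apply,
      D.one_apply]
    field_simp
    linarith [sin_sq_add_cos_sq (m * t)]

/-- exponential fundamental system -/
def fundN (m : ℝ) (hm : m ≠ 0) : Fund (-m ^ 2) where
  u := (2 * m)⁻¹ • (ex m - ex (-m))
  u1 := (1/2 : ℝ) • (ex m + ex (-m))
  w := ex (-m)
  w1 := (-m) • ex (-m)
  hu := (((D1_ex m).sub (D1_ex (-m))).smul _).congr' (by
    ext t; simp only [D.smul_apply, D.add_apply, D.sub_apply]; field_simp; ring)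
  hu1 := (((D1_ex m).add (D1_ex (-m))).smul _).congr' (by
    ext t; simp only [D.smul_apply, D.add_apply, D.sub_apply, D.neg_apply]; field_simp; ring)
  hw := D1_ex (-m)
  hw1 := ((D1_ex (-m)).smul (-m)).congr' (by
    ext t; simp only [D.smul_apply, D.neg_apply]; ring)
  u_lo := by simp
  wr := by
    have h := ex_mul m (-m)
    rw [add_neg_cancel, ex_zero] at h
    ext t
    have h' := congrArg (fun y : D0 => y t) h
    simp only [D.smul_apply, D.add_apply, D.sub_apply, D.mul_apply, D.one_apply] at h' ⊢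
    field_simp
    linarith

/-- polynomial fundamental system -/
def fund0 : Fund 0 where
  u := tt
  u1 := 1
  w := 1
  w1 := 0
  hu := D1_tt
  hu1 := D1_one.congr' (by simp)
  hw := D1_one
  hw1 := D1_zero.congr' (by simp)
  u_lo := by simp
  wr := by simp

lemma exists_fund {l : ℝ} (h : ∀ j : ℤ, j ≠ 0 → l ≠ (j:ℝ) ^ 2) : ∃ F : Fund l, F.u hi ≠ 0 := by
  rcases lt_trichotomy l 0 with hl | hl | hl
  · have hm : 0 < √(-l) := Real.sqrt_pos.2 (by linarith)
    have e : l = -(√(-l)) ^ 2 := by rw [Real.sq_sqrt (by linarith)]; ring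
    rw [e]
    refine ⟨fundN _ hm.ne', ?_⟩
    have : exp (-√(-l) * π) < exp (√(-l) * π) := by
      apply exp_lt_exp.2; nlinarith [pi_pos]
    simp only [fundN, D.smul_apply, D.sub_apply, ex_apply, hi_coe]
    exact mul_ne_zero (by positivity) (by linarith)
  · rw [hl]; exact ⟨fund0, by simp [fund0, pi_pos.ne']⟩
  · have hm : 0 < √l := Real.sqrt_pos.2 hl
    have e : l = (√l) ^ 2 := by rw [Real.sq_sqrt hl.le]
    have hs : sin (√l * π) ≠ 0 := by
      intro h0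
      obtain ⟨j, hj⟩ := sin_eq_zero_iff.1 h0
      have hj' : (j:ℝ) = √l := mul_right_cancel₀ pi_pos.ne' hj
      refine h j (fun h1 => ?_) (by rw [hj', ← e])
      rw [h1] at hj'
      simp only [Int.cast_zero] at hj'
      linarith
    rw [e]
    refine ⟨fundP _ hm.ne', ?_⟩
    simp only [fundP, D.smul_apply, sn_apply, hi_coe]
    exact mul_ne_zero (by positivity) hs

namespace Fund

variable {l : ℝ} (F : Fund l)

lemma unique (hF : F.u hi ≠ 0) {y y1 : D0} (h : D1 y y1) (h1 : D1 y1 (-(l • y)))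
    (h0 : y lo = 0) (hπ : y hi = 0) : y = 0 := by
  have a := (((h1.mul F.hu).sub (h.mul F.hu1)).congr' (z' := 0) (by
    simp only [Algebra.smul_def]; ring)).eq_const
  have c := (((h1.mul F.hw).sub (h.mul F.hw1)).congr' (z' := 0) (by
    simp only [Algebra.smul_def]; ring)).eq_const
  simp only [D.sub_apply, D.mul_apply, F.u_lo, h0, mul_zero, zero_mul, sub_zero, map_zero] at a
  generalize (y1 * F.w - y * F.w1) lo = r at c
  have e : y = F.u * algebraMap ℝ D0 r := by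
    linear_combination (-y) * F.wr - F.w * a + F.u * c
  have e' := congrArg (fun z : D0 => z hi) e
  simp only [hπ, D.mul_apply, D.algebraMap_apply] at e'
  have : r = 0 := (mul_eq_zero.1 e'.symm).resolve_left hF
  rw [e, this, map_zero, mul_zero]

/-- the solution of the initial value problem -/
def Y0 : D0 →L[ℝ] D0 :=
  (ContinuousLinearMap.mul ℝ D0 F.u).comp (V.comp (ContinuousLinearMap.mul ℝ D0 F.w))
    - (ContinuousLinearMap.mul ℝ D0 F.w).comp (V.comp (ContinuousLinearMap.mul ℝ D0 F.u))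
/-- its derivative -/
def Y1 : D0 →L[ℝ] D0 :=
  (ContinuousLinearMap.mul ℝ D0 F.u1).comp (V.comp (ContinuousLinearMap.mul ℝ D0 F.w))
    - (ContinuousLinearMap.mul ℝ D0 F.w1).comp (V.comp (ContinuousLinearMap.mul ℝ D0 F.u))

lemma Y0_apply (f : D0) : F.Y0 f = F.u * V (F.w * f) - F.w * V (F.u * f) := rfl
lemma Y1_apply (f : D0) : F.Y1 f = F.u1 * V (F.w * f) - F.w1 * V (F.u * f) := rfl

lemma d0 (f : D0) : D1 (F.Y0 f) (F.Y1 f) :=
  ((F.hu.mul (D1_V (F.w * f))).sub (F.hw.mul (D1_V (F.u * f)))).congr (F.Y0_apply f)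
    (by rw [Y1_apply]; ring)

lemma d1 (f : D0) : D1 (F.Y1 f) (f - l • F.Y0 f) :=
  ((F.hu1.mul (D1_V (F.w * f))).sub (F.hw1.mul (D1_V (F.u * f)))).congr (F.Y1_apply f) (by
    rw [Y0_apply]; simp only [Algebra.smul_def]; linear_combination (-f) * F.wr)

lemma Y0_lo (f : D0) : F.Y0 f lo = 0 := by simp [Y0_apply]
lemma Y0_hi (f : D0) : F.Y0 f hi = F.u hi * J (F.w * f) - F.w hi * J (F.u * f) := by
  simp [Y0_apply]

end Fund

/-- a Green operator modulo a projection -/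
structure Gr (l : ℝ) (P : D0 →L[ℝ] D0) where
  G0 : D0 →L[ℝ] D0
  G1 : D0 →L[ℝ] D0
  d0 : ∀ f, D1 (G0 f) (G1 f)
  d1 : ∀ f, D1 (G1 f) (f - P f - l • G0 f)
  lo : ∀ f, G0 f lo = 0
  hi : ∀ f, G0 f hi = 0

lemma exists_Gr {l : ℝ} (h : ∀ j : ℤ, j ≠ 0 → l ≠ (j:ℝ) ^ 2) : Nonempty (Gr l 0) := by
  obtain ⟨F, hF⟩ := exists_fund h
  let L : D0 →L[ℝ] ℝ := (F.u hi)⁻¹ • (D.ev hi).comp F.Y0
  have hL : ∀ f, L f = (F.u hi)⁻¹ * F.Y0 f hi := fun f => rfl
  refine ⟨⟨F.Y0 - L.smulRight F.u, F.Y1 - L.smulRight F.u1, fun f => (F.d0 f).sub (F.hu.smul _),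
    fun f => ((F.d1 f).sub (F.hu1.smul (L f))).congr' ?_, fun f => ?_, fun f => ?_⟩⟩
  · simp only [zero_apply, sub_apply,
      ContinuousLinearMap.smulRight_apply, Algebra.smul_def]
    ring
  · simp [F.Y0_lo, F.u_lo]
  · simp only [sub_apply, ContinuousLinearMap.smulRight_apply, D.sub_apply,
      D.smul_apply, hL]
    field_simp
    ring

/-- projection on a sine mode -/
def Pj (j : ℕ) : D0 →L[ℝ] D0 :=
  ((2 / π) • J.comp (ContinuousLinearMap.mul ℝ D0 (sn j))).smulRight (sn j)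

lemma Pj_apply (j : ℕ) (f : D0) : Pj j f = (2 / π * J (sn j * f)) • sn j := rfl

lemma exists_Gr_res (j : ℕ) (hj : 0 < j) : Nonempty (Gr ((j:ℝ) ^ 2) (Pj j)) := by
  have hj' : (j:ℝ) ≠ 0 := by positivity
  obtain ⟨F, hF⟩ : ∃ F : Fund ((j:ℝ) ^ 2), F.u = (j:ℝ)⁻¹ • sn j := ⟨fundP j hj', rfl⟩
  obtain ⟨L, hL⟩ : ∃ L : D0 →L[ℝ] D0, ∀ f, L f = f - Pj j f := ⟨1 - Pj j, fun _ => rfl⟩
  refine ⟨⟨F.Y0.comp L, F.Y1.comp L, fun f => F.d0 (L f), fun f => ?_,
    fun f => F.Y0_lo (L f), fun f => ?_⟩⟩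
  · rw [← hL]; exact F.d1 (L f)
  have h1 : F.u hi = 0 := by
    have := sn_nat_hi (j:ℤ)
    simp only [Int.cast_natCast] at this
    rw [hF, D.smul_apply, this, mul_zero]
  have h2 : J (F.u * L f) = 0 := by
    have := J_sn_sn j j hj
    simp only [if_true] at this
    simp only [hF, hL, Pj_apply, smul_mul_assoc, mul_sub, mul_smul_comm, map_smul, map_sub,
      this, smul_eq_mul]
    field_simp
    ring
  rw [ContinuousLinearMap.comp_apply, F.Y0_hi, h1, h2]; ring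

/-- maximum principle -/
lemma max_principle {m : ℝ} (hm : 0 < m) {y y1 y2 : D0} (h : D1 y y1) (h1 : D1 y1 y2)
    (h0 : y lo = 0) (hπ : y hi = 0) (t : Icc (0:ℝ) π) : m * y t ≤ ‖y2 - m • y‖ := by
  obtain ⟨s, -, hs⟩ := isCompact_univ.exists_isMaxOn ⟨t, mem_univ t⟩ y.continuous.continuousOn
  refine (mul_le_mul_of_nonneg_left (hs (mem_univ t)) hm.le).trans ?_
  by_contra hc
  push Not at hc
  have hy : 0 < y s := by
    by_contra h'
    push Not at h'
    nlinarith [norm_nonneg (y2 - m • y)]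
  have s0 : (s:ℝ) ≠ 0 := fun e => by
    rw [show s = lo from Subtype.ext e, h0] at hy; exact lt_irrefl _ hy
  have s1 : (s:ℝ) ≠ π := fun e => by
    rw [show s = hi from Subtype.ext e, hπ] at hy; exact lt_irrefl _ hy
  have hs' : (s:ℝ) ∈ Ioo 0 π := ⟨lt_of_le_of_ne s.2.1 s0.symm, lt_of_le_of_ne s.2.2 s1⟩
  have hmax : IsLocalMax (ext y) s := Filter.Eventually.of_forall (fun x => by
    rw [ext_coe]; exact hs (mem_univ _))
  have hd : deriv (ext y) =ᶠ[nhds (s:ℝ)] ext y1 := by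
    filter_upwards [isOpen_Ioo.mem_nhds hs'] with x hx using (h.hasDerivAt hx).deriv
  have hdd : deriv (deriv (ext y)) s = y2 s := by
    rw [hd.deriv_eq, (h1.hasDerivAt hs').deriv, ext_coe]
  have hpos : 0 < y2 s := by
    have := (y2 - m • y).norm_coe_le_norm s
    simp only [D.sub_apply, D.smul_apply] at this
    linarith [(abs_le.1 this).1]
  have hmin := isLocalMin_of_deriv_deriv_pos (f := ext y) (hdd ▸ hpos) hmax.deriv_eq_zero
    (ext_cont y).continuousAt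
  have hc : ext y =ᶠ[nhds (s:ℝ)] fun _ => ext y s := by
    filter_upwards [hmax, hmin] with x a b using le_antisymm a b
  have := hc.deriv.deriv_eq
  rw [hdd] at this
  simp at this
  linarith

lemma norm_le_of_neg {m : ℝ} (hm : 0 < m) {y y1 y2 : D0} (h : D1 y y1) (h1 : D1 y1 y2)
    (h0 : y lo = 0) (hπ : y hi = 0) : m * ‖y‖ ≤ ‖y2 - m • y‖ := by
  rw [← le_div_iff₀' hm]
  refine D.norm_le (by positivity) (fun t => ?_)
  rw [le_div_iff₀' hm, ← abs_of_pos hm, ← abs_mul, abs_of_pos hm, abs_le]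
  have a := max_principle hm h h1 h0 hπ t
  have c := max_principle hm h.neg h1.neg (by simp [h0]) (by simp [hπ]) t
  rw [show -y2 - m • -y = -(y2 - m • y) by rw [smul_neg]; abel, norm_neg] at c
  simp only [D.neg_apply] at c
  constructor <;> linarith

lemma norm_d_le {y y1 y2 : D0} (h : D1 y y1) (h1 : D1 y1 y2) (h0 : y lo = 0) (hπ : y hi = 0) :
    ‖y1‖ ≤ π * ‖y2‖ := by
  refine D.norm_le (by positivity) (fun t => ?_)
  have hJ := h.J_zero h0 hπ
  have key : ∀ s, |y1 t - y1 s| ≤ π * ‖y2‖ := fun s => by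
    refine (h1.abs_sub_le s t).trans ?_
    rw [mul_comm]
    refine mul_le_mul_of_nonneg_right (abs_le.2 ⟨?_, ?_⟩) (norm_nonneg _)
    · linarith [s.2.2, t.2.1]
    · linarith [s.2.1, t.2.2]
  have a := J_mono (y := algebraMap ℝ D0 (y1 t - π * ‖y2‖)) (z := y1) (fun s => by
    simp only [D.algebraMap_apply]; linarith [(abs_le.1 (key s)).2])
  have c := J_mono (z := algebraMap ℝ D0 (y1 t + π * ‖y2‖)) (y := y1) (fun s => by
    simp only [D.algebraMap_apply]; linarith [(abs_le.1 (key s)).1])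
  rw [Algebra.algebraMap_eq_smul_one, map_smul, J_one, hJ, smul_eq_mul, sub_zero] at a c
  rw [abs_le]
  constructor <;> nlinarith [pi_pos]

/-- the resonant projections -/
def Pk (n : ℕ) (k : ℤ) : D0 →L[ℝ] D0 :=
  if k = n ∨ k = -n then Pj 2 else if k = 2 * n ∨ k = -(2 * n) then Pj 1 else 0

lemma exists_Gr_mode {n : ℕ} (hn : 0 < n) (k : ℤ) :
    Nonempty (Gr (5 - ((k:ℝ) / n) ^ 2) (Pk n k)) := by
  have hn' : (n:ℝ) ≠ 0 := by positivity
  unfold Pk
  split_ifs with h1 h2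
  · have : 5 - ((k:ℝ) / n) ^ 2 = ((2:ℕ):ℝ) ^ 2 := by
      rcases h1 with h | h <;> · rw [h]; push_cast; field_simp; norm_num
    rw [this]; exact exists_Gr_res 2 two_pos
  · have : 5 - ((k:ℝ) / n) ^ 2 = ((1:ℕ):ℝ) ^ 2 := by
      rcases h2 with h | h <;> · rw [h]; push_cast; field_simp; norm_num
    rw [this]; exact exists_Gr_res 1 one_pos
  · refine exists_Gr (fun j hj e => ?_)
    have e1 : (k:ℝ) ^ 2 = (5 - (j:ℝ) ^ 2) * (n:ℝ) ^ 2 := by
      field_simp at e; linarith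
    have e2 : k ^ 2 = (5 - j ^ 2) * (n:ℤ) ^ 2 := by exact_mod_cast e1
    have hn2 : (0:ℤ) < (n:ℤ) ^ 2 := by positivity
    have hj2 : j ^ 2 ≤ 5 := by
      by_contra hc
      nlinarith [sq_nonneg k]
    have hja : j ≤ 2 := by nlinarith
    have hjb : -2 ≤ j := by nlinarith
    push Not at h1 h2
    have a1 : k ^ 2 ≠ (n:ℤ) ^ 2 := fun e => by
      rcases sq_eq_sq_iff_eq_or_eq_neg.1 e with h | h
      exacts [h1.1 h, h1.2 h]
    have a2 : k ^ 2 ≠ (2 * (n:ℤ)) ^ 2 := fun e => by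
      rcases sq_eq_sq_iff_eq_or_eq_neg.1 e with h | h
      exacts [h2.1 h, h2.2 h]
    interval_cases j
    · exact a1 (by linarith)
    · exact a2 (by linarith)
    · exact hj rfl
    · exact a2 (by linarith)
    · exact a1 (by linarith)

/-- the Green operators of all angular modes, with uniform bounds -/
structure Green (n : ℕ) where
  G0 : ℤ → D0 →L[ℝ] D0
  G1 : ℤ → D0 →L[ℝ] D0
  G2 : ℤ → D0 →L[ℝ] D0
  C : ℝ
  d0 : ∀ k f, D1 (G0 k f) (G1 k f)
  d1 : ∀ k f, D1 (G1 k f) (G2 k f)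
  lo : ∀ k f, G0 k f lo = 0
  hi : ∀ k f, G0 k f hi = 0
  eq : ∀ k f, G2 k f + (5 - ((k:ℝ) / n) ^ 2) • G0 k f = f - Pk n k f
  b0 : ∀ k : ℤ, (1 + (k:ℝ) ^ 2) * ‖G0 k‖ ≤ C
  b1 : ∀ k, ‖G1 k‖ ≤ C
  b2 : ∀ k, ‖G2 k‖ ≤ C

lemma bdd_of_tail {f : ℤ → ℝ} {N : ℤ} {C : ℝ} (h : ∀ k, N ≤ |k| → f k ≤ C) :
    ∃ C', ∀ k, f k ≤ C' := by
  refine ⟨|C| + ∑ k ∈ Finset.Ioo (-N) N, |f k|, fun k => ?_⟩
  have hs : 0 ≤ ∑ k ∈ Finset.Ioo (-N) N, |f k| := Finset.sum_nonneg (fun _ _ => abs_nonneg _)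
  by_cases hk : N ≤ |k|
  · linarith [h k hk, le_abs_self C]
  · have hk' : k ∈ Finset.Ioo (-N) N := Finset.mem_Ioo.2 (abs_lt.1 (not_le.1 hk))
    have := Finset.single_le_sum (f := fun k => |f k|) (fun _ _ => abs_nonneg _) hk'
    linarith [le_abs_self (f k), abs_nonneg C]

theorem exists_Green {n : ℕ} (hn : 0 < n) : Nonempty (Green n) := by
  have G : ∀ k : ℤ, Gr (5 - ((k:ℝ) / n) ^ 2) (Pk n k) := fun k => (exists_Gr_mode hn k).some
  have hn1 : (1:ℝ) ≤ n := by exact_mod_cast hn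
  let G2 : ℤ → D0 →L[ℝ] D0 := fun k => 1 - Pk n k - (5 - ((k:ℝ) / n) ^ 2) • (G k).G0
  have hG2 : ∀ k f, G2 k f = f - Pk n k f - (5 - ((k:ℝ) / n) ^ 2) • (G k).G0 f := fun _ _ => rfl
  have tail : ∀ k : ℤ, 3 * (n:ℤ) ≤ |k| → (1 + (k:ℝ) ^ 2) * ‖(G k).G0‖ ≤ 5 * n ^ 2
      ∧ ‖(G k).G1‖ ≤ 2 * π ∧ ‖G2 k‖ ≤ 2 := by
    intro k hk
    have hP : Pk n k = 0 := by
      unfold Pk
      rw [if_neg, if_neg]
      · rcases abs_cases k with h | h <;> omega
      · rcases abs_cases k with h | h <;> omega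
    have hk2 : 9 * (n:ℝ) ^ 2 ≤ (k:ℝ) ^ 2 := by
      have : (3 * (n:ℤ)) ^ 2 ≤ |k| ^ 2 := pow_le_pow_left₀ (by positivity) hk 2
      rw [sq_abs] at this
      have : ((3 * (n:ℤ)) ^ 2 : ℤ) ≤ ((k ^ 2 : ℤ) : ℝ) := by exact_mod_cast this
      push_cast at this; linarith
    set m : ℝ := ((k:ℝ) / n) ^ 2 - 5 with hm
    have hm1 : m * (n:ℝ) ^ 2 = (k:ℝ) ^ 2 - 5 * n ^ 2 := by rw [hm]; field_simp
    have hm0 : 0 < m := by
      by_contra hc
      nlinarith
    have e2 : ∀ f, G2 k f = f + m • (G k).G0 f := fun f => by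
      have : Pk n k f = 0 := by rw [hP]; rfl
      rw [hG2, this, hm]; module
    have b0 : ∀ f, m * ‖(G k).G0 f‖ ≤ ‖f‖ := fun f => by
      have := norm_le_of_neg hm0 ((G k).d0 f) ((G k).d1 f) ((G k).lo f) ((G k).hi f)
      rwa [← hG2, e2, add_sub_cancel_right] at this
    have b2 : ∀ f, ‖G2 k f‖ ≤ 2 * ‖f‖ := fun f => by
      rw [e2]
      refine (norm_add_le _ _).trans ?_
      rw [norm_smul, Real.norm_eq_abs, abs_of_pos hm0]
      linarith [b0 f]
    refine ⟨?_, ContinuousLinearMap.opNorm_le_bound _ (by positivity) (fun f => ?_),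
      ContinuousLinearMap.opNorm_le_bound _ (by positivity) b2⟩
    · have : ‖(G k).G0‖ ≤ m⁻¹ := ContinuousLinearMap.opNorm_le_bound _ (by positivity)
        (fun f => by rw [le_inv_mul_iff₀ hm0]; exact b0 f)
      refine (mul_le_mul_of_nonneg_left this (by positivity)).trans ?_
      rw [mul_inv_le_iff₀ hm0]
      nlinarith
    · have := norm_d_le ((G k).d0 f) ((G k).d1 f) ((G k).lo f) ((G k).hi f)
      rw [← hG2] at this
      nlinarith [b2 f, pi_pos]
  obtain ⟨C0, h0⟩ := bdd_of_tail (fun k hk => (tail k hk).1)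
  obtain ⟨C1, h1⟩ := bdd_of_tail (fun k hk => (tail k hk).2.1)
  obtain ⟨C2, h2⟩ := bdd_of_tail (fun k hk => (tail k hk).2.2)
  exact ⟨⟨fun k => (G k).G0, fun k => (G k).G1, G2, max C0 (max C1 C2), fun k => (G k).d0,
    fun k => (G k).d1, fun k => (G k).lo, fun k => (G k).hi, fun k f => by rw [hG2]; abel,
    fun k => (h0 k).trans (le_max_left _ _),
    fun k => (h1 k).trans ((le_max_left _ _).trans (le_max_right _ _)),
    fun k => (h2 k).trans ((le_max_right _ _).trans (le_max_right _ _))⟩⟩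

lemma ode5_unique {y y1 : D0} (h : D1 y y1) (h1 : D1 y1 (-((5:ℝ) • y))) (h0 : y lo = 0)
    (hπ : y hi = 0) : y = 0 := by
  obtain ⟨F, hF⟩ := exists_fund (l := 5) (fun j _ e => by
    have e2 : (5:ℤ) = j ^ 2 := by exact_mod_cast e
    have hja : j ≤ 2 := by nlinarith
    have hjb : -2 ≤ j := by nlinarith
    interval_cases j <;> omega)
  exact F.unique hF h h1 h0 hπ

end

end Pool.Agent.P.MP_0d657e_an
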