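import Pool.Agent.P.MP_0d657e_an.Basic3

/-! Solution operators for `y'' = m y + f` with Dirichlet conditions. -/

open Set Real Filter Topology

namespace Pool.Agent.P.MP_0d657e_an

noncomputable section

lemma max_principleC {y y1 f : D0} {m : ℝ} (hm : 0 < m) (h1 : D1 y y1) (h2 : D1 y1 (m • y + f))
    (h0 : y lo = 0) (hπ : y hi = 0) (t : Icc (0:ℝ) π) : m * y t ≤ ‖f‖ := by
  obtain ⟨t0, -, ht0⟩ := isCompact_univ.exists_isMaxOn univ_nonempty y.continuous.continuousOn
  by_contra hc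
  push Not at hc
  have hc0 : ‖f‖ < m * y t0 := hc.trans_le (mul_le_mul_of_nonneg_left (ht0 (mem_univ t)) hm.le)
  have hpos : 0 < y t0 := pos_of_mul_pos_left ((norm_nonneg f).trans_lt (by rwa [mul_comm] at hc0))
    hm.le
  have hin : (t0:ℝ) ∈ Ioo 0 π := by
    refine ⟨lt_of_le_of_ne t0.2.1 (fun e => ?_), lt_of_le_of_ne t0.2.2 (fun e => ?_)⟩
    · have : t0 = lo := Subtype.ext e.symm
      rw [this, h0] at hpos; exact lt_irrefl _ hpos
    · have : t0 = hi := Subtype.ext e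
      rw [this, hπ] at hpos; exact lt_irrefl _ hpos
  have hmax : IsLocalMax (ext y) t0 := Eventually.of_forall fun s => by
    rw [ext_coe]; exact ht0 (mem_univ _)
  have hd : deriv (ext y) =ᶠ[𝓝 (t0:ℝ)] ext y1 := by
    filter_upwards [Ioo_mem_nhds hin.1 hin.2] with s hs
    exact (h1.hasDerivAt hs).deriv
  have hdd : deriv (deriv (ext y)) t0 = m * y t0 + f t0 := by
    rw [hd.deriv_eq, (h2.hasDerivAt hin).deriv, ext_coe]; rfl
  have hf : -‖f‖ ≤ f t0 := (abs_le.1 (f.norm_coe_le_norm t0)).1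
  have hmin := isLocalMin_of_deriv_deriv_pos (f := ext y) (x₀ := t0) (by rw [hdd]; linarith)
    hmax.deriv_eq_zero (ext_cont y).continuousAt
  have hc : ext y =ᶠ[𝓝 (t0:ℝ)] fun _ => ext y t0 := by
    filter_upwards [hmax, hmin] with s a b using le_antisymm a b
  have := hc.deriv.deriv_eq
  rw [hdd] at this
  simp at this
  linarith

lemma max_norm {y y1 f : D0} {m : ℝ} (hm : 0 < m) (h1 : D1 y y1) (h2 : D1 y1 (m • y + f))
    (h0 : y lo = 0) (hπ : y hi = 0) : m * ‖y‖ ≤ ‖f‖ := by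
  rw [← le_div_iff₀' hm]
  refine D.norm_le (by positivity) (fun t => ?_)
  have a := max_principleC hm h1 h2 h0 hπ t
  have c := max_principleC (y := -y) (f := -f) hm h1.neg (h2.neg.congr' (by simp [add_comm]))
    (by simp [h0]) (by simp [hπ]) t
  rw [norm_neg, D.neg_apply] at c
  rw [le_div_iff₀' hm, ← abs_of_pos hm, ← abs_mul, abs_le]
  constructor <;> linarith

lemma norm_d_leC {y y1 y2 : D0} (h1 : D1 y y1) (h2 : D1 y1 y2) (h0 : y lo = 0) (hπ : y hi = 0) :
    ‖y1‖ ≤ π * ‖y2‖ := by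
  obtain ⟨c, hc, hc0⟩ := exists_hasDerivAt_eq_zero pi_pos (ext_cont y).continuousOn
    (((ext_coe y lo).trans h0).trans ((ext_coe y hi).trans hπ).symm)
    (fun x hx => h1.hasDerivAt hx)
  refine D.norm_le (by positivity) (fun t => ?_)
  have := h2.abs_sub_le ⟨c, Ioo_subset_Icc_self hc⟩ t
  rw [← ext_of_mem y1 (Ioo_subset_Icc_self hc), hc0, sub_zero] at this
  refine this.trans ?_
  rw [mul_comm]
  refine mul_le_mul_of_nonneg_right ?_ (norm_nonneg _)
  rw [abs_le]; constructor <;> linarith [t.2.1, t.2.2, hc.1, hc.2]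

/-- solution operators, with a possible resonant mode `p` -/
structure GrC (m : ℝ) (p : D0) where
  G0 : D0 →L[ℝ] D0
  G1 : D0 →L[ℝ] D0
  d1 : ∀ f, D1 (G0 f) (G1 f)
  d2 : ∀ f, D1 (G1 f) (m • G0 f + (f - (2 / π * J (f * p)) • p))
  at_lo : ∀ f, G0 f lo = 0
  at_hi : ∀ f, G0 f hi = 0
  orth : ∀ f, J (G0 f * p) = 0

/-- multiplication as an operator -/
abbrev mulD (y : D0) : D0 →L[ℝ] D0 := ContinuousLinearMap.mul ℝ D0 y

section
variable {m : ℝ} {C S : D0} (hC : D1 C (m • S)) (hS : D1 S C) (hW : C * C - m • (S * S) = 1)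
include hC hS

lemma part_d1 (f : D0) : D1 (S * V (C * f) - C * V (S * f))
    (C * V (C * f) - m • (S * V (S * f))) :=
  ((hS.mul (D1_V _)).sub (hC.mul (D1_V _))).congr' (by
    simp only [Algebra.smul_def]; ring)

include hW in
lemma part_d2 (f : D0) : D1 (C * V (C * f) - m • (S * V (S * f)))
    (m • (S * V (C * f) - C * V (S * f)) + f) :=
  ((hC.mul (D1_V _)).sub ((hS.mul (D1_V _)).smul m)).congr' (by
    simp only [Algebra.smul_def] at hW ⊢; linear_combination (-f) * hW)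

include hW in
lemma gr_nonres (h0 : S lo = 0) (h1 : S hi ≠ 0) : Nonempty (GrC m 0) := by
  let P : D0 →L[ℝ] D0 := (mulD S).comp (V.comp (mulD C)) - (mulD C).comp (V.comp (mulD S))
  let P1 : D0 →L[ℝ] D0 := (mulD C).comp (V.comp (mulD C)) - m • (mulD S).comp (V.comp (mulD S))
  let L : D0 →L[ℝ] ℝ := (S hi)⁻¹ • (D.ev hi).comp P
  refine ⟨⟨P - L.smulRight S, P1 - L.smulRight C, fun f => (part_d1 hC hS f).sub (hS.smul _),
    fun f => ((part_d2 hC hS hW f).sub (hC.smul (L f))).congr' ?_, fun f => ?_, fun f => ?_,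
    fun f => by simp⟩⟩
  · simp only [P, sub_apply, ContinuousLinearMap.smulRight_apply, ContinuousLinearMap.comp_apply,
      ContinuousLinearMap.mul_apply', smul_zero, sub_zero, smul_sub, smul_comm m (L f)]
    abel
  · simp [P, h0]
  · have : L f = (S hi)⁻¹ * P f hi := rfl
    simp only [sub_apply, ContinuousLinearMap.smulRight_apply, D.sub_apply, D.smul_apply, this]
    field_simp
    ring

include hW in
lemma gr_res {p p1 : D0} {j : ℝ} (hp : S = j • p) (hp1 : D1 p p1) (hp2 : D1 p1 (m • p))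
    (h0 : p lo = 0) (h1 : p hi = 0) (hpp : J (p * p) = π / 2) : Nonempty (GrC m p) := by
  let P : D0 →L[ℝ] D0 := (mulD S).comp (V.comp (mulD C)) - (mulD C).comp (V.comp (mulD S))
  let P1 : D0 →L[ℝ] D0 := (mulD C).comp (V.comp (mulD C)) - m • (mulD S).comp (V.comp (mulD S))
  let l : D0 →L[ℝ] ℝ := (2 / π) • J.comp (mulD p)
  let Q : D0 →L[ℝ] D0 := ContinuousLinearMap.id ℝ D0 - l.smulRight p
  have hl : ∀ f, l f = 2 / π * J (f * p) := fun f => by rw [mul_comm f]; rfl
  have hQ : ∀ f, Q f = f - (2 / π * J (f * p)) • p := fun f => by rw [← hl]; rfl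
  have hQp : ∀ f, J (Q f * p) = 0 := fun f => by
    have := pi_pos
    rw [hQ, sub_mul, map_sub, smul_mul_assoc, map_smul, hpp, smul_eq_mul]
    field_simp
    ring
  refine ⟨⟨Q.comp (P.comp Q), P1.comp Q - (l.comp (P.comp Q)).smulRight p1,
    fun f => (part_d1 hC hS (Q f)).sub (hp1.smul _),
    fun f => ((part_d2 hC hS hW (Q f)).sub (hp2.smul (l (P (Q f))))).congr' ?_, fun f => ?_,
    fun f => ?_, fun f => hQp _⟩⟩
  · rw [← hQ]
    have : Q.comp (P.comp Q) f = S * V (C * Q f) - C * V (S * Q f) - l (P (Q f)) • p := rfl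
    rw [this, smul_sub, smul_comm m (l _)]
    abel
  · have : Q.comp (P.comp Q) f = S * V (C * Q f) - C * V (S * Q f) - l (P (Q f)) • p := rfl
    simp [this, h0]
  · have : Q.comp (P.comp Q) f = S * V (C * Q f) - C * V (S * Q f) - l (P (Q f)) • p := rfl
    have e : J (S * Q f) = 0 := by rw [hp, smul_mul_assoc, map_smul, mul_comm, hQp, smul_zero]
    simp only [this, D.sub_apply, D.mul_apply, D.smul_apply, V_hi, e, h1]
    simp [hp, h1]

end

lemma gr_s1 : Nonempty (GrC (-1) s1) :=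
  gr_res (C := c1) (S := s1) (j := 1) (by simpa using D1_c1) D1_s1
    (by simp only [neg_smul, one_smul, sub_neg_eq_add, add_comm (c1 * c1), s1c1]) (by simp) D1_s1
    (by simpa using D1_c1) (by simp) (by simp) J_s1_s1

lemma gr_s2 : Nonempty (GrC (-4) s2) :=
  gr_res (C := c2) (S := (1/2 : ℝ) • s2) (j := 1/2)
    (D1_c2.congr' (by rw [smul_smul, ← neg_smul]; norm_num))
    ((D1_s2.smul _).congr' (by rw [smul_smul]; norm_num))
    (by ext t; simp; nlinarith [sin_sq_add_cos_sq (2 * (t:ℝ))]) rfl D1_s2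
    ((D1_c2.smul 2).congr' (by rw [smul_neg, smul_smul, ← neg_smul]; norm_num))
    (by simp) (by simp) J_s2_s2

lemma gr_zero {m : ℝ} (hm : -9 < m) (h1 : m ≠ -1) (h2 : m ≠ -4) : Nonempty (GrC m 0) := by
  rcases lt_trichotomy m 0 with h | h | h
  · set r := √(-m) with hr
    have hr0 : 0 < r := Real.sqrt_pos.2 (by linarith)
    have hrr : r * r = -m := Real.mul_self_sqrt (by linarith)
    refine gr_nonres (C := cs r) (S := r⁻¹ • sn r) ((D1_cs r).congr' ?_)
      (((D1_sn r).smul _).congr' ?_) ?_ (by simp) ?_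
    · rw [smul_smul, ← neg_smul]; congr 1; field_simp; linarith
    · rw [smul_smul, inv_mul_cancel₀ hr0.ne', one_smul]
    · ext t
      simp only [D.sub_apply, D.mul_apply, D.smul_apply, cs_apply, sn_apply, D.one_apply]
      rw [show m = -(r * r) by linarith]
      field_simp
      nlinarith [sin_sq_add_cos_sq (r * t)]
    · simp only [D.smul_apply, sn_apply, hi_coe]
      refine mul_ne_zero (inv_ne_zero hr0.ne') (fun h0 => ?_)
      obtain ⟨k, hk⟩ := sin_eq_zero_iff.1 h0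
      have hk2 : (k:ℝ) = r := mul_right_cancel₀ pi_ne_zero hk
      have a1 : (0:ℝ) < k := hk2 ▸ hr0
      have a2 : (k:ℝ) < 3 := by rw [hk2]; nlinarith
      have b1 : 0 < k := by exact_mod_cast a1
      have b2 : k < 3 := by exact_mod_cast a2
      rw [← hk2] at hrr
      interval_cases k
      · exact h1 (by push_cast at hrr; linarith)
      · exact h2 (by push_cast at hrr; linarith)
  · subst h
    refine gr_nonres (C := 1) (S := V 1) (by simpa using D1_one) (D1_V 1) (by simp) (by simp) ?_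
    simp [J_one]
  · set r := √m with hr
    have hr0 : 0 < r := Real.sqrt_pos.2 h
    have hrr : r * r = m := Real.mul_self_sqrt h.le
    refine gr_nonres (C := (1/2 : ℝ) • (ex r + ex (-r))) (S := (2 * r)⁻¹ • (ex r - ex (-r)))
      ((((D1_ex r).add (D1_ex (-r))).smul _).congr' ?_)
      ((((D1_ex r).sub (D1_ex (-r))).smul _).congr' ?_) ?_ (by simp) ?_
    · ext t; simp [← hrr]; field_simp; ring
    · ext t; simp; field_simp
    · ext t
      have : exp (r * t) * exp (-(r * t)) = 1 := by rw [← exp_add]; simp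
      simp only [D.sub_apply, D.mul_apply, D.smul_apply, D.add_apply, ex_apply, D.one_apply, ← hrr,
        neg_mul]
      field_simp
      linear_combination 4 * this
    · simp only [D.smul_apply, D.sub_apply, ex_apply, hi_coe]
      refine mul_ne_zero (by positivity) (sub_ne_zero.2 (fun h0 => ?_))
      have := exp_injective h0
      nlinarith [pi_pos]

/-- uniqueness -/
lemma GrC.uniq {m : ℝ} {p : D0} (G : GrC m p) {y y1 : D0} (h1 : D1 y y1) (h2 : D1 y1 (m • y))
    (h0 : y lo = 0) (hπ : y hi = 0) (hp : J (y * p) = 0) : y = 0 := by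
  have h := ((h1.mul (G.d2 y)).sub (h2.mul (G.d1 y))).J_zero
    (by simp [h0, G.at_lo]) (by simp [hπ, G.at_hi])
  have e : y1 * G.G1 y + y * (m • G.G0 y + (y - (2 / π * J (y * p)) • p))
    - (m • y * G.G0 y + y1 * G.G1 y) = y * y := by
    rw [hp, mul_zero, zero_smul]
    simp only [Algebra.smul_def]; ring
  rw [e] at h
  exact eq_zero_of_nrm pi_pos (by rw [PF.nrm_def, PJ_Φ, h, Real.sqrt_zero])

/-- the resonant mode at frequency `k` -/
def pm (n : ℕ) (k : ℤ) : D0 :=
  if k = n ∨ k = -n then s2 else if k = 2 * n ∨ k = -(2 * n) then s1 else 0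

lemma res_iff' {n : ℕ} (hn : 0 < n) {k m : ℤ} (h : ((k:ℝ) / n) ^ 2 = (m:ℝ) ^ 2) :
    k = m * n ∨ k = -(m * n) := by
  have : (n:ℝ) ≠ 0 := by exact_mod_cast hn.ne'
  rw [div_pow, div_eq_iff (by positivity), ← mul_pow] at h
  have h2 : k ^ 2 = (m * n) ^ 2 := by exact_mod_cast h
  exact sq_eq_sq_iff_eq_or_eq_neg.1 h2

lemma exists_gr {n : ℕ} (hn : 0 < n) (k : ℤ) : Nonempty (GrC (((k:ℝ) / n) ^ 2 - 5) (pm n k)) := by
  have hn' : (n:ℝ) ≠ 0 := by exact_mod_cast hn.ne'
  unfold pm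
  split_ifs with h1 h2
  · have : ((k:ℝ) / n) ^ 2 - 5 = -4 := by
      rcases h1 with h | h <;> rw [h] <;> push_cast <;> field_simp <;> norm_num
    rw [this]; exact gr_s2
  · have : ((k:ℝ) / n) ^ 2 - 5 = -1 := by
      rcases h2 with h | h <;> rw [h] <;> push_cast <;> field_simp <;> norm_num
    rw [this]; exact gr_s1
  · refine gr_zero (by nlinarith [sq_nonneg ((k:ℝ) / n)]) (fun h => h2 ?_) (fun h => h1 ?_)
    · exact res_iff' hn (m := 2) (by push_cast; linarith)
    · simpa using res_iff' hn (k := k) (m := 1) (by push_cast; linarith)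

/-- the chosen solution operators -/
def gr {n : ℕ} (hn : 0 < n) (k : ℤ) : GrC (((k:ℝ) / n) ^ 2 - 5) (pm n k) := (exists_gr hn k).some

lemma gr_bound {n : ℕ} (hn : 0 < n) : ∃ C : ℝ, ∀ k : ℤ,
    ‖(1 + (k:ℝ) ^ 2) • (gr hn k).G0‖ ≤ C ∧ ‖(gr hn k).G1‖ ≤ C := by
  have hn1 : (1:ℝ) ≤ n := by exact_mod_cast hn
  set s := Finset.Icc (-(3 * n : ℤ)) (3 * n)
  set A := ∑ k ∈ s, (‖(1 + (k:ℝ) ^ 2) • (gr hn k).G0‖ + ‖(gr hn k).G1‖)
  have hA : 0 ≤ A := Finset.sum_nonneg fun _ _ => by positivity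
  have hp := pi_pos
  refine ⟨A + (3 * n ^ 2 + 2 * π), fun k => ?_⟩
  by_cases hk : k ∈ s
  · have := Finset.single_le_sum (f := fun k : ℤ =>
      ‖(1 + (k:ℝ) ^ 2) • (gr hn k).G0‖ + ‖(gr hn k).G1‖) (fun _ _ => by positivity) hk
    have h1 : (0:ℝ) ≤ 3 * n ^ 2 + 2 * π := by positivity
    constructor <;> linarith [norm_nonneg ((1 + (k:ℝ) ^ 2) • (gr hn k).G0), norm_nonneg (gr hn k).G1]
  · have hk' : ¬ (-(3 * n : ℤ) ≤ k ∧ k ≤ 3 * n) := by simpa [s] using hk
    have hk2 : (3 * n : ℝ) ^ 2 ≤ (k:ℝ) ^ 2 := by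
      rw [not_and_or] at hk'
      rcases hk' with h | h
      · have : (k:ℝ) ≤ -(3 * n) := by exact_mod_cast (by omega : k ≤ -(3 * n : ℤ))
        nlinarith
      · have : (3 * n : ℝ) ≤ k := by exact_mod_cast (by omega : (3 * n : ℤ) ≤ k)
        nlinarith
    have hpm : pm n k = 0 := by rw [pm, if_neg (by omega), if_neg (by omega)]
    set m := ((k:ℝ) / n) ^ 2 - 5 with hm
    have e : m * n ^ 2 = k ^ 2 - 5 * n ^ 2 := by rw [hm]; field_simp
    have hm0 : 0 < m := by
      by_contra h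
      push Not at h
      nlinarith [mul_nonpos_of_nonpos_of_nonneg h (sq_nonneg (n:ℝ))]
    have d2 : ∀ f, D1 ((gr hn k).G1 f) (m • (gr hn k).G0 f + f) := fun f => by
      simpa [hpm] using (gr hn k).d2 f
    have b0 := fun f => max_norm hm0 ((gr hn k).d1 f) (d2 f) ((gr hn k).at_lo f)
      ((gr hn k).at_hi f)
    constructor
    · refine ContinuousLinearMap.opNorm_le_bound _ (by positivity) (fun f => ?_)
      rw [smul_apply, norm_smul, Real.norm_of_nonneg (by positivity)]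
      have h1 : 1 + (k:ℝ) ^ 2 ≤ 3 * n ^ 2 * m := by nlinarith
      have h2 := mul_le_mul_of_nonneg_right h1 (norm_nonneg ((gr hn k).G0 f))
      have h3 := mul_le_mul_of_nonneg_left (b0 f) (by positivity : (0:ℝ) ≤ 3 * n ^ 2)
      nlinarith [mul_nonneg (by positivity : 0 ≤ A + 2 * π) (norm_nonneg f)]
    · refine ContinuousLinearMap.opNorm_le_bound _ (by positivity) (fun f => ?_)
      have h1 := norm_d_leC ((gr hn k).d1 f) (d2 f) ((gr hn k).at_lo f) ((gr hn k).at_hi f)
      have h2 := norm_add_le (m • (gr hn k).G0 f) f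
      rw [norm_smul, Real.norm_of_nonneg hm0.le] at h2
      have h3 := mul_le_mul_of_nonneg_left (h2.trans (add_le_add_left (b0 f) _)) hp.le
      nlinarith [mul_nonneg (by positivity : 0 ≤ A + 3 * n ^ 2) (norm_nonneg f)]

end

end Pool.Agent.P.MP_0d657e_an
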