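import Pool.Agent.P.MP_0d657e_an.Basic3

/-! Division by `sin t` of functions vanishing at both end points. -/

open Set Real

namespace Pool.Agent.P.MP_0d657e_an

noncomputable section

/-- dilation of the variable -/
def dil (g : D0) : C(ℝ, C(Icc (0:ℝ) π, ℝ)) :=
  ContinuousMap.curry ⟨fun p : ℝ × Icc (0:ℝ) π => ext g (p.1 * p.2),
    (ext_cont g).comp (continuous_fst.mul (continuous_subtype_val.comp continuous_snd))⟩

/-- dilation as an element of `D0` -/
def dl (g : D0) (s : ℝ) : D0 := D.of (dil g s)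

@[simp] lemma dl_apply (g : D0) (s : ℝ) (t : Icc (0:ℝ) π) : dl g s t = ext g (s * t) := rfl

lemma dl_cont (g : D0) : Continuous (dl g) := (dil g).continuous

lemma dl_int (j : ℕ) (g : D0) :
    IntervalIntegrable (fun s : ℝ => s ^ j • dl g s) MeasureTheory.volume 0 1 :=
  ((continuous_pow j).smul (dl_cont g)).intervalIntegrable _ _

lemma norm_dl_le (g : D0) (s : ℝ) : ‖dl g s‖ ≤ ‖g‖ :=
  D.norm_le (norm_nonneg _) (fun _ => ext_abs_le g _)

/-- weighted average over dilations -/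
def Av (j : ℕ) : D0 →L[ℝ] D0 :=
  LinearMap.mkContinuous
    { toFun := fun g => ∫ s in (0:ℝ)..1, s ^ j • dl g s
      map_add' := fun g h => by
        rw [← intervalIntegral.integral_add (dl_int j g) (dl_int j h)]
        congr 1
        funext s
        rw [← smul_add]
        rfl
      map_smul' := fun c g => by
        rw [RingHom.id_apply, ← intervalIntegral.integral_smul]
        congr 1
        funext s
        rw [smul_comm]
        rfl }
    1 (fun g => by
      have h := intervalIntegral.norm_integral_le_of_norm_le_const (a := 0) (b := 1)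
        (f := fun s : ℝ => s ^ j • dl g s) (C := ‖g‖) (fun s hs => by
          rw [uIoc_of_le zero_le_one] at hs
          rw [norm_smul, norm_pow, Real.norm_eq_abs, abs_of_pos hs.1]
          exact (mul_le_of_le_one_left (norm_nonneg _) (pow_le_one₀ hs.1.le hs.2)).trans
            (norm_dl_le g s))
      simpa using h)

lemma Av_def (j : ℕ) (g : D0) : Av j g = ∫ s in (0:ℝ)..1, s ^ j • dl g s := rfl

lemma map_Av {E : Type*} [NormedAddCommGroup E] [NormedSpace ℝ E] [CompleteSpace E]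
    (L : D0 →L[ℝ] E) (j : ℕ) (g : D0) : L (Av j g) = ∫ s in (0:ℝ)..1, s ^ j • L (dl g s) := by
  rw [Av_def, ← L.intervalIntegral_comp_comm (dl_int j g)]
  simp only [map_smul]

lemma Av_apply (j : ℕ) (g : D0) (t : Icc (0:ℝ) π) :
    Av j g t = ∫ s in (0:ℝ)..1, s ^ j * ext g (s * t) := map_Av (D.ev t) j g

lemma dl_V (g : D0) {s : ℝ} (h0 : 0 ≤ s) (h1 : s ≤ 1) : dl (V g) s = s • V (dl g s) := by
  ext t
  have ht : s * t ∈ Icc (0:ℝ) π :=
    ⟨mul_nonneg h0 t.2.1, (mul_le_of_le_one_left t.2.1 h1).trans t.2.2⟩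
  rw [dl_apply, ext_of_mem _ ht, V_apply, D.smul_apply, V_apply]
  have e : ∫ x in (0:ℝ)..(t:ℝ), ext (dl g s) x = ∫ x in (0:ℝ)..(t:ℝ), ext g (s * x) := by
    refine intervalIntegral.integral_congr (fun x hx => ?_)
    rw [uIcc_of_le t.2.1] at hx
    exact ext_of_mem _ ⟨hx.1, hx.2.trans t.2.2⟩
  rw [e]
  have := intervalIntegral.smul_integral_comp_mul_left (a := 0) (b := (t:ℝ)) (ext g) s
  simp only [smul_eq_mul, mul_zero] at this
  exact this.symm

lemma D1.Av {g g' : D0} (h : D1 g g') (j : ℕ) : D1 (Av j g) (Av (j + 1) g') := by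
  have e1 : MP_0d657e_an.Av j (V g') = V (MP_0d657e_an.Av (j + 1) g') := by
    rw [map_Av V, Av_def]
    refine intervalIntegral.integral_congr (fun s hs => ?_)
    rw [uIcc_of_le zero_le_one] at hs
    simp only [dl_V g' hs.1 hs.2, smul_smul, pow_succ]
  have e2 : MP_0d657e_an.Av j (algebraMap ℝ D0 (g lo))
      = algebraMap ℝ D0 (∫ s in (0:ℝ)..1, s ^ j * g lo) := by
    ext t
    rw [Av_apply]
    simp [ext]
  rw [h.eq_V, map_add, e1, e2]
  exact ((D1_const _).add (D1_V _)).congr' (zero_add _).symm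

/-- the coordinate -/
def tt : D0 := res id continuous_id

@[simp] lemma tt_apply (t : Icc (0:ℝ) π) : tt t = t := rfl

lemma tt_mul_Av (g : D0) : tt * Av 0 g = V g := by
  ext t
  rw [D.mul_apply, Av_apply, V_apply, tt_apply]
  simp

lemma Av_lo (g : D0) : Av 0 g lo = g lo := by
  rw [Av_apply]
  have : ext g 0 = g lo := ext_coe g lo
  simp [this]

/-- reflection of the interval -/
def rf : D0 →L[ℝ] D0 :=
  LinearMap.mkContinuous
    { toFun := fun g => D.mk (fun t => g ⟨π - t, by linarith [t.2.2], by linarith [t.2.1]⟩)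
        (g.continuous.comp (Continuous.subtype_mk (continuous_const.sub continuous_subtype_val) _))
      map_add' := fun _ _ => rfl
      map_smul' := fun _ _ => rfl }
    1 (fun g => D.norm_le (by positivity) (fun t => by
      rw [one_mul]; exact g.norm_coe_le_norm _))

lemma rf_apply (g : D0) (t : Icc (0:ℝ) π) :
    rf g t = g ⟨π - t, by linarith [t.2.2], by linarith [t.2.1]⟩ := rfl

lemma rf_lo (g : D0) : rf g lo = g hi := by
  rw [rf_apply]; congr 1; ext; simp
lemma rf_hi (g : D0) : rf g hi = g lo := by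
  rw [rf_apply]; congr 1; ext; simp
lemma rf_mul (g h : D0) : rf (g * h) = rf g * rf h := rfl
lemma rf_rf (g : D0) : rf (rf g) = g := by
  ext t; rw [rf_apply, rf_apply]; congr 1; ext; simp

lemma D1.rf {g g' : D0} (h : D1 g g') : D1 (rf g) (-rf g') := by
  obtain ⟨Y, h1, h2⟩ := h
  refine ⟨fun t => Y (π - t), fun t => h1 ⟨π - t, by linarith [t.2.2], by linarith [t.2.1]⟩,
    fun t => ?_⟩
  have := (h2 ⟨π - t, by linarith [t.2.2], by linarith [t.2.1]⟩).comp (t:ℝ)
    ((hasDerivAt_id (t:ℝ)).const_sub π)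
  exact this.congr_deriv (by simp [rf_apply])

/-- the symmetric averaging operator -/
def Bv : D0 →L[ℝ] D0 := Av 0 - rf.comp ((Av 0).comp rf)

lemma Bv_apply (g : D0) : Bv g = Av 0 g - rf (Av 0 (rf g)) := rfl

lemma tt_add_rf : tt + rf tt = algebraMap ℝ D0 π := by
  ext t; simp [rf_apply]

lemma Bv_spec {y y' : D0} (h : D1 y y') (h0 : y lo = 0) (h1 : y hi = 0) :
    tt * rf tt * Bv y' = π • y := by
  have e1 : tt * Av 0 y' = y := by
    rw [tt_mul_Av]; simpa [h0] using h.eq_V.symm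
  have e2 : tt * Av 0 (rf y') = -rf y := by
    have := h.rf.eq_V
    rw [rf_lo, h1, map_zero, zero_add, map_neg] at this
    rw [tt_mul_Av, this, neg_neg]
  have e3 : rf tt * rf (Av 0 (rf y')) = -y := by
    rw [← rf_mul, e2, map_neg, rf_rf]
  rw [Bv_apply, Algebra.smul_def, ← tt_add_rf]
  linear_combination (rf tt) * e1 - tt * e3

lemma Sd.Av : ∀ {m : ℕ} {g : D0} (j : ℕ), Sd m g → Sd m (Av j g)
  | 0, _, _, _ => trivial
  | _ + 1, _, j, ⟨_, h, k⟩ => ⟨_, h.Av j, k.Av (j + 1)⟩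

lemma Sd.rf : ∀ {m : ℕ} {g : D0}, Sd m g → Sd m (rf g)
  | 0, _, _ => trivial
  | _ + 1, _, ⟨_, h, k⟩ => ⟨_, h.rf, k.rf.neg⟩

lemma Sd.Bv {m : ℕ} {g : D0} (h : Sd m g) : Sd m (Bv g) :=
  (h.Av 0).sub (h.rf.Av 0).rf

lemma J_c1 : J c1 = 0 := D1_s1.J_zero (by simp) (by simp)

lemma Bv_c1_ne (t : Icc (0:ℝ) π) : Bv c1 t ≠ 0 := by
  have key : ∀ g : D0, J g = 0 → Av 0 g hi = 0 := fun g hg => by
    have := congrArg (fun y : D0 => y hi) (tt_mul_Av g)
    simp only [D.mul_apply, tt_apply, hi_coe, V_hi, hg, mul_eq_zero, pi_pos.ne', false_or] at this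
    exact this
  have hr : J (rf c1) = 0 := by
    have := D1_s1.rf.J_zero (by simp [rf_lo]) (by simp [rf_hi])
    simpa using this
  by_cases h0 : (t:ℝ) = 0
  · have : t = lo := Subtype.ext h0
    rw [this, Bv_apply, D.sub_apply, rf_lo, key _ hr, Av_lo]
    simp
  by_cases h1 : (t:ℝ) = π
  · have : t = hi := Subtype.ext h1
    rw [this, Bv_apply, D.sub_apply, rf_hi, key _ J_c1, Av_lo, rf_lo]
    simp
  intro h
  have := congrArg (fun y : D0 => y t) (Bv_spec D1_s1 (by simp) (by simp))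
  simp only [D.mul_apply, h, mul_zero, D.smul_apply, s1_apply] at this
  have hs := sin_pos_of_pos_of_lt_pi (lt_of_le_of_ne t.2.1 (Ne.symm h0)) (lt_of_le_of_ne t.2.2 h1)
  have := mul_pos pi_pos hs
  linarith

/-- the inverse of `π sin t / (t (π - t))` -/
def σi : D0 := Classical.choose (exists_inv Bv_c1_ne)

lemma σi_spec : Bv c1 * σi = 1 := Classical.choose_spec (exists_inv Bv_c1_ne)

lemma Sd_s1 (m : ℕ) : Sd m s1 := (Sd_sn_cs 1 m).1
lemma Sd_c1 (m : ℕ) : Sd m c1 := (Sd_sn_cs 1 m).2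
lemma Sd_s2 (m : ℕ) : Sd m s2 := (Sd_sn_cs 2 m).1
lemma Sd_c2 (m : ℕ) : Sd m c2 := (Sd_sn_cs 2 m).2

lemma Sd_σi (m : ℕ) : Sd m σi := (Sd_c1 m).Bv.inv σi_spec

/-- the quotient by `sin t`, as an operator on the derivative -/
def Qd : D0 →L[ℝ] D0 := (ContinuousLinearMap.mul ℝ D0 σi).comp Bv

lemma Qd_apply (g : D0) : Qd g = σi * Bv g := rfl

/-- Hadamard division -/
theorem s1_mul_Qd {y y' : D0} (h : D1 y y') (h0 : y lo = 0) (h1 : y hi = 0) :
    s1 * Qd y' = y := by
  have e1 := Bv_spec h h0 h1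
  have e2 := Bv_spec D1_s1 (by simp) (by simp)
  have e3 : π • (s1 * Qd y' - y) = 0 := by
    rw [Qd_apply]
    simp only [Algebra.smul_def] at e1 e2 ⊢
    linear_combination (σi * Bv c1) * e1 - (σi * Bv y') * e2
      + (algebraMap ℝ D0 π * y) * σi_spec
  exact sub_eq_zero.1 ((smul_eq_zero.1 e3).resolve_left pi_pos.ne')

lemma Sd.Qd {m : ℕ} {g : D0} (h : Sd m g) : Sd m (Qd g) := (Sd_σi m).mul h.Bv

lemma eq_zero_of_s1_mul {y : D0} (h : s1 * y = 0) : y = 0 := by
  have h1 : ∀ t ∈ Ioo (0:ℝ) π, ext y t = 0 := fun t ht => by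
    have := congrArg (fun z : D0 => z ⟨t, ht.1.le, ht.2.le⟩) h
    simp only [D.mul_apply, s1_apply, D.zero_apply, mul_eq_zero,
      (sin_pos_of_pos_of_lt_pi ht.1 ht.2).ne', false_or] at this
    rw [ext_of_mem y ⟨ht.1.le, ht.2.le⟩, this]
  have h2 : EqOn (ext y) 0 (closure (Ioo (0:ℝ) π)) :=
    EqOn.closure (fun t ht => h1 t ht) (ext_cont y) continuous_zero
  rw [closure_Ioo pi_pos.ne] at h2
  ext t
  have := h2 t.2
  simpa using this

end

end Pool.Agent.P.MP_0d657e_an
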