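import Pool.Agent.P.MP_0d657e_an.RedB4
import Pool.Agent.P.MP_0d657e_an.Ident

/-! The nonlinear reduction: coercivity of the quadratic obstruction implies isolation. -/

open Set Real

namespace Pool.Agent.P.MP_0d657e_an

noncomputable section

lemma avg_dev (F : C2) (r : ℝ) (t : Icc (0:ℝ) π) :
    avg ((F - algebraMap ℝ C2 r) * (F - algebraMap ℝ C2 r)) t =
      avg (F * F) t - 2 * r * avg F t + r * r := by
  have e : (F - algebraMap ℝ C2 r) * (F - algebraMap ℝ C2 r) =
      F * F - (2 * r) • F + (r * r) • (1 : C2) := by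
    simp only [Algebra.smul_def, map_mul, map_ofNat]; ring
  rw [e]; simp

/-- a bound on increments along circles gives a bound on the oscillation -/
lemma nrm_osc_le {R φ : C2} {k : ℝ} (hk : 0 ≤ k)
    (h : ∀ (x z : ℝ) t, |R x t - R z t| ≤ k * |φ x t - φ z t|) :
    P2.nrm (R - ι (avg R)) ≤ k * P2.nrm φ := by
  rw [PF.nrm_def, sqrt_le_left (by positivity), mul_pow, PF.nrm_sq, P2_Φ, II_apply, II_apply,
    ← smul_eq_mul (k ^ 2), ← map_smul]
  refine J_mono (fun t => ?_)
  have h1 : ∀ z : ℝ, (ι (avg (R * R)) - (2:ℝ) • (R * ι (avg R)) + R * R) z t ≤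
      ((k ^ 2) • (ι (avg (φ * φ)) - (2:ℝ) • (φ * ι (avg φ)) + φ * φ)) z t := by
    intro z
    have h2 := avg_mono (F := (R - algebraMap ℝ C2 (R z t)) * (R - algebraMap ℝ C2 (R z t)))
      (G := (k ^ 2) • ((φ - algebraMap ℝ C2 (φ z t)) * (φ - algebraMap ℝ C2 (φ z t)))) t
      (fun x => by
        have := pow_le_pow_left₀ (abs_nonneg _) (h x z t) 2
        rw [mul_pow, sq_abs, sq_abs] at this
        simpa [sq] using this)
    rw [map_smul, D.smul_apply, avg_dev, avg_dev] at h2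
    simpa [mul_assoc, mul_add] using h2
  have h3 := avg_mono t h1
  have e : (R - ι (avg R)) * (R - ι (avg R)) =
      R * R - (2:ℝ) • (R * ι (avg R)) + ι (avg R * avg R) := by
    simp only [Algebra.smul_def, map_mul, map_ofNat]; ring
  rw [e]
  simp only [map_add, map_sub, map_smul, avg_mul_ι, avg_ι, D.add_apply, D.sub_apply, D.smul_apply,
    D.mul_apply] at h3 ⊢
  nlinarith [mul_nonneg (sq_nonneg k) (mul_self_nonneg (avg φ t))]

namespace Geo

variable {G : Geo}

lemma B_eq (φ v : H) {W1x W2t : C2} (h1 : Dx (G.d • (G.Ai * H.fx φ)) W1x)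
    (h2 : Dt (G.A * H.ft φ) W2t) :
    G.B φ v = -II ((W1x + W2t) * H.f v) - 5 * II (G.c * H.f φ * H.f v) := by
  have i1 := (h1.mul (H.dx v)).II_eq
  have i2 := (h2.mul (H.dt v)).II_eq (fun x => by simp [H.at_lo]) (fun x => by simp [H.at_hi])
  simp only [B, map_add, map_sub, map_smul, smul_mul_assoc, add_mul, smul_eq_mul] at i1 i2 ⊢
  linarith

lemma B_symm (u v : H) : G.B u v = G.B v u := by
  unfold B; congr 1; simp only [Algebra.smul_def]; ring

lemma Exact.II_X (hE : G.Exact) {f fx ft : C2} (hx : Dx f fx) (ht : Dt f ft) :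
    II (G.μ * (G.X1 * fx + G.X2 * ft)) = 0 := by
  obtain ⟨M1, M2, h1, h2, h⟩ := hE.divX
  have i1 := (h1.mul hx).II_eq
  have i2 := (h2.mul ht).II_eq (fun x => by simp [G.X2_lo]) (fun x => by simp [G.X2_hi])
  have e : G.μ * (G.X1 * fx + G.X2 * ft) =
      (M1 * f + G.μ * G.X1 * fx) + (M2 * f + G.μ * G.X2 * ft) := by
    linear_combination (exp := 1) -f * h
  rw [e, map_add, i1, i2, add_zero]

lemma II_μ_ι {v : C2} (hv : avg (G.c * v) = 0) (y : D0) : II (G.μ * ι y * v) = 0 := by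
  have e : G.μ * ι y * v = ι (ex (2 * b) * y) * (G.c * v) := by rw [μ, map_mul]; ring
  rw [e, II_apply, avg_ι_mul, hv, mul_zero, map_zero]

lemma μ_ex : G.μ * ι (ex (-(2 * b))) = G.c := by
  rw [μ, mul_assoc, ← map_mul, ex_mul]; simp

lemma X2_ex : G.X2 * ι (ex b) = H.f G.φ0 := by
  rw [X2, mul_right_comm, ← map_mul, om_mul_ex]; simp

lemma μX2F : G.μ * G.X2 * F0t = -((5:ℝ) • (G.c * H.f G.φ0)) := C2_ext (fun x t => by
  have h3 : exp (2 * b * t) * exp (-(b * t)) * exp (-(b * t)) = 1 := by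
    rw [← exp_add, ← exp_add, ← exp_zero]; congr 1; ring
  simp only [μ, X2, F0t, C2.mul_apply, D.mul_apply, ι_apply, ex_apply, om_apply, D.neg_apply,
    D.smul_apply, C2.neg_apply, C2.smul_apply, neg_mul]
  linear_combination (-5 * G.c x t * H.f G.φ0 x t) * h3)

end Geo

theorem core {G : Geo} (hE : G.Exact) (hC : G.Coercive) (hA : G.Asym) : Core G := by
  obtain ⟨δ, hδ, hC⟩ := hC
  set ρ := min (1/10 : ℝ) (δ / (50 * (‖G.μ‖ + 1))) with hρ
  have hρ0 : 0 < ρ := by positivity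
  obtain ⟨ε, hε, hεm, H3⟩ := Sol.est3 hE hA hρ0
  refine ⟨ε, hε, fun S h0 h1 h2 => ?_⟩
  have hN : S.Near ε := ⟨hεm, h0, h1, h2⟩
  have hS := hN.good
  have hk := H3 S hN
  have hb := b_pos
  have hρ1 : ρ ≤ 1/10 := min_le_left _ _
  have hρ2 : ‖G.μ‖ * (50 * ρ) ≤ δ := by
    have := (le_div_iff₀ (by positivity)).1 (min_le_right _ _ : ρ ≤ δ / (50 * (‖G.μ‖ + 1)))
    nlinarith
  have hex : ∀ t : Icc (0:ℝ) π, 1 ≤ exp (2 * b * t) := fun t =>
    one_le_exp (mul_nonneg (by positivity) t.2.1)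
  -- the flux is positive
  have hψ : 0 < S.ψ (0:ℝ) hi := by
    have h3 : ∀ t, (algebraMap ℝ D0 (m0 / 10)) t ≤ S.U2 (0:ℝ) t := fun t => by
      have h4 := (abs_le.1 (hk (0:ℝ) t)).2
      have h5 := hS.wt_le (0:ℝ) t
      have h6 := hS.wt_ne (0:ℝ) t
      have h7 : S.U2 (0:ℝ) t = S.U2 (0:ℝ) t / S.wt (0:ℝ) t * S.wt (0:ℝ) t := by field_simp
      rw [h7, D.algebraMap_apply]
      nlinarith [hex t, m0_pos]
    have h4 := J_mono h3
    rw [Algebra.algebraMap_eq_smul_one, map_smul, J_one, sub_zero, smul_eq_mul] at h4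
    exact (mul_pos (by have := m0_pos; positivity) pi_pos).trans_le h4
  have hψ' : ∀ x, S.ψ x hi = S.ψ (0:ℝ) hi := fun x => by
    obtain ⟨K, hK, -⟩ := hS.exists_K hE
    rw [hK, hK, S.w_bdry hE hS.w_pos S.hi1]
  have he1 : 0 < exp (b * π) - 1 := sub_pos.2 (one_lt_exp_iff.2 (mul_pos hb pi_pos))
  set c := b⁻¹ * (exp (b * π) - 1) / S.ψ (0:ℝ) hi with hc
  have hc0 : 0 < c := by positivity
  let φ : H := H.mk (c • S.ψ - b⁻¹ • (ι (ex b) - 1)) (c • S.U1) (c • S.U2 - ι (ex b))
    (((S.Dx_ψ.smul c).sub (((Dx_ι _).sub Dx_one).smul _)).congr' (by simp))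
    (((S.Dt_ψ.smul c).sub (((Dt_ι (D1_ex b)).sub Dt_one).smul _)).congr' (by
      simp [smul_smul, inv_mul_cancel₀ hb.ne']))
    (fun x => by simp [Sol.ψ])
    (fun x => by
      simp only [C2.sub_apply, C2.smul_apply, D.sub_apply, D.smul_apply, hψ', ι_apply, ex_apply,
        C2.one_apply, D.one_apply, hi_coe, hc]
      field_simp
      ring)
  have d1 : Dx (G.d • (G.Ai * H.fx φ)) (c • S.W1x) :=
    (S.hW1.smul c).congr (by simp [φ, smul_comm c]) rfl
  have d2 : Dt (G.A * H.ft φ) (c • S.W2t - G.μ * F0) :=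
    ((S.hW2.smul c).sub G.Dt_Ae).congr (by simp [φ, mul_sub]) rfl
  have eE : c • S.W1x + (c • S.W2t - G.μ * F0) = G.μ * (c • S.w - F0) := by
    rw [← add_sub_assoc, ← smul_add, S.curl, mul_sub, mul_smul_comm]
  have hB := fun v => Geo.B_eq φ v d1 d2
  have hI := G.ident φ (S.h1x.smul c) (S.h1t.smul c)
    (((S.h2x.smul c).sub (Dx_ι _)).congr' (sub_zero _).symm)
    ((S.h2t.smul c).sub (Dt_ι (D1_ex b))) d1 d2
  rw [eE] at hB hI
  have hφ : φ = 0 := by
    refine hC φ (fun v hv => ?_) ?_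
    · set R := c • S.w - F0 + (5:ℝ) • (ι (ex (-(2 * b))) * H.f φ) with hR
      have e1 : G.B φ v = -II (G.μ * (R - ι (avg R)) * H.f v) := by
        have e2 : G.μ * (R - ι (avg R)) * H.f v = G.μ * (c • S.w - F0) * H.f v
            + (5:ℝ) • (G.c * H.f φ * H.f v) - G.μ * ι (avg R) * H.f v := by
          generalize avg R = y
          rw [hR, ← Geo.μ_ex]
          simp only [Algebra.smul_def]; ring
        rw [hB, e2, map_sub, map_add, map_smul, Geo.II_μ_ι hv, smul_eq_mul]; ring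
      have e3 : P2.nrm (R - ι (avg R)) ≤ 50 * ρ * P2.nrm (H.f φ) := by
        refine nrm_osc_le (by positivity) (fun x z t => ?_)
        have h3 := hS.incr hE t (fun x => hk x t) x z
        have h4 : exp (-(2 * b) * t) * exp (2 * b * t) = 1 := by rw [← exp_add]; simp
        have e4 : H.f φ x t - H.f φ z t = c * (S.ψ x t - S.ψ z t) := by
          simp [φ]; ring
        have e5 : R x t - R z t = 5 * exp (-(2 * b) * t) * c *
            (S.ψ x t - S.ψ z t - -(exp (2 * b * t) / 5) * (S.w x t - S.w z t)) := by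
          simp only [hR, F0, C2.add_apply, C2.sub_apply, C2.smul_apply, C2.mul_apply, D.add_apply,
            D.sub_apply, D.smul_apply, D.mul_apply, ι_apply, ex_apply]
          linear_combination (5 * exp (-(2 * b) * t)) * e4 - c * (S.w x t - S.w z t) * h4
        have h5 : exp (-(2 * b) * t) ≤ 1 := by nlinarith [hex t, exp_pos (-(2 * b) * t)]
        have h6 : |S.w x t - S.w z t| ≤ 10 * |S.ψ x t - S.ψ z t| := by
          have h7 := abs_sub_abs_le_abs_sub (-(exp (2 * b * t) / 5) * (S.w x t - S.w z t))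
            (S.ψ x t - S.ψ z t)
          rw [abs_sub_comm _ (S.ψ x t - S.ψ z t), abs_mul, abs_neg,
            abs_of_pos (by positivity : 0 < exp (2 * b * t) / 5)] at h7
          nlinarith [hex t, abs_nonneg (S.w x t - S.w z t)]
        rw [e4, e5, abs_mul, abs_mul c, abs_of_pos hc0,
          abs_of_pos (by positivity : 0 < 5 * exp (-(2 * b) * t) * c)]
        calc _ ≤ 5 * 1 * c * (ρ * (10 * |S.ψ x t - S.ψ z t|)) := by
              gcongr
              exact h3.trans (mul_le_mul_of_nonneg_left h6 hρ0.le)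
          _ = _ := by ring
      rw [e1, abs_neg]
      refine (P2.abs_mul3_le _ _ _).trans (mul_le_mul_of_nonneg_right ?_ (apply_nonneg _ _))
      refine (mul_le_mul_of_nonneg_left e3 (norm_nonneg _)).trans ?_
      rw [← mul_assoc]
      exact mul_le_mul_of_nonneg_right hρ2 (apply_nonneg _ _)
    · have i1 := hE.II_X (S.hHx.smul (c * c)) (S.hHt.smul (c * c))
      have i2 := hE.II_X (Dx_F0.mul (H.dx φ)) (Dt_F0.mul (H.dt φ))
      have i3 : II (G.μ * F0 * H.f G.φ0) = 0 := Geo.II_μ_ι hE.avg0 _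
      have i4 := hB G.φ0
      rw [Geo.B_symm, hE.ker] at i4
      have e : G.μ * (G.X1 * (c * c) • (S.w * S.U1) + G.X2 * (c * c) • (S.w * S.U2)) =
          G.μ * (c • S.w - F0) * (G.X1 * H.fx φ + G.X2 * H.ft φ)
          + G.μ * (G.X1 * (0 * H.f φ + F0 * H.fx φ) + G.X2 * (F0t * H.f φ + F0 * H.ft φ))
          + G.μ * F0 * H.f G.φ0 + G.μ * (c • S.w - F0) * H.f G.φ0
          + (5:ℝ) • (G.c * H.f φ * H.f G.φ0) := by
        have e1 := G.μX2F
        have e2 := G.X2_ex
        have e3 : H.fx φ = c • S.U1 := rfl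
        have e4 : H.ft φ = c • S.U2 - ι (ex b) := rfl
        rw [e3, e4]
        simp only [Algebra.smul_def, map_mul] at e1 ⊢
        linear_combination (exp := 1) -H.f φ * e1 + G.μ * algebraMap ℝ C2 c * S.w * e2
      rw [e] at i1
      simp only [map_add (f := II), map_smul, i2, i3, smul_eq_mul] at i1
      linarith
  rw [hφ] at d1 d2
  simp only [map_zero, mul_zero, smul_zero] at d1 d2
  rw [d1.unique Dx_zero, d2.unique Dt_zero, add_zero] at eE
  refine ⟨c⁻¹, (inv_pos.2 hc0).ne', C2_ext (fun x t => ?_)⟩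
  have := congrArg (fun F : C2 => F x t) eE
  simp only [C2.zero_apply, D.zero_apply, C2.mul_apply, D.mul_apply, C2.sub_apply, D.sub_apply,
    C2.smul_apply, D.smul_apply] at this ⊢
  have h3 := (mul_eq_zero.1 this.symm).resolve_left (hE.μ_pos x t).ne'
  field_simp
  linarith

theorem partB (G : Geo) : G.Exact → G.Smooth → G.Coercive → G.Asym → Isolated :=
  fun hE hS hC hA => isolated_of_core hE hS (core hE hC hA)

end

end Pool.Agent.P.MP_0d657e_an
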