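import Pool.Agent.P.MP_0d657e_an.C9
import Pool.Agent.P.MP_0d657e_an.D8
import Pool.Agent.P.MP_0d657e_an.RedB

/-! Assembly of the parts. -/

open Set Real

namespace Pool.Agent.P.MP_0d657e_an

theorem isolated_of_pos (h : ∃ Ds : Des, Ds.Pos) : Isolated := by
  obtain ⟨Ds, hP⟩ := h
  obtain ⟨F, C, κ0, η0, hκ, hη0, hF⟩ := Ds.family
  obtain ⟨η1, hη1, hD⟩ := partD Ds F C κ0 hP hκ
  have hm : 0 < min η0 η1 := lt_min hη0 hη1
  have h0 : min η0 η1 / 2 ∈ Ioo 0 η0 :=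
    ⟨half_pos hm, (half_lt_self hm).trans_le (min_le_left _ _)⟩
  have h1 : min η0 η1 / 2 ∈ Ioo 0 η1 :=
    ⟨half_pos hm, (half_lt_self hm).trans_le (min_le_right _ _)⟩
  obtain ⟨G, hE, hS, ⟨ap⟩⟩ := hF _ h0
  obtain ⟨hC, hA⟩ := hD _ h1 G hE ap
  exact partB G hE hS hC hA

end Pool.Agent.P.MP_0d657e_an
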