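import Pool.Agent.P.MP_0d657e_an.Basic2
import Pool.Agent.P.MP_0d657e_an.Defs

/-! The data of the designed metric, and the coercivity property. -/

open Set Real

namespace Pool.Agent.P.MP_0d657e_an

noncomputable section

/-- the exponent -/
def b : ℝ := √5
lemma b_pos : 0 < b := Real.sqrt_pos.2 (by norm_num)
lemma b_sq : b * b = 5 := Real.mul_self_sqrt (by norm_num)

/-- `exp (r t)` -/
def ex (r : ℝ) : D0 := res (fun t => exp (r * t)) (by fun_prop)

@[simp] lemma ex_apply (r : ℝ) (t : Icc (0:ℝ) π) : ex r t = exp (r * t) := rfl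

lemma D1_ex (r : ℝ) : D1 (ex r) (r • ex r) :=
  (D1_res (f := fun t => exp (r * t)) (f' := fun t => r * exp (r * t)) (by fun_prop) (by fun_prop)
    (fun t => by simpa [mul_comm] using ((hasDerivAt_id t).const_mul r).exp)).congr' (by
      ext t; simp)

lemma ex_mul (r s : ℝ) : ex r * ex s = ex (r + s) := by
  ext t; simp [add_mul, exp_add]

@[simp] lemma ex_zero : ex 0 = 1 := by ext t; simp

/-- the weight `exp (-b t)` -/
def om : D0 := ex (-b)

/-- functions of class `C^1` on the annulus vanishing on the boundary, with their derivatives -/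
def H : Submodule ℝ (C2 × C2 × C2) where
  carrier := {u | Dx u.1 u.2.1 ∧ Dt u.1 u.2.2 ∧ (∀ x, u.1 x lo = 0) ∧ ∀ x, u.1 x hi = 0}
  add_mem' := fun hu hv => ⟨hu.1.add hv.1, hu.2.1.add hv.2.1,
    fun x => by simp [hu.2.2.1 x, hv.2.2.1 x], fun x => by simp [hu.2.2.2 x, hv.2.2.2 x]⟩
  zero_mem' := ⟨Dx_zero, Dt_zero, fun _ => rfl, fun _ => rfl⟩
  smul_mem' := fun c _ hu => ⟨hu.1.smul c, hu.2.1.smul c,
    fun x => by simp [hu.2.2.1 x], fun x => by simp [hu.2.2.2 x]⟩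

namespace H
/-- the function -/
def f : H →ₗ[ℝ] C2 := (LinearMap.fst ℝ _ _).comp H.subtype
/-- its angular derivative -/
def fx : H →ₗ[ℝ] C2 := (LinearMap.fst ℝ _ _).comp ((LinearMap.snd ℝ _ _).comp H.subtype)
/-- its height derivative -/
def ft : H →ₗ[ℝ] C2 := (LinearMap.snd ℝ _ _).comp ((LinearMap.snd ℝ _ _).comp H.subtype)
lemma dx (u : H) : Dx (f u) (fx u) := u.2.1
lemma dt (u : H) : Dt (f u) (ft u) := u.2.2.1
lemma at_lo (u : H) (x : T) : f u x lo = 0 := u.2.2.2.1 x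
lemma at_hi (u : H) (x : T) : f u x hi = 0 := u.2.2.2.2 x
/-- constructor -/
def mk (F Fx Ft : C2) (hx : Dx F Fx) (ht : Dt F Ft) (h0 : ∀ x, F x lo = 0)
    (h1 : ∀ x, F x hi = 0) : H := ⟨(F, Fx, Ft), hx, ht, h0, h1⟩
@[simp] lemma f_mk (F Fx Ft : C2) (hx ht h0 h1) : f (mk F Fx Ft hx ht h0 h1) = F := rfl
@[simp] lemma fx_mk (F Fx Ft : C2) (hx ht h0 h1) : fx (mk F Fx Ft hx ht h0 h1) = Fx := rfl
@[simp] lemma ft_mk (F Fx Ft : C2) (hx ht h0 h1) : ft (mk F Fx Ft hx ht h0 h1) = Ft := rfl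
lemma ext' {u v : H} (h : f u = f v) : u = v := by
  have h1 : fx u = fx v := Dx.unique (dx u) (h ▸ dx v)
  have h2 : ft u = ft v := Dt.unique (dt u) (h ▸ dt v)
  exact Subtype.ext (Prod.ext h (Prod.ext h1 h2))
end H

/-- the data of the metric `μ (A dx² / d + dt² / A)`, `μ = c exp (2 b t)`, `c = A + A_t / b`,
together with an area preserving vector field `X` -/
structure Geo where
  d : ℝ
  A : C2
  Ax : C2
  At : C2
  Ai : C2
  X1 : C2
  X1x : C2
  X1t : C2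
  φ0 : H
  d_pos : 0 < d
  hAx : Dx A Ax
  hAt : Dt A At
  hAi : A * Ai = 1
  hX1x : Dx X1 X1x
  hX1t : Dt X1 X1t

namespace Geo

variable (G : Geo)

/-- the factor `c` -/
def c : C2 := G.A + b⁻¹ • G.At
/-- the area density -/
def μ : C2 := G.c * ι (ex (2 * b))
/-- second component of the vector field -/
def X2 : C2 := ι om * H.f G.φ0
/-- its angular derivative -/
def X2x : C2 := ι om * H.fx G.φ0
/-- its height derivative -/
def X2t : C2 := ι om * (H.ft G.φ0 - b • H.f G.φ0)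
/-- the Lie derivative of the conductivity, component `tt` -/
def Ttt : C2 := G.Ax * G.X1 + G.A * G.X1x + G.At * G.X2 - G.A * G.X2t
/-- component `xt` -/
def Txt : C2 := -(G.A * G.X1t) - G.d • (G.Ai * G.X2x)
/-- component `xx` -/
def Txx : C2 := -(G.d • (G.Ai * G.Ai * G.Ttt))

/-- the linearised operator as a bilinear form -/
def B (u v : H) : ℝ :=
  II (G.d • (G.Ai * H.fx u * H.fx v) + G.A * H.ft u * H.ft v - (5:ℝ) • (G.c * H.f u * H.f v))

/-- the quadratic obstruction -/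
def I (u v : H) : ℝ :=
  II (G.Txx * H.fx u * H.fx v + G.Txt * (H.fx u * H.ft v + H.ft u * H.fx v)
    + G.Ttt * H.ft u * H.ft v)

/-- the exact properties of the design -/
structure Exact : Prop where
  A_pos : ∀ x t, 0 < G.A x t
  c_pos : ∀ x t, 0 < G.c x t
  avgA : avg G.A = 1
  divX : ∃ M1x M2t, Dx (G.μ * G.X1) M1x ∧ Dt (G.μ * G.X2) M2t ∧ M1x + M2t = 0
  ker : ∀ v, G.B G.φ0 v = 0
  avg0 : avg (G.c * H.f G.φ0) = 0

/-- smoothness of the metric -/
def Smooth : Prop :=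
  ContDiffOn ℝ ((⊤ : ℕ∞) : WithTop ℕ∞) (fun p : ℝ × ℝ => ext (G.A p.1) p.2) Strip ∧
  ContDiffOn ℝ ((⊤ : ℕ∞) : WithTop ℕ∞) (fun p : ℝ × ℝ => ext (G.At p.1) p.2) Strip

/-- the obstruction vanishes only at zero on approximate solutions of the linearised problem -/
def Coercive : Prop :=
  ∃ δ > 0, ∀ φ : H, (∀ v : H, avg (G.c * H.f v) = 0 →
    |G.B φ v| ≤ δ * P2.nrm (H.f φ) * P2.nrm (H.f v)) → G.I φ φ = 0 → φ = 0

/-- the metric is not rotationally symmetric -/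
def Asym : Prop := ∃ θ : H, II (G.A * H.ft θ) ≠ 0

end Geo

/-- the statement to be proved -/
def Isolated : Prop :=
  ∃ (m : Metric) (w : ℝ × ℝ → ℝ) (ε : ℝ), 0 < ε ∧ m.IsSteadyVort w ∧
    ∀ w', m.IsSteadyVort w' → m.C1Small (fun p => w' p - w p) ε →
      ∃ c : ℝ, c ≠ 0 ∧ ∀ p ∈ Strip, w' p = c * w p

end

end Pool.Agent.P.MP_0d657e_an
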