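import Pool.Agent.P.MP_0d657e_an.PosE7

/-! Small tools for the final assembly. -/

open Set Real Filter Topology Asymptotics

namespace Pool.Agent.P.MP_0d657e_an.E

noncomputable section

lemma mode_le {m : ℝ} (a : SJ) (hm : -5 ≤ m) (h1 : m + 1 ≠ 0) (h4 : m + 4 ≠ 0) :
    ∃ C ≥ 0, ∀ v y e, 0 ≤ e → Cn m a v y e → H1.nr y ≤ C * (PJ.nrm v + e) := by
  obtain ⟨C, hC, H⟩ := apriori (r := min |m + 1| |m + 4|) (lt_min (abs_pos.2 h1) (abs_pos.2 h4))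
  refine ⟨C * (1 + (‖a.g‖ + ‖a.g'‖)), by positivity, fun v y e he h => ?_⟩
  have hv := apply_nonneg PJ.nrm v
  refine (H m y _ hm h.bound (by positivity) (Or.inr (min_le_left _ _))
    (Or.inr (min_le_right _ _))).trans ?_
  rw [mul_assoc]
  refine mul_le_mul_of_nonneg_left ?_ hC.le
  nlinarith [mul_nonneg (by positivity : 0 ≤ ‖a.g‖ + ‖a.g'‖) he]

lemma KT_le : ∃ C ≥ 1, ∀ w, H1.nr (KT w) ≤ C * H1.nr w := by
  obtain ⟨C, hC, h⟩ := (NO.KT (l := ⊤) (y := fun w : H1 => w) (isBigO_refl _ _)).exists_pos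
  refine ⟨C + 1, by linarith, fun w => ?_⟩
  have := eventually_top.1 h.bound w
  rw [Real.norm_of_nonneg (apply_nonneg _ _), Real.norm_of_nonneg (apply_nonneg _ _)] at this
  nlinarith [apply_nonneg H1.nr w]

lemma Rr_zero (κ : ℝ) : Rr κ SJ.zero.α SJ.zero.α1 = 0 := by simp [Rr, SJ.zero]

lemma Gf_zero (a : SJ) (v : D0) (K y : H1) : Gf a 0 0 v K y = 0 := by simp [Gf, Tv]

lemma Ode_zero (l : ℝ) : Ode l 0 0 0 0 := ⟨D1_zero, D1_zero, rfl, rfl, by simp⟩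

lemma six : ∃ (a : SJ) (φ φ1 φ2 : D0), Ode (5 - 4 ^ 2) φ φ1 φ2 (-Rr (-4) a.α a.α1) ∧
    0 < J (om * ((1/4 : ℝ) • (s1 ^ 3 * (a.α + b⁻¹ • a.α1)) + (3/2 : ℝ) • (s1 ^ 2 * φ))) := by
  let a := SJ.of (-(b • c1 + (2:ℝ) • s1)) ((Smo_c1.smul b).add (Smo_s1.smul 2)).neg
  have h0 : a.α = -(b • c1 + (2:ℝ) • s1) := rfl
  have h1 : a.α1 = -(b • -s1 + (2:ℝ) • c1) :=
    D1.unique pi_pos a.h0 ((D1_c1.smul b).add (D1_s1.smul 2)).neg
  have hb : b⁻¹ = b / 5 := by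
    have := b_pos.ne'
    field_simp; linarith [b_sq]
  refine ⟨a, _, _, _, ⟨((D1_s1.mul D1_c1).smul (b / 10)).add ((D1_s1.mul D1_s1).smul (1/2)),
    (((D1_c1.mul D1_c1).add (D1_s1.mul D1_s1.neg)).smul (b / 10)).add
      (((D1_c1.mul D1_s1).add (D1_s1.mul D1_c1)).smul (1/2)), by simp, by simp, ?_⟩, ?_⟩
  · ext t
    simp [Rr, h0, h1]
    linear_combination (1/2 * sin t ^ 2) * b_sq
  · have h2 := J_om ((D1_pow D1_s1 3).smul (-b / 20)) (P := (1/4 : ℝ) • (s1 ^ 3 *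
      (a.α + b⁻¹ • a.α1)) + (3/2 : ℝ) • (s1 ^ 2 * ((b / 10) • (s1 * c1) + (1/2 : ℝ) • (s1 * s1)))
        - (1/4 : ℝ) • s1 ^ 4) (by
      ext t
      simp [h0, h1, hb]
      ring)
    have h3 : 0 < J (om * s1 ^ 4) := J_pos (t := mid)
      (fun t => by simp only [D.mul_apply, D.pow_apply, om_apply]; positivity) (by simp)
    rw [mul_sub, map_sub, mul_smul_comm (1/4 : ℝ) om (s1 ^ 4), map_smul, smul_eq_mul] at h2
    simp only [D.smul_apply, D.pow_apply, s1_apply] at h2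
    simp at h2 ⊢
    linarith

lemma tend_div {i : ℝ} (hi : i ≠ 0) : Tendsto (fun n : ℕ => i / n) atTop (𝓝[≠] 0) :=
  tendsto_nhdsWithin_iff.2 ⟨tendsto_const_div_atTop_nhds_zero_nat i,
    (eventually_gt_atTop 0).mono fun n hn => div_ne_zero hi (by positivity)⟩

end

end Pool.Agent.P.MP_0d657e_an.E
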