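import Pool.Agent.P.MP_0d657e_an.PosE6
import Pool.Agent.P.MP_0d657e_an.PosE8

/-! A design whose second order form is definite. -/

open Set Real Filter Topology Asymptotics

namespace Pool.Agent.P.MP_0d657e_an.E

noncomputable section

/-- shifts of the modes close to the resonant one -/
def II (M : ℕ) : Finset ℤ := (Finset.Icc (-(M:ℤ)) M).erase 0

lemma mem_II {M : ℕ} {i : ℤ} : i ∈ II M ↔ i ≠ 0 ∧ -(M:ℤ) ≤ i ∧ i ≤ M := by simp [II]

/-- the positive modes -/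
def PP (n M : ℕ) : Finset ℤ := insert (n:ℤ) (insert (3 * n : ℤ) (insert (6 * n : ℤ)
  (insert (M + 1 : ℤ) (insert (2 * n - (M + 1) : ℤ) ((II M).image fun i => n + i)))))

lemma mem_im {n M : ℕ} {m : ℤ} :
    m ∈ (II M).image (fun i => (n:ℤ) + i) ↔ m ≠ n ∧ (n:ℤ) - M ≤ m ∧ m ≤ n + M := by
  simp only [Finset.mem_image, mem_II]
  exact ⟨by rintro ⟨i, h, rfl⟩; omega, fun h => ⟨m - n, by omega, by omega⟩⟩

lemma mem_PP {n M : ℕ} {m : ℤ} : m ∈ PP n M ↔ m = 3 * n ∨ m = 6 * n ∨ m = M + 1 ∨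
    m = 2 * n - (M + 1) ∨ ((n:ℤ) - M ≤ m ∧ m ≤ n + M) := by
  simp only [PP, Finset.mem_insert, mem_im]
  omega

lemma sum_PP {n M : ℕ} (h : 2 * M + 2 < n) (f : ℤ → ℝ) : ∑ m ∈ PP n M, f m = f n + (f (3 * n)
    + (f (6 * n) + (f (M + 1) + (f (2 * n - (M + 1)) + ∑ i ∈ II M, f (n + i))))) := by
  rw [PP, Finset.sum_insert, Finset.sum_insert, Finset.sum_insert, Finset.sum_insert,
    Finset.sum_insert, Finset.sum_image (fun _ _ _ _ h => add_left_cancel h)] <;>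
  · simp only [Finset.mem_insert, mem_im]; omega

lemma sum_II (M : ℕ) {f : ℕ → ℝ} (hf : ∀ j, 0 ≤ f j) :
    ∑ j ∈ Finset.range M, f j ≤ ∑ i ∈ II M, f (i.natAbs - 1) := by
  have e : ∑ i ∈ (Finset.range M).image (fun j : ℕ => (j:ℤ) + 1), f (i.natAbs - 1)
      = ∑ j ∈ Finset.range M, f j := by
    rw [Finset.sum_image (fun _ _ _ _ h => by simpa using h)]
    exact Finset.sum_congr rfl fun j _ => congrArg f (by omega)
  rw [← e]
  refine Finset.sum_le_sum_of_subset_of_nonneg (fun i hi => ?_) (fun _ _ _ => hf _)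
  obtain ⟨j, hj, rfl⟩ := Finset.mem_image.1 hi
  rw [Finset.mem_range] at hj
  rw [mem_II]; omega

lemma exists_A {n M : ℕ} (h : 2 * M + 2 < n) (a3 a6 aL aK : SJ) (c : ℤ → SJ) : ∃ A : ℤ → SJ,
    (∀ k, A (-k) = A k) ∧ (∀ k, k ∉ PP n M → -k ∉ PP n M → A k = SJ.zero) ∧ A n = an ∧
    A (3 * n) = a3 ∧ A (6 * n) = a6 ∧ A (M + 1) = aL ∧ A (2 * n - (M + 1)) = aK ∧
    ∀ i ∈ II M, A (n + i) = c i := by
  refine ⟨fun k => if |k| = n then an else if |k| = 3 * n then a3 else if |k| = 6 * n then a6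
    else if |k| = M + 1 then aL else if |k| = 2 * n - (M + 1) then aK
    else if (n:ℤ) - M ≤ |k| ∧ |k| ≤ n + M then c (|k| - n) else SJ.zero,
    fun k => by simp only [abs_neg], fun k h1 h2 => ?_, ?_, ?_, ?_, ?_, ?_, fun i hi => ?_⟩
  · rw [mem_PP] at h1 h2
    rcases abs_cases k with ⟨e, _⟩ | ⟨e, _⟩ <;>
    · simp only [e]
      rw [if_neg, if_neg, if_neg, if_neg, if_neg, if_neg] <;> omega
  · simp only [abs_of_nonneg (by omega : (0:ℤ) ≤ n), if_true]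
  · simp only [abs_of_nonneg (by omega : (0:ℤ) ≤ 3 * n), if_true]
    rw [if_neg]; omega
  · simp only [abs_of_nonneg (by omega : (0:ℤ) ≤ 6 * n), if_true]
    rw [if_neg, if_neg] <;> omega
  · simp only [abs_of_nonneg (by omega : (0:ℤ) ≤ M + 1), if_true]
    rw [if_neg, if_neg, if_neg] <;> omega
  · simp only [abs_of_nonneg (by omega : (0:ℤ) ≤ 2 * n - (M + 1)), if_true]
    rw [if_neg, if_neg, if_neg, if_neg] <;> omega
  · rw [mem_II] at hi
    simp only [abs_of_nonneg (by omega : (0:ℤ) ≤ n + i)]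
    rw [if_neg, if_neg, if_neg, if_neg, if_neg, if_pos, add_sub_cancel_left] <;> omega

lemma exists_sol {n : ℕ} (hn : 0 < n) (F : ℤ → D0) (F_neg : ∀ k, F (-k) = F k)
    {φ φ1 φ2 ψ ψ1 ψ2 χ χ1 χ2 : D0} (o1 : Ode 4 φ φ1 φ2 (F n)) (o3 : Ode (-4) ψ ψ1 ψ2 (F (3 * n)))
    (o4 : Ode (5 - 4 ^ 2) χ χ1 χ2 (F (4 * n))) (o2 : F (2 * n) = 0) (o6 : F (6 * n) = 0) :
    ∃ Φ Φ1 Φ2 : ℤ → D0, (∀ k : ℤ, Ode (5 - ((k:ℝ) / n) ^ 2) (Φ k) (Φ1 k) (Φ2 k) (F k)) ∧
      (∀ k, Φ (-k) = Φ k) ∧ Φ (2 * n) = 0 ∧ Φ (4 * n) = χ ∧ (Φ1 n = φ1 ∧ Φ2 n = φ2) ∧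
      (Φ1 (3 * n) = ψ1 ∧ Φ2 (3 * n) = ψ2) ∧ Φ1 (6 * n) = 0 ∧ Φ2 (6 * n) = 0 := by
  have hn' : (n:ℝ) ≠ 0 := by positivity
  have key : ∀ k : ℤ, ∃ x x1 x2 : D0, 0 ≤ k → Ode (5 - ((k:ℝ) / n) ^ 2) x x1 x2 (F k) ∧
      (k = 2 * n → x = 0) ∧ (k = 4 * n → x = χ) ∧ (k = n → x1 = φ1 ∧ x2 = φ2) ∧
      (k = 3 * n → x1 = ψ1 ∧ x2 = ψ2) ∧ (k = 6 * n → x1 = 0 ∧ x2 = 0) := fun k => by
    by_cases h1 : k = n
    · refine ⟨φ, φ1, φ2, fun _ => ⟨?_, by omega, by omega, by simp, by omega, by omega⟩⟩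
      rw [h1]; convert o1 using 1; push_cast; field_simp; norm_num
    by_cases h2 : k = 2 * n
    · exact ⟨0, 0, 0, fun _ => ⟨by rw [h2, o2]; exact Ode_zero _, by simp, by omega, by omega,
        by omega, by omega⟩⟩
    by_cases h3 : k = 3 * n
    · refine ⟨ψ, ψ1, ψ2, fun _ => ⟨?_, by omega, by omega, by omega, by simp, by omega⟩⟩
      rw [h3]; convert o3 using 1; push_cast; field_simp; norm_num
    by_cases h4 : k = 4 * n
    · refine ⟨χ, χ1, χ2, fun _ => ⟨?_, by omega, by simp, by omega, by omega, by omega⟩⟩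
      rw [h4]; convert o4 using 1; push_cast; field_simp
    by_cases h6 : k = 6 * n
    · exact ⟨0, 0, 0, fun _ => ⟨by rw [h6, o6]; exact Ode_zero _, by omega, by omega, by omega,
        by omega, by simp⟩⟩
    obtain ⟨G⟩ := exists_Gr_mode hn k
    by_cases hk : 0 ≤ k
    · exact ⟨_, _, _, fun _ => ⟨exists_ode G (by rw [Pk, if_neg (by omega), if_neg (by omega)]; rfl),
        by omega, by omega, by omega, by omega, by omega⟩⟩
    · exact ⟨0, 0, 0, fun h => absurd h hk⟩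
  choose x x1 x2 hx using key
  have ab : ∀ c : ℤ, 0 ≤ c → |c * n| = c * n := fun c hc => abs_of_nonneg (by positivity)
  refine ⟨fun k => x |k|, fun k => x1 |k|, fun k => x2 |k|, fun k => ?_,
    fun k => by simp only [abs_neg], (hx _ (abs_nonneg _)).2.1 (ab 2 (by norm_num)),
    (hx _ (abs_nonneg _)).2.2.1 (ab 4 (by norm_num)),
    (hx _ (abs_nonneg _)).2.2.2.1 (abs_of_nonneg (by positivity)),
    (hx _ (abs_nonneg _)).2.2.2.2.1 (ab 3 (by norm_num)),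
    (hx _ (abs_nonneg _)).2.2.2.2.2 (ab 6 (by norm_num))⟩
  have := (hx _ (abs_nonneg k)).1
  convert this using 1
  · push_cast; rw [div_pow, div_pow, sq_abs]
  · rcases abs_choice k with e | e <;> simp [e, F_neg]

theorem exists_pos : ∃ Ds : Des, Ds.Pos := by
  obtain ⟨a3, φ, φ1, φ2, ψ, ψ1, ψ2, oφ, oψ, hMo, w0, hw0, C0, hC0, hb⟩ := base
  obtain ⟨c0, hc0, hp1⟩ := pair1
  obtain ⟨Z, hZ, hp2⟩ := pair2
  obtain ⟨M, a, aP, w1, hw1, Cc, hch⟩ :=
    choice a3 (fun i => -q0 a3 φ1 φ2 ψ1 ψ2 i.v i.w i.x) hw0 hC0 hb hc0 Z hZ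
  obtain ⟨cK, hcK, hK⟩ := KT_le
  obtain ⟨a6, χ, χ1, χ2, oχ, hκ⟩ := six
  obtain ⟨δ, hδ, hδ'⟩ : ∃ δ > 0, δ * (((II M).card:ℝ) * cK ^ 2 + 1) = w1 / 2 :=
    ⟨w1 / 2 / ((II M).card * cK ^ 2 + 1), by positivity, div_mul_cancel₀ _ (by positivity)⟩
  have ev1 := (Filter.eventually_all_finset (II M)).2 fun i hi => (tend_div (i := (i:ℝ))
    (by exact_mod_cast (mem_II.1 hi).1)).eventually (hp1 (a (i.natAbs - 1)) δ hδ)
  have ev2 := (tend_div (i := (M:ℝ) + 1) (by positivity)).eventually (hp2 aP δ hδ)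
  obtain ⟨n, h1, ⟨C2, h2⟩, hn⟩ := (ev1.and (ev2.and (eventually_gt_atTop (2 * M + 2)))).exists
  choose! C1 h1 using h1
  have hn0 : 0 < n := by omega
  have hn' : (n:ℝ) ≠ 0 := by positivity
  obtain ⟨A, A_neg, A_off, A1, A3, A6, AL, AK, AI⟩ := exists_A hn a3 a6 (aL ((M + 1) / n))
    (aK aP ((M + 1) / n)) fun i => a1 (a (i.natAbs - 1)) (i / n)
  have R0 : ∀ (k : ℤ) (κ : ℝ), k ∉ PP n M → -k ∉ PP n M → Rr κ (A k).α (A k).α1 = 0 :=
    fun k κ h h' => by rw [A_off k h h', Rr_zero]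
  have q1 : ((n:ℤ):ℝ) / n = 1 := by push_cast; field_simp
  have q3 : ((3 * n : ℤ):ℝ) / n = 3 := by push_cast; field_simp
  have q4 : ((4 * n : ℤ):ℝ) / n = 4 := by push_cast; field_simp
  have qL : ((M + 1 : ℤ):ℝ) / n = (M + 1) / n := by push_cast; rfl
  have qK : ((2 * n - (M + 1) : ℤ):ℝ) / n = 2 - (M + 1) / n := by push_cast; field_simp
  have qI : ∀ i : ℤ, ((n + i : ℤ):ℝ) / n = 1 + i / n := fun i => by push_cast; field_simp
  have r1 : 2 * (n:ℤ) - n = n := by ring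
  have r2 : 2 * (n:ℤ) + n = 3 * n := by ring
  have r3 : 2 * (n:ℤ) - 3 * n = -n := by ring
  have r4 : 2 * (n:ℤ) + 4 * n = 6 * n := by ring
  have r5 : 2 * (n:ℤ) - (2 * n - (M + 1)) = M + 1 := by ring
  have r6 : ∀ i : ℤ, 2 * (n:ℤ) - (n + i) = n + -i := fun i => by ring
  have AI' : ∀ i ∈ II M, A (n + -i) = a1 (a (i.natAbs - 1)) (-(i / n)) := fun i hi => by
    rw [AI _ (by rw [mem_II] at hi ⊢; omega), Int.natAbs_neg, Int.cast_neg, neg_div]
  obtain ⟨Φ, Φ1, Φ2, ode, Φ_neg, Φ_2n, Φ_4n, ⟨e1, e2⟩, ⟨e3, e4⟩, e5, e6⟩ := exists_sol hn0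
    (fun k => -(Rr (k / n) (A (2 * n - k)).α (A (2 * n - k)).α1
      + Rr (-(k / n)) (A (2 * n + k)).α (A (2 * n + k)).α1))
    (fun k => by
      rw [Int.cast_neg, neg_div, neg_neg, sub_neg_eq_add, ← sub_eq_add_neg, add_comm])
    (by simpa only [q1, r1, r2, A1, A3] using oφ)
    (by
      rw [R0 (2 * n + 3 * n), q3, r3, A_neg, A1, add_zero]
      exacts [oψ, by rw [mem_PP]; omega, by rw [mem_PP]; omega])
    (by
      rw [R0 (2 * n - 4 * n), q4, r4, A6, zero_add]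
      exacts [oχ, by rw [mem_PP]; omega, by rw [mem_PP]; omega])
    (by
      rw [R0, R0, add_zero, neg_zero] <;> · rw [mem_PP]; omega)
    (by
      rw [R0, R0, add_zero, neg_zero] <;> · rw [mem_PP]; omega)
  refine build n hn0 (PP n M) (fun m hm => by rw [mem_PP] at hm; omega) A Φ Φ1 Φ2 A_neg A_off ode
    Φ_neg Φ_2n (by rw [mem_PP]; omega) (by rw [mem_PP]; omega) (by rw [mem_PP]; omega)
    (by rw [mem_PP]; omega) (fun k hk l hl => by rw [mem_PP] at hk hl; omega) A1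
    (by rw [A3]; exact hMo) (by rw [A6, Φ_4n]; exact hκ) ?_
  have hm : ∀ m ∈ PP n M, ∃ C ≥ 0, ∀ (v : D0) (Y : ℤ → H1) (e : ℝ), 0 ≤ e →
      Cn (((m:ℝ) / n) ^ 2 - 5) (A m) v (Y m) e →
      H1.nr (Y m) ≤ C * (PJ.nrm v + H1.nr (Y n) + e) := fun m hm => by
    by_cases h : m = n
    · exact ⟨1, zero_le_one, fun v Y e he _ => by
        rw [h]; linarith [apply_nonneg PJ.nrm v]⟩
    rw [mem_PP] at hm
    have k : ∀ c : ℤ, 0 ≤ c → ((m:ℝ) / n) ^ 2 = (c:ℝ) ^ 2 → m = c * n := fun c hc e => by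
      have hm0 : (0:ℝ) ≤ m := by exact_mod_cast (by omega : 0 ≤ m)
      rw [sq_eq_sq₀ (by positivity) (by exact_mod_cast hc), div_eq_iff hn'] at e
      exact_mod_cast e
    obtain ⟨C, hC, H⟩ := mode_le (m := ((m:ℝ) / n) ^ 2 - 5) (A m) (by nlinarith [sq_nonneg (m / n : ℝ)])
      (fun e => by have := k 2 (by norm_num) (by push_cast; linarith); omega)
      (fun e => by have := k 1 (by norm_num) (by push_cast; linarith); omega)
    exact ⟨C, hC, fun v Y e he h => (H _ _ _ he h).trans (mul_le_mul_of_nonneg_left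
      (by linarith [apply_nonneg H1.nr (Y n)]) hC)⟩
  choose! Cm hCm hm using hm
  have hS : 0 < 1 + ∑ m ∈ PP n M, Cm m := add_pos_of_pos_of_nonneg one_pos (Finset.sum_nonneg hCm)
  have hS' := div_pos (by positivity : 0 < w1 / 4) (pow_pos hS 2)
  refine ⟨w1 / 4 / (1 + ∑ m ∈ PP n M, Cm m) ^ 2, hS',
    w1 / 2 + (Cc + C2 + ∑ i ∈ II M, C1 i), fun v Y e hY Y_off hJ he hC => ?_⟩
  have off : ∀ (k : ℤ) (κ : ℝ) (y : H1), k ∉ PP n M → -k ∉ PP n M →
      Ex κ (A k) v (KT (Y n)) y (Y k) = 0 := fun k κ y h h' => by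
    rw [A_off k h h', Y_off k h h', Ex_zero]
  have c1 : Cn (-4) an v (Y n) e := by
    have := hC n (by rw [mem_PP]; omega)
    rw [q1, A1] at this; convert this using 1; norm_num
  have c3 : Cn 4 a3 v (Y (3 * n)) e := by
    have := hC (3 * n) (by rw [mem_PP]; omega)
    rw [q3, A3] at this; convert this using 1; norm_num
  have k0 := hch ⟨v, Y n, Y (3 * n), e, he, hJ, c1, c3⟩
  have k2 := h2 ⟨(M + 1) / n, Φ (2 * n - (M + 1)), Φ1 (2 * n - (M + 1)), Φ2 (2 * n - (M + 1)),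
    Φ (M + 1), Φ1 (M + 1), Φ2 (M + 1), v, Y n, Y (2 * n - (M + 1)), Y (M + 1), e, he,
    by
      have := ode (2 * n - (M + 1))
      rwa [R0 (2 * n + _) _ (by rw [mem_PP]; omega) (by rw [mem_PP]; omega), qK, r5, AL,
        add_zero] at this,
    by
      have := ode (M + 1)
      rwa [R0 (2 * n + _) _ (by rw [mem_PP]; omega) (by rw [mem_PP]; omega), qL, AK,
        add_zero] at this, c1,
    by simpa only [qK, AK] using hC (2 * n - (M + 1)) (by rw [mem_PP]; omega),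
    by simpa only [qL, AL] using hC (M + 1) (by rw [mem_PP]; omega)⟩ rfl
  have n1 := apply_nonneg PJ.nrm v
  have n2 := apply_nonneg H1.nr (Y n)
  have k1 : ∀ i ∈ II M, c0 * L2 v (a (i.natAbs - 1)) ^ 2
      - δ * cK ^ 2 * (PJ.nrm v + H1.nr (Y n)) ^ 2 - C1 i * e ^ 2
      ≤ -term n A Φ1 Φ2 v Y (n + i) := fun i hi => by
    have hi' := mem_II.1 hi
    have k := h1 i hi ⟨i / n, Φ (n + i), Φ1 (n + i), Φ2 (n + i), v, KT (Y n), Y (n + i),
      Y (n + -i), e, he,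
      by
        have := ode (n + i)
        rwa [R0 (2 * n + _) _ (by rw [mem_PP]; omega) (by rw [mem_PP]; omega), qI, r6, AI' i hi,
          add_zero] at this,
      by simpa only [qI, AI i hi] using hC (n + i) (by rw [mem_PP]; omega),
      by simpa only [qI, AI' i hi, Int.cast_neg, neg_div] using
        hC (n + -i) (by rw [mem_PP]; omega), c1.s2⟩ rfl
    rw [term, off (2 * n + _) _ _ (by rw [mem_PP]; omega) (by rw [mem_PP]; omega), qI, r6,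
      AI i hi, AI' i hi, add_zero]
    refine le_trans ?_ k
    have k' : (PJ.nrm v + H1.nr (KT (Y n))) ^ 2 ≤ (cK * (PJ.nrm v + H1.nr (Y n))) ^ 2 :=
      pow_le_pow_left₀ (add_nonneg n1 (apply_nonneg _ _)) (by nlinarith [hK (Y n)]) 2
    simp only [L2]
    nlinarith [mul_le_mul_of_nonneg_left k' hδ.le]
  have k3 := Finset.sum_le_sum k1
  rw [Finset.sum_sub_distrib, Finset.sum_sub_distrib, ← Finset.mul_sum, ← Finset.sum_mul _ C1,
    Finset.sum_const, nsmul_eq_mul, Finset.sum_neg_distrib] at k3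
  have k4 := mul_le_mul_of_nonneg_left (sum_II M (f := fun j => L2 v (a j) ^ 2)
    (fun _ => sq_nonneg _)) hc0.le
  have k5 : term n A Φ1 Φ2 v Y n + term n A Φ1 Φ2 v Y (3 * n) =
      q0 a3 φ1 φ2 ψ1 ψ2 v (Y n) (Y (3 * n)) := by
    rw [term, term, off (2 * n + 3 * n) _ _ (by rw [mem_PP]; omega) (by rw [mem_PP]; omega), q1,
      q3, r1, r2, r3, A_neg, hY, A1, A3, e1, e2, e3, e4, q0]
    ring
  have k6 : term n A Φ1 Φ2 v Y (6 * n) = 0 := by
    rw [term, off, off, e5, e6, Gf_zero, add_zero, add_zero] <;> · rw [mem_PP]; omega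
  have k7 : PJ.nrm v + ∑ m ∈ PP n M, H1.nr (Y m) ≤
      (1 + ∑ m ∈ PP n M, Cm m) * (PJ.nrm v + H1.nr (Y n) + e) := by
    have := Finset.sum_le_sum fun m h => hm m h v Y e he (hC m h)
    rw [← Finset.sum_mul] at this
    linarith
  have k8 : w1 / 4 / (1 + ∑ m ∈ PP n M, Cm m) ^ 2 * (PJ.nrm v + ∑ m ∈ PP n M, H1.nr (Y m)) ^ 2
      ≤ w1 / 2 * ((PJ.nrm v + H1.nr (Y n)) ^ 2 + e ^ 2) := by
    refine (mul_le_mul_of_nonneg_left (pow_le_pow_left₀
      (add_nonneg n1 (Finset.sum_nonneg fun _ _ => apply_nonneg _ _)) k7 2) hS'.le).trans ?_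
    rw [mul_pow, ← mul_assoc, div_mul_cancel₀ _ (pow_pos hS 2).ne']
    nlinarith [mul_nonneg hw1.le (sq_nonneg (PJ.nrm v + H1.nr (Y n) - e))]
  have k10 : term n A Φ1 Φ2 v Y (M + 1) = Gf (aL ((M + 1) / n)) (Φ1 (M + 1)) (Φ2 (M + 1)) v
      (KT (Y n)) (Y (M + 1)) + Ex ((M + 1) / n) (aK aP ((M + 1) / n)) v (KT (Y n)) (Y (M + 1))
        (Y (2 * n - (M + 1))) := by
    rw [term, off (2 * n + _) _ _ (by rw [mem_PP]; omega) (by rw [mem_PP]; omega), qL, AL, AK,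
      add_zero]
  have k11 : term n A Φ1 Φ2 v Y (2 * n - (M + 1)) = Gf (aK aP ((M + 1) / n))
      (Φ1 (2 * n - (M + 1))) (Φ2 (2 * n - (M + 1))) v (KT (Y n)) (Y (2 * n - (M + 1)))
      + Ex (2 - (M + 1) / n) (aL ((M + 1) / n)) v (KT (Y n)) (Y (2 * n - (M + 1))) (Y (M + 1)) := by
    rw [term, off (2 * n + _) _ _ (by rw [mem_PP]; omega) (by rw [mem_PP]; omega), qK, r5, AL, AK,
      add_zero]
  rw [sum_PP hn (term n A Φ1 Φ2 v Y), k6, k10, k11]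
  simp only [q2] at k2
  simp only [L1] at k0
  have k9 := congrArg (· * (PJ.nrm v + H1.nr (Y n)) ^ 2) hδ'
  linarith

end

end Pool.Agent.P.MP_0d657e_an.E

namespace Pool.Agent.P.MP_0d657e_an

theorem partE : ∃ Ds : Des, Ds.Pos := E.exists_pos

end Pool.Agent.P.MP_0d657e_an
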