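import Pool.Agent.P.MP_0d657e_an.D1
import Pool.Agent.P.MP_0d657e_an.Green
import Pool.Agent.P.MP_0d657e_an.Ocalc

/-! One dimensional tools: a priori estimates, density of cosine polynomials, explicit integrals. -/

open Set Real Filter Topology Asymptotics

namespace Pool.Agent.P.MP_0d657e_an.E

noncomputable section

lemma nr_le (y : H1) : H1.nr y ≤ 2 * PJ.nrm (H1.d y) := by
  have h : PJ.nrm (H1.f y) ≤ PJ.nrm (H1.d y) := Real.sqrt_le_sqrt (H1.poincare y)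
  rw [H1.nr_apply]; linarith

lemma sqrt_pi_le : √π ≤ 2 := by
  rw [sqrt_le_left (by norm_num)]; linarith [pi_le_four]

lemma nrm_le2 (y : D0) : PJ.nrm y ≤ 2 * ‖y‖ := by
  have := nrm_le_norm' y
  rw [sub_zero] at this
  exact this.trans (mul_le_mul_of_nonneg_right sqrt_pi_le (norm_nonneg _))

lemma norm_V_le2 (y : D0) : ‖V y‖ ≤ 2 * PJ.nrm y := by
  have := norm_V_le y
  rw [sub_zero] at this
  exact this.trans (mul_le_mul_of_nonneg_right sqrt_pi_le (apply_nonneg _ _))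

lemma f_eq_V (y : H1) : H1.f y = V (H1.d y) := by
  have := (H1.d1 y).eq_V
  rwa [H1.at_lo, map_zero, zero_add] at this

lemma norm_f_le (y : H1) : ‖H1.f y‖ ≤ 2 * PJ.nrm (H1.d y) := by
  rw [f_eq_V]; exact norm_V_le2 _

lemma J_mul_le (y z : D0) : |J (y * z)| ≤ PJ.nrm y * PJ.nrm z := PJ.abs_mul_le y z

lemma Q1_add (m : ℝ) (y z θ : H1) : Q1 m (y + z) θ = Q1 m y θ + Q1 m z θ := by
  simp only [Q1, map_add, add_mul, smul_add]; ring
lemma Q1_smul (m c : ℝ) (y θ : H1) : Q1 m (c • y) θ = c * Q1 m y θ := by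
  simp only [Q1, map_add, map_smul, smul_mul_assoc, smul_eq_mul]; ring
lemma Q1_sub (m : ℝ) (y z θ : H1) : Q1 m (y - z) θ = Q1 m y θ - Q1 m z θ := by
  simp only [Q1, map_add, map_sub, sub_mul, smul_sub]; ring
lemma Q1_comm (m : ℝ) (y θ : H1) : Q1 m y θ = Q1 m θ y := by
  simp only [Q1, mul_comm]

lemma Q1_ode {m : ℝ} (y θ : H1) {y2 : D0} (h : D1 (H1.d y) y2) :
    Q1 m y θ = -J ((y2 - m • H1.f y) * H1.f θ) := by
  have := H1.parts h θ
  simp only [Q1, map_add, map_sub, sub_mul, smul_mul_assoc, map_smul, smul_eq_mul, this]; ring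

lemma apriori0 : ∃ C > 0, ∀ (m : ℝ) (y : H1) (E : ℝ), -5 ≤ m →
    (∀ θ, |Q1 m y θ| ≤ E * H1.nr θ) → 0 ≤ E →
    H1.nr y ≤ C * (E + |J (H1.f y * s1)| + |J (H1.f y * s2)|) := by
  refine ⟨12, by norm_num, fun m y E hm h hE => ?_⟩
  have h1 := (le_abs_self _).trans (h y)
  have h2 := H1.gap y
  have h3 := nr_le y
  have h4 : PJ.nrm (H1.d y) ^ 2 = J (H1.d y * H1.d y) := PJ.nrm_sq _
  have h5 := JJ_nonneg (H1.f y)
  have h6 : 2 / π ≤ 1 := by rw [div_le_one pi_pos]; linarith [pi_gt_three]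
  have h7 : 0 ≤ 2 / π := by positivity
  rw [Q1, map_add, map_smul, smul_eq_mul] at h1
  rw [← sq_abs (J (H1.f y * s1)), ← sq_abs (J (H1.f y * s2))] at h2
  have a1 := abs_nonneg (J (H1.f y * s1))
  have a2 := abs_nonneg (J (H1.f y * s2))
  have hW := apply_nonneg PJ.nrm (H1.d y)
  generalize |J (H1.f y * s1)| = a at *
  generalize |J (H1.f y * s2)| = c at *
  generalize PJ.nrm (H1.d y) = W at *
  have h8 : 4 * W ^ 2 ≤ 18 * E * W + 40 * (a ^ 2 + c ^ 2) := by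
    nlinarith [mul_le_mul_of_nonneg_left h3 hE, mul_le_mul_of_nonneg_right h6 (sq_nonneg a),
      mul_le_mul_of_nonneg_right h6 (sq_nonneg c), mul_nonneg h7 (sq_nonneg c),
      mul_nonneg (by linarith : 0 ≤ m + 5) h5]
  have h9 : W ≤ 6 * (E + a + c) := by
    by_contra hc
    push Not at hc
    nlinarith [mul_nonneg hE a1, mul_nonneg hE a2, mul_nonneg a1 a2, mul_nonneg hE hW]
  linarith

lemma coef_le {m j E r : ℝ} {x N : ℝ} (h : |(j + m) * x| ≤ E * N) (hr : 0 < r) (hE : 0 ≤ E)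
    (hN : 0 ≤ N) (h' : x = 0 ∨ r ≤ |m + j|) : |x| ≤ N / r * E := by
  rcases h' with h' | h'
  · rw [h', abs_zero]; positivity
  · rw [abs_mul, add_comm] at h
    rw [div_mul_eq_mul_div, le_div_iff₀ hr]
    nlinarith [mul_le_mul_of_nonneg_right h' (abs_nonneg x)]

/-- a priori estimate away from the resonances -/
lemma apriori {r : ℝ} (hr : 0 < r) : ∃ C > 0, ∀ (m : ℝ) (y : H1) (E : ℝ), -5 ≤ m →
    (∀ θ, |Q1 m y θ| ≤ E * H1.nr θ) → 0 ≤ E → (J (H1.f y * s1) = 0 ∨ r ≤ |m + 1|) →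
    (J (H1.f y * s2) = 0 ∨ r ≤ |m + 4|) → H1.nr y ≤ C * E := by
  obtain ⟨C, hC, H⟩ := apriori0
  have n1 := apply_nonneg H1.nr S1
  have n2 := apply_nonneg H1.nr S2
  refine ⟨C * (1 + H1.nr S1 / r + H1.nr S2 / r), by positivity, fun m y E hm h hE h1 h2 => ?_⟩
  have k1 := coef_le (Q1_S1 m y ▸ h S1) hr hE n1 h1
  have k2 := coef_le (Q1_S2 m y ▸ h S2) hr hE n2 h2
  refine (H m y E hm h hE).trans ?_
  rw [mul_assoc]
  exact mul_le_mul_of_nonneg_left (by linarith) hC.le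

/-- removing a resonant mode -/
lemma Q1_proj {m E l : ℝ} {y e : H1} (he : ∀ z, Q1 m z e = l * J (H1.f z * H1.f e))
    (h : ∀ θ, |Q1 m y θ| ≤ E * H1.nr θ) (θ : H1) :
    |Q1 m (y - (2 / π * J (H1.f y * H1.f e)) • e) θ| ≤ (1 + H1.nr e * H1.nr e) * E * H1.nr θ := by
  have e1 : Q1 m (y - (2 / π * J (H1.f y * H1.f e)) • e) θ =
      Q1 m y θ - 2 / π * (J (H1.f θ * H1.f e) * Q1 m y e) := by
    rw [Q1_sub, Q1_smul, Q1_comm m e, he, he]; ring
  have h6 : 2 / π ≤ 1 := by rw [div_le_one pi_pos]; linarith [pi_gt_three]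
  have h7 : 0 ≤ 2 / π := by positivity
  have h1 : |J (H1.f θ * H1.f e)| ≤ H1.nr θ * H1.nr e := (J_mul_le _ _).trans
    (mul_le_mul (H1.f_le _) (H1.f_le _) (apply_nonneg _ _) (apply_nonneg _ _))
  have h2 := mul_le_mul h1 (h e) (abs_nonneg _) (by positivity)
  rw [e1]
  refine (abs_sub _ _).trans ?_
  rw [abs_mul, abs_of_nonneg h7, abs_mul]
  have h3 := mul_le_mul h6 h2 (by positivity) zero_le_one
  linarith [h θ]

/-- a classical solution of the Dirichlet problem -/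
structure Ode (l : ℝ) (φ φ1 φ2 F : D0) : Prop where
  d0 : D1 φ φ1
  d1 : D1 φ1 φ2
  lo : φ lo = 0
  hi : φ hi = 0
  eq : φ2 + l • φ = F

namespace Ode
variable {l : ℝ} {φ φ1 φ2 F : D0}
/-- the solution as an element of `H1` -/
def h1 (h : Ode l φ φ1 φ2 F) : H1 := H1.mk φ φ1 h.d0 h.lo h.hi
@[simp] lemma f_h1 (h : Ode l φ φ1 φ2 F) : H1.f h.h1 = φ := rfl
@[simp] lemma d_h1 (h : Ode l φ φ1 φ2 F) : H1.d h.h1 = φ1 := rfl
lemma weak (h : Ode l φ φ1 φ2 F) (θ : H1) : Q1 (-l) h.h1 θ = -J (F * H1.f θ) := by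
  rw [Q1_ode (y := h.h1) θ h.d1, f_h1, neg_smul, sub_neg_eq_add, h.eq]
lemma sub {ψ ψ1 ψ2 G : D0} {l' : ℝ} (h : Ode l φ φ1 φ2 F) (k : Ode l' ψ ψ1 ψ2 G) :
    Ode l (φ - ψ) (φ1 - ψ1) (φ2 - ψ2) (F - G - (l - l') • ψ) :=
  ⟨h.d0.sub k.d0, h.d1.sub k.d1, by simp [h.lo, k.lo], by simp [h.hi, k.hi], by
    rw [← h.eq, ← k.eq]; module⟩
lemma orth1 (h : Ode l φ φ1 φ2 F) (hl : l ≠ 1) (hF : J (F * s1) = 0) : J (φ * s1) = 0 := by
  have := h.weak S1
  rw [Q1_S1, f_S1, hF, neg_zero, f_h1] at this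
  exact (mul_eq_zero.1 this).resolve_left (fun e => hl (by linarith))
lemma orth2 (h : Ode l φ φ1 φ2 F) (hl : l ≠ 4) (hF : J (F * s2) = 0) : J (φ * s2) = 0 := by
  have := h.weak S2
  rw [Q1_S2, f_S2, hF, neg_zero, f_h1] at this
  exact (mul_eq_zero.1 this).resolve_left (fun e => hl (by linarith))
end Ode

lemma Ode.bound : ∃ C > 0, ∀ {l : ℝ} {φ φ1 φ2 F : D0}, Ode l φ φ1 φ2 F → |l| ≤ 5 →
    (J (φ * s1) = 0 ∨ 1/2 ≤ |-l + 1|) → (J (φ * s2) = 0 ∨ 1/2 ≤ |-l + 4|) →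
    ‖φ1‖ ≤ C * ‖F‖ ∧ ‖φ2‖ ≤ C * ‖F‖ := by
  obtain ⟨C, hC, H⟩ := apriori (r := 1/2) (by norm_num)
  refine ⟨4 * (1 + 20 * C), by positivity, fun {l φ φ1 φ2 F} h hl h1 h2 => ?_⟩
  have k := H (-l) h.h1 (2 * ‖F‖) (by linarith [(abs_le.1 hl).2]) (fun θ => by
    rw [h.weak, abs_neg]
    exact (J_mul_le _ _).trans (mul_le_mul (nrm_le2 F) (H1.f_le _) (apply_nonneg _ _)
      (by positivity))) (by positivity) h1 h2
  have k1 : ‖φ‖ ≤ 2 * (C * (2 * ‖F‖)) :=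
    (norm_f_le h.h1).trans (mul_le_mul_of_nonneg_left ((H1.d_le _).trans k) zero_le_two)
  have k2 : ‖φ2‖ ≤ (1 + 20 * C) * ‖F‖ := by
    rw [eq_sub_of_add_eq h.eq]
    refine (norm_sub_le _ _).trans ?_
    rw [norm_smul, Real.norm_eq_abs]
    nlinarith [mul_le_mul hl k1 (norm_nonneg _) (by norm_num)]
  have k3 := norm_d_le h.d0 h.d1 h.lo h.hi
  have k4 : 0 ≤ (1 + 20 * C) * ‖F‖ := by positivity
  constructor
  · nlinarith [mul_le_mul pi_le_four k2 (norm_nonneg _) (by norm_num)]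
  · nlinarith

lemma exists_ode {l : ℝ} {P : D0 →L[ℝ] D0} (G : Gr l P) {F : D0} (hF : P F = 0) :
    Ode l (G.G0 F) (G.G1 F) (F - l • G.G0 F) F :=
  ⟨G.d0 F, by simpa [hF] using G.d1 F, G.lo F, G.hi F, by abel⟩

/-- derivative of the Hadamard quotient -/
lemma exists_Qd' : ∃ A B : D0 →L[ℝ] D0, ∀ g g', D1 g g' → D1 (Qd g) (A g + B g') := by
  obtain ⟨σ', hσ, -⟩ := Sd_σi 1
  refine ⟨(ContinuousLinearMap.mul ℝ D0 σ').comp Bv, (ContinuousLinearMap.mul ℝ D0 σi).comp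
    (Av 1 - rf.comp ((Av 1).comp rf)), fun g g' h => ?_⟩
  refine (hσ.mul ((h.Av 0).sub (h.rf.Av 0).rf)).congr rfl ?_
  simp [Bv_apply, mul_sub]

/-- first part of the derivative of the quotient -/
def QA : D0 →L[ℝ] D0 := exists_Qd'.choose
/-- second part of the derivative of the quotient -/
def QB : D0 →L[ℝ] D0 := exists_Qd'.choose_spec.choose
lemma D1_Qd {g g' : D0} (h : D1 g g') : D1 (Qd g) (QA g + QB g') :=
  exists_Qd'.choose_spec.choose_spec g g' h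

lemma Ode.quot {l : ℝ} {φ φ1 φ2 F : D0} (h : Ode l φ φ1 φ2 F) :
    c1 * Qd φ1 + s1 * (QA φ1 + QB φ2) = φ1 :=
  D1.unique pi_pos (D1_s1.mul (D1_Qd h.d1)) (by rw [s1_mul_Qd h.d0 h.lo h.hi]; exact h.d0)

lemma J_pos {y : D0} (h : ∀ t, 0 ≤ y t) {t : Icc (0:ℝ) π} (ht : y t ≠ 0) : 0 < J y := by
  rw [J_apply]
  refine intervalIntegral.integral_pos pi_pos (ext_cont y).continuousOn (fun x _ => h _)
    ⟨t, t.2, ?_⟩
  rw [ext_coe]
  exact lt_of_le_of_ne (h t) ht.symm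

/-- the midpoint -/
def mid : Icc (0:ℝ) π := ⟨π / 2, by positivity, by linarith [pi_pos]⟩
@[simp] lemma mid_coe : (mid : ℝ) = π / 2 := rfl

lemma posW {f : D0} (h0 : 0 < f lo) (h1 : 0 < f hi) :
    ∃ c : ℝ, ∃ w > 0, ∀ t, w ≤ f t + c * (s1 t * s1 t) := by
  have hpos : ∀ t, f t ≤ 0 → 0 < s1 t * s1 t := fun t ht => by
    have a : (t:ℝ) ≠ 0 := fun e => by rw [show t = lo from Subtype.ext e] at ht; linarith
    have c : (t:ℝ) ≠ π := fun e => by rw [show t = hi from Subtype.ext e] at ht; linarith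
    exact mul_self_pos.2 (by
      rw [s1_apply]
      exact (sin_pos_of_pos_of_lt_pi (lt_of_le_of_ne t.2.1 a.symm) (lt_of_le_of_ne t.2.2 c)).ne')
  have key : ∃ c : ℝ, ∀ t, 0 < f t + c * (s1 t * s1 t) := by
    by_cases hne : ({t | f t ≤ 0} : Set (Icc (0:ℝ) π)).Nonempty
    · obtain ⟨s, hs, hm⟩ := (isClosed_le f.continuous continuous_const).isCompact.exists_isMinOn
        hne (s1 * s1).continuous.continuousOn
      have hs' := hpos s hs
      refine ⟨(‖f‖ + 1) / (s1 s * s1 s), fun t => ?_⟩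
      by_cases ht : f t ≤ 0
      · have h2 : s1 s * s1 s ≤ s1 t * s1 t := hm ht
        have h3 := mul_le_mul_of_nonneg_left h2 (by positivity : 0 ≤ (‖f‖ + 1) / (s1 s * s1 s))
        rw [div_mul_cancel₀ _ hs'.ne'] at h3
        linarith [(abs_le.1 (f.norm_coe_le_norm t)).1]
      · exact add_pos_of_pos_of_nonneg (not_le.1 ht) (mul_nonneg (by positivity)
          (mul_self_nonneg _))
    · exact ⟨0, fun t => by simpa using not_le.1 (fun h => hne ⟨t, h⟩)⟩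
  obtain ⟨c, hc⟩ := key
  obtain ⟨s, -, hm⟩ := isCompact_univ.exists_isMinOn ⟨lo, mem_univ _⟩
    (f + c • (s1 * s1)).continuous.continuousOn
  exact ⟨c, _, hc s, fun t => hm (mem_univ t)⟩

/-- cosine polynomials -/
def CP : Submodule ℝ D0 := Submodule.span ℝ (range fun j : ℤ => (cs j : D0))

lemma CP_dense (y : D0) {δ : ℝ} (hδ : 0 < δ) : ∃ Q ∈ CP, ‖y - Q‖ ≤ δ := by
  have hcs : ∀ j : ℤ, (cs j : D0) ∈ CP := fun j => Submodule.subset_span ⟨j, rfl⟩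
  have h1 : (1 : D0) ∈ CP := by simpa using hcs 0
  have hmul : ∀ x y : D0, x ∈ CP → y ∈ CP → x * y ∈ CP := by
    intro x y hx hy
    refine Submodule.span_induction₂ (p := fun x y _ _ => x * y ∈ CP) ?_ ?_ ?_ ?_ ?_ ?_ ?_ hx hy
    · rintro _ _ ⟨j, rfl⟩ ⟨k, rfl⟩
      rw [cs_mul_cs]
      refine CP.smul_mem _ (CP.add_mem ?_ ?_)
      · simpa using hcs (j + k)
      · simpa using hcs (j - k)
    · intro y _; simp
    · intro x _; simp
    · intro x y z _ _ _ h1 h2; rw [add_mul]; exact CP.add_mem h1 h2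
    · intro x y z _ _ _ h1 h2; rw [mul_add]; exact CP.add_mem h1 h2
    · intro r x y _ _ h1; rw [smul_mul_assoc]; exact CP.smul_mem _ h1
    · intro r x y _ _ h1; rw [mul_smul_comm]; exact CP.smul_mem _ h1
  let A : Subalgebra ℝ C(Icc (0:ℝ) π, ℝ) := CP.toSubalgebra h1 hmul
  have hA : A.SeparatesPoints := fun s t hst =>
    ⟨_, ⟨(cs (1:ℤ) : D0), hcs 1, rfl⟩, fun e => hst (Subtype.ext (injOn_cos s.2 t.2 (by
      have e' : (cs ((1:ℤ):ℝ) : D0) s = (cs ((1:ℤ):ℝ) : D0) t := e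
      simpa using e')))⟩
  obtain ⟨g, hg⟩ := ContinuousMap.exists_mem_subalgebra_near_continuousMap_of_separatesPoints A hA
    y.cm δ hδ
  exact ⟨D.of g, g.2, by rw [norm_sub_rev]; exact hg.le⟩

lemma CP_d {Q : D0} (h : Q ∈ CP) : ∃ Q', D1 Q Q' := by
  induction h using Submodule.span_induction with
  | mem x hx => obtain ⟨j, rfl⟩ := hx; exact ⟨_, D1_cs _⟩
  | zero => exact ⟨_, D1_zero⟩
  | add x y _ _ h1 h2 => exact ⟨_, h1.choose_spec.add h2.choose_spec⟩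
  | smul r x _ h1 => exact ⟨_, h1.choose_spec.smul r⟩

/-- pairing with the derivative is a compact functional -/
lemma compact_fun (Ξ : D0) {δ : ℝ} (hδ : 0 < δ) : ∃ C ≥ 0, ∀ y : H1,
    |J (Ξ * H1.d y)| ≤ δ * PJ.nrm (H1.d y) + C * PJ.nrm (H1.f y) := by
  obtain ⟨Q, hQ, h⟩ := CP_dense Ξ (half_pos hδ)
  obtain ⟨Q', hQ'⟩ := CP_d hQ
  refine ⟨PJ.nrm Q', apply_nonneg _ _, fun y => ?_⟩
  have e : J (Ξ * H1.d y) = J ((Ξ - Q) * H1.d y) - J (Q' * H1.f y) := by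
    rw [H1.parts hQ' y, sub_mul, map_sub]; ring
  rw [e]
  refine (abs_sub _ _).trans (add_le_add ((J_mul_le _ _).trans ?_) (J_mul_le _ _))
  exact mul_le_mul_of_nonneg_right ((nrm_le2 _).trans (by linarith)) (apply_nonneg _ _)

/-- smooth functions -/
def Smo (y : D0) : Prop := ∀ m, Sd m y

lemma Smo.add {y z : D0} (h : Smo y) (k : Smo z) : Smo (y + z) := fun m => (h m).add (k m)
lemma Smo.sub {y z : D0} (h : Smo y) (k : Smo z) : Smo (y - z) := fun m => (h m).sub (k m)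
lemma Smo.mul {y z : D0} (h : Smo y) (k : Smo z) : Smo (y * z) := fun m => (h m).mul (k m)
lemma Smo.neg {y : D0} (h : Smo y) : Smo (-y) := fun m => (h m).neg
lemma Smo.smul {y : D0} (c : ℝ) (h : Smo y) : Smo (c • y) := fun m => (h m).smul c
lemma Smo_s1 : Smo s1 := Sd_s1
lemma Smo_c1 : Smo c1 := Sd_c1
lemma Smo_ex (r : ℝ) : Smo (ex r) := Sd_ex r
lemma Smo_om : Smo om := Sd_ex _
lemma Smo_zero : Smo 0 := Sd_zero
lemma Smo_one : Smo 1 := fun m => by simpa using Sd_const (a := 0) (b := π) 1 m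
lemma Smo.d {y y' : D0} (h : Smo y) (k : D1 y y') : Smo y' := fun m => by
  obtain ⟨z, hz, hm⟩ := h (m + 1)
  rwa [D1.unique pi_pos k hz]
lemma Smo.ex_d {y : D0} (h : Smo y) : ∃ y', D1 y y' ∧ Smo y' := by
  obtain ⟨z, hz, -⟩ := h 1
  exact ⟨z, hz, h.d hz⟩
lemma Smo.of_d {y y' : D0} (k : D1 y y') (h : Smo y') : Smo y
  | 0 => trivial
  | m + 1 => ⟨y', k, h m⟩

/-- functions of the form `p sin 2t + r sin t` with `p` smooth -/
def Dv (h : D0) : Prop := ∃ (p : D0) (r : ℝ), Smo p ∧ h = p * s2 + r • s1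

lemma Dv.add {y z : D0} (h : Dv y) (k : Dv z) : Dv (y + z) := by
  obtain ⟨p, r, hp, rfl⟩ := h
  obtain ⟨q, s, hq, rfl⟩ := k
  exact ⟨p + q, r + s, hp.add hq, by rw [add_mul, add_smul]; abel⟩
lemma Dv.smul {y : D0} (c : ℝ) (h : Dv y) : Dv (c • y) := by
  obtain ⟨p, r, hp, rfl⟩ := h
  exact ⟨c • p, c * r, hp.smul c, by rw [smul_add, smul_mul_assoc, smul_smul]⟩
lemma Dv_zero : Dv 0 := ⟨0, 0, Smo_zero, by simp⟩

lemma Dv_sn (j : ℤ) : Dv (sn j) := by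
  have step : ∀ j : ℝ, (sn (j + 2) : D0) = sn (j - 2) + (2:ℝ) • (cs j * s2) := fun j => by
    ext t; simp [add_mul, sub_mul, sin_add, sin_sub]; ring
  have hc : ∀ j : ℝ, Dv (cs j * s2) := fun j => ⟨cs j, 0, fun m => (Sd_sn_cs j m).2, by simp⟩
  have h0 : Dv (sn (0:ℝ)) := by simpa using Dv_zero
  have h1 : Dv (sn (1:ℝ)) := ⟨0, 1, Smo_zero, by simp [s1]⟩
  have h2 : Dv (sn (2:ℝ)) := ⟨1, 0, Smo_one, by simp [s2]⟩
  have hneg : ∀ j : ℝ, Dv (sn j) → Dv (sn (-j)) := fun j h => by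
    rw [sn_neg, ← neg_one_smul ℝ]; exact h.smul _
  have hn : ∀ n : ℕ, Dv (sn ((n:ℝ) - 2)) ∧ Dv (sn ((n:ℝ) - 1)) ∧ Dv (sn (n:ℝ))
      ∧ Dv (sn ((n:ℝ) + 1)) := by
    intro n
    induction n with
    | zero => simpa using ⟨hneg _ h2, hneg _ h1, Dv_zero, h1⟩
    | succ n ih =>
      push_cast
      refine ⟨by convert ih.2.1 using 2; ring, by convert ih.2.2.1 using 2; ring, ih.2.2.2, ?_⟩
      rw [add_assoc, one_add_one_eq_two, step]
      exact ih.1.add ((hc _).smul _)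
  obtain ⟨n, rfl | rfl⟩ := j.eq_nat_or_neg
  · simpa using (hn n).2.2.1
  · simpa using hneg _ (hn n).2.2.1

lemma CP_prim {Q : D0} (h : Q ∈ CP) : ∃ (P : H1) (r : ℝ), Dv (H1.f P) ∧ Q = H1.d P + r • 1 := by
  induction h using Submodule.span_induction with
  | mem x hx =>
    obtain ⟨j, rfl⟩ := hx
    by_cases hj : j = 0
    · exact ⟨0, 1, by simpa using Dv_zero, by simp [hj]⟩
    · refine ⟨(j:ℝ)⁻¹ • SN j, 0, by simpa using (Dv_sn j).smul _, ?_⟩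
      simp [smul_smul, inv_mul_cancel₀ (show (j:ℝ) ≠ 0 by exact_mod_cast hj)]
  | zero => exact ⟨0, 0, by simpa using Dv_zero, by simp⟩
  | add x y _ _ h1 h2 =>
    obtain ⟨P, r, hP, rfl⟩ := h1
    obtain ⟨Q, s, hQ, rfl⟩ := h2
    exact ⟨P + Q, r + s, by simpa using hP.add hQ, by rw [map_add, add_smul]; abel⟩
  | smul c x _ h1 =>
    obtain ⟨P, r, hP, rfl⟩ := h1
    exact ⟨c • P, c * r, by simpa using hP.smul c, by rw [map_smul, smul_add, smul_smul]⟩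

lemma Dv_dense (Z : H1) {δ : ℝ} (hδ : 0 < δ) : ∃ P : H1, Dv (H1.f P) ∧ ‖H1.d (Z - P)‖ ≤ δ := by
  obtain ⟨Q, hQ, h⟩ := CP_dense (H1.d Z) (half_pos hδ)
  obtain ⟨P, r, hP, rfl⟩ := CP_prim hQ
  refine ⟨P, hP, ?_⟩
  have h1 := abs_integral_ext_le (H1.d Z - (H1.d P + r • 1)) 0 π
  rw [← J_apply, map_sub, map_add, H1.J_d, H1.J_d, map_smul, J_one, smul_eq_mul, sub_zero,
    zero_add, zero_sub, abs_neg, abs_mul] at h1
  have h2 : |r| ≤ δ / 2 := (le_of_mul_le_mul_right h1 (abs_pos.2 pi_pos.ne')).trans h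
  have e : H1.d (Z - P) = (H1.d Z - (H1.d P + r • 1)) + r • 1 := by rw [map_sub]; abel
  rw [e]
  refine (norm_add_le _ _).trans ?_
  have h3 : ‖r • (1:D0)‖ ≤ |r| := D.norm_le (abs_nonneg _) (fun t => by simp)
  linarith

lemma D1_pow {y y' : D0} (h : D1 y y') : ∀ n : ℕ, D1 (y ^ (n + 1)) (((n:ℝ) + 1) • (y ^ n * y'))
  | 0 => by simpa using h
  | n + 1 => ((D1_pow h n).mul h).congr (pow_succ _ _) (by
      simp only [Algebra.smul_def, map_add, map_natCast, map_one, Nat.cast_add, Nat.cast_one]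
      ring)

lemma J_om {Q Q' P : D0} (h : D1 Q Q') (e : P = Q' - b • Q) :
    J (om * P) = exp (-b * π) * Q hi - Q lo := by
  have := ((D1_om.mul h).congr' (z' := om * P) (by
    rw [e]; simp only [Algebra.smul_def]; ring)).J_eq
  simpa using this

/-- weight of the solvability condition -/
def ρ (κ : ℝ) : D0 := -((2 / 3 * (κ + 2)) • s1 ^ 3) + s1 * c1 * (c1 + b • s1)

lemma J_Rr (κ : ℝ) {α α1 : D0} (h : D1 α α1) : J (s2 * Rr κ α α1) = J (α1 * ρ κ) := by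
  have h1 := (h.mul (D1_pow D1_s1 2)).J_zero (by simp) (by simp)
  have e : s2 * Rr κ α α1 = α1 * ρ κ + (2 / 3 * (κ + 2)) •
      (α1 * s1 ^ (2 + 1) + α * (((2:ℕ):ℝ) + 1) • (s1 ^ 2 * c1)) := by
    ext t
    simp [Rr, ρ, sin_two_mul]
    ring
  rw [e, map_add, map_smul, h1, smul_zero, add_zero]

lemma J_ρ1 : J (om * ρ 1) = (exp (-b * π) + 1) / 14 := by
  have h := (((D1_pow D1_c1 2).smul (-1/14)).add (((D1_pow D1_s1 1).mul D1_c1).smul (3/14))).add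
    ((((D1_s1.mul (D1_pow D1_c1 1)).smul (-1/14)).add ((D1_pow D1_s1 2).smul (5/14))).smul b)
  rw [J_om h (by
    ext t
    simp [ρ]
    linear_combination (-(sin t * cos t ^ 2) / 14 + 5 / 14 * sin t ^ 3) * b_sq)]
  simp; ring

lemma J_κ1 : J (om * (c1 * (s2 * s2 + (2:ℝ) • c2 * (2:ℝ) • c2) - s1 * s2 * (2:ℝ) • c2))
    = 10 / 21 * b * (exp (-b * π) + 1) := by
  have h := ((((D1_s1.mul (D1_pow D1_c1 3)).smul (34/21)).add
    (((D1_pow D1_s1 2).mul (D1_pow D1_c1 1)).smul (-8/7))).add ((D1_pow D1_s1 4).smul (4/7))).add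
    (((((D1_pow D1_c1 4).smul (-10/21)).add (((D1_pow D1_s1 1).mul (D1_pow D1_c1 2)).smul
      (-8/21))).add (((D1_pow D1_s1 3).mul D1_c1).smul (-4/7))).smul b)
  rw [J_om h (by
    ext t
    simp [sin_two_mul, cos_two_mul']
    linear_combination (-(10 / 21) * cos t ^ 5 - 8 / 21 * sin t ^ 2 * cos t ^ 3
      - 4 / 7 * sin t ^ 4 * cos t) * b_sq)]
  simp; ring

end

end Pool.Agent.P.MP_0d657e_an.E
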