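import Pool.Agent.P.MP_0d657e_an.PosE1

/-! The building blocks of the second order form and their size. -/

open Set Real Filter Topology Asymptotics

namespace Pool.Agent.P.MP_0d657e_an.E

noncomputable section

/-- a smooth function with its first three derivatives -/
structure SJ where
  α : D0
  α1 : D0
  α2 : D0
  α3 : D0
  h0 : D1 α α1
  h1 : D1 α1 α2
  h2 : D1 α2 α3
  smo : Smo α

namespace SJ

/-- the jet of a smooth function -/
def of (α : D0) (h : Smo α) : SJ :=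
  ⟨α, _, _, _, h.ex_d.choose_spec.1, h.ex_d.choose_spec.2.ex_d.choose_spec.1,
    h.ex_d.choose_spec.2.ex_d.choose_spec.2.ex_d.choose_spec.1, h⟩
/-- zero -/
def zero : SJ := ⟨0, 0, 0, 0, D1_zero, D1_zero, D1_zero, Smo_zero⟩
/-- sum -/
def add (a c : SJ) : SJ := ⟨a.α + c.α, a.α1 + c.α1, a.α2 + c.α2, a.α3 + c.α3, a.h0.add c.h0,
  a.h1.add c.h1, a.h2.add c.h2, a.smo.add c.smo⟩
/-- multiple -/
def smul (r : ℝ) (a : SJ) : SJ := ⟨r • a.α, r • a.α1, r • a.α2, r • a.α3, a.h0.smul r,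
  a.h1.smul r, a.h2.smul r, a.smo.smul r⟩
/-- the forcing profile -/
def g (a : SJ) : D0 := b⁻¹ • (ex b * a.α1)
/-- its derivative -/
def g' (a : SJ) : D0 := b⁻¹ • (ex b * (a.α2 + b • a.α1))

lemma D1_g (a : SJ) : D1 a.g a.g' :=
  (((D1_ex b).mul a.h1).smul b⁻¹).congr' (by
    simp only [g', mul_add, mul_smul_comm, smul_mul_assoc, add_comm])

/-- the jet with a given forcing profile -/
def prim (p : D0) (h : Smo p) : SJ :=
  of (V (b • (om * p))) (Smo.of_d (D1_V _) ((Smo_om.mul h).smul b))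

lemma prim_α1 (p : D0) (h : Smo p) : (prim p h).α1 = b • (om * p) :=
  D1.unique pi_pos (prim p h).h0 (D1_V _)

lemma g_of {a : SJ} {p : D0} (h : a.α1 = b • (om * p)) : a.g = p := by
  rw [g, h, mul_smul_comm, smul_smul, inv_mul_cancel₀ b_pos.ne', one_smul, ← mul_assoc,
    mul_comm (ex b), om_mul_ex, one_mul]

lemma prim_g (p : D0) (h : Smo p) : (prim p h).g = p := g_of (prim_α1 p h)

lemma α1_eq (a : SJ) : a.α1 = b • (om * a.g) := by
  rw [g, mul_smul_comm, smul_smul, mul_inv_cancel₀ b_pos.ne', one_smul, ← mul_assoc, om_mul_ex,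
    one_mul]

lemma smo_g (a : SJ) : Smo a.g := ((Smo_ex b).mul (a.smo.d a.h0)).smul _

lemma g_add (a c : SJ) : (a.add c).g = a.g + c.g := by simp [g, add, mul_add]
lemma g_smul (r : ℝ) (a : SJ) : (a.smul r).g = r • a.g := by
  simp only [g, smul, mul_smul_comm, smul_comm r]

end SJ

/-- the jet of the resonant mode -/
def an : SJ := SJ.of (-om) Smo_om.neg
lemma an_α : an.α = -om := rfl
lemma an_α1 : an.α1 = b • om := D1.unique pi_pos an.h0 (by simpa [an_α] using D1_om.neg)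
lemma an_g : an.g = 1 := SJ.g_of (by rw [an_α1, mul_one])
lemma an_g' : an.g' = 0 := D1.unique pi_pos an.D1_g (by rw [an_g]; exact D1_one)

/-- pairing of `v` with the derivative of a product -/
def Tv (v P P' : D0) (y : H1) : ℝ := J (v * (P' * H1.f y + P * H1.d y))

/-- coupling through the linearised operator -/
def β (o : SJ) (κ : ℝ) (y K : H1) : ℝ :=
  J (o.α * (H1.d y * H1.d K - (2 * κ) • (H1.f y * H1.f K))
    - (5:ℝ) • ((o.α + b⁻¹ • o.α1) * H1.f y * H1.f K))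

/-- coupling through the zeroth order tensor -/
def tq (κ : ℝ) (y z : H1) : ℝ :=
  (1/2 : ℝ) * J (om * (-(c1 * ((κ * (2 - κ)) • (H1.f y * H1.f z) + H1.d y * H1.d z))
    + κ • (s1 * H1.f y * H1.d z)))

/-- terms containing the first order kernel element -/
def Gf (a : SJ) (φ1 φ2 v : D0) (K y : H1) : ℝ :=
  2 * Tv v (a.g * Qd φ1) (a.g' * Qd φ1 + a.g * (QA φ1 + QB φ2)) K - 2 * Tv v φ1 φ2 y

/-- the other terms -/
def Ex (κ : ℝ) (o : SJ) (v : D0) (K y z : H1) : ℝ :=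
  β o κ y K + Tv v (tE κ o.α o.α1 o.α2) (tE' κ o.α o.α1 o.α2 o.α3) y + tq κ y z

/-- approximate equation of a mode -/
def Cn (m : ℝ) (a : SJ) (v : D0) (y : H1) (e : ℝ) : Prop :=
  ∀ θ, |Q1 m y θ - Tv v a.g a.g' θ| ≤ e * H1.nr θ

/-- pairing of `v` with a derivative -/
def Ad (v : D0) (h : H1) : ℝ := J (v * H1.d h)

lemma Tv_eq (v : D0) {P P' : D0} (h : D1 P P') (y : H1) : Tv v P P' y = Ad v (H1.mulL h y) := rfl

lemma Ad_add (v : D0) (y z : H1) : Ad v (y + z) = Ad v y + Ad v z := by simp [Ad, mul_add]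
lemma Ad_sub (v : D0) (y z : H1) : Ad v (y - z) = Ad v y - Ad v z := by simp [Ad, mul_sub]
lemma Ad_smul (v : D0) (c : ℝ) (y : H1) : Ad v (c • y) = c * Ad v y := by simp [Ad]
lemma Ad_congr (v : D0) {y z : H1} (h : H1.f y = H1.f z) : Ad v y = Ad v z := by rw [H1.ext' h]

lemma Cn.base {v : D0} {w : H1} {e : ℝ} (h : Cn (-4) an v w e) (θ : H1) :
    |Q1 (-4) w θ - Ad v θ| ≤ e * H1.nr θ := by
  simpa [Tv, an_g, an_g', Ad] using h θ

lemma Cn.s2 {v : D0} {w : H1} {e : ℝ} (h : Cn (-4) an v w e) : |Ad v S2| ≤ e * H1.nr S2 := by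
  simpa [Q1_S2] using h.base S2

lemma Tv_le (v P P' : D0) (y : H1) : |Tv v P P' y| ≤ PJ.nrm v * (‖P‖ + ‖P'‖) * H1.nr y := by
  refine (J_mul_le _ _).trans ?_
  rw [mul_assoc]
  refine mul_le_mul_of_nonneg_left ((map_add_le_add _ _ _).trans ?_) (apply_nonneg _ _)
  have h1 := (PJ.nrm_mul_le P' (H1.f y)).trans (mul_le_mul_of_nonneg_left (H1.f_le y)
    (norm_nonneg _))
  have h2 := (PJ.nrm_mul_le P (H1.d y)).trans (mul_le_mul_of_nonneg_left (H1.d_le y)
    (norm_nonneg _))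
  linarith

lemma Cn.bound {m : ℝ} {a : SJ} {v : D0} {y : H1} {e : ℝ} (h : Cn m a v y e) (θ : H1) :
    |Q1 m y θ| ≤ (PJ.nrm v * (‖a.g‖ + ‖a.g'‖) + e) * H1.nr θ := by
  have := abs_add_le (Q1 m y θ - Tv v a.g a.g' θ) (Tv v a.g a.g' θ)
  rw [sub_add_cancel] at this
  linarith [h θ, Tv_le v a.g a.g' θ]

lemma β_eq (o : SJ) (κ : ℝ) (y K : H1) : β o κ y K = J (H1.d y * (o.α * H1.d K))
    + J (H1.f y * ((-((2 * κ) • o.α) - (5:ℝ) • (o.α + b⁻¹ • o.α1)) * H1.f K)) := by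
  rw [β, ← map_add]; congr 1; simp only [Algebra.smul_def]; ring

lemma tq_eq (κ : ℝ) (y z : H1) : tq κ y z = J (H1.d y * (((-1/2 : ℝ) • (om * c1)) * H1.d z))
    + J (H1.f y * (((-1/2 * (κ * (2 - κ))) • (om * c1)) * H1.f z
      + ((1/2 * κ) • (om * s1)) * H1.d z)) := by
  rw [tq, ← smul_eq_mul, ← map_smul, ← map_add]; congr 1
  ext t; simp; ring

lemma β_comm (o : SJ) (κ : ℝ) (y K : H1) : β o κ y K = β o κ K y := by
  unfold β; congr 1; simp only [Algebra.smul_def]; ring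

lemma β_S1 (o : SJ) (κ : ℝ) (y : H1) : β o κ y S1 = -2 * J (H1.f y * Rr κ o.α o.α1) := by
  have h := H1.parts (o.h0.mul D1_c1) y
  have e : o.α * (H1.d y * c1 - (2 * κ) • (H1.f y * s1))
      - (5:ℝ) • ((o.α + b⁻¹ • o.α1) * H1.f y * s1) = (-2:ℝ) • (H1.f y * Rr κ o.α o.α1)
      + ((o.α1 * c1 + o.α * -s1) * H1.f y + o.α * c1 * H1.d y) := by
    have hb : 5 * b⁻¹ = b := by
      have := b_pos.ne'
      field_simp; linarith [b_sq]
    ext t
    simp [Rr]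
    linear_combination (-o.α1 t * H1.f y t * sin t) * hb
  rw [β, f_S1, d_S1, e, map_add, map_add, h, map_smul, smul_eq_mul]; ring

lemma Ex_lin (κ : ℝ) (o : SJ) (v : D0) (K y y' z : H1) (r : ℝ) :
    Ex κ o v K (r • y + y') z = r * Ex κ o v K y z + Ex κ o v K y' z := by
  simp only [Ex, β_eq, tq_eq, Tv, map_add, map_smul, add_mul, mul_add, smul_mul_assoc,
    mul_smul_comm, smul_eq_mul]
  ring

lemma Tv_lin (v P P' : D0) (y y' : H1) (r : ℝ) :
    Tv v P P' (r • y + y') = r * Tv v P P' y + Tv v P P' y' := by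
  simp only [Tv, map_add, map_smul, mul_add, mul_smul_comm, smul_eq_mul]
  ring

lemma tq_lin1 (κ : ℝ) (y y' z : H1) (r : ℝ) :
    tq κ (r • y + y') z = r * tq κ y z + tq κ y' z := by
  simp only [tq_eq, map_add, map_smul, add_mul, mul_add, smul_mul_assoc, smul_eq_mul]
  ring

lemma tq_lin2 (κ : ℝ) (y z z' : H1) (r : ℝ) :
    tq κ y (r • z + z') = r * tq κ y z + tq κ y z' := by
  simp only [tq_eq, map_add, map_smul, mul_add, mul_smul_comm, smul_eq_mul]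
  ring

lemma Ex_zero (κ : ℝ) (v : D0) (K y : H1) : Ex κ SJ.zero v K y 0 = 0 := by
  simp [Ex, β, Tv, tq, tE, tE', SJ.zero]

lemma KT_ident (w Φ : H1) : Q1 (-1) (KT w) Φ = Q1 (-4) w (H1.mulL D1_c1 Φ) := by
  have h1 := H1.J_d (H1.mulL (D1_s1.mul (H1.d1 w)) Φ)
  have h2 := H1.J_d (H1.mulL (D1_c1.mul (D1_V (H1.f w))) Φ)
  have e : H1.d (KT w) * H1.d Φ + (-1:ℝ) • (H1.f (KT w) * H1.f Φ) =
      H1.d w * H1.d (H1.mulL D1_c1 Φ) + (-4:ℝ) • (H1.f w * H1.f (H1.mulL D1_c1 Φ))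
      + H1.d (H1.mulL (D1_s1.mul (H1.d1 w)) Φ)
      + (2:ℝ) • H1.d (H1.mulL (D1_c1.mul (D1_V (H1.f w))) Φ) := by
    ext t
    simp [f_KT, d_KT]
    ring
  rw [Q1, Q1, e, map_add, map_add, h1, map_smul, h2]; simp

lemma KT_S2 : KT S2 = (2:ℝ) • S1 := by
  have h : V s2 = s1 * s1 := by
    have := (D1_s1.mul D1_s1).eq_V
    have e : c1 * s1 + s1 * c1 = s2 := by rw [s2_eq]; ring
    rw [e] at this
    simpa using this.symm
  refine H1.ext' ?_
  rw [f_KT, f_S2, h, s2_eq, map_smul, f_S1, Algebra.smul_def, map_ofNat]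
  linear_combination (2 * s1) * s1c1

section O

variable {X : Type*} {l : Filter X}

variable (l) in
/-- size in the mean square norm -/
def LO (A : X → D0) (g : X → ℝ) : Prop := (fun i => PJ.nrm (A i)) =O[l] g
variable (l) in
/-- size in the energy norm -/
def NO (y : X → H1) (g : X → ℝ) : Prop := (fun i => H1.nr (y i)) =O[l] g

variable {A B P P' : X → D0} {y z K : X → H1} {g g' g1 g2 g3 : X → ℝ}

lemma O_nn {f f' : X → ℝ} (h0 : ∀ i, 0 ≤ f i) (h : ∀ i, f i ≤ f' i) : f =O[l] f' :=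
  O_of_abs_le (fun i => by rw [Real.norm_of_nonneg (h0 i)]; exact h i)

lemma O1 {E : Type*} [NormedAddCommGroup E] (c : E) : (fun _ : X => c) =O[l] fun _ => (1:ℝ) :=
  isBigO_const_const c one_ne_zero l

lemma NO.f (h : NO l y g) : LO l (fun i => H1.f (y i)) g :=
  (O_nn (fun _ => apply_nonneg _ _) (fun _ => H1.f_le _)).trans h
lemma NO.d (h : NO l y g) : LO l (fun i => H1.d (y i)) g :=
  (O_nn (fun _ => apply_nonneg _ _) (fun _ => H1.d_le _)).trans h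
lemma NO.of (h : LO l (fun i => H1.f (y i)) g) (k : LO l (fun i => H1.d (y i)) g) : NO l y g :=
  IsBigO.add h k
lemma NO.add (h : NO l y g) (k : NO l z g) : NO l (fun i => y i + z i) g :=
  (O_nn (fun _ => apply_nonneg _ _) (fun _ => map_add_le_add _ _ _)).trans (IsBigO.add h k)
lemma NO.smul {c : X → ℝ} (hc : c =O[l] g') (y : H1) : NO l (fun i => c i • y) g' := by
  simpa [NO, map_smul_eq_mul] using hc.norm_left.mul (O1 (l := l) (H1.nr y))
lemma NO.const (y : H1) : NO l (fun _ => y) fun _ => 1 := O1 _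
lemma NO.trans (h : NO l y g) (k : g =O[l] g') : NO l y g' := IsBigO.trans h k
lemma LO.trans (h : LO l A g) (k : g =O[l] g') : LO l A g' := IsBigO.trans h k
lemma LO.add (h : LO l A g) (k : LO l B g) : LO l (fun i => A i + B i) g :=
  (O_nn (fun _ => apply_nonneg _ _) (fun _ => map_add_le_add _ _ _)).trans (IsBigO.add h k)
lemma LO.neg (h : LO l A g) : LO l (fun i => -A i) g := by simpa [LO] using h
lemma LO.sub (h : LO l A g) (k : LO l B g) : LO l (fun i => A i - B i) g := by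
  simpa [sub_eq_add_neg] using h.add k.neg
lemma LO.mul (hP : P =O[l] g') (h : LO l A g) : LO l (fun i => P i * A i) fun i => g' i * g i :=
  (O_nn (fun _ => apply_nonneg _ _) (fun _ => PJ.nrm_mul_le _ _)).trans (hP.norm_left.mul h)
lemma LO.cmul (P : D0) (h : LO l A g) : LO l (fun i => P * A i) g := by
  simpa using LO.mul (O1 P) h
lemma LO.of_norm (h : A =O[l] g) : LO l A g :=
  (O_nn (fun _ => apply_nonneg _ _) (fun _ => nrm_le2 _)).trans (h.norm_left.const_mul_left 2)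
lemma LO.V (h : LO l A g) : LO l (fun i => V (A i)) g :=
  LO.of_norm ((O_of_abs_le (fun _ => norm_V_le2 _)).trans (IsBigO.const_mul_left h 2))
lemma LO.congr (h : LO l A g) (e : ∀ i, B i = A i) : LO l B g := by rw [funext e]; exact h
lemma J_O (h : LO l A g) (k : LO l B g') : (fun i => J (A i * B i)) =O[l] fun i => g i * g' i :=
  (O_of_abs_le (fun _ => J_mul_le _ _)).trans (IsBigO.mul h k)

lemma NO.KT (h : NO l y g) : NO l (fun i => KT (y i)) g :=
  NO.of ((h.f.cmul c1).add (h.f.V.cmul (2 * s1)))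
    (((h.d.cmul c1).add (h.f.cmul s1)).add (h.f.V.cmul (2 * c1)))

lemma O_cmul (c : D0) (h : P =O[l] g) : (fun i => c * P i) =O[l] g := by
  simpa using (O1 (l := l) c).mul h
lemma O_mulc (c : D0) (h : P =O[l] g) : (fun i => P i * c) =O[l] g := by
  simpa using h.mul (O1 (l := l) c)
lemma O_smul {κ : X → ℝ} (hκ : κ =O[l] fun _ => (1:ℝ)) (h : P =O[l] g) :
    (fun i => κ i • P i) =O[l] g := by simpa using hκ.smul h
lemma O_cs (c : ℝ) (h : P =O[l] g) : (fun i => c • P i) =O[l] g := h.const_smul_left c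
lemma O_smulc {κ : X → ℝ} (hκ : κ =O[l] g) (c : D0) : (fun i => κ i • c) =O[l] g := by
  simpa using hκ.smul (O1 (l := l) c)

lemma Tv_O {v : X → D0} (hv : LO l v g1) (hP : P =O[l] g2) (hP' : P' =O[l] g2) (hy : NO l y g3) :
    (fun i => Tv (v i) (P i) (P' i) (y i)) =O[l] fun i => g1 i * (g2 i * g3 i) :=
  J_O hv ((LO.mul hP' hy.f).add (LO.mul hP hy.d))

lemma Ad_O {v : X → D0} (hv : LO l v g1) (hy : NO l y g3) :
    (fun i => Ad (v i) (y i)) =O[l] fun i => g1 i * g3 i := J_O hv hy.d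

variable (l) in
/-- size of a jet -/
def JO (a : X → SJ) (g : X → ℝ) : Prop :=
  (fun i => (a i).α) =O[l] g ∧ (fun i => (a i).α1) =O[l] g ∧ (fun i => (a i).α2) =O[l] g ∧
    (fun i => (a i).α3) =O[l] g

variable {a o : X → SJ} {κ : X → ℝ}

lemma JO.const (a : SJ) : JO l (fun _ => a) fun _ => 1 := ⟨O1 _, O1 _, O1 _, O1 _⟩
lemma JO.add (h : JO l a g) (k : JO l o g) : JO l (fun i => (a i).add (o i)) g :=
  ⟨h.1.add k.1, h.2.1.add k.2.1, h.2.2.1.add k.2.2.1, h.2.2.2.add k.2.2.2⟩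
lemma JO.smul (hκ : κ =O[l] g') (h : JO l a g) :
    JO l (fun i => (a i).smul (κ i)) fun i => g' i * g i :=
  ⟨hκ.smul h.1, hκ.smul h.2.1, hκ.smul h.2.2.1, hκ.smul h.2.2.2⟩
lemma JO.g0 (h : JO l a g) : (fun i => (a i).g) =O[l] g := O_cs _ (O_cmul _ h.2.1)
lemma JO.g0' (h : JO l a g) : (fun i => (a i).g') =O[l] g :=
  O_cs _ (O_cmul _ (h.2.2.1.add (O_cs _ h.2.1)))
lemma JO.Rr (h : JO l a g) (hκ : κ =O[l] fun _ => (1:ℝ)) :
    (fun i => Rr (κ i) (a i).α (a i).α1) =O[l] g :=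
  (O_smul (hκ.add (O1 2)) (O_mulc _ h.1)).add (O_cs _ (O_mulc _ h.2.1))
lemma JO.tE (h : JO l a g) (hκ : κ =O[l] fun _ => (1:ℝ)) :
    (fun i => tE (κ i) (a i).α (a i).α1 (a i).α2) =O[l] g :=
  (((O_cs _ (O_mulc _ h.2.2.1)).neg_left).sub (O_mulc _ h.1)).add
    (O_smul (by simpa [div_eq_mul_inv] using (hκ.sub (O1 2)).mul (O1 (4 * b)⁻¹))
      (O_mulc _ h.2.1))
lemma JO.tE' (h : JO l a g) (hκ : κ =O[l] fun _ => (1:ℝ)) :
    (fun i => tE' (κ i) (a i).α (a i).α1 (a i).α2 (a i).α3) =O[l] g :=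
  (((O_cs _ ((O_mulc _ h.2.2.2).add (O_mulc _ h.2.2.1))).neg_left).sub
    ((O_mulc _ h.2.1).sub (O_mulc _ h.1))).add
    (O_smul (by simpa [div_eq_mul_inv] using (hκ.sub (O1 2)).mul (O1 (4 * b)⁻¹))
      ((O_mulc _ h.2.2.1).add (O_mulc _ h.2.1)))

lemma β_O (h : JO l o g1) (hκ : κ =O[l] fun _ => (1:ℝ)) (hy : NO l y g2) (hK : NO l K g3) :
    (fun i => β (o i) (κ i) (y i) (K i)) =O[l] fun i => g2 i * (g1 i * g3 i) := by
  simp only [β_eq]
  exact (J_O hy.d (LO.mul h.1 hK.d)).add (J_O hy.f (LO.mul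
    ((O_smul (hκ.const_mul_left 2) h.1).neg_left.sub
      (O_cs _ (h.1.add (O_cs _ h.2.1)))) hK.f))

lemma tq_O (hκ : κ =O[l] fun _ => (1:ℝ)) (hy : NO l y g2) (hz : NO l z g3) :
    (fun i => tq (κ i) (y i) (z i)) =O[l] fun i => g2 i * g3 i := by
  simp only [tq_eq]
  have h1 : (fun i => -1/2 * (κ i * (2 - κ i))) =O[l] fun _ => (1:ℝ) := by
    simpa using (hκ.mul ((O1 2).sub hκ)).const_mul_left (-1/2)
  refine (J_O hy.d (hz.d.cmul _)).add (J_O hy.f (LO.add ?_ ?_))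
  · simpa using LO.mul (O_smulc h1 _) hz.f
  · simpa using LO.mul (O_smulc (hκ.const_mul_left (1/2)) _) hz.d

lemma Gq_O {v φ1 φ2 : X → D0} (hv : LO l v g1) (ha : JO l a g) (h1 : φ1 =O[l] g2)
    (h2 : φ2 =O[l] g2) (hK : NO l K g3) :
    (fun i => Tv (v i) ((a i).g * Qd (φ1 i)) ((a i).g' * Qd (φ1 i)
      + (a i).g * (QA (φ1 i) + QB (φ2 i))) (K i)) =O[l] fun i => g1 i * (g i * g2 i * g3 i) :=
  Tv_O hv (ha.g0.mul (O_clm Qd h1)) ((ha.g0'.mul (O_clm Qd h1)).add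
    (ha.g0.mul ((O_clm QA h1).add (O_clm QB h2)))) hK

end O

end

end Pool.Agent.P.MP_0d657e_an.E
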