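import Pool.Agent.P.MP_0d657e_an.PosE2

/-! The base modes: a Garding inequality for the second order form. -/

open Set Real Filter Topology Asymptotics

namespace Pool.Agent.P.MP_0d657e_an.E

noncomputable section

section Err

variable {X : Type*} (a ℓ : X → ℝ) (u : X → H1)

/-- negligible terms -/
def Err (f : X → ℝ) : Prop :=
  ∀ δ > 0, ∃ C, ∀ i, |f i| ≤ δ * (a i ^ 2 + PJ.nrm (H1.d (u i)) ^ 2) + C * ℓ i ^ 2

/-- expansion of a function -/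
def Xp (A : X → D0) (A0 γ : D0) : Prop := LO ⊤ (fun i => A i - a i • A0 - γ * H1.d (u i)) ℓ

/-- expansion of a quadratic quantity -/
def Xq (f : X → ℝ) (k : ℝ) (Γ : D0) : Prop :=
  Err a ℓ u (fun i => f i - k * a i ^ 2 - J (Γ * (H1.d (u i) * H1.d (u i))))

variable {a ℓ u} {f f' : X → ℝ} {A B : X → D0} {A0 B0 γ γ' Γ Γ' : D0} {k k' : ℝ}

lemma Err.add (h : Err a ℓ u f) (h' : Err a ℓ u f') : Err a ℓ u fun i => f i + f' i := by
  intro δ hδ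
  obtain ⟨C, hC⟩ := h _ (half_pos hδ)
  obtain ⟨C', hC'⟩ := h' _ (half_pos hδ)
  exact ⟨C + C', fun i => (abs_add_le _ _).trans (by linarith [hC i, hC' i])⟩

lemma Err.cmul (c : ℝ) (h : Err a ℓ u f) : Err a ℓ u fun i => c * f i := by
  intro δ hδ
  have hc : 0 < |c| + 1 := by positivity
  obtain ⟨C, hC⟩ := h (δ / (|c| + 1)) (by positivity)
  refine ⟨(|c| + 1) * C, fun i => ?_⟩
  have h1 := mul_le_mul_of_nonneg_left (hC i) hc.le
  rw [mul_add, ← mul_assoc, mul_div_cancel₀ _ hc.ne'] at h1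
  rw [abs_mul]
  nlinarith [abs_nonneg (f i)]

lemma Err.of_O (h : f =O[⊤] fun i => (|a i| + PJ.nrm (H1.d (u i)) + |ℓ i|) * ℓ i) :
    Err a ℓ u f := by
  obtain ⟨C, hC0, hC⟩ := h.exists_pos
  intro δ hδ
  refine ⟨C + C ^ 2 / δ, fun i => ?_⟩
  have h1 := eventually_top.1 hC.bound i
  have hW := apply_nonneg PJ.nrm (H1.d (u i))
  rw [Real.norm_eq_abs, Real.norm_eq_abs, abs_mul, abs_of_nonneg
    (by positivity : 0 ≤ |a i| + PJ.nrm (H1.d (u i)) + |ℓ i|)] at h1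
  rw [← sq_abs (a i), ← sq_abs (ℓ i)]
  have e : C ^ 2 / δ = δ * (C / δ) ^ 2 := by field_simp
  have e2 : C = δ * (C / δ) := by field_simp
  rw [e]
  generalize C / δ = c at *
  subst e2
  nlinarith [mul_nonneg hδ.le (sq_nonneg (|a i| - c * |ℓ i|)),
    mul_nonneg hδ.le (sq_nonneg (PJ.nrm (H1.d (u i)) - c * |ℓ i|)),
    mul_nonneg hδ.le (sq_nonneg (|a i|)), mul_nonneg hδ.le (sq_nonneg (PJ.nrm (H1.d (u i))))]

lemma Err.cross (hℓ : ∀ i, PJ.nrm (H1.f (u i)) ≤ ℓ i) (Ξ : D0) :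
    Err a ℓ u fun i => a i * J (Ξ * H1.d (u i)) := by
  intro δ hδ
  obtain ⟨C, hC0, hC⟩ := compact_fun Ξ hδ
  refine ⟨C ^ 2 / δ, fun i => ?_⟩
  have h1 := mul_le_mul_of_nonneg_left ((hC (u i)).trans (add_le_add_right
    (mul_le_mul_of_nonneg_left (hℓ i) hC0) _)) (abs_nonneg (a i))
  rw [abs_mul, ← sq_abs (a i)]
  have e : C ^ 2 / δ = δ * (C / δ) ^ 2 := by field_simp
  have e2 : C = δ * (C / δ) := by field_simp
  rw [e]
  generalize C / δ = c at *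
  subst e2
  nlinarith [mul_nonneg hδ.le (sq_nonneg (|a i| - 2 * c * ℓ i)),
    mul_nonneg hδ.le (sq_nonneg (|a i| - PJ.nrm (H1.d (u i)))),
    mul_nonneg hδ.le (sq_nonneg (|a i|)), mul_nonneg hδ.le (sq_nonneg (PJ.nrm (H1.d (u i))))]

lemma Xp.add (h : Xp a ℓ u A A0 γ) (h' : Xp a ℓ u B B0 γ') :
    Xp a ℓ u (fun i => A i + B i) (A0 + B0) (γ + γ') :=
  (LO.add h h').congr (fun i => by simp only [Algebra.smul_def]; ring)

lemma Xp.cmul (P : D0) (h : Xp a ℓ u A A0 γ) : Xp a ℓ u (fun i => P * A i) (P * A0) (P * γ) :=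
  (LO.cmul P h).congr (fun i => by simp only [Algebra.smul_def]; ring)

lemma Xq.add (h : Xq a ℓ u f k Γ) (h' : Xq a ℓ u f' k' Γ') :
    Xq a ℓ u (fun i => f i + f' i) (k + k') (Γ + Γ') := by
  have := Err.add h h'
  unfold Xq
  convert this using 2
  simp only [add_mul, map_add]; ring

lemma Xq.cmul (c : ℝ) (h : Xq a ℓ u f k Γ) : Xq a ℓ u (fun i => c * f i) (c * k) (c • Γ) := by
  have := Err.cmul c h
  unfold Xq
  convert this using 2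
  simp only [smul_mul_assoc, map_smul, smul_eq_mul]; ring

lemma Xq.congr (h : Xq a ℓ u f k Γ) (e0 : ∀ i, f' i = f i) (e1 : k' = k) (e2 : Γ' = Γ) :
    Xq a ℓ u f' k' Γ' := by rw [funext e0, e1, e2]; exact h

variable (hℓ : ∀ i, PJ.nrm (H1.f (u i)) ≤ ℓ i)
include hℓ

lemma Xp.prod (h : Xp a ℓ u A A0 γ) (h' : Xp a ℓ u B B0 γ') :
    Xq a ℓ u (fun i => J (A i * B i)) (J (A0 * B0)) (γ * γ') := by
  have n := fun i => apply_nonneg PJ.nrm (H1.d (u i))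
  have main : ∀ A0 γ : D0, LO ⊤ (fun i => a i • A0 + γ * H1.d (u i))
      fun i => |a i| + PJ.nrm (H1.d (u i)) + |ℓ i| := fun A0 γ =>
    LO.add (LO.of_norm (O_smulc (O_of_abs_le (fun i => by
      rw [Real.norm_eq_abs]; linarith [n i, abs_nonneg (ℓ i)])) _))
      (LO.cmul γ (O_nn n (fun i => by linarith [abs_nonneg (a i), abs_nonneg (ℓ i)])))
  have hB : LO ⊤ B fun i => |a i| + PJ.nrm (H1.d (u i)) + |ℓ i| :=
    ((main B0 γ').add (LO.trans h' (O_of_abs_le (fun i => by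
      rw [Real.norm_eq_abs]; linarith [n i, abs_nonneg (a i)])))).congr (fun i => by abel)
  have := ((Err.cross (a := a) hℓ (A0 * γ' + B0 * γ)).add (Err.of_O (J_O (main A0 γ) h'))).add
    (Err.of_O (J_O hB h))
  unfold Xq
  convert this using 2 with i
  rw [mul_comm (J (A0 * B0)), ← smul_eq_mul (a i ^ 2), ← smul_eq_mul (a i), ← map_smul,
    ← map_smul, ← map_sub, ← map_sub, ← map_add, ← map_add]
  congr 1
  simp only [Algebra.smul_def, map_pow]; ring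

variable {y z : X → H1} {y0 z0 : H1} {v : X → D0}

lemma Xq_Tv (P P' : D0) (hv : Xp a ℓ u v 0 1) (hf : Xp a ℓ u (fun i => H1.f (y i)) (H1.f y0) 0)
    (hd : Xp a ℓ u (fun i => H1.d (y i)) (H1.d y0) γ) :
    Xq a ℓ u (fun i => Tv (v i) P P' (y i)) 0 (P * γ) :=
  (hv.prod hℓ ((hf.cmul P').add (hd.cmul P))).congr (fun _ => rfl) (by simp) (by simp)

lemma Xq_β (o : SJ) (κ : ℝ) (hf : Xp a ℓ u (fun i => H1.f (y i)) (H1.f y0) 0)
    (hd : Xp a ℓ u (fun i => H1.d (y i)) (H1.d y0) γ)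
    (kf : Xp a ℓ u (fun i => H1.f (z i)) (H1.f z0) 0)
    (kd : Xp a ℓ u (fun i => H1.d (z i)) (H1.d z0) γ') :
    Xq a ℓ u (fun i => β o κ (y i) (z i)) (β o κ y0 z0) (γ * (o.α * γ')) :=
  ((hd.prod hℓ (kd.cmul _)).add (hf.prod hℓ (kf.cmul _))).congr (fun _ => β_eq _ _ _ _)
    (β_eq _ _ _ _) (by simp)

lemma Xq_tq (κ : ℝ) (hf : Xp a ℓ u (fun i => H1.f (y i)) (H1.f y0) 0)
    (hd : Xp a ℓ u (fun i => H1.d (y i)) (H1.d y0) γ)
    (kf : Xp a ℓ u (fun i => H1.f (z i)) (H1.f z0) 0)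
    (kd : Xp a ℓ u (fun i => H1.d (z i)) (H1.d z0) γ') :
    Xq a ℓ u (fun i => tq κ (y i) (z i)) (tq κ y0 z0) (γ * (((-1/2 : ℝ) • (om * c1)) * γ')) :=
  ((hd.prod hℓ (kd.cmul _)).add (hf.prod hℓ ((kf.cmul _).add (kd.cmul _)))).congr
    (fun _ => tq_eq _ _ _) (tq_eq _ _ _) (by simp)

end Err

/-- the resonant coefficient -/
def co (w : H1) : ℝ := 2 / π * J (H1.f w * s2)
/-- the non resonant part -/
def pr (w : H1) : H1 := w - co w • S2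

lemma pr_add (w : H1) : w = co w • S2 + pr w := by rw [pr]; abel

lemma Q1_pr (w θ : H1) : Q1 (-4) (pr w) θ = Q1 (-4) w θ := by
  rw [pr, Q1_sub, Q1_smul, Q1_comm _ S2, Q1_S2]; ring

lemma mean_le {v : D0} {u : H1} {e : ℝ} (he : 0 ≤ e)
    (h : ∀ θ, |Q1 (-4) u θ - Ad v θ| ≤ e * H1.nr θ) :
    ∃ r : ℝ, PJ.nrm (v - H1.d u - (4:ℝ) • V (H1.f u) - r • 1) ≤ 2 * e := by
  set s := v - H1.d u - (4:ℝ) • V (H1.f u) with hs
  refine ⟨J s / π, ?_⟩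
  set s' := s - (J s / π) • 1 with hs'
  have h0 : J s' = 0 := by
    rw [hs', map_sub, map_smul, J_one, smul_eq_mul, sub_zero, div_mul_cancel₀ _ pi_pos.ne',
      sub_self]
  let θ : H1 := H1.mk (V s') s' (D1_V _) (V_lo _) h0
  have h1 := H1.parts (D1_V (H1.f u)) θ
  have e1 : Q1 (-4) u θ - Ad v θ = -PJ.nrm s' ^ 2 := by
    have e2 : s' * s' = v * s' - H1.d u * s' - (4:ℝ) • (V (H1.f u) * s') - (J s / π) • s' := by
      nth_rewrite 1 [hs', hs]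
      simp only [Algebra.smul_def]; ring
    have e3 : H1.d θ = s' := rfl
    rw [PF.nrm_sq, PJ_Φ, e2, Q1, Ad, map_add, map_smul, h1, e3]
    simp only [map_sub, map_smul, h0, smul_eq_mul]
    ring
  have h2 := h θ
  rw [e1, abs_neg, abs_of_nonneg (sq_nonneg _)] at h2
  have h3 : H1.nr θ ≤ 2 * PJ.nrm s' := nr_le θ
  by_contra hc
  push Not at hc
  nlinarith [mul_le_mul_of_nonneg_left h3 he]

/-- admissible data for the base modes -/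
structure X0 (a3 : SJ) where
  v : D0
  w : H1
  x : H1
  e : ℝ
  he : 0 ≤ e
  hJ : J (v * ex b) = 0
  hn : Cn (-4) an v w e
  h3 : Cn 4 a3 v x e

namespace X0

variable {a3 : SJ}

/-- lower order size -/
def ℓ (i : X0 a3) : ℝ := PJ.nrm (H1.f (pr i.w)) + i.e

lemma hℓ (i : X0 a3) : PJ.nrm (H1.f (pr i.w)) ≤ i.ℓ := le_add_of_nonneg_right i.he

lemma u_O : LO ⊤ (fun i : X0 a3 => H1.f (pr i.w)) ℓ := O_nn (fun _ => apply_nonneg _ _) hℓ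

lemma e_O : (fun i : X0 a3 => i.e) =O[⊤] ℓ :=
  O_nn (fun i => i.he) (fun _ => le_add_of_nonneg_left (apply_nonneg _ _))

lemma v_O : LO ⊤ (fun i : X0 a3 => i.v - H1.d (pr i.w)) ℓ := by
  choose r hr using fun i : X0 a3 => mean_le (v := i.v) (u := pr i.w) i.he
    (fun θ => by rw [Q1_pr]; exact i.hn.base θ)
  have h1 : LO ⊤ (fun i : X0 a3 => i.v - H1.d (pr i.w) - (4:ℝ) • V (H1.f (pr i.w)) - r i • 1) ℓ :=
    (O_nn (fun _ => apply_nonneg _ _) hr).trans (e_O.const_mul_left 2)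
  have h2 : LO ⊤ (fun i : X0 a3 => (4:ℝ) • V (H1.f (pr i.w))) ℓ :=
    (u_O.V.cmul (algebraMap ℝ D0 4)).congr (fun i => Algebra.smul_def _ _)
  have hc : ∀ c : D0, LO (⊤ : Filter (X0 a3)) (fun _ => c) fun _ => 1 := fun c => O1 _
  have hp : J (ex b) ≠ 0 := (J_pos (fun t => (exp_pos _).le) (t := lo) (exp_pos _).ne').ne'
  have h3 : r =O[⊤] ℓ := by
    have h4 := ((J_O (hc (b • ex b)) u_O).sub (J_O (hc (ex b)) (h1.add h2))).const_mul_left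
      (J (ex b))⁻¹
    simp only [one_mul] at h4
    refine h4.congr_left (fun i => ?_)
    have h5 := i.hJ
    rw [H1.parts (D1_ex b), inv_mul_eq_iff_eq_mul₀ hp]
    rw [mul_comm] at h5
    simp only [mul_add, mul_sub, map_add, map_sub, mul_smul_comm, map_smul, h5, mul_one,
      smul_eq_mul]
    ring
  exact ((h1.add h2).add (LO.of_norm (O_smulc h3 1))).congr (fun i => by abel)

lemma R_O : NO ⊤ (fun i : X0 a3 => i.x - H1.mulL a3.D1_g (pr i.w)) ℓ := by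
  obtain ⟨C, hC, H⟩ := apriori (r := 1/2) (by norm_num)
  obtain ⟨g2, hg2, -⟩ := (a3.smo_g.d a3.D1_g).ex_d
  have key : ∀ i : X0 a3, H1.nr (i.x - H1.mulL a3.D1_g (pr i.w)) ≤ C * (i.e
      + PJ.nrm (i.v - H1.d (pr i.w)) * (‖a3.g‖ + ‖a3.g'‖)
      + PJ.nrm (H1.f (pr i.w)) * (‖(2:ℝ) • a3.g'‖ + ‖g2 + (4:ℝ) • a3.g‖)) := fun i => by
    have := i.he
    refine H 4 _ _ (by norm_num) (fun θ => ?_) (by positivity) (Or.inr (by norm_num))
      (Or.inr (by norm_num))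
    have h1 := H1.J_d (H1.mulL (hg2.mul (H1.d1 (pr i.w))) θ)
    have e : Q1 4 (i.x - H1.mulL a3.D1_g (pr i.w)) θ = (Q1 4 i.x θ - Tv i.v a3.g a3.g' θ)
        + Tv (i.v - H1.d (pr i.w)) a3.g a3.g' θ
        - Tv (H1.f (pr i.w)) ((2:ℝ) • a3.g') (g2 + (4:ℝ) • a3.g) θ := by
      rw [Q1_sub, Q1, Q1, Tv, Tv, Tv, ← sub_eq_zero]
      refine Eq.trans ?_ h1
      simp only [← map_sub, ← map_add]
      congr 1
      ext t; simp; ring
    rw [e, add_mul, add_mul]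
    exact (abs_sub _ _).trans (add_le_add ((abs_add_le _ _).trans
      (add_le_add (i.h3 θ) (Tv_le _ _ _ _))) (Tv_le _ _ _ _))
  refine (O_nn (fun _ => apply_nonneg _ _) key).trans (IsBigO.const_mul_left ?_ C)
  refine (e_O.add ?_).add ?_
  · simpa using IsBigO.mul v_O (O1 (‖a3.g‖ + ‖a3.g'‖))
  · simpa using IsBigO.mul u_O (O1 (‖(2:ℝ) • a3.g'‖ + ‖g2 + (4:ℝ) • a3.g‖))

lemma xp_v : Xp (fun i : X0 a3 => co i.w) ℓ (fun i => pr i.w) (fun i => i.v) 0 1 :=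
  v_O.congr (fun i => by simp)
lemma xp_wf : Xp (fun i : X0 a3 => co i.w) ℓ (fun i => pr i.w) (fun i => H1.f i.w)
    (H1.f S2) 0 := u_O.congr (fun i => by simp [pr])
lemma xp_wd : Xp (fun i : X0 a3 => co i.w) ℓ (fun i => pr i.w) (fun i => H1.d i.w)
    (H1.d S2) 1 := (u_O.cmul 0).congr (fun i => by simp [pr])
lemma xp_xf : Xp (fun i : X0 a3 => co i.w) ℓ (fun i => pr i.w) (fun i => H1.f i.x)
    (H1.f 0) 0 := (R_O.f.add (u_O.cmul a3.g)).congr (fun i => by simp)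
lemma xp_xd : Xp (fun i : X0 a3 => co i.w) ℓ (fun i => pr i.w) (fun i => H1.d i.x)
    (H1.d 0) a3.g := (R_O.d.add (u_O.cmul a3.g')).congr (fun i => by simp; abel)
lemma KT_eq (w : H1) : KT w = co w • (2:ℝ) • S1 + KT (pr w) := by
  rw [← KT_S2, ← map_smul, ← map_add, ← pr_add]
lemma xp_Kf : Xp (fun i : X0 a3 => co i.w) ℓ (fun i => pr i.w) (fun i => H1.f (KT i.w))
    (H1.f ((2:ℝ) • S1)) 0 := ((u_O.cmul c1).add (u_O.V.cmul (2 * s1))).congr (fun i => by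
      beta_reduce
      rw [KT_eq, map_add, map_smul, f_KT]; simp)
lemma xp_Kd : Xp (fun i : X0 a3 => co i.w) ℓ (fun i => pr i.w) (fun i => H1.d (KT i.w))
    (H1.d ((2:ℝ) • S1)) c1 := ((u_O.cmul s1).add (u_O.V.cmul (2 * c1))).congr (fun i => by
      beta_reduce
      rw [KT_eq, map_add, map_smul, d_KT]; abel)

end X0

/-- the part of the form coming from the base modes -/
def q0 (a3 : SJ) (φ1 φ2 ψ1 ψ2 v : D0) (w x : H1) : ℝ :=
  Gf an φ1 φ2 v (KT w) w + Ex 1 an v (KT w) w w + Ex (-1) a3 v (KT w) w x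
    + Gf a3 ψ1 ψ2 v (KT w) x + Ex 3 an v (KT w) x w

/-- the leading coefficient -/
def W0 (a3 : SJ) (φ1 ψ1 : D0) : D0 :=
  (2:ℝ) • (Qd φ1 * c1 - φ1) + (2:ℝ) • (a3.g * (Qd ψ1 * c1 - ψ1))
    + (an.α * c1 + tE 1 an.α an.α1 an.α2) + (a3.α * c1 + tE (-1) a3.α a3.α1 a3.α2)
    + a3.g * (an.α * c1 + tE 3 an.α an.α1 an.α2) - (1/2 : ℝ) • (om * c1 * (1 + 2 * a3.g))

lemma β_smul2 (o : SJ) (κ r : ℝ) (y K : H1) : β o κ y (r • K) = r * β o κ y K := by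
  simp only [β_eq, map_smul, mul_smul_comm, smul_eq_mul]; ring

lemma xq_q0 (a3 : SJ) (φ1 φ2 ψ1 ψ2 : D0)
    (hM : J (s2 * (Rr 1 an.α an.α1 + Rr (-1) a3.α a3.α1)) = 0) :
    Xq (fun i : X0 a3 => co i.w) X0.ℓ (fun i => pr i.w)
      (fun i => q0 a3 φ1 φ2 ψ1 ψ2 i.v i.w i.x) (tq 1 S2 S2) (W0 a3 φ1 ψ1) := by
  have T := fun (P P' : D0) => Xq_Tv (X0.hℓ (a3 := a3)) P P' X0.xp_v X0.xp_Kf X0.xp_Kd
  have Tw := fun (P P' : D0) => Xq_Tv (X0.hℓ (a3 := a3)) P P' X0.xp_v X0.xp_wf X0.xp_wd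
  have Tx := fun (P P' : D0) => Xq_Tv (X0.hℓ (a3 := a3)) P P' X0.xp_v X0.xp_xf X0.xp_xd
  have Bw := fun o κ => Xq_β (X0.hℓ (a3 := a3)) o κ X0.xp_wf X0.xp_wd X0.xp_Kf X0.xp_Kd
  have Bx := fun o κ => Xq_β (X0.hℓ (a3 := a3)) o κ X0.xp_xf X0.xp_xd X0.xp_Kf X0.xp_Kd
  have t1 := Xq_tq (X0.hℓ (a3 := a3)) 1 X0.xp_wf X0.xp_wd X0.xp_wf X0.xp_wd
  have t2 := Xq_tq (X0.hℓ (a3 := a3)) (-1) X0.xp_wf X0.xp_wd X0.xp_xf X0.xp_xd
  have t3 := Xq_tq (X0.hℓ (a3 := a3)) 3 X0.xp_xf X0.xp_xd X0.xp_wf X0.xp_wd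
  refine (((((((T (an.g * Qd φ1) (an.g' * Qd φ1 + an.g * (QA φ1 + QB φ2))).cmul 2).add
    ((Tw φ1 φ2).cmul (-2))).add (((Bw an 1).add
      (Tw (tE 1 an.α an.α1 an.α2) (tE' 1 an.α an.α1 an.α2 an.α3))).add t1)).add
    (((Bw a3 (-1)).add
      (Tw (tE (-1) a3.α a3.α1 a3.α2) (tE' (-1) a3.α a3.α1 a3.α2 a3.α3))).add t2)).add
    (((T (a3.g * Qd ψ1) (a3.g' * Qd ψ1 + a3.g * (QA ψ1 + QB ψ2))).cmul 2).add
      ((Tx ψ1 ψ2).cmul (-2)))).add (((Bx an 3).add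
      (Tx (tE 3 an.α an.α1 an.α2) (tE' 3 an.α an.α1 an.α2 an.α3))).add t3)).congr
      (fun i => ?_) ?_ ?_
  · simp only [q0, Gf, Ex, sub_eq_add_neg, neg_mul]
  · rw [mul_add, map_add] at hM
    have z1 : tq (-1) S2 0 = 0 := by simp [tq]
    have z2 : tq 3 0 S2 = 0 := by simp [tq]
    have z3 : ∀ K, β an 3 0 K = 0 := by simp [β]
    simp only [β_smul2, β_S1, f_S2, z1, z2, z3]
    linarith
  · ext t
    simp [W0, an_g]
    ring

lemma W0_end (a3 : SJ) {l l' : ℝ} {φ φ1 φ2 F ψ ψ1 ψ2 G : D0} (h : Ode l φ φ1 φ2 F)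
    (k : Ode l' ψ ψ1 ψ2 G) (t : Icc (0:ℝ) π) (ht : sin (t:ℝ) = 0) :
    -W0 a3 φ1 ψ1 t = 3 / 4 * exp (-b * t) * cos t * (1 + 2 * a3.g t) := by
  have h1 := congrArg (fun y : D0 => y t) h.quot
  have h2 := congrArg (fun y : D0 => y t) k.quot
  have h3 := congrArg (fun y : D0 => y t) a3.α1_eq
  have hb := b_pos.ne'
  simp only [D.add_apply, D.mul_apply, s1_apply, c1_apply, ht, zero_mul, add_zero, D.smul_apply,
    om_apply] at h1 h2 h3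
  simp [W0, tE, an_α1, ht, ← h1, ← h2, h3]
  field_simp
  ring

theorem base : ∃ (a3 : SJ) (φ φ1 φ2 ψ ψ1 ψ2 : D0),
    Ode 4 φ φ1 φ2 (-(Rr 1 an.α an.α1 + Rr (-1) a3.α a3.α1)) ∧
    Ode (-4) ψ ψ1 ψ2 (-Rr 3 an.α an.α1) ∧
    J (s2 * (Rr 1 an.α an.α1 - Rr (-1) a3.α a3.α1)) ≠ 0 ∧
    ∃ w0 > 0, ∃ C ≥ 0, ∀ i : X0 a3, w0 * (co i.w ^ 2 + PJ.nrm (H1.d (pr i.w)) ^ 2) - C * i.ℓ ^ 2
      ≤ -q0 a3 φ1 φ2 ψ1 ψ2 i.v i.w i.x ∧ PJ.nrm i.v ≤ PJ.nrm (H1.d (pr i.w)) + C * i.ℓ := by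
  have hb := b_pos
  have sρ : Smo (ρ (-1)) := by
    rw [ρ, pow_three]
    exact ((Smo_s1.mul (Smo_s1.mul Smo_s1)).smul _).neg.add
      ((Smo_s1.mul Smo_c1).mul (Smo_c1.add (Smo_s1.smul b)))
  have hρ : 0 < J (om * ρ (-1) * ρ (-1)) := J_pos (t := mid) (fun t => by
    rw [mul_assoc]; exact mul_nonneg (exp_pos _).le (mul_self_nonneg _)) (by simp [ρ]; norm_num)
  have hM1 : J (s2 * Rr 1 an.α an.α1) = b * ((exp (-b * π) + 1) / 14) := by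
    rw [J_Rr 1 an.h0, an_α1, smul_mul_assoc, map_smul, J_ρ1, smul_eq_mul]
  set lam := -((exp (-b * π) + 1) / 14 + J (om * c1 * ρ (-1))) / J (om * ρ (-1) * ρ (-1))
    with hlam
  let a3 := SJ.prim (c1 + lam • ρ (-1)) (Smo_c1.add (sρ.smul lam))
  have hg : a3.g = c1 + lam • ρ (-1) := SJ.prim_g _ _
  have hM3 : J (s2 * Rr (-1) a3.α a3.α1) = -(b * ((exp (-b * π) + 1) / 14)) := by
    rw [J_Rr (-1) a3.h0, SJ.prim_α1]
    simp only [mul_add, add_mul, smul_mul_assoc, mul_smul_comm, map_add, map_smul, smul_eq_mul]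
    rw [hlam, div_mul_cancel₀ _ hρ.ne']; ring
  have hM : J (s2 * (Rr 1 an.α an.α1 + Rr (-1) a3.α a3.α1)) = 0 := by
    rw [mul_add, map_add, hM1, hM3, add_neg_cancel]
  obtain ⟨G2⟩ : Nonempty (Gr 4 (Pj 2)) := by
    have := exists_Gr_res 2 two_pos
    rwa [show ((2:ℕ):ℝ) ^ 2 = 4 by norm_num] at this
  obtain ⟨G3⟩ := exists_Gr (l := -4) (fun j _ e => by nlinarith [sq_nonneg (j:ℝ)])
  have o2 := exists_ode G2 (F := -(Rr 1 an.α an.α1 + Rr (-1) a3.α a3.α1)) (by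
    have : (sn ((2:ℕ):ℝ) : D0) = s2 := by simp [s2]
    rw [Pj_apply, this, mul_neg, map_neg, hM]; simp)
  have o3 := exists_ode G3 (F := -Rr 3 an.α an.α1) rfl
  generalize G2.G0 _ = φ at o2
  generalize G2.G1 _ = φ1 at o2
  generalize _ - (4:ℝ) • φ = φ2 at o2
  generalize G3.G0 _ = ψ at o3
  generalize G3.G1 _ = ψ1 at o3
  generalize _ - (-4:ℝ) • ψ = ψ2 at o3
  obtain ⟨c, w1, hw1, hc⟩ := posW (f := -W0 a3 φ1 ψ1)
    (by rw [D.neg_apply, W0_end a3 o2 o3 lo (by simp), hg]; simp [ρ]; norm_num)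
    (by rw [D.neg_apply, W0_end a3 o2 o3 hi (by simp), hg]; simp [ρ]; linarith [exp_pos (-(b * π))])
  have o2' : Ode 4 (φ + (-c / 4) • s2) (φ1 + (-c / 4) • (2:ℝ) • c2)
      (φ2 + (-c / 4) • (2:ℝ) • -((2:ℝ) • s2)) (-(Rr 1 an.α an.α1 + Rr (-1) a3.α a3.α1)) :=
    ⟨o2.d0.add (D1_s2.smul _), o2.d1.add ((D1_c2.smul _).smul _), by simp [o2.lo],
      by simp [o2.hi, sin_two_pi], by rw [← o2.eq]; module⟩
  have hQ : Qd ((2:ℝ) • c2) = 2 * c1 := by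
    have := s1_mul_Qd D1_s2 (by simp) (by simp [sin_two_pi])
    refine sub_eq_zero.1 (eq_zero_of_s1_mul ?_)
    rw [mul_sub, this, s2_eq]; ring
  have hW : ∀ t, w1 ≤ -W0 a3 (φ1 + (-c / 4) • (2:ℝ) • c2) ψ1 t := fun t => by
    refine (hc t).trans_eq ?_
    simp only [W0, map_add, map_smul Qd (-c / 4), hQ]
    simp [cos_two_mul']
    ring
  have hκ : tq 1 S2 S2 = -(5 / 21 * b * (exp (-b * π) + 1)) := by
    have e : om * (-(c1 * ((1 * (2 - 1) : ℝ) • (s2 * s2) + (2:ℝ) • c2 * (2:ℝ) • c2))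
        + (1:ℝ) • (s1 * s2 * (2:ℝ) • c2)) =
        -(om * (c1 * (s2 * s2 + (2:ℝ) • c2 * (2:ℝ) • c2) - s1 * s2 * (2:ℝ) • c2)) := by
      ext t; simp; ring
    rw [tq, f_S2, d_S2, e, map_neg, J_κ1]; ring
  refine ⟨a3, _, _, _, ψ, ψ1, ψ2, o2', o3, ?_, ?_⟩
  · rw [mul_sub, map_sub, hM1, hM3, sub_neg_eq_add]; positivity
  set w0 := min w1 (5 / 21 * b * (exp (-b * π) + 1)) / 2 with hw0
  have hw : 0 < w0 := by positivity
  obtain ⟨C, hC⟩ := xq_q0 a3 (φ1 + (-c / 4) • (2:ℝ) • c2)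
    (φ2 + (-c / 4) • (2:ℝ) • -((2:ℝ) • s2)) ψ1 ψ2 hM w0 hw
  obtain ⟨C', hC0, hC'⟩ := (X0.v_O (a3 := a3)).exists_pos
  refine ⟨w0, hw, |C| + C', by positivity, fun i => ⟨?_, ?_⟩⟩
  · have h1 := (le_abs_self _).trans (hC i)
    beta_reduce at h1
    have h2 : J (W0 a3 (φ1 + (-c / 4) • (2:ℝ) • c2) ψ1 * (H1.d (pr i.w) * H1.d (pr i.w)))
        ≤ -w1 * PJ.nrm (H1.d (pr i.w)) ^ 2 := by
      rw [PF.nrm_sq, PJ_Φ, ← smul_eq_mul (-w1), ← map_smul]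
      exact J_mono (fun t => mul_le_mul_of_nonneg_right (le_neg.1 (hW t))
        (mul_self_nonneg _))
    have h3 : 2 * w0 ≤ w1 := by linarith [min_le_left w1 (5 / 21 * b * (exp (-b * π) + 1))]
    have h4 : 2 * w0 ≤ 5 / 21 * b * (exp (-b * π) + 1) := by
      linarith [min_le_right w1 (5 / 21 * b * (exp (-b * π) + 1))]
    rw [hκ] at h1
    nlinarith [mul_le_mul_of_nonneg_right h3 (sq_nonneg (PJ.nrm (H1.d (pr i.w)))),
      mul_le_mul_of_nonneg_right h4 (sq_nonneg (co i.w)),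
      mul_le_mul_of_nonneg_right (le_abs_self C) (sq_nonneg i.ℓ),
      mul_nonneg hC0.le (sq_nonneg i.ℓ)]
  · have h1 := eventually_top.1 hC'.bound i
    have h2 : 0 ≤ i.ℓ := (apply_nonneg _ _).trans i.hℓ
    rw [Real.norm_of_nonneg (apply_nonneg _ _), Real.norm_of_nonneg h2] at h1
    have h3 := map_add_le_add PJ.nrm (H1.d (pr i.w)) (i.v - H1.d (pr i.w))
    rw [add_sub_cancel] at h3
    nlinarith [abs_nonneg C]

end

end Pool.Agent.P.MP_0d657e_an.E
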