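import Pool.Agent.P.MP_0d657e_an.PosE3

/-! Pairs of modes close to the resonance with `sin 2t`. -/

open Set Real Filter Topology Asymptotics

namespace Pool.Agent.P.MP_0d657e_an.E

noncomputable section

section gauge

variable {X : Type*} (θ N e : X → ℝ)

/-- large gauge -/
def gM (i : X) : ℝ := N i + e i / |θ i|
/-- small gauge -/
def gε (i : X) : ℝ := |θ i| * gM θ N e i + e i / |θ i|
/-- the parameter tends to zero -/
def fl : Filter X := comap θ (𝓝[≠] 0)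

variable {θ N e} (hN : ∀ i, 0 ≤ N i) (he : ∀ i, 0 ≤ e i)

lemma fl_tend : Tendsto θ (fl θ) (𝓝[≠] 0) := tendsto_comap
lemma fl_tend0 : Tendsto θ (fl θ) (𝓝 0) := fl_tend.mono_right nhdsWithin_le_nhds
lemma fl_ne : ∀ᶠ i in fl θ, θ i ≠ 0 := fl_tend.eventually self_mem_nhdsWithin
lemma fl_small : ∀ᶠ i in fl θ, |θ i| ≤ 1/4 :=
  (by simpa using fl_tend0.abs : Tendsto (fun i => |θ i|) (fl θ) (𝓝 0)).eventually
    (ge_mem_nhds (by norm_num))

lemma O_cont {E : Type*} [NormedAddCommGroup E] {f : ℝ → E} (hf : ContinuousAt f 0) :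
    (fun i => f (θ i)) =O[fl θ] fun _ => (1:ℝ) := (hf.tendsto.comp fl_tend0).isBigO_one ℝ

lemma O_diff {E : Type*} [NormedAddCommGroup E] [NormedSpace ℝ E] {f : ℝ → E}
    (hf : DifferentiableAt ℝ f 0) : (fun i => f (θ i) - f 0) =O[fl θ] θ := by
  simpa [Function.comp_def] using hf.isBigO_sub.comp_tendsto (fl_tend0 (θ := θ))

lemma θ_O1 : θ =O[fl θ] fun _ => (1:ℝ) := O_cont (f := id) continuousAt_id

include hN he

lemma gM_nn (i : X) : 0 ≤ gM θ N e i := add_nonneg (hN i) (div_nonneg (he i) (abs_nonneg _))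
lemma N_O : N =O[fl θ] gM θ N e :=
  O_nn hN (fun i => le_add_of_nonneg_right (div_nonneg (he i) (abs_nonneg _)))
lemma θM_O : (fun i => θ i * gM θ N e i) =O[fl θ] gε θ N e :=
  O_of_abs_le (fun i => by
    rw [Real.norm_eq_abs, abs_mul, abs_of_nonneg (gM_nn hN he i)]
    exact le_add_of_nonneg_right (div_nonneg (he i) (abs_nonneg _)))
lemma e'_O : (fun i => e i / |θ i|) =O[fl θ] gε θ N e :=
  O_nn (fun i => div_nonneg (he i) (abs_nonneg _))
    (fun i => le_add_of_nonneg_left (mul_nonneg (abs_nonneg _) (gM_nn hN he i)))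
lemma e_O : e =O[fl θ] gε θ N e := by
  have h := (θ_O1 (θ := θ)).abs_left.mul (e'_O (θ := θ) hN he)
  simp only [one_mul] at h
  refine h.congr' (fl_ne.mono fun i hi => ?_) EventuallyEq.rfl
  have := (abs_pos.2 hi).ne'
  field_simp
lemma ε_O : gε θ N e =O[fl θ] gM θ N e := by
  refine IsBigO.add ?_ (O_nn (fun i => div_nonneg (he i) (abs_nonneg _))
    (fun i => le_add_of_nonneg_left (hN i)))
  simpa using (θ_O1 (θ := θ)).abs_left.mul (isBigO_refl (gM θ N e) _)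
lemma MθM {f : X → ℝ} (h : f =O[fl θ] fun i => gM θ N e i * (θ i * gM θ N e i)) :
    f =O[fl θ] fun i => gM θ N e i * gε θ N e i := h.trans ((isBigO_refl _ _).mul (θM_O hN he))

lemma conclude {f : X → ℝ} (h : f =O[fl θ] fun i => gM θ N e i * gε θ N e i) {δ : ℝ}
    (hδ : 0 < δ) : ∀ᶠ t in 𝓝[≠] (0:ℝ), ∃ C, ∀ i, θ i = t → |f i| ≤ δ * N i ^ 2 + C * e i ^ 2 := by
  obtain ⟨C, hC0, hC⟩ := h.exists_pos
  have h1 := eventually_comap.1 hC.bound
  have h2 : ∀ᶠ t in 𝓝[≠] (0:ℝ), C * |t| ≤ δ / 4 := by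
    have : Tendsto (fun t : ℝ => C * |t|) (𝓝 0) (𝓝 (C * |0|)) :=
      (continuous_const.mul continuous_abs).tendsto 0
    rw [abs_zero, mul_zero] at this
    exact (this.eventually (ge_mem_nhds (by positivity))).filter_mono nhdsWithin_le_nhds
  filter_upwards [h1, h2] with t h1 h2
  refine ⟨(δ + C ^ 2 / δ + C) / |t| ^ 2, fun i hi => ?_⟩
  have h3 := h1 i hi
  have a := hN i
  have c : 0 ≤ e i / |t| := div_nonneg (he i) (abs_nonneg _)
  have h0 : 0 ≤ gε θ N e i :=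
    add_nonneg (mul_nonneg (abs_nonneg _) (gM_nn hN he i)) (div_nonneg (he i) (abs_nonneg _))
  rw [Real.norm_eq_abs, Real.norm_of_nonneg (mul_nonneg (gM_nn hN he i) h0)] at h3
  simp only [gε, gM, hi] at h3
  rw [div_mul_eq_mul_div, mul_div_assoc, ← div_pow]
  generalize e i / |t| = s at *
  have e1 : C ^ 2 / δ = δ * (C / δ) ^ 2 := by field_simp
  have e2 : C * (N i * s) = δ * (C / δ * N i * s) := by field_simp
  rw [e1]
  generalize C / δ = c at *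
  have h4 := mul_le_mul_of_nonneg_right h2 (sq_nonneg (N i + s))
  nlinarith [mul_nonneg hδ.le (sq_nonneg (N i - s)), mul_nonneg hδ.le (sq_nonneg (N i - 2 * c * s)),
    mul_nonneg hδ.le (sq_nonneg s), mul_nonneg hδ.le (sq_nonneg (N i))]

end gauge

section modes

variable {X : Type*} {l : Filter X} {m e g : X → ℝ} {a : X → SJ} {v : X → D0} {y : X → H1}

lemma E_O {g1 g2 : X → ℝ} (hv : LO l v g1) (ha : JO l a g2) (h : (fun i => g1 i * g2 i) =O[l] g)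
    (he : e =O[l] g) : (fun i => PJ.nrm (v i) * (‖(a i).g‖ + ‖(a i).g'‖) + e i) =O[l] g :=
  ((IsBigO.mul hv (ha.g0.norm_left.add ha.g0'.norm_left)).trans h).add he

lemma mode_O (he : ∀ i, 0 ≤ e i) (h : ∀ i, Cn (m i) (a i) (v i) (y i) (e i))
    (hm : ∀ᶠ i in l, -5 ≤ m i ∧ 1/2 ≤ |m i + 1| ∧ 1/2 ≤ |m i + 4|)
    (hE : (fun i => PJ.nrm (v i) * (‖(a i).g‖ + ‖(a i).g'‖) + e i) =O[l] g) : NO l y g := by
  obtain ⟨C, hC, H⟩ := apriori (r := 1/2) (by norm_num)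
  refine (IsBigO.of_bound C (hm.mono fun i hi => ?_)).trans hE
  have := he i
  rw [Real.norm_of_nonneg (apply_nonneg _ _), Real.norm_of_nonneg (by positivity)]
  exact H _ _ _ hi.1 (h i).bound (by positivity) (Or.inr hi.2.1) (Or.inr hi.2.2)

lemma proj_orth (y s : H1) (hs : J (H1.f s * H1.f s) = π / 2) :
    J (H1.f (y - (2 / π * J (H1.f y * H1.f s)) • s) * H1.f s) = 0 := by
  have := pi_pos.ne'
  simp only [map_sub, map_smul, sub_mul, smul_mul_assoc, hs, smul_eq_mul]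
  field_simp
  ring

lemma mode_O2 (he : ∀ i, 0 ≤ e i) (h : ∀ i, Cn (m i) (a i) (v i) (y i) (e i))
    (hm : ∀ᶠ i in l, -5 ≤ m i ∧ 1/2 ≤ |m i + 1|)
    (hE : (fun i => PJ.nrm (v i) * (‖(a i).g‖ + ‖(a i).g'‖) + e i) =O[l] g) :
    NO l (fun i => pr (y i)) g := by
  obtain ⟨C, hC, H⟩ := apriori (r := 1/2) (by norm_num)
  refine (IsBigO.of_bound (C * (1 + H1.nr S2 * H1.nr S2)) (hm.mono fun i hi => ?_)).trans hE
  have := he i
  have k1 := Q1_proj (e := S2) (fun z => by rw [f_S2]; exact Q1_S2 _ z) (h i).bound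
  have k2 := proj_orth (y i) S2 (by rw [f_S2]; exact J_s2_s2)
  rw [f_S2] at k1 k2
  rw [Real.norm_of_nonneg (apply_nonneg _ _), Real.norm_of_nonneg (by positivity), mul_assoc C]
  simp only [pr, co]
  exact H _ _ _ hi.1 k1 (by positivity) (Or.inr hi.2) (Or.inl k2)

lemma mode_O1 (he : ∀ i, 0 ≤ e i) (h : ∀ i, Cn (m i) (a i) (v i) (y i) (e i))
    (hm : ∀ᶠ i in l, -5 ≤ m i ∧ 1/2 ≤ |m i + 4|)
    (hE : (fun i => PJ.nrm (v i) * (‖(a i).g‖ + ‖(a i).g'‖) + e i) =O[l] g) :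
    NO l (fun i => y i - (2 / π * J (H1.f (y i) * s1)) • S1) g := by
  obtain ⟨C, hC, H⟩ := apriori (r := 1/2) (by norm_num)
  refine (IsBigO.of_bound (C * (1 + H1.nr S1 * H1.nr S1)) (hm.mono fun i hi => ?_)).trans hE
  have := he i
  have k1 := Q1_proj (e := S1) (fun z => by rw [f_S1]; exact Q1_S1 _ z) (h i).bound
  have k2 := proj_orth (y i) S1 (by rw [f_S1]; exact J_s1_s1)
  rw [f_S1] at k1 k2
  rw [Real.norm_of_nonneg (apply_nonneg _ _), Real.norm_of_nonneg (by positivity), mul_assoc C]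
  exact H _ _ _ hi.1 k1 (by positivity) (Or.inl k2) (Or.inr hi.2)

lemma ode_O {φ φ1 φ2 F : X → D0} (h : ∀ i, Ode (m i) (φ i) (φ1 i) (φ2 i) (F i))
    (hm : ∀ᶠ i in l, |m i| ≤ 5 ∧ (J (φ i * s1) = 0 ∨ 1/2 ≤ |-m i + 1|) ∧
      (J (φ i * s2) = 0 ∨ 1/2 ≤ |-m i + 4|)) (hF : F =O[l] g) : φ1 =O[l] g ∧ φ2 =O[l] g := by
  obtain ⟨C, hC, H⟩ := Ode.bound
  exact ⟨(IsBigO.of_bound C (hm.mono fun i hi => (H (h i) hi.1 hi.2.1 hi.2.2).1)).trans hF,
    (IsBigO.of_bound C (hm.mono fun i hi => (H (h i) hi.1 hi.2.1 hi.2.2).2)).trans hF⟩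

lemma Cn_O (he : ∀ i, 0 ≤ e i) (h : ∀ i, Cn (m i) (a i) (v i) (y i) (e i)) (s : H1) :
    (fun i => Q1 (m i) (y i) s - Tv (v i) (a i).g (a i).g' s) =O[l] e :=
  IsBigO.of_bound (H1.nr s) (Eventually.of_forall fun i => by
    rw [Real.norm_of_nonneg (he i), mul_comm]; exact h i s)

end modes

lemma tq1_neg : tq 1 S2 S2 < 0 := by
  have e : om * (-(c1 * ((1 * (2 - 1) : ℝ) • (s2 * s2) + (2:ℝ) • c2 * (2:ℝ) • c2))
      + (1:ℝ) • (s1 * s2 * (2:ℝ) • c2)) =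
      -(om * (c1 * (s2 * s2 + (2:ℝ) • c2 * (2:ℝ) • c2) - s1 * s2 * (2:ℝ) • c2)) := by
    ext t; simp; ring
  rw [tq, f_S2, d_S2, e, map_neg, J_κ1]
  have := b_pos
  have : 0 < 10 / 21 * b * (exp (-b * π) + 1) := by positivity
  linarith

lemma tq_cont (y z : H1) : Continuous fun κ => tq κ y z := by
  unfold tq; fun_prop

/-- solvability defect -/
def Mf (a : SJ) (κ : ℝ) : ℝ := J (s2 * Rr κ a.α a.α1)

lemma Mf_cont (a : SJ) : Continuous (Mf a) := by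
  unfold Mf Rr; fun_prop

lemma Mf_an : Mf an 1 ≠ 0 := by
  rw [Mf, J_Rr 1 an.h0, an_α1, smul_mul_assoc, map_smul, J_ρ1, smul_eq_mul]
  have := b_pos
  positivity

lemma Mf_comb (a c : SJ) (r s κ : ℝ) :
    Mf ((a.add (c.smul r)).smul s) κ = s * (Mf a κ + r * Mf c κ) := by
  simp only [Mf, Rr, SJ.add, SJ.smul, mul_add, add_mul, smul_add, smul_mul_assoc, mul_smul_comm,
    map_add, map_smul, smul_eq_mul]
  ring

/-- correction making the forcing orthogonal to `sin 2t` -/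
def lam (a : SJ) (θ : ℝ) : ℝ := -Mf a (1 - θ) / Mf an (1 - θ)

lemma lam_cont (a : SJ) : ContinuousAt (lam a) 0 :=
  ((Mf_cont a).comp (continuous_const.sub continuous_id)).neg.continuousAt.div
    ((Mf_cont an).comp (continuous_const.sub continuous_id)).continuousAt (by simpa using Mf_an)

/-- jets of the modes close to the resonance -/
def a1 (a : SJ) (θ : ℝ) : SJ := (a.add (an.smul (lam a θ))).smul θ

lemma a1_g (a : SJ) (θ : ℝ) : (a1 a θ).g = θ • (a.g + lam a θ • 1) := by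
  rw [a1, SJ.g_smul, SJ.g_add, SJ.g_smul, an_g]

/-- data of a pair of modes -/
structure X1 (a : SJ) where
  θ : ℝ
  φ : D0
  φ1 : D0
  φ2 : D0
  v : D0
  K : H1
  y : H1
  z : H1
  e : ℝ
  he : 0 ≤ e
  ode : Ode (5 - (1 + θ) ^ 2) φ φ1 φ2 (-Rr (1 + θ) (a1 a (-θ)).α (a1 a (-θ)).α1)
  hy : Cn ((1 + θ) ^ 2 - 5) (a1 a θ) v y e
  hz : Cn ((1 + -θ) ^ 2 - 5) (a1 a (-θ)) v z e
  h2 : |Ad v S2| ≤ e * H1.nr S2

lemma mode1 {X : Type*} {θ N e s : X → ℝ} (hN : ∀ i, 0 ≤ N i) (he : ∀ i, 0 ≤ e i)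
    (hs : ∀ i, |s i| = |θ i|) (a : SJ) {v : X → D0} {y : X → H1}
    (hv : LO (fl θ) v (gM θ N e)) (h : ∀ i, Cn ((1 + s i) ^ 2 - 5) (a1 a (s i)) (v i) (y i) (e i))
    (h2 : ∀ i, |Ad (v i) S2| ≤ e i * H1.nr S2) :
    JO (fl θ) (fun i => a1 a (s i)) θ ∧ NO (fl θ) (fun i => pr (y i)) (gε θ N e) ∧
    (fun i => co (y i) - 2 / π * (2 + s i)⁻¹ * Ad (v i) (H1.mulL a.D1_g S2)) =O[fl θ] gε θ N e ∧
    (fun i => 2 / π * (2 + s i)⁻¹ * Ad (v i) (H1.mulL a.D1_g S2)) =O[fl θ] gM θ N e := by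
  have hs0 : Tendsto s (fl θ) (𝓝 0) := by
    rw [tendsto_zero_iff_abs_tendsto_zero]
    simpa [Function.comp_def, hs] using (fl_tend0 (θ := θ)).abs
  have hsθ : s =O[fl θ] θ := IsBigO.of_bound 1 (Eventually.of_forall fun i => by simp [hs])
  have hl : (fun i => lam a (s i)) =O[fl θ] fun _ => (1:ℝ) :=
    ((lam_cont a).tendsto.comp hs0).isBigO_one ℝ
  have hi : (fun i => 2 / π * (2 + s i)⁻¹) =O[fl θ] fun _ => (1:ℝ) :=
    (((hs0.const_add 2).inv₀ (by norm_num)).isBigO_one ℝ).const_mul_left _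
  have hJ : JO (fl θ) (fun i => a1 a (s i)) θ := by
    have h1 : JO (fl θ) (fun i => an.smul (lam a (s i))) fun _ => 1 := by
      simpa using JO.smul hl (JO.const an)
    simpa [a1] using JO.smul hsθ ((JO.const a).add h1)
  refine ⟨hJ, mode_O2 he h (fl_small.mono fun i hi => ?_)
    (E_O hv hJ (by simpa [mul_comm] using θM_O hN he) (e_O hN he)), ?_, ?_⟩
  · rw [← hs, abs_le] at hi
    exact ⟨by nlinarith [sq_nonneg (1 + s i)], le_abs.2 (Or.inr (by nlinarith))⟩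
  · have h3 : (fun i => (s i)⁻¹) =O[fl θ] fun i => |θ i|⁻¹ :=
      IsBigO.of_bound 1 (Eventually.of_forall fun i => by simp [hs])
    have h4 := (h3.mul (Cn_O (l := fl θ) he h S2)).trans
      ((e'_O hN he).congr_left (fun i => by rw [div_eq_inv_mul]))
    have h5 : (fun i => Ad (v i) S2) =O[fl θ] e :=
      IsBigO.of_bound (H1.nr S2) (Eventually.of_forall fun i => by
        rw [Real.norm_of_nonneg (he i), mul_comm]; exact h2 i)
    have h6 := hl.mul (h5.trans (e_O hN he))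
    simp only [one_mul] at h6
    have h7 := hi.mul (h4.add h6)
    simp only [one_mul] at h7
    refine h7.congr' ?_ EventuallyEq.rfl
    filter_upwards [fl_ne, fl_small] with i i1 i2
    have j1 : s i ≠ 0 := by rw [← abs_pos, hs, abs_pos]; exact i1
    have j2 : 2 + s i ≠ 0 := by rw [← hs, abs_le] at i2; linarith [i2.1]
    have e1 : Tv (v i) (a1 a (s i)).g (a1 a (s i)).g' S2 =
        s i * (Ad (v i) (H1.mulL a.D1_g S2) + lam a (s i) * Ad (v i) S2) := by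
      rw [Tv_eq _ (a1 a (s i)).D1_g, ← Ad_smul, ← Ad_add, ← Ad_smul]
      exact Ad_congr _ (by simp [a1_g, add_mul])
    rw [e1, Q1_S2, co]
    field_simp
    ring
  · simpa using hi.mul (Ad_O hv (NO.const _))

theorem pair1 : ∃ c0 > 0, ∀ (a : SJ) (δ : ℝ), 0 < δ → ∀ᶠ t in 𝓝[≠] (0:ℝ), ∃ C, ∀ i : X1 a,
    i.θ = t → c0 * Ad i.v (H1.mulL a.D1_g S2) ^ 2 - δ * (PJ.nrm i.v + H1.nr i.K) ^ 2 - C * i.e ^ 2
      ≤ -(Gf (a1 a i.θ) i.φ1 i.φ2 i.v i.K i.y + Ex (1 + i.θ) (a1 a (-i.θ)) i.v i.K i.y i.z) := by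
  have hT := tq1_neg
  refine ⟨-tq 1 S2 S2 / 2 / π ^ 2, by have := pi_pos; have : 0 < -tq 1 S2 S2 := by linarith
                                      positivity, fun a δ hδ => ?_⟩
  let N : X1 a → ℝ := fun i => PJ.nrm i.v + H1.nr i.K
  have hN : ∀ i, 0 ≤ N i := fun i => add_nonneg (apply_nonneg _ _) (apply_nonneg _ _)
  have he : ∀ i : X1 a, 0 ≤ i.e := fun i => i.he
  have hv : LO (fl X1.θ) (fun i : X1 a => i.v) (gM X1.θ N X1.e) :=
    (O_nn (fun _ => apply_nonneg _ _) (fun _ => le_add_of_nonneg_right (apply_nonneg _ _))).trans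
      (N_O hN he)
  have hK : NO (fl X1.θ) (fun i : X1 a => i.K) (gM X1.θ N X1.e) :=
    (O_nn (fun _ => apply_nonneg _ _) (fun _ => le_add_of_nonneg_left (apply_nonneg _ _))).trans
      (N_O hN he)
  obtain ⟨j1, p1, d1, b1⟩ := mode1 (θ := X1.θ) (s := X1.θ) (y := X1.y) hN he (fun _ => rfl) a hv
    (fun i => i.hy) (fun i => i.h2)
  obtain ⟨j2, p2, d2, b2⟩ := mode1 (θ := X1.θ) (s := fun i : X1 a => -i.θ) (y := X1.z) hN he
    (fun i => abs_neg i.θ) a hv (fun i => i.hz) (fun i => i.h2)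
  have c1 : (fun i : X1 a => co i.y) =O[fl X1.θ] gM X1.θ N X1.e :=
    ((d1.trans (ε_O hN he)).add b1).congr_left (fun i => by ring)
  have c2 : (fun i : X1 a => co i.z) =O[fl X1.θ] gM X1.θ N X1.e :=
    ((d2.trans (ε_O hN he)).add b2).congr_left (fun i => by ring)
  have hy : NO (fl X1.θ) (fun i : X1 a => i.y) (gM X1.θ N X1.e) := by
    simpa only [← pr_add] using (NO.smul c1 S2).add (p1.trans (ε_O hN he))
  have hz : NO (fl X1.θ) (fun i : X1 a => i.z) (gM X1.θ N X1.e) := by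
    simpa only [← pr_add] using (NO.smul c2 S2).add (p2.trans (ε_O hN he))
  have hκ : (fun i : X1 a => 1 + i.θ) =O[fl X1.θ] fun _ => (1:ℝ) := (O1 1).add θ_O1
  have hM : ∀ᶠ i : X1 a in fl X1.θ, Mf an (1 - -i.θ) ≠ 0 :=
    fl_tend0.eventually (p := fun t => Mf an (1 - -t) ≠ 0)
      (((Mf_cont an).comp (continuous_const.sub continuous_neg)).continuousAt.eventually_ne
        (by simpa using Mf_an))
  obtain ⟨f1, f2⟩ := ode_O (l := fl X1.θ) (fun i : X1 a => i.ode) (by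
    filter_upwards [fl_ne, fl_small, hM] with i i1 i2 i3
    rw [abs_le] at i2
    refine ⟨abs_le.2 ⟨by nlinarith, by nlinarith [sq_nonneg (1 + i.θ)]⟩,
      Or.inr (le_abs.2 (Or.inr (by nlinarith))), Or.inl (i.ode.orth2 (fun h => i1 ?_) ?_)⟩
    · have : i.θ * (2 + i.θ) = 0 := by linarith
      exact (mul_eq_zero.1 this).resolve_right (by linarith)
    · have := Mf_comb a an (lam a (-i.θ)) (-i.θ) (1 - -i.θ)
      rw [lam, div_mul_cancel₀ _ i3, add_neg_cancel, mul_zero, sub_neg_eq_add] at this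
      rw [neg_mul, map_neg, mul_comm, neg_eq_zero]
      rw [a1, lam, sub_neg_eq_add]
      exact this) (j2.Rr hκ).neg_left
  have t1 := MθM hN he ((Gq_O hv j1 f1 f2 hK).trans ((isBigO_refl _ _).mul
    (by simpa using (θ_O1.mul (isBigO_refl X1.θ _)).mul (isBigO_refl (gM X1.θ N X1.e) _))))
  have t2 := MθM hN he (Tv_O hv f1 f2 hy)
  have t3 := MθM hN he (β_O j2 hκ hy hK)
  have t4 := MθM hN he (Tv_O hv (j2.tE hκ) (j2.tE' hκ) hy)
  have t5 := c1.mul (tq_O hκ (NO.const S2) p2)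
  have t6 := tq_O hκ p1 hz
  have t7 : (fun i : X1 a => tq (1 + i.θ) S2 S2) =O[fl X1.θ] fun _ => (1:ℝ) := by
    simpa using tq_O hκ (NO.const S2) (NO.const S2)
  have t8 := ((c2.mul d1).add (b1.mul d2)).mul t7
  simp only [one_mul, mul_one, mul_comm (gε X1.θ N X1.e _)] at t5 t6 t8
  have tot := conclude hN he (((((((t1.const_mul_left 2).sub (t2.const_mul_left 2)).add t3).add
    t4).add t5).add t6).add t8) hδ
  have hT2 : ∀ᶠ t in 𝓝[≠] (0:ℝ), tq (1 + t) S2 S2 ≤ tq 1 S2 S2 / 2 := by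
    have := ((tq_cont S2 S2).comp (continuous_const.add continuous_id : Continuous fun t : ℝ =>
      1 + t)).tendsto 0
    simp only [Function.comp_def, Pi.add_apply, add_zero] at this
    exact (this.eventually (ge_mem_nhds (by linarith))).filter_mono nhdsWithin_le_nhds
  have hs : ∀ᶠ t in 𝓝[≠] (0:ℝ), |t| ≤ 1/4 := by simpa [fl] using fl_small (θ := (id : ℝ → ℝ))
  filter_upwards [tot, hT2, hs] with t ⟨C, hC⟩ k1 k2
  refine ⟨C, fun i hi => ?_⟩
  have k3 := (le_abs_self _).trans (hC i hi)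
  subst hi
  have e1 : tq (1 + i.θ) i.y i.z = co i.y * (co i.z * tq (1 + i.θ) S2 S2
      + tq (1 + i.θ) S2 (pr i.z)) + tq (1 + i.θ) (pr i.y) i.z := by
    rw [← tq_lin2, ← pr_add, ← tq_lin1, ← pr_add]
  rw [abs_le] at k2
  have e2 : 2 / π * (2 + i.θ)⁻¹ * (2 / π * (2 + -i.θ)⁻¹) = (π ^ 2)⁻¹ * (4 / (4 - i.θ ^ 2)) := by
    have : 2 + i.θ ≠ 0 := by linarith
    have : 2 + -i.θ ≠ 0 := by linarith
    have : 4 - i.θ ^ 2 ≠ 0 := by nlinarith
    field_simp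
    ring
  have e3 : 1 ≤ 4 / (4 - i.θ ^ 2) := by
    rw [le_div_iff₀ (by nlinarith)]; nlinarith
  have hp : 0 ≤ (π ^ 2)⁻¹ * Ad i.v (H1.mulL a.D1_g S2) ^ 2 := by positivity
  have k4 : 4 / (4 - i.θ ^ 2) * tq (1 + i.θ) S2 S2 ≤ tq 1 S2 S2 / 2 := by nlinarith
  have k5 := mul_le_mul_of_nonneg_left k4 hp
  rw [Gf, Ex, e1, div_eq_mul_inv _ (π ^ 2)]
  simp only [N] at k3
  have e4 : (π ^ 2)⁻¹ * Ad i.v (H1.mulL a.D1_g S2) ^ 2 * (4 / (4 - i.θ ^ 2) * tq (1 + i.θ) S2 S2)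
      = 2 / π * (2 + i.θ)⁻¹ * (2 / π * (2 + -i.θ)⁻¹) * Ad i.v (H1.mulL a.D1_g S2) ^ 2
        * tq (1 + i.θ) S2 S2 := by rw [e2]; ring
  rw [e4] at k5
  linarith

end

end Pool.Agent.P.MP_0d657e_an.E
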