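import Pool.Agent.P.MP_0d657e_an.PosE4

/-! A pair of modes close to the resonance with `sin t`. -/

open Set Real Filter Topology Asymptotics

namespace Pool.Agent.P.MP_0d657e_an.E

noncomputable section

/-- jet of `cos 2t` -/
def aC : SJ := SJ.of c2 Sd_c2
/-- jet of the constant one -/
def aO : SJ := ⟨1, 0, 0, 0, D1_one, D1_zero, D1_zero, Smo_one⟩

lemma aC_α : aC.α = c2 := rfl
lemma aC_α1 : aC.α1 = -((2:ℝ) • s2) := D1.unique pi_pos aC.h0 D1_c2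
lemma aC_α2 : aC.α2 = -((2:ℝ) • (2:ℝ) • c2) :=
  D1.unique pi_pos aC.h1 (by rw [aC_α1]; exact (D1_s2.smul 2).neg)

/-- jet of the low mode -/
def aL (θ : ℝ) : SJ := aC.add (aO.smul (1/2 + 1 / (2 * (4 - θ))))
/-- jet of the high mode -/
def aK (a : SJ) (θ : ℝ) : SJ := a.smul (-(π / 2 * (θ * (4 - θ))))

lemma aL_g (θ : ℝ) : (aL θ).g = aC.g := by simp [aL, SJ.g, SJ.add, SJ.smul, aO]
lemma aL_g' (θ : ℝ) : (aL θ).g' = aC.g' := by simp [aL, SJ.g', SJ.add, SJ.smul, aO]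

/-- the limit forcing -/
def F0' : D0 := (3/2 : ℝ) • sn 3 - (2 * b) • (c1 * s1 ^ 2)

lemma Rr_aL {θ : ℝ} (h : θ ≠ 4) :
    Rr (2 - θ) (aL θ).α (aL θ).α1 = F0' - (θ / 2) • sn 3 := by
  have h' : 4 - θ ≠ 0 := sub_ne_zero.2 h.symm
  have e : (4 - θ) * (1 / (2 * (4 - θ))) = 1 / 2 := by field_simp
  ext t
  simp only [Rr, aL, SJ.add, SJ.smul, aO, aC_α, aC_α1, F0', D.add_apply, D.sub_apply,
    D.smul_apply, D.mul_apply, D.neg_apply, D.one_apply, D.zero_apply, D.pow_apply, s1_apply,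
    c1_apply, s2_apply, c2_apply, sn_apply, sin_three_mul, sin_two_mul, cos_two_mul']
  linear_combination sin t * e + ((2 - θ) * sin t) * sin_sq_add_cos_sq (t:ℝ)

lemma J_F_s1 (θ : ℝ) : J ((F0' - (θ / 2) • sn 3) * s1) = 0 := by
  have h1 : J (sn 3 * s1) = 0 := by simpa [s1] using J_sn_sn 3 1 (by norm_num)
  have h2 := (D1_pow D1_s1 3).J_zero (by simp) (by simp)
  have e : c1 * s1 ^ 2 * s1 = s1 ^ 3 * c1 := by ring
  rw [map_smul, smul_eq_zero] at h2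
  simp only [F0', sub_mul, smul_mul_assoc, map_sub, map_smul, h1, e,
    h2.resolve_left (by norm_num), smul_zero, sub_zero]

lemma exists_φ0 : ∃ φ φ1 φ2, Ode 1 φ φ1 φ2 (-F0') ∧ J (φ * s1) = 0 ∧ φ1 mid = b / 2 := by
  have h0 := (((D1_sn (a := 0) (b' := π) 3).smul (3/16)).add ((D1_tt.mul D1_s1).smul (b/4))).sub
    ((D1_c1.mul (D1_s1.mul D1_s1)).smul (b/4))
  have h1 := ((((D1_cs (a := 0) (b' := π) 3).smul 3).smul (3/16)).add
    (((D1_one.mul D1_s1).add (D1_tt.mul D1_c1)).smul (b/4))).sub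
    (((D1_s1.neg.mul (D1_s1.mul D1_s1)).add
      (D1_c1.mul ((D1_c1.mul D1_s1).add (D1_s1.mul D1_c1)))).smul (b/4))
  set B := -(2 / π * J (((3/16 : ℝ) • sn 3 + (b/4) • (tt * s1) - (b/4) • (c1 * (s1 * s1))) * s1))
    with hB
  refine ⟨_, _, _, ⟨h0.add (D1_s1.smul B), h1.add (D1_c1.smul B), by simp,
    by simp [sin_three_mul], ?_⟩, ?_, ?_⟩
  · ext t
    simp [F0', sin_three_mul]
    linear_combination (-(b / 2) * cos t) * sin_sq_add_cos_sq (t:ℝ)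
  · have := pi_pos.ne'
    rw [add_mul, map_add, smul_mul_assoc, map_smul, J_s1_s1, hB, smul_eq_mul]
    field_simp
    ring
  · simp [cos_three_mul]
    ring

lemma tq_pair (θ : ℝ) (z : H1) : tq (2 - θ) S1 z + tq θ z S1 = -J (om * c2 * H1.d z)
    + θ * (J (((θ - 3/2) • (om * c1 * s1)) * H1.f z) - J (((1/2 : ℝ) • (om * s1 * s1)) * H1.d z)) := by
  rw [tq, tq, ← mul_add, ← map_add, ← map_sub, ← smul_eq_mul θ (J _), ← smul_eq_mul (1/2 : ℝ),
    ← map_smul, ← map_smul, ← map_neg, ← map_add]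
  congr 1
  ext t
  simp [cos_two_mul']
  ring

/-- data of the pair -/
structure X2 (a : SJ) where
  θ : ℝ
  φ : D0
  φ1 : D0
  φ2 : D0
  χ : D0
  χ1 : D0
  χ2 : D0
  v : D0
  w : H1
  y : H1
  z : H1
  e : ℝ
  he : 0 ≤ e
  oφ : Ode (5 - (2 - θ) ^ 2) φ φ1 φ2 (-Rr (2 - θ) (aL θ).α (aL θ).α1)
  oχ : Ode (5 - θ ^ 2) χ χ1 χ2 (-Rr θ (aK a θ).α (aK a θ).α1)
  hw : Cn (-4) an v w e
  hy : Cn ((2 - θ) ^ 2 - 5) (aK a θ) v y e
  hz : Cn (θ ^ 2 - 5) (aL θ) v z e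

/-- contribution of the pair -/
def q2 {a : SJ} (i : X2 a) : ℝ :=
  Gf (aK a i.θ) i.φ1 i.φ2 i.v (KT i.w) i.y + Ex (2 - i.θ) (aL i.θ) i.v (KT i.w) i.y i.z
    + (Gf (aL i.θ) i.χ1 i.χ2 i.v (KT i.w) i.z + Ex i.θ (aK a i.θ) i.v (KT i.w) i.z i.y)

lemma Tv_sub (v P P' Q Q' : D0) (y : H1) :
    Tv v (P - Q) (P' - Q') y = Tv v P P' y - Tv v Q Q' y := by
  rw [Tv, Tv, Tv, ← map_sub]; congr 1; ring

theorem pair2 : ∃ Z : H1, H1.f Z mid ≠ 0 ∧ ∀ (a : SJ) (δ : ℝ), 0 < δ →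
    ∀ᶠ t in 𝓝[≠] (0:ℝ), ∃ C, ∀ i : X2 a, i.θ = t →
      Ad i.v (H1.mulL a.D1_g S1) * Ad i.v Z - δ * (PJ.nrm i.v + H1.nr i.w) ^ 2 - C * i.e ^ 2
        ≤ -q2 i := by
  obtain ⟨φ0, φ01, φ02, o0, orth0, hmid⟩ := exists_φ0
  obtain ⟨G5⟩ := exists_Gr (l := 5) (fun j _ e => by
    have e2 : (5:ℤ) = j ^ 2 := by exact_mod_cast e
    have hja : j ≤ 2 := by nlinarith
    have hjb : -2 ≤ j := by nlinarith
    interval_cases j <;> omega)
  have oζ := exists_ode G5 (F := -(b • om) * c2 + om * -((2:ℝ) • s2)) rfl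
  have hτ := D1_tE 2 (aL 0).h0 (aL 0).h1 (aL 0).h2
  refine ⟨(2:ℝ) • H1.mulL D1_c1 o0.h1 + (2:ℝ) • H1.mulL o0.d1 S1 - H1.mulL hτ S1
    + H1.mulL aC.D1_g oζ.h1, ?_, fun a δ hδ => ?_⟩
  · have := b_pos
    have e : 2 * (π / 2) = π := by ring
    simp [hmid, tE, aL, SJ.add, SJ.smul, aO, SJ.g, aC_α1, aC_α2, e]
    positivity
  let N : X2 a → ℝ := fun i => PJ.nrm i.v + H1.nr i.w
  have hN : ∀ i, 0 ≤ N i := fun i => add_nonneg (apply_nonneg _ _) (apply_nonneg _ _)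
  have he : ∀ i : X2 a, 0 ≤ i.e := fun i => i.he
  have hv : LO (fl X2.θ) (fun i : X2 a => i.v) (gM X2.θ N X2.e) :=
    (O_nn (fun _ => apply_nonneg _ _) (fun _ => le_add_of_nonneg_right (apply_nonneg _ _))).trans
      (N_O hN he)
  have hw : NO (fl X2.θ) (fun i : X2 a => i.w) (gM X2.θ N X2.e) :=
    (O_nn (fun _ => apply_nonneg _ _) (fun _ => le_add_of_nonneg_left (apply_nonneg _ _))).trans
      (N_O hN he)
  have hK := hw.KT
  have eO := e_O (θ := X2.θ) hN he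
  have εO := ε_O (θ := X2.θ) hN he
  have θM := θM_O (θ := X2.θ) hN he
  have Mθ : (fun i : X2 a => gM X2.θ N X2.e i * i.θ) =O[fl X2.θ] gε X2.θ N X2.e := by
    simpa [mul_comm] using θM
  have θ1 : (fun i : X2 a => i.θ) =O[fl X2.θ] fun _ => (1:ℝ) := θ_O1
  have hκ : (fun i : X2 a => 2 - i.θ) =O[fl X2.θ] fun _ => (1:ℝ) := (O1 2).sub θ1
  have h4 : (fun i : X2 a => i.θ * (4 - i.θ)) =O[fl X2.θ] X2.θ := by
    simpa using (isBigO_refl X2.θ _).mul ((O1 (4:ℝ)).sub θ1)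
  have jK : JO (fl X2.θ) (fun i : X2 a => aK a i.θ) X2.θ := by
    simpa [aK] using JO.smul (h4.const_mul_left (π / 2)).neg_left (JO.const a)
  have jL : JO (fl X2.θ) (fun i : X2 a => aL i.θ) fun _ => 1 := by
    refine (JO.const aC).add ?_
    simpa using JO.smul (O_cont (θ := X2.θ) (f := fun θ : ℝ => 1/2 + 1 / (2 * (4 - θ)))
      (by fun_prop (disch := norm_num))) (JO.const (X := X2 a) aO)
  have hz : NO (fl X2.θ) (fun i : X2 a => i.z) (gM X2.θ N X2.e) :=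
    mode_O he (fun i => i.hz) (fl_small.mono fun i hi => by
      rw [abs_le] at hi
      exact ⟨by nlinarith, le_abs.2 (Or.inr (by nlinarith)), le_abs.2 (Or.inr (by nlinarith))⟩)
      (E_O hv jL (by simpa using isBigO_refl _ _) (eO.trans εO))
  have hy' := mode_O1 he (fun i : X2 a => i.hy) (fl_small.mono fun i hi => by
      rw [abs_le] at hi
      exact ⟨by nlinarith [sq_nonneg (2 - i.θ)], le_abs.2 (Or.inl (by nlinarith))⟩)
      (E_O hv jK Mθ eO)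
  have hD : (fun i : X2 a => 2 / π * J (H1.f i.y * s1) - Ad i.v (H1.mulL a.D1_g S1))
      =O[fl X2.θ] gε X2.θ N X2.e := by
    have h3 : (fun i : X2 a => i.θ⁻¹) =O[fl X2.θ] fun i => |i.θ|⁻¹ :=
      IsBigO.of_bound 1 (Eventually.of_forall fun i => by simp)
    have h5 := (h3.mul (Cn_O (l := fl X2.θ) he (fun i : X2 a => i.hy) S1)).trans
      ((e'_O hN he).congr_left (fun i => by rw [div_eq_inv_mul]))
    have h6 := (O_cont (θ := X2.θ) (f := fun θ : ℝ => -(2 / π * (4 - θ)⁻¹))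
      (by fun_prop (disch := norm_num))).mul h5
    simp only [one_mul] at h6
    refine h6.congr' ?_ EventuallyEq.rfl
    filter_upwards [fl_ne, fl_small] with i i1 i2
    have j2 : 4 - i.θ ≠ 0 := by rw [abs_le] at i2; linarith [i2.2]
    have e1 : Tv i.v (aK a i.θ).g (aK a i.θ).g' S1 =
        -(π / 2 * (i.θ * (4 - i.θ))) * Ad i.v (H1.mulL a.D1_g S1) := by
      rw [Tv_eq _ (aK a i.θ).D1_g, ← Ad_smul]
      exact Ad_congr _ (by simp [aK, SJ.g_smul])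
    have := pi_pos.ne'
    rw [e1, Q1_S1]
    field_simp
    ring
  have hP : (fun i : X2 a => Ad i.v (H1.mulL a.D1_g S1)) =O[fl X2.θ] gM X2.θ N X2.e := by
    simpa using Ad_O hv (NO.const _)
  have hD' : (fun i : X2 a => 2 / π * J (H1.f i.y * s1)) =O[fl X2.θ] gM X2.θ N X2.e :=
    ((hD.trans εO).add hP).congr_left (fun i => by ring)
  have ne4 : ∀ᶠ i : X2 a in fl X2.θ, i.θ ≠ 4 := fl_small.mono fun i hi h => by
    rw [h] at hi; norm_num at hi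
  obtain ⟨x1, x2⟩ := ode_O (l := fl X2.θ) (fun i : X2 a => i.oχ) (fl_small.mono fun i hi => by
    rw [abs_le] at hi
    exact ⟨abs_le.2 ⟨by nlinarith, by nlinarith⟩, Or.inr (le_abs.2 (Or.inr (by nlinarith))),
      Or.inr (le_abs.2 (Or.inr (by nlinarith)))⟩) (jK.Rr θ1).neg_left
  obtain ⟨f1, f2⟩ := ode_O (l := fl X2.θ) (g := X2.θ) (fun i : X2 a => i.oφ.sub o0) (by
    filter_upwards [fl_ne, fl_small, ne4] with i i1 i2 i3
    rw [abs_le] at i2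
    refine ⟨abs_le.2 ⟨by nlinarith, by nlinarith [sq_nonneg (2 - i.θ)]⟩, Or.inl ?_,
      Or.inr (le_abs.2 (Or.inl (by nlinarith)))⟩
    rw [sub_mul, map_sub, orth0, sub_zero]
    refine i.oφ.orth1 (fun h => i1 ?_) (by rw [Rr_aL i3, neg_mul, map_neg, J_F_s1, neg_zero])
    have : i.θ * (4 - i.θ) = 0 := by linarith
    exact (mul_eq_zero.1 this).resolve_right (by linarith)) (by
    refine ((O_smulc ((isBigO_refl X2.θ _).const_mul_left (1/2)) (sn 3)).sub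
      (O_smulc h4 φ0)).congr' (ne4.mono fun i hi => ?_) EventuallyEq.rfl
    simp only [Rr_aL hi]
    module)
  have f1' : (fun i : X2 a => i.φ1) =O[fl X2.θ] fun _ => (1:ℝ) :=
    ((f1.trans θ1).add (O1 φ01)).congr_left (fun i => by abel)
  have f2' : (fun i : X2 a => i.φ2) =O[fl X2.θ] fun _ => (1:ℝ) :=
    ((f2.trans θ1).add (O1 φ02)).congr_left (fun i => by abel)
  -- the coefficient of the resonant amplitude
  have l1 := Tv_O hv f1 f2 (NO.const S1)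
  have l2 := (J_O hK.f (LO.of_norm (O_smulc (isBigO_refl X2.θ _) (sn 3)))).trans Mθ
  have l3 : (fun i : X2 a => Q1 (-4) i.w (H1.mulL D1_c1 o0.h1) - Ad i.v (H1.mulL D1_c1 o0.h1))
      =O[fl X2.θ] gε X2.θ N X2.e := by
    simpa [Tv, an_g, an_g', Ad] using
      (Cn_O (l := fl X2.θ) he (fun i : X2 a => i.hw) (H1.mulL D1_c1 o0.h1)).trans eO
  have l4 := Tv_O hv
    (O_diff (θ := X2.θ) (f := fun θ => tE (2 - θ) (aL θ).α (aL θ).α1 (aL θ).α2) (by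
      simp only [tE, aL, SJ.add, SJ.smul]; fun_prop (disch := norm_num)))
    (O_diff (θ := X2.θ) (f := fun θ => tE' (2 - θ) (aL θ).α (aL θ).α1 (aL θ).α2 (aL θ).α3) (by
      simp only [tE', aL, SJ.add, SJ.smul]; fun_prop (disch := norm_num))) (NO.const S1)
  have l5 := (isBigO_refl X2.θ _).mul ((J_O (LO.of_norm (O_smulc (θ1.sub (O1 (3/2 : ℝ)))
    (om * c1 * s1))) hz.f).sub (J_O (LO.of_norm (O1 ((1/2 : ℝ) • (om * s1 * s1)))) hz.d))
  have l6 := (Cn_O (l := fl X2.θ) he (fun i : X2 a => i.hz) oζ.h1).trans eO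
  have l7 := (θ1.mul (isBigO_refl X2.θ _)).mul (J_O hz.f (NO.const oζ.h1).f)
  simp only [mul_one, one_mul, sub_zero] at l1 l4 l5 l7
  have hΛ : (fun i : X2 a => -2 * Tv i.v i.φ1 i.φ2 S1 + Ex (2 - i.θ) (aL i.θ) i.v (KT i.w) S1 i.z
      + tq i.θ i.z S1 + Ad i.v ((2:ℝ) • H1.mulL D1_c1 o0.h1 + (2:ℝ) • H1.mulL o0.d1 S1
        - H1.mulL hτ S1 + H1.mulL aC.D1_g oζ.h1)) =O[fl X2.θ] gε X2.θ N X2.e := by
    refine ((((((((l1.trans Mθ).const_mul_left (-2)).add l2).sub (l3.const_mul_left 2)).add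
      (l4.trans Mθ)).add (l5.trans θM)).sub l6).add (l7.trans θM)).congr'
      (ne4.mono fun i hi => ?_) EventuallyEq.rfl
    have k1 := o0.weak (KT i.w)
    have k2 := oζ.weak i.z
    have k3 := H1.parts (D1_om.mul D1_c2) i.z
    have k4 := tq_pair i.θ i.z
    have k5 : Q1 (i.θ ^ 2 - 5) i.z oζ.h1 = Q1 (-5) i.z oζ.h1
        + i.θ * i.θ * J (H1.f i.z * H1.f oζ.h1) := by
      simp only [Q1, map_add, map_smul, smul_eq_mul]; ring
    rw [Q1_comm, KT_ident, neg_mul, map_neg, neg_neg, mul_comm F0'] at k1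
    rw [Q1_comm, k3] at k2
    simp only [Ex, β_comm _ _ S1, β_S1, Rr_aL hi, mul_sub, map_sub, mul_smul_comm, map_smul,
      smul_eq_mul, Tv_sub, Ad_add, Ad_sub, Ad_smul, ← Tv_eq, aL_g, aL_g', k5]
    rw [Tv_eq _ D1_c1]
    linarith
  have t1 := MθM hN he ((Gq_O hv jK f1' f2' hK).congr_right (fun i => by rw [mul_one]))
  have t2 := Tv_O hv f1' f2' hy'
  have t3 := β_O jL hκ hy' hK
  have t4 := Tv_O hv (jL.tE hκ) (jL.tE' hκ) hy'
  have t5 := tq_O hκ hy' hz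
  have t6 := MθM hN he ((Gq_O hv jL x1 x2 hK).congr_right (fun i => by rw [one_mul]))
  have t7 := MθM hN he (Tv_O hv x1 x2 hz)
  have t8 := MθM hN he (β_O jK θ1 hz hK)
  have t9 := MθM hN he (Tv_O hv (jK.tE θ1) (jK.tE' θ1) hz)
  have t10 := tq_O θ1 hz hy'
  have t11 := hD'.mul hΛ
  have t12 := (Ad_O hv (NO.const ((2:ℝ) • H1.mulL D1_c1 o0.h1 + (2:ℝ) • H1.mulL o0.d1 S1
        - H1.mulL hτ S1 + H1.mulL aC.D1_g oζ.h1))).mul hD
  simp only [one_mul, mul_one, mul_comm (gε X2.θ N X2.e _)] at t2 t3 t4 t5 t12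
  have tot := conclude hN he ((((((((((((t1.const_mul_left 2).sub (t2.const_mul_left 2)).add
    t3).add t4).add t5).add (t6.const_mul_left 2)).sub (t7.const_mul_left 2)).add t8).add
    t9).add t10).add t11).sub t12) hδ
  filter_upwards [tot] with t ⟨C, hC⟩
  refine ⟨C, fun i hi => ?_⟩
  have k3 := (le_abs_self _).trans (hC i hi)
  simp only [N] at k3
  generalize ((2:ℝ) • H1.mulL D1_c1 o0.h1 + (2:ℝ) • H1.mulL o0.d1 S1
        - H1.mulL hτ S1 + H1.mulL aC.D1_g oζ.h1) = Z at *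
  have e0 : i.y = (2 / π * J (H1.f i.y * s1)) • S1 + (i.y - (2 / π * J (H1.f i.y * s1)) • S1) := by
    abel
  generalize 2 / π * J (H1.f i.y * s1) = D at *
  generalize i.y - D • S1 = y' at *
  rw [q2, Gf, Gf, e0, Ex_lin, Tv_lin]
  simp only [Ex, tq_lin2] at k3 ⊢
  linarith

end

end Pool.Agent.P.MP_0d657e_an.E
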