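import Pool.Agent.P.MP_0d657e_an.PosE2

/-! From jets on a set of positive modes to a design. -/

open Set Real Filter Topology Asymptotics

namespace Pool.Agent.P.MP_0d657e_an.E

noncomputable section

/-- contribution of one positive mode and of its opposite -/
def term (n : ℕ) (A : ℤ → SJ) (φ1 φ2 : ℤ → D0) (v : D0) (Y : ℤ → H1) (m : ℤ) : ℝ :=
  Gf (A m) (φ1 m) (φ2 m) v (KT (Y n)) (Y m)
    + Ex (m / n) (A (2 * n - m)) v (KT (Y n)) (Y m) (Y (2 * n - m))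
    + Ex (-(m / n)) (A (2 * n + m)) v (KT (Y n)) (Y m) (Y (2 * n + m))

lemma sum_sym {M : Type*} [AddCommMonoid M] {P : Finset ℤ} (hP : ∀ m ∈ P, 0 < m) (F : ℤ → M) :
    ∑ k ∈ P ∪ P.image Neg.neg, F k = ∑ m ∈ P, (F m + F (-m)) := by
  rw [Finset.sum_union, Finset.sum_image (fun _ _ _ _ h => neg_injective h),
    Finset.sum_add_distrib]
  refine Finset.disjoint_left.2 fun k h1 h2 => ?_
  obtain ⟨l, h3, rfl⟩ := Finset.mem_image.1 h2
  linarith [hP _ h1, hP _ h3]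

lemma mem_sym {P : Finset ℤ} {k : ℤ} : k ∈ P ∪ P.image Neg.neg ↔ k ∈ P ∨ -k ∈ P := by
  rw [Finset.mem_union, Finset.mem_image]
  refine or_congr_right ⟨?_, fun h => ⟨-k, h, neg_neg k⟩⟩
  rintro ⟨l, h, rfl⟩
  rwa [neg_neg]

lemma D1_fsum {P : Finset ℤ} {f f' : ℤ → D0} (h : ∀ k, D1 (f k) (f' k)) :
    D1 (∑ k ∈ P, f k) (∑ k ∈ P, f' k) := by
  induction P using Finset.induction_on with
  | empty => simpa using D1_zero
  | insert k P hk ih => rw [Finset.sum_insert hk, Finset.sum_insert hk]; exact (h k).add ih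

theorem build (n : ℕ) (hn : 0 < n) (P : Finset ℤ) (hP : ∀ m ∈ P, 0 < m) (A : ℤ → SJ)
    (φ φ1 φ2 : ℤ → D0) (A_neg : ∀ k, A (-k) = A k)
    (A_off : ∀ k, k ∉ P → -k ∉ P → A k = SJ.zero)
    (ode : ∀ k : ℤ, Ode (5 - ((k:ℝ) / n) ^ 2) (φ k) (φ1 k) (φ2 k)
      (-(Rr (k / n) (A (2 * n - k)).α (A (2 * n - k)).α1
        + Rr (-(k / n)) (A (2 * n + k)).α (A (2 * n + k)).α1)))
    (φ_neg : ∀ k, φ (-k) = φ k) (φ_2n : φ (2 * n) = 0)
    (m2 : (2 * n : ℤ) ∉ P) (m4 : (4 * n : ℤ) ∉ P) (m1 : (n : ℤ) ∈ P) (m3 : (3 * n : ℤ) ∈ P)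
    (sum_ne : ∀ k ∈ P, ∀ l ∈ P, k + l ≠ n ∧ k - l ≠ n) (An : A n = an)
    (Mo : J (s2 * (Rr 1 an.α an.α1 - Rr (-1) (A (3 * n)).α (A (3 * n)).α1)) ≠ 0)
    (κ2 : 0 < J (om * ((1/4 : ℝ) • (s1 ^ 3 * ((A (6 * n)).α + b⁻¹ • (A (6 * n)).α1))
      + (3/2 : ℝ) • (s1 ^ 2 * φ (4 * n)))))
    (pos : ∃ c0 > 0, ∃ C : ℝ, ∀ (v : D0) (Y : ℤ → H1) (e : ℝ), (∀ k, Y (-k) = Y k) →
      (∀ k, k ∉ P → -k ∉ P → Y k = 0) → J (v * ex b) = 0 → 0 ≤ e →
      (∀ m ∈ P, Cn (((m:ℝ) / n) ^ 2 - 5) (A m) v (Y m) e) →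
      c0 * (PJ.nrm v + ∑ m ∈ P, H1.nr (Y m)) ^ 2
        ≤ -∑ m ∈ P, term n A φ1 φ2 v Y m + C * e ^ 2) :
    ∃ Ds : Des, Ds.Pos := by
  have hn' : (0:ℤ) < n := by exact_mod_cast hn
  have φ1_neg : ∀ k, φ1 (-k) = φ1 k := fun k =>
    D1.unique pi_pos (ode (-k)).d0 (by rw [φ_neg]; exact (ode k).d0)
  have φ2_neg : ∀ k, φ2 (-k) = φ2 k := fun k =>
    D1.unique pi_pos (ode (-k)).d1 (by rw [φ1_neg]; exact (ode k).d1)
  have off : ∀ k, 0 ≤ k → k ∉ P → k ∉ P ∪ P.image Neg.neg := fun k h0 h1 h2 =>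
    (mem_sym.1 h2).elim h1 fun h => by linarith [hP _ h]
  let Ds : Des :=
    { n := n
      K := P ∪ P.image Neg.neg
      α := fun k => (A k).α
      α1 := fun k => (A k).α1
      α2 := fun k => (A k).α2
      α3 := fun k => (A k).α3
      φ := φ
      φ1 := φ1
      φ2 := φ2
      g2 := (-1/2 : ℝ) • ∑ k ∈ P ∪ P.image Neg.neg, (A k).g * Qd (φ1 k)
      g2' := (-1/2 : ℝ) • ∑ k ∈ P ∪ P.image Neg.neg,
        ((A k).g' * Qd (φ1 k) + (A k).g * (QA (φ1 k) + QB (φ2 k)))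
      n_pos := hn
      hα := fun k => (A k).h0
      hα1 := fun k => (A k).h1
      hα2 := fun k => (A k).h2
      smooth := fun k => (A k).smo
      K_neg := fun k hk => mem_sym.2 (by rw [neg_neg]; exact (mem_sym.1 hk).symm)
      α_neg := fun k => by rw [A_neg]
      α_off := fun k hk => by
        rw [mem_sym, not_or] at hk
        rw [A_off k hk.1 hk.2]; rfl
      hφ := fun k => (ode k).d0
      hφ1 := fun k => (ode k).d1
      φ_lo := fun k => (ode k).lo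
      φ_hi := fun k => (ode k).hi
      φ_neg := φ_neg
      ode := fun k => (ode k).eq
      φ_2n := φ_2n
      hg2 := (D1_fsum fun k => (A k).D1_g.mul (D1_Qd (ode k).d1)).smul _
      g2_eq := by
        have e : ∀ k, (b⁻¹ • (ex b * (A k).α1)) * φ k = s1 * ((A k).g * Qd (φ1 k)) := fun k => by
          rw [mul_left_comm, s1_mul_Qd (ode k).d0 (ode k).lo (ode k).hi]; rfl
        rw [Finset.sum_congr rfl fun k _ => e k, ← Finset.mul_sum]
        generalize ∑ k ∈ P ∪ P.image Neg.neg, (A k).g * Qd (φ1 k) = S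
        ext t
        simp
        ring
      m0 := off 0 le_rfl fun h => lt_irrefl _ (hP _ h)
      m2 := off _ (by positivity) m2
      m4 := off _ (by positivity) m4
      m1 := mem_sym.2 (Or.inl m1)
      m3 := mem_sym.2 (Or.inl m3)
      sum_ne := fun k hk l hl => by
        rcases mem_sym.1 hk with h | h <;> rcases mem_sym.1 hl with h' | h'
        · exact (sum_ne k h l h').1
        · simpa using (sum_ne k h _ h').2
        · simpa [add_comm] using (sum_ne l h' _ h).2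
        · linarith [hP _ h, hP _ h']
      αn := by rw [An, an_α1]
      Mo := by rw [An]; exact Mo
      κ2 := κ2 }
  obtain ⟨c0, hc0, C, H⟩ := pos
  refine ⟨Ds, c0 / 4, by positivity, C, fun v Y e h1 h2 h3 h4 h5 => ?_⟩
  have h6 := H v Y e h1 (fun k a c => h2 k fun h => (mem_sym.1 h).elim a c) h3 h4
    (fun m hm θ => h5 m (mem_sym.2 (Or.inl hm)) θ)
  have e1 : ∑ k ∈ Ds.K, H1.nr (Y k) = 2 * ∑ m ∈ P, H1.nr (Y m) := by
    rw [Finset.mul_sum]
    exact (sum_sym hP _).trans (Finset.sum_congr rfl fun m _ => by rw [h1, two_mul])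
  have e2 : Ds.q v Y = ∑ k ∈ P ∪ P.image Neg.neg,
      (Tv v ((A k).g * Qd (φ1 k)) ((A k).g' * Qd (φ1 k) + (A k).g * (QA (φ1 k) + QB (φ2 k)))
        (KT (Y n)) - Tv v (φ1 k) (φ2 k) (Y k)
        + Ex (k / n) (A (2 * n - k)) v (KT (Y n)) (Y k) (Y (2 * n - k))) := by
    have e3 : -2 * J (v * (Ds.g2' * H1.f (KT (Y n)) + Ds.g2 * H1.d (KT (Y n)))) =
        ∑ k ∈ P ∪ P.image Neg.neg, Tv v ((A k).g * Qd (φ1 k))
          ((A k).g' * Qd (φ1 k) + (A k).g * (QA (φ1 k) + QB (φ2 k))) (KT (Y n)) := by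
      simp only [Ds, Tv, smul_mul_assoc, ← smul_add, mul_smul_comm, map_smul, smul_eq_mul,
        Finset.sum_mul, ← Finset.sum_add_distrib, Finset.mul_sum, map_sum]
      exact Finset.sum_congr rfl fun k _ => by ring
    rw [Des.q]
    refine (congrArg₂ (· + ·) e3 rfl).trans (Finset.sum_add_distrib.symm.trans
      (Finset.sum_congr rfl fun k _ => ?_))
    have e4 : Ds.τt v Y k = -Tv v (φ1 k) (φ2 k) (Y k) + Tv v (tE (k / n) (A (2 * n - k)).α
        (A (2 * n - k)).α1 (A (2 * n - k)).α2) (tE' (k / n) (A (2 * n - k)).α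
        (A (2 * n - k)).α1 (A (2 * n - k)).α2 (A (2 * n - k)).α3) (Y k) := by
      rw [Tv, Tv, ← map_neg, ← map_add]
      refine congrArg J ?_
      simp only [Des.τ, Des.τ', Des.κ, Ds]
      ring
    have e5 : Ds.β1 Y k = β (A (2 * n - k)) (k / n) (Y k) (KT (Y n)) := rfl
    have e6 : Ds.t0 Y k = tq (k / n) (Y k) (Y (2 * n - k)) := rfl
    rw [e4, e5, e6, Ex]; ring
  have e7 : Ds.q v Y = ∑ m ∈ P, term n A φ1 φ2 v Y m := by
    rw [e2, sum_sym hP]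
    refine Finset.sum_congr rfl fun m _ => ?_
    rw [A_neg, φ1_neg, φ2_neg, h1, sub_neg_eq_add, Int.cast_neg, neg_div, term, Gf]
    ring
  rw [e1, e7]
  have a1 := apply_nonneg PJ.nrm v
  have a2 : 0 ≤ ∑ m ∈ P, H1.nr (Y m) := Finset.sum_nonneg fun m _ => apply_nonneg _ _
  refine le_trans ?_ h6
  nlinarith [mul_nonneg hc0.le (mul_nonneg a1 a1), mul_nonneg hc0.le (mul_nonneg a1 a2)]

end

end Pool.Agent.P.MP_0d657e_an.E
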