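import Pool.Agent.P.MP_0d657e_an.PosE5

/-! Choice of the auxiliary modes making the form definite. -/

open Set Real Filter Topology Asymptotics

namespace Pool.Agent.P.MP_0d657e_an.E

noncomputable section

/-- amplitude tested by a pair of the first kind -/
def L2 (v : D0) (a : SJ) : ℝ := Ad v (H1.mulL a.D1_g S2)
/-- amplitude tested by a pair of the second kind -/
def L1 (v : D0) (a : SJ) : ℝ := Ad v (H1.mulL a.D1_g S1)

lemma L2_smul (v : D0) (a : SJ) (r : ℝ) : L2 v (a.smul r) = r * L2 v a := by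
  rw [L2, L2, ← Ad_smul]; exact Ad_congr _ (by simp [SJ.g_smul])
lemma L1_smul (v : D0) (a : SJ) (r : ℝ) : L1 v (a.smul r) = r * L1 v a := by
  rw [L1, L1, ← Ad_smul]; exact Ad_congr _ (by simp [SJ.g_smul])

lemma Dv_jet {P : H1} (h : Dv (H1.f P)) : ∃ (a a' : SJ) (r : ℝ), r = H1.f P mid ∧
    ∀ v, Ad v P = L2 v a + r * Ad v S1 ∧ Ad v P = L1 v a' := by
  obtain ⟨p, r, hp, h⟩ := h
  refine ⟨SJ.prim p hp, SJ.prim ((2:ℝ) • (c1 * p) + r • 1)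
    (((Smo_c1.mul hp).smul 2).add (Smo_one.smul r)), r, ?_, fun v => ⟨?_, ?_⟩⟩
  · have e : 2 * (π / 2) = π := by ring
    simp [h, e]
  · rw [L2, ← Ad_smul, ← Ad_add]
    exact Ad_congr _ (by simp [h, SJ.prim_g])
  · refine Ad_congr _ ?_
    rw [H1.f_mulL, SJ.prim_g, h, s2_eq, f_S1]
    simp only [Algebra.smul_def, map_ofNat]
    ring

lemma coef_sq {v : D0} {w : H1} {e : ℝ} (h : Cn (-4) an v w e) (j : ℕ) :
    J (H1.f (pr w) * sn j) ^ 2 ≤ 2 * Ad v (SN j) ^ 2 + 2 * (H1.nr (SN j) ^ 2 * e ^ 2) := by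
  by_cases hj : j = 2
  · have := proj_orth w S2 (by rw [f_S2]; exact J_s2_s2)
    have e2 : (sn ((2:ℕ):ℝ) : D0) = s2 := by simp [s2]
    subst hj
    rw [e2, pr, co]
    rw [f_S2] at this
    rw [this, zero_pow two_ne_zero]; positivity
  · have h1 := h.base (SN j)
    rw [← Q1_pr, Q1_SN] at h1
    push_cast at h1
    have h2 : (1:ℝ) ≤ ((j:ℝ) ^ 2 + -4) ^ 2 := by
      have : ((j:ℤ) ^ 2 + -4) ≠ 0 := fun e => hj (by
        have : (j:ℤ) = 2 := by nlinarith [Int.natCast_nonneg j]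
        exact_mod_cast this)
      have : (1:ℤ) ≤ ((j:ℤ) ^ 2 + -4) ^ 2 := Int.add_one_le_of_lt (sq_pos_of_ne_zero this)
      exact_mod_cast this
    have h3 := sq_le_sq' (abs_le.1 h1).1 (abs_le.1 h1).2
    nlinarith [mul_le_mul_of_nonneg_right h2 (sq_nonneg (J (H1.f (pr w) * sn j))),
      sq_nonneg (((j:ℝ) ^ 2 + -4) * J (H1.f (pr w) * sn j) - 2 * Ad v (SN j))]

lemma tail {ε : ℝ} (hε : 0 < ε) : ∃ (M : ℕ) (a : ℕ → SJ), ∃ C > 0, ∀ (v : D0) (w : H1) (e : ℝ),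
    Cn (-4) an v w e → PJ.nrm (H1.f (pr w)) ^ 2 ≤ ε * PJ.nrm (H1.d (pr w)) ^ 2
      + C * (e ^ 2 + ∑ j ∈ Finset.range M, L2 v (a j) ^ 2 + Ad v S1 ^ 2) := by
  obtain ⟨M, hM⟩ := exists_nat_ge (1 + ε⁻¹)
  choose a a' r hr ha using fun j : ℕ => Dv_jet (P := SN j) (by simpa using Dv_sn j)
  set R := ∑ j ∈ Finset.range M, r j ^ 2
  set S := ∑ j ∈ Finset.range M, H1.nr (SN j) ^ 2
  have hR : 0 ≤ R := by positivity
  have hS : 0 ≤ S := by positivity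
  refine ⟨M, a, 4 + 4 * R + 2 * S, by positivity, fun v w e h => ?_⟩
  have h1 := sin_tail (H1.at_lo (pr w)) (H1.energy (pr w)) M
  have h6 : 2 / π ≤ 1 := by rw [div_le_one pi_pos]; linarith [pi_gt_three]
  have h2 : ∑ j ∈ Finset.range M, 2 / π * J (H1.f (pr w) * sn j) ^ 2 ≤
      ∑ j ∈ Finset.range M, (4 * L2 v (a j) ^ 2 + r j ^ 2 * (4 * Ad v S1 ^ 2)
        + H1.nr (SN j) ^ 2 * (2 * e ^ 2)) := Finset.sum_le_sum fun j _ => by
    have k := coef_sq h j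
    rw [(ha j v).1] at k
    nlinarith [mul_le_mul_of_nonneg_right h6 (sq_nonneg (J (H1.f (pr w) * sn j))),
      sq_nonneg (L2 v (a j) - r j * Ad v S1)]
  rw [Finset.sum_add_distrib, Finset.sum_add_distrib, ← Finset.mul_sum _ _ 4, ← Finset.sum_mul,
    ← Finset.sum_mul] at h2
  have h3 : 0 ≤ ∑ j ∈ Finset.range M, 2 / π * (j * J (H1.f (pr w) * sn j)) ^ 2 := by positivity
  have h4 : 0 ≤ ∑ j ∈ Finset.range M, L2 v (a j) ^ 2 := by positivity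
  have h5 : 1 ≤ ε * (M:ℝ) ^ 2 := by
    have : ε * ε⁻¹ = 1 := mul_inv_cancel₀ hε.ne'
    have : 0 < ε⁻¹ := by positivity
    nlinarith [mul_le_mul_of_nonneg_left hM hε.le]
  rw [PF.nrm_sq, PF.nrm_sq, PJ_Φ]
  have h7 := JJ_nonneg (H1.d (pr w))
  generalize ∑ j ∈ Finset.range M, L2 v (a j) ^ 2 = T at *
  generalize ∑ j ∈ Finset.range M, 2 / π * J (H1.f (pr w) * sn j) ^ 2 = U at *
  have h8 : J (H1.f (pr w) * H1.f (pr w)) - U ≤ ε * J (H1.d (pr w) * H1.d (pr w)) := by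
    by_contra hc
    push Not at hc
    nlinarith [mul_le_mul_of_nonneg_left h1 hε.le, mul_nonneg hε.le h3, mul_nonneg hε.le h7]
  nlinarith [mul_nonneg hR h4, mul_nonneg hS h4, mul_nonneg hR (sq_nonneg e),
    mul_nonneg hS (sq_nonneg (Ad v S1))]

theorem choice (a3 : SJ) (Q : X0 a3 → ℝ) {w0 C0 c0 : ℝ} (hw0 : 0 < w0) (hC0 : 0 ≤ C0)
    (hb : ∀ i : X0 a3, w0 * (co i.w ^ 2 + PJ.nrm (H1.d (pr i.w)) ^ 2) - C0 * i.ℓ ^ 2 ≤ Q i ∧
      PJ.nrm i.v ≤ PJ.nrm (H1.d (pr i.w)) + C0 * i.ℓ) (hc0 : 0 < c0) (Z : H1)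
    (hZ : H1.f Z mid ≠ 0) : ∃ (M : ℕ) (a : ℕ → SJ) (aP : SJ), ∃ w1 > 0, ∃ C, ∀ i : X0 a3,
      w1 * (PJ.nrm i.v + H1.nr i.w) ^ 2 - C * i.e ^ 2 ≤ Q i
        + c0 * ∑ j ∈ Finset.range M, L2 i.v (a j) ^ 2 + L1 i.v aP * Ad i.v Z := by
  have hS := apply_nonneg H1.nr S2
  set c1 := 9 + C0 ^ 2 + H1.nr S2 ^ 2 with hc1
  have hc1' : 0 < c1 := by positivity
  set η := w0 / (4 * c1) with hη
  have hη' : 0 < η := by positivity
  set C1 := 2 * C0 + w0 with hC1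
  have hC1' : 0 < C1 := by positivity
  obtain ⟨M, a, C, hC, ht⟩ := tail (ε := w0 / 2 / C1) (by positivity)
  have hz : 0 < |H1.f Z mid| := abs_pos.2 hZ
  set C2 := C1 * C * (1 + 8 / |H1.f Z mid| ^ 2) with hC2
  have hC2' : 0 < C2 := by positivity
  obtain ⟨P, hP, hd⟩ := Dv_dense Z (δ := min (|H1.f Z mid| / 8) (√(η / C2) / 2)) (by positivity)
  obtain ⟨p, p', r, hr, hp⟩ := Dv_jet hP
  have hr2 : |H1.f Z mid| ^ 2 ≤ 4 * r ^ 2 := by
    have h1 := (H1.f (Z - P)).norm_coe_le_norm mid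
    have h2 := norm_f_le (Z - P)
    have h3 := nrm_le2 (H1.d (Z - P))
    have h4 := hd.trans (min_le_left _ _)
    rw [map_sub, D.sub_apply, ← hr] at h1
    rw [map_sub] at h2
    have h5 := abs_sub_abs_le_abs_sub (H1.f Z mid) r
    rw [← sq_abs r]
    nlinarith [abs_nonneg r]
  refine ⟨M + 1, fun j => (if j = M then p else a j).smul √(C2 / c0), p'.smul (2 * C2), η, hη',
    C1 + C1 * C, fun i => ?_⟩
  have e1 : c0 * ∑ j ∈ Finset.range (M + 1), L2 i.v ((if j = M then p else a j).smul √(C2 / c0)) ^ 2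
      = C2 * (∑ j ∈ Finset.range M, L2 i.v (a j) ^ 2 + L2 i.v p ^ 2) := by
    simp only [L2_smul, mul_pow, sq_sqrt (by positivity : 0 ≤ C2 / c0)]
    rw [← Finset.mul_sum, ← mul_assoc, mul_div_cancel₀ _ hc0.ne', Finset.sum_range_succ, if_pos rfl]
    congr 2
    exact Finset.sum_congr rfl fun j hj => by rw [if_neg (Finset.mem_range.1 hj).ne]
  rw [e1, L1_smul, ← (hp i.v).2]
  obtain ⟨b1, b2⟩ := hb i
  have b3 := ht i.v i.w i.e i.hn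
  have b4 : H1.nr i.w ≤ |co i.w| * H1.nr S2 + 2 * PJ.nrm (H1.d (pr i.w)) := by
    nth_rewrite 1 [pr_add i.w]
    refine (map_add_le_add _ _ _).trans (add_le_add ?_ (nr_le _))
    rw [map_smul_eq_mul, Real.norm_eq_abs]
  have b5 : C2 * Ad i.v (Z - P) ^ 2 ≤ η * PJ.nrm i.v ^ 2 := by
    have k1 : |Ad i.v (Z - P)| ≤ PJ.nrm i.v * √(η / C2) :=
      (J_mul_le _ _).trans (mul_le_mul_of_nonneg_left ((nrm_le2 _).trans
        (by linarith [hd.trans (min_le_right _ _)])) (apply_nonneg _ _))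
    have k2 := sq_le_sq' (abs_le.1 k1).1 (abs_le.1 k1).2
    rw [mul_pow, sq_sqrt (by positivity)] at k2
    refine (mul_le_mul_of_nonneg_left k2 hC2'.le).trans_eq ?_
    field_simp
  have b6 : Ad i.v S1 ^ 2 ≤ 8 / |H1.f Z mid| ^ 2 * (Ad i.v P ^ 2 + L2 i.v p ^ 2) := by
    rw [div_mul_eq_mul_div, le_div_iff₀ (by positivity), (hp i.v).1]
    nlinarith [mul_le_mul_of_nonneg_left hr2 (sq_nonneg (Ad i.v S1)),
      sq_nonneg (2 * L2 i.v p + r * Ad i.v S1)]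
  have b7 : i.ℓ ^ 2 ≤ 2 * (PJ.nrm (H1.f (pr i.w)) ^ 2 + i.e ^ 2) := by
    rw [X0.ℓ]; nlinarith [sq_nonneg (PJ.nrm (H1.f (pr i.w)) - i.e)]
  have n1 := apply_nonneg PJ.nrm i.v
  have n2 := apply_nonneg H1.nr i.w
  have n3 : 0 ≤ ∑ j ∈ Finset.range M, L2 i.v (a j) ^ 2 := by positivity
  rw [Ad_sub] at b5
  rw [← sq_abs (co i.w)] at b1
  generalize ∑ j ∈ Finset.range M, L2 i.v (a j) ^ 2 = T at *
  generalize PJ.nrm (H1.d (pr i.w)) = W at *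
  generalize PJ.nrm (H1.f (pr i.w)) = L at *
  generalize |co i.w| = A at *
  have b8 : (PJ.nrm i.v + H1.nr i.w) ^ 2 ≤ c1 * (A ^ 2 + W ^ 2 + i.ℓ ^ 2) := by
    have k1 : PJ.nrm i.v + H1.nr i.w ≤ 3 * W + C0 * i.ℓ + H1.nr S2 * A := by linarith
    refine (pow_le_pow_left₀ (by positivity) k1 2).trans ?_
    rw [hc1]
    linarith [sq_nonneg (3 * i.ℓ - C0 * W), sq_nonneg (3 * A - H1.nr S2 * W),
      sq_nonneg (C0 * A - H1.nr S2 * i.ℓ)]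
  have b9 : η * (PJ.nrm i.v + H1.nr i.w) ^ 2 ≤ w0 / 4 * (A ^ 2 + W ^ 2 + i.ℓ ^ 2) := by
    refine (mul_le_mul_of_nonneg_left b8 hη'.le).trans_eq ?_
    rw [hη]; field_simp
  have b10 : η * PJ.nrm i.v ^ 2 ≤ η * (PJ.nrm i.v + H1.nr i.w) ^ 2 :=
    mul_le_mul_of_nonneg_left (pow_le_pow_left₀ n1 (by linarith) 2) hη'.le
  have b11 := mul_le_mul_of_nonneg_left b3 hC1'.le
  rw [mul_add, ← mul_assoc, mul_div_cancel₀ _ hC1'.ne'] at b11
  have b12 := mul_le_mul_of_nonneg_left b6 (mul_pos hC1' hC).le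
  have b13 := mul_le_mul_of_nonneg_left b7 (half_pos hC1').le
  have b14 : 0 ≤ C1 * C * (8 / |H1.f Z mid| ^ 2) * T := by positivity
  have b15 : 0 ≤ C1 * C * (Ad i.v P ^ 2 + L2 i.v p ^ 2) := by positivity
  have b16 : 0 ≤ C2 * Ad i.v Z ^ 2 := by positivity
  have b17 : 0 ≤ w0 * A ^ 2 := by positivity
  have b18 : C2 * (T + L2 i.v p ^ 2 + Ad i.v P ^ 2) = C1 * C * (1 + 8 / |H1.f Z mid| ^ 2)
    * (T + L2 i.v p ^ 2 + Ad i.v P ^ 2) := rfl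
  have b19 : C1 / 2 * i.ℓ ^ 2 = (C0 + w0 / 2) * i.ℓ ^ 2 := by rw [hC1]; ring
  linarith

end

end Pool.Agent.P.MP_0d657e_an.E
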