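import Pool.Agent.P.MP_0d657e_an.Basic3

/-! Transfer between functions on the strip and functions on the annulus. -/

open Set Real

namespace Pool.Agent.P.MP_0d657e_an

noncomputable section

lemma mem_Strip (x : ℝ) (t : Icc (0:ℝ) π) : ((x, (t:ℝ)) : ℝ × ℝ) ∈ Strip := ⟨mem_univ _, t.2⟩

lemma uniqueDiffOn_Strip : UniqueDiffOn ℝ Strip :=
  uniqueDiffOn_univ.prod (uniqueDiffOn_Icc pi_pos)

lemma forall_Strip {P : ℝ × ℝ → Prop} (h : ∀ (x : ℝ) (t : Icc (0:ℝ) π), P (x, t)) :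
    ∀ p ∈ Strip, P p := fun p hp => h p.1 ⟨p.2, hp.2⟩

/-- `F` represents `f` -/
def Rep (f : ℝ × ℝ → ℝ) (F : C2) : Prop := ∀ (x : ℝ) (t : Icc (0:ℝ) π), f (x, t) = F x t

lemma hasDerivAt_pd0 {f : ℝ × ℝ → ℝ} (hf : DifferentiableOn ℝ f Strip) (x : ℝ)
    (t : Icc (0:ℝ) π) : HasDerivAt (fun y => f (y, t)) (pd 0 f (x, t)) x := by
  have h1 := (hf _ (mem_Strip x t)).hasFDerivWithinAt
  have h2 : HasDerivWithinAt (fun y : ℝ => ((y, (t:ℝ)) : ℝ × ℝ)) (1, 0) univ x :=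
    ((hasDerivAt_id x).prodMk (hasDerivAt_const x (t:ℝ))).hasDerivWithinAt
  have := h1.comp_hasDerivWithinAt x h2 (fun y _ => mem_Strip y t)
  exact hasDerivWithinAt_univ.1 this

lemma hasDerivWithinAt_pd1 {f : ℝ × ℝ → ℝ} (hf : DifferentiableOn ℝ f Strip) (x : ℝ)
    (t : Icc (0:ℝ) π) : HasDerivWithinAt (fun s => f (x, s)) (pd 1 f (x, t)) (Icc 0 π) t := by
  have h1 := (hf _ (mem_Strip x t)).hasFDerivWithinAt
  have h2 : HasDerivWithinAt (fun s : ℝ => ((x, s) : ℝ × ℝ)) (0, 1) (Icc 0 π) t :=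
    ((hasDerivAt_const (t:ℝ) x).prodMk (hasDerivAt_id (t:ℝ))).hasDerivWithinAt
  exact h1.comp_hasDerivWithinAt (t:ℝ) h2 (fun s hs => mem_Strip x ⟨s, hs⟩)

lemma Rep.pd0 {f : ℝ × ℝ → ℝ} {F Fx : C2} (h : Rep f F) (hf : DifferentiableOn ℝ f Strip)
    (hx : Dx F Fx) : Rep (pd 0 f) Fx := fun x t => by
  have h1 := hasDerivAt_pd0 hf x t
  simp only [h _ t] at h1
  exact h1.unique (hx.pt x t)

lemma Rep.pd1 {f : ℝ × ℝ → ℝ} {F Ft : C2} (h : Rep f F) (hf : DifferentiableOn ℝ f Strip)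
    (ht : Dt F Ft) : Rep (pd 1 f) Ft := fun x t => by
  have h1 := hasDerivWithinAt_pd1 hf x t
  have h2 := ((ht x).hasDerivWithinAt t).congr (f₁ := fun s => f (x, s))
    (fun s hs => by rw [ext_of_mem _ hs]; exact h x ⟨s, hs⟩) (by simpa using h x t)
  exact (uniqueDiffOn_Icc pi_pos t t.2).eq_deriv _ h1 h2

lemma exists_rep {f : ℝ × ℝ → ℝ} (hc : ContinuousOn f Strip) (hp : Per f) : ∃ F, Rep f F := by
  have hper : ∀ t : Icc (0:ℝ) π, Function.Periodic (fun x : ℝ => f (x, t)) tp :=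
    fun t x => hp _ (mem_Strip x t)
  refine ⟨C2.ofFun (fun x t => (hper t).lift x) ?_, fun x t => rfl⟩
  have hq : IsOpenQuotientMap (Prod.map (fun x : ℝ => (x : T)) (id : Icc (0:ℝ) π → _)) :=
    QuotientAddGroup.isOpenQuotientMap_mk.prodMap IsOpenQuotientMap.id
  rw [← hq.continuous_comp_iff]
  exact hc.comp_continuous (f := fun p : ℝ × Icc (0:ℝ) π => ((p.1, (p.2 : ℝ)) : ℝ × ℝ))
    (by fun_prop) (fun p => mem_Strip p.1 p.2)

lemma IsCk.diff {f : ℝ × ℝ → ℝ} (h : IsCk 1 f) : DifferentiableOn ℝ f Strip :=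
  h.1.differentiableOn one_ne_zero

lemma IsCk.of_top {f : ℝ × ℝ → ℝ} (h : IsCk ((⊤ : ℕ∞) : WithTop ℕ∞) f) : IsCk 1 f :=
  ⟨h.1.of_le (by exact_mod_cast le_top), h.2⟩

lemma IsCk.exists_rep {f : ℝ × ℝ → ℝ} (h : IsCk 1 f) :
    ∃ F Fx Ft, Rep f F ∧ Dx F Fx ∧ Dt F Ft := by
  have hd := h.diff
  have hc : ∀ i, ContinuousOn (pd i f) Strip := fun i =>
    (h.1.continuousOn_fderivWithin uniqueDiffOn_Strip le_rfl).clm_apply continuousOn_const
  have hp0 : Per (pd 0 f) := forall_Strip (fun x t => by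
    have h1 := (hasDerivAt_pd0 hd (x + 2 * π) t).comp_add_const x (2 * π)
    have e : (fun y : ℝ => f (y + 2 * π, t)) = fun y => f (y, t) :=
      funext fun y => h.2 _ (mem_Strip y t)
    rw [e] at h1
    exact h1.unique (hasDerivAt_pd0 hd x t))
  have hp1 : Per (pd 1 f) := forall_Strip (fun x t => by
    have h1 := hasDerivWithinAt_pd1 hd (x + 2 * π) t
    have h2 := (hasDerivWithinAt_pd1 hd x t).congr (f₁ := fun s => f (x + 2 * π, s))
      (fun s hs => h.2 _ (mem_Strip x ⟨s, hs⟩)) (h.2 _ (mem_Strip x t))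
    exact (uniqueDiffOn_Icc pi_pos t t.2).eq_deriv _ h1 h2)
  obtain ⟨F, hF⟩ := MP_0d657e_an.exists_rep h.1.continuousOn h.2
  obtain ⟨Fx, hFx⟩ := MP_0d657e_an.exists_rep (hc 0) hp0
  obtain ⟨Ft, hFt⟩ := MP_0d657e_an.exists_rep (hc 1) hp1
  refine ⟨F, Fx, Ft, hF, Dx_of_pt (fun x t => ?_), fun x => ?_⟩
  · have := hasDerivAt_pd0 hd x t
    simpa only [hF _ t, hFx _ t] using this
  · induction x using QuotientAddGroup.induction_on with
    | H x =>
      refine D1_of_interior (fun t ht => ?_)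
      have ht' := Ioo_subset_Icc_self ht
      have h1 := (hasDerivWithinAt_pd1 hd x ⟨t, ht'⟩).congr (f₁ := ext (F x))
        (fun s hs => by rw [ext_of_mem _ hs]; exact (hF x ⟨s, hs⟩).symm)
        (by rw [ext_of_mem _ ht']; exact (hF x ⟨t, ht'⟩).symm)
      rw [hFt x ⟨t, ht'⟩] at h1
      rw [ext_of_mem _ ht']
      exact h1.hasDerivAt (Icc_mem_nhds ht.1 ht.2)

lemma Rep.unique {f : ℝ × ℝ → ℝ} {F G : C2} (h : Rep f F) (k : Rep f G) : F = G :=
  C2_ext (fun x t => (h x t).symm.trans (k x t))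

/-- the function on the strip attached to a function on the annulus -/
def un (F : C2) : ℝ × ℝ → ℝ := fun p => ext (F p.1) p.2

lemma rep_un (F : C2) : Rep (un F) F := fun x t => by simp [un]

lemma Rep.per {f : ℝ × ℝ → ℝ} {F : C2} (h : Rep f F) : Per f := forall_Strip (fun x t => by
  change f (x + tp, t) = _
  rw [h, h, C2_per])

/-- a diagonal metric with representatives of its coefficients -/
structure Diag (m : Metric) (g h v : C2) : Prop where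
  r0 : Rep (m.g 0 0) g
  r1 : Rep (m.g 1 1) h
  z01 : m.g 0 1 = fun _ => 0
  z10 : m.g 1 0 = fun _ => 0
  g_pos : ∀ x t, 0 < g x t
  h_pos : ∀ x t, 0 < h x t
  v_pos : ∀ x t, 0 < v x t
  v_sq : v * v = g * h

lemma pd_zero (i : Fin 2) : pd i (fun _ => (0:ℝ)) = fun _ => 0 := by
  funext p; simp [pd]

namespace Diag

variable {m : Metric} {g h v : C2} (hm : Diag m g h v)
include hm

lemma mat (x : ℝ) (t : Icc (0:ℝ) π) :
    (Matrix.of fun i j => m.g i j (x, t)) = !![g x t, 0; 0, h x t] := by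
  ext i j
  fin_cases i <;> fin_cases j <;> simp [hm.z01, hm.z10, hm.r0 x t, hm.r1 x t]

lemma inv_mat (x : ℝ) (t : Icc (0:ℝ) π) :
    (Matrix.of fun i j => m.g i j (x, t))⁻¹ = !![(g x t)⁻¹, 0; 0, (h x t)⁻¹] := by
  rw [hm.mat]
  apply Matrix.inv_eq_right_inv
  have := (hm.g_pos x t).ne'
  have := (hm.h_pos x t).ne'
  ext i j
  fin_cases i <;> fin_cases j <;> simp [Matrix.mul_apply, Fin.sum_univ_two, *]

lemma inv00 (x : ℝ) (t : Icc (0:ℝ) π) : m.inv 0 0 (x, t) = (g x t)⁻¹ := by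
  simp [Metric.inv, hm.inv_mat]
lemma inv11 (x : ℝ) (t : Icc (0:ℝ) π) : m.inv 1 1 (x, t) = (h x t)⁻¹ := by
  simp [Metric.inv, hm.inv_mat]
lemma inv01 (x : ℝ) (t : Icc (0:ℝ) π) : m.inv 0 1 (x, t) = 0 := by
  simp [Metric.inv, hm.inv_mat]
lemma inv10 (x : ℝ) (t : Icc (0:ℝ) π) : m.inv 1 0 (x, t) = 0 := by
  simp [Metric.inv, hm.inv_mat]

lemma vol : Rep m.vol v := fun x t => by
  have := congrArg (fun F : C2 => F x t) hm.v_sq
  simp only [C2.mul_apply, D.mul_apply] at this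
  rw [Metric.vol, hm.mat, Matrix.det_fin_two_of, mul_zero, sub_zero, ← this,
    Real.sqrt_mul_self (hm.v_pos x t).le]

lemma vol_diff : DifferentiableOn ℝ m.vol Strip := by
  have h0 := (m.smooth 0 0).of_top.diff
  have h1 := (m.smooth 1 1).of_top.diff
  refine ((h0.mul h1).sqrt (forall_Strip (fun x t => ?_))).congr (forall_Strip (fun x t => ?_))
  · simp only [Pi.mul_apply, hm.r0 x t, hm.r1 x t]
    exact (mul_pos (hm.g_pos x t) (hm.h_pos x t)).ne'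
  · simp [Metric.vol, hm.mat, hm.r0 x t, hm.r1 x t]

lemma gradNorm {f : ℝ × ℝ → ℝ} (x : ℝ) (t : Icc (0:ℝ) π) :
    m.gradNorm f (x, t) = √(pd 0 f (x, t) ^ 2 / g x t + pd 1 f (x, t) ^ 2 / h x t) := by
  simp only [Metric.gradNorm, Metric.grad, Fin.sum_univ_two, hm.inv00, hm.inv01, hm.inv10,
    hm.inv11]
  congr 1; ring

variable {gx gt hx ht vx vt : C2} {u : Fin 2 → ℝ × ℝ → ℝ} {a ax at' c cx ct : C2}

lemma div (hvx : Dx v vx) (hvt : Dt v vt) (hu : ∀ i, DifferentiableOn ℝ (u i) Strip)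
    (ra : Rep (u 0) a) (rc : Rep (u 1) c) (hax : Dx a ax) (hct : Dt c ct) (x : ℝ)
    (t : Icc (0:ℝ) π) :
    m.div u (x, t) = ((vx * a + v * ax) x t + (vt * c + v * ct) x t) / v x t := by
  have r0 : Rep (fun q => m.vol q * u 0 q) (v * a) := fun x t => by simp [hm.vol x t, ra x t]
  have r1 : Rep (fun q => m.vol q * u 1 q) (v * c) := fun x t => by simp [hm.vol x t, rc x t]
  rw [Metric.div, Fin.sum_univ_two, r0.pd0 (hm.vol_diff.mul (hu 0)) (hvx.mul hax) x t,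
    r1.pd1 (hm.vol_diff.mul (hu 1)) (hvt.mul hct) x t, hm.vol x t]

lemma curl (hgt : Dt g gt) (hhx : Dx h hx) (hu : ∀ i, DifferentiableOn ℝ (u i) Strip)
    (ra : Rep (u 0) a) (rc : Rep (u 1) c) (hat : Dt a at') (hcx : Dx c cx) (x : ℝ)
    (t : Icc (0:ℝ) π) :
    m.curl u (x, t) = ((hx * c + h * cx) x t - (gt * a + g * at') x t) / v x t := by
  have r0 : Rep (fun q => ∑ j, m.g 0 j q * u j q) (g * a) := fun x t => by
    simp [hm.r0 x t, ra x t, hm.z01]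
  have r1 : Rep (fun q => ∑ j, m.g 1 j q * u j q) (h * c) := fun x t => by
    simp [hm.r1 x t, rc x t, hm.z10]
  have hd : ∀ i, DifferentiableOn ℝ (fun q => ∑ j, m.g i j q * u j q) Strip := fun i =>
    DifferentiableOn.fun_sum (fun j _ => (m.smooth i j).of_top.diff.mul (hu j))
  rw [Metric.curl, r0.pd1 (hd 0) (hgt.mul hat) x t, r1.pd0 (hd 1) (hhx.mul hcx) x t, hm.vol x t]

lemma euler (hgx : Dx g gx) (hgt : Dt g gt) (hhx : Dx h hx) (hht : Dt h ht)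
    (hu : ∀ i, DifferentiableOn ℝ (u i) Strip)
    (ra : Rep (u 0) a) (rc : Rep (u 1) c) (hax : Dx a ax) (hat : Dt a at') (hcx : Dx c cx)
    (hct : Dt c ct) {P : ℝ × ℝ → ℝ} {p px pt : C2} (hP : DifferentiableOn ℝ P Strip)
    (rp : Rep P p) (hpx : Dx p px) (hpt : Dt p pt) (x : ℝ) (t : Icc (0:ℝ) π) :
    g x t * (m.advect u 0 (x, t) + m.grad P 0 (x, t)) =
      (px + (1/2:ℝ) • (gx * a * a + 2 * g * a * ax + hx * c * c + 2 * h * c * cx)
        - c * ((hx * c + h * cx) - (gt * a + g * at'))) x t ∧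
    h x t * (m.advect u 1 (x, t) + m.grad P 1 (x, t)) =
      (pt + (1/2:ℝ) • (gt * a * a + 2 * g * a * at' + ht * c * c + 2 * h * c * ct)
        + a * ((hx * c + h * cx) - (gt * a + g * at'))) x t := by
  have d0 := (m.smooth 0 0).of_top.diff
  have d1 := (m.smooth 1 1).of_top.diff
  have := (hm.g_pos x t).ne'
  have := (hm.h_pos x t).ne'
  simp only [Metric.advect, Metric.grad, Metric.Γ, Fin.sum_univ_two, hm.inv00, hm.inv01, hm.inv10,
    hm.inv11, hm.z01, hm.z10, pd_zero, hm.r0.pd0 d0 hgx x t, hm.r0.pd1 d0 hgt x t,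
    hm.r1.pd0 d1 hhx x t, hm.r1.pd1 d1 hht x t, ra.pd0 (hu 0) hax x t, ra.pd1 (hu 0) hat x t,
    rc.pd0 (hu 1) hcx x t, rc.pd1 (hu 1) hct x t, rp.pd0 hP hpx x t, rp.pd1 hP hpt x t,
    ra x t, rc x t, C2.add_apply, C2.sub_apply, C2.mul_apply, C2.smul_apply, C2.ofNat_apply,
    D.add_apply, D.sub_apply, D.mul_apply, D.smul_apply, D.ofNat_apply]
  constructor <;> field_simp <;> ring

end Diag

end

end Pool.Agent.P.MP_0d657e_an
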