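import Pool.Agent.P.MP_0d657e_an.RedB1

/-! The metric attached to the design, the base flow, and the stream function form of a steady
flow. -/

open Set Real

namespace Pool.Agent.P.MP_0d657e_an

noncomputable section

/-- smoothness on the strip -/
def Sm (F : C2) : Prop := ContDiffOn ℝ ((⊤ : ℕ∞) : WithTop ℕ∞) (un F) Strip

namespace Sm
variable {F G : C2}
lemma add (h : Sm F) (k : Sm G) : Sm (F + G) := ContDiffOn.add h k
lemma sub (h : Sm F) (k : Sm G) : Sm (F - G) := ContDiffOn.sub h k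
lemma neg (h : Sm F) : Sm (-F) := ContDiffOn.neg h
lemma mul (h : Sm F) (k : Sm G) : Sm (F * G) := ContDiffOn.mul h k
lemma smul (c : ℝ) (h : Sm F) : Sm (c • F) := ContDiffOn.mul contDiffOn_const h
lemma inv (h : Sm F) (e : F * G = 1) : Sm G := by
  have hz : ∀ (x : ℝ) (t : Icc (0:ℝ) π), F x t * G x t = 1 := fun x t => by
    have := congrArg (fun f : C2 => f x t) e; simpa using this
  refine (ContDiffOn.inv h (forall_Strip (fun x t => ?_))).congr (forall_Strip (fun x t => ?_))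
  · rw [rep_un]; intro h0; simpa [h0] using hz x t
  · simp only [Pi.inv_apply, rep_un _ x t]; exact eq_inv_of_mul_eq_one_right (hz x t)
lemma isCk (h : Sm F) : IsCk ((⊤ : ℕ∞) : WithTop ℕ∞) (un F) := ⟨h, (rep_un F).per⟩
lemma exists_d (h : Sm F) : ∃ Fx Ft, Dx F Fx ∧ Dt F Ft := by
  obtain ⟨F', Fx, Ft, r, hx, ht⟩ := h.isCk.of_top.exists_rep
  obtain rfl := r.unique (rep_un F)
  exact ⟨Fx, Ft, hx, ht⟩
end Sm

lemma Sm_res {f : ℝ → ℝ} (hf : ContDiff ℝ ((⊤ : ℕ∞) : WithTop ℕ∞) f) :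
    Sm (ι (res f hf.continuous)) :=
  (hf.comp contDiff_snd).contDiffOn.congr (forall_Strip (fun x t => by simp [rep_un _ x t]))

lemma Sm_ex (r : ℝ) : Sm (ι (ex r)) := Sm_res (f := fun t => exp (r * t)) (by fun_prop)

lemma Sm_zero : Sm 0 := contDiffOn_const

/-- the base vorticity -/
def F0 : C2 := ι (b • om)
/-- its height derivative -/
def F0t : C2 := ι (-((5:ℝ) • om))

lemma Dt_F0 : Dt F0 F0t := Dt_ι ((D1_om.smul b).congr' (by rw [smul_neg, smul_smul, b_sq]))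
lemma Dx_F0 : Dx F0 0 := Dx_ι _

lemma Sm_F0 : Sm F0 := by
  rw [F0, map_smul]; exact (Sm_ex (-b)).smul b

namespace Geo

variable (G : Geo)

/-- coefficient `g_{00}` -/
def gC : C2 := G.d⁻¹ • (G.μ * G.A)
/-- coefficient `g_{11}` -/
def hC : C2 := G.μ * G.Ai
/-- area density -/
def vC : C2 := (√G.d)⁻¹ • G.μ

lemma AAi (x : T) (t : Icc (0:ℝ) π) : G.A x t * G.Ai x t = 1 := by
  have := congrArg (fun f : C2 => f x t) G.hAi; simpa using this

lemma μF : G.μ * F0 = G.At * ι (ex b) + G.A * (b • ι (ex b)) := by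
  refine C2_ext (fun x t => ?_)
  have h1 : exp (2 * b * t) * exp (-(b * t)) = exp (b * t) := by
    rw [← exp_add]; congr 1; ring
  have := b_pos.ne'
  simp [μ, c, F0, om]
  rw [← h1]; field_simp; ring

lemma Dt_Ae : Dt (G.A * ι (ex b)) (G.μ * F0) :=
  (G.hAt.mul (Dt_ι (D1_ex b))).congr' (by rw [μF, map_smul])

variable {G}

lemma Exact.μ_pos (hE : G.Exact) (x : T) (t : Icc (0:ℝ) π) : 0 < G.μ x t := by
  simp only [μ, C2.mul_apply, D.mul_apply, ι_apply, ex_apply]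
  exact mul_pos (hE.c_pos x t) (exp_pos _)

lemma Exact.Ai_pos (hE : G.Exact) (x : T) (t : Icc (0:ℝ) π) : 0 < G.Ai x t :=
  (pos_iff_pos_of_mul_pos (by rw [G.AAi x t]; exact one_pos)).1 (hE.A_pos x t)

lemma Smooth.μ (hS : G.Smooth) : Sm G.μ :=
  (Sm.add (F := G.A) hS.1 (Sm.smul _ (F := G.At) hS.2)).mul (Sm_ex _)
lemma Smooth.gC (hS : G.Smooth) : Sm G.gC := (hS.μ.mul (G := G.A) hS.1).smul _
lemma Smooth.hC (hS : G.Smooth) : Sm G.hC := hS.μ.mul (Sm.inv (F := G.A) hS.1 G.hAi)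
lemma Smooth.vC (hS : G.Smooth) : Sm G.vC := hS.μ.smul _

lemma Exact.g_pos (hE : G.Exact) (x : T) (t : Icc (0:ℝ) π) : 0 < G.gC x t := by
  simp only [gC, C2.smul_apply, D.smul_apply, C2.mul_apply, D.mul_apply]
  exact mul_pos (inv_pos.2 G.d_pos) (mul_pos (hE.μ_pos x t) (hE.A_pos x t))
lemma Exact.h_pos (hE : G.Exact) (x : T) (t : Icc (0:ℝ) π) : 0 < G.hC x t :=
  mul_pos (hE.μ_pos x t) (hE.Ai_pos x t)
lemma Exact.v_pos (hE : G.Exact) (x : T) (t : Icc (0:ℝ) π) : 0 < G.vC x t := by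
  simp only [vC, C2.smul_apply, D.smul_apply]
  exact mul_pos (inv_pos.2 (sqrt_pos.2 G.d_pos)) (hE.μ_pos x t)

/-- the designed metric -/
def met (hE : G.Exact) (hS : G.Smooth) : Metric where
  g := ![![un G.gC, fun _ => 0], ![fun _ => 0, un G.hC]]
  smooth i j := by
    fin_cases i <;> fin_cases j
    · exact hS.gC.isCk
    · exact ⟨contDiffOn_const, fun _ _ => rfl⟩
    · exact ⟨contDiffOn_const, fun _ _ => rfl⟩
    · exact hS.hC.isCk
  posDef := forall_Strip (fun x t => by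
    have e : (Matrix.of fun i j => (![![un G.gC, fun _ => 0], ![fun _ => 0, un G.hC]] :
        Fin 2 → Fin 2 → ℝ × ℝ → ℝ) i j (x, t)) = Matrix.diagonal ![G.gC x t, G.hC x t] := by
      ext i j
      fin_cases i <;> fin_cases j <;> simp [rep_un _ x t]
    rw [e, Matrix.posDef_diagonal_iff]
    intro i
    fin_cases i
    · exact hE.g_pos x t
    · exact hE.h_pos x t)

lemma diag (hE : G.Exact) (hS : G.Smooth) : Diag (met hE hS) G.gC G.hC G.vC where
  r0 := rep_un _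
  r1 := rep_un _
  z01 := rfl
  z10 := rfl
  g_pos := hE.g_pos
  h_pos := hE.h_pos
  v_pos := hE.v_pos
  v_sq := by
    refine C2_ext (fun x t => ?_)
    have h1 := G.AAi x t
    have h2 : (√G.d)⁻¹ * (√G.d)⁻¹ = G.d⁻¹ := by
      rw [← mul_inv, mul_self_sqrt G.d_pos.le]
    simp only [gC, hC, vC, C2.smul_apply, D.smul_apply, C2.mul_apply, D.mul_apply]
    linear_combination (G.μ x t * G.μ x t) * h2 - (G.d⁻¹ * G.μ x t * G.μ x t) * h1

lemma gA : (√G.d) • G.gC = G.A * G.vC := by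
  refine C2_ext (fun x t => ?_)
  have h2 : √G.d * √G.d = G.d := mul_self_sqrt G.d_pos.le
  have h3 := (sqrt_pos.2 G.d_pos).ne'
  simp only [gC, vC, C2.smul_apply, D.smul_apply, C2.mul_apply, D.mul_apply]
  generalize √G.d = s at *
  rw [← h2]; field_simp

lemma hA : (√G.d) • G.hC = G.d • (G.Ai * G.vC) := by
  refine C2_ext (fun x t => ?_)
  have h2 : √G.d * √G.d = G.d := mul_self_sqrt G.d_pos.le
  have h3 := (sqrt_pos.2 G.d_pos).ne'
  simp only [hC, vC, C2.smul_apply, D.smul_apply, C2.mul_apply, D.mul_apply]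
  generalize √G.d = s at *
  rw [← h2]; field_simp

lemma vμ : (√G.d) • G.vC = G.μ := by
  rw [vC, smul_smul, mul_inv_cancel₀ (sqrt_pos.2 G.d_pos).ne', one_smul]

lemma base_steady (hE : G.Exact) (hS : G.Smooth) : (met hE hS).IsSteadyVort (un F0) := by
  have hm := diag hE hS
  obtain ⟨vi, hvi⟩ := exists_inv2 (fun x t => (hE.v_pos x t).ne')
  have hs : (0:ℝ) < √G.d := sqrt_pos.2 G.d_pos
  set a : C2 := -(vi * ι (ex b)) with ha
  have sa : Sm a := ((hS.vC.inv hvi).mul (Sm_ex b)).neg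
  obtain ⟨ax, at', hax, hat⟩ := sa.exists_d
  obtain ⟨gx, gt, hgx, hgt⟩ := hS.gC.exists_d
  obtain ⟨hx, ht, hhx, hht⟩ := hS.hC.exists_d
  obtain ⟨vx, vt, hvx, hvt⟩ := hS.vC.exists_d
  have hva : G.vC * a = -ι (ex b) := by rw [ha, mul_neg, ← mul_assoc, hvi, one_mul]
  have e1 : vx * a + G.vC * ax = 0 := by
    have := hvx.mul hax
    rw [hva] at this
    simpa using this.unique (Dx_ι (ex b)).neg
  have e2 : gt * a + G.gC * at' = -(G.vC * F0) := by
    have h1 := (hgt.mul hat).smul (√G.d)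
    rw [← smul_mul_assoc, gA, mul_assoc, hva, mul_neg] at h1
    have h2 := h1.unique G.Dt_Ae.neg
    rw [← vμ, smul_mul_assoc, ← smul_neg] at h2
    exact smul_right_injective _ hs.ne' h2
  let u : Fin 2 → ℝ × ℝ → ℝ := ![un a, un 0]
  have hu1 : ∀ i, IsCk 1 (u i) := fun i => by
    fin_cases i
    · exact sa.isCk.of_top
    · exact Sm_zero.isCk.of_top
  have hu : ∀ i, DifferentiableOn ℝ (u i) Strip := fun i => (hu1 i).diff
  have ra : Rep (u 0) a := rep_un a
  have rc : Rep (u 1) 0 := rep_un 0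
  let tt : D0 := res (fun t => b * t) (contDiff_const.mul contDiff_id :
    ContDiff ℝ ((⊤ : ℕ∞) : WithTop ℕ∞) (fun t : ℝ => b * t)).continuous
  have htt : D1 tt (algebraMap ℝ _ b) :=
    (D1_res (f' := fun _ => b) _ continuous_const
      (fun t => by simpa using (hasDerivAt_id t).const_mul b)).congr' (by ext t; simp)
  have sp : Sm (ι tt - (1/2:ℝ) • (G.gC * a * a)) :=
    (Sm_res (f := fun t => b * t) (contDiff_const.mul contDiff_id)).sub
      (((hS.gC.mul sa).mul sa).smul _)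
  refine ⟨Sm_F0.isCk.of_top, u, ⟨hu1, fun x => ⟨rfl, rfl⟩, forall_Strip (fun x t => ?_),
    un _, sp.isCk.of_top, forall_Strip (fun x t => ?_)⟩, forall_Strip (fun x t => ?_)⟩
  · rw [hm.div hvx hvt hu ra rc hax Dt_zero, e1]; simp
  · obtain ⟨k0, k1⟩ := hm.euler hgx hgt hhx hht hu ra rc hax hat Dx_zero Dt_zero
      sp.isCk.of_top.diff (rep_un _) ((Dx_ι tt).sub (((hgx.mul hax).mul hax).smul (1/2:ℝ)))
      ((Dt_ι htt).sub (((hgt.mul hat).mul hat).smul (1/2:ℝ))) x t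
    intro k
    fin_cases k
    · exact (mul_eq_zero.1 (k0.trans (by simp; ring))).resolve_left (hE.g_pos x t).ne'
    · refine (mul_eq_zero.1 (k1.trans ?_)).resolve_left (hE.h_pos x t).ne'
      have h1 := congrArg (fun f : C2 => f x t) e2
      have h2 := congrArg (fun f : C2 => f x t) hva
      have h3 : exp (b * t) * exp (-(b * t)) = 1 := by rw [← exp_add]; simp
      simp [F0] at h1 h2 ⊢
      linear_combination (-a x t) * h1 + (b * exp (-(b * t))) * h2 - b * h3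
  · rw [hm.curl hgt hhx hu ra rc hat Dx_zero, e2, rep_un]
    have := (hE.v_pos x t).ne'
    simp
    field_simp

end Geo

/-- a steady flow in stream function form -/
structure Sol (G : Geo) where
  U1 : C2
  U2 : C2
  U1x : C2
  U12 : C2
  U2t : C2
  W1x : C2
  W2t : C2
  w : C2
  wx : C2
  wt : C2
  Hb : C2
  h1x : Dx U1 U1x
  h1t : Dt U1 U12
  h2x : Dx U2 U12
  h2t : Dt U2 U2t
  lo1 : ∀ x, U1 x lo = 0
  hi1 : ∀ x, U1 x hi = 0
  hW1 : Dx (G.d • (G.Ai * U1)) W1x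
  hW2 : Dt (G.A * U2) W2t
  curl : W1x + W2t = G.μ * w
  hwx : Dx w wx
  hwt : Dt w wt
  hHx : Dx Hb (w * U1)
  hHt : Dt Hb (w * U2)

lemma exists_sol {G : Geo} (hE : G.Exact) (hS : G.Smooth) {w' : ℝ × ℝ → ℝ}
    (h : (Geo.met hE hS).IsSteadyVort w') : ∃ S : Sol G, Rep w' S.w := by
  have hm := Geo.diag hE hS
  obtain ⟨hw, u, ⟨hu1, htan, hdiv, P, hP, heul⟩, hcurl⟩ := h
  obtain ⟨w, wx, wt, rw', hwx, hwt⟩ := hw.exists_rep
  obtain ⟨a, ax, at', ra, hax, hat⟩ := (hu1 0).exists_rep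
  obtain ⟨c, cx, ct, rc, hcx, hct⟩ := (hu1 1).exists_rep
  obtain ⟨p, px, pt, rp, hpx, hpt⟩ := hP.exists_rep
  obtain ⟨gx, gt, hgx, hgt⟩ := hS.gC.exists_d
  obtain ⟨hx, ht, hhx, hht⟩ := hS.hC.exists_d
  obtain ⟨vx, vt, hvx, hvt⟩ := hS.vC.exists_d
  have hu : ∀ i, DifferentiableOn ℝ (u i) Strip := fun i => (hu1 i).diff
  have e1 : -(vx * a + G.vC * ax) = vt * c + G.vC * ct := C2_ext (fun x t => by
    have := hdiv _ (mem_Strip x t)
    rw [hm.div hvx hvt hu ra rc hax hct, div_eq_zero_iff] at this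
    have := this.resolve_right (hE.v_pos x t).ne'
    rw [C2.neg_apply, D.neg_apply]; linarith)
  have e2 : (hx * c + G.hC * cx) - (gt * a + G.gC * at') = G.vC * w := C2_ext (fun x t => by
    have := hcurl _ (mem_Strip x t)
    rw [hm.curl hgt hhx hu ra rc hat hcx, rw' x t, eq_div_iff (hE.v_pos x t).ne'] at this
    rw [C2.sub_apply, D.sub_apply, ← this]; simp [mul_comm])
  have e3 := fun x t => hm.euler hgx hgt hhx hht hu ra rc hax hat hcx hct hP.diff rp hpx hpt x t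
  simp only [e2, heul _ (mem_Strip _ _), mul_zero] at e3
  have hlo : ∀ x : T, c x lo = 0 ∧ c x hi = 0 := fun x => by
    induction x using QuotientAddGroup.induction_on with
    | H x => exact ⟨(rc x lo).symm.trans (htan x).1, (rc x hi).symm.trans (htan x).2⟩
  refine ⟨⟨G.vC * c, -(G.vC * a), _, vt * c + G.vC * ct, _, (√G.d) • (hx * c + G.hC * cx),
    -((√G.d) • (gt * a + G.gC * at')), w, wx, wt,
    p + (1/2:ℝ) • (G.gC * a * a + G.hC * c * c), hvx.mul hcx, hvt.mul hct,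
    (hvx.mul hax).neg.congr' e1.symm, (hvt.mul hat).neg, fun x => by simp [(hlo x).1],
    fun x => by simp [(hlo x).2], ?_, ?_, ?_, hwx, hwt, ?_, ?_⟩, rw'⟩
  · refine ((hhx.mul hcx).smul _).congr ?_ rfl
    rw [← smul_mul_assoc (√G.d), Geo.hA, smul_mul_assoc, mul_assoc]
  · refine ((hgt.mul hat).smul _).neg.congr ?_ rfl
    rw [← smul_mul_assoc, Geo.gA, mul_neg, mul_assoc]
  · rw [← sub_eq_add_neg, ← smul_sub, e2, ← smul_mul_assoc, Geo.vμ]
  · refine (hpx.add ((((hgx.mul hax).mul hax).add ((hhx.mul hcx).mul hcx)).smul _)).congr'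
      (C2_ext (fun x t => ?_))
    have := (e3 x t).1
    simp at this ⊢
    linear_combination this
  · refine (hpt.add ((((hgt.mul hat).mul hat).add ((hht.mul hct).mul hct)).smul _)).congr'
      (C2_ext (fun x t => ?_))
    have := (e3 x t).2
    simp at this ⊢
    linear_combination this

/-- the statement in stream function form -/
def Core (G : Geo) : Prop :=
  ∃ ε > 0, ∀ S : Sol G, ‖S.w - F0‖ ≤ ε → ‖S.wx‖ ≤ ε → ‖S.wt - F0t‖ ≤ ε →
    ∃ c : ℝ, c ≠ 0 ∧ S.w = c • F0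

lemma isolated_of_core {G : Geo} (hE : G.Exact) (hS : G.Smooth) (h : Core G) : Isolated := by
  obtain ⟨ε, hε, h⟩ := h
  have hm := Geo.diag hE hS
  set M := 1 + ‖G.gC‖ + ‖G.hC‖ with hM
  have hM1 : 1 ≤ M := by linarith [norm_nonneg G.gC, norm_nonneg G.hC]
  have hM0 : 0 < M := by linarith
  refine ⟨Geo.met hE hS, un F0, ε / M, by positivity, Geo.base_steady hE hS, fun w' hw hs => ?_⟩
  obtain ⟨S, r⟩ := exists_sol hE hS hw
  have r' : Rep (fun p => w' p - un F0 p) (S.w - F0) := fun x t => by simp [r x t, rep_un _ x t]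
  have hd : DifferentiableOn ℝ (fun p => w' p - un F0 p) Strip :=
    hw.1.diff.sub Sm_F0.isCk.of_top.diff
  have key : ∀ y z k : ℝ, 0 < k → k ≤ M → 0 ≤ z → √(y ^ 2 / k + z) ≤ ε / M → |y| ≤ ε := by
    intro y z k hk hkM hz h1
    rw [sqrt_le_left (by positivity)] at h1
    have h2 : y ^ 2 ≤ (ε / M) ^ 2 * k := (div_le_iff₀ hk).1 (by linarith)
    refine abs_le_of_sq_le_sq' (h2.trans ?_) hε.le |> abs_le.2
    rw [div_pow, div_mul_eq_mul_div, div_le_iff₀ (by positivity)]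
    exact mul_le_mul_of_nonneg_left (by nlinarith) (by positivity)
  obtain ⟨c, hc, e⟩ := h S
    (C2_norm_le hε.le (fun x t => by
      have := (hs _ (mem_Strip x t)).1
      rw [r' x t] at this
      exact this.trans (div_le_self hε.le hM1)))
    (C2_norm_le hε.le (fun x t => by
      have := (hs _ (mem_Strip x t)).2
      rw [hm.gradNorm, r'.pd0 hd (S.hwx.sub Dx_F0), sub_zero] at this
      exact key _ _ _ (hE.g_pos x t) (by
        linarith [le_abs_self (G.gC x t), C2_abs_le G.gC x t, norm_nonneg G.hC])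
        (div_nonneg (sq_nonneg _) (hE.h_pos x t).le) this))
    (C2_norm_le hε.le (fun x t => by
      have := (hs _ (mem_Strip x t)).2
      rw [hm.gradNorm, r'.pd1 hd (S.hwt.sub Dt_F0), add_comm] at this
      exact key _ _ _ (hE.h_pos x t) (by
        linarith [le_abs_self (G.hC x t), C2_abs_le G.hC x t, norm_nonneg G.gC])
        (div_nonneg (sq_nonneg _) (hE.g_pos x t).le) this))
  exact ⟨c, hc, forall_Strip (fun x t => by rw [r x t, e, rep_un]; simp)⟩

end

end Pool.Agent.P.MP_0d657e_an
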