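import Pool.Agent.P.MP_0d657e_an.RedB2

/-! Level curves of the vorticity of a steady flow. -/

open Set Real Filter Topology Asymptotics

namespace Pool.Agent.P.MP_0d657e_an

noncomputable section

/-- value at the lower boundary as a constant function -/
def L0 : D0 →L[ℝ] D0 := (algebraMapCLM ℝ D0).comp (D.ev lo)

@[simp] lemma L0_apply (y : D0) (t : Icc (0:ℝ) π) : L0 y t = y lo := by simp [L0]

lemma Dt.split {F G : C2} (h : Dt F G) : F = lift2 L0 F + lift2 V G :=
  C2.ext (fun x => (h x).eq_V)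

lemma Dt_L0 (F : C2) : Dt (lift2 L0 F) 0 := fun x => D1_const (F x lo)

/-- symmetry of second derivatives -/
lemma Dt_of_sym {F a c cx : C2} (hx : Dx F a) (ht : Dt F c) (hc : Dx c cx) : Dt a cx := by
  have h1 : Dx F (lift2 L0 a + lift2 V cx) := ((hx.lift2 L0).add (hc.lift2 V)).congr ht.split rfl
  exact ((Dt_L0 a).add (Dt_V cx)).congr (hx.unique h1) (zero_add _).symm

lemma D1.mul_zero_at {y z z' : D0} (h : D1 z z') (t : Icc (0:ℝ) π) (h0 : z t = 0) :
    HasDerivWithinAt (ext (y * z)) (y t * z' t) (Icc 0 π) t := by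
  have h1 := h.hasDerivWithinAt t
  rw [hasDerivWithinAt_iff_tendsto_slope] at h1 ⊢
  have h2 : Tendsto (ext y) (𝓝[Icc 0 π \ {(t:ℝ)}] t) (𝓝 (y t)) := by
    rw [← ext_coe y t]; exact (ext_cont y).continuousWithinAt
  refine (h2.mul h1).congr (fun s => ?_)
  have e : ext (y * z) s = ext y s * ext z s := rfl
  simp only [slope_def_field, ext_coe, D.mul_apply, h0, e]
  ring

lemma D1.littleO {α : Type*} {l : Filter α} {g g' : D0} (h : D1 g g') {t : Icc (0:ℝ) π}
    (h0 : g' t = 0) {y : α → Icc (0:ℝ) π} {k : α → ℝ} (hy : (fun a => (y a : ℝ) - t) =O[l] k)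
    (hk : Tendsto k l (𝓝 0)) : (fun a => g (y a) - g t) =o[l] k := by
  have h1 := (h.hasDerivWithinAt t).isLittleO
  have h2 : Tendsto (fun a => (y a : ℝ)) l (𝓝[Icc 0 π] t) :=
    tendsto_nhdsWithin_iff.2 ⟨by simpa using (hy.trans_tendsto hk).add_const (t:ℝ),
      Eventually.of_forall (fun a => (y a).2)⟩
  refine IsLittleO.trans_isBigO ?_ hy
  simpa [h0, Function.comp_def] using h1.comp_tendsto h2

/-- derivative along a Lipschitz curve at a critical point -/
lemma hasDerivAt_along {F Fx Ft : C2} (hx : Dx F Fx) (ht : Dt F Ft) {y : ℝ → Icc (0:ℝ) π}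
    {x : ℝ} (hy : (fun z => (y z : ℝ) - y x) =O[𝓝 x] fun z => z - x) (h0 : Ft x (y x) = 0) :
    HasDerivAt (fun z : ℝ => F z (y z)) (Fx x (y x)) x := by
  have hk : Tendsto (fun z => z - x) (𝓝 x) (𝓝 0) := by
    simpa using (tendsto_id (x := 𝓝 x)).sub_const x
  have h1 : (fun z : ℝ => (F z - F x - (z - x) • Fx x) (y z)) =o[𝓝 x] fun z => z - x :=
    IsBigO.trans_isLittleO (isBigO_of_le _ (fun z => D.norm_coe_le_norm _ _)) (hx x).isLittleO
  have h2 : (fun z : ℝ => (z - x) * (Fx x (y z) - Fx x (y x))) =o[𝓝 x] fun z => z - x := by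
    have h3 : Tendsto y (𝓝 x) (𝓝 (y x)) := by
      rw [tendsto_subtype_rng]
      simpa using (hy.trans_tendsto hk).add_const (y x : ℝ)
    have h4 : Tendsto (fun z => Fx x (y z) - Fx x (y x)) (𝓝 x) (𝓝 0) := by
      simpa using (((Fx x).continuous.tendsto _).comp h3).sub_const (Fx x (y x))
    simpa using (isBigO_refl (fun z : ℝ => z - x) (𝓝 x)).mul_isLittleO
      ((isLittleO_one_iff ℝ).2 h4)
  have h3 := (ht x).littleO h0 hy hk
  rw [hasDerivAt_iff_isLittleO]
  refine ((h1.add h2).add h3).congr_left (fun z => ?_)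
  simp
  ring

/-- average along a curve -/
def av (y : ℝ → Icc (0:ℝ) π) (F : C2) : ℝ := tp⁻¹ * ∫ x in (0:ℝ)..tp, F x (y x)

lemma cont_along {y : ℝ → Icc (0:ℝ) π} (hy : Continuous y) (F : C2) :
    Continuous fun x : ℝ => F x (y x) :=
  F.cont2.comp ((AddCircle.continuous_mk' tp).prodMk hy)

lemma av_sub_le {y : ℝ → Icc (0:ℝ) π} (hy : Continuous y) {F F' : C2} {t : Icc (0:ℝ) π} {r : ℝ}
    (h : ∀ x : ℝ, |F x (y x) - F' x t| ≤ r) : |av y F - avg F' t| ≤ r := by
  rw [av, avg_apply, ← mul_sub, ← intervalIntegral.integral_sub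
    ((cont_along hy F).intervalIntegrable _ _)
    ((cont_along (y := fun _ => t) continuous_const F').intervalIntegrable _ _), abs_mul,
    abs_of_pos (inv_pos.2 tp_pos), inv_mul_le_iff₀ tp_pos]
  have := intervalIntegral.norm_integral_le_of_norm_le_const (a := 0) (b := tp)
    (f := fun x : ℝ => F x (y x) - F' x t) (fun x _ => h x)
  rwa [sub_zero, abs_of_pos tp_pos, mul_comm] at this

namespace Sol

variable {G : Geo} (S : Sol G)

lemma compat : S.wt * S.U1 = S.wx * S.U2 := by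
  have := (S.hwt.mul S.h1t).unique (Dt_of_sym S.hHx S.hHt (S.hwx.mul S.h2x))
  exact add_right_cancel this

lemma compat' (x : T) (t : Icc (0:ℝ) π) : S.wt x t * S.U1 x t = S.wx x t * S.U2 x t :=
  congrArg (fun F : C2 => F x t) S.compat

/-- the stream function -/
def ψ : C2 := lift2 V S.U2

lemma Dt_ψ : Dt S.ψ S.U2 := Dt_V _

lemma Dx_ψ : Dx S.ψ S.U1 := (S.h2x.lift2 V).congr' (by
  rw [S.h1t.split]
  ext x t
  simp [S.lo1])

lemma wx_bdry (hE : G.Exact) (hw : ∀ x t, 0 < S.w x t) {t : Icc (0:ℝ) π}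
    (h1 : ∀ x, S.U1 x t = 0) (x : ℝ) : S.wx x t = 0 := by
  by_contra hne
  have hc : Continuous fun z : ℝ => S.wx z t := cont_along continuous_const _
  have h2 : ∀ᶠ z : ℝ in 𝓝 x, S.U2 z t = 0 :=
    (hc.continuousAt.eventually_ne hne).mono (fun z hz => by
      have := S.compat' z t
      rw [h1, mul_zero] at this
      exact (mul_eq_zero.1 this.symm).resolve_left hz)
  have h3 : S.U12 x t = 0 :=
    (S.h2x.pt x t).unique ((hasDerivAt_const x (0:ℝ)).congr_of_eventuallyEq h2)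
  have h4 : S.W1x x t = 0 := by
    have := S.hW1.pt x t
    simp only [C2.smul_apply, C2.mul_apply, D.smul_apply, D.mul_apply, h1, mul_zero] at this
    exact this.unique (hasDerivAt_const x (0:ℝ))
  have h5 := congrArg (fun F : C2 => F x t) S.curl
  have h6 := congrArg (fun F : C2 => F x t) (S.hW2.unique (G.hAt.mul S.h2t))
  have h7 := (S.h1t x).mul_zero_at (y := S.wt x) t (h1 x)
  have h8 := (S.h2t x).mul_zero_at (y := S.wx x) t h2.self_of_nhds
  have e : S.wt x * S.U1 x = S.wx x * S.U2 x := congrArg (fun F : C2 => F x) S.compat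
  rw [e] at h7
  have h9 := (uniqueDiffOn_Icc pi_pos t t.2).eq_deriv _ h7 h8
  rw [h3, mul_zero] at h9
  have h10 := (mul_eq_zero.1 h9.symm).resolve_left hne
  simp only [C2.add_apply, C2.mul_apply, D.add_apply, D.mul_apply, h4, h10, h2.self_of_nhds]
    at h5 h6
  have := mul_pos (hE.μ_pos x t) (hw x t)
  linarith

lemma w_bdry (hE : G.Exact) (hw : ∀ x t, 0 < S.w x t) {t : Icc (0:ℝ) π}
    (h1 : ∀ x, S.U1 x t = 0) (x : T) : S.w x t = S.w (0:ℝ) t := by
  induction x using QuotientAddGroup.induction_on with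
  | H x =>
    exact is_const_of_deriv_eq_zero (f := fun z : ℝ => S.w z t)
      (fun z => (S.hwx.pt z t).differentiableAt)
      (fun z => by rw [(S.hwx.pt z t).deriv, S.wx_bdry hE hw h1]) x 0

lemma mono {m : ℝ} (hm : ∀ x t, S.wt x t ≤ -m) (x : T) {s t : Icc (0:ℝ) π} (hst : (s:ℝ) ≤ t) :
    m * (t - s) ≤ S.w x s - S.w x t := by
  have h1 := (S.hwt x).integral s t
  have h2 := intervalIntegral.integral_mono (μ := MeasureTheory.volume) hst
    ((ext_cont (S.wt x)).intervalIntegrable _ _)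
    (continuous_const.intervalIntegrable _ _) (fun z => hm x _ : ext (S.wt x) ≤ fun _ => -m)
  simp only [intervalIntegral.integral_const, smul_eq_mul] at h2
  linarith

lemma abs_mono {m : ℝ} (hm : ∀ x t, S.wt x t ≤ -m) (x : T) (s t : Icc (0:ℝ) π) :
    m * |(t:ℝ) - s| ≤ |S.w x t - S.w x s| := by
  rcases le_total (s:ℝ) t with h | h
  · rw [abs_of_nonneg (sub_nonneg.2 h), abs_sub_comm]
    exact (S.mono hm x h).trans (le_abs_self _)
  · rw [abs_sub_comm, abs_of_nonneg (sub_nonneg.2 h)]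
    exact (S.mono hm x h).trans (le_abs_self _)

/-- the range of the vorticity -/
def R : Set ℝ := Icc (S.w (0:ℝ) hi) (S.w (0:ℝ) lo)

/-- non-degeneracy of a flow -/
structure Good (m : ℝ) : Prop where
  m_pos : 0 < m
  w_pos : ∀ x t, 0 < S.w x t
  wt_le : ∀ x t, S.wt x t ≤ -m

variable {S} {m : ℝ}

namespace Good

variable (hS : S.Good m) (hE : G.Exact)
include hS

lemma wt_ne (x : T) (t : Icc (0:ℝ) π) : S.wt x t ≠ 0 :=
  ((hS.wt_le x t).trans_lt (neg_lt_zero.2 hS.m_pos)).ne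

lemma inj (x : T) {s t : Icc (0:ℝ) π} (h : S.w x s = S.w x t) : s = t := by
  have h1 := S.abs_mono hS.wt_le x s t
  rw [h, sub_self, abs_zero] at h1
  have h2 : |(t:ℝ) - s| ≤ 0 := by
    by_contra h3
    exact absurd h1 (not_le.2 (mul_pos hS.m_pos (not_le.1 h3)))
  exact Subtype.ext (sub_eq_zero.1 (abs_nonpos_iff.1 h2)).symm

lemma R_lt : S.w (0:ℝ) hi < S.w (0:ℝ) lo := by
  have := S.mono hS.wt_le (0:ℝ) (s := lo) (t := hi) pi_pos.le
  simp only [hi_coe, lo_coe, sub_zero] at this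
  linarith [mul_pos hS.m_pos pi_pos]

include hE

lemma mem_R (x : T) (t : Icc (0:ℝ) π) : S.w x t ∈ S.R := by
  have h1 := S.mono hS.wt_le x (s := lo) (t := t) t.2.1
  have h2 := S.mono hS.wt_le x (s := t) (t := hi) t.2.2
  rw [S.w_bdry hE hS.w_pos S.lo1] at h1
  rw [S.w_bdry hE hS.w_pos S.hi1] at h2
  have h3 := mul_nonneg hS.m_pos.le (sub_nonneg.2 t.2.1)
  have h4 := mul_nonneg hS.m_pos.le (sub_nonneg.2 t.2.2)
  simp only [hi_coe, lo_coe] at h1 h2
  exact ⟨by linarith, by linarith⟩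

lemma exists_level : ∃ Y : T → ℝ → Icc (0:ℝ) π, ∀ x, ∀ s ∈ S.R, S.w x (Y x s) = s := by
  have key : ∀ (x : T) (s : ℝ), ∃ t : Icc (0:ℝ) π, s ∈ S.R → S.w x t = s := by
    intro x s
    by_cases hs : s ∈ S.R
    · rw [R, ← S.w_bdry hE hS.w_pos S.lo1 x, ← S.w_bdry hE hS.w_pos S.hi1 x, ← ext_coe,
        ← ext_coe] at hs
      obtain ⟨t, ht, e⟩ := intermediate_value_Icc' pi_pos.le (ext_cont (S.w x)).continuousOn hs
      exact ⟨⟨t, ht⟩, fun _ => by rw [← ext_of_mem]; exact e⟩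
    · exact ⟨lo, fun h => absurd h hs⟩
  choose Y hY using key
  exact ⟨Y, hY⟩

omit hE

lemma lip {y : ℝ → Icc (0:ℝ) π} {s : ℝ} (hy : ∀ x : ℝ, S.w x (y x) = s) (x z : ℝ) :
    |(y z : ℝ) - y x| ≤ ‖S.wx‖ / m * |z - x| := by
  have h1 := S.abs_mono hS.wt_le x (y x) (y z)
  have h2 := (convex_univ (𝕜 := ℝ)).norm_image_sub_le_of_norm_hasDerivWithin_le
    (f := fun u : ℝ => S.w u (y z)) (f' := fun u : ℝ => S.wx u (y z)) (C := ‖S.wx‖)
    (fun u _ => (S.hwx.pt u (y z)).hasDerivWithinAt) (fun u _ => C2_abs_le _ _ _)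
    (mem_univ x) (mem_univ z)
  rw [hy x, ← hy z, abs_sub_comm (S.w _ _)] at h1
  rw [div_mul_eq_mul_div, le_div_iff₀' hS.m_pos]
  exact h1.trans h2

lemma level_cont {y : ℝ → Icc (0:ℝ) π} {s : ℝ} (hy : ∀ x : ℝ, S.w x (y x) = s) :
    Continuous y :=
  (LipschitzWith.of_dist_le' (K := ‖S.wx‖ / m) (fun z x => hS.lip hy x z)).continuous

lemma along {y : ℝ → Icc (0:ℝ) π} {s : ℝ} (hy : ∀ x : ℝ, S.w x (y x) = s) {F Fx Ft : C2}
    (hx : Dx F Fx) (ht : Dt F Ft) (x : ℝ) : HasDerivAt (fun z : ℝ => F z (y z))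
      (Fx x (y x) - Ft x (y x) / S.wt x (y x) * S.wx x (y x)) x := by
  set k := Ft x (y x) / S.wt x (y x) with hk
  have h1 := hasDerivAt_along (hx.sub (S.hwx.smul k)) (ht.sub (S.hwt.smul k)) (y := y) (x := x)
    (IsBigO.of_bound _ (Eventually.of_forall (fun z => hS.lip hy x z)))
    (by simp [hk, hS.wt_ne])
  simp only [C2.sub_apply, C2.smul_apply, D.sub_apply, D.smul_apply, hy] at h1
  simpa using h1.add_const (k * s)

include hE

/-- the stream function is a function of the vorticity -/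
lemma exists_K : ∃ K : ℝ → ℝ, (∀ x t, S.ψ x t = K (S.w x t)) ∧
    ∀ x t, HasDerivWithinAt K (S.U2 x t / S.wt x t) S.R (S.w x t) := by
  obtain ⟨Y, hY⟩ := hS.exists_level hE
  have h1 : ∀ s ∈ S.R, ∀ x : T, S.ψ x (Y x s) = S.ψ (0:ℝ) (Y (0:ℝ) s) := by
    intro s hs x
    induction x using QuotientAddGroup.induction_on with
    | H x =>
      have := hS.along (y := fun z : ℝ => Y z s) (fun z => hY z s hs) S.Dx_ψ S.Dt_ψ
      refine is_const_of_deriv_eq_zero (f := fun z : ℝ => S.ψ z (Y z s))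
        (fun z => (this z).differentiableAt) (fun z => ?_) x 0
      have h2 := S.compat' z (Y z s)
      have h3 := hS.wt_ne z (Y z s)
      rw [(this z).deriv]
      field_simp
      linarith
  have h2 : ∀ x t, Y x (S.w x t) = t := fun x t => hS.inj x (hY x _ (hS.mem_R hE x t))
  refine ⟨fun s => S.ψ (0:ℝ) (Y (0:ℝ) s), fun x t => ?_, fun x t => ?_⟩
  · simp only [← h1 _ (hS.mem_R hE x t) x, h2]
  · set k := S.U2 x t / S.wt x t with hk
    have h3 := ((S.Dt_ψ x).sub ((S.hwt x).smul k)).littleO (t := t) (by simp [hk, hS.wt_ne])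
      (l := 𝓝[S.R] (S.w x t)) (y := fun s => Y x s) (k := fun s => s - S.w x t)
      (IsBigO.of_bound m⁻¹ (eventually_nhdsWithin_of_forall (fun s hs => by
        have := S.abs_mono hS.wt_le x t (Y x s)
        rw [hY x s hs] at this
        rwa [le_inv_mul_iff₀ hS.m_pos])))
      (by simpa using (tendsto_id (x := 𝓝 (S.w x t))).sub_const (S.w x t) |>.mono_left
            nhdsWithin_le_nhds)
    rw [hasDerivWithinAt_iff_isLittleO]
    refine h3.congr' (eventually_nhdsWithin_of_forall (fun s hs => ?_)) EventuallyEq.rfl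
    simp only [D.sub_apply, D.smul_apply, hY x s hs, ← h1 s hs x, ← h1 _ (hS.mem_R hE x t) x, h2,
      smul_eq_mul]
    ring

lemma ratio_eq {x z : T} {t s : Icc (0:ℝ) π} (h : S.w x t = S.w z s) :
    S.U2 x t / S.wt x t = S.U2 z s / S.wt z s := by
  obtain ⟨K, -, hK⟩ := hS.exists_K hE
  exact (uniqueDiffOn_Icc hS.R_lt _ (hS.mem_R hE z s)).eq_deriv _ (h ▸ hK x t) (hK z s)

/-- increments of the stream function along horizontal circles -/
lemma incr (t : Icc (0:ℝ) π) {k ρ : ℝ} (h : ∀ x, |S.U2 x t / S.wt x t - k| ≤ ρ) (x z : ℝ) :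
    |S.ψ x t - S.ψ z t - k * (S.w x t - S.w z t)| ≤ ρ * |S.w x t - S.w z t| := by
  obtain ⟨K, hK0, hK⟩ := hS.exists_K hE
  have hc : Continuous fun u : ℝ => S.w u t := cont_along continuous_const _
  have h1 : ∀ s ∈ uIcc (S.w z t) (S.w x t), ∃ u : ℝ, S.w u t = s := fun s hs => by
    obtain ⟨u, -, e⟩ := intermediate_value_uIcc hc.continuousOn hs
    exact ⟨u, e⟩
  choose! u hu using h1
  have hsub : uIcc (S.w z t) (S.w x t) ⊆ S.R := uIcc_subset_Icc (hS.mem_R hE _ _) (hS.mem_R hE _ _)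
  have := (convex_uIcc (S.w z t) (S.w x t)).norm_image_sub_le_of_norm_hasDerivWithin_le
    (f := fun s => K s - k * s) (f' := fun s => S.U2 (u s) t / S.wt (u s) t - k) (C := ρ)
    (fun s hs => by
      have h2 := (hK (u s) t).mono hsub
      rw [hu s hs] at h2
      simpa using h2.fun_sub ((hasDerivWithinAt_id s _).const_mul k))
    (fun s _ => h _) left_mem_uIcc right_mem_uIcc
  rw [Real.norm_eq_abs, Real.norm_eq_abs] at this
  rw [hK0, hK0]
  convert this using 2
  ring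

/-- the circulation identity along the level curve through a point -/
lemma circ {wi : C2} (hwi : S.wt * wi = 1) (x : ℝ) (t : Icc (0:ℝ) π) :
    ∃ y : ℝ → Icc (0:ℝ) π, Continuous y ∧ (∀ z : ℝ, S.w z (y z) = S.w x t) ∧
      S.U2 x t / S.wt x t * av y (G.A * S.wt + G.d • (G.Ai * S.wx * S.wx * wi)) =
        avg (G.A * S.U2) lo + av y (lift2 V (G.μ * S.w)) := by
  obtain ⟨Y, hY⟩ := hS.exists_level hE
  let y : ℝ → Icc (0:ℝ) π := fun z => Y z (S.w x t)
  have hy : ∀ z : ℝ, S.w z (y z) = S.w x t := fun z => hY z _ (hS.mem_R hE x t)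
  have hc := hS.level_cont hy
  refine ⟨y, hc, hy, ?_⟩
  set k := S.U2 x t / S.wt x t with hk
  set P := G.A * S.wt + G.d • (G.Ai * S.wx * S.wx * wi) with hP
  set Q := lift2 V (G.μ * S.w) with hQ
  set Γ := avg (G.A * S.U2) lo with hΓ
  have hx := (Dx_Px (lift2 L0 (G.A * S.U2))).sub (S.hW1.lift2 V)
  have ht := (Dt_L0 (G.A * S.U2)).Px.sub (Dt_V (G.d • (G.Ai * S.U1)))
  have h1 := hS.along hy hx ht
  have h2 : ∀ z : ℝ, HasDerivAt (fun z : ℝ => (Px (lift2 L0 (G.A * S.U2))
      - lift2 V (G.d • (G.Ai * S.U1))) z (y z)) (k * P z (y z) - Q z (y z) - Γ) z := by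
    intro z
    refine (h1 z).congr_deriv ?_
    have e1 := congrArg (fun F : C2 => F z (y z)) S.hW2.split
    have e2 := congrArg (fun F : C2 => lift2 V F z (y z)) S.curl
    have e3 := congrArg (fun F : C2 => F z (y z)) hwi
    have e4 := S.compat' z (y z)
    have e5 : k = _ := hS.ratio_eq hE (hy z).symm
    have e6 := hS.wt_ne z (y z)
    simp only [map_add, C2.add_apply, D.add_apply, ← hQ, C2.mul_apply, D.mul_apply, C2.one_apply,
      D.one_apply] at e1 e2 e3
    simp only [avg_lift2, map_zero, C2.sub_apply, D.sub_apply, ι_apply, L0_apply, ← hΓ, hP,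
      C2.add_apply, D.add_apply, C2.smul_apply, D.smul_apply, C2.mul_apply, D.mul_apply,
      C2.zero_apply, D.zero_apply]
    have e7 : wi z (y z) = (S.wt z (y z))⁻¹ := eq_inv_of_mul_eq_one_right e3
    have e8 : S.U1 z (y z) = k * S.wx z (y z) := by
      rw [e5]; field_simp; linarith
    have e9 : S.U2 z (y z) = k * S.wt z (y z) := by
      rw [e5]; field_simp
    rw [e9] at e1
    rw [e7, e8, ← e2]
    field_simp
    linear_combination (-S.wt z (y z)) * e1
  have cP := (cont_along hc P).intervalIntegrable (μ := MeasureTheory.volume) 0 tp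
  have cQ := (cont_along hc Q).intervalIntegrable (μ := MeasureTheory.volume) 0 tp
  have h3 := intervalIntegral.integral_eq_sub_of_hasDerivAt (a := 0) (b := tp) (fun z _ => h2 z)
    (((cP.const_mul k).sub cQ).sub (continuous_const.intervalIntegrable _ _))
  have e0 : ((tp : ℝ) : T) = ((0:ℝ) : T) := by
    rw [← AddCircle.coe_add_period tp 0, zero_add]
  have e1 : y tp = y 0 := by simp only [y, e0]
  rw [e0, e1, sub_self, intervalIntegral.integral_sub ((cP.const_mul k).sub cQ)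
    (continuous_const.intervalIntegrable _ _), intervalIntegral.integral_sub (cP.const_mul k) cQ,
    intervalIntegral.integral_const_mul, intervalIntegral.integral_const, sub_zero,
    smul_eq_mul] at h3
  have := tp_pos.ne'
  rw [av, av]
  field_simp
  linarith

end Good

end Sol

end

end Pool.Agent.P.MP_0d657e_an
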