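import Pool.Agent.P.MP_0d657e_an.RedB3

/-! A priori estimates for steady flows whose vorticity is close to the base vorticity. -/

open Set Real

namespace Pool.Agent.P.MP_0d657e_an

noncomputable section

/-- a lower bound for the weight -/
def m0 : ℝ := exp (-b * π)
lemma m0_pos : 0 < m0 := exp_pos _
lemma m0_le (t : Icc (0:ℝ) π) : m0 ≤ exp (-b * t) :=
  exp_le_exp.2 (by nlinarith [b_pos, t.2.2])
lemma one_lt_b : 1 < b := by nlinarith [b_pos, b_sq]

/-- the inverse of the derivative of the base vorticity -/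
def Fi : C2 := ι (-((1/5:ℝ) • ex b))

lemma Fi_mul : Fi * F0t = 1 := C2_ext (fun x t => by
  have h3 : exp (b * t) * exp (-(b * t)) = 1 := by rw [← exp_add]; simp
  simp [Fi, F0t]
  linear_combination h3)

lemma norm_const_le (r : ℝ) : ‖algebraMap ℝ C2 r‖ ≤ |r| :=
  C2_norm_le (abs_nonneg _) (fun x t => by simp)

lemma norm_mul3_le (a c e : C2) : ‖a * c * e‖ ≤ ‖a‖ * ‖c‖ * ‖e‖ :=
  (norm_mul_le _ _).trans (mul_le_mul_of_nonneg_right (norm_mul_le _ _) (norm_nonneg _))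

lemma norm_mul4_le (a c e f : C2) : ‖a * c * e * f‖ ≤ ‖a‖ * ‖c‖ * ‖e‖ * ‖f‖ :=
  (norm_mul_le _ _).trans (mul_le_mul_of_nonneg_right (norm_mul3_le _ _ _) (norm_nonneg _))

namespace Sol

variable {G : Geo}

/-- closeness to the base flow -/
structure Near (S : Sol G) (ε : ℝ) : Prop where
  le : ε ≤ m0
  h0 : ‖S.w - F0‖ ≤ ε
  h1 : ‖S.wx‖ ≤ ε
  h2 : ‖S.wt - F0t‖ ≤ ε

variable {S : Sol G} {ε : ℝ}

lemma Near.nonneg (h : S.Near ε) : 0 ≤ ε := (norm_nonneg _).trans h.h0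

lemma Near.good (h : S.Near ε) : S.Good m0 where
  m_pos := m0_pos
  w_pos x t := by
    have h1 := (abs_le.1 ((C2_abs_le _ x t).trans (h.h0.trans h.le))).1
    simp only [F0, C2.sub_apply, D.sub_apply, ι_apply, D.smul_apply, om_apply] at h1
    nlinarith [m0_le t, m0_pos, one_lt_b]
  wt_le x t := by
    have h1 := (abs_le.1 ((C2_abs_le _ x t).trans (h.h2.trans h.le))).2
    simp only [F0t, C2.sub_apply, D.sub_apply, ι_apply, D.smul_apply, om_apply, D.neg_apply] at h1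
    linarith [m0_le t, m0_pos]

lemma inv_apply {wi : C2} (hwi : S.wt * wi = 1) (x : T) (t : Icc (0:ℝ) π) :
    wi x t = (S.wt x t)⁻¹ :=
  eq_inv_of_mul_eq_one_right (congrArg (fun F : C2 => F x t) hwi)

lemma Near.norm_inv (h : S.Near ε) {wi : C2} (hwi : S.wt * wi = 1) : ‖wi‖ ≤ m0⁻¹ :=
  C2_norm_le (inv_pos.2 m0_pos).le (fun x t => by
    rw [inv_apply hwi, abs_inv]
    exact inv_anti₀ m0_pos (le_abs.2 (Or.inr (by linarith [h.good.wt_le x t]))))

lemma est1 (hE : G.Exact) : ∃ C ≥ 0, ∀ (S : Sol G) (ε : ℝ) (wi : C2), S.Near ε → S.wt * wi = 1 →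
    ∃ γ : ℝ, ‖S.U2 * wi * F0t - algebraMap ℝ C2 γ - ι (ex b)‖ ≤ C * ε * (1 + ‖S.U2 * wi‖) := by
  have hF : Dt F0t (ι (-((5:ℝ) • -(b • om)))) := Dt_ι (D1_om.smul 5).neg
  have hP0 := G.hAt.mul hF
  generalize G.At * F0t + G.A * ι (-((5:ℝ) • -(b • om))) = Pt at hP0
  have hd := G.d_pos
  have hm := m0_pos
  set C1 := ‖G.A‖ + G.d * ‖G.Ai‖ + ‖Pt‖ * (2 / m0) with hC1
  set C2' := ‖lift2 V‖ * ‖G.μ‖ + ‖G.μ * F0‖ * (2 / m0) with hC2
  have p1 : 0 ≤ C1 := by positivity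
  have p2 : 0 ≤ C2' := by positivity
  refine ⟨C1 + C2', by positivity, fun S ε wi h hwi => ⟨avg (G.A * S.U2) lo - 1, ?_⟩⟩
  have hε := h.nonneg
  refine C2_norm_le (by positivity) (fun x t => ?_)
  obtain ⟨y, hc, hy, e⟩ := h.good.circ hE hwi x t
  have hyt : ∀ z : ℝ, |(y z : ℝ) - t| ≤ 2 / m0 * ε := fun z => by
    have h1 := S.abs_mono h.good.wt_le z t (y z)
    have h2 := abs_le.1 ((C2_abs_le _ x t).trans h.h0)
    have h3 := abs_le.1 ((C2_abs_le _ z t).trans h.h0)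
    simp only [F0, C2.sub_apply, D.sub_apply, ι_apply] at h2 h3
    rw [hy] at h1
    rw [div_mul_eq_mul_div, le_div_iff₀' hm]
    refine h1.trans (abs_le.2 ⟨?_, ?_⟩) <;> linarith [h2.1, h2.2, h3.1, h3.2]
  have key : ∀ {P P0 P0t : C2} {r : ℝ}, ‖P - P0‖ ≤ r * ε → Dt P0 P0t →
      |av y P - avg P0 t| ≤ (r + ‖P0t‖ * (2 / m0)) * ε := by
    intro P P0 P0t r h1 h2
    refine av_sub_le hc (fun z => ?_)
    have h3 := (C2_abs_le _ z (y z)).trans h1
    have h4 := ((h2 z).abs_sub_le t (y z)).trans (mul_le_mul (P0t.norm_coe_le_norm z) (hyt z)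
      (abs_nonneg _) (norm_nonneg _))
    simp only [C2.sub_apply, D.sub_apply] at h3
    calc _ ≤ _ := abs_sub_le _ (P0 z (y z)) _
      _ ≤ _ := by linarith
  have k1 := key (P := G.A * S.wt + G.d • (G.Ai * S.wx * S.wx * wi))
    (r := ‖G.A‖ + G.d * ‖G.Ai‖) (by
      have e1 : G.A * S.wt + G.d • (G.Ai * S.wx * S.wx * wi) - G.A * F0t =
          G.A * (S.wt - F0t) + G.d • (G.Ai * S.wx * S.wx * wi) := by ring
      rw [e1, add_mul]
      refine norm_add_le_of_le ((norm_mul_le _ _).trans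
        (mul_le_mul_of_nonneg_left h.h2 (norm_nonneg _))) ?_
      rw [norm_smul, Real.norm_eq_abs, abs_of_pos hd, mul_assoc G.d]
      refine mul_le_mul_of_nonneg_left ((norm_mul4_le _ _ _ _).trans ?_) hd.le
      have h1 : ‖S.wx‖ * ‖wi‖ ≤ 1 := (mul_le_mul (h.h1.trans h.le) (h.norm_inv hwi)
        (norm_nonneg _) hm.le).trans (mul_inv_cancel₀ hm.ne').le
      have h2 := mul_le_mul_of_nonneg_left h.h1 (norm_nonneg G.Ai)
      have h3 := mul_le_mul_of_nonneg_left h1 (mul_nonneg (norm_nonneg G.Ai) (norm_nonneg S.wx))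
      linarith) hP0
  have k2 := key (P := lift2 V (G.μ * S.w)) (r := ‖lift2 V‖ * ‖G.μ‖) (by
      rw [← map_sub, ← mul_sub, mul_assoc]
      exact (ContinuousLinearMap.le_opNorm _ _).trans (mul_le_mul_of_nonneg_left
        ((norm_mul_le _ _).trans (mul_le_mul_of_nonneg_left h.h0 (norm_nonneg _)))
        (norm_nonneg _))) (Dt_V (G.μ * F0))
  have a1 : avg (G.A * F0t) t = F0t x t := by rw [F0t, avg_mul_ι, hE.avgA, one_mul]; rfl
  have a2 : avg (lift2 V (G.μ * F0)) t = ex b t - 1 := by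
    have := congrArg (fun F => avg F t) G.Dt_Ae.split
    simp only [map_add, avg_lift2 L0, avg_mul_ι, hE.avgA, one_mul, D.add_apply, L0_apply] at this
    rw [this]; simp
  rw [a1, ← hC1] at k1
  rw [a2, ← hC2] at k2
  have h5 := C2_abs_le (S.U2 * wi) x t
  have e2 : (S.U2 * wi) x t = S.U2 x t / S.wt x t := by
    simp [inv_apply hwi, div_eq_mul_inv]
  rw [← e2] at e
  rw [C2.sub_apply, C2.sub_apply, C2.mul_apply, D.sub_apply, D.sub_apply, D.mul_apply,
    C2.algebraMap_apply, D.algebraMap_apply, ι_apply]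
  generalize av y (G.A * S.wt + G.d • (G.Ai * S.wx * S.wx * wi)) = p at *
  generalize av y (lift2 V (G.μ * S.w)) = q at *
  generalize (S.U2 * wi) x t = k at *
  have e3 : k * F0t x t - (avg (G.A * S.U2) lo - 1) - ex b t =
      (q - (ex b t - 1)) - k * (p - F0t x t) := by linear_combination e
  rw [e3]
  refine (abs_sub _ _).trans ?_
  rw [abs_mul]
  have h6 := mul_le_mul h5 k1 (abs_nonneg _) (norm_nonneg _)
  nlinarith [mul_nonneg p1 hε, mul_nonneg (mul_nonneg p2 hε) (norm_nonneg (S.U2 * wi))]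

lemma est2 (hE : G.Exact) (hA : G.Asym) : ∃ C ≥ 0, ∀ (S : Sol G) (ε : ℝ) (wi : C2), S.Near ε →
    S.wt * wi = 1 → ‖S.U2 * wi - Fi * ι (ex b)‖ ≤ C * ε * (1 + ‖S.U2 * wi‖) := by
  obtain ⟨C, hC, H1⟩ := est1 hE
  obtain ⟨θ, hθ⟩ := hA
  have hd := G.d_pos
  have ha := abs_pos.2 hθ
  set C3 := ‖II‖ * (‖G.μ * H.f θ‖ + G.d * ‖G.Ai * H.fx θ‖ + ‖G.A * H.ft θ‖
    + ‖G.A * H.ft θ‖ * C) with hC3
  refine ⟨‖Fi‖ * (C3 / |II (G.A * H.ft θ)| + C), by positivity, fun S ε wi h hwi => ?_⟩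
  obtain ⟨γ, hγ⟩ := H1 S ε wi h hwi
  have hε := h.nonneg
  have i1 := (S.hW1.mul (H.dx θ)).II_eq
  have i2 := (S.hW2.mul (H.dt θ)).II_eq (fun x => by simp [H.at_lo]) (fun x => by simp [H.at_hi])
  have i3 := (G.Dt_Ae.mul (H.dt θ)).II_eq (fun x => by simp [H.at_lo])
    (fun x => by simp [H.at_hi])
  have u1 : S.U1 = S.U2 * wi * S.wx := by
    linear_combination (exp := 1) wi * S.compat - S.U1 * hwi
  have u2 : S.U2 = S.U2 * wi * S.wt := by linear_combination (exp := 1) -S.U2 * hwi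
  generalize S.U2 * wi = k at *
  set ρ := k * F0t - algebraMap ℝ C2 γ - ι (ex b) with hρ
  have e1 : γ * II (G.A * H.ft θ) = -II (G.μ * H.f θ * (S.w - F0)
      + G.d • (G.Ai * H.fx θ * k * S.wx) + G.A * H.ft θ * k * (S.wt - F0t)
      + G.A * H.ft θ * ρ) := by
    have e : γ • (G.A * H.ft θ) + (G.μ * H.f θ * (S.w - F0)
      + G.d • (G.Ai * H.fx θ * k * S.wx) + G.A * H.ft θ * k * (S.wt - F0t)
      + G.A * H.ft θ * ρ) = (S.W1x * H.f θ + G.d • (G.Ai * S.U1) * H.fx θ)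
        + (S.W2t * H.f θ + G.A * S.U2 * H.ft θ)
        - (G.μ * F0 * H.f θ + G.A * ι (ex b) * H.ft θ) := by
      rw [hρ]
      simp only [Algebra.smul_def]
      linear_combination (exp := 1) -H.f θ * S.curl
        - algebraMap ℝ C2 G.d * G.Ai * H.fx θ * u1 - G.A * H.ft θ * u2
    have := congrArg II e
    rw [map_sub, map_add _ (S.W1x * _ + _), i1, i2, i3, map_add, map_smul, smul_eq_mul] at this
    linarith
  have hN := norm_nonneg k
  have e2 : |γ| * |II (G.A * H.ft θ)| ≤ C3 * (ε * (1 + ‖k‖)) := by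
    rw [← abs_mul, e1, abs_neg, hC3, mul_assoc ‖II‖]
    refine (II.le_opNorm _).trans (mul_le_mul_of_nonneg_left ?_ (norm_nonneg _))
    rw [add_mul, add_mul, add_mul]
    have hk : ∀ z : C2, ‖z‖ ≤ ε → ‖k‖ * ‖z‖ ≤ ε * (1 + ‖k‖) := fun z hz => by
      nlinarith [mul_le_mul_of_nonneg_left hz hN]
    refine norm_add_le_of_le (norm_add_le_of_le (norm_add_le_of_le ?_ ?_) ?_) ?_
    · exact (norm_mul_le _ _).trans (mul_le_mul_of_nonneg_left
        (h.h0.trans (le_mul_of_one_le_right hε (by linarith))) (norm_nonneg _))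
    · rw [norm_smul, Real.norm_eq_abs, abs_of_pos hd, mul_assoc G.d]
      refine mul_le_mul_of_nonneg_left ((norm_mul3_le _ _ _).trans ?_) hd.le
      rw [mul_assoc]
      exact mul_le_mul_of_nonneg_left (hk _ h.h1) (norm_nonneg _)
    · refine (norm_mul3_le _ _ _).trans ?_
      rw [mul_assoc]
      exact mul_le_mul_of_nonneg_left (hk _ h.h2) (norm_nonneg _)
    · refine (norm_mul_le _ _).trans ?_
      rw [mul_assoc]
      exact mul_le_mul_of_nonneg_left (by rwa [← mul_assoc]) (norm_nonneg _)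
  have e3 : k - Fi * ι (ex b) = Fi * (algebraMap ℝ C2 γ + ρ) := by
    rw [hρ]; linear_combination (exp := 1) -k * Fi_mul
  rw [e3, mul_assoc, mul_assoc]
  refine (norm_mul_le _ _).trans (mul_le_mul_of_nonneg_left ?_ (norm_nonneg _))
  rw [add_mul]
  refine norm_add_le_of_le ((norm_const_le γ).trans ?_) (by rwa [← mul_assoc])
  rwa [div_mul_eq_mul_div, le_div_iff₀ ha]

lemma est3 (hE : G.Exact) (hA : G.Asym) {ρ : ℝ} (hρ : 0 < ρ) : ∃ ε > 0, ε ≤ m0 ∧
    ∀ S : Sol G, S.Near ε → ∀ x t, |S.U2 x t / S.wt x t - -(exp (2 * b * t) / 5)| ≤ ρ := by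
  obtain ⟨C, hC, H2⟩ := est2 hE hA
  set N := ‖Fi * ι (ex b)‖ with hN
  have hN0 : 0 ≤ N := norm_nonneg _
  have hm := m0_pos
  refine ⟨min m0 (min 1 ρ / (2 * (C + 1) * (1 + N))), by positivity, min_le_left _ _,
    fun S h x t => ?_⟩
  obtain ⟨wi, hwi⟩ := exists_inv2 h.good.wt_ne
  have h1 := H2 S _ wi h hwi
  have h2 := min_le_right m0 (min 1 ρ / (2 * (C + 1) * (1 + N)))
  have hε := h.nonneg
  generalize min m0 (min 1 ρ / (2 * (C + 1) * (1 + N))) = ε at *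
  rw [le_div_iff₀ (by positivity)] at h2
  have h3 : ‖S.U2 * wi‖ ≤ ‖S.U2 * wi - Fi * ι (ex b)‖ + N := norm_le_norm_sub_add _ _
  have h4 := C2_abs_le (S.U2 * wi - Fi * ι (ex b)) x t
  have e : (S.U2 * wi - Fi * ι (ex b)) x t = S.U2 x t / S.wt x t - -(exp (2 * b * t) / 5) := by
    have : exp (2 * b * t) = exp (b * t) * exp (b * t) := by rw [← exp_add]; congr 1; ring
    simp [inv_apply hwi, Fi, div_eq_mul_inv, this]; ring
  rw [← e]
  refine h4.trans ?_
  have hr := norm_nonneg (S.U2 * wi - Fi * ι (ex b))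
  generalize ‖S.U2 * wi - Fi * ι (ex b)‖ = r at *
  have h5 : 0 ≤ C * ε := by positivity
  have h6 : 2 * (C * ε) * (1 + N) ≤ min 1 ρ := by nlinarith [mul_nonneg hε hN0]
  have h7 := h6.trans (min_le_left _ _)
  have h8 := h6.trans (min_le_right _ _)
  have h9 : 2 * (C * ε) ≤ 1 := by nlinarith
  nlinarith [mul_le_mul_of_nonneg_left h3 h5]

end Sol

end

end Pool.Agent.P.MP_0d657e_an
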