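import Pool.Agent.P.MP_0d657e_an.Defs

/-! Checks of the definitions: shear flows on the flat annulus, and scalings. -/

open Set Real

namespace Pool.Agent.P.MP_0d657e_an

namespace Shear

lemma uniq : UniqueDiffOn ℝ Strip := uniqueDiffOn_univ.prod (uniqueDiffOn_Icc pi_pos)

lemma pd_const (i : Fin 2) (c : ℝ) (p : ℝ × ℝ) : pd i (fun _ => c) p = 0 := by simp [pd]

lemma pd_mul (c : ℝ) (f : ℝ × ℝ → ℝ) (i : Fin 2) {p : ℝ × ℝ} (hp : p ∈ Strip) :
    pd i (fun q => c * f q) p = c * pd i f p := by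
  have h : fderivWithin ℝ (fun q => c * f q) Strip p = c • fderivWithin ℝ f Strip p :=
    fderivWithin_const_smul_field (f := f) c (uniq p hp)
  simp [pd, h]

lemma pd_add_height {f : ℝ × ℝ → ℝ} {F : ℝ → ℝ} {F' : ℝ} {p : ℝ × ℝ} (hp : p ∈ Strip)
    (hf : DifferentiableWithinAt ℝ f Strip p) (hF : HasDerivAt F F' p.2) :
    pd 0 (fun q => f q + F q.2) p = pd 0 f p ∧ pd 1 (fun q => f q + F q.2) p = pd 1 f p + F' := by
  have h := (hf.hasFDerivWithinAt.fun_add
    (hF.comp_hasFDerivAt p hasFDerivAt_snd).hasFDerivWithinAt).fderivWithin (uniq p hp)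
  have h2 : fderivWithin ℝ (fun q => f q + F q.2) Strip p = _ := h
  simp [pd, h2, e]

lemma isCk_pd {U : ℝ × ℝ → ℝ} (hU : IsCk 2 U) (i : Fin 2) : IsCk 1 (pd i U) := by
  refine ⟨(hU.1.fderivWithin uniq (by norm_num)).clm_apply contDiffOn_const, fun p hp => ?_⟩
  have hm : MapsTo (fun q : ℝ × ℝ => q + (2 * π, 0)) Strip Strip := fun q hq =>
    ⟨mem_univ _, by simpa using hq.2⟩
  have e1 : ((p.1 + 2 * π, p.2) : ℝ × ℝ) = p + (2 * π, 0) := by ext <;> simp
  have h1 := (hU.1.differentiableOn (by norm_num) _ (hm hp)).hasFDerivWithinAt.comp p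
    ((hasFDerivAt_id p).add_const (2 * π, 0)).hasFDerivWithinAt hm
  have h2 := (h1.congr' (f₁ := U) (fun q hq => by
    rw [← hU.2 q hq]
    congr 1
    ext <;> simp) hp).fderivWithin (uniq p hp)
  simp only [pd, e1, h2, ContinuousLinearMap.comp_id]

lemma isCk_add_height {k : WithTop ℕ∞} {f : ℝ × ℝ → ℝ} {F : ℝ → ℝ} (hf : IsCk k f)
    (hF : ContDiff ℝ k F) : IsCk k fun q => f q + F q.2 :=
  ⟨hf.1.add (hF.comp contDiff_snd).contDiffOn, fun p hp => by simp only [hf.2 p hp]⟩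

lemma isCk_mul {k : WithTop ℕ∞} {f : ℝ × ℝ → ℝ} (c : ℝ) (hf : IsCk k f) :
    IsCk k fun q => c * f q :=
  ⟨contDiffOn_const.mul hf.1, fun p hp => by simp only [hf.2 p hp]⟩

lemma isCk_const (k : WithTop ℕ∞) (c : ℝ) : IsCk k fun _ => c := ⟨contDiffOn_const, fun _ _ => rfl⟩

/-- Multiples of a steady vorticity are steady. -/
theorem scale (m : Metric) {w : ℝ × ℝ → ℝ} (h : m.IsSteadyVort w) (c : ℝ) :
    m.IsSteadyVort fun p => c * w p := by
  obtain ⟨h1, u, ⟨k1, k2, k3, P, k4, k5⟩, h2⟩ := h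
  refine ⟨isCk_mul c h1, fun i p => c * u i p, ⟨fun i => isCk_mul c (k1 i),
    fun x => by simp only [(k2 x).1, (k2 x).2, mul_zero, and_self], fun p hp => ?_,
    fun p => c * c * P p, isCk_mul _ k4, fun p hp k => ?_⟩, fun p hp => ?_⟩
  · have := k3 p hp
    simp only [Metric.div, mul_left_comm _ c, pd_mul c _ _ hp, ← Finset.mul_sum,
      mul_div_assoc] at this ⊢
    rw [this, mul_zero]
  · have := k5 p hp k
    simp only [Metric.advect, Metric.grad, pd_mul _ _ _ hp, Fin.sum_univ_two] at this ⊢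
    linear_combination c * c * this
  · simp only [h2 p hp, Metric.curl, mul_left_comm _ c, ← Finset.mul_sum, pd_mul c _ _ hp]
    ring

theorem exists_flat : ∃ m : Metric, ∀ i j p, m.g i j p = if i = j then 1 else 0 :=
  ⟨⟨fun i j _ => if i = j then 1 else 0, fun _ _ => isCk_const _ _,
    fun _ _ => Matrix.PosDef.one⟩, fun _ _ _ => rfl⟩

variable {m : Metric} (hm : ∀ i j p, m.g i j p = if i = j then 1 else 0)
include hm

lemma mat (p : ℝ × ℝ) : (Matrix.of fun i j => m.g i j p) = 1 := by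
  ext i j
  simp [hm, Matrix.one_apply]

lemma steady {U w : ℝ × ℝ → ℝ} (hU : IsCk 2 U) (h0 : ∀ p ∈ Strip, pd 0 U p = 0) (hw : IsCk 1 w)
    (e : ∀ p ∈ Strip, w p = -pd 1 U p) : m.IsSteadyVort w := by
  have hg : ∀ i j, m.g i j = fun _ => if i = j then 1 else 0 := fun i j => funext (hm i j)
  have hv : ∀ p, m.vol p = 1 := fun p => by simp [Metric.vol, mat hm]
  refine ⟨hw, ![U, fun _ => 0], ⟨Fin.forall_fin_two.2 ⟨⟨hU.1.of_le (by norm_num), hU.2⟩,
    isCk_const _ _⟩, fun x => ⟨rfl, rfl⟩, fun p hp => ?_, fun _ => 0, isCk_const _ _,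
    fun p hp => ?_⟩, fun p hp => ?_⟩
  · simp [Metric.div, hv, h0 p hp, pd_const]
  · simp [Metric.advect, Metric.grad, Metric.Γ, hg, pd_const, h0 p hp, Fin.forall_fin_two]
  · simp [Metric.curl, hv, hg, pd_const, e p hp]

lemma small {δ ε : ℝ} {F : ℝ → ℝ} (hF : ∀ t, HasDerivAt F δ t) (h1 : ∀ t ∈ Icc 0 π, |F t| ≤ ε)
    (h2 : |δ| ≤ ε) : m.C1Small (fun p => F p.2) ε := fun p hp => by
  have h := pd_add_height (f := fun _ => 0) hp (differentiableWithinAt_const _) (hF p.2)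
  simp only [zero_add, pd_const] at h
  refine ⟨h1 _ hp.2, ?_⟩
  simpa [Metric.gradNorm, Metric.grad, Metric.inv, mat hm, h.1, h.2, sqrt_mul_self_eq_abs] using h2

/-- On the flat annulus shear flows are steady and never isolated. -/
theorem not_isolated {U w : ℝ × ℝ → ℝ} (hU : IsCk 2 U) (h0 : ∀ p ∈ Strip, pd 0 U p = 0)
    (hw : ∀ p, w p = -pd 1 U p) : m.IsSteadyVort w ∧ ∀ ε : ℝ, 0 < ε → ∃ w' : ℝ × ℝ → ℝ,
      m.IsSteadyVort w' ∧ m.C1Small (fun p => w' p - w p) ε ∧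
        ¬ ∃ c : ℝ, ∀ p ∈ Strip, w' p = c * w p := by
  have hw1 : IsCk 1 w := by
    have := isCk_mul (-1) (isCk_pd hU 1)
    simpa only [neg_mul, one_mul, ← hw] using this
  have key : ∀ a d : ℝ, m.IsSteadyVort fun p => w p + (a + d * p.2) := fun a d => by
    have hF : ∀ t : ℝ, HasDerivAt (fun t => -(a * t + d / 2 * t ^ 2)) (-(a + d * t)) t := fun t =>
      ((((hasDerivAt_id' t).const_mul a).fun_add
        ((hasDerivAt_pow 2 t).const_mul (d / 2))).fun_neg).congr_deriv (by norm_num; ring)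
    have h := fun p hp => pd_add_height hp (hU.1.differentiableOn (by norm_num) p hp) (hF p.2)
    exact steady hm (isCk_add_height hU (F := fun t => -(a * t + d / 2 * t ^ 2)) (by fun_prop))
      (fun p hp => (h p hp).1.trans (h0 p hp))
      (isCk_add_height hw1 (F := fun t => a + d * t) (by fun_prop))
      fun p hp => by rw [(h p hp).2, hw]; ring
  refine ⟨steady hm hU h0 hw1 fun p _ => hw p, fun ε hε => ?_⟩
  by_cases h1 : ∃ c : ℝ, ∀ p ∈ Strip, w p + (ε + 0 * p.2) = c * w p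
  · refine ⟨_, key 0 (ε / 4), ?_, fun ⟨c', h2⟩ => ?_⟩
    · simp only [add_sub_cancel_left, zero_add]
      refine small hm (δ := ε / 4) (F := fun t => ε / 4 * t)
        (fun t => by simpa using (hasDerivAt_id' t).const_mul (ε / 4)) (fun t ht => ?_) ?_
      · rw [abs_of_nonneg (mul_nonneg (by positivity) ht.1)]
        nlinarith [ht.2, pi_le_four]
      · rw [abs_of_pos (by positivity)]
        linarith
    · obtain ⟨c, h1⟩ := h1
      have m0 : ((0, 0) : ℝ × ℝ) ∈ Strip := ⟨mem_univ _, left_mem_Icc.2 pi_pos.le⟩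
      have m1 : ((0, π) : ℝ × ℝ) ∈ Strip := ⟨mem_univ _, right_mem_Icc.2 pi_pos.le⟩
      have a1 := h1 _ m0
      have a2 := h2 _ m0
      have a3 := h2 _ m1
      have a4 : (c' - 1) * ε = 0 := by linear_combination (c' - 1) * a1 - (c - 1) * a2
      rw [sub_eq_zero.1 ((mul_eq_zero.1 a4).resolve_right hε.ne')] at a3
      nlinarith [mul_pos hε pi_pos]
  · refine ⟨_, key ε 0, ?_, h1⟩
    simp only [add_sub_cancel_left, zero_mul, add_zero]
    exact small hm (δ := 0) (F := fun _ => ε) (fun t => hasDerivAt_const t ε)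
      (fun _ _ => (abs_of_pos hε).le) (by simpa using hε.le)

end Shear

end Pool.Agent.P.MP_0d657e_an
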