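import Pool.Agent.P.MP_0d657e_an.Green

/-! A weighted Wiener space of angular Fourier series with coefficients in `C[0, π]`. -/

open Set Real

namespace Pool.Agent.P.MP_0d657e_an

noncomputable section

lemma Dx.eq_avg {F : C2} (h : Dx F 0) : F = ι (avg F) := by
  have e : F = ι (F (0:ℝ)) := by
    ext1 x
    induction x using QuotientAddGroup.induction_on with
    | H x =>
      exact is_const_of_deriv_eq_zero (f := fun x : ℝ => F x) (fun x => (h x).differentiableAt)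
        (fun x => (h x).deriv) x 0
  rw [e, avg_ι]

lemma Dx_iff {F G : C2} : Dx F G ↔ avg G = 0 ∧ F - Px G = ι (avg (F - Px G)) := by
  constructor
  · intro h
    refine ⟨h.avg_eq, Dx.eq_avg ((h.sub (Dx_Px G)).congr' ?_)⟩
    simp [h.avg_eq]
  · rintro ⟨h1, h2⟩
    refine ((Dx_ι (avg (F - Px G))).add (Dx_Px G)).congr (by rw [← h2]; abel) ?_
    simp [h1]

/-- evaluation at the left end point, as a constant function -/
def L0 : D0 →L[ℝ] D0 := (algebraMapCLM ℝ D0).comp (D.ev lo)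

lemma Dt_iff {F G : C2} : Dt F G ↔ F = lift2 L0 F + lift2 V G :=
  ⟨fun h => C2.ext (fun x => (h x).eq_V),
    fun h x => D1_iff.2 (congrArg (fun y : C2 => y x) h)⟩

lemma hasSum_zero_of {α X : Type*} [AddCommMonoid X] [TopologicalSpace X] [T2Space X]
    {f : α → X} {a : X} (h : HasSum f a) (h0 : ∀ k, f k = 0) : a = 0 := by
  rw [show f = fun _ => 0 from funext h0] at h
  exact h.unique hasSum_zero

lemma Dx_hasSum {α : Type*} {f g : α → C2} {F G : C2} (hf : HasSum f F) (hg : HasSum g G)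
    (h : ∀ k, Dx (f k) (g k)) : Dx F G := by
  refine Dx_iff.2 ⟨hasSum_zero_of (hg.mapL avg) (fun k => (h k).avg_eq), ?_⟩
  have h1 := hf.sub (hg.mapL Px)
  exact sub_eq_zero.1 (hasSum_zero_of (h1.sub ((h1.mapL avg).mapL ιL))
    (fun k => sub_eq_zero.2 (Dx_iff.1 (h k)).2))

lemma Dt_hasSum {α : Type*} {f g : α → C2} {F G : C2} (hf : HasSum f F) (hg : HasSum g G)
    (h : ∀ k, Dt (f k) (g k)) : Dt F G :=
  Dt_iff.2 (sub_eq_zero.1 (hasSum_zero_of
    (hf.sub ((hf.mapL (lift2 L0)).add (hg.mapL (lift2 V))))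
    (fun k => sub_eq_zero.2 (Dt_iff.1 (h k)))))

/-- symmetry of mixed derivatives -/
lemma Dt_Dx {F G F' G' : C2} (h : Dt F G) (hF : Dx F F') (hG : Dx G G') : Dt F' G' :=
  Dt_iff.2 (hF.unique (((hF.lift2 L0).add (hG.lift2 V)).congr (Dt_iff.1 h) rfl))

/-- summable sequences of functions of the height -/
def W : Type := lp (fun _ : ℤ => D0) 1

namespace W

instance : NormedAddCommGroup W := inferInstanceAs (NormedAddCommGroup (lp (fun _ : ℤ => D0) 1))
instance : NormedSpace ℝ W := inferInstanceAs (NormedSpace ℝ (lp (fun _ : ℤ => D0) 1))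
instance : CompleteSpace W := inferInstanceAs (CompleteSpace (lp (fun _ : ℤ => D0) 1))

/-- the underlying element -/
def l1 (w : W) : lp (fun _ : ℤ => D0) 1 := w
/-- the coefficients -/
@[coe] def co (w : W) (k : ℤ) : D0 := w.l1 k

instance : CoeFun W (fun _ => ℤ → D0) := ⟨co⟩

lemma ext' {v w : W} (h : ∀ k, v k = w k) : v = w := lp.ext (funext h)
@[simp] lemma add_apply (v w : W) (k : ℤ) : (v + w) k = v k + w k := rfl
@[simp] lemma neg_apply (v : W) (k : ℤ) : (-v) k = -v k := rfl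
@[simp] lemma smul_apply (c : ℝ) (w : W) (k : ℤ) : (c • w) k = c • w k := rfl

lemma hasSum (w : W) : HasSum (fun k => ‖w k‖) ‖w‖ := by
  have := lp.hasSum_norm (p := 1) (by simp) w.l1
  simp only [ENNReal.toReal_one, rpow_one] at this
  exact this

/-- constructor -/
def mk (y : ℤ → D0) (h : Summable fun k => ‖y k‖) : W :=
  (⟨y, memℓp_gen (by simpa using h)⟩ : lp (fun _ : ℤ => D0) 1)

@[simp] lemma mk_apply (y : ℤ → D0) (h) (k : ℤ) : mk y h k = y k := rfl

end W

/-- a uniformly bounded family of operators -/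
def UB {X : Type*} [NormedAddCommGroup X] [NormedSpace ℝ X] (T : ℤ → D0 →L[ℝ] X) : Prop :=
  ∃ C, ∀ k, ‖T k‖ ≤ C

section
variable {X : Type*} [NormedAddCommGroup X] [NormedSpace ℝ X] {T : ℤ → D0 →L[ℝ] X}

lemma UB.summable (h : UB T) (σ : ℤ ≃ ℤ) (w : W) : Summable fun k => ‖T k (w (σ k))‖ := by
  obtain ⟨C, hC⟩ := h
  exact Summable.of_nonneg_of_le (fun _ => norm_nonneg _)
    (fun k => (T k).le_of_opNorm_le (hC k) _)
    ((σ.summable_iff.2 (W.hasSum w).summable).mul_left C)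

lemma UB.tsum_le (h : UB T) (σ : ℤ ≃ ℤ) : ∃ C, ∀ w : W, ∑' k, ‖T k (w (σ k))‖ ≤ C * ‖w‖ := by
  have h' := h
  obtain ⟨C, hC⟩ := h
  exact ⟨C, fun w => hasSum_le (fun k => (T k).le_of_opNorm_le (hC k) _)
    (h'.summable σ w).hasSum ((σ.hasSum_iff.2 (W.hasSum w)).mul_left C)⟩

variable [CompleteSpace X]

/-- summation operator -/
def sumW (T : ℤ → D0 →L[ℝ] X) (h : UB T) : W →L[ℝ] X :=
  LinearMap.mkContinuousOfExistsBound
    { toFun := fun w => ∑' k, T k (w k)
      map_add' := fun v w => by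
        simp only [W.add_apply, map_add]
        exact Summable.tsum_add (h.summable (Equiv.refl _) v).of_norm
          (h.summable (Equiv.refl _) w).of_norm
      map_smul' := fun c w => by
        simp only [W.smul_apply, map_smul]
        exact Summable.tsum_const_smul c (h.summable (Equiv.refl _) w).of_norm }
    (by
      obtain ⟨C, hC⟩ := h.tsum_le (Equiv.refl _)
      exact ⟨C, fun w => (norm_tsum_le_tsum_norm (h.summable (Equiv.refl _) w)).trans (hC w)⟩)

lemma hasSum_sumW (h : UB T) (w : W) : HasSum (fun k => T k (w k)) (sumW T h w) :=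
  (h.summable (Equiv.refl _) w).of_norm.hasSum

end

/-- weighted shift operator -/
def opW (σ : ℤ ≃ ℤ) (T : ℤ → D0 →L[ℝ] D0) (h : UB T) : W →L[ℝ] W :=
  LinearMap.mkContinuousOfExistsBound
    { toFun := fun w => W.mk (fun k => T k (w (σ k))) (h.summable σ w)
      map_add' := fun v w => W.ext' (fun k => by simp)
      map_smul' := fun c w => W.ext' (fun k => by simp) }
    (by
      obtain ⟨C, hC⟩ := h.tsum_le σ
      exact ⟨C, fun w => by
        rw [← (W.hasSum _).tsum_eq]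
        exact hC w⟩)

@[simp] lemma opW_apply (σ : ℤ ≃ ℤ) (T : ℤ → D0 →L[ℝ] D0) (h : UB T) (w : W) (k : ℤ) :
    opW σ T h w k = T k (w (σ k)) := rfl

lemma summable_mul_W (y : D0) (w : W) : Summable fun k => ‖y * w k‖ :=
  Summable.of_nonneg_of_le (fun _ => norm_nonneg _) (fun _ => norm_mul_le _ _)
    ((W.hasSum w).summable.mul_left _)

/-- multiplication by a function of the height -/
def Dm : D0 →L[ℝ] W →L[ℝ] W :=
  LinearMap.mkContinuous₂
    (LinearMap.mk₂ ℝ (fun y w => W.mk (fun k => y * w k) (summable_mul_W y w))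
      (fun _ _ _ => W.ext' (fun k => by simp [add_mul]))
      (fun _ _ _ => W.ext' (fun k => by simp))
      (fun _ _ _ => W.ext' (fun k => by simp [mul_add]))
      (fun _ _ _ => W.ext' (fun k => by simp)))
    1 (fun y w => by
      rw [one_mul]
      exact hasSum_le (fun k => norm_mul_le y (w k))
        (W.hasSum (W.mk (fun k => y * w k) (summable_mul_W y w))) ((W.hasSum w).mul_left _))

@[simp] lemma Dm_apply (y : D0) (w : W) (k : ℤ) : Dm y w k = y * w k := rfl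

/-- the weight -/
def wt (k : ℤ) : ℝ := (1/2) ^ k.natAbs

lemma wt_pos (k : ℤ) : 0 < wt k := by unfold wt; positivity
@[simp] lemma wt_neg (k : ℤ) : wt (-k) = wt k := by simp [wt]

lemma wt_bdd (j : ℕ) : ∃ C, ∀ k : ℤ, |wt k * (k:ℝ) ^ j| ≤ C := by
  obtain ⟨C, hC⟩ := (tendsto_pow_const_mul_const_pow_of_abs_lt_one j (r := 1/2)
    (by norm_num [abs_of_pos])).bddAbove_range
  refine ⟨C, fun k => ?_⟩
  have := hC ⟨k.natAbs, rfl⟩
  simp only [Nat.cast_natAbs, Int.cast_abs] at this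
  rw [abs_mul, abs_of_pos (wt_pos k), abs_pow, mul_comm]
  exact this

lemma UB_E (j : ℕ) {e : ℤ → C2} (he : ∀ k, ‖e k‖ ≤ 1) :
    UB fun k : ℤ => (wt k * (k:ℝ) ^ j) • (ContinuousLinearMap.mul ℝ C2 (e k)).comp ιL := by
  obtain ⟨C, hC⟩ := wt_bdd j
  have h0 : 0 ≤ C := (abs_nonneg _).trans (hC 0)
  refine ⟨C, fun k => ContinuousLinearMap.opNorm_le_bound _ h0 (fun y => ?_)⟩
  change ‖(wt k * (k:ℝ) ^ j) • (e k * ι y)‖ ≤ _
  rw [norm_smul]
  refine mul_le_mul (hC k) ((norm_mul_le _ _).trans ?_) (norm_nonneg _) h0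
  exact (mul_le_of_le_one_left (norm_nonneg _) (he k)).trans (norm_ι_le y)

/-- cosine series -/
def Ec (j : ℕ) : W →L[ℝ] C2 := sumW _ (UB_E j norm_cx_le)
/-- sine series -/
def Es (j : ℕ) : W →L[ℝ] C2 := sumW _ (UB_E j norm_sx_le)

lemma hasSum_Ec (j : ℕ) (w : W) :
    HasSum (fun k : ℤ => (wt k * (k:ℝ) ^ j) • (cx k * ι (w k))) (Ec j w) :=
  hasSum_sumW (UB_E j norm_cx_le) w
lemma hasSum_Es (j : ℕ) (w : W) :
    HasSum (fun k : ℤ => (wt k * (k:ℝ) ^ j) • (sx k * ι (w k))) (Es j w) :=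
  hasSum_sumW (UB_E j norm_sx_le) w

lemma Dx_Ec (j : ℕ) (w : W) : Dx (Ec j w) (-Es (j + 1) w) :=
  Dx_hasSum (hasSum_Ec j w) (hasSum_Es (j + 1) w).neg (fun k =>
    (((Dx_cx k).mul (Dx_ι _)).smul _).congr' (by
      simp only [mul_zero, add_zero, neg_mul, smul_mul_assoc, smul_neg, smul_smul, pow_succ,
        mul_assoc]))

lemma Dx_Es (j : ℕ) (w : W) : Dx (Es j w) (Ec (j + 1) w) :=
  Dx_hasSum (hasSum_Es j w) (hasSum_Ec (j + 1) w) (fun k =>
    (((Dx_sx k).mul (Dx_ι _)).smul _).congr' (by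
      simp only [mul_zero, add_zero, smul_mul_assoc, smul_smul, pow_succ, mul_assoc]))

lemma Dt_Ec (j : ℕ) {v w : W} (h : ∀ k, D1 (v k) (w k)) : Dt (Ec j v) (Ec j w) :=
  Dt_hasSum (hasSum_Ec j v) (hasSum_Ec j w) (fun k =>
    (((Dt_cx k).mul (Dt_ι (h k))).smul _).congr' (by simp))

lemma Ec_at (j : ℕ) {w : W} (t : Icc (0:ℝ) π) (h : ∀ k, w k t = 0) (x : T) : Ec j w x t = 0 :=
  hasSum_zero_of ((hasSum_Ec j w).mapL ((D.ev t).comp (C2.ev x))) (fun k => by simp [h])

lemma Ec_Dm (y : D0) (w : W) : Ec 0 (Dm y w) = ι y * Ec 0 w :=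
  (hasSum_Ec 0 _).unique (((hasSum_Ec 0 w).mul_left (ι y)).congr_fun (fun k => by
    simp only [Dm_apply, map_mul, mul_smul_comm]; congr 1; ring))

lemma UB_Sh (m : ℤ) : UB fun k : ℤ => (wt (k - m) / wt k) • (1 : D0 →L[ℝ] D0) := by
  refine ⟨(wt m)⁻¹, fun k => ContinuousLinearMap.opNorm_le_bound _ (inv_pos.2 (wt_pos m)).le
    (fun y => ?_)⟩
  change ‖(wt (k - m) / wt k) • y‖ ≤ _
  rw [norm_smul, Real.norm_eq_abs, abs_of_pos (div_pos (wt_pos _) (wt_pos _))]
  refine mul_le_mul_of_nonneg_right ?_ (norm_nonneg _)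
  rw [div_le_iff₀ (wt_pos k), le_inv_mul_iff₀ (wt_pos m)]
  unfold wt
  rw [← pow_add]
  exact pow_le_pow_of_le_one (by norm_num) (by norm_num) (by omega)

/-- shift of the frequency -/
def Sh (m : ℤ) : W →L[ℝ] W := opW (Equiv.subRight m) _ (UB_Sh m)

lemma Sh_apply (m : ℤ) (w : W) (k : ℤ) : Sh m w k = (wt (k - m) / wt k) • w (k - m) := rfl

lemma cx_add (k m : ℤ) : cx (k + m) = cx m * cx k - sx m * sx k :=
  C2_ext (fun x t => by simp [add_mul, cos_add]; ring)

lemma Ec_Sh (m : ℤ) (w : W) : Ec 0 (Sh m w) = cx m * Ec 0 w - sx m * Es 0 w := by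
  have h := (Equiv.addRight m).hasSum_iff.2 (hasSum_Ec 0 (Sh m w))
  refine h.unique ((((hasSum_Ec 0 w).mul_left (cx m)).sub
    ((hasSum_Es 0 w).mul_left (sx m))).congr_fun (fun k => ?_))
  have := (wt_pos (k + m)).ne'
  simp only [Function.comp, Equiv.coe_addRight, Sh_apply, add_sub_cancel_right, pow_zero,
    mul_one, map_smul, mul_smul_comm, smul_smul, cx_add, ← smul_sub]
  congr 1
  · field_simp
  · ring

/-- multiplication by `cos (m x)` -/
def Cm (m : ℤ) : W →L[ℝ] W := (1/2 : ℝ) • (Sh m + Sh (-m))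
/-- multiplication of a sine series by `sin (m x)` -/
def Sm (m : ℤ) : W →L[ℝ] W := (1/2 : ℝ) • (Sh (-m) - Sh m)

lemma Ec_Cm (m : ℤ) (w : W) : Ec 0 (Cm m w) = cx m * Ec 0 w := by
  change Ec 0 ((1/2 : ℝ) • (Sh m w + Sh (-m) w)) = _
  rw [map_smul, map_add, Ec_Sh, Ec_Sh, cx_neg, sx_neg, neg_mul]
  module

lemma Ec_Sm (m : ℤ) (w : W) : Ec 0 (Sm m w) = sx m * Es 0 w := by
  change Ec 0 ((1/2 : ℝ) • (Sh (-m) w - Sh m w)) = _
  rw [map_smul, map_sub, Ec_Sh, Ec_Sh, cx_neg, sx_neg, neg_mul]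
  module

/-- a single mode -/
def sgl (k : ℤ) (y : D0) : W := W.mk (fun l => if l = k then (wt k)⁻¹ • y else 0)
  (summable_of_ne_finset_zero (s := {k}) (fun l hl => by
    rw [Finset.mem_singleton] at hl; simp [hl]))

lemma sgl_apply (k : ℤ) (y : D0) (l : ℤ) :
    sgl k y l = if l = k then (wt k)⁻¹ • y else 0 := rfl

lemma hasSum_sgl (e : ℤ → C2) (k : ℤ) (y : D0) :
    HasSum (fun l : ℤ => (wt l * (l:ℝ) ^ 0) • (e l * ι (sgl k y l))) (ι y * e k) :=
  (hasSum_ite_eq k (ι y * e k)).congr_fun (fun l => by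
    rw [sgl_apply]
    split_ifs with h
    · rw [h, pow_zero, mul_one, map_smul, mul_smul_comm, smul_smul,
        mul_inv_cancel₀ (wt_pos k).ne', one_smul, mul_comm]
    · simp)

lemma Ec_sgl (k : ℤ) (y : D0) : Ec 0 (sgl k y) = ι y * cx k :=
  (hasSum_Ec 0 _).unique (hasSum_sgl cx k y)

lemma Es_sgl (k : ℤ) (y : D0) : Es 0 (sgl k y) = ι y * sx k :=
  (hasSum_Es 0 _).unique (hasSum_sgl sx k y)

lemma cm_Ec (k : ℤ) (w : W) : cm k (Ec 0 w) = (wt k / 2) • (w k + w (-k)) := by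
  refine ((hasSum_Ec 0 w).mapL (cm k)).unique ?_
  have h1 := hasSum_ite_eq k ((wt k / 2) • w k)
  have h2 := hasSum_ite_eq (-k) ((wt k / 2) • w (-k))
  rw [smul_add]
  refine (h1.add h2).congr_fun (fun l => ?_)
  rw [map_smul, mul_comm (cx l), cm_ι_mul, cm_cx]
  by_cases a : l = k <;> by_cases c : l = -k
  · have hk : k = 0 := by omega
    subst a; subst hk
    simp only [neg_zero, if_true, add_zero, sub_zero, pow_zero, mul_one, mul_smul_comm, mul_add]
    module
  · subst a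
    simp only [if_true, if_neg c, if_neg (show ¬ l + l = 0 by omega), sub_self, pow_zero,
      mul_one, mul_smul_comm, zero_add, add_zero]
    module
  · subst c
    simp only [if_true, if_neg a, if_neg (show ¬ k - -k = 0 by omega), add_neg_cancel, pow_zero,
      mul_one, mul_smul_comm, zero_add, add_zero, wt_neg]
    module
  · simp only [if_neg a, if_neg c, if_neg (show ¬ k - l = 0 by omega),
      if_neg (show ¬ k + l = 0 by omega), add_zero, smul_zero, mul_zero]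

end

end Pool.Agent.P.MP_0d657e_an
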